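import Pool.Agent.UN.Defs

/-!
# UN: basic lemmas
-/

set_option autoImplicit false
set_option linter.unusedVariables false

namespace UN

open Set Filter Pool.Agent.Helper5.DU Pool.Agent.Helper6.Str Pool.Agent.Helper79.VC
  Pool.Agent.Helper97.LO Pool.Agent.Helper97.VC

variable {G : Sg} {M N O P ι κ V : Type} {S : Sys G M} {S' : Sys G N} {S'' : Sys G O}

/-! ## Words -/

theorem w_nil (x : M) : S.w [] x = x := rfl

theorem w_cons (f : G.Fn) (l : List G.Fn) (x : M) : S.w (f :: l) x = S.fn f (S.w l x) := rfl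

theorem w_append (l l' : List G.Fn) (x : M) : S.w (l ++ l') x = S.w l (S.w l' x) := by
  induction l with
  | nil => rfl
  | cons f l ih => rw [List.cons_append, w_cons, w_cons, ih]

/-! ## Atoms -/

theorem Tr_sub (v : κ → M) (s : ι → List G.Fn × κ) (a : At G ι) :
    Tr S v (a.sub s) ↔ Tr S (fun i => S.w (s i).1 (v (s i).2)) a := by
  cases a with
  | eq u t => simp only [At.sub, Tr, w_append]
  | rel R t => simp only [At.sub, Tr, w_append]

theorem Tr_map (v : κ → M) (h : ι → κ) (a : At G ι) :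
    Tr S v (a.map h) ↔ Tr S (v ∘ h) a := by
  rw [At.map, Tr_sub]; rfl

theorem Tr_congr {v v' : ι → M} {a : At G ι} (h : ∀ i ∈ a.vs, v i = v' i) :
    Tr S v a ↔ Tr S v' a := by
  cases a with
  | eq s t =>
    have h1 : v s.2 = v' s.2 := h _ (Or.inl rfl)
    have h2 : v t.2 = v' t.2 := h _ (Or.inr rfl)
    simp only [Tr, h1, h2]
  | rel R t =>
    have h1 : (fun k => S.w (t k).1 (v (t k).2)) = fun k => S.w (t k).1 (v' (t k).2) := by
      funext k; rw [h _ ⟨k, rfl⟩]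
    simp only [Tr, h1]

theorem At.vs_finite (a : At G ι) : a.vs.Finite := by
  cases a with
  | eq s t => exact (Set.finite_singleton _).insert _
  | rel R t => exact Set.finite_range _

/-- An atom comes from an atom over the subtype of a set which contains its variables. -/
theorem At.exists_sub (a : At G ι) (E : Set ι) (h : a.vs ⊆ E) :
    ∃ b : At G E, b.map Subtype.val = a := by
  cases a with
  | eq s t =>
    refine ⟨.eq (s.1, ⟨s.2, h (Or.inl rfl)⟩) (t.1, ⟨t.2, h (Or.inr rfl)⟩), ?_⟩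
    simp [At.map, At.sub]
  | rel R t =>
    refine ⟨.rel R fun k => ((t k).1, ⟨(t k).2, h ⟨k, rfl⟩⟩), ?_⟩
    simp [At.map, At.sub]

/-- An atom comes from an atom with finitely many variables. -/
theorem At.exists_fin (a : At G ι) :
    ∃ (n : ℕ) (h : Fin n → ι) (b : At G (Fin n)), Function.Injective h ∧ range h = a.vs ∧
      b.map h = a := by
  obtain ⟨b, hb⟩ := a.exists_sub a.vs Subset.rfl
  have := a.vs_finite.fintype
  let e := Fintype.equivFin a.vs
  refine ⟨Fintype.card a.vs, fun i => (e.symm i : ι), b.map e,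
    fun i j hij => e.symm.injective (Subtype.ext hij), ?_, ?_⟩
  · ext x
    constructor
    · rintro ⟨i, rfl⟩; exact (e.symm i).2
    · intro hx; exact ⟨e ⟨x, hx⟩, by simp⟩
  · conv_rhs => rw [← hb]
    cases b with
    | eq s t => simp [At.map, At.sub]
    | rel R t => simp [At.map, At.sub]

/-! ## Types -/

theorem Eqv.refl (v : ι → M) : Eqv S v S v := fun _ => Iff.rfl

theorem Eqv.symm {v : ι → M} {v' : ι → N} (h : Eqv S v S' v') : Eqv S' v' S v :=
  fun a => (h a).symm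

theorem Eqv.trans {v : ι → M} {v' : ι → N} {v'' : ι → O} (h : Eqv S v S' v')
    (h' : Eqv S' v' S'' v'') : Eqv S v S'' v'' := fun a => (h a).trans (h' a)

/-- words of families of the same type have the same type -/
theorem Eqv.words {v : ι → M} {v' : ι → N} (h : Eqv S v S' v') (s : κ → List G.Fn × ι) :
    Eqv S (fun k => S.w (s k).1 (v (s k).2)) S' (fun k => S'.w (s k).1 (v' (s k).2)) := fun a => by
  rw [← Tr_sub, ← Tr_sub]; exact h _

theorem Eqv.comp {v : ι → M} {v' : ι → N} (h : Eqv S v S' v') (g : κ → ι) :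
    Eqv S (v ∘ g) S' (v' ∘ g) := h.words fun k => ([], g k)

/-- variant of `Eqv.comp` -/
theorem Eqv.comp' {v : ι → M} {v' : ι → N} (h : Eqv S v S' v') (g : κ → ι) {u : κ → M}
    {u' : κ → N} (hu : ∀ k, u k = v (g k)) (hu' : ∀ k, u' k = v' (g k)) : Eqv S u S' u' := by
  obtain rfl : u = v ∘ g := funext hu
  obtain rfl : u' = v' ∘ g := funext hu'
  exact h.comp g

/-- variant of `Eqv.words` -/
theorem Eqv.words' {v : ι → M} {v' : ι → N} (h : Eqv S v S' v') {u : κ → M} {u' : κ → N}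
    (hu : ∀ k, ∃ l i, u k = S.w l (v i) ∧ u' k = S'.w l (v' i)) : Eqv S u S' u' := by
  choose l i h1 h2 using hu
  have h3 := h.words fun k => (l k, i k)
  obtain rfl : u = _ := funext h1
  obtain rfl : u' = _ := funext h2
  exact h3

theorem Eqv.w_eq {v : ι → M} {v' : ι → N} (h : Eqv S v S' v') (l l' : List G.Fn) (i j : ι) :
    S.w l (v i) = S.w l' (v j) ↔ S'.w l (v' i) = S'.w l' (v' j) := h (.eq (l, i) (l', j))

theorem Eqv.eq {v : ι → M} {v' : ι → N} (h : Eqv S v S' v') (i j : ι) :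
    v i = v j ↔ v' i = v' j := h.w_eq [] [] i j

theorem Eqv.gn {v : ι → M} {v' : ι → N} (h : Eqv S v S' v') (i j : ι) :
    Gn S (v i) (v j) ↔ Gn S' (v' i) (v' j) :=
  ⟨fun ⟨l, hl⟩ => ⟨l, (h.w_eq [] l j i).1 hl⟩, fun ⟨l, hl⟩ => ⟨l, (h.w_eq [] l j i).2 hl⟩⟩

theorem Eqv.mg {v : ι → M} {v' : ι → N} (h : Eqv S v S' v') (i j : ι) :
    Mg S (v i) (v j) ↔ Mg S' (v' i) (v' j) := and_congr (h.gn i j) (h.gn j i)

/-- types are determined by the finite subfamilies -/
theorem Eqv.of_fin {v : ι → M} {v' : ι → N}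
    (h : ∀ (n : ℕ) (g : Fin n → ι), Function.Injective g → Eqv S (v ∘ g) S' (v' ∘ g)) :
    Eqv S v S' v' := by
  intro a
  obtain ⟨n, g, b, hg, -, rfl⟩ := a.exists_fin
  rw [Tr_map, Tr_map]
  exact h n g hg b

theorem Eqv.of_finite {v : ι → M} {v' : ι → N}
    (h : ∀ E : Set ι, E.Finite → Eqv S (fun e : E => v e) S' (fun e : E => v' e)) :
    Eqv S v S' v' := by
  intro a
  obtain ⟨b, hb⟩ := a.exists_sub a.vs Subset.rfl
  rw [← hb, Tr_map, Tr_map]
  exact h _ a.vs_finite b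

/-! ## Generation -/

theorem Gn.refl (x : M) : Gn S x x := ⟨[], rfl⟩

theorem Gn.trans {x y z : M} (h : Gn S x y) (h' : Gn S y z) : Gn S x z := by
  obtain ⟨l, rfl⟩ := h
  obtain ⟨l', rfl⟩ := h'
  exact ⟨l' ++ l, (w_append _ _ _).symm⟩

theorem Gn.w (l : List G.Fn) (x : M) : Gn S x (S.w l x) := ⟨l, rfl⟩

theorem Mg.refl (x : M) : Mg S x x := ⟨Gn.refl x, Gn.refl x⟩

theorem Mg.symm {x y : M} (h : Mg S x y) : Mg S y x := ⟨h.2, h.1⟩

theorem Mg.trans {x y z : M} (h : Mg S x y) (h' : Mg S y z) : Mg S x z :=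
  ⟨h.1.trans h'.1, h'.2.trans h.2⟩

theorem Gn.mem {X : Set M} (hX : Cl S X) {x y : M} (hx : x ∈ X) (h : Gn S x y) : y ∈ X := by
  obtain ⟨l, rfl⟩ := h
  induction l with
  | nil => exact hx
  | cons f l ih => exact hX f _ ih

theorem w_mem {X : Set M} (hX : Cl S X) {x : M} (hx : x ∈ X) (l : List G.Fn) : S.w l x ∈ X :=
  Gn.mem hX hx ⟨l, rfl⟩

theorem cl_closed (X : Set M) : Cl S (cl S X) := by
  rintro f y ⟨x, hx, l, rfl⟩
  exact ⟨x, hx, f :: l, rfl⟩

theorem subset_cl (X : Set M) : X ⊆ cl S X := fun x hx => ⟨x, hx, Gn.refl x⟩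

theorem cl_mono {X Y : Set M} (h : X ⊆ Y) : cl S X ⊆ cl S Y := fun _ ⟨x, hx, hy⟩ => ⟨x, h hx, hy⟩

theorem cl_subset {X Y : Set M} (hY : Cl S Y) (h : X ⊆ Y) : cl S X ⊆ Y :=
  fun _ ⟨_, hx, hy⟩ => Gn.mem hY (h hx) hy

theorem cl_countable [Countable G.Fn] {X : Set M} (h : X.Countable) : (cl S X).Countable := by
  have : cl S X = ⋃ x ∈ X, range fun l : List G.Fn => S.w l x := by
    ext y
    simp only [cl, mem_ofPred_eq, mem_iUnion, mem_range, exists_prop]
    exact ⟨fun ⟨x, hx, l, hl⟩ => ⟨x, hx, l, hl.symm⟩, fun ⟨x, hx, l, hl⟩ => ⟨x, hx, l, hl.symm⟩⟩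
  rw [this]
  exact h.biUnion fun x _ => countable_range _

theorem mem_cl_range {q : P → M} {y : M} : y ∈ cl S (range q) ↔ ∃ c, Gn S (q c) y := by
  constructor
  · rintro ⟨_, ⟨c, rfl⟩, h⟩; exact ⟨c, h⟩
  · rintro ⟨c, h⟩; exact ⟨_, ⟨c, rfl⟩, h⟩

/-! ## Back and forth -/

theorem prs_mem (v : ι → M) (v' : ι → N) (i : ι) : (v i, v' i) ∈ prs v v' := ⟨i, rfl⟩

theorem atEq_iff {p : Set (M × N)} : AtEq (WS S) (WS S') p ↔
    ∀ (V : Type) (u : V → M × N), (∀ v, u v ∈ p) →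
      Eqv S (fun v => (u v).1) S' (fun v => (u v).2) := by
  constructor
  · intro h V u hu
    refine Eqv.of_fin fun n g _ a => ?_
    exact h.2 n a (fun i => u (g i)) fun i => hu _
  · intro h
    refine ⟨fun a ha b hb => ?_, fun n R v hv => h _ v hv R⟩
    have h1 := h Bool (fun c => if c then a else b) (by intro c; cases c <;> simpa)
    have h2 := h1.eq true false
    simpa using h2

theorem BW.eqv {X : Set M} {X' : Set N} {γ : Ordinal.{0}} {p : Set (M × N)}
    (h : BW S S' X X' γ p) {v : ι → M} {v' : ι → N} (hv : ∀ i, (v i, v' i) ∈ p) :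
    Eqv S v S' v' :=
  atEq_iff.1 h.atEq ι (fun i => (v i, v' i)) hv

end UN
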