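import Pool.Agent.UN.StB

/-!
# UN [QLB]: rules for iterated limits
-/

set_option autoImplicit false
set_option linter.unusedVariables false

namespace UN

open Set Filter

open Classical in
theorem QLB_cons {T Y : Type} (u : T → Ultrafilter Y) (Q : (T → Y) → Prop) (t : T) (l : List T)
    (y : T → Y) :
    QL u Q (t :: l) y ↔ ∀ᶠ z in (u t : Filter Y), QL u Q l (Function.update y t z) := Iff.rfl

open Classical in
theorem QLB_on {T Y : Type} (u : T → Ultrafilter Y) {Q : (T → Y) → Prop} {E : Finset T}
    (hQ : ∀ y y', (∀ t ∈ E, y t = y' t) → (Q y ↔ Q y')) (l : List T) :
    ∀ y y' : T → Y, (∀ t ∈ E, y t = y' t) → (QL u Q l y ↔ QL u Q l y') := by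
  induction l with
  | nil => intro y y' h; exact hQ y y' h
  | cons s l ih =>
    intro y y' h
    rw [QLB_cons, QLB_cons]
    refine eventually_congr (Eventually.of_forall fun z => ih _ _ fun t ht => ?_)
    rcases eq_or_ne t s with rfl | hts
    · rw [Function.update_self, Function.update_self]
    · rw [Function.update_of_ne hts, Function.update_of_ne hts, h t ht]

open Classical in
theorem thm_QLB : St_QLB := by
  intro T Y u l y
  refine ⟨?_, ?_, ?_, ?_, ?_, ?_, ?_, ?_⟩
  · intro Q
    induction l generalizing y with
    | nil => exact Iff.rfl
    | cons t l ih =>
      rw [QLB_cons, QLB_cons, ← Ultrafilter.eventually_not]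
      exact eventually_congr (Eventually.of_forall fun z => ih _)
  · intro Q Q'
    induction l generalizing y with
    | nil => exact Iff.rfl
    | cons t l ih =>
      rw [QLB_cons, QLB_cons, QLB_cons, ← eventually_and]
      exact eventually_congr (Eventually.of_forall fun z => ih _)
  · intro A D Q hD
    induction l generalizing y with
    | nil => exact Iff.rfl
    | cons t l ih =>
      simp only [QLB_cons]
      rw [← eventually_all_finite hD]
      exact eventually_congr (Eventually.of_forall fun z => ih _)
  · intro Q
    induction l generalizing y with
    | nil => intro h; exact ⟨y, fun _ _ => rfl, h⟩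
    | cons t l ih =>
      intro h
      rw [QLB_cons] at h
      obtain ⟨z, hz⟩ := h.exists
      obtain ⟨y', h1, h2⟩ := ih _ hz
      refine ⟨y', fun s hs => ?_, h2⟩
      rw [List.mem_cons, not_or] at hs
      rw [h1 s hs.2, Function.update_of_ne hs.1]
  · intro Q Q' h
    obtain rfl : Q = Q' := funext fun y => propext (h y)
    exact Iff.rfl
  · intro Q E _ hQ
    induction l generalizing y with
    | nil => exact Iff.rfl
    | cons t l ih =>
      by_cases ht : t ∈ E
      · rw [List.filter_cons_of_pos (by simpa using ht), QLB_cons, QLB_cons]
        exact eventually_congr (Eventually.of_forall fun z => ih _)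
      · rw [List.filter_cons_of_neg (by simpa using ht), QLB_cons, ← ih]
        have h1 : ∀ z : Y, (QL u Q l (Function.update y t z) ↔ QL u Q l y) := fun z =>
          QLB_on u hQ l _ _ fun s hs => by
            have hst : s ≠ t := by
              rintro rfl
              exact ht hs
            rw [Function.update_of_ne hst]
        rw [eventually_congr (Eventually.of_forall h1), eventually_const]
  · intro T' u' h Q y' hh hu
    induction l generalizing y y' with
    | nil => exact Iff.rfl
    | cons t l ih =>
      rw [List.map_cons, QLB_cons, QLB_cons, hu]
      refine eventually_congr (Eventually.of_forall fun z => ?_)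
      rw [ih y, Function.update_comp_eq_of_injective _ hh]
  · intro Q t z ht
    induction l generalizing y with
    | nil => exact Iff.rfl
    | cons s l ih =>
      rw [List.mem_cons, not_or] at ht
      rw [QLB_cons, QLB_cons]
      refine eventually_congr (Eventually.of_forall fun w => ?_)
      rw [Function.update_comm ht.1, ih _ ht.2]

end UN
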