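import Pool.Agent.UN.StA

/-!
# UN, module UPR: ultrapowers
-/

set_option autoImplicit false
set_option linter.unusedVariables false

namespace UN

open Set Filter

section

variable {G : Sg} {M X : Type}

/-- the setoid of almost equality -/
private def UPR_set (u : Ultrafilter X) (M : Type) : Setoid (X → M) where
  r v v' := ∀ᶠ x in (u : Filter X), v x = v' x
  iseqv := ⟨fun v => Eventually.of_forall fun _ => rfl, fun h => h.mono fun _ hx => hx.symm,
    fun h h' => (h.and h').mono fun _ hx => hx.1.trans hx.2⟩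

/-- the ultrapower of a system -/
private noncomputable def UPR_sys (u : Ultrafilter X) (S : Sys G M) :
    Sys G (Quotient (UPR_set u M)) where
  fn f := Quotient.map (fun v x => S.fn f (v x)) fun _ _ h =>
    Eventually.mono h fun x hx => congrArg (S.fn f) hx
  rel R b := ∀ᶠ x in (u : Filter X), S.rel R fun k => (b k).out x

/-- the class of a function -/
private def UPR_q (u : Ultrafilter X) (v : X → M) : Quotient (UPR_set u M) :=
  Quotient.mk (UPR_set u M) v

private theorem UPR_eq (u : Ultrafilter X) (v v' : X → M) :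
    UPR_q u v = UPR_q u v' ↔ ∀ᶠ x in (u : Filter X), v x = v' x :=
  ⟨fun h => Quotient.exact h, fun h => Quotient.sound h⟩

private theorem UPR_out (u : Ultrafilter X) (v : X → M) :
    ∀ᶠ x in (u : Filter X), (UPR_q u v).out x = v x :=
  Quotient.mk_out (s := UPR_set u M) v

private theorem UPR_w (u : Ultrafilter X) (S : Sys G M) (l : List G.Fn) (v : X → M) :
    (UPR_sys u S).w l (UPR_q u v) = UPR_q u fun x => S.w l (v x) := by
  induction l with
  | nil => rfl
  | cons f l ih =>
    rw [w_cons, ih]
    rfl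

private theorem UPR_Tr (u : Ultrafilter X) (S : Sys G M) {ι : Type} (v : ι → X → M)
    (a : At G ι) :
    Tr (UPR_sys u S) (fun i => UPR_q u (v i)) a ↔
      ∀ᶠ x in (u : Filter X), Tr S (fun i => v i x) a := by
  cases a with
  | eq s t =>
    simp only [Tr, UPR_w, UPR_eq]
  | rel R t =>
    simp only [Tr, UPR_w]
    have h : ∀ᶠ x in (u : Filter X), ∀ k : Fin (G.ar R),
        (UPR_q u fun x => S.w (t k).1 (v (t k).2 x)).out x = S.w (t k).1 (v (t k).2 x) :=
      eventually_all.2 fun k => UPR_out u _
    change (∀ᶠ x in (u : Filter X), S.rel R fun k =>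
      (UPR_q u fun x => S.w (t k).1 (v (t k).2 x)).out x) ↔ _
    refine eventually_congr (h.mono fun x hx => ?_)
    rw [show (fun k => (UPR_q u fun x => S.w (t k).1 (v (t k).2 x)).out x) =
      fun k => S.w (t k).1 (v (t k).2 x) from funext hx]

end

theorem thm_UPR : St_UPR := by
  intro G U M S hU hM X u
  have hs : Function.Surjective (UPR_q (M := M) u) := fun b => by
    obtain ⟨v, hv⟩ := Quotient.exists_rep b
    exact ⟨v, hv⟩
  refine ⟨Quotient (UPR_set u M), UPR_sys u S, UPR_q u, ?_, hs, fun ι v a => UPR_Tr u S v a⟩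
  refine hU.loc _ _ ?_ fun n v' D hD => ?_
  · obtain ⟨m⟩ := hU.ne M S hM
    exact ⟨UPR_q u fun _ => m⟩
  choose v hv using fun i => hs (v' i)
  have hv' : v' = fun i => UPR_q u (v i) := funext fun i => (hv i).symm
  have h : ∀ᶠ x in (u : Filter X), ∀ a ∈ D,
      (Tr (UPR_sys u S) v' a ↔ Tr S (fun i => v i x) a) := by
    refine (eventually_all_finite hD).2 fun a _ => ?_
    by_cases ha : Tr (UPR_sys u S) v' a
    · have h1 := ha
      rw [hv', UPR_Tr] at h1
      exact h1.mono fun x hx => ⟨fun _ => hx, fun _ => ha⟩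
    · have h1 : ¬ ∀ᶠ x in (u : Filter X), Tr S (fun i => v i x) a := by
        rw [← UPR_Tr, ← hv']; exact ha
      exact (Ultrafilter.eventually_not.2 h1).mono fun x hx => ⟨fun h2 => (ha h2).elim,
        fun h2 => (hx h2).elim⟩
  obtain ⟨x, hx⟩ := h.exists
  exact ⟨M, S, hM, fun i => v i x, hx⟩

end UN
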