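import Pool.Agent.UN.StA

/-!
# UN, statements B: order configurations

Conventions as in `StA.lean`. `Gn S x y`: `y` is generated by `x`. Words of a row element are
moved by `Eqv.words'`, subfamilies by `Eqv.comp'` (`Bas.lean`).
-/

set_option autoImplicit false
set_option linter.unusedVariables false

namespace UN

open Set Filter Pool.Agent.Helper5.DU Pool.Agent.Helper6.Str Pool.Agent.Helper79.VC
  Pool.Agent.Helper97.LO Pool.Agent.Helper97.VC

/-- [IPO] (0.5 h; no other module) Indiscernibility for families of elements at arbitrary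
positions.

Proof. By `Eqv.of_finite`: let `E ⊆ P ⊕ V` be finite, `W := {v | Sum.inr v ∈ E}` (finite),
`F := i '' W` as a `Finset I`, `n := F.card`, `s := F.orderEmbOfFin rfl : Fin n ↪o I` with range
`F`. For `v ∈ W` let `k v : Fin n` with `s (k v) = i v`. The hypothesis gives
`i v = i v' ↔ j v = j v'`, so there is `t : Fin n → I` with `t (k v) = j v` for `v ∈ W` (every `k`
is `k v` for some `v ∈ W`), and `t` is strictly monotone. `Ind` for `s`, `t`, restricted by
`Eqv.comp'` to `E` (`Sum.inr v ↦ Sum.inr (k v, r v)`). -/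
def St_IPO : Prop := ∀ (G : Sg) (M P ι I V : Type) [LinearOrder I] (S : Sys G M) (p : P → M)
  (z : I → ι → M), Ind S p z → ∀ (i j : V → I) (r : V → ι), (∀ v v', i v < i v' ↔ j v < j v') →
  Eqv S (Sum.elim p fun v => z (i v) (r v)) S (Sum.elim p fun v => z (j v) (r v))

/-- [OLR] (1.2 h; uses `St_IPO`) An indiscernible sequence on which an atom defines the order gives
an order configuration.

Proof. Let (PC) be the hypothesis (everything after `U M S`). Choose `M S P ι p z a e` with (PC)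
such that `Nat.card ι` is minimal (induction or `Nat.find` on `Nat.card ι`; the minimum is over all
`M`, `P`, ...; strong induction on `n`: for every (PC) with `Nat.card ι = n` the conclusion holds;
so in a given (PC) we may assume the conclusion for all (PC) with fewer rows).
Claim: `Ant S p (fun v : ℚ × ι => z v.1 v.2)`, or there is a (PC) with fewer rows.
(1) Suppose `Gn S (p c) (z i r)`: `z i r = S.w l (p c)`. By `Ind` (`n = 1`) this holds for all `i`.
Let `ι' := {x // x ≠ r}`, the rows `z i x`, `x : ι'`, and in the atom `a` replace both copies of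
the variable `r` by the word `l` of the variable `Sum.inl c` (`At.sub`, `Tr_sub`). This is a (PC).
(2) Suppose `Gn S (z j r') (z i r)` with `j ≠ i`, `z i r = S.w l (z j r')`, say `i < j`
(otherwise symmetric). By `Ind` (`St_IPO`) this holds for all `i < j`. So `z i r = z i' r =: c` for
all `i, i'` (take `j` above both). New parameters `p' := Option P → M` (`none ↦ c`), rows `ι'` as in
(1); in `a` the copies of `r` are replaced by the variable `Sum.inl none`. `Ind S p' z'`: for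
strictly monotone `s, t : Fin n → ℚ` choose `m > ` all `s k`, `m' > ` all `t k` (in the case `i > j`
below them), `c = S.w l (z m r') = S.w l (z m' r')`; `St_IPO` for the positions `s k` and `m` (resp.
`t k` and `m'`), then `Eqv.words'`. This is a (PC) with fewer rows.
(3) Suppose `Gn S (z i r') (z i r)` with `r' ≠ r`, word `l`. For all `i` by `Ind`. Rows `ι'`; each
copy of `r` is replaced by the word `l` of the same copy of `r'`.
So we may assume `Ant`. Doubling: let `h : ℚ ×ₗ Bool ↪o ℚ`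
(`Order.embedding_from_countable_to_dense`), `R₁ := R₂ := ι`,
`z' i (Sum.inl r) := z (h (i, false)) r`, `z' i (Sum.inr r) := z (h (i, true)) r`, the same `p`,
`a`, `e`. `Ind S p z'` by `St_IPO`, `Ant` because the positions are different, `ord`: for `i ≠ j`:
`h (i, false) < h (j, true) ↔ i < j`, and `h (i, false) ≠ h (j, true)`. -/
def St_OLR : Prop := ∀ (G : Sg) (U : ∀ M : Type, Sys G M → Prop) (M P ι : Type) (S : Sys G M)
  (p : P → M) (z : ℚ → ι → M) (a : At G (P ⊕ (ι ⊕ ι))) (e : Prop), U M S →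
  Finite P → Finite ι → Ind S p z →
  (∀ i j, i ≠ j → (Tr S (Sum.elim p (Sum.elim (z i) (z j))) a ↔ (e ↔ i < j))) → ∃ n, OC U n

open Classical in
/-- [QLB] (0.8 h; no other module) Rules for iterated limits.

Proof. All by induction on `l` (generalizing `y`). (1), (2): `Ultrafilter.eventually_not`,
`Filter.eventually_and` etc. (3): `Set.Finite.induction_on` or by (2) and induction. (4): from the
last `z` to the first: `Filter.Eventually.exists`. (5) `QL` is monotone in `Q`: `Filter.Eventually`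
`.mono`. (6) if `Q` does not depend on the coordinates outside of `E`, then for `t ∉ E`:
`QL u Q l (update y t z) ↔ QL u Q l y` (first show: if `y = y'` on `E` then
`QL u Q l y ↔ QL u Q l y'`, by induction on `l`), and `∀ᶠ z in u t, (constant)` is the constant
(`Filter.eventually_const`). (7) `update y (h t) z ∘ h = update (y ∘ h) t z` for injective `h`.
(8) `update` at `t` and at the elements of `l` commute (`Function.update_comm`). -/
def St_QLB : Prop := ∀ (T Y : Type) (u : T → Ultrafilter Y) (l : List T) (y : T → Y),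
  (∀ Q : (T → Y) → Prop, QL u (fun y => ¬ Q y) l y ↔ ¬ QL u Q l y) ∧
  (∀ Q Q' : (T → Y) → Prop, QL u (fun y => Q y ∧ Q' y) l y ↔ QL u Q l y ∧ QL u Q' l y) ∧
  (∀ (A : Type) (D : Set A) (Q : A → (T → Y) → Prop), D.Finite →
    (QL u (fun y => ∀ a ∈ D, Q a y) l y ↔ ∀ a ∈ D, QL u (Q a) l y)) ∧
  (∀ Q : (T → Y) → Prop, QL u Q l y → ∃ y', (∀ t ∉ l, y' t = y t) ∧ Q y') ∧
  (∀ Q Q' : (T → Y) → Prop, (∀ y, Q y ↔ Q' y) → (QL u Q l y ↔ QL u Q' l y)) ∧
  (∀ (Q : (T → Y) → Prop) (E : Finset T) [DecidablePred (· ∈ E)],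
    (∀ y y', (∀ t ∈ E, y t = y' t) → (Q y ↔ Q y')) →
    (QL u Q l y ↔ QL u Q (l.filter (· ∈ E)) y)) ∧
  (∀ (T' : Type) (u' : T' → Ultrafilter Y) (h : T → T') (Q : (T → Y) → Prop) (y' : T' → Y),
    Function.Injective h → (∀ t, u' (h t) = u t) →
    (QL u' (fun y' => Q (y' ∘ h)) (l.map h) y' ↔ QL u Q l (y' ∘ h))) ∧
  (∀ (Q : (T → Y) → Prop) (t : T) (z : Y), t ∉ l →
    (QL u Q l (Function.update y t z) ↔ QL u (fun y' => Q (Function.update y' t z)) l y))

/-- [EMQ] (1.2 h; uses `St_LIM`, `St_QLB`) Indiscernible sequences along `ℚ` from limits of a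
sequence.

Proof. Let `u : ℚ → Ultrafilter ℕ` be constant `W`, fix `y₀ : ℚ → ℕ` constant `0`. For
`a : At G (M ⊕ ℚ × ι)` let `F a : Finset ℚ` be the set of the `i` with `Sum.inr (i, r) ∈ a.vs` for
some `r`, `Q a y := Tr S (Sum.elim id fun v : ℚ × ι => z (y v.1) v.2) a` (depends only on the
coordinates in `F a`, `Tr_congr`), and `Θ a := QL u (Q a) ((F a).sort (· ≤ ·)) y₀`. For finite
`F' ⊇ F a`: `Θ a ↔ QL u (Q a) (F'.sort (· ≤ ·)) y₀` by `St_QLB` (6), because
`(F'.sort).filter (· ∈ F a) = (F a).sort` (both are sorted, without duplicates and with the same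
elements: `List.eq_of_perm_of_sorted` or similar).
Finite satisfiability: for `D` finite let `F' := ⋃ F a`; by (1), (3), (5) of `St_QLB`
`QL u (fun y => ∀ a ∈ D, (Q a y ↔ Θ a)) (F'.sort ..) y₀` holds (for each `a` distinguish whether
`Θ a` is true), so some `y` satisfies this; `v (i, r) := z (y i) r`. `St_LIM` gives `N, S', e`,
`x i r := v (i, r)`, with `Tr S' (Sum.elim e x) a ↔ Θ a`.
`Ind S' e x`: for `s : Fin n → ℚ` strictly monotone and `b : At G (M ⊕ Fin n × ι)` the atom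
`b.map (Sum.map id (Prod.map s id))` is in `ℚ`; with `F' := image of s`, `F'.sort = (List.finRange
n).map s`; `St_QLB` (7) gives `Θ (..) ↔ QL (fun _ => W) (Q b) (List.finRange n) (y₀ ∘ s)`, with
`Q b y := Tr S (Sum.elim id fun v => z (y v.1) v.2) b`, and `y₀ ∘ s` is the constant `0`, so it does
not depend on `s`.
Pairs: the same for `n = 2`, `s = ![i, j]`: `QL` over `[0, 1]` unfolds to the right side. -/
def St_EMQ : Prop := ∀ (G : Sg) (U : ∀ M : Type, Sys G M → Prop) (M ι : Type) (S : Sys G M),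
  IsU U → U M S → ∀ (z : ℕ → ι → M) (W : Ultrafilter ℕ),
  ∃ (N : Type) (S' : Sys G N) (e : M → N) (x : ℚ → ι → N), U N S' ∧ Ind S' e x ∧
    Eqv S id S' e ∧ ∀ i j, i < j → ∀ a : At G (M ⊕ (ι ⊕ ι)),
      (Tr S' (Sum.elim e (Sum.elim (x i) (x j))) a ↔
        ∀ᶠ k in (W : Filter ℕ), ∀ᶠ l in (W : Filter ℕ), Tr S (Sum.elim id (Sum.elim (z k) (z l))) a)

/-- [HGS] (0.4 h; no other module) Half graphs from limits which do not commute.

Proof. Let `A := {x | ∀ᶠ y in v, R x y}`, `B := {y | ∀ᶠ x in u, ¬ R x y}` (both eventually true).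
Build by recursion `(x n, y n)` with `x n ∈ A`, `y n ∈ B`, `¬ R (x n) (y j)` for `j < n`, and
`R (x i) (y n)` for `i ≤ n`: given the earlier ones, `x n` exists because `A` and the finitely many
sets `{x | ¬ R x (y j)}` are large for `u` (`Filter.eventually_all_finite`, `.exists`); then `y n`
exists because `B` and the sets `{y | R (x i) y}`, `i ≤ n`, are large for `v`. Form of the recursion:
lists of pairs, or `exists_seq_of_forall_finset_exists` for the relation
`r (x, y) (x', y') := ¬ R x' y ∧ R x y'` on the pairs with `x ∈ A`, `y ∈ B`, `R x y`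
(`Mathlib.Order.Basic..`: `exists_seq_of_forall_finset_exists (P) (r) (h : ∀ s : Finset, (∀ x ∈ s,
P x) → ∃ y, P y ∧ ∀ x ∈ s, r x y) : ∃ f : ℕ → α, (∀ n, P (f n)) ∧ ∀ m n, m < n → r (f m) (f n)`). -/
def St_HGS : Prop := ∀ (X Y : Type) (u : Ultrafilter X) (v : Ultrafilter Y) (R : X → Y → Prop),
  (∀ᶠ x in (u : Filter X), ∀ᶠ y in (v : Filter Y), R x y) →
  (∀ᶠ y in (v : Filter Y), ∀ᶠ x in (u : Filter X), ¬ R x y) →
  ∃ (x : ℕ → X) (y : ℕ → Y), ∀ i j, R (x i) (y j) ↔ i ≤ j

/-- [OMK] (1.2 h; uses `St_IPO`) Marks lemma: families of elements of the middle part which have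
the same type over the marks have the same type over all elements outside of the middle part.

Proof. Let `q := QM d p z`, and let `O` be the family of the elements `z c.1 c.2`, `c.1 ∉ Ioo 0 1`
(the marks are among them: `mk d k ∉ Ioo 0 1`). Let `a` be an atom over `P ⊕ (O ⊕ V)`; we show
`Tr (u) a → Tr (u') a` (and use symmetry). First step: if a variable `v : V` of `a` satisfies
`Gn S (q c) (u v)`, `u v = S.w l (q c)`, then `u' v = S.w l (q c)` by the hypothesis
(`Eqv.w_eq`). Choose for every `v : V` such `l, c` if possible. Replace these variables by the words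
`l` of the variables of `q c` (in `P` or in `O`): so let `V₁ := {v | no such c}`, and `a'` an atom
over `P ⊕ (O ⊕ V₁)` with `Tr (u) a ↔ Tr (u) a'`, `Tr (u') a ↔ Tr (u') a'` (`At.sub`, `Tr_sub`,
`Tr_congr`). For `v ∈ V₁`: `u v = S.w (l v) (z (i v) (r v))` with `i v ∈ Ioo 0 1`, and
`u' v = S.w (l' v) (z (i' v) (r' v))` (for `u' v` no `c` either, by the hypothesis).
Second step: the variables of `a'` in `O` have positions in a finite set `F` with at most `d`
elements (`a'.vs` has at most `max 2 (ar R) ≤ d` elements), outside of `Ioo 0 1`. Choose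
`σ : ℚ → ℚ` strictly monotone on `F ∪ Ioo 0 1`, the identity on `Ioo 0 1`, which maps the elements
`≤ 0` of `F` to positions `-1, .., -d` of marks and the elements `≥ 1` of `F` to positions
`2, .., d + 1`: if `F₋` are the elements `≤ 0`, map `f ∈ F₋` to
`-1 - (number of elements of F₋ above f)`, and `f ∈ F₊` to `2 + (number of elements of F₊ below f)`.
`St_IPO` for the positions of the variables of `a'` and `Eqv.words'`: `Tr (u) a' ↔ Tr (u) (σ a')`,
where `σ a'` has the `O`-variables moved by `σ`; the same for `u'`. All `O`-variables of `σ a'` are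
marks, so `Tr (u) (σ a') ↔ Tr (u') (σ a')` by the hypothesis. -/
def St_OMK : Prop := ∀ (G : Sg) (M P ι V : Type) (S : Sys G M) (p : P → M) (z : ℚ → ι → M)
  (d : ℕ) (u u' : V → M), Ard G d → Ind S p z →
  (∀ v, (∃ c, Gn S (QM d p z c) (u v)) ∨ ∃ i ∈ Ioo (0 : ℚ) 1, ∃ r, Gn S (z i r) (u v)) →
  (∀ v, (∃ c, Gn S (QM d p z c) (u' v)) ∨ ∃ i ∈ Ioo (0 : ℚ) 1, ∃ r, Gn S (z i r) (u' v)) →
  Eqv S (Sum.elim (QM d p z) u) S (Sum.elim (QM d p z) u') →
  Eqv S (Sum.elim p (Sum.elim (fun c : {i : ℚ // i ∉ Ioo (0 : ℚ) 1} × ι => z c.1 c.2) u))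
    S (Sum.elim p (Sum.elim (fun c : {i : ℚ // i ∉ Ioo (0 : ℚ) 1} × ι => z c.1 c.2) u'))

/-- [OSY] (0.3 h; no other module) Exchange of the two kinds of rows.

Proof. `a' := a.map (Sum.map id Sum.swap)`. `Ind` and `Ant` are reindexed (`Eqv.comp'`). `ord`: for
`i ≠ j`, `Tr (x := z i ∘ Sum.inr, y := z j ∘ Sum.inl) a' ↔ Tr (z j ∘ Sum.inl, z i ∘ Sum.inr) a ↔
(e ↔ j < i) ↔ (¬ e ↔ i < j)`. -/
def St_OSY : Prop := ∀ (G : Sg) (U : ∀ M : Type, Sys G M → Prop) (M P R₁ R₂ : Type)
  (S : Sys G M) (p : P → M) (z : ℚ → R₁ ⊕ R₂ → M) (a : At G (P ⊕ (R₁ ⊕ R₂))) (e : Prop),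
  OCf U S p z a e → OCf U S p (fun i => z i ∘ Sum.swap) (a.map (Sum.map id Sum.swap)) (¬ e)

/-- [OJP] (1.5 h; uses `St_IPO`) If a family `u` which behaves like a row `x` towards the rows `y`
outside of the middle part lives at several indices, then there is a smaller configuration.

Proof. Write `u r = S.w (l r) (z (i r) (ρ r))`, `i r ∈ Ioo 0 1`. If all `i r` are equal, we have the
first alternative (if `R₁` is empty take `i = 1 / 2`). So suppose that `I := range i` (finite) has at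
least two elements. For `j ∉ I` let `val j := Tr S (Sum.elim p (Sum.elim u (z j ∘ Sum.inr))) a`.
(1) If `j, j' ∉ I` and no element of `I` lies between them, then `val j ↔ val j'` (`St_IPO` for the
positions `i r` and `j`, resp. `j'`, then `Eqv.words'`). `val (-1) ↔ ¬ e`, `val 2 ↔ e`.
(2) There are `i₀ ∈ I` and `j₀ < i₀ < j₁`, `j₀, j₁ ∉ I`, with `I ∩ Icc j₀ j₁ = {i₀}` and
`¬ (val j₀ ↔ val j₁)`. (Otherwise `val (-1) ↔ val 2`: induction on the number of elements of `I` in
`Iio j` shows `val j ↔ val (-1)` for all `j ∉ I`: remove the largest element `i₀` of `I ∩ Iio j`,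
choose `j₀ < i₀` close to `i₀`.)
(3) New configuration: parameters `P' := P ⊕ {r : R₁ // i r ≠ i₀}`, `p' := Sum.elim p (fun r =>
z (i r) (ρ r))`; rows `R₁' := {x : R₁ ⊕ R₂ // ∃ r, i r = i₀ ∧ ρ r = x}` (finite; its cardinality is
at most the number of `r` with `i r = i₀`, so less than `Nat.card R₁`), `R₂' := R₂`. Let
`h : ℚ ×ₗ Bool ↪o Ioo j₀ j₁` (`Order.embedding_from_countable_to_dense`),
`z' k (Sum.inl x) := z (h (k, false)) x`, `z' k (Sum.inr y) := z (h (k, true)) (Sum.inr y)`,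
`e' := val j₁`. The atom `a'`: in `a` replace the `x`-variable `r` by the word `l r` of the new
variable `Sum.inl (Sum.inr r)` if `i r ≠ i₀`, of `Sum.inr (Sum.inl (ρ r))` if `i r = i₀`; the other
variables stay. `Ind S p' z'` by `St_IPO` (the positions `i r ≠ i₀` are outside of `Icc j₀ j₁`).
`Ant`: all elements are different members of the antichain `z`. For `k ≠ k'`:
`Tr (p', z' k, z' k') a'` is `Tr` of `a` for `u` with the elements at `i₀` moved to `h (k, false)`
and the `y`-row at `h (k', true)`; by `St_IPO` this is `val j₁` if `k < k'` (the order of the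
positions is that of `i r`, `i₀`, `j₁`), and `val j₀ ↔ ¬ val j₁` if `k' < k`. -/
def St_OJP : Prop := ∀ (G : Sg) (U : ∀ M : Type, Sys G M → Prop) (M P R₁ R₂ : Type)
  (S : Sys G M) (p : P → M) (z : ℚ → R₁ ⊕ R₂ → M) (a : At G (P ⊕ (R₁ ⊕ R₂))) (e : Prop)
  (u : R₁ → M), OCf U S p z a e → (∀ r, ∃ i ∈ Ioo (0 : ℚ) 1, ∃ r', Gn S (z i r') (u r)) →
  (∀ j ∉ Ioo (0 : ℚ) 1,
    (Tr S (Sum.elim p (Sum.elim u (z j ∘ Sum.inr))) a ↔ (e ↔ (0 : ℚ) < j))) →
  (∃ i ∈ Ioo (0 : ℚ) 1, ∀ r, ∃ r', Gn S (z i r') (u r)) ∨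
    ∃ n < Nat.card R₁ + Nat.card R₂, OC U n

/-- [OGD] (1 h; uses `St_IPO`, `St_OMK`, `St_OSY`, `St_OJP`) Minimal configurations are good.

Proof. `six`: let `u` be as there. By `St_OMK` (for `u` and `z (1 / 2) ∘ Sum.inl`) and `ord`: for
`j ∉ Ioo 0 1`: `Tr (p, u, z j ∘ Sum.inr) a ↔ Tr (p, z (1 / 2) ∘ Sum.inl, z j ∘ Sum.inr) a ↔
(e ↔ 1 / 2 < j) ↔ (e ↔ 0 < j)`. `St_OJP` and the minimality give `i ∈ Ioo 0 1` and
`u r = S.w (l r) (z i (ρ r))`; `s r := (l r, ρ r)`. `Shp`: the family `(QM, sh s (1 / 2))` has the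
same type as `(QM, sh s i) = (QM, u)` (`St_IPO`: the marks are outside of `Ioo 0 1`, and
`Eqv.words'`).
`siy`: apply `six` to the configuration of `St_OSY` (same `n` up to `Nat.card R₂ + Nat.card R₁`);
its type of `z (1 / 2) ∘ Sum.swap ∘ Sum.inl` is that of `z (1 / 2) ∘ Sum.inr`; `QM` for the
exchanged rows is a reindexing of `QM` (`Eqv.comp'`), and shapes are translated by `Sum.swap`.
`shp`: let `s`, `t` be shapes, `i ≠ j`. By `St_IPO` and `Eqv.words'` the truth value of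
`Tr (p, sh s i, sh t j) a` depends only on whether `i < j`; so we may take `i := 1 / 2` and
`j := -1 / 2` or `j := 3 / 2` (not in `Ioo 0 1`). By `St_OMK` for `sh s (1 / 2)`,
`z (1 / 2) ∘ Sum.inl` over the elements at `j`: it is `Tr (p, z (1 / 2) ∘ Sum.inl, sh t j) a`. By
`St_IPO` again this is `Tr (p, z i' ∘ Sum.inl, sh t (1 / 2)) a` with `i' := 3 / 2` if `j < 1 / 2`
and `i' := -1 / 2` if `j > 1 / 2`; by `St_OMK` for `sh t (1 / 2)`, `z (1 / 2) ∘ Sum.inr` it is
`Tr (p, z i' ∘ Sum.inl, z (1 / 2) ∘ Sum.inr) a ↔ (e ↔ i' < 1 / 2) ↔ (e ↔ i < j)`. -/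
def St_OGD : Prop := ∀ (G : Sg) (U : ∀ M : Type, Sys G M → Prop) (M P R₁ R₂ : Type)
  (S : Sys G M) (p : P → M) (z : ℚ → R₁ ⊕ R₂ → M) (a : At G (P ⊕ (R₁ ⊕ R₂))) (e : Prop) (d : ℕ),
  Ard G d → OCf U S p z a e → (∀ n < Nat.card R₁ + Nat.card R₂, ¬ OC U n) → OG U S p z a e d

/-- [OGS] (0.3 h; uses `St_OSY`) Exchange of the two kinds of rows for good configurations.

Proof. `OCf` by `St_OSY`. `six` and `siy` are exchanged: `QM d p (fun i => z i ∘ Sum.swap)` is a
reindexing of `QM d p z`; a shape `s` for one is the shape `fun r => ((s r).1, (s r).2.swap)` for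
the other (`sh` is the same function). `shp`: `(¬ e ↔ i < j) ↔ (e ↔ j < i)` for `i ≠ j`. -/
def St_OGS : Prop := ∀ (G : Sg) (U : ∀ M : Type, Sys G M → Prop) (M P R₁ R₂ : Type)
  (S : Sys G M) (p : P → M) (z : ℚ → R₁ ⊕ R₂ → M) (a : At G (P ⊕ (R₁ ⊕ R₂))) (e : Prop) (d : ℕ),
  OG U S p z a e d → OG U S p (fun i => z i ∘ Sum.swap) (a.map (Sum.map id Sum.swap)) (¬ e) d

/-- [VMX] (0.3 h; no other module) Maximality is visible.

Proof. `Gn S (q c) u ↔ Gn S' (q' c) u'` by `BW.eqv` and `Eqv.gn` (for the family of the two pairs).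
If `Mx S X q u`, let `v' ∈ X'` with `Gn S' v' u'`; by `BFR.back` (level `0 < γ`) there is `v ∈ X`
with `AtEq` for `insert (v, v') p`; `Gn S v u`, so `Gn S u v`, so `Gn S' u' v'`. The converse in the
same way with `BFR.forth`. -/
def St_VMX : Prop := ∀ (G : Sg) (M N P : Type) (S : Sys G M) (S' : Sys G N) (X : Set M)
  (X' : Set N) (γ : Ordinal.{0}) (p : Set (M × N)) (q : P → M) (q' : P → N) (u : M) (u' : N),
  1 ≤ γ → BW S S' X X' γ p → prs q q' ⊆ p → (u, u') ∈ p → u ∈ X → u' ∈ X' →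
  (Mx S X q u ↔ Mx S' X' q' u')

/-- [LEG] (0.4 h; no other module; the definition of `HER.LE` is in `HER/St.lean`) A game gives the
equivalence of linear orders.

Proof. For `l u : Set (ℚ × ℚ)` let `A l u := {x ∈ I | (∀ a ∈ l, a.1 < x) ∧ ∀ b ∈ u, x < b.1}` and
`A' l u` the same for `I'` with second coordinates. Claim: for all `γ`, `π`, `l u ⊆ π`: if `Γ γ π`
then `LE γ (A l u) (A' l u)`. Induction on `γ` (well-founded), unfold `HER.LE`: for `β < γ` and
`x ∈ A l u` take `y ∈ I'` with `Γ β (insert (x, y) π)`. The order property of `insert (x, y) π`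
gives `y ∈ A' l u`. `A l u ∩ Iio x = A l (insert (x, y) u)` and `A' l u ∩ Iio y =
A' l (insert (x, y) u)`, the same for `Ioi` and `l`; use the induction hypothesis for
`insert (x, y) π`. The other direction is the same. At the end `l = u = π = ∅`, `A ∅ ∅ = I`. -/
def St_LEG : Prop := ∀ (I I' : Set ℚ) (Γ : Ordinal.{0} → Set (ℚ × ℚ) → Prop),
  (∀ γ π, Γ γ π → (∀ a ∈ π, a.1 ∈ I ∧ a.2 ∈ I') ∧ ∀ a ∈ π, ∀ b ∈ π, a.1 < b.1 ↔ a.2 < b.2) →
  (∀ γ π, Γ γ π → ∀ β < γ, (∀ x ∈ I, ∃ y ∈ I', Γ β (insert (x, y) π)) ∧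
    ∀ y ∈ I', ∃ x ∈ I, Γ β (insert (x, y) π)) →
  ∀ γ, Γ γ ∅ → HER.LE γ I I'

/-- [OCA] (2 h; uses `St_IPO`, `St_VMX`, `St_LEG`; import also `Pool.Agent.HER.LOF`) The case that
the rows `y` alone define the order.

Proof. Let `q := QM d p z` and `s` the shape of the hypothesis, `(s r).2 = Sum.inr (ρ r)`. For
`I ⊆ Ioo 0 1` let `X I := cl S (range q ∪ {z i (Sum.inr b) | i ∈ I})`; for `X : Set M` let
`D X := {v : R₂ → M | (∀ b, Mx S X q (v b)) ∧ Eqv S (Sum.elim q v) S (Sum.elim q (z (1 / 2) ∘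
Sum.inr))}`. `R₂` is nonempty: otherwise `ord` for `i < j` and `j < i` would be the same.
(1) If `v ∈ D (X I)` then `v = sh S z t j` with `j ∈ I`, `Shp S d p z Sum.inr t`, and for every `b`
`Mg S (v b) (z j (Sum.inr b'))` for some `b'`: `v b` is not generated by `q`, so
`Gn S (z i (Sum.inr b')) (v b)` for some `i ∈ I`, and by maximality they generate each other. `siy`
gives `v = sh S z t j`, `j ∈ Ioo 0 1`, so `z j (t b).2` generates `v b`, hence `z i (Sum.inr b')`;
by `Ant` `(j, (t b).2) = (i, Sum.inr b')`.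
(2) `z i ∘ Sum.inr ∈ D (X I)` for `i ∈ I`: `Ant` and `St_IPO`.
(3) For `v, v' : R₂ → M` let `ψ v v' := Tr S (Sum.elim p (Sum.elim (fun r => S.w (s r).1 (v (ρ r)))
v')) a`. If `v = sh t j`, `v' = sh t' j'` are as in (1) and `j ≠ j'`, then
`ψ v v' ↔ (e ↔ j < j')`: the first family is `sh s' j` with `s' r := ((s r).1 ++ (t (ρ r)).1,
(t (ρ r)).2)`, and `Shp S d p z Sum.inl s'`: `(q, sh s' (1 / 2))` is obtained by words from
`(q, sh t (1 / 2))`, which has the type of `(q, z (1 / 2) ∘ Sum.inr)`, and the same words give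
`(q, sh s (1 / 2))`, which has the type of `(q, z (1 / 2) ∘ Sum.inl)`. Use `shp`.
(4) Let `E X v v' := ∃ v'' ∈ D X, (∃ b b', Mg S (v b) (v'' b')) ∧ ∃ b b', Mg S (v'' b) (v' b')`.
For `v = sh t j`, `v' = sh t' j'` in `D (X I)`: `E (X I) v v' ↔ j = j'` (`←`: `v'' := z j ∘
Sum.inr`; `→`: by (1) and `Ant`).
(5) Visibility: if `BW S S X X' γ π`, `ω ≤ γ`, `prs q q ⊆ π`, `(v b, w b) ∈ π`, `v b ∈ X`,
`w b ∈ X'` for all `b`, then `v ∈ D X ↔ w ∈ D X'` (`St_VMX`, `BW.eqv`); if moreover `v', w'` are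
such, then `ψ v v' ↔ ψ w w'` (`BW.eqv`) and `E X v v' ↔ E X' w w'` (play the elements of `v''` by
`BFR.forth_many` resp. `BFR.back_many`; level `≥ Nat.card R₂ + 1`).
(6) Let `I₀ : (ℕ → Bool) → Set ℚ`, `γ` be as in `HER.thm_LOF`. Apply `Pg U` to `X (I₀ f)`,
`q` and the level `ω * (γ + 1)` (countable: `mul_lt_om1` or similar lemmas for `om1`): there are
`f ≠ f'` with `BW S S (X (I₀ f)) (X (I₀ f')) (ω * (γ + 1)) (prs q q)`. The sets are infinite: they
contain the different elements `z i (Sum.inr b)`, `i ∈ I₀ f`; countable by `cl_countable`.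
`St_LEG` with `Γ β π := ∃ π', prs q q ⊆ π' ∧ BW S S (X (I₀ f)) (X (I₀ f')) (ω * (β + 1)) π' ∧
∀ a ∈ π, ∃ v ∈ D (X (I₀ f)), ∃ w ∈ D (X (I₀ f')), (v lives at a.1, w lives at a.2) ∧
∀ b, (v b, w b) ∈ π'`, where `v lives at i` means: `i ∈ I₀ f` and `v = sh S z t i` for some shape
`t`. Order: for `a, a' ∈ π`: `a.1 = a'.1 ↔ a.2 = a'.2` by (4), (5), and if different,
`a.1 < a'.1 ↔ (e ↔ ψ v v') ↔ (e ↔ ψ w w') ↔ a.2 < a'.2`. Moves: for `β' < β` we have
`ω * (β' + 1) + Nat.card R₂ ≤ ω * (β + 1)`; for `i ∈ I₀ f` play `z i ∘ Sum.inr` by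
`BFR.forth_many`, the answer `w` is in `D` by (5) and lives at some index by (1); similarly back. So
`HER.LE γ (I₀ f) (I₀ f')`, `f = f'`, contradiction. -/
def St_OCA : Prop := ∀ (G : Sg) (U : ∀ M : Type, Sys G M → Prop) (M P R₁ R₂ : Type)
  (S : Sys G M) (p : P → M) (z : ℚ → R₁ ⊕ R₂ → M) (a : At G (P ⊕ (R₁ ⊕ R₂))) (e : Prop) (d : ℕ),
  Countable G.Fn → Pg U → OG U S p z a e d →
  ¬ ∃ s : R₁ → List G.Fn × (R₁ ⊕ R₂), Shp S d p z Sum.inl s ∧ ∀ r, ∃ b, (s r).2 = Sum.inr b

/-- [OCB] (1.7 h; uses `St_IPO`, `St_VMX`) The case that the rows `x` and `y` are needed.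

Proof. Let `q := QM d p z`. Positions: `h n := 1 - 1 / (2 n + 3)`, `g b := 1 - 1 / (2 b + 2)` in
`Ioo 0 1`; `h n < g b ↔ n < b`, `h n ≠ g b`, `h` and `g` injective. For `f : ℕ → Bool` let
`X f := cl S (range q ∪ {z (h n) (Sum.inl r)} ∪ {z (g b) (Sum.inr r) | f b = true})`. `R₁` and `R₂`
are nonempty (otherwise `ord` does not depend on `i`, or on `j`). Let
`D₁ X := {v : R₁ → M | (∀ r, Mx S X q (v r)) ∧ Eqv S (Sum.elim q v) S (Sum.elim q (z (1 / 2) ∘
Sum.inl))}`, `D₂ X` similarly for `R₂`, `Sum.inr`.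
(1) `v ∈ D₁ (X f)` implies `v = sh S z s (h n)` for some `n` and some shape `s`, with
`Mg S (v r) (z (h n) (Sum.inl r'))` for some `r'`: `v r` is generated by one of the generators
`z i x` of `X f` (not by `q`), and they generate each other by maximality; `six` gives
`v = sh S z s i'`, and by `Ant` `(i', (s r).2) = (i, x)`. So `i' = h n` and all `(s r).2` are in
`Sum.inl`, or `i' = g b`, `f b = true` and all `(s r).2` are in `Sum.inr`; the second case is
excluded by the hypothesis (no shape of the rows `x` in `Sum.inr`). Suppose that there is no shape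
of the rows `y` in `Sum.inl`. Similarly `v ∈ D₂ (X f)` implies `v = sh S z t (g b)`, `f b =
true`, by `siy`.
(2) `z (h n) ∘ Sum.inl ∈ D₁ (X f)`, `z (g b) ∘ Sum.inr ∈ D₂ (X f)` if `f b = true`.
(3) `Pg U` at level `ω + ω`, constants `q`: `f ≠ f'` with `BW S S (X f) (X f') (ω + ω) (prs q q)`
(infinite: contains all `z (h n) (Sum.inl r)`). We show `f b = true → f' b = true`; by symmetry
(`BFR.symm`) `f = f'`. Let `f b = true`, `v := z (g b) ∘ Sum.inr`; `BFR.forth_many` gives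
`v' : R₂ → M` in `X f'` with `BW .. ω (prs q q ∪ prs v v')`. By `St_VMX` and `BW.eqv`,
`v' ∈ D₂ (X f')`, so `v' = sh S z t (g b')`, `f' b' = true`.
(4) `b ≤ b'`: play the `b * Nat.card R₁` elements `z (h n) (Sum.inl r)`, `n < b` (`ω ≤ ω + ω` is
above every finite level): answers `u n : R₁ → M`, in `D₁ (X f')`, so `u n = sh S z s_n (h n')`, and
`Tr (p, u n, v') a ↔ Tr (p, z (h n) ∘ Sum.inl, v) a ↔ (e ↔ h n < g b) ↔ e`; by `shp` for `u n`, `v'`
it is `(e ↔ h n' < g b')`, so `n' < b'`. Every `u n r` generates and is generated by some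
`z (h n') (Sum.inl r')` with `n' < b'`; the `u n r` are pairwise not mutually generated (the
`z (h n) (Sum.inl r)` are not, `Eqv.mg`), so `(n, r) ↦ (n', r')` is injective from
`Fin b × R₁` to `Fin b' × R₁`: `b ≤ b'`. By `BFR.symm` also `b' ≤ b` (`v'` is answered by `v`; in
this direction the elements `z (h n) ∘ Sum.inl`, `n < b'`, satisfy `Tr (p, .., v') a ↔ e` by `shp`
for `v' = sh S z t (g b')`). So `b' = b`. -/
def St_OCB : Prop := ∀ (G : Sg) (U : ∀ M : Type, Sys G M → Prop) (M P R₁ R₂ : Type)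
  (S : Sys G M) (p : P → M) (z : ℚ → R₁ ⊕ R₂ → M) (a : At G (P ⊕ (R₁ ⊕ R₂))) (e : Prop) (d : ℕ),
  Countable G.Fn → Pg U → OG U S p z a e d →
  (¬ ∃ s : R₁ → List G.Fn × (R₁ ⊕ R₂), Shp S d p z Sum.inl s ∧ ∀ r, ∃ b, (s r).2 = Sum.inr b) →
  ∃ s : R₂ → List G.Fn × (R₁ ⊕ R₂), Shp S d p z Sum.inr s ∧ ∀ r, ∃ b, (s r).2 = Sum.inl b

/-- [OLL] (0.4 h; uses `St_OGD`, `St_OGS`, `St_OCA`, `St_OCB`) There are no order configurations.

Proof. Suppose `OC U n` for some `n`, take the least one, and its configuration: `OG U S p z a e d`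
by `St_OGD`. By `St_OCA` there is no shape as there; by `St_OCB` there is a shape `s` for the rows
`y` with all rows in `Sum.inl`. For the exchanged configuration (`St_OGS`) the shape
`fun r => ((s r).1, (s r).2.swap)` contradicts `St_OCA` (`Shp` for the exchanged rows: `QM` is
reindexed, `Eqv.comp'`). -/
def St_OLL : Prop := ∀ (G : Sg) (U : ∀ M : Type, Sys G M → Prop) (d : ℕ),
  Countable G.Fn → Ard G d → IsU U → Pg U → ∀ n, ¬ OC U n

/-- [COM] (1 h; uses `St_EMQ`, `St_HGS`, `St_OLR`, `St_OLL`) Limits commute for atoms.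

Proof. Suppose not; both sides are negated by exchanging the roles, so suppose
`∀ᶠ x in u, ∀ᶠ y in v, R x y` and not `∀ᶠ y in v, ∀ᶠ x in u, R x y`, i.e. `∀ᶠ y in v, ∀ᶠ x in u,
¬ R x y` (`Ultrafilter.eventually_not` twice), with `R x y := Tr S (Sum.elim id (Sum.elim (f x)
(g y))) a` (in the other case exchange `u`, `v`, `f`, `g` and use `a.map (Sum.map id Sum.swap)`).
`St_HGS`: sequences with `R (x i) (y j) ↔ i ≤ j`. Let `z i := Sum.elim (f (x i)) (g (y i)) :
ι ⊕ κ → M`, `W := Filter.hyperfilter ℕ`. `St_EMQ` gives `N, S', e, x'` with `Ind S' e x'`. Let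
`P' := {m : M // Sum.inl m ∈ a.vs}`, `ι' := {r : ι ⊕ κ // Sum.inr r ∈ a.vs}`, finite. The atom
`a'` over `P' ⊕ (ι' ⊕ ι')`: from `a` (`At.exists_sub`) rename `Sum.inl m` to `Sum.inl m`,
`Sum.inr (Sum.inl r)` to `Sum.inr (Sum.inl (Sum.inl r))` (first copy), `Sum.inr (Sum.inr r)` to
`Sum.inr (Sum.inr (Sum.inr r))` (second copy). `Ind S' (e on P') (x' on ι')` by `Eqv.comp'`. For
`i < j`: `Tr (e, x' i, x' j) a' ↔ ∀ᶠ k, ∀ᶠ l, R (x k) (y l)`, true, since `k ≤ l` eventually
(`Filter.hyperfilter_le_cofinite`, the complement of `{l | k ≤ l}` is finite). For `i > j`: exchange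
the copies, by `St_EMQ` for `j < i`: `∀ᶠ k, ∀ᶠ l, R (x l) (y k)`, false, since `l ≤ k` fails
eventually. `St_OLR` and `St_OLL` give a contradiction. -/
def St_COM : Prop := ∀ (G : Sg) (U : ∀ M : Type, Sys G M → Prop) (d : ℕ),
  Countable G.Fn → Ard G d → IsU U → Pg U → ∀ (M : Type) (S : Sys G M), U M S →
  ∀ (X Y ι κ : Type) (u : Ultrafilter X) (v : Ultrafilter Y) (f : X → ι → M) (g : Y → κ → M)
    (a : At G (M ⊕ (ι ⊕ κ))),
  ((∀ᶠ x in (u : Filter X), ∀ᶠ y in (v : Filter Y),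
      Tr S (Sum.elim id (Sum.elim (f x) (g y))) a) ↔
    ∀ᶠ y in (v : Filter Y), ∀ᶠ x in (u : Filter X),
      Tr S (Sum.elim id (Sum.elim (f x) (g y))) a)

end UN
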