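import Pool.Agent.UN.StA

/-!
# UN, module FNU: the theorem for universal theories
-/

set_option autoImplicit false
set_option linter.unusedVariables false

namespace UN

open Set Filter Pool.Agent.Helper5.DU Pool.Agent.Helper6.Str Pool.Agent.Helper79.VC
  Pool.Agent.Helper97.LO Pool.Agent.Helper97.VC

variable {G : Sg} {M N ι : Type}

private theorem FNU_w (S : Sys G M) (S' : Sys G N) (e : M → N)
    (hf : ∀ f x, e (S.fn f x) = S'.fn f (e x)) (l : List G.Fn) (x : M) :
    e (S.w l x) = S'.w l (e x) := by
  induction l with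
  | nil => rfl
  | cons f l ih =>
    change e (S.fn f (S.w l x)) = S'.fn f (S'.w l (e x))
    rw [hf, ih]

private theorem FNU_tr (S : Sys G M) (S' : Sys G N) (e : M ≃ N)
    (hf : ∀ f x, e (S.fn f x) = S'.fn f (e x)) (hr : ∀ R v, S.rel R v ↔ S'.rel R (e ∘ v))
    (v : ι → M) (a : At G ι) : Tr S v a ↔ Tr S' (e ∘ v) a := by
  cases a with
  | eq s t =>
    change S.w s.1 (v s.2) = S.w t.1 (v t.2) ↔
      S'.w s.1 (e (v s.2)) = S'.w t.1 (e (v t.2))
    rw [← FNU_w S S' e hf, ← FNU_w S S' e hf]
    exact e.injective.eq_iff.symm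
  | rel R t =>
    change (S.rel R fun k => S.w (t k).1 (v (t k).2)) ↔
      S'.rel R fun k => S'.w (t k).1 (e (v (t k).2))
    rw [hr]
    have h1 : (e ∘ fun k => S.w (t k).1 (v (t k).2)) =
        fun k => S'.w (t k).1 (e (v (t k).2)) := by
      funext k
      exact FNU_w S S' e hf _ _
    rw [h1]

/-- isomorphisms of the relational structures are isomorphisms of the systems -/
theorem FNU_iso (S : Sys G M) (S' : Sys G N) (e : M ≃ N) :
    RelIso (WS S) (WS S') e ↔
      (∀ f x, e (S.fn f x) = S'.fn f (e x)) ∧ ∀ R v, S.rel R v ↔ S'.rel R (e ∘ v) := by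
  constructor
  · intro h
    constructor
    · intro f x
      have h1 := (h 2 (At.eq ([f], 0) ([], 1) : At G (Fin 2)) ![x, S.fn f x]).1 rfl
      exact (Eq.symm h1)
    · intro R v
      exact h (G.ar R) (At.rel R fun k => ([], k) : At G (Fin (G.ar R))) v
  · rintro ⟨hf, hr⟩ n a v
    exact FNU_tr S S' e hf hr v a

/-- isomorphisms of the relational structures of two models are isomorphisms of the models -/
theorem FNU_equiv {L : FirstOrder.Language.{0, 0}} (hE : ∀ n, IsEmpty (L.Functions (n + 2)))
    (A : L.Structure M) (B : L.Structure N) :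
    Iso (WS (sy A)) (WS (sy B)) ↔ Nonempty (@FirstOrder.Language.Equiv L M N A B) := by
  constructor
  · rintro ⟨e, he⟩
    rw [FNU_iso] at he
    obtain ⟨hf, hr⟩ := he
    refine ⟨@FirstOrder.Language.Equiv.mk L M N A B e ?_ ?_⟩
    · intro n f x
      match n, f with
      | 0, f =>
        have hx : x = ![] := Subsingleton.elim _ _
        subst hx
        have hy : (e ∘ (![] : Fin 0 → M)) = ![] := Subsingleton.elim _ _
        change e (A.funMap f ![]) = B.funMap f (e ∘ ![])
        rw [hy]
        exact hf (Sum.inl f) (A.funMap f ![])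
      | 1, f =>
        have hx : x = ![x 0] := by
          funext i
          fin_cases i
          rfl
        have hy : (e ∘ x : Fin 1 → N) = ![e (x 0)] := by
          funext i
          fin_cases i
          rfl
        change e (A.funMap f x) = B.funMap f (e ∘ x)
        rw [hy, hx]
        exact hf (Sum.inr f) (x 0)
      | n + 2, f => exact (hE n).elim f
    · intro n r x
      exact (hr ⟨n, r⟩ x).symm
  · rintro ⟨e⟩
    let _ := A
    let _ := B
    refine ⟨e.toEquiv, ?_⟩
    rw [FNU_iso]
    constructor
    · rintro (c | g) x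
      · change e (A.funMap c ![]) = B.funMap c ![]
        have h1 := e.map_fun' c ![]
        have hy : (e.toEquiv ∘ (![] : Fin 0 → M)) = ![] := Subsingleton.elim _ _
        change e (A.funMap c ![]) = B.funMap c (e.toEquiv ∘ ![]) at h1
        rw [hy] at h1
        exact h1
      · change e (A.funMap g ![x]) = B.funMap g ![e x]
        have h1 := e.map_fun' g ![x]
        have hy : (e.toEquiv ∘ (![x] : Fin 1 → M)) = ![e x] := by
          funext i
          fin_cases i
          rfl
        change e (A.funMap g ![x]) = B.funMap g (e.toEquiv ∘ ![x]) at h1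
        rw [hy] at h1
        exact h1
    · rintro ⟨n, r⟩ v
      exact (e.map_rel' r v).symm

/-- **module FNU** -/
theorem thm_FNU (hU : St_UTU) (hD : St_DCH) : St_FNU := by
  classical
  intro L hL hE hR T hT
  have cF : Countable (sgL L).Fn := by
    have hinj : Function.Injective (fun f : (sgL L).Fn =>
        (Sum.elim (fun c => Sum.inl ⟨0, c⟩) (fun g => Sum.inl ⟨1, g⟩) f : L.Symbols)) := by
      rintro (c | g) (c' | g') h
      · simp only [Sum.elim_inl, Sum.inl.injEq, Sigma.mk.injEq, heq_eq_eq, true_and] at h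
        rw [h]
      · simp at h
      · simp at h
      · simp only [Sum.elim_inr, Sum.inl.injEq, Sigma.mk.injEq, heq_eq_eq, true_and] at h
        rw [h]
    exact hinj.countable
  have cR : Countable (sgL L).Rl := by
    have hinj : Function.Injective (fun R : (sgL L).Rl => (Sum.inr R : L.Symbols)) :=
      Sum.inr_injective
    exact hinj.countable
  rcases hD (sgL L) (UT T) cF cR hR (hU L hE T hT) with ⟨g, hg⟩ | ⟨f, hfK, hiso, hcl⟩
  · obtain ⟨g', hg'⟩ : ∃ g' : ℕ → L.Structure ℕ, ∀ n,
        (∃ A : L.Structure ℕ, Iso (WS (sy A)) (g n)) → Iso (WS (sy (g' n))) (g n) := by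
      refine ⟨fun n => if h : ∃ A : L.Structure ℕ, Iso (WS (sy A)) (g n) then h.choose
        else ⟨fun _ _ => 0, fun _ _ => False⟩, fun n h => ?_⟩
      simp only [dif_pos h]
      exact h.choose_spec
    refine Or.inl ⟨g', ?_⟩
    intro S hS
    obtain ⟨n, hn⟩ := hg (WS (sy S)) ⟨sy S, ⟨⟨0⟩, S, rfl, hS⟩, rfl⟩
    exact ⟨n, (FNU_equiv hE S _).1 (hn.trans (hg' n ⟨S, hn⟩).symm)⟩
  · choose S hSU hfS using hfK
    choose A hSA hAT using fun x => (hSU x).2
    have hfA : ∀ x, f x = WS (sy (A x)) := fun x => by rw [hfS x, hSA x]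
    refine Or.inr ⟨A, hAT, ?_, ?_, ?_⟩
    · intro x y h
      refine hiso x y ?_
      rw [hfA x, hfA y]
      exact (FNU_equiv hE _ _).2 h
    · intro n R a
      have h1 := hcl n (At.rel (G := sgL L) ⟨n, R⟩ fun k => ([], k) : At (sgL L) (Fin n)) a
      have h2 : {x : ℕ → Bool | (f x).RelMap
          (At.rel (G := sgL L) ⟨n, R⟩ fun k => ([], k) : At (sgL L) (Fin n)) a} =
          {x : ℕ → Bool | @FirstOrder.Language.Structure.RelMap L ℕ (A x) n R a} := by
        ext x
        change (f x).RelMap _ a ↔ _
        rw [hfA x]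
        exact Iff.rfl
      rw [← h2]
      exact h1
    · intro n F a b
      match n, F with
      | 0, F =>
        have h1 := hcl 2 (At.eq (G := sgL L) ([Sum.inl F], 0) ([], 1) : At (sgL L) (Fin 2)) ![b, b]
        have ha : a = ![] := Subsingleton.elim _ _
        have h2 : {x : ℕ → Bool | (f x).RelMap
            (At.eq (G := sgL L) ([Sum.inl F], 0) ([], 1) : At (sgL L) (Fin 2)) ![b, b]} =
            {x : ℕ → Bool | @FirstOrder.Language.Structure.funMap L ℕ (A x) 0 F a = b} := by
          ext x
          change (f x).RelMap _ ![b, b] ↔ _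
          rw [hfA x, ha]
          exact Iff.rfl
        rw [← h2]
        exact h1.2
      | 1, F =>
        have h1 := hcl 2 (At.eq (G := sgL L) ([Sum.inr F], 0) ([], 1) : At (sgL L) (Fin 2))
          ![a 0, b]
        have ha : a = ![a 0] := by
          funext i
          fin_cases i
          rfl
        have h2 : {x : ℕ → Bool | (f x).RelMap
            (At.eq (G := sgL L) ([Sum.inr F], 0) ([], 1) : At (sgL L) (Fin 2)) ![a 0, b]} =
            {x : ℕ → Bool | @FirstOrder.Language.Structure.funMap L ℕ (A x) 1 F a = b} := by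
          ext x
          change (f x).RelMap _ ![a 0, b] ↔ _
          rw [hfA x]
          change ((A x).funMap F ![a 0] = b) ↔ (A x).funMap F a = b
          rw [← ha]
        rw [← h2]
        exact h1.2
      | n + 2, F => exact (hE n).elim F

end UN
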