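import Pool.Agent.UN.StE

/-!
# UN [CLQ]: a countable set of classes which is large in every class of classes
-/

set_option autoImplicit false
set_option linter.unusedVariables false

namespace UN

open Set

theorem thm_CLQ : St_CLQ := by
  classical
  intro Q r hr hno
  let K : Set (Set Q) := range fun x => {y | r x y}
  have hK : K.Finite := by
    by_contra hcon
    refine hno ?_
    have hinf : K.Infinite := hcon
    let e := hinf.natEmbedding
    have h1 : ∀ n, ∃ x, {y | r x y} = (e n : Set Q) := fun n => (e n).2
    choose x hx using h1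
    refine ⟨x, fun m n hmn h => hmn ?_⟩
    have h2 : (e m : Set Q) = e n := by
      rw [← hx m, ← hx n]
      ext y
      exact ⟨fun hy => hr.trans (hr.symm h) hy, fun hy => hr.trans h hy⟩
    exact e.injective (Subtype.ext h2)
  have h1 : ∀ A : Set Q, ∃ A' ⊆ A, A'.Countable ∧ (A.Countable → A' = A) ∧
      (¬ A.Countable → A'.Infinite) := by
    intro A
    by_cases hA : A.Countable
    · exact ⟨A, Subset.rfl, hA, fun _ => rfl, fun h => absurd hA h⟩
    · have hinf : A.Infinite := fun h => hA h.countable
      let e := hinf.natEmbedding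
      refine ⟨range fun n => (e n : Q), ?_, countable_range _, fun h => absurd h hA, fun _ => ?_⟩
      · rintro _ ⟨n, rfl⟩
        exact (e n).2
      · exact infinite_range_of_injective fun a b hab => e.injective (Subtype.ext hab)
  choose F hF1 hF2 hF3 hF4 using h1
  refine ⟨⋃ A ∈ K, F A, hK.countable.biUnion fun A _ => hF2 A, fun x hx => ?_⟩
  have hxK : {y | r x y} ∈ K := ⟨x, rfl⟩
  have hsub : F {y | r x y} ⊆ ⋃ A ∈ K, F A := subset_biUnion_of_mem hxK
  have hnc : ¬ ({y | r x y} : Set Q).Countable := by
    intro h
    refine hx (hsub ?_)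
    rw [hF3 _ h]
    exact hr.refl x
  refine (hF4 _ hnc).mono fun y hy => ⟨hsub hy, ?_⟩
  exact hF1 _ hy

end UN
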