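import Pool.Agent.UN.StE

/-!
# UN, module CMC: the parts are countable
-/

set_option autoImplicit false
set_option linter.unusedVariables false

namespace UN

open Set

theorem thm_CMC (h1 : St_LSK) (h2 : St_DEP) (h3 : St_IPA) : St_CMC := by
  intro G U hF hR hU hC hW M S A hS hE hA u
  have hM : Nonempty M := hU.ne M S hS
  obtain ⟨A₁, hA₁, hc, -, hE₁⟩ := h1 G M S (A ∪ {u}) hF hR hM (hA.union (countable_singleton u))
  refine hc.mono ?_
  rintro u' ⟨Z, hZ, hZA, hu, hu', hs⟩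
  by_contra hn
  refine hs ⟨Z ∩ A₁, inter_subset_left, ?_, fun h => hn ?_⟩
  · refine h2 G U hU hC hW M S A A₁ hS hE hE₁ (subset_union_left.trans hA₁) _ _ _ _ ?_ ?_
    · rintro ⟨x, hx⟩ hx'
      exact hx.2 ⟨hx.1, hx'⟩
    · rintro ⟨x, hx⟩
      exact hx.2
  · exact (h.1 ⟨hu, hA₁ (Or.inr rfl)⟩).2

end UN
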