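import Pool.Agent.UN.StE

/-!
# UN, module CMP: the finest independent partition
-/

set_option autoImplicit false
set_option linter.unusedVariables false

namespace UN

open Set Filter Pool.Agent.Helper5.DU Pool.Agent.Helper6.Str Pool.Agent.Helper79.VC
  Pool.Agent.Helper97.LO Pool.Agent.Helper97.VC

section

variable {G : Sg} {M : Type} {S : Sys G M} {A : Set M}

/-- the rules for the independence of sets -/
structure CMP_R (S : Sys G M) (A : Set M) : Prop where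
  symm : ∀ {X Y : Set M}, IpS S A X Y → IpS S A Y X
  mono : ∀ {X Y X' Y' : Set M}, IpS S A X Y → X' ⊆ X → Y' ⊆ Y → IpS S A X' Y'
  step : ∀ {X₁ X₂ Y : Set M}, IpS S A (X₁ ∪ X₂) Y → IpS S A X₁ X₂ → IpS S A X₁ (X₂ ∪ Y)
  fin : ∀ {X Y : Set M}, (∀ X' Y' : Set M, X' ⊆ X → Y' ⊆ Y → X'.Finite → Y'.Finite →
    IpS S A X' Y') → IpS S A X Y
  gen : ∀ {x y : M}, IpS S A {x} {y} → y ∉ A → ¬ Gn S x y

theorem CMP_empty (Y : Set M) : IpS S A ∅ Y := by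
  intro u hu a
  have h : ∀ y : (∅ : Set M) → M, y = fun x : (∅ : Set M) => (x : M) := fun y =>
    funext fun x => absurd x.2 (notMem_empty _)
  constructor
  · intro ha
    exact Eventually.of_forall fun y => by rw [h y]; exact ha
  · intro ha
    obtain ⟨y, hy⟩ := ha.exists
    rw [h y] at hy; exact hy

open Classical in
theorem CMP_rules {U : ∀ M : Type, Sys G M → Prop} (h₁ : St_IPA) (h₂ : St_IPB) (hC : Cmt U)
    (hU : U M S) (hE : EC S A) (hA : Cl S A) : CMP_R S A := by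
  obtain ⟨-, -, a3, -, -, a6⟩ := h₁ G U hC M S A hU hE
  obtain ⟨b1, b2, b3⟩ := h₂ G U hC M S A hU hE hA
  have hmono : ∀ {X Y X' Y' : Set M}, IpS S A X Y → X' ⊆ X → Y' ⊆ Y → IpS S A X' Y' :=
    fun {X Y X' Y'} h hX hY => a6 _ _ _ _ _ _ (inclusion hX) (inclusion hY) h
  refine ⟨fun h => a3 _ _ _ _ h, hmono, ?_, ?_, ?_⟩
  · intro X₁ X₂ Y h h'
    have e1 := a6 _ _ (X₁ ⊕ X₂) Y _ _
      (Sum.elim (inclusion subset_union_left) (inclusion subset_union_right)) id h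
    have e2 : ((fun x : (X₁ ∪ X₂ : Set M) => (x : M)) ∘
        (Sum.elim (inclusion subset_union_left) (inclusion subset_union_right))) =
        Sum.elim (fun x : X₁ => (x : M)) (fun x : X₂ => (x : M)) := by
      funext x; rcases x with x | x <;> rfl
    rw [e2] at e1
    have e3 := b1 _ _ _ _ _ _ e1 h'
    have e4 := a6 _ _ X₁ (X₂ ∪ Y : Set M) _ _ id
      (fun x => if hx : (x : M) ∈ X₂ then Sum.inl ⟨x, hx⟩ else
        Sum.inr ⟨x, x.2.resolve_left hx⟩) e3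
    have e5 : (Sum.elim (fun x : X₂ => (x : M)) ((fun x : Y => (x : M)) ∘ id) ∘
        fun x : (X₂ ∪ Y : Set M) => if hx : (x : M) ∈ X₂ then Sum.inl (⟨x, hx⟩ : X₂) else
        Sum.inr (⟨x, x.2.resolve_left hx⟩ : Y)) = fun x : (X₂ ∪ Y : Set M) => (x : M) := by
      funext x
      by_cases hx : (x : M) ∈ X₂
      · simp [hx]
      · simp [hx]
    rw [e5] at e4
    exact e4
  · intro X Y h
    refine b2 _ _ _ _ fun E F hEf hFf => ?_
    have e1 := h (Subtype.val '' E) (Subtype.val '' F) (by rintro _ ⟨x, -, rfl⟩; exact x.2)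
      (by rintro _ ⟨x, -, rfl⟩; exact x.2) (hEf.image _) (hFf.image _)
    exact a6 _ _ E F _ _ (fun i => ⟨(i : X), mem_image_of_mem _ i.2⟩)
      (fun i => ⟨(i : Y), mem_image_of_mem _ i.2⟩) e1
  · intro x y h hy
    exact b3 _ _ _ _ h ⟨x, rfl⟩ ⟨y, rfl⟩ hy

/-- independent parts of `Z` -/
def CMP_B (S : Sys G M) (A Z X : Set M) : Prop := X ⊆ Z ∧ IpS S A X (Z \ X)

theorem CMP_B.compl (H : CMP_R S A) {Z X : Set M} (h : CMP_B S A Z X) : CMP_B S A Z (Z \ X) := by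
  refine ⟨diff_subset, ?_⟩
  rw [diff_diff_cancel_left h.1]
  exact H.symm h.2

theorem CMP_B.empty (Z : Set M) : CMP_B S A Z ∅ := ⟨empty_subset _, CMP_empty _⟩

theorem CMP_B.self (H : CMP_R S A) (Z : Set M) : CMP_B S A Z Z := by
  have h := (CMP_B.empty (S := S) (A := A) Z).compl H
  rwa [diff_empty] at h

theorem CMP_B.inter (H : CMP_R S A) {Z X X' : Set M} (h : CMP_B S A Z X)
    (h' : CMP_B S A Z X') : CMP_B S A Z (X ∩ X') := by
  refine ⟨inter_subset_left.trans h.1, ?_⟩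
  have e1 : IpS S A ((X ∩ X') ∪ (X \ X')) (Z \ X) := by
    rw [inter_union_diff]; exact h.2
  have e2 : IpS S A (X ∩ X') (X \ X') :=
    H.mono h'.2 inter_subset_right fun x hx => ⟨h.1 hx.1, hx.2⟩
  refine H.mono (H.step e1 e2) Subset.rfl ?_
  rintro x ⟨hx, hx'⟩
  by_cases hX : x ∈ X
  · exact Or.inl ⟨hX, fun h => hx' ⟨hX, h⟩⟩
  · exact Or.inr ⟨hx, hX⟩

theorem CMP_B.union (H : CMP_R S A) {Z X X' : Set M} (h : CMP_B S A Z X)
    (h' : CMP_B S A Z X') : CMP_B S A Z (X ∪ X') := by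
  have e := ((h.compl H).inter H (h'.compl H)).compl H
  have e' : Z \ ((Z \ X) ∩ (Z \ X')) = X ∪ X' := by
    rw [diff_inter, diff_diff_cancel_left h.1, diff_diff_cancel_left h'.1]
  rwa [e'] at e

theorem CMP_B.sep (H : CMP_R S A) {Z : Set M} {u u' : M} (hu : u ∈ Z) (hu' : u' ∈ Z)
    (h : Sep S A Z u u') : ∃ X, CMP_B S A Z X ∧ u ∈ X ∧ u' ∉ X := by
  obtain ⟨X, hX, hI, hs⟩ := h
  have hB : CMP_B S A Z X := ⟨hX, hI⟩
  by_cases h1 : u ∈ X
  · exact ⟨X, hB, h1, fun h2 => hs ⟨fun _ => h2, fun _ => h1⟩⟩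
  · refine ⟨Z \ X, hB.compl H, ⟨hu, h1⟩, fun h2 => ?_⟩
    exact hs ⟨fun h => absurd h h1, fun h => absurd h h2.2⟩

theorem CMP_main (H : CMP_R S A) {C : Set M} (hC : C ⊆ Aᶜ)
    (hR : ∀ x ∈ C, ∀ y, Rc S A x y → y ∈ C) : IpS S A C (Aᶜ \ C) := by
  refine H.fin fun X Y hX hY fX fY => ?_
  set Z : Set M := X ∪ Y with hZ
  have hdis : ∀ x ∈ X, ∀ y ∈ Y, ∃ B, CMP_B S A Z B ∧ x ∈ B ∧ y ∉ B := by
    intro x hx y hy
    refine CMP_B.sep H (Or.inl hx) (Or.inr hy) ?_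
    by_contra hs
    exact (hY hy).2 (hR x (hX hx) y ⟨Z, fX.union fY, union_subset (hX.trans hC)
      (hY.trans diff_subset), Or.inl hx, Or.inr hy, hs⟩)
  have h1 : ∀ x ∈ X, ∃ B, CMP_B S A Z B ∧ x ∈ B ∧ ∀ y ∈ Y, y ∉ B := by
    intro x hx
    have key : ∀ Y' : Set M, Y'.Finite → Y' ⊆ Y →
        ∃ B, CMP_B S A Z B ∧ x ∈ B ∧ ∀ y ∈ Y', y ∉ B := by
      intro Y' hf
      induction Y', hf using Set.Finite.induction_on with
      | empty => exact fun _ => ⟨Z, CMP_B.self H Z, Or.inl hx, fun y hy => absurd hy (notMem_empty _)⟩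
      | @insert a s ha hs ih =>
        intro hsub
        obtain ⟨B, hB, hxB, hyB⟩ := ih ((subset_insert _ _).trans hsub)
        obtain ⟨B', hB', hxB', hyB'⟩ := hdis x hx a (hsub (mem_insert _ _))
        refine ⟨B ∩ B', hB.inter H hB', ⟨hxB, hxB'⟩, ?_⟩
        rintro y (rfl | hy) ⟨h3, h4⟩
        · exact hyB' h4
        · exact hyB y hy h3
    exact key Y fY Subset.rfl
  have h2 : ∃ B, CMP_B S A Z B ∧ X ⊆ B ∧ ∀ y ∈ Y, y ∉ B := by
    have key : ∀ X' : Set M, X'.Finite → X' ⊆ X →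
        ∃ B, CMP_B S A Z B ∧ X' ⊆ B ∧ ∀ y ∈ Y, y ∉ B := by
      intro X' hf
      induction X', hf using Set.Finite.induction_on with
      | empty => exact fun _ => ⟨∅, CMP_B.empty Z, Subset.rfl, fun y _ => notMem_empty _⟩
      | @insert a s ha hs ih =>
        intro hsub
        obtain ⟨B, hB, hxB, hyB⟩ := ih ((subset_insert _ _).trans hsub)
        obtain ⟨B', hB', hxB', hyB'⟩ := h1 a (hsub (mem_insert _ _))
        refine ⟨B ∪ B', hB.union H hB', insert_subset (Or.inr hxB') (hxB.trans subset_union_left), ?_⟩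
        rintro y hy (h3 | h4)
        · exact hyB y hy h3
        · exact hyB' y hy h4
    exact key X fX Subset.rfl
  obtain ⟨B, hB, hXB, hYB⟩ := h2
  exact H.mono hB.2 hXB fun y hy => ⟨Or.inr hy, hYB y hy⟩

end

theorem thm_CMP (h₁ : St_IPA) (h₂ : St_IPB) : St_CMP := by
  intro G U hC M S A hU hE hA
  have H : CMP_R S A := CMP_rules h₁ h₂ hC hU hE hA
  have hrefl : ∀ u ∉ A, Rc S A u u := by
    intro u hu
    refine ⟨{u}, finite_singleton u, by rintro _ rfl; exact hu, rfl, rfl, ?_⟩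
    rintro ⟨X, -, -, hs⟩
    exact hs Iff.rfl
  have hsymm : ∀ u u', Rc S A u u' → Rc S A u' u := by
    rintro u u' ⟨Z, hZ, hZA, hu, hu', hs⟩
    refine ⟨Z, hZ, hZA, hu', hu, ?_⟩
    rintro ⟨X, hX, hI, hx⟩
    exact hs ⟨X, hX, hI, fun h => hx h.symm⟩
  have hsub : ∀ {Z Z' : Set M} {X : Set M}, Z' ⊆ Z → CMP_B S A Z X → CMP_B S A Z' (X ∩ Z') := by
    intro Z Z' X hZ h
    refine ⟨inter_subset_right, H.mono h.2 inter_subset_left ?_⟩
    rintro x ⟨hx, hx'⟩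
    exact ⟨hZ hx, fun h3 => hx' ⟨h3, hx⟩⟩
  have htrans : ∀ u u' u'', Rc S A u u' → Rc S A u' u'' → Rc S A u u'' := by
    rintro u u' u'' ⟨Z₁, f₁, hA₁, hu₁, hu₁', s₁⟩ ⟨Z₂, f₂, hA₂, hu₂, hu₂', s₂⟩
    refine ⟨Z₁ ∪ Z₂, f₁.union f₂, union_subset hA₁ hA₂, Or.inl hu₁, Or.inr hu₂', ?_⟩
    rintro ⟨X, hX, hI, hs⟩
    have hB : CMP_B S A (Z₁ ∪ Z₂) X := ⟨hX, hI⟩
    have i₁ : u ∈ X ↔ u' ∈ X := by
      by_contra h
      have e := hsub subset_union_left hB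
      refine s₁ ⟨X ∩ Z₁, e.1, e.2, fun h' => h ?_⟩
      exact ⟨fun h3 => (h'.1 ⟨h3, hu₁⟩).1, fun h3 => (h'.2 ⟨h3, hu₁'⟩).1⟩
    have i₂ : u' ∈ X ↔ u'' ∈ X := by
      by_contra h
      have e := hsub subset_union_right hB
      refine s₂ ⟨X ∩ Z₂, e.1, e.2, fun h' => h ?_⟩
      exact ⟨fun h3 => (h'.1 ⟨h3, hu₂⟩).1, fun h3 => (h'.2 ⟨h3, hu₂'⟩).1⟩
    exact hs (i₁.trans i₂)
  have hfn : ∀ f, ∀ u ∉ A, S.fn f u ∉ A → Rc S A u (S.fn f u) := by
    intro f u hu hfu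
    refine ⟨{u, S.fn f u}, (finite_singleton _).insert _, ?_, Or.inl rfl, Or.inr rfl, ?_⟩
    · rintro x (rfl | rfl)
      · exact hu
      · exact hfu
    · intro hs
      obtain ⟨X, hX, h3, h4⟩ := CMP_B.sep H (Or.inl rfl) (Or.inr rfl) hs
      have e : IpS S A {u} {S.fn f u} := H.mono hX.2 (by rintro _ rfl; exact h3)
        (by rintro _ rfl; exact ⟨Or.inr rfl, h4⟩)
      exact H.gen e hfu ⟨[f], rfl⟩
  have hmain : ∀ C : Set M, C ⊆ Aᶜ → (∀ x ∈ C, ∀ y, Rc S A x y → y ∈ C) →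
      IpS S A C (Aᶜ \ C) := fun C h h' => CMP_main H h h'
  refine ⟨hrefl, hsymm, htrans, hfn, hmain, ?_⟩
  rintro u u' ⟨Z, hZ, hZA, hu, hu', hs⟩
  have hD : Dc S A u ⊆ Aᶜ := by
    rintro y ⟨Z', -, h, -, hy, -⟩
    exact h hy
  have hI := hmain (Dc S A u) hD fun x hx y hxy => htrans u x y hx hxy
  refine ⟨Z ∩ Dc S A u, hZ.subset inter_subset_left, inter_subset_right,
    ⟨hu, hrefl u (hZA hu)⟩, ⟨hu', ⟨Z, hZ, hZA, hu, hu', hs⟩⟩, ?_⟩
  rintro ⟨X, hX, hXI, hx⟩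
  have e1 : IpS S A (X ∪ ((Z ∩ Dc S A u) \ X)) (Z \ (Z ∩ Dc S A u)) := by
    rw [union_diff_cancel hX]
    exact H.mono hI inter_subset_right fun x hx => ⟨hZA hx.1, fun h => hx.2 ⟨hx.1, h⟩⟩
  have e2 := H.step e1 hXI
  refine hs ⟨X, hX.trans inter_subset_left, H.mono e2 Subset.rfl ?_, hx⟩
  rintro x ⟨hx1, hx2⟩
  by_cases h : x ∈ Z ∩ Dc S A u
  · exact Or.inl ⟨h, hx2⟩
  · exact Or.inr ⟨hx1, h⟩

end UN
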