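import Pool.Agent.UN.StB

/-!
# UN: limits commute for atoms (COM)
-/

set_option autoImplicit false
set_option linter.unusedVariables false

namespace UN

open Set Filter Pool.Agent.Helper5.DU Pool.Agent.Helper6.Str Pool.Agent.Helper79.VC
  Pool.Agent.Helper97.LO Pool.Agent.Helper97.VC

/-- positions of the variables: first kind in the first copy, second kind in the second copy -/
private def COM_c {M ι κ : Type} : M ⊕ (ι ⊕ κ) → M ⊕ ((ι ⊕ κ) ⊕ (ι ⊕ κ))
  | Sum.inl m => Sum.inl m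
  | Sum.inr (Sum.inl r) => Sum.inr (Sum.inl (Sum.inl r))
  | Sum.inr (Sum.inr r) => Sum.inr (Sum.inr (Sum.inr r))

/-- positions of the variables, copies exchanged -/
private def COM_d {M ι κ : Type} : M ⊕ (ι ⊕ κ) → M ⊕ ((ι ⊕ κ) ⊕ (ι ⊕ κ))
  | Sum.inl m => Sum.inl m
  | Sum.inr (Sum.inl r) => Sum.inr (Sum.inr (Sum.inl r))
  | Sum.inr (Sum.inr r) => Sum.inr (Sum.inl (Sum.inr r))

/-- positions of the occurring variables -/
private def COM_e {M ι κ : Type} (E : Set (M ⊕ (ι ⊕ κ))) :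
    E → {m : M // Sum.inl m ∈ E} ⊕
      ({r : ι ⊕ κ // Sum.inr r ∈ E} ⊕ {r : ι ⊕ κ // Sum.inr r ∈ E})
  | ⟨Sum.inl m, h⟩ => Sum.inl ⟨m, h⟩
  | ⟨Sum.inr (Sum.inl r), h⟩ => Sum.inr (Sum.inl ⟨Sum.inl r, h⟩)
  | ⟨Sum.inr (Sum.inr r), h⟩ => Sum.inr (Sum.inr ⟨Sum.inr r, h⟩)

private theorem COM_one (h1 : St_EMQ) (h2 : St_HGS) (h3 : St_OLR) (h4 : St_OLL)
    (G : Sg) (U : ∀ M : Type, Sys G M → Prop) (d : ℕ) (hG : Countable G.Fn) (hd : Ard G d)
    (hU : IsU U) (hP : Pg U) (M : Type) (S : Sys G M) (hS : U M S)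
    (X Y ι κ : Type) (u : Ultrafilter X) (v : Ultrafilter Y) (f : X → ι → M) (g : Y → κ → M)
    (a : At G (M ⊕ (ι ⊕ κ)))
    (hp : ∀ᶠ x in (u : Filter X), ∀ᶠ y in (v : Filter Y),
      Tr S (Sum.elim id (Sum.elim (f x) (g y))) a) :
    ∀ᶠ y in (v : Filter Y), ∀ᶠ x in (u : Filter X),
      Tr S (Sum.elim id (Sum.elim (f x) (g y))) a := by
  by_contra hn
  rw [← Ultrafilter.eventually_not] at hn
  have hn' : ∀ᶠ y in (v : Filter Y), ∀ᶠ x in (u : Filter X),
      ¬ Tr S (Sum.elim id (Sum.elim (f x) (g y))) a :=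
    hn.mono fun y hy => Ultrafilter.eventually_not.2 hy
  obtain ⟨x, y, hxy⟩ := h2 X Y u v
    (fun x y => Tr S (Sum.elim id (Sum.elim (f x) (g y))) a) hp hn'
  obtain ⟨N, S', e, x', hS', hind, -, hlim⟩ := h1 G U M (ι ⊕ κ) S hU hS
    (fun i => Sum.elim (f (x i)) (g (y i))) (hyperfilter ℕ)
  obtain ⟨b, hb⟩ := a.exists_sub a.vs Subset.rfl
  -- values of the limits
  have hc : ∀ k l : ℕ, Tr S (Sum.elim id (Sum.elim (Sum.elim (f (x k)) (g (y k)))
      (Sum.elim (f (x l)) (g (y l))))) (a.map COM_c) ↔ k ≤ l := by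
    intro k l
    rw [Tr_map, ← hxy k l]
    have : (Sum.elim id (Sum.elim (Sum.elim (f (x k)) (g (y k)))
      (Sum.elim (f (x l)) (g (y l))))) ∘ COM_c =
      (Sum.elim id (Sum.elim (f (x k)) (g (y l))) : M ⊕ (ι ⊕ κ) → M) := by
      funext w
      rcases w with m | r | r <;> rfl
    rw [this]
  have hd' : ∀ k l : ℕ, Tr S (Sum.elim id (Sum.elim (Sum.elim (f (x k)) (g (y k)))
      (Sum.elim (f (x l)) (g (y l))))) (a.map COM_d) ↔ l ≤ k := by
    intro k l
    rw [Tr_map, ← hxy l k]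
    have : (Sum.elim id (Sum.elim (Sum.elim (f (x k)) (g (y k)))
      (Sum.elim (f (x l)) (g (y l))))) ∘ COM_d =
      (Sum.elim id (Sum.elim (f (x l)) (g (y k))) : M ⊕ (ι ⊕ κ) → M) := by
      funext w
      rcases w with m | r | r <;> rfl
    rw [this]
  have hev : ∀ k : ℕ, ∀ᶠ l in (hyperfilter ℕ : Filter ℕ), k < l := fun k =>
    (Nat.hyperfilter_le_atTop) (eventually_gt_atTop k)
  have hval : ∀ i j, Tr S' (Sum.elim (fun m : {m : M // Sum.inl m ∈ a.vs} => e m.1)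
      (Sum.elim (fun r : {r : ι ⊕ κ // Sum.inr r ∈ a.vs} => x' i r.1)
        (fun r : {r : ι ⊕ κ // Sum.inr r ∈ a.vs} => x' j r.1))) (b.map (COM_e a.vs)) ↔
      Tr S' (Sum.elim e (Sum.elim (x' i) (x' j))) (a.map COM_c) := by
    intro i j
    rw [Tr_map, Tr_map]
    conv_rhs => rw [← hb]
    rw [Tr_map]
    have : (Sum.elim (fun m : {m : M // Sum.inl m ∈ a.vs} => e m.1)
      (Sum.elim (fun r : {r : ι ⊕ κ // Sum.inr r ∈ a.vs} => x' i r.1)
        (fun r : {r : ι ⊕ κ // Sum.inr r ∈ a.vs} => x' j r.1))) ∘ (COM_e a.vs) =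
        ((Sum.elim e (Sum.elim (x' i) (x' j))) ∘ COM_c) ∘ (Subtype.val : a.vs → _) := by
      funext w
      rcases w with ⟨m | r | r, hw⟩ <;> rfl
    rw [this]
  have hswap : ∀ i j, Tr S' (Sum.elim e (Sum.elim (x' i) (x' j))) (a.map COM_c) ↔
      Tr S' (Sum.elim e (Sum.elim (x' j) (x' i))) (a.map COM_d) := by
    intro i j
    rw [Tr_map, Tr_map]
    have : (Sum.elim e (Sum.elim (x' i) (x' j))) ∘ COM_c =
        ((Sum.elim e (Sum.elim (x' j) (x' i))) ∘ COM_d : M ⊕ (ι ⊕ κ) → N) := by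
      funext w
      rcases w with m | r | r <;> rfl
    rw [this]
  have hlt : ∀ i j, i < j → Tr S' (Sum.elim e (Sum.elim (x' i) (x' j))) (a.map COM_c) := by
    intro i j hij
    rw [hlim i j hij]
    refine Eventually.of_forall fun k => (hev k).mono fun l hl => ?_
    exact (hc k l).2 hl.le
  have hgt : ∀ i j, j < i → ¬ Tr S' (Sum.elim e (Sum.elim (x' i) (x' j))) (a.map COM_c) := by
    intro i j hij
    rw [hswap i j, hlim j i hij]
    intro h
    obtain ⟨k, hk⟩ := h.exists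
    obtain ⟨l, hl, hl'⟩ := (hk.and (hev k)).exists
    exact absurd ((hd' k l).1 hl) (not_le.2 hl')
  have hfinP : Finite {m : M // Sum.inl m ∈ a.vs} :=
    (a.vs_finite.preimage (Sum.inl_injective.injOn)).to_subtype
  have hfini : Finite {r : ι ⊕ κ // Sum.inr r ∈ a.vs} :=
    (a.vs_finite.preimage (Sum.inr_injective.injOn)).to_subtype
  obtain ⟨n, hn⟩ := h3 G U N {m : M // Sum.inl m ∈ a.vs} {r : ι ⊕ κ // Sum.inr r ∈ a.vs} S'
    (fun m => e m.1) (fun i r => x' i r.1) (b.map (COM_e a.vs)) True hS' hfinP hfini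
    (by
      intro n s t hs ht
      refine (hind n s t hs ht).comp'
        (fun w => Sum.map Subtype.val (fun v => (v.1, v.2.1)) w) ?_ ?_
      · rintro (m | ⟨k, r⟩) <;> rfl
      · rintro (m | ⟨k, r⟩) <;> rfl)
    (by
      intro i j hij
      rw [hval i j]
      rcases lt_or_gt_of_ne hij with h | h
      · exact ⟨fun _ => ⟨fun _ => h, fun _ => trivial⟩, fun _ => hlt i j h⟩
      · refine ⟨fun h' => absurd h' (hgt i j h), fun h' => absurd (h'.1 trivial) (not_lt.2 h.le)⟩)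
  exact h4 G U d hG hd hU hP n hn

/-- Limits commute for atoms. -/
theorem thm_COM (h1 : St_EMQ) (h2 : St_HGS) (h3 : St_OLR) (h4 : St_OLL) : St_COM := by
  intro G U d hG hd hU hP M S hS X Y ι κ u v f g a
  refine ⟨COM_one h1 h2 h3 h4 G U d hG hd hU hP M S hS X Y ι κ u v f g a, fun hp => ?_⟩
  have hsw : ∀ x y, Tr S (Sum.elim id (Sum.elim (g y) (f x))) (a.map (Sum.map id Sum.swap)) ↔
      Tr S (Sum.elim id (Sum.elim (f x) (g y))) a := by
    intro x y
    rw [Tr_map]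
    have : (Sum.elim id (Sum.elim (g y) (f x))) ∘ (Sum.map id Sum.swap) =
        (Sum.elim id (Sum.elim (f x) (g y)) : M ⊕ (ι ⊕ κ) → M) := by
      funext w
      rcases w with m | r | r <;> rfl
    rw [this]
  have h := COM_one h1 h2 h3 h4 G U d hG hd hU hP M S hS Y X κ ι v u g f
    (a.map (Sum.map id Sum.swap)) (by simpa only [hsw] using hp)
  simpa only [hsw] using h

end UN
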