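import Pool.Agent.UN.StD

/-!
# UN [CSD]: the sizes of the components are decoded
-/

set_option autoImplicit false
set_option linter.unusedVariables false

namespace UN

open Set Filter Pool.Agent.Helper5.DU Pool.Agent.Helper6.Str Pool.Agent.Helper79.VC
  Pool.Agent.Helper97.LO Pool.Agent.Helper97.VC

/-- The sizes of the components are decoded. -/
theorem thm_CSD (h1 : St_CSZ) : St_CSD := by
  classical
  intro G U M P S q Lk κ X J hP hU hfin hκ hκ1 hV hX hA hB
  obtain ⟨Nf, hNf⟩ : ∃ Nf : (ℕ → Bool) → Set ℕ,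
      Nf = fun f => range fun k => 2 * k + (if f k = true then 1 else 0) := ⟨_, rfl⟩
  have hinf : ∀ f, (Nf f).Infinite := by
    intro f
    rw [hNf]
    refine Set.infinite_range_of_injective ?_
    intro a b hab
    have hab' : 2 * a + (if f a = true then 1 else 0) = 2 * b + (if f b = true then 1 else 0) := hab
    split_ifs at hab' <;> omega
  obtain ⟨f, f', hne, hBW⟩ := hP M S hU (fun f => X (Nf f)) P q (κ + Ordinal.omega0) hfin
    (add_lt_om1 hκ omega_lt_om1) (fun f => hX _ (hinf f))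
  obtain ⟨k, hk⟩ := Function.ne_iff.1 hne
  have hm : 2 * k + (if f k = true then 1 else 0) ∈ Nf f := by
    rw [hNf]
    exact ⟨k, rfl⟩
  obtain ⟨u, n, hu, hc, hn⟩ := hA (Nf f) (hinf f) _ hm
  obtain ⟨u', hu', hc'⟩ := h1 G M P S q Lk κ (X (Nf f)) (X (Nf f')) hκ1 hV
    (hX _ (hinf f)).2.2.2 (hX _ (hinf f')).2.2.2 hBW u n hu hc
  have hm' := hB (Nf f') (hinf f') u' n _ hu' hc' hn
  rw [hNf] at hm'
  obtain ⟨k', hk'⟩ := hm'
  have hk'' : 2 * k' + (if f' k' = true then 1 else 0) =
    2 * k + (if f k = true then 1 else 0) := hk'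
  have hkk : k' = k := by
    split_ifs at hk'' <;> omega
  subst hkk
  refine hk ?_
  cases h2 : f k' <;> cases h3 : f' k' <;> simp [h2, h3] at hk'' ⊢

end UN
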