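import Pool.Agent.UN.StD
import Pool.Agent.UN.Bas

/-!
# UN [CSZ]: the sizes of the components are visible
-/

set_option autoImplicit false
set_option linter.unusedVariables false

namespace UN

open Set Filter Pool.Agent.Helper5.DU Pool.Agent.Helper6.Str Pool.Agent.Helper79.VC
  Pool.Agent.Helper97.LO Pool.Agent.Helper97.VC

private theorem CSZ_mx {G : Sg} {M P : Type} {S : Sys G M} {q : P → M}
    {Lk : Set M → M → M → Prop} {X : Set M} {u v : M} (hu : Mx S X q u)
    (h : Cn S X q Lk u v) : Mx S X q v := by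
  rcases Relation.ReflTransGen.cases_tail h with rfl | ⟨w, -, hw⟩
  · exact hu
  · exact hw.1

private theorem CSZ_mg {G : Sg} {M N : Type} {S : Sys G M} {S' : Sys G N} {X : Set M} {X' : Set N}
    {γ : Ordinal.{0}} {p : Set (M × N)} (h : BW S S' X X' γ p) {x y : M} {x' y' : N}
    (hx : (x, x') ∈ p) (hy : (y, y') ∈ p) : Mg S x y ↔ Mg S' x' y' := by
  have h1 : Eqv S (fun c : Bool => if c then x else y) S' (fun c : Bool => if c then x' else y') :=
    BW.eqv h (by intro c; cases c <;> simpa)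
  have h2 := h1.mg true false
  simpa using h2

theorem thm_CSZ (hV : St_VMX) : St_CSZ := by
  intro G M P S q Lk κ X X' hκ hL hX hX' hB u n hu hC
  obtain ⟨t, h1, h2, h3⟩ := hC
  obtain ⟨i₀, hi₀⟩ := h3 u Relation.ReflTransGen.refl
  have ht : ∀ i, Mx S X q (t i) := fun i => CSZ_mx hu (h1 i)
  -- the answers
  have hlev : κ + 1 + (n : Ordinal.{0}) ≤ κ + Ordinal.omega0 := by
    rw [add_assoc]
    have h4 : (1 : Ordinal.{0}) + (n : Ordinal.{0}) = ((1 + n : ℕ) : Ordinal.{0}) := by
      push_cast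
      rfl
    rw [h4]
    exact add_le_add le_rfl (Ordinal.natCast_lt_omega0 _).le
  obtain ⟨t', ht'X, hB1⟩ := BFR.forth_many n (BFR.mono hlev hB) t (fun i => (ht i).1)
  obtain ⟨π, hπ⟩ : ∃ π : Set (M × M), π = prs q q ∪ range fun i => (t i, t' i) := ⟨_, rfl⟩
  have hB2 : BW S S X X' (κ + 1) π := by rw [hπ]; exact hB1
  have hB3 : BW S S X X' κ π := BFR.mono (by exact le_self_add) hB2
  have hq : prs q q ⊆ π := by rw [hπ]; exact subset_union_left
  have hm : ∀ i, (t i, t' i) ∈ π := fun i => by rw [hπ]; exact Or.inr ⟨i, rfl⟩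
  have ht' : ∀ i, Mx S X' q (t' i) := fun i =>
    (hV G M M P S S X X' κ π q q (t i) (t' i) hκ hB3 hq (hm i) (ht i).1 (ht'X i)).1 (ht i)
  have hmg : ∀ i j, Mg S (t i) (t j) ↔ Mg S (t' i) (t' j) := fun i j => CSZ_mg hB3 (hm i) (hm j)
  have hij : ∀ i j, Mg S (t i) (t j) → i = j := by
    intro i j hg
    by_contra hne
    exact h2 i j hne hg
  refine ⟨t' i₀, ht' i₀, t', ?_, ?_, ?_⟩
  · -- the elements `t' i` are reached
    have key : ∀ v, Cn S X q Lk u v → ∀ j, Mg S v (t j) → Cn S X' q Lk (t' i₀) (t' j) := by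
      intro v hv
      induction hv with
      | refl =>
        intro j hj
        have h4 := hij i₀ j (hi₀.symm.trans hj)
        rw [h4]
        exact Relation.ReflTransGen.refl
      | @tail v w hv hw ih =>
        intro j' hj'
        obtain ⟨j, hj⟩ := h3 v hv
        have h4 := ih j hj
        rcases hw.2 with h5 | h5
        · have h6 : Lk X (t j) (t j') :=
            hL.inv X v w (t j) (t j') (CSZ_mx hu hv) hw.1 (ht j) (ht j') hj hj' h5
          have h7 : Lk X' (t' j) (t' j') :=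
            (hL.vis X X' π hX hX' hB3 hq _ (hm j) _ (hm j') (ht j) (ht' j) (ht j') (ht' j')).1 h6
          exact Relation.ReflTransGen.tail h4 ⟨ht' j', Or.inl h7⟩
        · have h6 := hij j j' (hj.symm.trans (h5.trans hj'))
          rw [← h6]
          exact h4
    exact fun i => key (t i) (h1 i) i (Mg.refl _)
  · intro i j hne hg
    exact h2 i j hne ((hmg i j).2 hg)
  · intro v' hv'
    induction hv' with
    | refl => exact ⟨i₀, Mg.refl _⟩
    | @tail v' w' hv' hw' ih =>
      obtain ⟨i, hi⟩ := ih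
      rcases hw'.2 with h5 | h5
      · have h6 : Lk X' (t' i) w' :=
          hL.inv X' v' w' (t' i) w' (CSZ_mx (ht' i₀) hv') hw'.1 (ht' i) hw'.1 hi (Mg.refl _) h5
        obtain ⟨w, hw, hB4⟩ := BFR.back hB2 (β := κ) (by
          rw [← Order.succ_eq_add_one]
          exact Order.lt_succ κ) hw'.1.1
        have hB5 : BW S S X X' κ (insert (w, w') π) := hB4
        have hq' : prs q q ⊆ insert (w, w') π := hq.trans (subset_insert _ _)
        have hwM : Mx S X q w :=
          (hV G M M P S S X X' κ _ q q w w' hκ hB5 hq' (mem_insert _ _) hw hw'.1.1).2 hw'.1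
        have h7 : Lk X (t i) w :=
          (hL.vis X X' _ hX hX' hB5 hq' (t i, t' i) (mem_insert_of_mem _ (hm i)) (w, w')
            (mem_insert _ _) (ht i) (ht' i) hwM hw'.1).2 h6
        have h8 : Cn S X q Lk u w := Relation.ReflTransGen.tail (h1 i) ⟨hwM, Or.inl h7⟩
        obtain ⟨j, hj⟩ := h3 w h8
        exact ⟨j, (CSZ_mg hB5 (mem_insert _ _) (mem_insert_of_mem _ (hm j))).1 hj⟩
      · exact ⟨i, h5.symm.trans hi⟩

end UN
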