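import Pool.Agent.UN.StE

/-!
# UN [DEP]: families outside of `A₁` are independent over `A` from families in `A₁`
-/

set_option autoImplicit false
set_option linter.unusedVariables false

namespace UN

open Set Filter Pool.Agent.Helper5.DU Pool.Agent.Helper6.Str Pool.Agent.Helper79.VC
  Pool.Agent.Helper97.LO Pool.Agent.Helper97.VC

private theorem DEP_hyp {Q : ℕ → Prop} (h : {n | ¬ Q n}.Finite) :
    ∀ᶠ n in ((hyperfilter ℕ : Ultrafilter ℕ) : Filter ℕ), Q n := by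
  have h1 := h.compl_mem_hyperfilter
  refine mem_of_superset h1 fun n hn => ?_
  by_contra h2
  exact hn h2

private theorem DEP_ne (i : ℕ) :
    ∀ᶠ j in ((hyperfilter ℕ : Ultrafilter ℕ) : Filter ℕ), j ≠ i := by
  refine DEP_hyp ((finite_singleton i).subset fun j hj => ?_)
  exact not_not.1 hj

private theorem DEP_const {Y : Type} (u : Ultrafilter Y) (p : Prop) :
    (∀ᶠ y in (u : Filter Y), p) ↔ p :=
  eventually_const

/-- finite satisfiability for Step 2 -/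
private theorem DEP_fs (hPRQ : St_PRQ) (hQLB : St_QLB) {G : Sg} {M N ι κ : Type} {S : Sys G M}
    {A : Set M} (m₀ : M) (b : κ → M) (w : Ultrafilter (ι → M)) {S₁ : Sys G N} {e₁ : M → N}
    {x : ℕ → ι → N} (hPR : PR S (fun _ : ℕ => w) (fun _ => id) S₁ e₁ x)
    (D : Set (At G (A ⊕ La κ ι))) (hD : D.Finite) :
    ∃ v' : La κ ι → M, ∀ a ∈ D,
      Tr S₁ (Sum.elim (fun m : A => e₁ m)
        (Sum.elim (fun c => e₁ (b c)) (fun p : ℕ × ι => x p.1 p.2))) a ↔
      Tr S (ov A v') a := by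
  classical
  let ρ : A ⊕ La κ ι → M ⊕ ℕ × ι :=
    Sum.elim (fun m => Sum.inl m) (Sum.elim (fun c => Sum.inl (b c)) Sum.inr)
  have h1 : ∀ a : At G (A ⊕ La κ ι), Tr S₁ (Sum.elim (fun m : A => e₁ m)
      (Sum.elim (fun c => e₁ (b c)) (fun p : ℕ × ι => x p.1 p.2))) a ↔
      Tr S₁ (Sum.elim e₁ fun v : ℕ × ι => x v.1 v.2) (a.map ρ) := by
    intro a
    rw [Tr_map]
    have : (Sum.elim e₁ fun v : ℕ × ι => x v.1 v.2) ∘ ρ = Sum.elim (fun m : A => e₁ m)
        (Sum.elim (fun c => e₁ (b c)) (fun p : ℕ × ι => x p.1 p.2)) := by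
      funext c
      rcases c with m | c | p <;> rfl
    rw [this]
  have hfin : {t : ℕ | ∃ a ∈ D, ∃ r, Sum.inr (t, r) ∈ (a.map ρ).vs}.Finite := by
    have h2 : (⋃ a ∈ D, (a.map ρ).vs).Finite := hD.biUnion fun a _ => At.vs_finite _
    have h3 := h2.image (fun c : M ⊕ ℕ × ι => Sum.elim (fun _ => 0) Prod.fst c)
    refine h3.subset ?_
    rintro t ⟨a, ha, r, hr⟩
    exact ⟨Sum.inr (t, r), mem_biUnion ha hr, rfl⟩
  let l : List ℕ := hfin.toFinset.toList
  have hl : l.Nodup := Finset.nodup_toList _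
  have hmem : ∀ a ∈ D, ∀ (t : ℕ) (r : ι), Sum.inr (t, r) ∈ (a.map ρ).vs → t ∈ l := by
    intro a ha t r hr
    rw [Finset.mem_toList, Set.Finite.mem_toFinset]
    exact ⟨a, ha, r, hr⟩
  let y₀ : ℕ → (ι → M) := fun _ _ => m₀
  obtain ⟨q1, q2, q3, q4, q5, -⟩ := hQLB ℕ (ι → M) (fun _ => w) l y₀
  have h4 : ∀ a ∈ D, QL (fun _ : ℕ => w) (fun y => (Tr S₁ (Sum.elim (fun m : A => e₁ m)
      (Sum.elim (fun c => e₁ (b c)) (fun p : ℕ × ι => x p.1 p.2))) a ↔
      QA S (fun _ => id) (a.map ρ) y)) l y₀ := by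
    intro a ha
    have h5 := hPRQ G M N ℕ (ι → M) ι S (fun _ => w) (fun _ => id) S₁ e₁ x hPR l (a.map ρ) y₀ hl
      (hmem a ha)
    rw [← h1 a] at h5
    by_cases hΘ : Tr S₁ (Sum.elim (fun m : A => e₁ m)
      (Sum.elim (fun c => e₁ (b c)) (fun p : ℕ × ι => x p.1 p.2))) a
    · refine (q5 _ _ fun y => ?_).1 (h5.1 hΘ)
      exact ⟨fun h => ⟨fun _ => h, fun _ => hΘ⟩, fun h => h.1 hΘ⟩
    · have h6 := (q1 _).2 fun h => hΘ (h5.2 h)
      refine (q5 _ _ fun y => ?_).1 h6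
      exact ⟨fun h => ⟨fun h' => absurd h' hΘ, fun h' => absurd h' h⟩, fun h h' => hΘ (h.2 h')⟩
  have h5 := (q3 _ D (fun a y => (Tr S₁ (Sum.elim (fun m : A => e₁ m)
      (Sum.elim (fun c => e₁ (b c)) (fun p : ℕ × ι => x p.1 p.2))) a ↔
      QA S (fun _ => id) (a.map ρ) y)) hD).2 h4
  obtain ⟨y', -, hy'⟩ := q4 _ h5
  refine ⟨Sum.elim b (fun p => y' p.1 p.2), fun a ha => ?_⟩
  rw [hy' a ha, QA, Tr_map]
  have : (Sum.elim id fun v : ℕ × ι => (fun _ : ℕ => (id : (ι → M) → ι → M)) v.1 (y' v.1) v.2) ∘ ρ =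
      ov A (Sum.elim b (fun p : ℕ × ι => y' p.1 p.2)) := by
    funext c
    rcases c with m | c | p <;> rfl
  rw [this]

/-- Families outside of `A₁` are independent over `A` from families in `A₁`. -/
theorem thm_DEP (hULM : St_ULM) (hIPA : St_IPA) (hMPR : St_MPR) (hPRQ : St_PRQ) (hPRF : St_PRF)
    (hQLB : St_QLB) : St_DEP := by
  intro G U hU hC hW M S A A₁ hM hA hA₁ hAA ι κ v b hv hb u hu a
  obtain ⟨i1, -, -⟩ := hIPA G U hC M S A₁ hM hA₁
  obtain ⟨w₁, hw₁⟩ := i1 ι v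
  -- Step 1
  have hNP : NP w₁ (id : (ι → M) → ι → M) := by
    intro r m
    by_cases hm : m ∈ A₁
    · have h1 := hw₁.lim (.eq ([], Sum.inr r) ([], Sum.inl ⟨m, hm⟩))
      have h2 : ¬ Tr S (ov A₁ v) (.eq ([], Sum.inr r) ([], Sum.inl ⟨m, hm⟩)) := by
        intro h
        have h' : v r = m := h
        exact hv r (h' ▸ hm)
      rw [h1, ← Ultrafilter.eventually_not] at h2
      exact h2.mono fun y hy h => hy h
    · exact hw₁.mem.mono fun y hy h => hm (h ▸ hy r)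
  obtain ⟨N₁, S₁, e₁, x, hU₁, hPR₁⟩ := hMPR G U hU hC M S hM ℕ (ι → M) ι (fun _ => w₁)
    (fun _ => id)
  obtain ⟨f1, -, f3⟩ := hPRF G M N₁ ℕ (ι → M) ι S (fun _ => w₁) (fun _ => id) S₁ e₁ x hPR₁
  have hF : ∀ n, Eqv S₁ (Sum.elim (fun m : A₁ => e₁ m) (x n)) S (ov A₁ v) := by
    intro n a'
    have h1 := f1 n (a'.map (Sum.map (fun m : A₁ => (m : M)) id))
    rw [Tr_map] at h1
    have e1 : Sum.elim e₁ (x n) ∘ Sum.map (fun m : A₁ => (m : M)) id =
        Sum.elim (fun m : A₁ => e₁ m) (x n) := by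
      funext c
      rcases c with c | c <;> rfl
    rw [e1] at h1
    rw [h1, hw₁.lim a']
    refine eventually_congr (Eventually.of_forall fun y => ?_)
    rw [Tr_map]
    have e2 : Sum.elim id (id y) ∘ Sum.map (fun m : A₁ => (m : M)) id = ov A₁ y := by
      funext c
      rcases c with c | c <;> rfl
    rw [e2]
  have hx : ∀ n n' r, n ≠ n' → x n r ≠ x n' r := by
    intro n n' r hn h
    refine (f3 n hNP r).2 n' r (Ne.symm hn) ?_
    rw [h]
    exact Gn.refl _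
  -- Step 2
  obtain ⟨m₀, hm₀⟩ := hA.1
  let E : La κ ι → N₁ := Sum.elim (fun c => e₁ (b c)) (fun p : ℕ × ι => x p.1 p.2)
  obtain ⟨w₂, hw₂m, hw₂⟩ := hULM G M N₁ (La κ ι) S A S₁ (fun m => e₁ m) E hA
    (DEP_fs hPRQ hQLB m₀ b w₁ hPR₁)
  -- Step 3
  obtain ⟨N₂, S₂, e₂, g, hU₂, hPR₂⟩ := hMPR G U hU hC M S hM ℕ (La κ ι → M) (La κ ι)
    (fun _ => w₂) (fun _ => id)
  obtain ⟨g1, g2, -⟩ := hPRF G M N₂ ℕ (La κ ι → M) (La κ ι) S (fun _ => w₂) (fun _ => id)
    S₂ e₂ g hPR₂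
  have hg : ∀ k, Eqv S₂ (Sum.elim (fun m : A => e₂ m) (g k)) S₁
      (Sum.elim (fun m : A => e₁ m) E) := by
    intro k a'
    have h1 := g1 k (a'.map (Sum.map (fun m : A => (m : M)) id))
    rw [Tr_map] at h1
    have e1 : Sum.elim e₂ (g k) ∘ Sum.map (fun m : A => (m : M)) id =
        Sum.elim (fun m : A => e₂ m) (g k) := by
      funext c
      rcases c with c | c <;> rfl
    rw [e1] at h1
    rw [h1, hw₂ a']
    refine eventually_congr (Eventually.of_forall fun y => ?_)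
    rw [Tr_map]
    have e2 : Sum.elim id (id y) ∘ Sum.map (fun m : A => (m : M)) id = ov A y := by
      funext c
      rcases c with c | c <;> rfl
    rw [e2]
  -- Step 4
  have hNP₂ : ∀ k, NP (hyperfilter ℕ) (fun n r => g k (Sum.inr (n, r))) := by
    intro k r m
    refine DEP_hyp (Set.Subsingleton.finite ?_)
    intro n hn n' hn'
    have h1 : g k (Sum.inr (n, r)) = g k (Sum.inr (n', r)) :=
      (not_not.1 hn).trans (not_not.1 hn').symm
    by_contra h2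
    exact hx n n' r h2 (((hg k).eq (Sum.inr (Sum.inr (n, r))) (Sum.inr (Sum.inr (n', r)))).1 h1)
  have hWr := hW N₂ S₂ hU₂ ℕ ι κ (hyperfilter ℕ) (fun k => g k ∘ Sum.inl)
    (fun _ => hyperfilter ℕ) (fun k n r => g k (Sum.inr (n, r)))
    (a.map (Sum.map (fun m : A => e₂ m) id)) DEP_ne hNP₂
  -- left side
  have hL : ∀ k n, Tr S₂ (Sum.elim id (Sum.elim (g k ∘ Sum.inl) (fun r => g k (Sum.inr (n, r)))))
      (a.map (Sum.map (fun m : A => e₂ m) id)) ↔ Tr S (ov A (Sum.elim b v)) a := by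
    intro k n
    rw [Tr_map]
    have h1 := (hg k).comp' (Sum.map id (Sum.map id fun r => (n, r)))
      (u := Sum.elim id (Sum.elim (g k ∘ Sum.inl) (fun r => g k (Sum.inr (n, r)))) ∘
        Sum.map (fun m : A => e₂ m) id)
      (u' := Sum.elim (fun m : A => e₁ m) (Sum.elim (fun c => e₁ (b c)) (x n)))
      (by rintro (c | c | c) <;> rfl) (by rintro (c | c | c) <;> rfl)
    rw [h1 a]
    have h2 := (hF n).comp' (Sum.elim (fun m : A => Sum.inl ⟨(m : M), hAA m.2⟩)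
      (Sum.elim (fun c => Sum.inl ⟨b c, hb c⟩) fun r => Sum.inr r))
      (u := Sum.elim (fun m : A => e₁ m) (Sum.elim (fun c => e₁ (b c)) (x n)))
      (u' := ov A (Sum.elim b v))
      (by rintro (c | c | c) <;> rfl) (by rintro (c | c | c) <;> rfl)
    exact h2 a
  -- right side
  have hR : ∀ i j n, j ≠ i → (Tr S₂ (Sum.elim id (Sum.elim (g j ∘ Sum.inl)
      (fun r => g i (Sum.inr (n, r))))) (a.map (Sum.map (fun m : A => e₂ m) id)) ↔
      ∀ᶠ y in (w₂ : Filter (La κ ι → M)), Tr S (ov A (Sum.elim (y ∘ Sum.inl) v)) a) := by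
    intro i j n hij
    let σ : A ⊕ (κ ⊕ ι) → M ⊕ (La κ ι ⊕ La κ ι) :=
      Sum.elim (fun m => Sum.inl m) (Sum.elim (fun c => Sum.inr (Sum.inl (Sum.inl c)))
        fun r => Sum.inr (Sum.inr (Sum.inr (n, r))))
    have h1 := g2 j i (a.map σ) hij
    rw [Tr_map] at h1
    have e1 : Sum.elim e₂ (Sum.elim (g j) (g i)) ∘ σ = Sum.elim id (Sum.elim (g j ∘ Sum.inl)
      (fun r => g i (Sum.inr (n, r)))) ∘ Sum.map (fun m : A => e₂ m) id := by
      funext c
      rcases c with c | c | c <;> rfl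
    rw [e1] at h1
    rw [Tr_map, h1]
    refine eventually_congr (hw₂m.mono fun y hy => ?_)
    let τ : A ⊕ (κ ⊕ ι) → A ⊕ La κ ι :=
      Sum.elim (fun m => Sum.inl m) (Sum.elim (fun c => Sum.inl ⟨y (Sum.inl c), hy _⟩)
        fun r => Sum.inr (Sum.inr (n, r)))
    have h2 := hw₂ (a.map τ)
    rw [Tr_map] at h2
    have h3 : (∀ᶠ z in (w₂ : Filter (La κ ι → M)), Tr S (Sum.elim id (Sum.elim (id y) (id z)))
        (a.map σ)) ↔ ∀ᶠ z in (w₂ : Filter (La κ ι → M)), Tr S (ov A z) (a.map τ) := by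
      refine eventually_congr (Eventually.of_forall fun z => ?_)
      rw [Tr_map, Tr_map]
      have e2 : Sum.elim id (Sum.elim (id y) (id z)) ∘ σ = ov A z ∘ τ := by
        funext c
        rcases c with c | c | c <;> rfl
      rw [e2]
    refine h3.trans (h2.symm.trans ?_)
    have h4 := (hF n).comp' (Sum.elim (fun m : A => Sum.inl ⟨(m : M), hAA m.2⟩)
      (Sum.elim (fun c => Sum.inl ⟨y (Sum.inl c), hAA (hy _)⟩) fun r => Sum.inr r))
      (u := Sum.elim (fun m : A => e₁ m) E ∘ τ)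
      (u' := ov A (Sum.elim (y ∘ Sum.inl) v))
      (by rintro (c | c | c) <;> rfl) (by rintro (c | c | c) <;> rfl)
    exact h4 a
  -- the limit of `b`
  have hLm : Lm S A b (w₂.map (· ∘ Sum.inl)) := by
    refine ⟨?_, fun a' => ?_⟩
    · rw [Ultrafilter.coe_map, eventually_map]
      exact hw₂m.mono fun y hy i => hy _
    · rw [Ultrafilter.coe_map, eventually_map]
      have h1 := hw₂ (a'.map (Sum.map id Sum.inl))
      rw [Tr_map] at h1
      have h2 := hPR₁.emb.comp' (Sum.elim (fun m : A => (m : M)) b)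
        (u := ov A b) (u' := Sum.elim (fun m : A => e₁ m) E ∘ Sum.map id Sum.inl)
        (by rintro (c | c) <;> rfl) (by rintro (c | c) <;> rfl)
      rw [h2 a', h1]
      refine eventually_congr (Eventually.of_forall fun y => ?_)
      rw [Tr_map]
      have e2 : ov A y ∘ Sum.map id Sum.inl = ov A (y ∘ Sum.inl) := by
        funext c
        rcases c with c | c <;> rfl
      rw [e2]
  obtain ⟨-, i2, -⟩ := hIPA G U hC M S A hM hA
  have hO := i2 κ ι b v _ _ a hLm hu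
  rw [Ultrafilter.coe_map, eventually_map] at hO
  rw [← hO]
  simp only [hL] at hWr
  rw [DEP_const, DEP_const] at hWr
  rw [hWr]
  have h5 : (∀ᶠ i in ((hyperfilter ℕ : Ultrafilter ℕ) : Filter ℕ),
      ∀ᶠ j in ((hyperfilter ℕ : Ultrafilter ℕ) : Filter ℕ),
      ∀ᶠ n in ((hyperfilter ℕ : Ultrafilter ℕ) : Filter ℕ),
      Tr S₂ (Sum.elim id (Sum.elim (g j ∘ Sum.inl) (fun r => g i (Sum.inr (n, r)))))
        (a.map (Sum.map (fun m : A => e₂ m) id))) ↔
      (∀ᶠ i in ((hyperfilter ℕ : Ultrafilter ℕ) : Filter ℕ),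
      ∀ᶠ j in ((hyperfilter ℕ : Ultrafilter ℕ) : Filter ℕ),
      ∀ᶠ n in ((hyperfilter ℕ : Ultrafilter ℕ) : Filter ℕ),
      ∀ᶠ y in (w₂ : Filter (La κ ι → M)), Tr S (ov A (Sum.elim (y ∘ Sum.inl) v)) a) := by
    refine eventually_congr (Eventually.of_forall fun i => ?_)
    refine eventually_congr ((DEP_ne i).mono fun j hj => ?_)
    refine eventually_congr (Eventually.of_forall fun n => ?_)
    exact hR i j n hj
  rw [h5, DEP_const, DEP_const, DEP_const]

end UN
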