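import Pool.Agent.UN.StE

/-!
# UN: a finite family determines the types over `A`
-/

set_option autoImplicit false
set_option linter.unusedVariables false

namespace UN

open Set Filter Pool.Agent.Helper5.DU Pool.Agent.Helper6.Str Pool.Agent.Helper79.VC
  Pool.Agent.Helper97.LO Pool.Agent.Helper97.VC

theorem DTT_sep {C : Type} {𝒯 : Set (Set C)} (h : 𝒯.Finite) :
    ∃ E : Set C, E.Finite ∧ ∀ T ∈ 𝒯, ∀ T' ∈ 𝒯, (∀ c ∈ E, (c ∈ T ↔ c ∈ T')) → T = T' := by
  classical
  have h1 : ∀ p : Set C × Set C, ∃ F : Set C, F.Finite ∧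
      ((∀ c ∈ F, (c ∈ p.1 ↔ c ∈ p.2)) → p.1 = p.2) := by
    intro p
    by_cases h2 : p.1 = p.2
    · exact ⟨∅, finite_empty, fun _ => h2⟩
    · have h3 : ∃ c, ¬ (c ∈ p.1 ↔ c ∈ p.2) := by
        by_contra h4
        exact h2 (Set.ext fun c => by
          by_contra h5
          exact h4 ⟨c, h5⟩)
      obtain ⟨c, hc⟩ := h3
      exact ⟨{c}, finite_singleton c, fun h4 => absurd (h4 c rfl) hc⟩
  choose F hF hF' using h1
  refine ⟨⋃ p ∈ 𝒯 ×ˢ 𝒯, F p, (h.prod h).biUnion fun p _ => hF p, ?_⟩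
  intro T hT T' hT' h2
  exact hF' (T, T') fun c hc => h2 c (mem_biUnion (mk_mem_prod hT hT') hc)

open Classical in
/-- the atom `R(x, c)` with `x` at the places of `I` -/
noncomputable def DTT_at {G : Sg} (R : G.Rl) (I : Set (Fin (G.ar R))) :
    At G ({k // k ∉ I} ⊕ {k // k ∈ I}) :=
  .rel R fun k => ([], if h : k ∈ I then Sum.inr ⟨k, h⟩ else Sum.inl ⟨k, h⟩)

open Classical in
theorem DTT_tr {G : Sg} {M : Type} (S : Sys G M) (R : G.Rl) (I : Set (Fin (G.ar R)))
    (f : Fin (G.ar R) → M) :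
    Tr S (Sum.elim (fun k : {k // k ∉ I} => f k) (fun k : {k // k ∈ I} => f k)) (DTT_at R I) ↔
      S.rel R f := by
  have h : (fun k : Fin (G.ar R) => S.w [] (Sum.elim (fun k : {k // k ∉ I} => f k)
      (fun k : {k // k ∈ I} => f k) (if h : k ∈ I then Sum.inr ⟨k, h⟩ else Sum.inl ⟨k, h⟩))) =
      f := by
    funext k
    by_cases hk : k ∈ I
    · rw [dif_pos hk]; rfl
    · rw [dif_neg hk]; rfl
  have h2 : Tr S (Sum.elim (fun k : {k // k ∉ I} => f k) (fun k : {k // k ∈ I} => f k))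
      (DTT_at R I) ↔ S.rel R (fun k : Fin (G.ar R) => S.w [] (Sum.elim
      (fun k : {k // k ∉ I} => f k) (fun k : {k // k ∈ I} => f k)
      (if h : k ∈ I then Sum.inr ⟨k, h⟩ else Sum.inl ⟨k, h⟩))) := Iff.rfl
  rw [h2, h]

/-- words of elements outside of `A` with values in `A` -/
theorem DTT_word {G : Sg} {M P V : Type} {S : Sys G M} {A : Set M} {q : P → M} {z z' : V → M}
    (ht : ∀ x ∉ A, ∀ y ∈ A, Gn S x y → ∃ c, Gn S (q c) y) (hz : ∀ v, z v ∉ A)
    (h : Eqv S (Sum.elim q z) S (Sum.elim q z')) (v : V) (l : List G.Fn)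
    (hl : S.w l (z v) ∈ A) : S.w l (z' v) = S.w l (z v) := by
  obtain ⟨c, l', hl'⟩ := ht (z v) (hz v) _ hl ⟨l, rfl⟩
  have h1 := (h.w_eq l l' (Sum.inr v) (Sum.inl c)).1 hl'
  exact h1.trans hl'.symm

theorem thm_DTT (h1 : St_FTR) (h2 : St_ROT) : St_DTT := by
  classical
  intro G U hG hU hC hW hP hR M S A hS hE hA
  -- the elements which have all traces
  have e1 := h2 G U hG hU hC hP M S A hS hE hA
  have e2 : ∀ T : Set M, ∃ x : M, (∃ x ∉ A, T = trc S A x) → T = trc S A x := by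
    intro T
    by_cases hT : ∃ x ∉ A, T = trc S A x
    · obtain ⟨x, hx, hT'⟩ := hT
      exact ⟨x, fun _ => hT'⟩
    · obtain ⟨x, hx⟩ := hE.1
      exact ⟨x, fun h => absurd h hT⟩
  choose X hX using e2
  -- the separating sets
  have e3 : ∀ (R : G.Rl) (I : Set (Fin (G.ar R))), ∃ E : Set ({k // k ∉ I} → M), E.Finite ∧
      ∀ x x' : {k // k ∈ I} → M, (∀ i, x i ∉ A) → (∀ i, x' i ∉ A) →
        (∀ c ∈ E, (Tr S (Sum.elim c x) (DTT_at R I) ↔ Tr S (Sum.elim c x') (DTT_at R I))) →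
        ∀ c, (∀ i, c i ∈ A) →
          (Tr S (Sum.elim c x) (DTT_at R I) ↔ Tr S (Sum.elim c x') (DTT_at R I)) := by
    intro R I
    obtain ⟨E, hEf, hEs⟩ := DTT_sep (h1 G U hC hW M S A hS hE {k // k ∈ I} {k // k ∉ I}
      (DTT_at R I))
    refine ⟨E, hEf, fun x x' hx hx' hc c hcA => ?_⟩
    have e4 := hEs _ ⟨x, hx, rfl⟩ _ ⟨x', hx', rfl⟩ fun c' hc' => and_congr Iff.rfl (hc c' hc')
    have e5 := Set.ext_iff.1 e4 c
    exact ⟨fun h => (e5.1 ⟨hcA, h⟩).2, fun h => (e5.2 ⟨hcA, h⟩).2⟩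
  choose E hEf hEs using e3
  let F : Set M := X '' {T : Set M | ∃ x ∉ A, T = trc S A x} ∪
    ⋃ R ∈ {R : G.Rl | 2 ≤ G.ar R}, ⋃ I : Set (Fin (G.ar R)), ⋃ c ∈ E R I, range c
  have hF : F.Finite := by
    refine (e1.image X).union (hR.biUnion fun R _ => finite_iUnion fun I => ?_)
    exact (hEf R I).biUnion fun c _ => finite_range c
  have ht : ∀ x ∉ A, ∀ y ∈ A, Gn S x y → ∃ c : F, Gn S (c : M) y := by
    intro x hx y hy hxy
    have e4 : trc S A x = trc S A (X (trc S A x)) := hX _ ⟨x, hx, rfl⟩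
    have e5 : y ∈ trc S A (X (trc S A x)) := by
      rw [← e4]
      exact ⟨hy, hxy⟩
    exact ⟨⟨X (trc S A x), Or.inl ⟨_, ⟨x, hx, rfl⟩, rfl⟩⟩, e5.2⟩
  refine ⟨F, fun c => (c : M), hF.to_subtype, ?_, ht⟩
  intro V z z' hz hz' h
  have h' := h.symm
  -- values of terms
  let w : List G.Fn × (A ⊕ V) → M := fun t => S.w t.1 (ov A z t.2)
  let w' : List G.Fn × (A ⊕ V) → M := fun t => S.w t.1 (ov A z' t.2)
  have f1 : ∀ t, w t ∈ A → w' t = w t := by
    rintro ⟨l, a | v⟩ ht'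
    · rfl
    · exact DTT_word ht hz h v l ht'
  have f2 : ∀ t, w' t ∈ A → w t = w' t := by
    rintro ⟨l, a | v⟩ ht'
    · rfl
    · exact DTT_word ht hz' h' v l ht'
  have f3 : ∀ t, w t ∉ A → ∃ v, t.2 = Sum.inr v := by
    rintro ⟨l, a | v⟩ ht'
    · exact absurd (w_mem hA a.2 l) ht'
    · exact ⟨v, rfl⟩
  have f4 : ∀ t, w t ∉ A → w' t ∉ A := fun t h3 h4 => h3 (by rw [f2 t h4]; exact h4)
  rintro (⟨s, t⟩ | ⟨R, t⟩)
  · have g1 : Tr S (ov A z) (.eq s t) ↔ w s = w t := Iff.rfl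
    have g2 : Tr S (ov A z') (.eq s t) ↔ w' s = w' t := Iff.rfl
    rw [g1, g2]
    by_cases hs : w s ∈ A
    · by_cases ht' : w t ∈ A
      · rw [f1 s hs, f1 t ht']
      · constructor
        · intro h3
          exact absurd (h3 ▸ hs) ht'
        · intro h3
          have h4 : w' s ∈ A := by rw [f1 s hs]; exact hs
          exact absurd (h3 ▸ h4) (f4 t ht')
    · by_cases ht' : w t ∈ A
      · constructor
        · intro h3
          exact absurd (h3 ▸ ht') hs
        · intro h3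
          have h4 : w' t ∈ A := by rw [f1 t ht']; exact ht'
          exact absurd (h3 ▸ h4) (f4 s hs)
      · obtain ⟨v, hv⟩ := f3 s hs
        obtain ⟨u, hu⟩ := f3 t ht'
        have h3 := h.w_eq s.1 t.1 (Sum.inr v) (Sum.inr u)
        have k1 : w s = S.w s.1 (z v) := by
          change S.w s.1 (ov A z s.2) = _
          rw [hv]; rfl
        have k2 : w' s = S.w s.1 (z' v) := by
          change S.w s.1 (ov A z' s.2) = _
          rw [hv]; rfl
        have k3 : w t = S.w t.1 (z u) := by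
          change S.w t.1 (ov A z t.2) = _
          rw [hu]; rfl
        have k4 : w' t = S.w t.1 (z' u) := by
          change S.w t.1 (ov A z' t.2) = _
          rw [hu]; rfl
        rw [k1, k2, k3, k4]
        exact h3
  · have g1 : Tr S (ov A z) (.rel R t) ↔ S.rel R fun k => w (t k) := Iff.rfl
    have g2 : Tr S (ov A z') (.rel R t) ↔ S.rel R fun k => w' (t k) := Iff.rfl
    rw [g1, g2]
    have g3 : ∀ k, w (t k) ∉ A → ∃ l i, w (t k) = S.w l (Sum.elim (fun c : F => (c : M)) z i) ∧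
        w' (t k) = S.w l (Sum.elim (fun c : F => (c : M)) z' i) := by
      intro k hk
      obtain ⟨v, hv⟩ := f3 (t k) hk
      refine ⟨(t k).1, Sum.inr v, ?_, ?_⟩
      · change S.w (t k).1 (ov A z (t k).2) = _
        rw [hv]; rfl
      · change S.w (t k).1 (ov A z' (t k).2) = _
        rw [hv]; rfl
    by_cases hI : ∀ k, w (t k) ∈ A
    · have g4 : (fun k => w' (t k)) = fun k => w (t k) := funext fun k => f1 _ (hI k)
      rw [g4]
    · push Not at hI
      obtain ⟨k₀, hk₀⟩ := hI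
      by_cases h2R : 2 ≤ G.ar R
      · let I : Set (Fin (G.ar R)) := {k | w (t k) ∉ A}
        rw [← DTT_tr S R I, ← DTT_tr S R I (fun k => w' (t k))]
        have g4 : (fun k : {k // k ∉ I} => w' (t k)) = fun k : {k // k ∉ I} => w (t k) :=
          funext fun k => f1 _ (by
            have h3 : ¬ (w (t k) ∉ A) := k.2
            exact not_not.1 h3)
        rw [g4]
        refine hEs R I _ _ (fun k => k.2) (fun k => f4 _ k.2) ?_ _ fun k => ?_
        · intro c hc
          refine (h.words' ?_) (DTT_at R I)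
          rintro (k | k)
          · refine ⟨[], Sum.inl ⟨c k, ?_⟩, rfl, rfl⟩
            refine Or.inr (mem_biUnion h2R (mem_iUnion.2 ⟨I, mem_biUnion hc ⟨k, rfl⟩⟩))
          · exact g3 k k.2
        · have h3 : ¬ (w (t k) ∉ A) := k.2
          exact not_not.1 h3
      · have hs : ∀ k, k = k₀ := fun k => Fin.ext (by
          have := k.2
          have := k₀.2
          omega)
        have g4 : Eqv S (fun k => w (t k)) S (fun k => w' (t k)) :=
          h.words' fun k => g3 k (by rw [hs k]; exact hk₀)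
        exact g4 (.rel R fun k => ([], k))

end UN
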