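import Pool.Agent.UN.StB

/-!
# UN, module EMQ: indiscernible sequences along the rationals from limits
-/

set_option autoImplicit false
set_option linter.unusedVariables false

namespace UN

open Set Filter Pool.Agent.Helper5.DU Pool.Agent.Helper6.Str Pool.Agent.Helper79.VC
  Pool.Agent.Helper97.LO Pool.Agent.Helper97.VC

/-- the elements of `l` support `Q` -/
private def EMQ_Sup {Y : Type} (Q : (ℚ → Y) → Prop) (l : List ℚ) : Prop :=
  ∀ y y' : ℚ → Y, (∀ t ∈ l, y t = y' t) → (Q y ↔ Q y')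

open Classical in
private theorem EMQ_inter {Y : Type} (Q : (ℚ → Y) → Prop) (l l' : List ℚ) (h : EMQ_Sup Q l)
    (h' : EMQ_Sup Q l') : ∀ y y' : ℚ → Y, (∀ t ∈ l.toFinset ∩ l'.toFinset, y t = y' t) →
      (Q y ↔ Q y') := by
  intro y y' hy
  have h1 : Q y ↔ Q (fun t => if t ∈ l then y t else y' t) := by
    refine h _ _ fun t ht => ?_
    show y t = if t ∈ l then y t else y' t
    rw [if_pos ht]
  have h2 : Q (fun t => if t ∈ l then y t else y' t) ↔ Q y' := by
    refine h' _ _ fun t ht => ?_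
    show (if t ∈ l then y t else y' t) = y' t
    split_ifs with hl
    · exact hy t (Finset.mem_inter.2 ⟨List.mem_toFinset.2 hl, List.mem_toFinset.2 ht⟩)
    · rfl
  exact h1.trans h2

open Classical in
private theorem EMQ_ind (hQ : St_QLB) {Y : Type} (u : ℚ → Ultrafilter Y) (Q : (ℚ → Y) → Prop)
    (l l' : List ℚ) (hl : l.Pairwise (· < ·)) (hl' : l'.Pairwise (· < ·)) (h : EMQ_Sup Q l)
    (h' : EMQ_Sup Q l') (y : ℚ → Y) : QL u Q l y ↔ QL u Q l' y := by
  have h1 := (hQ ℚ Y u l y).2.2.2.2.2.1 Q (l.toFinset ∩ l'.toFinset) (EMQ_inter Q l l' h h')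
  have h2 := (hQ ℚ Y u l' y).2.2.2.2.2.1 Q (l.toFinset ∩ l'.toFinset) (EMQ_inter Q l l' h h')
  have h3 : l.filter (· ∈ l.toFinset ∩ l'.toFinset) = l'.filter (· ∈ l.toFinset ∩ l'.toFinset) := by
    refine List.Pairwise.eq_of_mem_iff (hl.filter _) (hl'.filter _) fun t => ?_
    simp only [List.mem_filter, Finset.mem_inter, List.mem_toFinset, decide_eq_true_eq]
    tauto
  rw [h1, h2, h3]

/-- the pattern of an atom -/
private def EMQ_Q {G : Sg} {M ι : Type} (S : Sys G M) (z : ℕ → ι → M) (a : At G (M ⊕ ℚ × ι))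
    (y : ℚ → ℕ) : Prop := Tr S (Sum.elim id fun v : ℚ × ι => z (y v.1) v.2) a

private theorem EMQ_sup {G : Sg} {M ι : Type} (S : Sys G M) (z : ℕ → ι → M)
    (a : At G (M ⊕ ℚ × ι)) (l : List ℚ) (hl : ∀ v : ℚ × ι, Sum.inr v ∈ a.vs → v.1 ∈ l) :
    EMQ_Sup (EMQ_Q S z a) l := by
  intro y y' hy
  refine Tr_congr fun i hi => ?_
  rcases i with m | v
  · rfl
  · show z (y v.1) v.2 = z (y' v.1) v.2
    rw [hy v.1 (hl v hi)]

private theorem EMQ_vs_map {G : Sg} {ι κ : Type} (h : ι → κ) (a : At G ι) :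
    (a.map h).vs = h '' a.vs := by
  cases a with
  | eq s t =>
    ext x
    simp only [At.map, At.sub, At.vs, mem_insert_iff, mem_singleton_iff, mem_image]
    constructor
    · rintro (rfl | rfl)
      · exact ⟨_, Or.inl rfl, rfl⟩
      · exact ⟨_, Or.inr rfl, rfl⟩
    · rintro ⟨y, rfl | rfl, rfl⟩
      · exact Or.inl rfl
      · exact Or.inr rfl
  | rel R t =>
    ext x
    simp only [At.map, At.sub, At.vs, mem_range, mem_image]
    constructor
    · rintro ⟨k, rfl⟩
      exact ⟨_, ⟨k, rfl⟩, rfl⟩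
    · rintro ⟨_, ⟨k, rfl⟩, rfl⟩
      exact ⟨k, rfl⟩

open Classical in
/-- a finite set which contains the indices of an atom -/
private noncomputable def EMQ_F {G : Sg} {M ι : Type} (a : At G (M ⊕ ℚ × ι)) : Finset ℚ :=
  a.vs_finite.toFinset.image (Sum.elim (fun _ => (0 : ℚ)) fun v => v.1)

private theorem EMQ_memF {G : Sg} {M ι : Type} (a : At G (M ⊕ ℚ × ι)) (v : ℚ × ι)
    (hv : Sum.inr v ∈ a.vs) : v.1 ∈ EMQ_F a := by
  classical
  unfold EMQ_F
  exact Finset.mem_image.2 ⟨Sum.inr v, a.vs_finite.mem_toFinset.2 hv, rfl⟩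

/-- the limit type -/
private noncomputable def EMQ_T {G : Sg} {M ι : Type} (S : Sys G M) (z : ℕ → ι → M)
    (W : Ultrafilter ℕ) (a : At G (M ⊕ ℚ × ι)) : Prop :=
  QL (fun _ : ℚ => W) (EMQ_Q S z a) ((EMQ_F a).sort (· ≤ ·)) fun _ => 0

private theorem EMQ_sort (F : Finset ℚ) : (F.sort (· ≤ ·)).Pairwise (· < ·) :=
  F.sortedLT_sort.pairwise

private theorem EMQ_T_iff (hQ : St_QLB) {G : Sg} {M ι : Type} (S : Sys G M) (z : ℕ → ι → M)
    (W : Ultrafilter ℕ) (a : At G (M ⊕ ℚ × ι)) (l : List ℚ) (hl : l.Pairwise (· < ·))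
    (h : EMQ_Sup (EMQ_Q S z a) l) :
    EMQ_T S z W a ↔ QL (fun _ : ℚ => W) (EMQ_Q S z a) l fun _ => 0 := by
  refine EMQ_ind hQ _ _ _ _ (EMQ_sort _) hl (EMQ_sup S z a _ fun v hv => ?_) h _
  exact (Finset.mem_sort _).2 (EMQ_memF a v hv)

private theorem EMQ_sat (hQ : St_QLB) {G : Sg} {M ι : Type} (S : Sys G M) (z : ℕ → ι → M)
    (W : Ultrafilter ℕ) (D : Set (At G (M ⊕ ℚ × ι))) (hD : D.Finite) :
    ∃ v : ℚ × ι → M, ∀ a ∈ D, EMQ_T S z W a ↔ Tr S (Sum.elim id v) a := by
  classical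
  let F' : Finset ℚ := hD.toFinset.biUnion EMQ_F
  let l : List ℚ := F'.sort (· ≤ ·)
  have hl : l.Pairwise (· < ·) := EMQ_sort _
  have hq := hQ ℚ ℕ (fun _ => W) l (fun _ => 0)
  have h1 : ∀ a ∈ D, QL (fun _ : ℚ => W) (fun y => (EMQ_Q S z a y ↔ EMQ_T S z W a)) l
      fun _ => 0 := by
    intro a ha
    have hsup : EMQ_Sup (EMQ_Q S z a) l := by
      refine EMQ_sup S z a _ fun v hv => ?_
      refine (Finset.mem_sort _).2 ?_
      exact Finset.mem_biUnion.2 ⟨a, hD.mem_toFinset.2 ha, EMQ_memF a v hv⟩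
    have h2 := EMQ_T_iff hQ S z W a l hl hsup
    by_cases ht : EMQ_T S z W a
    · refine (hq.2.2.2.2.1 _ _ fun y => ?_).1 (h2.1 ht)
      exact ⟨fun h => ⟨fun _ => ht, fun _ => h⟩, fun h => h.2 ht⟩
    · have h3 : ¬ QL (fun _ : ℚ => W) (EMQ_Q S z a) l fun _ => 0 := fun h => ht (h2.2 h)
      refine (hq.2.2.2.2.1 _ _ fun y => ?_).1 ((hq.1 _).2 h3)
      exact ⟨fun h => ⟨fun h4 => absurd h4 h, fun h4 => absurd h4 ht⟩, fun h h4 => ht (h.1 h4)⟩
  have h2 : QL (fun _ : ℚ => W) (fun y => ∀ a ∈ D, (EMQ_Q S z a y ↔ EMQ_T S z W a)) l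
      fun _ => 0 := (hq.2.2.1 _ D (fun a y => (EMQ_Q S z a y ↔ EMQ_T S z W a)) hD).2 h1
  obtain ⟨y', -, hy'⟩ := hq.2.2.2.1 _ h2
  exact ⟨fun v => z (y' v.1) v.2, fun a ha => (hy' a ha).symm⟩

private theorem EMQ_ren (hQ : St_QLB) {G : Sg} {M ι : Type} (S : Sys G M) (z : ℕ → ι → M)
    (W : Ultrafilter ℕ) (n : ℕ) (s : Fin n → ℚ) (hs : StrictMono s)
    (b : At G (M ⊕ Fin n × ι)) :
    EMQ_T S z W (b.map (Sum.map id (Prod.map s id))) ↔
      QL (fun _ : Fin n => W)
        (fun y => Tr S (Sum.elim id fun v : Fin n × ι => z (y v.1) v.2) b)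
        (List.finRange n) fun _ => 0 := by
  have hl : ((List.finRange n).map s).Pairwise (· < ·) := by
    rw [List.pairwise_map]
    exact (List.pairwise_lt_finRange n).imp fun h => hs h
  have hsup : EMQ_Sup (EMQ_Q S z (b.map (Sum.map id (Prod.map s id))))
      ((List.finRange n).map s) := by
    refine EMQ_sup S z _ _ fun v hv => ?_
    rw [EMQ_vs_map] at hv
    obtain ⟨x, -, hx⟩ := hv
    rcases x with m | w
    · exact absurd hx (by simp)
    · have h1 : (Prod.map s id w) = v := Sum.inr_injective hx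
      rw [← h1]
      exact List.mem_map.2 ⟨w.1, List.mem_finRange _, rfl⟩
  rw [EMQ_T_iff hQ S z W _ _ hl hsup]
  have h1 := (hQ (Fin n) ℕ (fun _ => W) (List.finRange n) (fun _ => 0)).2.2.2.2.2.2.1 ℚ
    (fun _ => W) s (fun y => Tr S (Sum.elim id fun v : Fin n × ι => z (y v.1) v.2) b)
    (fun _ => 0) hs.injective (fun _ => rfl)
  have h2 : (fun _ : ℚ => (0 : ℕ)) ∘ s = fun _ => 0 := rfl
  rw [h2] at h1
  rw [← h1]
  refine (hQ ℚ ℕ (fun _ => W) ((List.finRange n).map s) (fun _ => 0)).2.2.2.2.1 _ _ fun y => ?_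
  unfold EMQ_Q
  rw [Tr_map]
  refine Tr_congr fun i _ => ?_
  rcases i with m | v
  · rfl
  · rfl

theorem thm_EMQ (hL : St_LIM) (hQ : St_QLB) : St_EMQ := by
  intro G U M ι S hU hS z W
  obtain ⟨N, S', e, v, hN, hv⟩ := hL G U M S hU hS (ℚ × ι) (EMQ_T S z W)
    (fun D hD => EMQ_sat hQ S z W D hD)
  refine ⟨N, S', e, fun i r => v (i, r), hN, ?_, ?_, ?_⟩
  · intro n i j hi hj
    have key : ∀ s : Fin n → ℚ, StrictMono s → ∀ b : At G (M ⊕ Fin n × ι),
        Tr S' (Sum.elim e fun w : Fin n × ι => v (s w.1, w.2)) b ↔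
        QL (fun _ : Fin n => W)
          (fun y => Tr S (Sum.elim id fun v : Fin n × ι => z (y v.1) v.2) b)
          (List.finRange n) fun _ => 0 := by
      intro s hs b
      rw [← EMQ_ren hQ S z W n s hs b, ← hv, Tr_map]
      refine Tr_congr fun i _ => ?_
      rcases i with m | w
      · rfl
      · rfl
    intro b
    exact (key i hi b).trans (key j hj b).symm
  · intro a
    have h1 : Tr S' e a ↔ Tr S' (Sum.elim e v) (a.map Sum.inl) := by
      rw [Tr_map]
      exact Iff.rfl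
    have hsup : EMQ_Sup (EMQ_Q S z (a.map Sum.inl)) [] := by
      refine EMQ_sup S z _ _ fun w hw => ?_
      rw [EMQ_vs_map] at hw
      obtain ⟨x, -, hx⟩ := hw
      exact absurd hx (by simp)
    rw [h1, hv, EMQ_T_iff hQ S z W _ [] List.Pairwise.nil hsup]
    show _ ↔ Tr S (Sum.elim id fun v : ℚ × ι => z 0 v.2) (a.map Sum.inl)
    rw [Tr_map]
    exact Iff.rfl
  · intro i j hij a
    let h : M ⊕ (ι ⊕ ι) → M ⊕ ℚ × ι :=
      Sum.map id (Sum.elim (fun r => (i, r)) fun r => (j, r))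
    have h1 : Tr S' (Sum.elim e (Sum.elim (fun r => v (i, r)) fun r => v (j, r))) a ↔
        Tr S' (Sum.elim e v) (a.map h) := by
      rw [Tr_map]
      refine Tr_congr fun x _ => ?_
      rcases x with m | r | r
      · rfl
      · rfl
      · rfl
    have hsup : EMQ_Sup (EMQ_Q S z (a.map h)) [i, j] := by
      refine EMQ_sup S z _ _ fun w hw => ?_
      rw [EMQ_vs_map] at hw
      obtain ⟨x, -, hx⟩ := hw
      rcases x with m | r | r
      · exact absurd hx (by simp [h])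
      · have h2 : (i, r) = w := Sum.inr_injective hx
        rw [← h2]
        exact List.mem_cons_self
      · have h2 : (j, r) = w := Sum.inr_injective hx
        rw [← h2]
        exact List.mem_cons_of_mem _ List.mem_cons_self
    have hl : [i, j].Pairwise (· < ·) := by
      refine List.Pairwise.cons ?_ (List.Pairwise.cons ?_ List.Pairwise.nil)
      · intro b hb
        rw [List.mem_singleton] at hb
        rw [hb]
        exact hij
      · intro b hb
        exact absurd hb (by simp)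
    refine h1.trans ((hv _).trans ((EMQ_T_iff hQ S z W _ [i, j] hl hsup).trans ?_))
    have h3 : ∀ (inst : DecidableEq ℚ) (k l : ℕ),
        EMQ_Q S z (a.map h) (@Function.update ℚ (fun _ => ℕ) inst
          (@Function.update ℚ (fun _ => ℕ) inst (fun _ => 0) i k) j l) ↔
          Tr S (Sum.elim id (Sum.elim (z k) (z l))) a := by
      intro inst k l
      unfold EMQ_Q
      rw [Tr_map]
      refine Tr_congr fun x _ => ?_
      rcases x with m | r | r
      · rfl
      · show z (Function.update (Function.update (fun _ => 0) i k) j l i) r = z k r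
        rw [Function.update_of_ne hij.ne, Function.update_self]
      · show z (Function.update (Function.update (fun _ => 0) i k) j l j) r = z l r
        rw [Function.update_self]
    exact Filter.eventually_congr (Filter.Eventually.of_forall fun k =>
      Filter.eventually_congr (Filter.Eventually.of_forall fun l => h3 _ k l))

end UN
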