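import Pool.Agent.UN.StE

/-!
# UN, module END: the members of the class are not large
-/

set_option autoImplicit false
set_option linter.unusedVariables false

namespace UN

open Set Filter Pool.Agent.Helper5.DU Pool.Agent.Helper6.Str Pool.Agent.Helper79.VC
  Pool.Agent.Helper97.LO Pool.Agent.Helper97.VC

variable {G : Sg} {M P : Type}

/-- two sets are isomorphic over the family `q` -/
private def END_r (S : Sys G M) (q : P → M) (D D' : Set M) : Prop :=
  ∃ τ : M → M, BijOn τ D D' ∧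
    Eqv S (Sum.elim q fun y : D => (y : M)) S (Sum.elim q fun y : D => τ y)

private theorem END_refl (S : Sys G M) (q : P → M) (D : Set M) : END_r S q D D :=
  ⟨id, bijOn_id D, Eqv.refl _⟩

private theorem END_symm {S : Sys G M} {q : P → M} {D D' : Set M} (h : END_r S q D D') :
    END_r S q D' D := by
  obtain ⟨τ, hτ, he⟩ := h
  rcases isEmpty_or_nonempty M with hM | hM
  · have e1 : D = ∅ := eq_empty_of_isEmpty D
    have e2 : D' = ∅ := eq_empty_of_isEmpty D'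
    subst e1 e2
    exact END_refl S q _
  have hinv : InvOn (Function.invFunOn τ D) τ D D' := hτ.invOn_invFunOn
  have hb : BijOn (Function.invFunOn τ D) D' D := hτ.symm hinv.symm
  refine ⟨Function.invFunOn τ D, hb, ?_⟩
  refine (he.comp' (Sum.elim Sum.inl fun y : D' =>
    Sum.inr ⟨Function.invFunOn τ D y, hb.mapsTo y.2⟩) ?_ ?_).symm
  · rintro (c | y) <;> rfl
  · rintro (c | y)
    · rfl
    · exact (hinv.2 y.2).symm

private theorem END_trans {S : Sys G M} {q : P → M} {D D' D'' : Set M} (h : END_r S q D D')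
    (h' : END_r S q D' D'') : END_r S q D D'' := by
  obtain ⟨τ, hτ, he⟩ := h
  obtain ⟨τ', hτ', he'⟩ := h'
  refine ⟨τ' ∘ τ, hτ'.comp hτ, he.trans ?_⟩
  refine he'.comp' (Sum.elim Sum.inl fun y : D => Sum.inr ⟨τ y, hτ.mapsTo y.2⟩) ?_ ?_
  · rintro (c | y) <;> rfl
  · rintro (c | y) <;> rfl

theorem thm_END (hLSK : St_LSK) (hDTT : St_DTT) (hCMP : St_CMP) (hCMC : St_CMC) (hFST : St_FST)
    (hSWP : St_SWP) (hCLQ : St_CLQ) : St_END := by
  intro G U hcF hcR hU hCmt hWre hPg hfin M S hS hNo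
  have ne : Nonempty M := hU.ne M S hS
  obtain ⟨A, -, hAc, hCl, hEC⟩ := hLSK G M S ∅ hcF hcR ne countable_empty
  obtain ⟨P, q, hq⟩ := hDTT G U hcF hU hCmt hWre hPg hfin M S A hS hEC hCl
  obtain ⟨h1, h2, h3, h4, h5, h6⟩ := hCMP G U hCmt M S A hS hEC hCl
  have hcD : ∀ u, (Dc S A u).Countable := hCMC G U hcF hcR hU hCmt hWre M S A hS hEC hAc
  have hDA : ∀ u x, x ∈ Dc S A u → x ∉ A := by
    rintro u x ⟨Z, -, hZ, -, hx, -⟩
    exact hZ hx
  have hDu : ∀ u x, x ∈ Dc S A u → u ∉ A := fun u x hx => hDA x u (h2 _ _ hx)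
  have hDeq : ∀ u u', Rc S A u u' → Dc S A u = Dc S A u' := by
    intro u u' h
    ext y
    exact ⟨fun hy => h3 _ _ _ (h2 _ _ h) hy, fun hy => h3 _ _ _ h hy⟩
  have hBc : (cl S (range q)).Countable := by
    have := hq.fin
    exact cl_countable (finite_range q).countable
  let Q : Type := {D : Set M // ∃ u ∉ A, D = Dc S A u ∧ ∀ x ∈ D, ∀ c, ¬ Gn S (q c) x}
  obtain ⟨Q', hQc, hQ'⟩ := hCLQ Q (fun D D' => END_r S q D.1 D'.1)
    ⟨fun D => END_refl S q D.1, fun h => END_symm h, fun h h' => END_trans h h'⟩ (by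
      rintro ⟨x, hx⟩
      choose u hu1 hu2 hu3 using fun n => (x n).2
      refine hFST G U hcF hcR hU hCmt hWre hPg M P S A q hS hEC hCl hAc hq
        ⟨u, hu1, fun n y hy c => hu3 n y (by rw [hu2 n]; exact hy) c, fun m n hmn h => ?_⟩
      refine hx m n hmn ?_
      show END_r S q (x m).1 (x n).1
      rw [hu2 m, hu2 n]
      exact h)
  apply hNo
  refine ⟨(A ∪ ⋃ y ∈ cl S (range q), Dc S A y) ∪ ⋃ D ∈ Q', D.1,
    (hAc.union (hBc.biUnion fun y _ => hcD y)).union (hQc.biUnion fun D _ => ?_),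
    fun F hF c => ?_⟩
  · obtain ⟨u, -, hu, -⟩ := D.2
    rw [hu]
    exact hcD u
  by_cases hc : c ∈ (A ∪ ⋃ y ∈ cl S (range q), Dc S A y) ∪ ⋃ D ∈ Q', D.1
  · refine ⟨c, hc, fun γ _ => BFR.refl _ _ _ ?_⟩
    rintro a (rfl | ⟨b, -, rfl⟩)
    · exact ⟨mem_univ _, rfl⟩
    · exact ⟨mem_univ _, rfl⟩
  · have hcA : c ∉ A := fun h => hc (Or.inl (Or.inl h))
    have hcB : ∀ y ∈ cl S (range q), ¬ Rc S A y c := fun y hy h =>
      hc (Or.inl (Or.inr (mem_biUnion hy h)))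
    have hcQ : ∀ D ∈ Q', c ∉ D.1 := fun D hD h => hc (Or.inr (mem_biUnion hD h))
    have hcc : Rc S A c c := h1 c hcA
    -- the part of `c` does not meet `A₂`
    have hdis : ∀ z ∈ (A ∪ ⋃ y ∈ cl S (range q), Dc S A y) ∪ ⋃ D ∈ Q', D.1,
        z ∉ Dc S A c := by
      rintro z ((hz | hz) | hz) hzc
      · exact hDA _ _ hzc hz
      · obtain ⟨y, hy, hyz⟩ := mem_iUnion₂.1 hz
        exact hcB y hy (h3 _ _ _ hyz (h2 _ _ hzc))
      · obtain ⟨D, hD, hz'⟩ := mem_iUnion₂.1 hz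
        obtain ⟨u, -, hu, -⟩ := D.2
        apply hcQ D hD
        rw [hu] at hz' ⊢
        exact h3 _ _ _ hz' (h2 _ _ hzc)
    let X : Q := ⟨Dc S A c, c, hcA, rfl, fun x hx i hi =>
      hcB x (mem_cl_range.2 ⟨i, hi⟩) (h2 _ _ hx)⟩
    have hX : X ∉ Q' := fun h => hcQ X h hcc
    have hinf := hQ' X hX
    -- a part which does not meet `F`
    obtain ⟨Y, ⟨hYQ, hXY⟩, hYF⟩ : ∃ Y ∈ {Y ∈ Q' | END_r S q X.1 Y.1}, ∀ z ∈ Y.1, z ∉ F := by
      by_contra hcon
      push Not at hcon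
      apply hinf
      have hsub : {Y ∈ Q' | END_r S q X.1 Y.1} ⊆
          (Subtype.val : Q → Set M) ⁻¹' ((fun z => Dc S A z) '' (F : Set M)) := by
        intro Y hY
        obtain ⟨z, hz, hzF⟩ := hcon Y hY
        refine ⟨z, hzF, ?_⟩
        obtain ⟨u, -, hu, -⟩ := Y.2
        rw [hu] at hz ⊢
        exact (hDeq _ _ hz).symm
      exact ((F.finite_toSet.image _).preimage Subtype.val_injective.injOn).subset hsub
    obtain ⟨u', hu'A, hYu, hYB⟩ := Y.2
    have hcu : ¬ Rc S A c u' := by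
      intro h
      apply hcQ Y hYQ
      rw [hYu, ← hDeq _ _ h]
      exact hcc
    obtain ⟨τ, hτ, he⟩ := hXY
    have hτ' : BijOn τ (Dc S A c) (Dc S A u') := by
      rw [← hYu]; exact hτ
    have hE : Eqv S (ov A fun y : Dc S A c => (y : M)) S (ov A fun y : Dc S A c => τ y) :=
      hq.typ (Dc S A c) (fun y => (y : M)) (fun y => τ y) (fun y => hDA _ _ y.2)
        (fun y => hDA _ _ (hτ'.mapsTo y.2)) he
    obtain ⟨σ, hσ, hσ1, hσ2, -⟩ := hSWP G U hCmt M S A hS hEC hCl c u' τ hcA hu'A hcu hτ' hE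
    have hd : σ c ∈ Y.1 := by
      rw [hσ1 c hcc, hYu]
      exact hτ'.mapsTo hcc
    refine ⟨σ c, Or.inr (mem_biUnion hYQ hd), fun γ _ => ?_⟩
    refine BFR.of_relIso (e := σ) (fun n R v => ?_) γ ?_
    · exact hσ.comp v R
    · rintro a (rfl | ⟨b, hb, rfl⟩)
      · rfl
      · refine (hσ2 b (hdis b (hF hb)) fun h => ?_).symm
        exact hYF b (by rw [hYu]; exact h) hb

end UN
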