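import Pool.Agent.UN.DCH
import Pool.Agent.UN.FNU

/-!
# UN: from the main statement for all countable signatures to theories

`St_MNF` is the main statement without finiteness hypothesis, `St_DCF` the dichotomy for universal
classes, `St_FNF` the theorem for universal theories in countable languages whose function symbols
have arity at most one.
-/

set_option autoImplicit false
set_option linter.unusedVariables false

namespace UN

open Set Filter Pool.Agent.Helper5.DU Pool.Agent.Helper6.Str Pool.Agent.Helper79.VC
  Pool.Agent.Helper97.LO Pool.Agent.Helper97.VC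

/-- the members of a scattered class are not large -/
def St_MNF : Prop := ∀ (G : Sg) (U : ∀ M : Type, Sys G M → Prop), Countable G.Fn →
  Countable G.Rl → IsU U → Scat (KU U) → Pg U → ∀ (M : Type) (S : Sys G M),
  U M S → ¬ NoCtblType (WS S)

/-- the dichotomy for universal classes -/
def St_DCF : Prop := ∀ (G : Sg) (U : ∀ M : Type, Sys G M → Prop), Countable G.Fn →
  Countable G.Rl → IsU U → CtblK (KU U) ∨ PerfK (KU U)

/-- the theorem for universal theories in the form of `S14759` -/
def St_FNF : Prop := ∀ (L : FirstOrder.Language.{0, 0}), Countable L.Symbols →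
  (∀ n, IsEmpty (L.Functions (n + 2))) →
  ∀ T : L.Theory,
  (∀ φ ∈ T, FirstOrder.Language.BoundedFormula.IsUniversal φ) →
      (∃ g : ℕ → L.Structure ℕ, ∀ S : L.Structure ℕ,
          @FirstOrder.Language.Theory.Model L ℕ S T →
            ∃ n : ℕ, Nonempty (@FirstOrder.Language.Equiv L ℕ ℕ S (g n))) ∨
      (∃ f : (ℕ → Bool) → L.Structure ℕ,
          (∀ x : ℕ → Bool, @FirstOrder.Language.Theory.Model L ℕ (f x) T) ∧
          (∀ x y : ℕ → Bool,
              Nonempty (@FirstOrder.Language.Equiv L ℕ ℕ (f x) (f y)) → x = y) ∧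
          (∀ (n : ℕ) (R : L.Relations n) (a : Fin n → ℕ),
              IsClopen {x : ℕ → Bool | @FirstOrder.Language.Structure.RelMap L ℕ (f x) n R a}) ∧
          (∀ (n : ℕ) (F : L.Functions n) (a : Fin n → ℕ) (b : ℕ),
              IsOpen {x : ℕ → Bool | @FirstOrder.Language.Structure.funMap L ℕ (f x) n F a = b}))

private lemma FND_ctbl (G : Sg) (hF : Countable G.Fn) (hR : Countable G.Rl) (n : ℕ) :
    Countable (At G (Fin n)) := by
  let f : At G (Fin n) →
      ((List G.Fn × Fin n) × (List G.Fn × Fin n)) ⊕
        ((R : G.Rl) × (Fin (G.ar R) → List G.Fn × Fin n)) :=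
    fun a => match a with
      | .eq s t => Sum.inl (s, t)
      | .rel R t => Sum.inr ⟨R, t⟩
  have hf : Function.Injective f := by
    intro a b hab
    cases a with
    | eq s t =>
      cases b with
      | eq s' t' =>
        have h := Prod.mk.inj (Sum.inl.inj hab)
        rw [h.1, h.2]
      | rel R' t' => exact absurd hab (by simp [f])
    | rel R t =>
      cases b with
      | eq s' t' => exact absurd hab (by simp [f])
      | rel R' t' =>
        have h := Sum.inr.inj hab
        obtain ⟨h1, h2⟩ := Sigma.mk.inj h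
        subst h1
        rw [eq_of_heq h2]
  exact hf.countable

/-- the dichotomy for universal classes -/
theorem thm_DCF (h1 : St_KWM) (h2 : St_LEV) (h3 : St_PGU) (h4 : St_MNF) : St_DCF := by
  intro G U hF hR hU
  have : ∀ n, Countable ((LW G).Relations n) := fun n => FND_ctbl G hF hR n
  by_cases hP : PerfK (KU U)
  · exact Or.inr hP
  · refine Or.inl ?_
    by_contra hC
    obtain ⟨hK, hcl⟩ := h1 G U hF hR hU
    have hS := scat_of_not_perf hK hP
    obtain ⟨M, A, hlev, hNT⟩ := exists_model hK hS omega_lt_om1 hcl hC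
    obtain ⟨S, hS1, rfl⟩ := h2 G U hU M A hlev
    exact h4 G U hF hR hU hS (h3 G U hF hR hU hS) M S hS1 hNT

/-- the theorem for universal theories -/
theorem thm_FNF (hU : St_UTU) (hD : St_DCF) : St_FNF := by
  classical
  intro L hL hE T hT
  have cF : Countable (sgL L).Fn := by
    have hinj : Function.Injective (fun f : (sgL L).Fn =>
        (Sum.elim (fun c => Sum.inl ⟨0, c⟩) (fun g => Sum.inl ⟨1, g⟩) f : L.Symbols)) := by
      rintro (c | g) (c' | g') h
      · simp only [Sum.elim_inl, Sum.inl.injEq, Sigma.mk.injEq, heq_eq_eq, true_and] at h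
        rw [h]
      · simp at h
      · simp at h
      · simp only [Sum.elim_inr, Sum.inl.injEq, Sigma.mk.injEq, heq_eq_eq, true_and] at h
        rw [h]
    exact hinj.countable
  have cR : Countable (sgL L).Rl := by
    have hinj : Function.Injective (fun R : (sgL L).Rl => (Sum.inr R : L.Symbols)) :=
      Sum.inr_injective
    exact hinj.countable
  rcases hD (sgL L) (UT T) cF cR (hU L hE T hT) with ⟨g, hg⟩ | ⟨f, hfK, hiso, hcl⟩
  · obtain ⟨g', hg'⟩ : ∃ g' : ℕ → L.Structure ℕ, ∀ n,
        (∃ A : L.Structure ℕ, Iso (WS (sy A)) (g n)) → Iso (WS (sy (g' n))) (g n) := by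
      refine ⟨fun n => if h : ∃ A : L.Structure ℕ, Iso (WS (sy A)) (g n) then h.choose
        else ⟨fun _ _ => 0, fun _ _ => False⟩, fun n h => ?_⟩
      simp only [dif_pos h]
      exact h.choose_spec
    refine Or.inl ⟨g', ?_⟩
    intro S hS
    obtain ⟨n, hn⟩ := hg (WS (sy S)) ⟨sy S, ⟨⟨0⟩, S, rfl, hS⟩, rfl⟩
    exact ⟨n, (FNU_equiv hE S _).1 (hn.trans (hg' n ⟨S, hn⟩).symm)⟩
  · choose S hSU hfS using hfK
    choose A hSA hAT using fun x => (hSU x).2
    have hfA : ∀ x, f x = WS (sy (A x)) := fun x => by rw [hfS x, hSA x]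
    refine Or.inr ⟨A, hAT, ?_, ?_, ?_⟩
    · intro x y h
      refine hiso x y ?_
      rw [hfA x, hfA y]
      exact (FNU_equiv hE _ _).2 h
    · intro n R a
      have h1 := hcl n (At.rel (G := sgL L) ⟨n, R⟩ fun k => ([], k) : At (sgL L) (Fin n)) a
      have h2 : {x : ℕ → Bool | (f x).RelMap
          (At.rel (G := sgL L) ⟨n, R⟩ fun k => ([], k) : At (sgL L) (Fin n)) a} =
          {x : ℕ → Bool | @FirstOrder.Language.Structure.RelMap L ℕ (A x) n R a} := by
        ext x
        change (f x).RelMap _ a ↔ _
        rw [hfA x]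
        exact Iff.rfl
      rw [← h2]
      exact h1
    · intro n F a b
      match n, F with
      | 0, F =>
        have h1 := hcl 2 (At.eq (G := sgL L) ([Sum.inl F], 0) ([], 1) : At (sgL L) (Fin 2)) ![b, b]
        have ha : a = ![] := Subsingleton.elim _ _
        have h2 : {x : ℕ → Bool | (f x).RelMap
            (At.eq (G := sgL L) ([Sum.inl F], 0) ([], 1) : At (sgL L) (Fin 2)) ![b, b]} =
            {x : ℕ → Bool | @FirstOrder.Language.Structure.funMap L ℕ (A x) 0 F a = b} := by
          ext x
          change (f x).RelMap _ ![b, b] ↔ _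
          rw [hfA x, ha]
          exact Iff.rfl
        rw [← h2]
        exact h1.2
      | 1, F =>
        have h1 := hcl 2 (At.eq (G := sgL L) ([Sum.inr F], 0) ([], 1) : At (sgL L) (Fin 2))
          ![a 0, b]
        have ha : a = ![a 0] := by
          funext i
          fin_cases i
          rfl
        have h2 : {x : ℕ → Bool | (f x).RelMap
            (At.eq (G := sgL L) ([Sum.inr F], 0) ([], 1) : At (sgL L) (Fin 2)) ![a 0, b]} =
            {x : ℕ → Bool | @FirstOrder.Language.Structure.funMap L ℕ (A x) 1 F a = b} := by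
          ext x
          change (f x).RelMap _ ![a 0, b] ↔ _
          rw [hfA x]
          change ((A x).funMap F ![a 0] = b) ↔ (A x).funMap F a = b
          rw [← ha]
        rw [← h2]
        exact h1.2
      | n + 2, F => exact (hE n).elim F

end UN
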