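import Pool.Agent.UN.StE

/-!
# UN: finitely many isomorphism types of parts
-/

set_option autoImplicit false
set_option linter.unusedVariables false

namespace UN

open Set Filter Pool.Agent.Helper5.DU Pool.Agent.Helper6.Str Pool.Agent.Helper79.VC
  Pool.Agent.Helper97.LO Pool.Agent.Helper97.VC

/-- two parts which are isomorphic together with the closed set generated by `q` -/
private theorem FST_iso {G : Sg} {M P : Type} {S : Sys G M} {A : Set M} {q : P → M} {u u' : M}
    (τ : M → M) (h1 : BijOn τ (cl S (range q) ∪ Dc S A u) (cl S (range q) ∪ Dc S A u'))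
    (h2 : AtEq (WS S) (WS S) ((fun x => (x, τ x)) '' (cl S (range q) ∪ Dc S A u)))
    (h3 : ∀ c, τ (q c) = q c) (hu : ∀ x ∈ Dc S A u, ∀ c, ¬ Gn S (q c) x)
    (hu' : ∀ x ∈ Dc S A u', ∀ c, ¬ Gn S (q c) x) : QI S A q u u' := by
  have hq : ∀ c, q c ∈ cl S (range q) := fun c => subset_cl _ ⟨c, rfl⟩
  have hB : ∀ x ∈ cl S (range q), τ x = x := by
    intro x hx
    obtain ⟨c, l, hl⟩ := mem_cl_range.1 hx
    have h4 := atEq_iff.1 h2 Bool (fun b => if b then (x, τ x) else (q c, τ (q c))) (by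
      intro b
      cases b
      · exact ⟨q c, Or.inl (hq c), rfl⟩
      · exact ⟨x, Or.inl hx, rfl⟩)
    have h5 := (h4.w_eq [] l true false).1 hl
    have h6 : τ x = S.w l (τ (q c)) := h5
    rw [h6, h3 c, ← hl]
  have hD : ∀ x ∈ Dc S A u, x ∉ cl S (range q) := fun x hx h => by
    obtain ⟨c, hc⟩ := mem_cl_range.1 h
    exact hu x hx c hc
  have hD' : ∀ x ∈ Dc S A u', x ∉ cl S (range q) := fun x hx h => by
    obtain ⟨c, hc⟩ := mem_cl_range.1 h
    exact hu' x hx c hc
  refine ⟨τ, ⟨?_, h1.2.1.mono subset_union_right, ?_⟩, ?_⟩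
  · intro x hx
    rcases h1.1 (Or.inr hx : x ∈ cl S (range q) ∪ Dc S A u) with h | h
    · exfalso
      apply hD x hx
      have h4 : τ x = x := h1.2.1 (Or.inl h) (Or.inr hx) (hB _ h)
      rw [← h4]
      exact h
    · exact h
  · intro y hy
    obtain ⟨x, hx, rfl⟩ := h1.2.2 (Or.inr hy : y ∈ cl S (range q) ∪ Dc S A u')
    rcases hx with hx | hx
    · exfalso
      apply hD' _ hy
      rw [hB x hx]
      exact hx
    · exact ⟨x, hx, rfl⟩
  · have h4 := atEq_iff.1 h2 (P ⊕ Dc S A u) (Sum.elim (fun c => (q c, τ (q c)))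
      (fun y => ((y : M), τ y))) (by
        rintro (c | y)
        · exact ⟨q c, Or.inl (hq c), rfl⟩
        · exact ⟨y, Or.inr y.2, rfl⟩)
    refine h4.words' ?_
    rintro (c | y)
    · exact ⟨[], Sum.inl c, rfl, (h3 c).symm⟩
    · exact ⟨[], Sum.inr y, rfl, rfl⟩

theorem thm_FST (h1 : St_CMP) (h2 : St_CMC) (h3 : St_ISO) (h4 : St_VPT) : St_FST := by
  classical
  intro G U hFn hRl hU hC hW hPg M P S A q hS hE hA hAc hDt
  rintro ⟨u, hu, hqu, hne⟩
  have hP : Finite P := hDt.fin
  obtain ⟨cr, cs, ct, cf, -, -⟩ := h1 G U hC M S A hS hE hA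
  set B : Set M := cl S (range q) with hBdef
  have hq : ∀ c, q c ∈ B := fun c => subset_cl _ ⟨c, rfl⟩
  have hDeq : ∀ x y, Rc S A x y → Dc S A x = Dc S A y := by
    intro x y h
    ext z
    exact ⟨fun hz => ct _ _ _ (cs _ _ h) hz, fun hz => ct _ _ _ h hz⟩
  have hDA : ∀ x y, Rc S A x y → y ∉ A := by
    rintro x y ⟨Z, -, hZ, -, hy, -⟩
    exact hZ hy
  have hDB : ∀ n, ∀ x ∈ Dc S A (u n), x ∉ B := fun n x hx h => by
    obtain ⟨c, hc⟩ := mem_cl_range.1 h
    exact hqu n x hx c hc
  have hudk : ∀ n, u n ∈ Dc S A (u n) := fun n => cr _ (hu n)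
  have hinj : Function.Injective u := by
    intro m n hmn
    by_contra hmn'
    apply hne m n hmn'
    rw [hmn]
    exact ⟨id, ⟨fun x hx => hx, injOn_id _, fun x hx => ⟨x, hx, rfl⟩⟩, Eqv.refl _⟩
  have hBc : B.Countable := cl_countable (countable_range q)
  have hDc : ∀ n, (Dc S A (u n)).Countable := fun n =>
    h2 G U hFn hRl hU hC hW M S A hS hE hAc (u n)
  have hprs : (prs q q).Finite := finite_range _
  -- step 1
  have s1 : ∀ m n, m ≠ n → ∃ γ < om1,
      ¬ BW S S (B ∪ Dc S A (u m)) (B ∪ Dc S A (u n)) γ (prs q q) := by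
    intro m n hmn
    by_contra hcon
    have hall : ∀ γ < om1, BFR (WS S) (WS S) (B ∪ Dc S A (u m)) (B ∪ Dc S A (u n)) γ
        (prs q q) := by
      intro γ hγ
      by_contra h
      exact hcon ⟨γ, hγ, h⟩
    obtain ⟨τ, t1, t2, t3⟩ := h3 (LW G) M (WS S) (WS S) (B ∪ Dc S A (u m)) (B ∪ Dc S A (u n))
      (prs q q) (hBc.union (hDc m)) (hBc.union (hDc n)) hprs (by
        rintro _ ⟨c, rfl⟩
        exact ⟨Or.inl (hq c), Or.inl (hq c)⟩) hall
    exact hne m n hmn (FST_iso τ t1 t2 (fun c => t3 _ (prs_mem q q c)) (hqu m) (hqu n))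
  have s1' : ∀ mn : {mn : ℕ × ℕ // mn.1 ≠ mn.2}, ∃ γ < om1,
      ¬ BW S S (B ∪ Dc S A (u mn.1.1)) (B ∪ Dc S A (u mn.1.2)) γ (prs q q) :=
    fun mn => s1 _ _ mn.2
  choose γ' hγ' hγ'' using s1'
  obtain ⟨γ₀, hγ₀, hγ₀'⟩ := exists_bound hγ'
  have s1'' : ∀ m n, BW S S (B ∪ Dc S A (u m)) (B ∪ Dc S A (u n)) γ₀ (prs q q) → m = n := by
    intro m n h
    by_contra hmn
    exact hγ'' ⟨(m, n), hmn⟩ (BFR.mono (hγ₀' _) h)
  -- step 2
  let X : Set ℕ → Set M := fun N => B ∪ ⋃ k ∈ N, Dc S A (u k)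
  have hXcl : ∀ N, Cl S (X N) := by
    rintro N f y (hy | hy)
    · exact Or.inl (cl_closed _ f y hy)
    · obtain ⟨k, hk, hy⟩ := mem_iUnion₂.1 hy
      by_cases h : S.fn f y ∈ A
      · obtain ⟨c, hc⟩ := hDt.trc y (hDA _ _ hy) _ h ⟨[f], rfl⟩
        exact Or.inl (mem_cl_range.2 ⟨c, hc⟩)
      · exact Or.inr (mem_iUnion₂.2 ⟨k, hk, ct _ _ _ hy (cf f y (hDA _ _ hy) h)⟩)
  have hXm : ∀ N, ∀ x ∈ X N, x ∉ A ∨ ∃ c, Gn S (q c) x := by
    rintro N x (hx | hx)
    · exact Or.inr (mem_cl_range.1 hx)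
    · obtain ⟨k, hk, hx⟩ := mem_iUnion₂.1 hx
      exact Or.inl (hDA _ _ hx)
  have hXD : ∀ N, ∀ k ∈ N, Dc S A (u k) ⊆ X N := fun N k hk x hx =>
    Or.inr (mem_iUnion₂.2 ⟨k, hk, hx⟩)
  let e : (ℕ → Bool) → ℕ → ℕ := fun f k => 2 * k + (if f k then 1 else 0)
  let Nf : (ℕ → Bool) → Set ℕ := fun f => range (e f)
  have he : ∀ f f' k k', e f k = e f' k' → k = k' ∧ f k = f' k' := by
    intro f f' k k' h
    simp only [e] at h
    cases h1 : f k <;> cases h2 : f' k' <;> simp only [h1, h2] at h <;> simp at h ⊢ <;> omega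
  obtain ⟨f, f', hff, hb⟩ := hPg M S hS (fun f => X (Nf f)) P q (Ordinal.omega0 + γ₀ + 1) hP
    (add_one_lt_om1 (add_lt_om1 omega_lt_om1 hγ₀)) (by
      intro f
      refine ⟨hBc.union (Countable.biUnion (countable_range _) fun k _ => hDc k), ?_, ?_, hXcl _⟩
      · have h5 : (range fun k => u (e f k)).Infinite := by
          refine Set.infinite_range_of_injective fun k k' hk => ?_
          exact (he f f k k' (hinj hk)).1
        refine h5.mono ?_
        rintro _ ⟨k, rfl⟩
        exact hXD (Nf f) (e f k) ⟨k, rfl⟩ (hudk _)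
      · rintro _ ⟨c, rfl⟩
        exact Or.inl (hq c))
  apply hff
  suffices hsub : ∀ k ∈ Nf f, k ∈ Nf f' by
    funext k
    obtain ⟨k', hk'⟩ := hsub (e f k) ⟨k, rfl⟩
    obtain ⟨h5, h6⟩ := he _ _ _ _ hk'
    rw [← h6, h5]
  intro k hk
  -- step 3
  obtain ⟨u', hu'X, hb'⟩ := BFR.forth hb (Order.lt_add_one_iff.mpr le_rfl)
    (hXD _ k hk (hudk k))
  have hu'B : u' ∉ B := by
    intro h
    obtain ⟨c, hc⟩ := mem_cl_range.1 h
    have h5 : Eqv S (fun b : Bool => if b then u k else q c) S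
        (fun b : Bool => if b then u' else q c) := by
      refine BW.eqv hb' ?_
      intro b
      cases b
      · exact mem_insert_of_mem _ (prs_mem q q c)
      · exact mem_insert _ _
    exact hqu k (u k) (hudk k) c ((h5.gn false true).2 hc)
  obtain ⟨l, hl, hu'l⟩ : ∃ l ∈ Nf f', u' ∈ Dc S A (u l) := by
    rcases hu'X with h | h
    · exact absurd h hu'B
    · obtain ⟨l, hl, h⟩ := mem_iUnion₂.1 h
      exact ⟨l, hl, h⟩
  have hDl : Dc S A u' = Dc S A (u l) := (hDeq _ _ hu'l).symm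
  have claim : ∀ (β : Ordinal.{0}) (π : Set (M × M)),
      BW S S (X (Nf f)) (X (Nf f')) (Ordinal.omega0 + β) π → prs q q ⊆ π → (u k, u') ∈ π →
      BW S S (B ∪ Dc S A (u k)) (B ∪ Dc S A (u l)) β π := by
    intro β
    induction β using WellFoundedLT.induction with
    | _ β ih =>
      intro π hπ hqπ huπ
      rw [BW, BFR.def]
      refine ⟨BFR.atEq hπ, fun β' hβ' => ⟨fun x hx => ?_, fun y hy => ?_⟩⟩
      · have hlt : Ordinal.omega0 + β' < Ordinal.omega0 + β := by
          exact add_lt_add_right hβ' _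
        have hxX : x ∈ X (Nf f) := by
          rcases hx with hx | hx
          · exact Or.inl hx
          · exact hXD _ k hk hx
        obtain ⟨y, hyX, hy⟩ := BFR.forth hπ hlt hxX
        refine ⟨y, ?_, ih β' hβ' _ hy (hqπ.trans (subset_insert _ _))
          (mem_insert_of_mem _ huπ)⟩
        rcases hx with hx | hx
        · left
          obtain ⟨c, w, hw⟩ := mem_cl_range.1 hx
          have h5 : Eqv S (fun b : Bool => if b then x else q c) S
              (fun b : Bool => if b then y else q c) := by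
            refine BW.eqv hy ?_
            intro b
            cases b
            · exact mem_insert_of_mem _ (hqπ (prs_mem q q c))
            · exact mem_insert _ _
          exact mem_cl_range.2 ⟨c, (h5.gn false true).1 ⟨w, hw⟩⟩
        · right
          rw [← hDl]
          exact h4 G U hC M P S A q hS hE hA hDt (X (Nf f)) (X (Nf f')) _ _ (hXm _) (hXm _)
            (le_add_right le_rfl) hy (hqπ.trans (subset_insert _ _)) (u k) u' x y
            (mem_insert_of_mem _ huπ) (mem_insert _ _) (hXD _ k hk) (hqu k) hx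
      · have hlt : Ordinal.omega0 + β' < Ordinal.omega0 + β := by
          exact add_lt_add_right hβ' _
        have hyX : y ∈ X (Nf f') := by
          rcases hy with hy | hy
          · exact Or.inl hy
          · exact hXD _ l hl hy
        obtain ⟨x, hxX, hx⟩ := BFR.back hπ hlt hyX
        refine ⟨x, ?_, ih β' hβ' _ hx (hqπ.trans (subset_insert _ _))
          (mem_insert_of_mem _ huπ)⟩
        rcases hy with hy | hy
        · left
          obtain ⟨c, w, hw⟩ := mem_cl_range.1 hy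
          have h5 : Eqv S (fun b : Bool => if b then x else q c) S
              (fun b : Bool => if b then y else q c) := by
            refine BW.eqv hx ?_
            intro b
            cases b
            · exact mem_insert_of_mem _ (hqπ (prs_mem q q c))
            · exact mem_insert _ _
          exact mem_cl_range.2 ⟨c, (h5.gn false true).2 ⟨w, hw⟩⟩
        · right
          have hsw : BW S S (X (Nf f')) (X (Nf f)) (Ordinal.omega0 + β')
              {a | (a.2, a.1) ∈ insert (x, y) π} := BFR.symm hx fun a ha => ha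
          refine h4 G U hC M P S A q hS hE hA hDt (X (Nf f')) (X (Nf f)) _ _ (hXm _) (hXm _)
            (le_add_right le_rfl) hsw ?_ u' (u k) y x
            (mem_insert_of_mem _ huπ : (u k, u') ∈ insert (x, y) π)
            (mem_insert _ _ : (x, y) ∈ insert (x, y) π) ?_ ?_ ?_
          · rintro _ ⟨c, rfl⟩
            exact mem_insert_of_mem _ (hqπ (prs_mem q q c))
          · rw [hDl]
            exact hXD _ l hl
          · rw [hDl]
            exact hqu l
          · have h6 : y ∈ Dc S A u' := by rw [hDl]; exact hy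
            exact h6
  -- step 4
  have h5 := claim γ₀ _ hb' (subset_insert _ _) (mem_insert _ _)
  have h6 := s1'' k l (BFR.anti (subset_insert _ _) h5)
  rw [h6]
  exact hl

end UN
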