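import Pool.Agent.UN.StE
import Pool.Agent.UN.Bas

/-!
# UN: finitely many traces
-/

set_option autoImplicit false

namespace UN

open Set Filter

theorem thm_FTR (h1 : St_SPS) (h2 : St_IPA) : St_FTR := by
  intro G U hC hW M S A hU hA ι κ a
  by_contra hcon
  obtain ⟨T, c, ε, hT, hcT, hlt⟩ := h1 _ _ hcon
  choose x hxA hx using hT
  have hcA : ∀ n i, c n i ∈ A := by
    intro n
    by_contra hn
    have h3 : ∀ m, c n ∉ T m := by
      intro m hm
      rw [hx m] at hm
      exact hn hm.1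
    have h4 : ε n := by
      by_contra h5
      exact h3 n ((hcT n).2 h5)
    exact h3 (n + 1) ((hlt n (n + 1) (Nat.lt_succ_self n)).2 h4)
  have hT' : ∀ m n, c m ∈ T n ↔ Tr S (Sum.elim (c m) (x n)) a := by
    intro m n
    rw [hx n]
    exact ⟨fun h => h.2, fun h => ⟨hcA m, h⟩⟩
  have e1 : ∀ n, Tr S (Sum.elim (c n) (x n)) a ↔ ¬ ε n := fun n => by
    rw [← hT' n n]
    exact hcT n
  have e2 : ∀ m n, m < n → (Tr S (Sum.elim (c m) (x n)) a ↔ ε m) := fun m n h => by
    rw [← hT' m n]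
    exact hlt m n h
  let W : Ultrafilter ℕ := hyperfilter ℕ
  have hWgt : ∀ j : ℕ, ∀ᶠ i in (W : Filter ℕ), j < i := by
    intro j
    refine (Nat.hyperfilter_le_atTop) ?_
    exact eventually_gt_atTop j
  have hWne : ∀ i : ℕ, ∀ᶠ j in (W : Filter ℕ), j ≠ i := fun i =>
    (hWgt i).mono fun j hj => ne_of_gt hj
  -- commuting limits
  have f1 : (∀ᶠ i in (W : Filter ℕ), ∀ᶠ j in (W : Filter ℕ), Tr S (Sum.elim (c j) (x i)) a) ↔
      ∀ᶠ j in (W : Filter ℕ), ε j := by
    have h3 := hC M S hU ℕ ℕ ι κ W W x c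
      (a.map (Sum.elim (fun k => Sum.inr (Sum.inr k)) fun i => Sum.inr (Sum.inl i)))
    simp only [Tr_map] at h3
    have h4 : ∀ i j, (Sum.elim id (Sum.elim (x i) (c j)) ∘
        (Sum.elim (fun k => Sum.inr (Sum.inr k)) fun i => Sum.inr (Sum.inl i) :
          κ ⊕ ι → M ⊕ (ι ⊕ κ))) = Sum.elim (c j) (x i) := by
      intro i j
      funext z
      cases z with
      | inl k => rfl
      | inr k => rfl
    simp only [h4] at h3
    rw [h3]
    have h5 : ∀ j, (∀ᶠ i in (W : Filter ℕ), Tr S (Sum.elim (c j) (x i)) a) ↔ ε j := by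
      intro j
      constructor
      · intro h
        obtain ⟨i, hi, hji⟩ := (h.and (hWgt j)).exists
        exact (e2 j i hji).1 hi
      · intro h
        exact (hWgt j).mono fun i hji => (e2 j i hji).2 h
    simp only [h5]
  -- limits
  obtain ⟨h3, -⟩ := h2 G U hC M S A hU hA
  choose u hu using fun i => h3 ι (x i)
  have hNP : ∀ i, NP (u i) (id : (ι → M) → ι → M) := by
    intro i r m
    by_cases hm : m ∈ A
    · have h4 := (hu i).lim (.eq ([], Sum.inr r) ([], Sum.inl ⟨m, hm⟩))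
      have h5 : ∀ y : ι → M, Tr S (ov A y) (.eq ([], Sum.inr r) ([], Sum.inl ⟨m, hm⟩)) ↔
          y r = m := fun y => Iff.rfl
      simp only [h5] at h4
      have h6 : ¬ ∀ᶠ y in (u i : Filter (ι → M)), y r = m := by
        rw [← h4]
        intro h7
        exact hxA i r (by rw [h7]; exact hm)
      exact Ultrafilter.eventually_not.2 h6
    · refine (hu i).mem.mono fun y hy hyr => hm ?_
      have h7 := hy r
      have h8 : y r = m := hyr
      rwa [h8] at h7
  have g1 : ∀ i j, (∀ᶠ y in (u i : Filter (ι → M)), Tr S (Sum.elim (c j) y) a) ↔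
      Tr S (Sum.elim (c j) (x i)) a := by
    intro i j
    have h4 := (hu i).lim (a.map (Sum.elim (fun k => Sum.inl ⟨c j k, hcA j k⟩) Sum.inr))
    simp only [Tr_map] at h4
    have h5 : ∀ y : ι → M, (ov A y ∘
        (Sum.elim (fun k => Sum.inl ⟨c j k, hcA j k⟩) Sum.inr : κ ⊕ ι → A ⊕ ι)) =
        Sum.elim (c j) y := by
      intro y
      funext z
      cases z with
      | inl k => rfl
      | inr k => rfl
    simp only [h5] at h4
    exact h4.symm
  have h4 := hW M S hU (ι → M) ι κ W c u (fun _ => id) (a.map Sum.inr) hWne hNP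
  simp only [Tr_map] at h4
  have h5 : ∀ (j : ℕ) (y : ι → M), ((Sum.elim id (Sum.elim (c j) (id y)) : M ⊕ (κ ⊕ ι) → M) ∘
      Sum.inr) = Sum.elim (c j) y := fun j y => rfl
  simp only [h5, g1, f1, e1] at h4
  rw [Ultrafilter.eventually_not] at h4
  exact (iff_not_self h4.symm)

end UN
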