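import Pool.Agent.UN.StD

/-!
# UN: module GRS

Components of a symmetric graph.
-/

set_option autoImplicit false
set_option linter.unusedVariables false

namespace UN

open Set Filter

theorem thm_GRS : St_GRS := by
  intro κ ι n r hκ hι hs hτ x
  classical
  by_cases h : ∃ (i : Fin n) (c : ι) (i' : Fin n) (c' : ι), i ≠ i' ∧
      Relation.ReflTransGen r x (Sum.inr (i, c)) ∧ Relation.ReflTransGen r x (Sum.inr (i', c'))
  · right
    obtain ⟨i, c, i', c', hne, h1, h2⟩ := h
    have hsymm : ∀ a b, Relation.ReflTransGen r a b → Relation.ReflTransGen r b a := by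
      intro a b hab
      induction hab with
      | refl => exact .refl
      | tail _ hbc ih => exact Relation.ReflTransGen.head (hs _ _ hbc) ih
    have hback := hsymm _ _ h1
    have hpath := hback.trans h2
    have hall : ∀ j, j ≠ i → Relation.ReflTransGen r x (Sum.inr (j, c')) := by
      intro j hj
      have h3 : Relation.ReflTransGen r
          ((Sum.map id (Prod.map (Equiv.swap i' j) id) : κ ⊕ Fin n × ι → κ ⊕ Fin n × ι)
            (Sum.inr (i, c)))
          ((Sum.map id (Prod.map (Equiv.swap i' j) id) : κ ⊕ Fin n × ι → κ ⊕ Fin n × ι)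
            (Sum.inr (i', c'))) :=
        Relation.ReflTransGen.lift (p := r) _ (fun a b hab => hτ (Equiv.swap i' j) a b hab) _ _
          hpath
      simp only [Sum.map_inr, Prod.map_apply, id_eq, Equiv.swap_apply_left,
        Equiv.swap_apply_of_ne_of_ne hne hj.symm] at h3
      exact h1.trans h3
    have hsub : (fun j : Fin n => (Sum.inr (j, c') : κ ⊕ Fin n × ι)) ''
        ((Finset.univ.erase i : Finset (Fin n)) : Set (Fin n)) ⊆
        {y | Relation.ReflTransGen r x y} := by
      rintro _ ⟨j, hj, rfl⟩
      exact hall j (by simpa using hj)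
    have hcard := Set.ncard_le_ncard hsub (Set.toFinite _)
    rw [Set.ncard_image_of_injective _ (fun a b hab => by simpa using hab),
      Set.ncard_coe_finset, Finset.card_erase_of_mem (Finset.mem_univ _), Finset.card_univ,
      Fintype.card_fin] at hcard
    exact hcard
  · left
    have hcard := Set.ncard_le_ncard_of_injOn (s := {y | Relation.ReflTransGen r x y})
      (t := (Set.univ : Set (κ ⊕ ι))) (Sum.map id Prod.snd) (fun _ _ => Set.mem_univ _) (by
        rintro (a | ⟨i, c⟩) ha (b | ⟨j, d⟩) hb hab
        · simpa using hab
        · simp at hab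
        · simp at hab
        · have h4 : i = j := by
            by_contra hij
            exact h ⟨i, c, j, d, hij, ha, hb⟩
          have h5 : c = d := by simpa using hab
          rw [h4, h5]) (Set.toFinite _)
    rw [Set.ncard_univ, Nat.card_sum] at hcard
    exact hcard

end UN
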