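import Pool.Agent.UN.StB

/-!
# UN, module HGS: half graphs from limits which do not commute
-/

set_option autoImplicit false
set_option linter.unusedVariables false

namespace UN

open Set Filter

theorem thm_HGS : St_HGS := by
  intro X Y u v R h1 h2
  obtain ⟨f, hf, hr⟩ := exists_seq_of_forall_finset_exists (α := X × Y)
    (fun q => (∀ᶠ y in (v : Filter Y), R q.1 y) ∧ (∀ᶠ x in (u : Filter X), ¬ R x q.2) ∧ R q.1 q.2)
    (fun q q' => ¬ R q'.1 q.2 ∧ R q.1 q'.2) (by
      intro s hs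
      have h3 : ∀ᶠ x in (u : Filter X), ∀ q ∈ s, ¬ R x q.2 :=
        (Filter.eventually_all_finset s).2 fun q hq => (hs q hq).2.1
      obtain ⟨x, hx1, hx2⟩ := (h1.and h3).exists
      have h4 : ∀ᶠ y in (v : Filter Y), ∀ q ∈ s, R q.1 y :=
        (Filter.eventually_all_finset s).2 fun q hq => (hs q hq).1
      obtain ⟨y, hy1, hy2, hy3⟩ := (h2.and (hx1.and h4)).exists
      exact ⟨(x, y), ⟨hx1, hy1, hy2⟩, fun q hq => ⟨hx2 q hq, hy3 q hq⟩⟩)
  refine ⟨fun n => (f n).1, fun n => (f n).2, fun i j => ⟨fun h => ?_, fun h => ?_⟩⟩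
  · by_contra hij
    exact (hr j i (not_le.1 hij)).1 h
  · rcases h.lt_or_eq with h' | h'
    · exact (hr i j h').2
    · subst h'
      exact (hf i).2.2

end UN
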