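import Pool.Agent.UN.StE
import Pool.Agent.UN.Bas

/-!
# UN: rules for independence, first part

Theorem `thm_IPA (h : St_ULM) : St_IPA`.
-/

set_option autoImplicit false
set_option linter.unusedVariables false

namespace UN

open Set Filter Pool.Agent.Helper5.DU Pool.Agent.Helper6.Str Pool.Agent.Helper79.VC
  Pool.Agent.Helper97.LO Pool.Agent.Helper97.VC

section

variable {G : Sg} {M ι κ : Type} {S : Sys G M} {A : Set M}

/-- parameters in `A` for the second family -/
private theorem IPA_ren₂ (y : κ → M) (hy : ∀ k, y k ∈ A) (a : At G (A ⊕ (ι ⊕ κ))) :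
    ∃ b : At G (A ⊕ ι), ∀ x : ι → M, Tr S (ov A (Sum.elim x y)) a ↔ Tr S (ov A x) b := by
  refine ⟨a.map (Sum.elim Sum.inl (Sum.elim Sum.inr fun k => Sum.inl ⟨y k, hy k⟩)), fun x => ?_⟩
  rw [Tr_map]
  have e : ov A x ∘ (Sum.elim Sum.inl (Sum.elim Sum.inr fun k => Sum.inl ⟨y k, hy k⟩)) =
      ov A (Sum.elim x y) := by
    funext c
    rcases c with c | c | c <;> rfl
  rw [e]

/-- parameters in `A` for the first family -/
private theorem IPA_ren₁ (x : ι → M) (hx : ∀ i, x i ∈ A) (a : At G (A ⊕ (ι ⊕ κ))) :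
    ∃ b : At G (A ⊕ κ), ∀ y : κ → M, Tr S (ov A (Sum.elim x y)) a ↔ Tr S (ov A y) b := by
  refine ⟨a.map (Sum.elim Sum.inl (Sum.elim (fun i => Sum.inl ⟨x i, hx i⟩) Sum.inr)), fun y => ?_⟩
  rw [Tr_map]
  have e : ov A y ∘ (Sum.elim Sum.inl (Sum.elim (fun i => Sum.inl ⟨x i, hx i⟩) Sum.inr)) =
      ov A (Sum.elim x y) := by
    funext c
    rcases c with c | c | c <;> rfl
  rw [e]

/-- swapping the families -/
private theorem IPA_swap (a : At G (A ⊕ (κ ⊕ ι))) :
    ∃ b : At G (A ⊕ (ι ⊕ κ)), ∀ (x : ι → M) (y : κ → M),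
      Tr S (ov A (Sum.elim x y)) b ↔ Tr S (ov A (Sum.elim y x)) a := by
  refine ⟨a.map (Sum.elim Sum.inl (Sum.elim (fun k => Sum.inr (Sum.inr k))
    fun i => Sum.inr (Sum.inl i))), fun x y => ?_⟩
  rw [Tr_map]
  have e : ov A (Sum.elim x y) ∘ (Sum.elim Sum.inl (Sum.elim (fun k => Sum.inr (Sum.inr k))
      fun i => Sum.inr (Sum.inl i))) = ov A (Sum.elim y x) := by
    funext c
    rcases c with c | c | c <;> rfl
  rw [e]

private theorem IPA_zero₂ {v : ι → M} {u : Ultrafilter (ι → M)} (h : Lm S A v u) (y : κ → M)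
    (hy : ∀ k, y k ∈ A) (a : At G (A ⊕ (ι ⊕ κ))) :
    Tr S (ov A (Sum.elim v y)) a ↔ ∀ᶠ x in (u : Filter (ι → M)), Tr S (ov A (Sum.elim x y)) a := by
  obtain ⟨b, hb⟩ := IPA_ren₂ (S := S) (ι := ι) y hy a
  rw [hb, h.lim b]
  exact eventually_congr (Eventually.of_forall fun x => (hb x).symm)

private theorem IPA_zero₁ {v' : κ → M} {w : Ultrafilter (κ → M)} (h : Lm S A v' w) (x : ι → M)
    (hx : ∀ i, x i ∈ A) (a : At G (A ⊕ (ι ⊕ κ))) :
    Tr S (ov A (Sum.elim x v')) a ↔ ∀ᶠ y in (w : Filter (κ → M)), Tr S (ov A (Sum.elim x y)) a := by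
  obtain ⟨b, hb⟩ := IPA_ren₁ (S := S) (κ := κ) x hx a
  rw [hb, h.lim b]
  exact eventually_congr (Eventually.of_forall fun y => (hb y).symm)

/-- the two descriptions of the free amalgam -/
private theorem IPA_key {U : ∀ M : Type, Sys G M → Prop} (hC : Cmt U) (hU : U M S) {v : ι → M}
    {v' : κ → M} {u : Ultrafilter (ι → M)} {w : Ultrafilter (κ → M)} (hu : Lm S A v u)
    (hw : Lm S A v' w) (a : At G (A ⊕ (ι ⊕ κ))) :
    (∀ᶠ x in (u : Filter (ι → M)), Tr S (ov A (Sum.elim x v')) a) ↔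
      ∀ᶠ y in (w : Filter (κ → M)), Tr S (ov A (Sum.elim v y)) a := by
  have hren : ∀ (x : ι → M) (y : κ → M),
      Tr S (Sum.elim id (Sum.elim x y)) (a.map (Sum.map Subtype.val id)) ↔
        Tr S (ov A (Sum.elim x y)) a := by
    intro x y
    rw [Tr_map]
    have e : Sum.elim id (Sum.elim x y) ∘ (Sum.map Subtype.val id) = ov A (Sum.elim x y) := by
      funext c
      rcases c with c | c <;> rfl
    rw [e]
  have h1 := hC M S hU (ι → M) (κ → M) ι κ u w id id (a.map (Sum.map Subtype.val id))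
  have h2 : (∀ᶠ x in (u : Filter (ι → M)), Tr S (ov A (Sum.elim x v')) a) ↔
      ∀ᶠ x in (u : Filter (ι → M)), ∀ᶠ y in (w : Filter (κ → M)),
        Tr S (ov A (Sum.elim x y)) a :=
    eventually_congr (hu.mem.mono fun x hx => IPA_zero₁ hw x hx a)
  have h3 : (∀ᶠ y in (w : Filter (κ → M)), Tr S (ov A (Sum.elim v y)) a) ↔
      ∀ᶠ y in (w : Filter (κ → M)), ∀ᶠ x in (u : Filter (ι → M)),
        Tr S (ov A (Sum.elim x y)) a :=
    eventually_congr (hw.mem.mono fun y hy => IPA_zero₂ hu y hy a)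
  rw [h2, h3]
  have h4 : (∀ᶠ x in (u : Filter (ι → M)), ∀ᶠ y in (w : Filter (κ → M)),
      Tr S (ov A (Sum.elim x y)) a) ↔ ∀ᶠ x in (u : Filter (ι → M)), ∀ᶠ y in (w : Filter (κ → M)),
      Tr S (Sum.elim id (Sum.elim (id x) (id y))) (a.map (Sum.map Subtype.val id)) :=
    eventually_congr (Eventually.of_forall fun x =>
      eventually_congr (Eventually.of_forall fun y => (hren x y).symm))
  have h5 : (∀ᶠ y in (w : Filter (κ → M)), ∀ᶠ x in (u : Filter (ι → M)),
      Tr S (ov A (Sum.elim x y)) a) ↔ ∀ᶠ y in (w : Filter (κ → M)), ∀ᶠ x in (u : Filter (ι → M)),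
      Tr S (Sum.elim id (Sum.elim (id x) (id y))) (a.map (Sum.map Subtype.val id)) :=
    eventually_congr (Eventually.of_forall fun y =>
      eventually_congr (Eventually.of_forall fun x => (hren x y).symm))
  rw [h4, h5]
  exact h1

/-- limits exist -/
private theorem IPA_ex (h : St_ULM) (hE : EC S A) (ι : Type) (v : ι → M) : ∃ u, Lm S A v u := by
  obtain ⟨u, hu1, hu2⟩ := h G M M ι S A S (fun x : A => (x : M)) v hE
    (fun D _ => ⟨v, fun a _ => Iff.rfl⟩)
  exact ⟨u, hu1, hu2⟩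

/-- limits depend only on the type -/
private theorem IPA_lm {v v₁ : ι → M} {u : Ultrafilter (ι → M)} (h : Lm S A v u)
    (he : Eqv S (ov A v) S (ov A v₁)) : Lm S A v₁ u :=
  ⟨h.mem, fun a => (he a).symm.trans (h.lim a)⟩

/-- the type over `A` of the second family -/
private theorem IPA_snd {v' v₁' : κ → M} (he : Eqv S (ov A v') S (ov A v₁')) {x : ι → M}
    (hx : ∀ i, x i ∈ A) (a : At G (A ⊕ (ι ⊕ κ))) :
    Tr S (ov A (Sum.elim x v')) a ↔ Tr S (ov A (Sum.elim x v₁')) a := by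
  obtain ⟨b, hb⟩ := IPA_ren₁ (S := S) (κ := κ) x hx a
  rw [hb, hb]
  exact he b

end

/-- [IPA] rules for independence, first part -/
theorem thm_IPA (h : St_ULM) : St_IPA := by
  intro G U hC M S A hU hE
  have hex : ∀ (ι : Type) (v : ι → M), ∃ u, Lm S A v u := fun ι v => IPA_ex h hE ι v
  have h2 : ∀ (ι κ : Type) (v : ι → M) (v' : κ → M) (u u' : Ultrafilter (ι → M))
      (a : At G (A ⊕ (ι ⊕ κ))), Lm S A v u → Lm S A v u' →
      ((∀ᶠ y in (u : Filter (ι → M)), Tr S (ov A (Sum.elim y v')) a) ↔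
        ∀ᶠ y in (u' : Filter (ι → M)), Tr S (ov A (Sum.elim y v')) a) := by
    intro ι κ v v' u u' a hu hu'
    obtain ⟨w, hw⟩ := hex κ v'
    exact (IPA_key hC hU hu hw a).trans (IPA_key hC hU hu' hw a).symm
  refine ⟨hex, h2, ?_, ?_, ?_, ?_⟩
  · intro ι κ v v' hI w hw a
    obtain ⟨u, hu⟩ := hex ι v
    obtain ⟨b, hb⟩ := IPA_swap (S := S) a
    rw [← hb v v', hI u hu b, IPA_key hC hU hu hw b]
    exact eventually_congr (Eventually.of_forall fun y => hb v y)
  · intro ι κ v v₁ v' v₁' hI hI₁ he he' a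
    obtain ⟨u, hu⟩ := hex ι v
    have hu₁ := IPA_lm hu he
    rw [hI u hu a, hI₁ u hu₁ a]
    exact eventually_congr (hu.mem.mono fun x hx => IPA_snd he' hx a)
  · intro ι κ v v₁ v' v₁' hI he u hu₁ a
    have hv : Eqv S (ov A v₁) S (ov A v) :=
      he.symm.comp' (Sum.elim Sum.inl fun i => Sum.inr (Sum.inl i))
        (by rintro (c | c) <;> rfl) (by rintro (c | c) <;> rfl)
    have hv' : Eqv S (ov A v') S (ov A v₁') :=
      he.comp' (Sum.elim Sum.inl fun i => Sum.inr (Sum.inr i))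
        (by rintro (c | c) <;> rfl) (by rintro (c | c) <;> rfl)
    have hu := IPA_lm hu₁ hv
    rw [← he a, hI u hu a]
    exact eventually_congr (hu.mem.mono fun x hx => IPA_snd hv' hx a)
  · intro ι κ ι' κ' v v' f g hI u' hu' a
    obtain ⟨u, hu⟩ := hex ι v
    have hren : ∀ (x : ι → M) (y : κ → M), Tr S (ov A (Sum.elim x y))
        (a.map (Sum.map id (Sum.map f g))) ↔ Tr S (ov A (Sum.elim (x ∘ f) (y ∘ g))) a := by
      intro x y
      rw [Tr_map]
      have e : ov A (Sum.elim x y) ∘ (Sum.map id (Sum.map f g)) =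
          ov A (Sum.elim (x ∘ f) (y ∘ g)) := by
        funext c
        rcases c with c | c | c <;> rfl
      rw [e]
    have hum : Lm S A (v ∘ f) (u.map fun x => x ∘ f) := by
      refine ⟨?_, fun b => ?_⟩
      · rw [Ultrafilter.coe_map, eventually_map]
        exact hu.mem.mono fun x hx i => hx (f i)
      · rw [Ultrafilter.coe_map, eventually_map]
        have hb : ∀ x : ι → M, Tr S (ov A x) (b.map (Sum.map id f)) ↔ Tr S (ov A (x ∘ f)) b := by
          intro x
          rw [Tr_map]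
          have e : ov A x ∘ (Sum.map id f) = ov A (x ∘ f) := by
            funext c
            rcases c with c | c <;> rfl
          rw [e]
        rw [← hb v, hu.lim]
        exact eventually_congr (Eventually.of_forall fun x => hb x)
    rw [← h2 ι' κ' (v ∘ f) (v' ∘ g) _ u' a hum hu', Ultrafilter.coe_map, eventually_map,
      ← hren v v', hI u hu]
    exact eventually_congr (Eventually.of_forall fun x => hren x v')

end UN
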