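import Pool.Agent.UN.StB

/-!
# UN [IPO]: indiscernibility for families of elements at arbitrary positions
-/

set_option autoImplicit false
set_option linter.unusedVariables false

namespace UN

open Set Filter Pool.Agent.Helper5.DU Pool.Agent.Helper6.Str Pool.Agent.Helper79.VC
  Pool.Agent.Helper97.LO Pool.Agent.Helper97.VC

theorem thm_IPO : St_IPO := by
  classical
  intro G M P ι I V _ S p z hz i j r hij
  have heq : ∀ v v', i v = i v' → j v = j v' := by
    intro v v' h
    apply le_antisymm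
    · rw [← not_lt, ← hij, h]; exact lt_irrefl _
    · rw [← not_lt, ← hij, h]; exact lt_irrefl _
  refine Eqv.of_finite fun E hE => ?_
  set W : Set V := {v | Sum.inr v ∈ E} with hW
  have hWf : W.Finite := hE.preimage (Sum.inr_injective.injOn)
  obtain ⟨F, hF⟩ : ∃ F : Finset I, ∀ x, x ∈ F ↔ x ∈ i '' W :=
    ⟨(hWf.image i).toFinset, fun x => Set.Finite.mem_toFinset _⟩
  set s : Fin F.card ↪o I := F.orderEmbOfFin rfl with hs
  have hk : ∀ v : W, ∃ k : Fin F.card, s k = i v := by
    intro v
    have hm : i v ∈ F := (hF _).2 ⟨v, v.2, rfl⟩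
    have hr : i v ∈ Set.range s := by rw [hs, Finset.range_orderEmbOfFin]; exact hm
    exact hr
  choose k hk using hk
  have hsur : ∀ m : Fin F.card, ∃ v : W, k v = m := by
    intro m
    have hm : s m ∈ F := Finset.orderEmbOfFin_mem F rfl m
    obtain ⟨v, hv, hvi⟩ := (hF _).1 hm
    exact ⟨⟨v, hv⟩, s.injective ((hk ⟨v, hv⟩).trans hvi)⟩
  choose g hg using hsur
  have ht : ∀ v : W, j (g (k v)) = j v := by
    intro v
    apply heq
    rw [← hk, ← hk, hg]
  have htm : StrictMono fun m => j (g m) := by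
    intro m m' hmm
    have h1 : s m < s m' := s.strictMono hmm
    rw [← hij, ← hk, ← hk, hg, hg]
    exact h1
  have h := hz F.card s (fun m => j (g m)) s.strictMono htm
  refine h.comp' (fun e : E => match e with
    | ⟨Sum.inl c, _⟩ => Sum.inl c
    | ⟨Sum.inr v, hv⟩ => Sum.inr (k ⟨v, hv⟩, r v)) ?_ ?_
  · rintro ⟨c | v, hv⟩
    · rfl
    · show z (i v) (r v) = z (s (k ⟨v, hv⟩)) (r v)
      rw [hk]
  · rintro ⟨c | v, hv⟩
    · rfl
    · show z (j v) (r v) = z (j (g (k ⟨v, hv⟩))) (r v)
      rw [ht]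

end UN
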