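import Pool.Agent.UN.StD

/-!
# UN: irreducible families live at one index
-/

set_option autoImplicit false

namespace UN

private lemma IR1_kd {κ ι : Type} (n : ℕ) (c : κ ⊕ ι) : kd (lbl n c) = c := by
  cases c <;> rfl

private lemma IR1_nm_le {κ ι : Type} (n : ℕ) (c : κ ⊕ ι) : nm (lbl n c) ≤ n := by
  cases c
  · exact Nat.zero_le _
  · exact le_rfl

private lemma IR1_rep {j : ℕ} {A : Type} (F : Fin j → A) (i₀ : Fin j) :
    ∃ R : A → Fin j, ∀ i, F (R (F i)) = F i := by
  classical
  refine ⟨fun x => if h : ∃ i, F i = x then h.choose else i₀, fun i => ?_⟩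
  have h : ∃ i', F i' = F i := ⟨i, rfl⟩
  simp only [dif_pos h]
  exact h.choose_spec

theorem thm_IR1 : St_IR1 := by
  intro G M P κ ι S p g d m j z l k b hsym hjm hz hk hirr i₀ i₁
  by_contra hne
  classical
  obtain ⟨R, hR⟩ := IR1_rep k i₀
  obtain ⟨R2, hR2⟩ := IR1_rep (fun i => (k i, nm (b i))) i₀
  let X : Set (Fin j) := {i | k i = k i₀}
  let b' : Fin j → La κ ι := fun i => lbl (R2 (k i, nm (b i)) : ℕ) (kd (b i))
  let h : {v : ℕ × La κ ι // v.1 < d ∧ nm v.2 < d} ⊕ Fin j → ℕ × La κ ι :=
    Sum.elim (fun v => v.1) (fun i => (k i, b i))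
  let h' : {v : ℕ × La κ ι // v.1 < d ∧ nm v.2 < d} ⊕ Fin j → ℕ × La κ ι :=
    Sum.elim (fun v => v.1) (fun i => if i ∈ X then (k i, b i) else (d + (R (k i) : ℕ), b' i))
  have hp : ∀ i, i ∈ X → h' (Sum.inr i) = (k i, b i) := fun i hi => by
    change (if i ∈ X then (k i, b i) else (d + (R (k i) : ℕ), b' i)) = _
    rw [if_pos hi]
  have hn : ∀ i, i ∉ X → h' (Sum.inr i) = (d + (R (k i) : ℕ), b' i) := fun i hi => by
    change (if i ∈ X then (k i, b i) else (d + (R (k i) : ℕ), b' i)) = _
    rw [if_neg hi]
  have hjpos : ∀ i : Fin j, (i : ℕ) < m := fun i => lt_of_lt_of_le i.2 hjm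
  have hge : ∀ i, d ≤ (h' (Sum.inr i)).1 := by
    intro i
    by_cases hi : i ∈ X
    · rw [hp i hi]
      exact le_trans (Nat.le_add_right d m) (hk i)
    · rw [hn i hi]
      exact Nat.le_add_right _ _
  have hgk : ∀ i, d ≤ k i := fun i => le_trans (Nat.le_add_right d m) (hk i)
  have hti : TI h h' := by
    refine ⟨?_, ?_, ?_⟩
    · rintro (v | i) (v' | i')
      · exact Iff.rfl
      · change v.1.1 = k i' ↔ v.1.1 = (h' (Sum.inr i')).1
        have h1 := v.2.1
        have h2 := hge i'
        have h3 := hgk i'
        constructor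
        · intro h4; omega
        · intro h4; omega
      · change k i = v'.1.1 ↔ (h' (Sum.inr i)).1 = v'.1.1
        have h1 := v'.2.1
        have h2 := hge i
        have h3 := hgk i
        constructor
        · intro h4; omega
        · intro h4; omega
      · change k i = k i' ↔ (h' (Sum.inr i)).1 = (h' (Sum.inr i')).1
        by_cases hi : i ∈ X
        · by_cases hi' : i' ∈ X
          · rw [hp i hi, hp i' hi']
          · rw [hp i hi, hn i' hi']
            have h1 := hk i
            have h2 := hjpos (R (k i'))
            have h3 : k i ≠ k i' := fun h4 => hi' (h4.symm.trans hi)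
            constructor
            · intro h4; exact absurd h4 h3
            · intro (h4 : k i = d + (R (k i') : ℕ)); omega
        · by_cases hi' : i' ∈ X
          · rw [hn i hi, hp i' hi']
            have h1 := hk i'
            have h2 := hjpos (R (k i))
            have h3 : k i ≠ k i' := fun h4 => hi (h4.trans hi')
            constructor
            · intro h4; exact absurd h4 h3
            · intro (h4 : d + (R (k i) : ℕ) = k i'); omega
          · rw [hn i hi, hn i' hi']
            constructor
            · intro h4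
              change d + (R (k i) : ℕ) = d + (R (k i') : ℕ)
              rw [h4]
            · intro (h4 : d + (R (k i) : ℕ) = d + (R (k i') : ℕ))
              have h5 : R (k i) = R (k i') := Fin.ext (by omega)
              rw [← hR i, h5, hR i']
    · rintro (v | i)
      · rfl
      · change kd (b i) = kd (h' (Sum.inr i)).2
        by_cases hi : i ∈ X
        · rw [hp i hi]
        · rw [hn i hi]
          exact (IR1_kd _ _).symm
    · rintro (v | i) (v' | i') h1 h2 h3
      · exact Iff.rfl
      · exfalso
        have h4 : v.1.1 = k i' := h1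
        have h5 := v.2.1
        have h6 := hgk i'
        omega
      · exfalso
        have h4 : k i = v'.1.1 := h1
        have h5 := v'.2.1
        have h6 := hgk i
        omega
      · have h4 : k i = k i' := h1
        change nm (b i) = nm (b i') ↔ nm (h' (Sum.inr i)).2 = nm (h' (Sum.inr i')).2
        by_cases hi : i ∈ X
        · have hi' : i' ∈ X := h4.symm.trans hi
          rw [hp i hi, hp i' hi']
        · have hi' : i' ∉ X := fun h5 => hi (h4.trans h5)
          rw [hn i hi, hn i' hi']
          obtain ⟨r, hr⟩ := h2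
          obtain ⟨r', hr'⟩ := h3
          have h6 : kd (b i) = Sum.inr r := hr
          have h7 : kd (b i') = Sum.inr r' := hr'
          change nm (b i) = nm (b i') ↔ nm (lbl (R2 (k i, nm (b i)) : ℕ) (kd (b i))) =
            nm (lbl (R2 (k i', nm (b i')) : ℕ) (kd (b i')))
          rw [h6, h7]
          change nm (b i) = nm (b i') ↔ (R2 (k i, nm (b i)) : ℕ) = (R2 (k i', nm (b i')) : ℕ)
          constructor
          · intro h8
            rw [h8, h4]
          · intro h8
            have h9 : R2 (k i, nm (b i)) = R2 (k i', nm (b i')) := Fin.ext h8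
            have h10 := hR2 i
            have h11 := hR2 i'
            rw [h9, h11] at h10
            exact (congrArg Prod.snd h10).symm
  have heqv := hsym _ h h' hti
  let y : Fin j → M := fun i => S.w (l i) (g (h' (Sum.inr i)).1 (h' (Sum.inr i)).2)
  have hVI : VI S p g d (d + m) z X := by
    refine ⟨y, ?_, ?_, ?_⟩
    · intro i hi
      change S.w (l i) (g (h' (Sum.inr i)).1 (h' (Sum.inr i)).2) = z i
      rw [hp i hi, hz i]
    · intro i hi
      refine ⟨d + (R (k i) : ℕ), b' i, Nat.le_add_right _ _, ?_, ?_, ?_⟩
      · have := hjpos (R (k i))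
        omega
      · have h1 := hjpos (R2 (k i, nm (b i)))
        have h2 : nm (b' i) ≤ (R2 (k i, nm (b i)) : ℕ) := IR1_nm_le _ _
        omega
      · refine ⟨l i, ?_⟩
        change S.w (l i) (g (h' (Sum.inr i)).1 (h' (Sum.inr i)).2) = _
        rw [hn i hi]
    · refine heqv.words' ?_
      rintro ((c | w) | i)
      · exact ⟨[], Sum.inl c, rfl, rfl⟩
      · exact ⟨[], Sum.inr (Sum.inl w), rfl, rfl⟩
      · exact ⟨l i, Sum.inr (Sum.inr i), hz i, rfl⟩
  rcases hirr X hVI with h1 | h1
  · have h2 : i₀ ∈ X := rfl
    rw [h1] at h2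
    exact h2
  · have h2 : i₁ ∈ X := by rw [h1]; trivial
    exact hne h2.symm

end UN
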