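import Pool.Agent.UN.StD

/-!
# UN: there is an irreducible family which contains elements of both kinds
-/

set_option autoImplicit false
set_option linter.unusedVariables false

namespace UN

open Set Filter Pool.Agent.Helper5.DU Pool.Agent.Helper6.Str Pool.Agent.Helper79.VC
  Pool.Agent.Helper97.LO Pool.Agent.Helper97.VC

variable {G : Sg} {M P κ ι : Type}

/-- the family of the elements of the kinds in `C` with indices given by `K`, over the marks -/
private def IR2_F (p : P → M) (g : ℕ → La κ ι → M) (d n : ℕ) (C : Set (κ ⊕ ι))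
    (K : κ ⊕ ι → ℕ) : (P ⊕ {v : ℕ × La κ ι // v.1 < d ∧ nm v.2 < d}) ⊕ C → M :=
  Sum.elim (QT p g d) fun c : C => g (K c) (lbl n c)

/-- the families for `K` and `K'` have the same type -/
private def IR2_Q (S : Sys G M) (p : P → M) (g : ℕ → La κ ι → M) (d n : ℕ) (C : Set (κ ⊕ ι))
    (K K' : κ ⊕ ι → ℕ) : Prop :=
  Eqv S (IR2_F p g d n C K) S (IR2_F p g d n C K')

private theorem IR2_sym {S : Sys G M} {p : P → M} {g : ℕ → La κ ι → M} (hS : Sym S p g) {d : ℕ}
    {V : Type} {h h' : V → ℕ × La κ ι} (hd : ∀ v, d ≤ (h v).1) (hd' : ∀ v, d ≤ (h' v).1)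
    (hT : TI h h') :
    Eqv S (Sum.elim (QT p g d) fun v => g (h v).1 (h v).2)
      S (Sum.elim (QT p g d) fun v => g (h' v).1 (h' v).2) := by
  have hT' : TI (Sum.elim (Subtype.val : {v : ℕ × La κ ι // v.1 < d ∧ nm v.2 < d} → _) h)
      (Sum.elim (Subtype.val : {v : ℕ × La κ ι // v.1 < d ∧ nm v.2 < d} → _) h') := by
    refine ⟨?_, ?_, ?_⟩
    · rintro (v | v) (v' | v')
      · exact Iff.rfl
      · have h1 := v.2.1
        have h2 := hd v'
        have h3 := hd' v'
        simp only [Sum.elim_inl, Sum.elim_inr]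
        constructor <;> intro e <;> omega
      · have h1 := v'.2.1
        have h2 := hd v
        have h3 := hd' v
        simp only [Sum.elim_inl, Sum.elim_inr]
        constructor <;> intro e <;> omega
      · exact hT.1 v v'
    · rintro (v | v)
      · rfl
      · exact hT.2.1 v
    · rintro (v | v) (v' | v') e r r'
      · exact Iff.rfl
      · have h1 := v.2.1
        have h2 := hd v'
        simp only [Sum.elim_inl, Sum.elim_inr] at e
        omega
      · have h1 := v'.2.1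
        have h2 := hd v
        simp only [Sum.elim_inl, Sum.elim_inr] at e
        omega
      · exact hT.2.2 v v' e r r'
  have H := hS _ _ _ hT'
  refine H.words' ?_
  rintro ((c | v) | v)
  · exact ⟨[], Sum.inl c, rfl, rfl⟩
  · exact ⟨[], Sum.inr (Sum.inl v), rfl, rfl⟩
  · exact ⟨[], Sum.inr (Sum.inr v), rfl, rfl⟩

private theorem IR2_kd (n : ℕ) (c : κ ⊕ ι) : kd (lbl n c) = c := by
  cases c with
  | inl e => rfl
  | inr r => rfl

private theorem IR2_nm (n : ℕ) (c : κ ⊕ ι) (h : ∃ r, kd (lbl n c) = Sum.inr r) :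
    nm (lbl n c) = n := by
  cases c with
  | inl e => obtain ⟨r, hr⟩ := h; cases hr
  | inr r => rfl

/-- the type depends only on the partition and not on the number `n` -/
private theorem IR2_S1 {S : Sys G M} {p : P → M} {g : ℕ → La κ ι → M} (hS : Sym S p g)
    {d n n' : ℕ} {C : Set (κ ⊕ ι)} {K K' : κ ⊕ ι → ℕ} (h : ∀ c ∈ C, d ≤ K c)
    (h' : ∀ c ∈ C, d ≤ K' c) (hk : ∀ c ∈ C, ∀ c' ∈ C, (K c = K c' ↔ K' c = K' c')) :
    Eqv S (IR2_F p g d n C K) S (IR2_F p g d n' C K') := by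
  refine IR2_sym (V := C) (h := fun c => (K c, lbl n c)) (h' := fun c => (K' c, lbl n' c)) hS
    (fun v => h v v.2) (fun v => h' v v.2) ⟨fun v v' => hk v v.2 v' v'.2, ?_, ?_⟩
  · intro v
    simp only [IR2_kd]
  · intro v v' e r r'
    have e1 := IR2_nm n _ r
    have e2 := IR2_nm n _ r'
    have e3 : nm (lbl n' (v : κ ⊕ ι)) = n' := IR2_nm n' _ (by
      obtain ⟨r, hr⟩ := r
      exact ⟨r, by rw [IR2_kd] at hr ⊢; exact hr⟩)
    have e4 : nm (lbl n' (v' : κ ⊕ ι)) = n' := IR2_nm n' _ (by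
      obtain ⟨r, hr⟩ := r'
      exact ⟨r, by rw [IR2_kd] at hr ⊢; exact hr⟩)
    simp only [] at e1 e2 e3 e4 ⊢
    rw [e1, e2, e3, e4]
    simp

private theorem IR2_rst {S : Sys G M} {p : P → M} {g : ℕ → La κ ι → M} {d n : ℕ}
    {C Z : Set (κ ⊕ ι)} {K K' : κ ⊕ ι → ℕ} (h : IR2_Q S p g d n Z K K') (hC : C ⊆ Z) :
    IR2_Q S p g d n C K K' := by
  refine Eqv.words' h ?_
  rintro (v | c)
  · exact ⟨[], Sum.inl v, rfl, rfl⟩
  · exact ⟨[], Sum.inr ⟨c, hC c.2⟩, rfl, rfl⟩

private theorem IR2_num {S : Sys G M} {p : P → M} {g : ℕ → La κ ι → M} (hS : Sym S p g)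
    {d n : ℕ} (n' : ℕ) {C : Set (κ ⊕ ι)} {K K' : κ ⊕ ι → ℕ} (h : ∀ c ∈ C, d ≤ K c)
    (h' : ∀ c ∈ C, d ≤ K' c) (hQ : IR2_Q S p g d n C K K') : IR2_Q S p g d n' C K K' :=
  ((IR2_S1 hS h h fun _ _ _ _ => Iff.rfl).trans hQ).trans
    (IR2_S1 hS h' h' fun _ _ _ _ => Iff.rfl)

/-- splitting a part -/
private theorem IR2_spl (hTMK : St_TMK) {S : Sys G M} {p : P → M} {g : ℕ → La κ ι → M} {d n : ℕ}
    (hA : Ard G d) (hS : Sym S p g) {C Z : Set (κ ⊕ ι)} {K K' : κ ⊕ ι → ℕ} (E : Set ℕ)
    (hE : ∀ k ∈ E, d ≤ k) (h1 : ∀ c ∈ C, K c ∈ E) (h1' : ∀ c ∈ C, K' c ∈ E)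
    (h2 : ∀ c ∈ Z, c ∉ C → K c = K' c ∧ K c ∉ E) (hQ : IR2_Q S p g d n C K K') :
    IR2_Q S p g d n Z K K' := by
  have H := hTMK G M P κ ι C S p g d E (fun c : C => g (K c) (lbl n c))
    (fun c : C => g (K' c) (lbl n c)) hA hS hE
    (fun v => Or.inr ⟨K v, h1 v v.2, lbl n v, Gn.refl _⟩)
    (fun v => Or.inr ⟨K' v, h1' v v.2, lbl n v, Gn.refl _⟩) hQ
  refine Eqv.words' H ?_
  rintro ((c | v) | c)
  · exact ⟨[], Sum.inl c, rfl, rfl⟩
  · refine ⟨[], Sum.inr (Sum.inl ⟨⟨v.1.1, fun hv => ?_⟩, v.1.2⟩), rfl, rfl⟩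
    have h3 := hE _ hv
    have h4 := v.2.1
    omega
  · by_cases hc : (c : κ ⊕ ι) ∈ C
    · exact ⟨[], Sum.inr (Sum.inr ⟨c, hc⟩), rfl, rfl⟩
    · obtain ⟨h3, h4⟩ := h2 c c.2 hc
      refine ⟨[], Sum.inr (Sum.inl ⟨⟨K c, h4⟩, lbl n c⟩), rfl, ?_⟩
      change g (K' c) (lbl n c) = g (K c) (lbl n c)
      rw [h3]

open Classical in
/-- the main step: visible independence of a part at a large index -/
private theorem IR2_star (hTMK : St_TMK) {S : Sys G M} {p : P → M} {g : ℕ → La κ ι → M}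
    {d m n k : ℕ} (hA : Ard G d) (hS : Sym S p g) {Z : Set (κ ⊕ ι)} {X : Set Z}
    (hk : d + m ≤ k) (hV : VI S p g d (d + m) (fun c : Z => g k (lbl n c)) X) :
    IR2_Q S p g d n Z (fun c => if ∃ h : c ∈ Z, (⟨c, h⟩ : Z) ∈ X then k + 1 else k)
      (fun _ => k) := by
  obtain ⟨y, hy1, hy2, hy3⟩ := hV
  have hy2' : ∀ i : Z, ∃ (k' : ℕ) (b : La κ ι) (l : List G.Fn),
      i ∉ X → d ≤ k' ∧ k' < d + m ∧ y i = S.w l (g k' b) := by
    intro i
    by_cases hi : i ∈ X
    · exact ⟨0, lbl n i, [], fun h => absurd hi h⟩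
    · obtain ⟨k', b, h1, h2, h3, l, hl⟩ := hy2 i hi
      exact ⟨k', b, l, fun _ => ⟨h1, h2, hl⟩⟩
  choose k' b' l' hb using hy2'
  have hb1 := fun v hv => (hb v hv).1
  have hb2 := fun v hv => (hb v hv).2.1
  have hl' := fun v hv => (hb v hv).2.2
  let E : Set ℕ := {j | j = k ∨ (d ≤ j ∧ j < d + m)}
  have hE : ∀ j ∈ E, d ≤ j := by
    rintro j (rfl | h)
    · omega
    · exact h.1
  have hkE : k ∈ E := Or.inl rfl
  have hlE : k + 1 ∉ E := by
    rintro (h | h)
    · omega
    · omega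
  have H := hTMK G M P κ ι Z S p g d E (fun c : Z => g k (lbl n c)) y hA hS hE
    (fun v => Or.inr ⟨k, hkE, lbl n v, Gn.refl _⟩)
    (fun v => by
      by_cases hv : v ∈ X
      · exact Or.inr ⟨k, hkE, lbl n v, by rw [hy1 v hv]; exact Gn.refl _⟩
      · exact Or.inr ⟨k' v, Or.inr ⟨hb1 v hv, hb2 v hv⟩, b' v, ⟨l' v, hl' v hv⟩⟩) hy3
  let ys : Z → M := fun c => if c ∈ X then g (k + 1) (lbl n c) else y c
  have e : ∀ c : Z, (∃ h : (c : κ ⊕ ι) ∈ Z, (⟨c, h⟩ : Z) ∈ X) ↔ c ∈ X :=
    fun c => ⟨fun ⟨_, h⟩ => h, fun h => ⟨c.2, h⟩⟩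
  -- first step
  have s1 : Eqv S (IR2_F p g d n Z fun c => if ∃ h : c ∈ Z, (⟨c, h⟩ : Z) ∈ X then k + 1 else k)
      S (Sum.elim (QT p g d) ys) := by
    refine Eqv.words' H ?_
    rintro ((c | v) | c)
    · exact ⟨[], Sum.inl c, rfl, rfl⟩
    · refine ⟨[], Sum.inr (Sum.inl ⟨⟨v.1.1, fun hv => ?_⟩, v.1.2⟩), rfl, rfl⟩
      have h3 := hE _ hv
      have h4 := v.2.1
      omega
    · by_cases hc : c ∈ X
      · refine ⟨[], Sum.inr (Sum.inl ⟨⟨k + 1, hlE⟩, lbl n c⟩), ?_, ?_⟩
        · change g (if _ then _ else _) _ = _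
          rw [if_pos ((e c).2 hc)]
          rfl
        · change (if c ∈ X then _ else _) = _
          rw [if_pos hc]
          rfl
      · refine ⟨[], Sum.inr (Sum.inr c), ?_, ?_⟩
        · change g (if _ then _ else _) _ = _
          rw [if_neg (fun h => hc ((e c).1 h))]
          rfl
        · change (if c ∈ X then _ else _) = _
          rw [if_neg hc]
          rfl
  -- second step
  have s2 : Eqv S (Sum.elim (QT p g d) ys) S (Sum.elim (QT p g d) y) := by
    have hT : TI (fun c : Z => if c ∈ X then (k + 1, lbl n (c : κ ⊕ ι)) else (k' c, b' c))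
        (fun c : Z => if c ∈ X then (k, lbl n (c : κ ⊕ ι)) else (k' c, b' c)) := by
      refine ⟨?_, ?_, ?_⟩
      · intro v v'
        by_cases hv : v ∈ X <;> by_cases hv' : v' ∈ X
        · simp [hv, hv']
        · have := hb2 v' hv'
          simp only [hv, hv', if_true, if_false]
          constructor <;> intro e <;> omega
        · have := hb2 v hv
          simp only [hv, hv', if_true, if_false]
          constructor <;> intro e <;> omega
        · simp [hv, hv']
      · intro v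
        by_cases hv : v ∈ X <;> simp [hv]
      · intro v v' _ _ _
        by_cases hv : v ∈ X <;> by_cases hv' : v' ∈ X <;> simp [hv, hv']
    have H2 := IR2_sym (d := d) hS (by
      intro v
      by_cases hv : v ∈ X
      · simp only [hv, if_true]; omega
      · simp only [hv, if_false]; exact hb1 v hv) (by
      intro v
      by_cases hv : v ∈ X
      · simp only [hv, if_true]; omega
      · simp only [hv, if_false]; exact hb1 v hv) hT
    refine Eqv.words' H2 ?_
    rintro (v | c)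
    · exact ⟨[], Sum.inl v, rfl, rfl⟩
    · by_cases hc : c ∈ X
      · refine ⟨[], Sum.inr c, ?_, ?_⟩
        · simp [ys, hc, w_nil]
        · simp [hc, w_nil, hy1 c hc]
      · refine ⟨l' c, Sum.inr c, ?_, ?_⟩
        · simp only [ys, hc, if_false, Sum.elim_inr]
          exact hl' c hc
        · simp only [hc, if_false, Sum.elim_inr]
          exact hl' c hc
  exact (s1.trans s2).trans hy3.symm

open Classical in
theorem thm_IR2 (hTMK : St_TMK) : St_IR2 := by
  intro G M P κ ι S p g a d m hA hκ hι hS hdif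
  -- `d` on the elements of the first kind, `d + 1` on the others
  let K₀ : κ ⊕ ι → ℕ := Sum.elim (fun _ => d) (fun _ => d + 1)
  have hK₀ : ∀ c, d ≤ K₀ c := by
    rintro (e | r)
    · exact le_refl d
    · exact Nat.le_succ d
  have huniv : ¬ IR2_Q S p g d 0 univ (fun _ => d) K₀ := by
    intro h
    apply hdif d (d + 1) 0 (by omega)
    have h1 : Eqv S (Sum.elim p (mx g d d 0)) S (Sum.elim p (mx g d (d + 1) 0)) := by
      refine Eqv.words' h ?_
      rintro (c | (e | r))
      · exact ⟨[], Sum.inl (Sum.inl c), rfl, rfl⟩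
      · exact ⟨[], Sum.inr ⟨Sum.inl e, trivial⟩, rfl, rfl⟩
      · exact ⟨[], Sum.inr ⟨Sum.inr r, trivial⟩, rfl, rfl⟩
    exact h1 a
  obtain ⟨Z, hZ, hmin⟩ := WellFounded.has_min
    (wellFounded_lt : WellFounded ((· < ·) : Set (κ ⊕ ι) → Set (κ ⊕ ι) → Prop))
    {Z | ¬ IR2_Q S p g d 0 Z (fun _ => d) K₀} ⟨univ, huniv⟩
  have hZ0 : ¬ IR2_Q S p g d 0 Z (fun _ => d) K₀ := hZ
  have hmin' : ∀ C : Set (κ ⊕ ι), C ⊆ Z → C ≠ Z → IR2_Q S p g d 0 C (fun _ => d) K₀ := by
    intro C h1 h2
    by_contra h3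
    exact hmin C h3 (lt_of_le_of_ne h1 h2)
  refine ⟨Z, ?_, ?_, ?_⟩
  · by_contra h
    apply hZ0
    refine IR2_S1 hS (fun _ _ => le_refl d) (fun c _ => hK₀ c) ?_
    rintro (e | r) hc (e' | r') hc'
    · exact absurd ⟨e, hc⟩ h
    · exact absurd ⟨e, hc⟩ h
    · exact absurd ⟨e', hc'⟩ h
    · simp [K₀]
  · by_contra h
    apply hZ0
    refine IR2_S1 hS (fun _ _ => le_refl d) (fun c _ => hK₀ c) ?_
    rintro (e | r) hc (e' | r') hc'
    · simp [K₀]
    · exact absurd ⟨r', hc'⟩ h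
    · exact absurd ⟨r, hc⟩ h
    · exact absurd ⟨r, hc⟩ h
  · intro k n hk X hV
    by_contra hX
    obtain ⟨hX1, hX2⟩ := not_or.1 hX
    have star := IR2_star hTMK hA hS hk hV
    -- the parts
    let Xs : Set (κ ⊕ ι) := {c | ∃ h : c ∈ Z, (⟨c, h⟩ : Z) ∈ X}
    let Ys : Set (κ ⊕ ι) := {c | c ∈ Z ∧ c ∉ Xs}
    have hXs : Xs ⊆ Z := fun c h => h.1
    have hYs : Ys ⊆ Z := fun c h => h.1
    have hXsne : Xs ≠ Z := by
      intro h
      apply hX2
      refine Set.eq_univ_of_forall fun c => ?_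
      have h1 : (c : κ ⊕ ι) ∈ Xs := by rw [h]; exact c.2
      exact h1.2
    have hYsne : Ys ≠ Z := by
      intro h
      apply hX1
      refine Set.eq_empty_of_forall_notMem fun c hc => ?_
      have h1 : (c : κ ⊕ ι) ∈ Ys := by rw [h]; exact c.2
      exact h1.2 ⟨c.2, hc⟩
    have hQX := IR2_num hS n (fun _ _ => le_refl d) (fun c _ => hK₀ c) (hmin' Xs hXs hXsne)
    have hQY := IR2_num hS n (fun _ _ => le_refl d) (fun c _ => hK₀ c) (hmin' Ys hYs hYsne)
    have hZn : ¬ IR2_Q S p g d n Z (fun _ => d) K₀ := fun h =>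
      hZ0 (IR2_num hS 0 (fun _ _ => le_refl d) (fun c _ => hK₀ c) h)
    apply hZn
    -- the partition in four parts
    let K₄ : κ ⊕ ι → ℕ := fun c => if c ∈ Xs then K₀ c else K₀ c + 2
    have hK₄ : ∀ c, d ≤ K₄ c := by
      intro c
      have := hK₀ c
      by_cases hc : c ∈ Xs
      · simp only [K₄, hc, if_true]; exact this
      · simp only [K₄, hc, if_false]; omega
    let K₂ : κ ⊕ ι → ℕ := fun c => if c ∈ Xs then d else d + 2
    have hK₂ : ∀ c, d ≤ K₂ c := by
      intro c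
      by_cases hc : c ∈ Xs
      · simp only [K₂, hc, if_true]; exact le_refl d
      · simp only [K₂, hc, if_false]; omega
    let K₃ : κ ⊕ ι → ℕ := fun c => if c ∈ Xs then K₀ c else d + 2
    have hK₃ : ∀ c, d ≤ K₃ c := by
      intro c
      by_cases hc : c ∈ Xs
      · simp only [K₃, hc, if_true]; exact hK₀ c
      · simp only [K₃, hc, if_false]; omega
    have hK₀E : ∀ c, K₀ c = d ∨ K₀ c = d + 1 := by
      rintro (e | r)
      · exact Or.inl rfl
      · exact Or.inr rfl
    -- `T(Z) = T(X | Y)`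
    have q1 : IR2_Q S p g d n Z (fun _ => d) K₂ := by
      refine ((IR2_S1 hS (K' := fun _ => k) (n' := n) (fun _ _ => le_refl d)
        (fun _ _ => by omega) (by simp)).trans star.symm).trans
        (IR2_S1 hS ?_ (fun c _ => hK₂ c) ?_)
      · intro c hc
        split_ifs <;> omega
      · intro c hc c' hc'
        by_cases h : c ∈ Xs <;> by_cases h' : c' ∈ Xs
        · have e1 : ∃ h : c ∈ Z, (⟨c, h⟩ : Z) ∈ X := h
          have e2 : ∃ h : c' ∈ Z, (⟨c', h⟩ : Z) ∈ X := h'
          simp only [K₂, h, h', e1, e2, if_true]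
        · have e1 : ∃ h : c ∈ Z, (⟨c, h⟩ : Z) ∈ X := h
          have e2 : ¬ ∃ h : c' ∈ Z, (⟨c', h⟩ : Z) ∈ X := h'
          simp only [K₂, h, h', e1, e2, if_true, if_false]
          constructor <;> intro e <;> omega
        · have e1 : ¬ ∃ h : c ∈ Z, (⟨c, h⟩ : Z) ∈ X := h
          have e2 : ∃ h : c' ∈ Z, (⟨c', h⟩ : Z) ∈ X := h'
          simp only [K₂, h, h', e1, e2, if_true, if_false]
          constructor <;> intro e <;> omega
        · have e1 : ¬ ∃ h : c ∈ Z, (⟨c, h⟩ : Z) ∈ X := h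
          have e2 : ¬ ∃ h : c' ∈ Z, (⟨c', h⟩ : Z) ∈ X := h'
          simp only [K₂, h, h', e1, e2, if_false]
    -- `T(X | Y) = T(X_B | X_A | Y)`
    have q2 : IR2_Q S p g d n Z K₂ K₃ := by
      refine IR2_spl hTMK hA hS (C := Xs) {d, d + 1} ?_ ?_ ?_ ?_ ?_
      · rintro j (rfl | rfl)
        · exact le_refl _
        · omega
      · intro c hc
        simp only [K₂, hc, if_true]
        exact Or.inl rfl
      · intro c hc
        simp only [K₃, hc, if_true]
        exact hK₀E c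
      · intro c hc hc'
        simp only [K₂, K₃, hc', if_false]
        refine ⟨trivial, ?_⟩
        rintro (h | h)
        · omega
        · have h' : d + 2 = d + 1 := h
          omega
      · refine ((IR2_S1 hS (K' := fun _ => d) (n' := n) (fun c _ => hK₂ c)
          (fun _ _ => le_refl d) ?_).trans hQX).trans (IR2_S1 hS (fun c _ => hK₀ c)
          (fun c _ => hK₃ c) ?_)
        · intro c hc c' hc'
          simp only [K₂, hc, hc', if_true]
        · intro c hc c' hc'
          simp only [K₃, hc, hc', if_true]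
    -- `T(X_B | X_A | Y) = T(X_B | X_A | Y_B | Y_A)`
    have q3 : IR2_Q S p g d n Z K₃ K₄ := by
      refine IR2_spl hTMK hA hS (C := Ys) {d + 2, d + 3} ?_ ?_ ?_ ?_ ?_
      · rintro j (rfl | rfl)
        · omega
        · omega
      · intro c hc
        simp only [K₃, hc.2, if_false]
        exact Or.inl rfl
      · intro c hc
        simp only [K₄, hc.2, if_false]
        rcases hK₀E c with h | h
        · exact Or.inl (by rw [h])
        · exact Or.inr (by rw [h]; rfl)
      · intro c hc hc'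
        have hcX : c ∈ Xs := by
          by_contra h
          exact hc' ⟨hc, h⟩
        simp only [K₃, K₄, hcX, if_true]
        refine ⟨trivial, ?_⟩
        rcases hK₀E c with h | h
        · rw [h]
          rintro (h | h)
          · omega
          · have h' : d = d + 3 := h
            omega
        · rw [h]
          rintro (h | h)
          · omega
          · have h' : d + 1 = d + 3 := h
            omega
      · refine ((IR2_S1 hS (K' := fun _ => d) (n' := n) (fun c _ => hK₃ c)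
          (fun _ _ => le_refl d) ?_).trans hQY).trans (IR2_S1 hS (fun c _ => hK₀ c)
          (fun c _ => hK₄ c) ?_)
        · intro c hc c' hc'
          simp only [K₃, hc.2, hc'.2, if_false]
        · intro c hc c' hc'
          simp only [K₄, hc.2, hc'.2, if_false]
          constructor <;> intro e <;> omega
    -- `T(B) = T(X_B | Y_B)` and `T(A) = T(X_A | Y_A)`
    have q4 : ∀ C : Set (κ ⊕ ι), C ⊆ Z → ∀ K K' : κ ⊕ ι → ℕ, (∀ c, d ≤ K c) → (∀ c, d ≤ K' c) →
        (∀ c ∈ C, ∀ c' ∈ C, K c = K c') →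
        (∀ c ∈ C, ∀ c' ∈ C, (K' c = K' c' ↔ (c ∈ Xs ↔ c' ∈ Xs))) →
        IR2_Q S p g d n C K K' := by
      intro C hC K K' h1 h2 h3 h4
      refine ((IR2_S1 hS (K' := fun _ => d) (n' := n) (fun c _ => h1 c)
        (fun _ _ => le_refl d) ?_).trans (IR2_rst q1 hC)).trans (IR2_S1 hS (fun c _ => hK₂ c)
        (fun c _ => h2 c) ?_)
      · intro c hc c' hc'
        simp only [h3 c hc c' hc', iff_self]
      · intro c hc c' hc'
        rw [h4 c hc c' hc']
        by_cases h : c ∈ Xs <;> by_cases h' : c' ∈ Xs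
        · simp only [K₂, h, h', if_true]
        · simp [K₂, h, h']
        · simp [K₂, h, h']
        · simp only [K₂, h, h', if_false]
    let K₅ : κ ⊕ ι → ℕ := Sum.elim (fun e => if Sum.inl e ∈ Xs then d else d + 2)
      (fun _ => d + 1)
    have hK₅ : ∀ c, d ≤ K₅ c := by
      rintro (e | r)
      · simp only [K₅, Sum.elim_inl]
        split_ifs <;> omega
      · simp only [K₅, Sum.elim_inr]
        omega
    have q5 : IR2_Q S p g d n Z K₀ K₅ := by
      refine IR2_spl hTMK hA hS (C := {c | c ∈ Z ∧ ∃ e, c = Sum.inl e}) {d, d + 2} ?_ ?_ ?_ ?_ ?_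
      · rintro j (rfl | rfl)
        · omega
        · omega
      · rintro _ ⟨hc, e, rfl⟩
        exact Or.inl rfl
      · rintro _ ⟨hc, e, rfl⟩
        simp only [K₅, Sum.elim_inl]
        split_ifs
        · exact Or.inl rfl
        · exact Or.inr rfl
      · rintro (e | r) hc hc'
        · exact absurd ⟨hc, e, rfl⟩ hc'
        · refine ⟨rfl, ?_⟩
          rintro (h | h)
          · have h' : d + 1 = d := h
            omega
          · have h' : d + 1 = d + 2 := h
            omega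
      · refine q4 _ (fun c hc => hc.1) K₀ K₅ hK₀ hK₅ ?_ ?_
        · rintro _ ⟨hc, e, rfl⟩ _ ⟨hc', e', rfl⟩
          rfl
        · rintro _ ⟨hc, e, rfl⟩ _ ⟨hc', e', rfl⟩
          simp only [K₅, Sum.elim_inl]
          by_cases h : (Sum.inl e : κ ⊕ ι) ∈ Xs <;> by_cases h' : (Sum.inl e' : κ ⊕ ι) ∈ Xs
          · simp only [h, h', if_true]
          · simp [h, h']
          · simp [h, h']
          · simp only [h, h', if_false]
    have q6 : IR2_Q S p g d n Z K₅ K₄ := by
      refine IR2_spl hTMK hA hS (C := {c | c ∈ Z ∧ ∃ r, c = Sum.inr r}) {d + 1, d + 3}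
        ?_ ?_ ?_ ?_ ?_
      · rintro j (rfl | rfl)
        · omega
        · omega
      · rintro _ ⟨hc, e, rfl⟩
        exact Or.inl rfl
      · rintro _ ⟨hc, e, rfl⟩
        by_cases h : (Sum.inr e : κ ⊕ ι) ∈ Xs
        · simp only [K₄, h, if_true]
          exact Or.inl rfl
        · simp only [K₄, h, if_false]
          exact Or.inr rfl
      · rintro (e | r) hc hc'
        · by_cases h : (Sum.inl e : κ ⊕ ι) ∈ Xs
          · simp only [K₄, K₅, K₀, h, if_true, Sum.elim_inl]
            refine ⟨trivial, ?_⟩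
            rintro (h | h)
            · omega
            · have h' : d = d + 3 := h
              omega
          · simp only [K₄, K₅, K₀, h, if_false, Sum.elim_inl]
            refine ⟨trivial, ?_⟩
            rintro (h | h)
            · omega
            · have h' : d + 2 = d + 3 := h
              omega
        · exact absurd ⟨hc, r, rfl⟩ hc'
      · refine q4 _ (fun c hc => hc.1) K₅ K₄ hK₅ hK₄ ?_ ?_
        · rintro _ ⟨hc, e, rfl⟩ _ ⟨hc', e', rfl⟩
          rfl
        · rintro _ ⟨hc, e, rfl⟩ _ ⟨hc', e', rfl⟩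
          by_cases h : (Sum.inr e : κ ⊕ ι) ∈ Xs <;> by_cases h' : (Sum.inr e' : κ ⊕ ι) ∈ Xs
          · simp only [K₄, K₀, h, h', if_true, Sum.elim_inr]
          · simp [K₄, K₀, h, h', Sum.elim_inr]
          · simp [K₄, K₀, h, h', Sum.elim_inr]
          · simp only [K₄, K₀, h, h', if_false, Sum.elim_inr]
    exact ((q1.trans q2).trans q3).trans (q5.trans q6).symm

end UN
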