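import Pool.Agent.UN.StD

/-!
# UN: irreducibility depends only on the type over the marks
-/

set_option autoImplicit false
set_option linter.unusedVariables false

namespace UN

open Set Filter Pool.Agent.Helper5.DU Pool.Agent.Helper6.Str Pool.Agent.Helper79.VC
  Pool.Agent.Helper97.LO Pool.Agent.Helper97.VC

theorem IR3_aux {G : Sg} {M P κ ι Z : Type} (S : Sys G M) (p : P → M)
    (g : ℕ → La κ ι → M) (d D : ℕ) (z z' : Z → M) (hd : d ≤ D)
    (h : Eqv S (Sum.elim (QT p g D) z) S (Sum.elim (QT p g D) z')) (X : Set Z)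
    (hV : VI S p g d D z X) : VI S p g d D z' X := by
  classical
  obtain ⟨y, hy1, hy2, hy3⟩ := hV
  have hA : Eqv S (Sum.elim (QT p g d) z) S (Sum.elim (QT p g d) z') := by
    refine h.words' ?_
    rintro ((c | v) | i)
    · exact ⟨[], Sum.inl (Sum.inl c), rfl, rfl⟩
    · exact ⟨[], Sum.inl (Sum.inr ⟨v.1, v.2.1.trans_le hd, v.2.2.trans_le hd⟩), rfl, rfl⟩
    · exact ⟨[], Sum.inr i, rfl, rfl⟩
  let y' : Z → M := fun i => if i ∈ X then z' i else y i
  have hB : Eqv S (Sum.elim (QT p g d) y) S (Sum.elim (QT p g d) y') := by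
    refine h.words' ?_
    rintro ((c | v) | i)
    · exact ⟨[], Sum.inl (Sum.inl c), rfl, rfl⟩
    · exact ⟨[], Sum.inl (Sum.inr ⟨v.1, v.2.1.trans_le hd, v.2.2.trans_le hd⟩), rfl, rfl⟩
    · by_cases hi : i ∈ X
      · exact ⟨[], Sum.inr i, hy1 i hi, if_pos hi⟩
      · obtain ⟨k, b, -, hk, hb, l, hl⟩ := hy2 i hi
        exact ⟨l, Sum.inl (Sum.inr ⟨(k, b), hk, hb⟩), hl, (if_neg hi).trans hl⟩
  refine ⟨y', fun i hi => if_pos hi, fun i hi => ?_, hA.symm.trans (hy3.trans hB)⟩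
  have e : y' i = y i := if_neg hi
  rw [e]
  exact hy2 i hi

theorem thm_IR3 : St_IR3 := by
  intro G M P κ ι Z S p g d D z z' hd h
  exact ⟨fun hz X hX => hz X (IR3_aux S p g d D z' z hd h.symm X hX),
    fun hz X hX => hz X (IR3_aux S p g d D z z' hd h X hX)⟩

end UN
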