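import Pool.Agent.UN.StE

/-!
# UN [ISO]: countable sets which are equivalent at all countable levels are isomorphic
-/

set_option autoImplicit false
set_option linter.unusedVariables false

namespace UN

open Set Filter Pool.Agent.Helper5.DU Pool.Agent.Helper6.Str Pool.Agent.Helper79.VC
  Pool.Agent.Helper97.LO Pool.Agent.Helper97.VC

/-- one move, towards the second structure -/
theorem ISO_forth {L : FirstOrder.Language.{0, 0}} {M : Type} {S S' : L.Structure M}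
    {X X' : Set M} (hX' : X'.Countable) {q : Set (M × M)} (h : ∀ γ < om1, BFR S S' X X' γ q)
    {x : M} (hx : x ∈ X) : ∃ y ∈ X', ∀ γ < om1, BFR S S' X X' γ (insert (x, y) q) := by
  by_contra hcon
  push Not at hcon
  have := hX'.to_subtype
  have h1 : ∀ y : X', ∃ γ < om1, ¬ BFR S S' X X' γ (insert (x, (y : M)) q) :=
    fun y => hcon y y.2
  choose g hg hg' using h1
  obtain ⟨α, hα, hgα⟩ := exists_bound hg
  obtain ⟨y, hy, h2⟩ := (h (α + 1) (add_one_lt_om1 hα)).forth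
    (Order.lt_add_one_iff.mpr le_rfl) hx
  exact hg' ⟨y, hy⟩ (h2.mono (hgα ⟨y, hy⟩))

/-- one move, towards the first structure -/
theorem ISO_back {L : FirstOrder.Language.{0, 0}} {M : Type} {S S' : L.Structure M}
    {X X' : Set M} (hX : X.Countable) {q : Set (M × M)} (h : ∀ γ < om1, BFR S S' X X' γ q)
    {y : M} (hy : y ∈ X') : ∃ x ∈ X, ∀ γ < om1, BFR S S' X X' γ (insert (x, y) q) := by
  by_contra hcon
  push Not at hcon
  have := hX.to_subtype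
  have h1 : ∀ x : X, ∃ γ < om1, ¬ BFR S S' X X' γ (insert ((x : M), y) q) :=
    fun x => hcon x x.2
  choose g hg hg' using h1
  obtain ⟨α, hα, hgα⟩ := exists_bound hg
  obtain ⟨x, hx, h2⟩ := (h (α + 1) (add_one_lt_om1 hα)).back
    (Order.lt_add_one_iff.mpr le_rfl) hy
  exact hg' ⟨x, hx⟩ (h2.mono (hgα ⟨x, hx⟩))

theorem thm_ISO : St_ISO := by
  classical
  intro L M S S' X X' p hX hX' hp hpX hBF
  have := hX.to_subtype
  have := hX'.to_subtype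
  obtain ⟨f, hf⟩ := exists_injective_nat X
  obtain ⟨f', hf'⟩ := exists_injective_nat X'
  let Gd : Type := {q : Set (M × M) // (∀ a ∈ q, a.1 ∈ X ∧ a.2 ∈ X') ∧
    ∀ γ < om1, BFR S S' X X' γ q}
  have hstep1 : ∀ (k : ℕ) (q : Gd), ∃ q' : Gd, q.1 ⊆ q'.1 ∧
      ∀ x : X, f x = k → ∃ y, ((x : M), y) ∈ q'.1 := by
    rintro k ⟨q, hq1, hq2⟩
    by_cases h : ∃ x : X, f x = k
    · obtain ⟨x, hx⟩ := h
      obtain ⟨y, hy, h1⟩ := ISO_forth hX' hq2 x.2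
      refine ⟨⟨insert ((x : M), y) q, ?_, h1⟩, subset_insert _ _, fun x' hx' => ?_⟩
      · rintro a (rfl | ha)
        · exact ⟨x.2, hy⟩
        · exact hq1 a ha
      · obtain rfl : x' = x := hf (hx'.trans hx.symm)
        exact ⟨y, mem_insert _ _⟩
    · exact ⟨⟨q, hq1, hq2⟩, Subset.rfl, fun x hx => absurd ⟨x, hx⟩ h⟩
  have hstep2 : ∀ (k : ℕ) (q : Gd), ∃ q' : Gd, q.1 ⊆ q'.1 ∧
      ∀ y : X', f' y = k → ∃ x, (x, (y : M)) ∈ q'.1 := by
    rintro k ⟨q, hq1, hq2⟩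
    by_cases h : ∃ y : X', f' y = k
    · obtain ⟨y, hy⟩ := h
      obtain ⟨x, hx, h1⟩ := ISO_back hX hq2 y.2
      refine ⟨⟨insert (x, (y : M)) q, ?_, h1⟩, subset_insert _ _, fun y' hy' => ?_⟩
      · rintro a (rfl | ha)
        · exact ⟨hx, y.2⟩
        · exact hq1 a ha
      · obtain rfl : y' = y := hf' (hy'.trans hy.symm)
        exact ⟨x, mem_insert _ _⟩
    · exact ⟨⟨q, hq1, hq2⟩, Subset.rfl, fun y hy => absurd ⟨y, hy⟩ h⟩
  have hstep : ∀ (k : ℕ) (q : Gd), ∃ q' : Gd, q.1 ⊆ q'.1 ∧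
      (∀ x : X, f x = k → ∃ y, ((x : M), y) ∈ q'.1) ∧
      ∀ y : X', f' y = k → ∃ x, (x, (y : M)) ∈ q'.1 := by
    intro k q
    obtain ⟨q1, h1, h2⟩ := hstep1 k q
    obtain ⟨q2, h3, h4⟩ := hstep2 k q1
    refine ⟨q2, h1.trans h3, fun x hx => ?_, h4⟩
    obtain ⟨y, hy⟩ := h2 x hx
    exact ⟨y, h3 hy⟩
  choose nx hnx1 hnx2 hnx3 using hstep
  let s : ℕ → Gd := fun n => n.rec ⟨p, hpX, hBF⟩ (fun k q => nx k q)
  have hs : ∀ n, s (n + 1) = nx n (s n) := fun n => rfl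
  have hmono : ∀ n m, n ≤ m → (s n).1 ⊆ (s m).1 := by
    intro n m hnm
    induction m, hnm using Nat.le_induction with
    | base => exact Subset.rfl
    | succ m _ ih => rw [hs]; exact ih.trans (hnx1 m (s m))
  let U : Set (M × M) := ⋃ n, (s n).1
  have hfin : ∀ {n : ℕ} (v : Fin n → M × M), (∀ i, v i ∈ U) → ∃ m, ∀ i, v i ∈ (s m).1 := by
    intro n v hv
    have h1 : ∀ i, ∃ m, v i ∈ (s m).1 := fun i => mem_iUnion.mp (hv i)
    choose m hm using h1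
    refine ⟨Finset.univ.sup m, fun i => ?_⟩
    exact hmono _ _ (Finset.le_sup (f := m) (Finset.mem_univ i)) (hm i)
  have hat : AtEq S S' U := by
    refine ⟨fun a ha b hb => ?_, fun n R v hv => ?_⟩
    · obtain ⟨m, hm⟩ := hfin ![a, b] (by
        intro i
        refine Fin.cases ?_ (fun i => ?_) i
        · exact ha
        · obtain rfl : i = 0 := Subsingleton.elim _ _
          exact hb)
      exact ((s m).2.2 0 (Ordinal.omega_pos 1)).atEq.1 a (hm 0) b (hm 1)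
    · obtain ⟨m, hm⟩ := hfin v hv
      exact ((s m).2.2 0 (Ordinal.omega_pos 1)).atEq.2 n R v hm
  have hUX : ∀ a ∈ U, a.1 ∈ X ∧ a.2 ∈ X' := by
    intro a ha
    obtain ⟨m, hm⟩ := mem_iUnion.mp ha
    exact (s m).2.1 a hm
  have hfo : ∀ x ∈ X, ∃ y, (x, y) ∈ U := by
    intro x hx
    obtain ⟨y, hy⟩ := hnx2 (f ⟨x, hx⟩) (s (f ⟨x, hx⟩)) ⟨x, hx⟩ rfl
    exact ⟨y, mem_iUnion.mpr ⟨f ⟨x, hx⟩ + 1, hy⟩⟩
  have hba : ∀ y ∈ X', ∃ x, (x, y) ∈ U := by
    intro y hy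
    obtain ⟨x, hx⟩ := hnx3 (f' ⟨y, hy⟩) (s (f' ⟨y, hy⟩)) ⟨y, hy⟩ rfl
    exact ⟨x, mem_iUnion.mpr ⟨f' ⟨y, hy⟩ + 1, hx⟩⟩
  let τ : M → M := fun x => if h : ∃ y, (x, y) ∈ U then h.choose else x
  have hτ : ∀ x ∈ X, (x, τ x) ∈ U := by
    intro x hx
    have h1 := hfo x hx
    show (x, if h : ∃ y, (x, y) ∈ U then h.choose else x) ∈ U
    rw [dif_pos h1]
    exact h1.choose_spec
  refine ⟨τ, ⟨fun x hx => (hUX _ (hτ x hx)).2, fun x hx y hy hxy => ?_, fun y hy => ?_⟩, ?_, ?_⟩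
  · exact (hat.1 _ (hτ x hx) _ (hτ y hy)).mpr hxy
  · obtain ⟨x, hx⟩ := hba y hy
    have hxX := (hUX _ hx).1
    exact ⟨x, hxX, (hat.1 _ (hτ x hxX) _ hx).mp rfl⟩
  · refine AtEq.anti ?_ hat
    rintro _ ⟨x, hx, rfl⟩
    exact hτ x hx
  · intro a ha
    have h1 : a ∈ U := mem_iUnion.mpr ⟨0, ha⟩
    exact (hat.1 _ (hτ a.1 (hpX a ha).1) _ h1).mp rfl

end UN
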