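import Pool.Agent.UN.StA

/-!
# UN, module KWM: the class on `ℕ` is Borel and closed under the equivalence of level `ω`
-/

set_option autoImplicit false
set_option linter.unusedVariables false

namespace UN

open Set Filter Pool.Agent.Helper5.DU Pool.Agent.Helper6.Str Pool.Agent.Helper79.VC
  Pool.Agent.Helper97.LO Pool.Agent.Helper97.VC

/-- there are countably many atoms -/
theorem KWM_countable_At {G : Sg} {ι : Type} [Countable G.Fn] [Countable G.Rl] [Countable ι] :
    Countable (At G ι) := by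
  let g : ((List G.Fn × ι) × (List G.Fn × ι)) ⊕
      ((R : G.Rl) × (Fin (G.ar R) → List G.Fn × ι)) → At G ι :=
    Sum.elim (fun p => .eq p.1 p.2) fun p => .rel p.1 p.2
  refine Function.Surjective.countable (f := g) ?_
  rintro (⟨s, t⟩ | ⟨R, t⟩)
  · exact ⟨.inl (s, t), rfl⟩
  · exact ⟨.inr ⟨R, t⟩, rfl⟩

/-- there are countably many relation symbols of every arity -/
theorem KWM_countable_rel (G : Sg) [Countable G.Fn] [Countable G.Rl] (n : ℕ) :
    Countable ((LW G).Relations n) :=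
  (KWM_countable_At : Countable (At G (Fin n)))

/-- a set which depends on finitely many measurable facts is measurable -/
private theorem KWM_meas {α ι : Type*} [MeasurableSpace α] [Countable ι] (P : α → ι → Prop)
    (hP : ∀ i, MeasurableSet {c | P c i}) (D : Finset ι) (W : (ι → Prop) → Prop) :
    MeasurableSet {c | ∃ w : ι → Prop, W w ∧ ∀ a ∈ D, (P c a ↔ w a)} := by
  classical
  have key : {c | ∃ w : ι → Prop, W w ∧ ∀ a ∈ D, (P c a ↔ w a)} =
      ⋃ E : Finset ι, ({_c | ∃ w : ι → Prop, W w ∧ ∀ a ∈ D, (a ∈ E ↔ w a)} ∩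
        ⋂ a : ι, {c | a ∈ D → (P c a ↔ a ∈ E)}) := by
    ext c
    simp only [mem_ofPred_eq, mem_iUnion, mem_inter_iff, mem_iInter]
    constructor
    · rintro ⟨w, hw, h⟩
      refine ⟨D.filter w, ⟨w, hw, fun a ha => ?_⟩, fun a ha => ?_⟩
      · simp [ha]
      · rw [h a ha]; simp [ha]
    · rintro ⟨E, ⟨w, hw, h⟩, h'⟩
      exact ⟨w, hw, fun a ha => (h' a ha).trans (h a ha)⟩
  rw [key]
  refine MeasurableSet.iUnion fun E => (MeasurableSet.const _).inter
    (MeasurableSet.iInter fun a => ?_)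
  by_cases ha : a ∈ D
  · by_cases hE : a ∈ E
    · simp only [ha, hE, iff_true, true_implies]
      exact hP a
    · simp only [ha, hE, iff_false, true_implies]
      exact (hP a).compl
  · simp only [ha, false_implies]
    exact MeasurableSet.const True

theorem thm_KWM (hCHR : St_CHR) : St_KWM := by
  intro G U hFn hRl hU
  have hcR : ∀ n, Countable ((LW G).Relations n) := KWM_countable_rel G
  have hcA : ∀ n : ℕ, Countable (At G (Fin n)) := fun n => KWM_countable_At
  have hchr := fun A : (LW G).Structure ℕ => hCHR G U hU ℕ A ⟨0⟩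
  constructor
  · have key : {c : Code (LW G) | toStr c ∈ KU U} =
        (⋂ f : G.Fn, ⋂ x : ℕ, ⋃ y : ℕ, {c : Code (LW G) |
          (toStr c).RelMap (At.eq ([f], 0) ([], 1) : At G (Fin 2)) ![x, y]}) ∩
        ⋂ n : ℕ, ⋂ v : Fin n → ℕ, ⋂ D : Finset ((m : ℕ) × At G (Fin m) × (Fin m → Fin n)),
          {c : Code (LW G) | ∃ w : ((m : ℕ) × At G (Fin m) × (Fin m → Fin n)) → Prop,
            (∃ (N : Type) (S' : Sys G N), U N S' ∧ ∃ v' : Fin n → N,
              (∀ i j, v i = v j ↔ v' i = v' j) ∧ ∀ a, w a ↔ Tr S' (v' ∘ a.2.2) a.2.1) ∧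
            ∀ a ∈ D, ((toStr c).RelMap (a.2.1 : At G (Fin a.1)) (v ∘ a.2.2) ↔ w a)} := by
      ext c
      have h0 : toStr c ∈ KU U ↔ ∃ S : Sys G ℕ, U ℕ S ∧ toStr c = WS S := Iff.rfl
      rw [mem_ofPred_eq, h0, ← hchr]
      simp only [mem_inter_iff, mem_iInter, mem_iUnion, mem_ofPred_eq]
      refine and_congr Iff.rfl ⟨fun h n v D => ?_, fun h n v D hD => ?_⟩
      · obtain ⟨N, S', hN, v', h1, h2⟩ := h n v D D.finite_toSet
        exact ⟨fun a => Tr S' (v' ∘ a.2.2) a.2.1, ⟨N, S', hN, v', h1, fun a => Iff.rfl⟩,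
          fun a ha => h2 a ha⟩
      · obtain ⟨w, ⟨N, S', hN, v', h1, h2⟩, h3⟩ := h n v hD.toFinset
        exact ⟨N, S', hN, v', h1, fun a ha => (h3 a (hD.mem_toFinset.2 ha)).trans (h2 a)⟩
    rw [key]
    refine (MeasurableSet.iInter fun f => MeasurableSet.iInter fun x => MeasurableSet.iUnion
      fun y => measurableSet_relMap _ _).inter (MeasurableSet.iInter fun n =>
      MeasurableSet.iInter fun v => MeasurableSet.iInter fun D => ?_)
    exact KWM_meas (fun (c : Code (LW G)) (a : (m : ℕ) × At G (Fin m) × (Fin m → Fin n)) =>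
      (toStr c).RelMap (a.2.1 : At G (Fin a.1)) (v ∘ a.2.2))
      (fun a => measurableSet_relMap _ _) D _
  · intro A hA A' hAA'
    have hA1 : ∃ S : Sys G ℕ, U ℕ S ∧ A = WS S := hA
    rw [← hchr] at hA1
    obtain ⟨h1, h2⟩ := hA1
    show ∃ S : Sys G ℕ, U ℕ S ∧ A' = WS S
    rw [← hchr]
    refine ⟨fun f x' => ?_, fun n v' D hD => ?_⟩
    · have e1 : (1 : Ordinal.{0}) < Ordinal.omega0 := Ordinal.one_lt_omega0
      obtain ⟨x, -, hx⟩ := hAA'.back e1 (mem_univ x')
      obtain ⟨y, hy⟩ := h1 f x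
      obtain ⟨y', -, hy'⟩ := hx.forth zero_lt_one (mem_univ y)
      refine ⟨y', ?_⟩
      have h3 := hy'.atEq.2 2 (At.eq ([f], 0) ([], 1) : At G (Fin 2)) ![(x, x'), (y, y')] (by
        intro i
        fin_cases i
        · exact Or.inr (Or.inl rfl)
        · exact Or.inl rfl)
      have e2 : (fun i => (![(x, x'), (y, y')] i).1) = ![x, y] := by
        funext i; fin_cases i <;> rfl
      have e3 : (fun i => (![(x, x'), (y, y')] i).2) = ![x', y'] := by
        funext i; fin_cases i <;> rfl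
      rw [e2, e3] at h3
      exact h3.1 hy
    · have e1 : (0 : Ordinal.{0}) + (n : Ordinal.{0}) ≤ Ordinal.omega0 := by
        rw [zero_add]; exact (Ordinal.natCast_lt_omega0 n).le
      obtain ⟨v, -, hv⟩ := BFR.back_many n (hAA'.mono e1) v' fun _ => mem_univ _
      obtain ⟨N, S', hN, w, h3, h4⟩ := h2 n v D hD
      have hm : ∀ i, (v i, v' i) ∈ ((∅ : Set (ℕ × ℕ)) ∪ range fun i => (v i, v' i)) :=
        fun i => Or.inr ⟨i, rfl⟩
      refine ⟨N, S', hN, w, fun i j => ?_, fun a ha => ?_⟩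
      · exact (hv.atEq.1 _ (hm i) _ (hm j)).symm.trans (h3 i j)
      · have h5 := hv.atEq.2 a.1 (a.2.1 : At G (Fin a.1)) (fun i => (v (a.2.2 i), v' (a.2.2 i)))
          fun i => hm _
        exact h5.symm.trans (h4 a ha)

end UN
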