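import Pool.Agent.UN.StB

/-!
# UN: a game gives the equivalence of linear orders
-/

set_option autoImplicit false
set_option linter.unusedVariables false

namespace UN

open Set Filter Pool.Agent.Helper5.DU Pool.Agent.Helper6.Str Pool.Agent.Helper79.VC
  Pool.Agent.Helper97.LO Pool.Agent.Helper97.VC

/-- the elements of `I` between the coordinates of `l` and of `u` -/
private def LEG_A (p : ℚ × ℚ → ℚ) (I : Set ℚ) (l u : Set (ℚ × ℚ)) : Set ℚ :=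
  {x | x ∈ I ∧ (∀ a ∈ l, p a < x) ∧ ∀ b ∈ u, x < p b}

private theorem LEG_Iio (p : ℚ × ℚ → ℚ) (I : Set ℚ) (l u : Set (ℚ × ℚ)) (c : ℚ × ℚ) :
    LEG_A p I l u ∩ Iio (p c) = LEG_A p I l (insert c u) := by
  ext x
  constructor
  · rintro ⟨⟨h1, h2, h3⟩, h4⟩
    refine ⟨h1, h2, fun b hb => ?_⟩
    rcases Set.mem_insert_iff.1 hb with rfl | hb
    · exact h4
    · exact h3 b hb
  · rintro ⟨h1, h2, h3⟩
    exact ⟨⟨h1, h2, fun b hb => h3 b (Set.mem_insert_of_mem _ hb)⟩, h3 c (Set.mem_insert _ _)⟩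

private theorem LEG_Ioi (p : ℚ × ℚ → ℚ) (I : Set ℚ) (l u : Set (ℚ × ℚ)) (c : ℚ × ℚ) :
    LEG_A p I l u ∩ Ioi (p c) = LEG_A p I (insert c l) u := by
  ext x
  constructor
  · rintro ⟨⟨h1, h2, h3⟩, h4⟩
    refine ⟨h1, fun b hb => ?_, h3⟩
    rcases Set.mem_insert_iff.1 hb with rfl | hb
    · exact h4
    · exact h2 b hb
  · rintro ⟨h1, h2, h3⟩
    exact ⟨⟨h1, fun b hb => h2 b (Set.mem_insert_of_mem _ hb), h3⟩, h2 c (Set.mem_insert _ _)⟩

private theorem LEG_key (I I' : Set ℚ) (Γ : Ordinal.{0} → Set (ℚ × ℚ) → Prop)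
    (hord : ∀ γ π, Γ γ π → (∀ a ∈ π, a.1 ∈ I ∧ a.2 ∈ I') ∧
      ∀ a ∈ π, ∀ b ∈ π, a.1 < b.1 ↔ a.2 < b.2)
    (hmv : ∀ γ π, Γ γ π → ∀ β < γ, (∀ x ∈ I, ∃ y ∈ I', Γ β (insert (x, y) π)) ∧
      ∀ y ∈ I', ∃ x ∈ I, Γ β (insert (x, y) π)) :
    ∀ (γ : Ordinal.{0}) (π l u : Set (ℚ × ℚ)), l ⊆ π → u ⊆ π → Γ γ π →
      HER.LE γ (LEG_A Prod.fst I l u) (LEG_A Prod.snd I' l u) := by
  intro γ
  induction γ using WellFoundedLT.induction with
  | ind γ ih =>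
    intro π l u hl hu hΓ
    have step : ∀ β, β < γ → ∀ x y, Γ β (insert (x, y) π) →
        HER.LE β (LEG_A Prod.fst I l u ∩ Iio x) (LEG_A Prod.snd I' l u ∩ Iio y) ∧
        HER.LE β (LEG_A Prod.fst I l u ∩ Ioi x) (LEG_A Prod.snd I' l u ∩ Ioi y) := by
      intro β hβ x y h
      have hl' : l ⊆ insert (x, y) π := hl.trans (Set.subset_insert _ _)
      have hu' : u ⊆ insert (x, y) π := hu.trans (Set.subset_insert _ _)
      have e1 := LEG_Iio Prod.fst I l u (x, y)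
      have e2 := LEG_Iio Prod.snd I' l u (x, y)
      have e3 := LEG_Ioi Prod.fst I l u (x, y)
      have e4 := LEG_Ioi Prod.snd I' l u (x, y)
      simp only at e1 e2 e3 e4
      rw [e1, e2, e3, e4]
      exact ⟨ih β hβ _ _ _ hl' (Set.insert_subset (Set.mem_insert _ _) hu') h,
        ih β hβ _ _ _ (Set.insert_subset (Set.mem_insert _ _) hl') hu' h⟩
    rw [HER.LE]
    intro β hβ
    obtain ⟨hf, hb⟩ := hmv γ π hΓ β hβ
    refine ⟨?_, ?_⟩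
    · rintro x ⟨hx, hxl, hxu⟩
      obtain ⟨y, hy, h⟩ := hf x hx
      obtain ⟨-, ho⟩ := hord _ _ h
      refine ⟨y, ⟨hy, fun a ha => ?_, fun b hb => ?_⟩, step β hβ x y h⟩
      · exact (ho a (Set.mem_insert_of_mem _ (hl ha)) (x, y) (Set.mem_insert _ _)).1 (hxl a ha)
      · exact (ho (x, y) (Set.mem_insert _ _) b (Set.mem_insert_of_mem _ (hu hb))).1 (hxu b hb)
    · rintro y ⟨hy, hyl, hyu⟩
      obtain ⟨x, hx, h⟩ := hb y hy
      obtain ⟨-, ho⟩ := hord _ _ h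
      refine ⟨x, ⟨hx, fun a ha => ?_, fun b hb => ?_⟩, step β hβ x y h⟩
      · exact (ho a (Set.mem_insert_of_mem _ (hl ha)) (x, y) (Set.mem_insert _ _)).2 (hyl a ha)
      · exact (ho (x, y) (Set.mem_insert _ _) b (Set.mem_insert_of_mem _ (hu hb))).2 (hyu b hb)

theorem thm_LEG : St_LEG := by
  intro I I' Γ hord hmv γ hΓ
  have h := LEG_key I I' Γ hord hmv γ ∅ ∅ ∅ (Set.empty_subset _) (Set.empty_subset _) hΓ
  have e1 : LEG_A Prod.fst I ∅ ∅ = I := by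
    ext x
    exact ⟨fun hx => hx.1, fun hx => ⟨hx, fun a ha => ha.elim, fun b hb => hb.elim⟩⟩
  have e2 : LEG_A Prod.snd I' ∅ ∅ = I' := by
    ext x
    exact ⟨fun hx => hx.1, fun hx => ⟨hx, fun a ha => ha.elim, fun b hb => hb.elim⟩⟩
  rwa [e1, e2] at h

end UN
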