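import Pool.Agent.UN.StA

/-!
# UN, module LEV: large structures of the class `KU U` come from members of `U`
-/

set_option autoImplicit false
set_option linter.unusedVariables false

namespace UN

open Set Filter Pool.Agent.Helper5.DU Pool.Agent.Helper6.Str Pool.Agent.Helper79.VC
  Pool.Agent.Helper97.LO Pool.Agent.Helper97.VC

theorem thm_LEV (hCHR : St_CHR) : St_LEV := by
  intro G U hU M A hA
  have hne : Nonempty M := by
    obtain ⟨A', hA', h⟩ := hA 1 one_lt_om1
    obtain ⟨x, -, -⟩ := h.back zero_lt_one (mem_univ (0 : ℕ))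
    exact ⟨x⟩
  rw [← hCHR G U hU M A hne]
  refine ⟨fun f x => ?_, fun n v D hD => ?_⟩
  · obtain ⟨A', ⟨S', hS', rfl⟩, h⟩ := hA 2 (by exact_mod_cast natCast_lt_om1 2)
    obtain ⟨x', -, hx⟩ := h.forth (β := 1) (by exact_mod_cast one_lt_two) (mem_univ x)
    obtain ⟨y, -, hy⟩ := hx.back zero_lt_one (mem_univ (S'.fn f x'))
    refine ⟨y, ?_⟩
    have h3 := hy.atEq.2 2 (At.eq ([f], 0) ([], 1) : At G (Fin 2))
      ![(x, x'), (y, S'.fn f x')] (by
        intro i
        fin_cases i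
        · exact Or.inr (Or.inl rfl)
        · exact Or.inl rfl)
    have e2 : (fun i => (![(x, x'), (y, S'.fn f x')] i).1) = ![x, y] := by
      funext i; fin_cases i <;> rfl
    have e3 : (fun i => (![(x, x'), (y, S'.fn f x')] i).2) = ![x', S'.fn f x'] := by
      funext i; fin_cases i <;> rfl
    rw [e2, e3] at h3
    exact h3.2 rfl
  · obtain ⟨A', ⟨S', hS', rfl⟩, h⟩ := hA (0 + (n : Ordinal.{0})) (by
      rw [zero_add]; exact natCast_lt_om1 n)
    obtain ⟨v', -, hv⟩ := BFR.forth_many n h v fun _ => mem_univ _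
    have hm : ∀ i, (v i, v' i) ∈ ((∅ : Set (M × ℕ)) ∪ range fun i => (v i, v' i)) :=
      fun i => Or.inr ⟨i, rfl⟩
    refine ⟨ℕ, S', hS', v', fun i j => ?_, fun a ha => ?_⟩
    · exact hv.atEq.1 _ (hm i) _ (hm j)
    · exact hv.atEq.2 a.1 (a.2.1 : At G (Fin a.1)) (fun i => (v (a.2.2 i), v' (a.2.2 i)))
        fun i => hm _

end UN
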