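import Pool.Agent.UN.StA

/-!
# UN: finitely satisfiable complete types are realised in extensions
-/

set_option autoImplicit false
set_option linter.unusedVariables false

namespace UN

open Set Filter Pool.Agent.Helper5.DU Pool.Agent.Helper6.Str Pool.Agent.Helper79.VC
  Pool.Agent.Helper97.LO Pool.Agent.Helper97.VC

theorem thm_LIM (h : St_UPR) : St_LIM := by
  classical
  intro G U M S hU hS V Θ hΘ
  choose v hv using fun D : Finset (At G (M ⊕ V)) => hΘ (D : Set (At G (M ⊕ V))) D.finite_toSet
  let X : Type := Finset (At G (M ⊕ V))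
  let u : Ultrafilter X := Ultrafilter.of Filter.atTop
  obtain ⟨N, S', q, hN, -, hq⟩ := h G U M S hU hS X u
  refine ⟨N, S', fun m => q fun _ => m, fun x => q fun D => v D x, hN, fun a => ?_⟩
  let w : M ⊕ V → X → M := Sum.elim (fun m _ => m) fun x D => v D x
  have h1 := hq (M ⊕ V) w a
  have h2 : (fun i => q (w i)) =
      Sum.elim (fun m => q fun _ => m) fun x => q fun D => v D x := by
    funext i; cases i <;> rfl
  rw [h2] at h1
  rw [h1]
  have h3 : ∀ D : X, (fun i => w i D) = Sum.elim id (v D) := by
    intro D; funext i; cases i <;> rfl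
  have h4 : ∀ᶠ D in (u : Filter X), (Tr S (fun i => w i D) a ↔ Θ a) := by
    have h5 : ∀ᶠ D : X in Filter.atTop, ({a} : Finset (At G (M ⊕ V))) ≤ D :=
      Filter.eventually_ge_atTop _
    have h6 : ∀ᶠ D in (u : Filter X), ({a} : Finset (At G (M ⊕ V))) ≤ D :=
      Ultrafilter.of_le Filter.atTop h5
    refine h6.mono fun D hD => ?_
    rw [h3 D]
    exact (hv D a (Finset.mem_coe.2 (hD (Finset.mem_singleton_self a)))).symm
  rw [Filter.eventually_congr h4]
  exact Filter.eventually_const

end UN
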