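import Pool.Agent.UN.StE
import Pool.Agent.VB.C

/-!
# UN [LSK]: countable closed existentially closed sets
-/

set_option autoImplicit false
set_option linter.unusedVariables false

namespace UN

open Set Filter Pool.Agent.Helper5.DU Pool.Agent.Helper6.Str Pool.Agent.Helper79.VC
  Pool.Agent.Helper97.LO Pool.Agent.Helper97.VC

/-- there are countably many atoms -/
private theorem LSK_countable_At {G : Sg} {ι : Type} [Countable G.Fn] [Countable G.Rl]
    [Countable ι] : Countable (At G ι) := by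
  let g : ((List G.Fn × ι) × (List G.Fn × ι)) ⊕
      ((R : G.Rl) × (Fin (G.ar R) → List G.Fn × ι)) → At G ι :=
    Sum.elim (fun p => .eq p.1 p.2) fun p => .rel p.1 p.2
  refine Function.Surjective.countable (f := g) ?_
  rintro (⟨s, t⟩ | ⟨R, t⟩)
  · exact ⟨.inl (s, t), rfl⟩
  · exact ⟨.inr ⟨R, t⟩, rfl⟩

/-- an atom over `A` is an atom over a finite subset which contains its variables -/
private theorem LSK_pull {G : Sg} {M : Type} (S : Sys G M) (A : Set M) (n : ℕ) (F : Finset M)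
    (hF : (F : Set M) ⊆ A) (a : At G (A ⊕ Fin n))
    (h : ∀ x : A, Sum.inl x ∈ a.vs → (x : M) ∈ F) :
    ∃ b : At G (F ⊕ Fin n), ∀ w : Fin n → M, Tr S (ov A w) a ↔
      Tr S (Sum.elim (fun x : F => (x : M)) w) b := by
  classical
  let j : F ⊕ Fin n → A ⊕ Fin n := Sum.map (fun x : F => (⟨x.1, hF x.2⟩ : A)) id
  have hj : a.vs ⊆ range j := by
    rintro (x | i) hx
    · exact ⟨Sum.inl ⟨x, h x hx⟩, rfl⟩
    · exact ⟨Sum.inr i, rfl⟩
  obtain ⟨b, hb⟩ := a.exists_sub (range j) hj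
  have hσ : ∀ y : range j, ∃ x, j x = y := fun y => y.2
  choose σ hσ using hσ
  refine ⟨b.map σ, fun w => ?_⟩
  rw [← hb, Tr_map, Tr_map]
  have e1 : ov A w ∘ Subtype.val = Sum.elim (fun x : F => (x : M)) w ∘ σ := by
    funext y
    have h1 : ov A w (y : A ⊕ Fin n) = ov A w (j (σ y)) := by rw [hσ y]
    show ov A w (y : A ⊕ Fin n) = _
    rw [h1]
    show ov A w (j (σ y)) = Sum.elim (fun x : F => (x : M)) w (σ y)
    rcases σ y with x | i
    · rfl
    · rfl
  rw [e1]

/-- Countable closed existentially closed sets. -/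
theorem thm_LSK : St_LSK := by
  classical
  intro G M S C hFn hRl hM hC
  obtain ⟨m₀⟩ := hM
  have hcA : ∀ (F : Finset M) (n : ℕ), Countable (At G (F ⊕ Fin n)) :=
    fun F n => LSK_countable_At
  let pk : (F : Finset M) → (n : ℕ) → Finset (At G (F ⊕ Fin n)) → Finset (At G (F ⊕ Fin n)) →
      Set M := fun F n D D' =>
    if h : ∃ v : Fin n → M, ∀ a ∈ D, (Tr S (Sum.elim (fun x : F => (x : M)) v) a ↔ a ∈ D')
    then range h.choose else ∅
  have hpk : ∀ F n D D', (pk F n D D').Countable := by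
    intro F n D D'
    by_cases h : ∃ v : Fin n → M, ∀ a ∈ D,
      (Tr S (Sum.elim (fun x : F => (x : M)) v) a ↔ a ∈ D')
    · have e : pk F n D D' = range h.choose := dif_pos h
      rw [e]
      exact countable_range _
    · have e : pk F n D D' = ∅ := dif_neg h
      rw [e]
      exact countable_empty
  let f : Finset M → Set M := fun F => (C ∪ {m₀}) ∪ cl S (F : Set M) ∪
    ⋃ n, ⋃ D : Finset (At G (F ⊕ Fin n)), ⋃ D' : Finset (At G (F ⊕ Fin n)), pk F n D D'
  have hf : ∀ F, (f F).Countable := by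
    intro F
    refine ((hC.union (countable_singleton _)).union
      (cl_countable F.finite_toSet.countable)).union ?_
    exact countable_iUnion fun n => countable_iUnion fun D => countable_iUnion fun D' =>
      hpk F n D D'
  obtain ⟨A, hAc, hA⟩ := exists_closed f hf
  have hm₀ : m₀ ∈ A := hA ∅ (by simp) (Or.inl (Or.inl (Or.inr rfl)))
  refine ⟨A, fun x hx => hA ∅ (by simp) (Or.inl (Or.inl (Or.inl hx))), hAc, ?_, ⟨⟨m₀, hm₀⟩, ?_⟩⟩
  · intro g x hx
    refine hA {x} (by simpa using hx) (Or.inl (Or.inr ?_))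
    exact ⟨x, by simp, [g], rfl⟩
  · intro n v D hD
    obtain ⟨E, hE⟩ : ∃ E : Set M, E = ⋃ a ∈ D, (fun y : A ⊕ Fin n => ov A v y) ''
        {y | y ∈ a.vs ∧ ∃ x : A, y = Sum.inl x} := ⟨_, rfl⟩
    have hEf : E.Finite := by
      rw [hE]
      exact hD.biUnion fun a _ => (a.vs_finite.subset fun y hy => hy.1).image _
    obtain ⟨F, hF⟩ : ∃ F : Finset M, F = hEf.toFinset := ⟨_, rfl⟩
    have hFm : ∀ x, x ∈ F ↔ x ∈ E := fun x => by rw [hF]; exact hEf.mem_toFinset
    have hFA : (F : Set M) ⊆ A := by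
      intro x hx
      have h1 : x ∈ E := (hFm x).1 (Finset.mem_coe.1 hx)
      rw [hE] at h1
      simp only [mem_iUnion] at h1
      obtain ⟨a, ha, y, ⟨-, x', rfl⟩, rfl⟩ := h1
      exact x'.2
    have hb : ∀ a : D, ∃ b : At G (F ⊕ Fin n), ∀ w : Fin n → M, Tr S (ov A w) a.1 ↔
        Tr S (Sum.elim (fun x : F => (x : M)) w) b := by
      intro a
      refine LSK_pull S A n F hFA a.1 fun x hx => ?_
      rw [hFm, hE]
      simp only [mem_iUnion]
      exact ⟨a.1, a.2, Sum.inl x, ⟨hx, x, rfl⟩, rfl⟩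
    choose b hb using hb
    have hfinD : Finite D := hD
    have hD₁f : (range b).Finite := finite_range b
    obtain ⟨D₁, hD₁⟩ : ∃ D₁ : Finset (At G (F ⊕ Fin n)), D₁ = hD₁f.toFinset := ⟨_, rfl⟩
    have hD₁m : ∀ a : D, b a ∈ D₁ := fun a => by
      rw [hD₁, Set.Finite.mem_toFinset]
      exact mem_range_self a
    obtain ⟨D', hD'⟩ : ∃ D' : Finset (At G (F ⊕ Fin n)), D' = D₁.filter
      (fun c => Tr S (Sum.elim (fun x : F => (x : M)) v) c) := ⟨_, rfl⟩
    have hex : ∃ v : Fin n → M, ∀ a ∈ D₁,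
        (Tr S (Sum.elim (fun x : F => (x : M)) v) a ↔ a ∈ D') := by
      refine ⟨v, fun a ha => ?_⟩
      rw [hD', Finset.mem_filter]
      exact ⟨fun h => ⟨ha, h⟩, fun h => h.2⟩
    have e : pk F n D₁ D' = range hex.choose := dif_pos hex
    refine ⟨hex.choose, fun i => ?_, fun a ha => ?_⟩
    · refine hA F hFA (Or.inr ?_)
      simp only [mem_iUnion]
      refine ⟨n, D₁, D', ?_⟩
      rw [e]
      exact mem_range_self i
    · have h1 := hb ⟨a, ha⟩ v
      have h2 := hb ⟨a, ha⟩ hex.choose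
      have h3 := hex.choose_spec _ (hD₁m ⟨a, ha⟩)
      have h4 : b ⟨a, ha⟩ ∈ D' ↔ Tr S (Sum.elim (fun x : F => (x : M)) v) (b ⟨a, ha⟩) := by
        rw [hD', Finset.mem_filter]
        exact ⟨fun h => h.2, fun h => ⟨hD₁m _, h⟩⟩
      exact h1.trans (h4.symm.trans (h3.symm.trans h2.symm))

end UN
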