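import Pool.Agent.UN.StE

/-!
# UN, module MNE: the main statement
-/

set_option autoImplicit false
set_option linter.unusedVariables false

namespace UN

open Set

theorem thm_MNE (h1 : St_COM) (h2 : St_WLU) (h3 : St_END) : St_MNU := by
  intro G U hF hR hfin hU hP M S hS
  obtain ⟨b, hb⟩ := (hfin.image G.ar).bddAbove
  have hd : Ard G (max 2 b) := by
    refine ⟨le_max_left _ _, fun R => ?_⟩
    by_cases h : 2 ≤ G.ar R
    · exact le_trans (hb ⟨R, h, rfl⟩) (le_max_right _ _)
    · exact le_trans (by omega) (le_max_left _ _)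
  have hC : Cmt U := h1 G U _ hF hd hU hP
  exact h3 G U hF hR hU hC (h2 G U _ hF hd hU hP hC) hP hfin M S hS

end UN
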