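import Pool.Agent.UN.StC

/-!
# UN: existence of independent limits (MPR)
-/

set_option autoImplicit false
set_option linter.unusedVariables false

namespace UN

open Set Filter Pool.Agent.Helper5.DU Pool.Agent.Helper6.Str Pool.Agent.Helper79.VC
  Pool.Agent.Helper97.LO Pool.Agent.Helper97.VC

private theorem MPR_vs_map {G : Sg} {ι κ : Type} (a : At G ι) (h : ι → κ) :
    (a.map h).vs ⊆ h '' a.vs := by
  cases a with
  | eq s t =>
    rintro i (hi | hi)
    · exact ⟨s.2, Or.inl rfl, hi.symm⟩
    · exact ⟨t.2, Or.inr rfl, (mem_singleton_iff.1 hi).symm⟩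
  | rel R t =>
    rintro i ⟨k, rfl⟩
    exact ⟨(t k).2, ⟨k, rfl⟩, rfl⟩

/-- the indices which occur in an atom -/
private noncomputable def MPR_F {G : Sg} {M T ι : Type} (a : At G (M ⊕ T × ι)) : Finset T :=
  ((a.vs_finite.preimage (Sum.inr_injective.injOn)).image Prod.fst).toFinset

private theorem MPR_mem_F {G : Sg} {M T ι : Type} (a : At G (M ⊕ T × ι)) (t : T) :
    t ∈ MPR_F a ↔ ∃ r, Sum.inr (t, r) ∈ a.vs := by
  simp only [MPR_F, Finite.mem_toFinset, mem_image, mem_preimage, Prod.exists, exists_and_right,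
    exists_eq_right]

private theorem MPR_QA {G : Sg} {M T Y ι : Type} (S : Sys G M) (f : T → Y → ι → M)
    (a : At G (M ⊕ T × ι)) (y y' : T → Y) (h : ∀ t ∈ MPR_F a, y t = y' t) :
    QA S f a y ↔ QA S f a y' := by
  refine Tr_congr ?_
  rintro (m | ⟨t, r⟩) hi
  · rfl
  · simp only [Sum.elim_inr, h t ((MPR_mem_F a t).2 ⟨r, hi⟩)]

open Classical in
private theorem MPR_dep {T Y : Type} (u : T → Ultrafilter Y) (Q : (T → Y) → Prop) (E : Finset T)
    (hQ : ∀ y y', (∀ t ∈ E, y t = y' t) → (Q y ↔ Q y')) (l : List T) :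
    ∀ y y' : T → Y, (∀ t ∈ E, t ∈ l ∨ y t = y' t) → (QL u Q l y ↔ QL u Q l y') := by
  induction l with
  | nil =>
    intro y y' h
    exact hQ y y' fun t ht => (h t ht).resolve_left (List.not_mem_nil)
  | cons s l ih =>
    intro y y' h
    simp only [QL]
    refine eventually_congr (Eventually.of_forall fun z => ih _ _ fun t ht => ?_)
    by_cases hts : t = s
    · right; subst hts; simp
    · rcases h t ht with h' | h'
      · left
        exact (List.mem_cons.1 h').resolve_left hts
      · right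
        rw [Function.update_of_ne hts, Function.update_of_ne hts, h']

open Classical in
private theorem MPR_key (hB : St_QLB) (hP : St_QLP) (G : Sg) (U : ∀ M : Type, Sys G M → Prop)
    (hU : IsU U) (hC : Cmt U) (M : Type) (S : Sys G M) (hS : U M S)
    (T Y ι : Type) (u : T → Ultrafilter Y) (f : T → Y → ι → M) (a : At G (M ⊕ T × ι))
    (l : List T) (hl : l.Nodup) (hF : ∀ t ∈ MPR_F a, t ∈ l) (y y' : T → Y) :
    QL u (QA S f a) (MPR_F a).toList y ↔ QL u (QA S f a) l y' := by
  have h1 : QL u (QA S f a) l y' ↔ QL u (QA S f a) (l.filter (· ∈ MPR_F a)) y' :=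
    (hB T Y u l y').2.2.2.2.2.1 (QA S f a) (MPR_F a) (MPR_QA S f a)
  have hperm : (l.filter (· ∈ MPR_F a)).Perm (MPR_F a).toList := by
    rw [List.perm_ext_iff_of_nodup (hl.filter _) (Finset.nodup_toList _)]
    intro t
    simp only [List.mem_filter, decide_eq_true_eq, Finset.mem_toList]
    exact ⟨fun h => h.2, fun h => ⟨hF t h, h⟩⟩
  have h2 := hP G U hU hC M S hS T Y ι u f _ _ (hl.filter _) hperm a y'
  rw [h1, h2]
  exact MPR_dep u (QA S f a) (MPR_F a) (MPR_QA S f a) _ y y' fun t ht =>
    Or.inl (Finset.mem_toList.2 ht)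

open Classical in
/-- Independent limits exist. -/
theorem thm_MPR (hL : St_LIM) (hB : St_QLB) (hP : St_QLP) : St_MPR := by
  intro G U hU hC M S hS T Y ι u f
  let y₀ : T → Y := fun t => Classical.choice (nonempty_of_neBot (u t : Filter Y))
  have key := MPR_key hB hP G U hU hC M S hS T Y ι u f
  obtain ⟨N, S', e, v, hS', hv⟩ := hL G U M S hU hS (T × ι)
    (fun a => QL u (QA S f a) (MPR_F a).toList y₀) (by
      intro D hD
      let l := (hD.toFinset.biUnion MPR_F).toList
      have hl : l.Nodup := Finset.nodup_toList _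
      have h1 : QL u (fun y => ∀ a ∈ D,
          (QL u (QA S f a) (MPR_F a).toList y₀ ↔ QA S f a y)) l y₀ := by
        rw [(hB T Y u l y₀).2.2.1 _ D
          (fun a y => (QL u (QA S f a) (MPR_F a).toList y₀ ↔ QA S f a y)) hD]
        intro a ha
        have hF : ∀ t ∈ MPR_F a, t ∈ l := fun t ht =>
          Finset.mem_toList.2 (Finset.mem_biUnion.2 ⟨a, hD.mem_toFinset.2 ha, ht⟩)
        by_cases hT : QL u (QA S f a) (MPR_F a).toList y₀
        · rw [(hB T Y u l y₀).2.2.2.2.1 _ (QA S f a) (fun y => by simp [hT])]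
          exact (key a l hl hF y₀ y₀).1 hT
        · rw [(hB T Y u l y₀).2.2.2.2.1 _ (fun y => ¬ QA S f a y) (fun y => by simp [hT]),
            (hB T Y u l y₀).1]
          exact fun h => hT ((key a l hl hF y₀ y₀).2 h)
      obtain ⟨y, -, hy⟩ := (hB T Y u l y₀).2.2.2.1 _ h1
      exact ⟨fun w => f w.1 (y w.1) w.2, hy⟩)
  refine ⟨N, S', e, fun t r => v (t, r), hS', ⟨?_, ?_⟩⟩
  · intro b
    have h1 : Tr S' e b ↔ Tr S' (Sum.elim e v) (b.map Sum.inl) := by
      rw [Tr_map, Sum.elim_comp_inl]
    have hF : MPR_F (T := T) (ι := ι) (b.map (Sum.inl : M → M ⊕ T × ι)) = ∅ := by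
      rw [Finset.eq_empty_iff_forall_notMem]
      intro t ht
      obtain ⟨r, hr⟩ := (MPR_mem_F _ t).1 ht
      obtain ⟨m, -, hm⟩ := MPR_vs_map _ _ hr
      exact absurd hm (by simp)
    rw [h1, hv, hF, Finset.toList_empty]
    simp only [QL, QA]
    rw [Tr_map, Sum.elim_comp_inl]
  · intro a t
    have hx : (Sum.elim e fun w : T × ι => v (w.1, w.2)) = Sum.elim e v := rfl
    rw [hx, hv]
    -- the atoms in which the variables at `t` are replaced
    let c : Y → M ⊕ T × ι → M ⊕ T × ι := fun z w =>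
      Sum.elim Sum.inl (fun s : T × ι => if s.1 = t then Sum.inl (f t z s.2) else Sum.inr s) w
    have hc1 : ∀ z, Tr S' (Sum.elim e fun w : T × ι =>
        Function.update (fun t r => v (t, r)) t (fun r => e (f t z r)) w.1 w.2) a ↔
        QL u (QA S f (a.map (c z))) (MPR_F (a.map (c z))).toList y₀ := by
      intro z
      rw [← hv, Tr_map]
      have : (Sum.elim e v) ∘ (c z) = (Sum.elim e fun w : T × ι =>
        Function.update (fun t r => v (t, r)) t (fun r => e (f t z r)) w.1 w.2) := by
        funext w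
        rcases w with m | ⟨s, r⟩
        · rfl
        · by_cases hs : s = t
          · subst hs; simp [c]
          · simp [c, hs]
      rw [this]
    have hc2 : ∀ z y, QA S f (a.map (c z)) y ↔ QA S f a (Function.update y t z) := by
      intro z y
      simp only [QA]
      rw [Tr_map]
      have : (Sum.elim id fun w : T × ι => f w.1 (y w.1) w.2) ∘ (c z) =
          (Sum.elim id fun w : T × ι => f w.1 (Function.update y t z w.1) w.2) := by
        funext w
        rcases w with m | ⟨s, r⟩
        · rfl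
        · by_cases hs : s = t
          · subst hs; simp [c]
          · simp [c, hs]
      rw [this]
    have hc3 : ∀ z, ∀ s ∈ MPR_F (a.map (c z)), s ∈ ((MPR_F a).erase t).toList := by
      intro z s hs
      obtain ⟨r, hr⟩ := (MPR_mem_F _ s).1 hs
      obtain ⟨w, hw, hw'⟩ := MPR_vs_map _ _ hr
      rcases w with m | ⟨s', r'⟩
      · simp [c] at hw'
      · by_cases hs' : s' = t
        · simp [c, hs'] at hw'
        · simp only [c, Sum.elim_inr, hs', if_false, Sum.inr.injEq, Prod.mk.injEq] at hw'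
          obtain ⟨rfl, rfl⟩ := hw'
          exact Finset.mem_toList.2 (Finset.mem_erase.2 ⟨hs', (MPR_mem_F a s').2 ⟨r', hw⟩⟩)
    have htl : t ∉ ((MPR_F a).erase t).toList := by simp
    rw [key a (t :: ((MPR_F a).erase t).toList)
      (List.nodup_cons.2 ⟨htl, Finset.nodup_toList _⟩) (by
        intro s hs
        by_cases hst : s = t
        · exact List.mem_cons.2 (Or.inl hst)
        · exact List.mem_cons.2 (Or.inr (Finset.mem_toList.2 (Finset.mem_erase.2 ⟨hst, hs⟩))))
      y₀ y₀]
    simp only [QL]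
    refine eventually_congr (Eventually.of_forall fun z => ?_)
    rw [hc1 z, (hB T Y u _ y₀).2.2.2.2.2.2.2 (QA S f a) t z htl,
      ← (hB T Y u ((MPR_F a).erase t).toList y₀).2.2.2.2.1 _ _ (hc2 z)]
    exact (key (a.map (c z)) _ (Finset.nodup_toList _) (hc3 z) y₀ y₀).symm

end UN
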