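import Pool.Agent.UN.StB
import Pool.Agent.UN.Bas
import Pool.Agent.HER.LOF

/-!
# UN, [OCA]: the case that the rows `y` alone define the order

See `Pool/Agent/UN/StB.lean` for the statement and the proof in words.
-/

set_option autoImplicit false
set_option linter.unusedVariables false

namespace UN

open Set Filter Pool.Agent.Helper5.DU Pool.Agent.Helper6.Str Pool.Agent.Helper79.VC
  Pool.Agent.Helper97.LO Pool.Agent.Helper97.VC

section

variable {G : Sg} {M N P ι κ R₁ R₂ : Type} {S : Sys G M}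

private theorem OCA_mk_lt {d : ℕ} (c : Fin d ⊕ Fin d) {i j : ℚ} (hi : i ∈ Ioo (0 : ℚ) 1)
    (hj : j ∈ Ioo (0 : ℚ) 1) : (mk d c < i ↔ mk d c < j) ∧ (i < mk d c ↔ j < mk d c) := by
  have hi1 := hi.1
  have hi2 := hi.2
  have hj1 := hj.1
  have hj2 := hj.2
  rcases c with k | k
  · have hk : (0 : ℚ) ≤ (k : ℚ) := Nat.cast_nonneg _
    have e : mk d (Sum.inl k) = -(k : ℚ) - 1 := rfl
    rw [e]
    exact ⟨⟨fun _ => by linarith, fun _ => by linarith⟩,
      ⟨fun h => by linarith, fun h => by linarith⟩⟩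
  · have hk : (0 : ℚ) ≤ (k : ℚ) := Nat.cast_nonneg _
    have e : mk d (Sum.inr k) = (k : ℚ) + 2 := rfl
    rw [e]
    exact ⟨⟨fun h => by linarith, fun h => by linarith⟩,
      ⟨fun _ => by linarith, fun _ => by linarith⟩⟩

private theorem OCA_mk_ne {d : ℕ} (c : Fin d ⊕ Fin d) {i : ℚ} (hi : i ∈ Ioo (0 : ℚ) 1) :
    mk d c ≠ i := by
  intro h
  have hi1 := hi.1
  have hi2 := hi.2
  rcases c with k | k
  · have hk : (0 : ℚ) ≤ (k : ℚ) := Nat.cast_nonneg _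
    have e : mk d (Sum.inl k) = -(k : ℚ) - 1 := rfl
    rw [e] at h
    linarith
  · have hk : (0 : ℚ) ≤ (k : ℚ) := Nat.cast_nonneg _
    have e : mk d (Sum.inr k) = (k : ℚ) + 2 := rfl
    rw [e] at h
    linarith

/-- the type of a shape over the marks does not depend on the index -/
private theorem OCA_sh (hIPO : St_IPO) {p : P → M} {z : ℚ → ι → M} (h : Ind S p z) (d : ℕ)
    (s : κ → List G.Fn × ι) {i j : ℚ} (hi : i ∈ Ioo (0 : ℚ) 1) (hj : j ∈ Ioo (0 : ℚ) 1) :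
    Eqv S (Sum.elim (QM d p z) (sh S z s i)) S (Sum.elim (QM d p z) (sh S z s j)) := by
  have h1 := hIPO G M P ι ℚ ((Fin d ⊕ Fin d) × ι ⊕ ι) S p z h
    (Sum.elim (fun c => mk d c.1) (fun _ => i)) (Sum.elim (fun c => mk d c.1) (fun _ => j))
    (Sum.elim (fun c => c.2) id) (by
      rintro (c | r) (c' | r')
      · exact Iff.rfl
      · exact (OCA_mk_lt c.1 hi hj).1
      · exact (OCA_mk_lt c'.1 hi hj).2
      · exact ⟨fun h => absurd h (lt_irrefl _), fun h => absurd h (lt_irrefl _)⟩)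
  refine h1.words' ?_
  rintro ((c | c) | r)
  · exact ⟨[], Sum.inl c, rfl, rfl⟩
  · exact ⟨[], Sum.inr (Sum.inl c), rfl, rfl⟩
  · exact ⟨(s r).1, Sum.inr (Sum.inr (s r).2), rfl, rfl⟩

/-- the set generated by `q` and the rows `y` with index in `I` -/
private def OCA_X (S : Sys G M) (q : κ → M) (z : ℚ → R₁ ⊕ R₂ → M) (I : Set ℚ) : Set M :=
  cl S (range q ∪ {y | ∃ i ∈ I, ∃ b : R₂, y = z i (Sum.inr b)})

/-- the maximal families of the type of the rows `y` -/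
private def OCA_D (S : Sys G M) (q : κ → M) (z : ℚ → R₁ ⊕ R₂ → M) (X : Set M) :
    Set (R₂ → M) :=
  {v | (∀ b, Mx S X q (v b)) ∧ Eqv S (Sum.elim q v) S (Sum.elim q (z (1 / 2) ∘ Sum.inr))}

/-- the family `v` lives at the index `j` of `I` -/
private def OCA_L (S : Sys G M) (d : ℕ) (p : P → M) (z : ℚ → R₁ ⊕ R₂ → M) (I : Set ℚ)
    (v : R₂ → M) (j : ℚ) : Prop :=
  j ∈ I ∧ (∃ t : R₂ → List G.Fn × (R₁ ⊕ R₂), Shp S d p z Sum.inr t ∧ v = sh S z t j) ∧
    ∀ b, ∃ b', Mg S (v b) (z j (Sum.inr b'))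

/-- `v` and `v'` live at the same index -/
private def OCA_E (S : Sys G M) (q : κ → M) (z : ℚ → R₁ ⊕ R₂ → M) (X : Set M)
    (v v' : R₂ → M) : Prop :=
  ∃ v'' ∈ OCA_D S q z X, (∃ b b', Mg S (v b) (v'' b')) ∧ ∃ b b', Mg S (v'' b) (v' b')

private theorem OCA_row (hIPO : St_IPO) {p : P → M} {z : ℚ → R₁ ⊕ R₂ → M} {d : ℕ}
    (hind : Ind S p z) (hant : Ant S p fun v : ℚ × (R₁ ⊕ R₂) => z v.1 v.2) {I : Set ℚ}
    (hI : I ⊆ Ioo 0 1) {i : ℚ} (hi : i ∈ I) :
    z i ∘ Sum.inr ∈ OCA_D S (QM d p z) z (OCA_X S (QM d p z) z I) ∧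
      OCA_L S d p z I (z i ∘ Sum.inr) i := by
  have hi' := hI hi
  have hq : ∀ c (b : R₂), ¬ Gn S (QM d p z c) (z i (Sum.inr b)) := by
    rintro (c | c) b h
    · exact (hant (i, Sum.inr b)).1 c h
    · refine (hant (i, Sum.inr b)).2 (mk d c.1, c.2) ?_ h
      intro h1
      exact OCA_mk_ne c.1 hi' (congrArg Prod.fst h1)
  have he : Eqv S (Sum.elim (QM d p z) (z i ∘ Sum.inr)) S
      (Sum.elim (QM d p z) (z (1 / 2) ∘ (Sum.inr : R₂ → R₁ ⊕ R₂))) :=
    OCA_sh hIPO hind d (fun r : R₂ => (([] : List G.Fn), (Sum.inr r : R₁ ⊕ R₂))) hi'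
      ⟨by norm_num, by norm_num⟩
  refine ⟨⟨fun b => ⟨?_, fun c => hq c b, ?_⟩, he⟩, hi, ⟨fun r => ([], Sum.inr r), ?_, rfl⟩,
    fun b => ⟨b, Mg.refl _⟩⟩
  · exact subset_cl _ (Or.inr ⟨i, hi, b, rfl⟩)
  · rintro v ⟨x, hx, hxv⟩ hv
    rcases hx with ⟨c, rfl⟩ | ⟨i', hi'', b', rfl⟩
    · exact absurd (hxv.trans hv) (hq c b)
    · by_cases h1 : (i', (Sum.inr b' : R₁ ⊕ R₂)) = (i, Sum.inr b)
      · have h2 : i' = i := congrArg Prod.fst h1
        have h3 : (Sum.inr b' : R₁ ⊕ R₂) = Sum.inr b := congrArg Prod.snd h1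
        rw [h2, h3] at hxv
        exact hxv
      · exact absurd (hxv.trans hv) ((hant (i, Sum.inr b)).2 (i', Sum.inr b') h1)
  · exact Eqv.refl _

private theorem OCA_live {U : ∀ M : Type, Sys G M → Prop} {p : P → M}
    {z : ℚ → R₁ ⊕ R₂ → M} {a : At G (P ⊕ (R₁ ⊕ R₂))} {e : Prop} {d : ℕ} [Nonempty R₂]
    (hO : OG U S p z a e d) {I : Set ℚ} (hI : I ⊆ Ioo 0 1) {v : R₂ → M}
    (hv : v ∈ OCA_D S (QM d p z) z (OCA_X S (QM d p z) z I)) : ∃ j, OCA_L S d p z I v j := by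
  have h1 : ∀ b, ∃ i ∈ I, ∃ b', Mg S (v b) (z i (Sum.inr b')) := by
    intro b
    obtain ⟨⟨x, hx, hxv⟩, hq, hm⟩ := hv.1 b
    have hx' : x ∈ OCA_X S (QM d p z) z I := subset_cl _ hx
    rcases hx with ⟨c, rfl⟩ | ⟨i, hi, b', rfl⟩
    · exact absurd hxv (hq c)
    · exact ⟨i, hi, b', hm _ hx' hxv, hxv⟩
  obtain ⟨t, j, hj, hvt, hsh⟩ := hO.siy v (fun b => by
    obtain ⟨i, hi, b', h⟩ := h1 b
    exact ⟨i, hI hi, Sum.inr b', h.2⟩) hv.2
  have h2 : ∀ b, ∃ b', j ∈ I ∧ Mg S (v b) (z j (Sum.inr b')) := by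
    intro b
    obtain ⟨i, hi, b', h⟩ := h1 b
    have h3 : Gn S (z j (t b).2) (v b) := by
      rw [hvt]
      exact ⟨(t b).1, rfl⟩
    have h4 : Gn S (z j (t b).2) (z i (Sum.inr b')) := h3.trans h.1
    have h5 : (j, (t b).2) = (i, (Sum.inr b' : R₁ ⊕ R₂)) := by
      by_contra h6
      exact (hO.ant (i, Sum.inr b')).2 (j, (t b).2) h6 h4
    have h6 : j = i := congrArg Prod.fst h5
    refine ⟨b', ?_, ?_⟩
    · rw [h6]; exact hi
    · rw [h6]; exact h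
  obtain ⟨b₀⟩ := (inferInstance : Nonempty R₂)
  obtain ⟨_, hjI, _⟩ := h2 b₀
  exact ⟨j, hjI, ⟨t, hsh, hvt⟩, fun b => (h2 b).imp fun b' h => h.2⟩

private theorem OCA_same {p : P → M} {z : ℚ → R₁ ⊕ R₂ → M}
    (hant : Ant S p fun v : ℚ × (R₁ ⊕ R₂) => z v.1 v.2) {i j : ℚ} {x y : R₁ ⊕ R₂}
    (h : Gn S (z i x) (z j y)) : i = j := by
  by_contra h1
  refine (hant (j, y)).2 (i, x) ?_ h
  intro h2
  exact h1 (congrArg Prod.fst h2)

private theorem OCA_EI (hIPO : St_IPO) {U : ∀ M : Type, Sys G M → Prop} {p : P → M}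
    {z : ℚ → R₁ ⊕ R₂ → M} {a : At G (P ⊕ (R₁ ⊕ R₂))} {e : Prop} {d : ℕ} [Nonempty R₂]
    (hO : OG U S p z a e d) {I : Set ℚ} (hI : I ⊆ Ioo 0 1) {v v' : R₂ → M} {j j' : ℚ}
    (hv : OCA_L S d p z I v j) (hv' : OCA_L S d p z I v' j') :
    OCA_E S (QM d p z) z (OCA_X S (QM d p z) z I) v v' ↔ j = j' := by
  constructor
  · rintro ⟨v'', hv'', ⟨b, b', h1⟩, c, c', h2⟩
    obtain ⟨j'', hj''⟩ := OCA_live hO hI hv''
    obtain ⟨b₁, h3⟩ := hv.2.2 b
    obtain ⟨b₂, h4⟩ := hj''.2.2 b'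
    obtain ⟨b₃, h5⟩ := hj''.2.2 c
    obtain ⟨b₄, h6⟩ := hv'.2.2 c'
    have e1 : j = j'' := OCA_same hO.ant ((h3.symm.trans (h1.trans h4)).1)
    have e2 : j'' = j' := OCA_same hO.ant ((h5.symm.trans (h2.trans h6)).1)
    exact e1.trans e2
  · intro h
    subst h
    obtain ⟨b₀⟩ := (inferInstance : Nonempty R₂)
    refine ⟨z j ∘ Sum.inr, (OCA_row hIPO hO.ind hO.ant hI hv.1).1, ?_, ?_⟩
    · obtain ⟨b', h⟩ := hv.2.2 b₀
      exact ⟨b₀, b', h⟩
    · obtain ⟨b', h⟩ := hv'.2.2 b₀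
      exact ⟨b', b₀, h.symm⟩

/-- the order of the indices, seen by the atom -/
private theorem OCA_psi {U : ∀ M : Type, Sys G M → Prop} {p : P → M}
    {z : ℚ → R₁ ⊕ R₂ → M} {a : At G (P ⊕ (R₁ ⊕ R₂))} {e : Prop} {d : ℕ}
    (hO : OG U S p z a e d) {s : R₁ → List G.Fn × (R₁ ⊕ R₂)} {ρ : R₁ → R₂}
    (hs : Shp S d p z Sum.inl s) (hρ : ∀ r, (s r).2 = Sum.inr (ρ r)) {I I' : Set ℚ}
    {v v' : R₂ → M} {j j' : ℚ}
    (hv : OCA_L S d p z I v j) (hv' : OCA_L S d p z I' v' j') (hj : j ≠ j') :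
    Tr S (Sum.elim p (Sum.elim (fun r => S.w (s r).1 (v (ρ r))) v')) a ↔ (e ↔ j < j') := by
  obtain ⟨-, ⟨t, ht, rfl⟩, -⟩ := hv
  obtain ⟨-, ⟨t', ht', rfl⟩, -⟩ := hv'
  let s' : R₁ → List G.Fn × (R₁ ⊕ R₂) := fun r => ((s r).1 ++ (t (ρ r)).1, (t (ρ r)).2)
  have h1 : ∀ i, (fun r => S.w (s r).1 (sh S z t i (ρ r))) = sh S z s' i := by
    intro i
    funext r
    show S.w (s r).1 (S.w (t (ρ r)).1 (z i (t (ρ r)).2)) = S.w ((s r).1 ++ (t (ρ r)).1) _
    rw [w_append]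
  have h2 : Shp S d p z Sum.inl s' := by
    refine Eqv.trans ?_ hs
    refine Eqv.words' ht ?_
    rintro (c | r)
    · exact ⟨[], Sum.inl c, rfl, rfl⟩
    · refine ⟨(s r).1, Sum.inr (ρ r), ?_, ?_⟩
      · exact (congrFun (h1 (1 / 2)) r).symm
      · show S.w (s r).1 (z (1 / 2) (s r).2) = S.w (s r).1 (z (1 / 2) (Sum.inr (ρ r)))
        rw [hρ]
  rw [h1]
  exact hO.shp s' t' h2 ht' j j' hj

/-! ### Visibility -/

variable {S' : Sys G N}

private theorem OCA_forth {R : Type} [Finite R] {X : Set M} {X' : Set N} {γ : Ordinal.{0}}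
    {π : Set (M × N)} (h : BW S S' X X' (γ + (Nat.card R : ℕ)) π) (v : R → M)
    (hv : ∀ r, v r ∈ X) : ∃ w : R → N, (∀ r, w r ∈ X') ∧ BW S S' X X' γ (π ∪ prs v w) := by
  let E := Finite.equivFin R
  obtain ⟨y, hy, h1⟩ := BFR.forth_many _ h (fun i => v (E.symm i)) (fun i => hv _)
  refine ⟨fun r => y (E r), fun r => hy _, BFR.anti ?_ h1⟩
  rintro b (hb | ⟨r, rfl⟩)
  · exact Or.inl hb
  · refine Or.inr ⟨E r, ?_⟩
    show (v (E.symm (E r)), y (E r)) = (v r, y (E r))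
    rw [E.symm_apply_apply]

private theorem OCA_back {R : Type} [Finite R] {X : Set M} {X' : Set N} {γ : Ordinal.{0}}
    {π : Set (M × N)} (h : BW S S' X X' (γ + (Nat.card R : ℕ)) π) (w : R → N)
    (hw : ∀ r, w r ∈ X') : ∃ v : R → M, (∀ r, v r ∈ X) ∧ BW S S' X X' γ (π ∪ prs v w) := by
  let E := Finite.equivFin R
  obtain ⟨y, hy, h1⟩ := BFR.back_many _ h (fun i => w (E.symm i)) (fun i => hw _)
  refine ⟨fun r => y (E r), fun r => hy _, BFR.anti ?_ h1⟩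
  rintro b (hb | ⟨r, rfl⟩)
  · exact Or.inl hb
  · refine Or.inr ⟨E r, ?_⟩
    show (y (E r), w (E.symm (E r))) = (y (E r), w r)
    rw [E.symm_apply_apply]

private theorem OCA_visD (hVMX : St_VMX) {q : κ → M} {z : ℚ → R₁ ⊕ R₂ → M} {X X' : Set M}
    {γ : Ordinal.{0}} {π : Set (M × M)} (hγ : 1 ≤ γ) (h : BW S S X X' γ π)
    (hq : prs q q ⊆ π) {v w : R₂ → M} (hvw : prs v w ⊆ π) (hv : ∀ b, v b ∈ X)
    (hw : ∀ b, w b ∈ X') : v ∈ OCA_D S q z X ↔ w ∈ OCA_D S q z X' := by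
  have h1 : ∀ b, Mx S X q (v b) ↔ Mx S X' q (w b) := fun b =>
    hVMX G M M κ S S X X' γ π q q (v b) (w b) hγ h hq (hvw (prs_mem v w b)) (hv b) (hw b)
  have h2 : Eqv S (Sum.elim q v) S (Sum.elim q w) := by
    refine BW.eqv h ?_
    rintro (c | b)
    · exact hq (prs_mem q q c)
    · exact hvw (prs_mem v w b)
  constructor
  · rintro ⟨h3, h4⟩
    exact ⟨fun b => (h1 b).1 (h3 b), h2.symm.trans h4⟩
  · rintro ⟨h3, h4⟩
    exact ⟨fun b => (h1 b).2 (h3 b), h2.trans h4⟩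

private theorem OCA_visE (hVMX : St_VMX) [Finite R₂] {q : κ → M} {z : ℚ → R₁ ⊕ R₂ → M}
    {X X' : Set M} {π : Set (M × M)} (h : BW S S X X' (1 + (Nat.card R₂ : ℕ)) π)
    (hq : prs q q ⊆ π) {v w v' w' : R₂ → M} (hvw : prs v w ⊆ π) (hvw' : prs v' w' ⊆ π) :
    OCA_E S q z X v v' ↔ OCA_E S q z X' w w' := by
  have key : ∀ {u x : R₂ → M}, BW S S X X' 1 (π ∪ prs u x) → ∀ b b',
      (Mg S (v b) (u b') ↔ Mg S (w b) (x b')) ∧ (Mg S (u b) (v' b') ↔ Mg S (x b) (w' b')) := by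
    intro u x hux b b'
    constructor
    · have h1 : Eqv S (Sum.elim v u) S (Sum.elim w x) := by
        refine BW.eqv hux ?_
        rintro (c | c)
        · exact Or.inl (hvw (prs_mem v w c))
        · exact Or.inr (prs_mem u x c)
      exact h1.mg (Sum.inl b) (Sum.inr b')
    · have h1 : Eqv S (Sum.elim u v') S (Sum.elim x w') := by
        refine BW.eqv hux ?_
        rintro (c | c)
        · exact Or.inr (prs_mem u x c)
        · exact Or.inl (hvw' (prs_mem v' w' c))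
      exact h1.mg (Sum.inl b) (Sum.inr b')
  constructor
  · rintro ⟨u, hu, ⟨b, b', h1⟩, c, c', h2⟩
    obtain ⟨x, hx, h3⟩ := OCA_forth h u (fun r => (hu.1 r).1)
    refine ⟨x, ?_, ⟨b, b', ((key h3) b b').1.1 h1⟩, c, c', ((key h3) c c').2.1 h2⟩
    exact (OCA_visD hVMX le_rfl h3 (hq.trans subset_union_left) subset_union_right
      (fun r => (hu.1 r).1) hx).1 hu
  · rintro ⟨x, hx, ⟨b, b', h1⟩, c, c', h2⟩
    obtain ⟨u, hu, h3⟩ := OCA_back h x (fun r => (hx.1 r).1)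
    refine ⟨u, ?_, ⟨b, b', ((key h3) b b').1.2 h1⟩, c, c', ((key h3) c c').2.2 h2⟩
    exact (OCA_visD hVMX le_rfl h3 (hq.trans subset_union_left) subset_union_right hu
      (fun r => (hx.1 r).1)).2 hx

private theorem OCA_mul {γ : Ordinal.{0}} (h : γ < om1) : Ordinal.omega0.{0} * γ < om1 := by
  rw [lt_om1_iff] at h ⊢
  rw [Ordinal.card_mul]
  calc Ordinal.card Ordinal.omega0.{0} * γ.card ≤ Cardinal.aleph0 * Cardinal.aleph0 :=
        mul_le_mul' (by rw [Ordinal.card_omega0]) h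
    _ = Cardinal.aleph0 := Cardinal.aleph0_mul_aleph0

private theorem OCA_lvl {β β' : Ordinal.{0}} (h : β' < β) (n : ℕ) :
    Ordinal.omega0.{0} * (β' + 1) + (n : Ordinal.{0}) ≤ Ordinal.omega0 * (β + 1) := by
  have h1 : Ordinal.omega0.{0} * (β' + 1) + (n : Ordinal.{0}) ≤
      Ordinal.omega0 * (β' + 1) + Ordinal.omega0 :=
    add_le_add_right (Ordinal.natCast_lt_omega0 n).le _
  have h2 : Ordinal.omega0.{0} * (β' + 1) + Ordinal.omega0 = Ordinal.omega0 * (β' + 1 + 1) :=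
    (mul_add_one _ _).symm
  have h3 : β' + 1 + 1 ≤ β + 1 := by
    have : β' + 1 ≤ β := Order.add_one_le_of_lt h
    exact add_le_add_left this 1
  exact (h1.trans h2.le).trans (mul_le_mul_right h3 _)

end

/-- [OCA] the case that the rows `y` alone define the order -/
theorem thm_OCA (hIPO : St_IPO) (hVMX : St_VMX) (hLEG : St_LEG) : St_OCA := by
  intro G U M P R₁ R₂ S p z a e d hcF hPg hO
  rintro ⟨s, hs, hsr⟩
  choose ρ hρ using hsr
  have := hcF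
  have hP := hO.finP
  have hR₁ := hO.fin₁
  have hR₂ := hO.fin₂
  -- there are rows `y`
  have hne : Nonempty R₂ := by
    by_contra hne
    rw [not_nonempty_iff] at hne
    have h1 := hO.ord 0 1 (by norm_num)
    have h2 := hO.ord 0 (-1) (by norm_num)
    have h3 : (z 1 ∘ Sum.inr : R₂ → M) = z (-1) ∘ Sum.inr := funext fun b => hne.elim b
    rw [h3] at h1
    have h4 := h1.symm.trans h2
    have h5 : ((0 : ℚ) < 1) := by norm_num
    have h6 : ¬ ((0 : ℚ) < -1) := by norm_num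
    tauto
  obtain ⟨I, γ, hγ, hI, hLOF⟩ := HER.thm_LOF
  let q := QM d p z
  let X : (ℕ → Bool) → Set M := fun f => OCA_X S q z (I f)
  have hgen : ∀ f, range q ∪ {y | ∃ i ∈ I f, ∃ b : R₂, y = z i (Sum.inr b)} ⊆ X f :=
    fun f => subset_cl _
  have hzinj : ∀ (b : R₂) (i j : ℚ), z i (Sum.inr b) = z j (Sum.inr b) → i = j := by
    intro b i j h
    refine OCA_same hO.ant (x := Sum.inr b) (y := Sum.inr b) ?_
    rw [h]
    exact Gn.refl _
  have hX : ∀ f, (X f).Countable ∧ (X f).Infinite ∧ range q ⊆ X f ∧ Cl S (X f) := by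
    intro f
    refine ⟨cl_countable ?_, ?_, subset_union_left.trans (hgen f), cl_closed _⟩
    · refine Countable.union (countable_range _) ?_
      have h1 : {y | ∃ i ∈ I f, ∃ b : R₂, y = z i (Sum.inr b)} =
          ⋃ b : R₂, (fun i => z i (Sum.inr b)) '' (I f) := by
        ext y
        simp only [mem_ofPred_eq, mem_iUnion, mem_image]
        constructor
        · rintro ⟨i, hi, b, rfl⟩; exact ⟨b, i, hi, rfl⟩
        · rintro ⟨b, i, hi, rfl⟩; exact ⟨i, hi, b, rfl⟩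
      rw [h1]
      exact countable_iUnion fun b => (to_countable (I f)).image _
    · obtain ⟨b₀⟩ := hne
      have h1 : ((fun i => z i (Sum.inr b₀)) '' (I f)).Infinite :=
        (hI f).1.image fun i _ j _ h => hzinj b₀ i j h
      refine h1.mono ?_
      rintro _ ⟨i, hi, rfl⟩
      exact hgen f (Or.inr ⟨i, hi, b₀, rfl⟩)
  obtain ⟨f, f', hff, hBW⟩ := hPg M S hO.mem X (P ⊕ (Fin d ⊕ Fin d) × (R₁ ⊕ R₂)) q
    (Ordinal.omega0 * (γ + 1)) inferInstance (OCA_mul (add_one_lt_om1 hγ)) hX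
  refine hff (hLOF f f' (hLEG (I f) (I f') (fun β π => ∃ π' : Set (M × M), prs q q ⊆ π' ∧
    BW S S (X f) (X f') (Ordinal.omega0 * (β + 1)) π' ∧ ∀ c ∈ π, ∃ v w : R₂ → M,
      OCA_L S d p z (I f) v c.1 ∧ OCA_L S d p z (I f') w c.2 ∧ prs v w ⊆ π') ?_ ?_ γ
        ⟨prs q q, Subset.rfl, hBW, fun c hc => absurd hc (notMem_empty _)⟩))
  · rintro β π ⟨π', hq, hB, hπ⟩
    refine ⟨fun c hc => ?_, fun c hc c' hc' => ?_⟩
    · obtain ⟨v, w, hv, hw, -⟩ := hπ c hc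
      exact ⟨hv.1, hw.1⟩
    · obtain ⟨v, w, hv, hw, hvw⟩ := hπ c hc
      obtain ⟨v', w', hv', hw', hvw'⟩ := hπ c' hc'
      have hlvl : (1 : Ordinal.{0}) + (Nat.card R₂ : ℕ) ≤ Ordinal.omega0 * (β + 1) := by
        have h1 : (1 : Ordinal.{0}) + (Nat.card R₂ : ℕ) ≤ Ordinal.omega0 := by
          have h2 : (1 : Ordinal.{0}) + (Nat.card R₂ : ℕ) = ((1 + Nat.card R₂ : ℕ) : Ordinal.{0}) := by
            push_cast; rfl
          rw [h2]
          exact (Ordinal.natCast_lt_omega0 _).le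
        refine h1.trans ?_
        have h3 : Ordinal.omega0.{0} * 1 ≤ Ordinal.omega0 * (β + 1) :=
          mul_le_mul_right (by simp) _
        rwa [mul_one] at h3
      have h1 : c.1 = c'.1 ↔ c.2 = c'.2 := by
        rw [← OCA_EI hIPO hO (hI f).2 hv hv', ← OCA_EI hIPO hO (hI f').2 hw hw']
        exact OCA_visE hVMX (BFR.mono hlvl hB) hq hvw hvw'
      by_cases h2 : c.1 = c'.1
      · have h3 := h1.1 h2
        rw [h2, h3]
        exact ⟨fun h => absurd h (lt_irrefl _), fun h => absurd h (lt_irrefl _)⟩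
      · have h3 : c.2 ≠ c'.2 := fun h => h2 (h1.2 h)
        have h4 := OCA_psi hO hs hρ hv hv' h2
        have h5 := OCA_psi hO hs hρ hw hw' h3
        have h6 : Eqv S (Sum.elim p (Sum.elim (fun r => S.w (s r).1 (v (ρ r))) v')) S
            (Sum.elim p (Sum.elim (fun r => S.w (s r).1 (w (ρ r))) w')) := by
          have h7 : Eqv S (Sum.elim q (Sum.elim v v')) S (Sum.elim q (Sum.elim w w')) := by
            refine BW.eqv hB ?_
            rintro (x | x | x)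
            · exact hq (prs_mem q q x)
            · exact hvw (prs_mem v w x)
            · exact hvw' (prs_mem v' w' x)
          refine h7.words' ?_
          rintro (x | x | x)
          · exact ⟨[], Sum.inl (Sum.inl x), rfl, rfl⟩
          · exact ⟨(s x).1, Sum.inr (Sum.inl (ρ x)), rfl, rfl⟩
          · exact ⟨[], Sum.inr (Sum.inr x), rfl, rfl⟩
        have h7 := h6 a
        tauto
  · rintro β π ⟨π', hq, hB, hπ⟩ β' hβ
    have hlv := OCA_lvl hβ (Nat.card R₂)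
    have h1lv : (1 : Ordinal.{0}) ≤ Ordinal.omega0 * (β' + 1) := by
      have h3 : Ordinal.omega0.{0} * 1 ≤ Ordinal.omega0 * (β' + 1) :=
        mul_le_mul_right (by simp) _
      rw [mul_one] at h3
      exact Ordinal.one_lt_omega0.le.trans h3
    have hB' := BFR.mono hlv hB
    constructor
    · intro i hi
      obtain ⟨hD, hL⟩ := OCA_row hIPO (d := d) hO.ind hO.ant (hI f).2 hi
      obtain ⟨w, hw, h3⟩ := OCA_forth hB' (z i ∘ Sum.inr) (fun r => (hD.1 r).1)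
      have hwD := (OCA_visD hVMX h1lv h3 (hq.trans subset_union_left) subset_union_right
        (fun r => (hD.1 r).1) hw).1 hD
      obtain ⟨j, hj⟩ := OCA_live hO (hI f').2 hwD
      refine ⟨j, hj.1, _, hq.trans subset_union_left, h3, ?_⟩
      rintro c (rfl | hc)
      · exact ⟨_, w, hL, hj, subset_union_right⟩
      · obtain ⟨v, w, hv, hw, hvw⟩ := hπ c hc
        exact ⟨v, w, hv, hw, hvw.trans subset_union_left⟩
    · intro i hi
      obtain ⟨hD, hL⟩ := OCA_row hIPO (d := d) hO.ind hO.ant (hI f').2 hi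
      obtain ⟨v, hv, h3⟩ := OCA_back hB' (z i ∘ Sum.inr) (fun r => (hD.1 r).1)
      have hvD := (OCA_visD hVMX h1lv h3 (hq.trans subset_union_left) subset_union_right
        hv (fun r => (hD.1 r).1)).2 hD
      obtain ⟨j, hj⟩ := OCA_live hO (hI f).2 hvD
      refine ⟨j, hj.1, _, hq.trans subset_union_left, h3, ?_⟩
      rintro c (rfl | hc)
      · exact ⟨v, _, hj, hL, subset_union_right⟩
      · obtain ⟨v, w, hv, hw, hvw⟩ := hπ c hc
        exact ⟨v, w, hv, hw, hvw.trans subset_union_left⟩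

end UN
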