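import Pool.Agent.UN.StB
import Pool.Agent.UN.Bas

/-!
# UN, [OCB]: the case that the rows `x` and `y` are needed

See `Pool/Agent/UN/StB.lean` for the statement and the proof in words.
-/

set_option autoImplicit false
set_option linter.unusedVariables false

namespace UN

open Set Filter Pool.Agent.Helper5.DU Pool.Agent.Helper6.Str Pool.Agent.Helper79.VC
  Pool.Agent.Helper97.LO Pool.Agent.Helper97.VC

section

variable {G : Sg} {M N P ι κ R R₁ R₂ : Type} {S : Sys G M}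

private theorem OCB_mk_lt {d : ℕ} (c : Fin d ⊕ Fin d) {i j : ℚ} (hi : i ∈ Ioo (0 : ℚ) 1)
    (hj : j ∈ Ioo (0 : ℚ) 1) : (mk d c < i ↔ mk d c < j) ∧ (i < mk d c ↔ j < mk d c) := by
  have hi1 := hi.1
  have hi2 := hi.2
  have hj1 := hj.1
  have hj2 := hj.2
  rcases c with k | k
  · have hk : (0 : ℚ) ≤ (k : ℚ) := Nat.cast_nonneg _
    have e : mk d (Sum.inl k) = -(k : ℚ) - 1 := rfl
    rw [e]
    exact ⟨⟨fun _ => by linarith, fun _ => by linarith⟩,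
      ⟨fun h => by linarith, fun h => by linarith⟩⟩
  · have hk : (0 : ℚ) ≤ (k : ℚ) := Nat.cast_nonneg _
    have e : mk d (Sum.inr k) = (k : ℚ) + 2 := rfl
    rw [e]
    exact ⟨⟨fun h => by linarith, fun h => by linarith⟩,
      ⟨fun _ => by linarith, fun _ => by linarith⟩⟩

private theorem OCB_mk_ne {d : ℕ} (c : Fin d ⊕ Fin d) {i : ℚ} (hi : i ∈ Ioo (0 : ℚ) 1) :
    mk d c ≠ i := by
  intro h
  have hi1 := hi.1
  have hi2 := hi.2
  rcases c with k | k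
  · have hk : (0 : ℚ) ≤ (k : ℚ) := Nat.cast_nonneg _
    have e : mk d (Sum.inl k) = -(k : ℚ) - 1 := rfl
    rw [e] at h
    linarith
  · have hk : (0 : ℚ) ≤ (k : ℚ) := Nat.cast_nonneg _
    have e : mk d (Sum.inr k) = (k : ℚ) + 2 := rfl
    rw [e] at h
    linarith

/-- the type of a shape over the marks does not depend on the index -/
private theorem OCB_sh (hIPO : St_IPO) {p : P → M} {z : ℚ → ι → M} (h : Ind S p z) (d : ℕ)
    (s : κ → List G.Fn × ι) {i j : ℚ} (hi : i ∈ Ioo (0 : ℚ) 1) (hj : j ∈ Ioo (0 : ℚ) 1) :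
    Eqv S (Sum.elim (QM d p z) (sh S z s i)) S (Sum.elim (QM d p z) (sh S z s j)) := by
  have h1 := hIPO G M P ι ℚ ((Fin d ⊕ Fin d) × ι ⊕ ι) S p z h
    (Sum.elim (fun c => mk d c.1) (fun _ => i)) (Sum.elim (fun c => mk d c.1) (fun _ => j))
    (Sum.elim (fun c => c.2) id) (by
      rintro (c | r) (c' | r')
      · exact Iff.rfl
      · exact (OCB_mk_lt c.1 hi hj).1
      · exact (OCB_mk_lt c'.1 hi hj).2
      · exact ⟨fun h => absurd h (lt_irrefl _), fun h => absurd h (lt_irrefl _)⟩)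
  refine h1.words' ?_
  rintro ((c | c) | r)
  · exact ⟨[], Sum.inl c, rfl, rfl⟩
  · exact ⟨[], Sum.inr (Sum.inl c), rfl, rfl⟩
  · exact ⟨(s r).1, Sum.inr (Sum.inr (s r).2), rfl, rfl⟩

/-- the trivial shape -/
private theorem OCB_triv {p : P → M} {z : ℚ → ι → M} {d : ℕ} (ρ : κ → ι) :
    Shp S d p z ρ (fun r => (([] : List G.Fn), ρ r)) := Eqv.refl _

/-! ### The positions -/

private def OCB_h (n : ℕ) : ℚ := 1 - 1 / (2 * (n : ℚ) + 3)

private def OCB_g (n : ℕ) : ℚ := 1 - 1 / (2 * (n : ℚ) + 2)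

private theorem OCB_inv_lt {a b : ℚ} (ha : 0 < a) (hb : 0 < b) :
    1 - 1 / a < 1 - 1 / b ↔ a < b := by
  rw [sub_lt_sub_iff_left, one_div_lt_one_div hb ha]

private theorem OCB_inv_eq {a b : ℚ} (ha : 0 < a) (hb : 0 < b) (h : 1 - 1 / a = 1 - 1 / b) :
    a = b := by
  rcases lt_trichotomy a b with h1 | h1 | h1
  · exact absurd h ((OCB_inv_lt ha hb).2 h1).ne
  · exact h1
  · exact absurd h ((OCB_inv_lt hb ha).2 h1).ne'

private theorem OCB_hg (n b : ℕ) : OCB_h n < OCB_g b ↔ n < b := by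
  have hn : (0 : ℚ) ≤ (n : ℚ) := Nat.cast_nonneg _
  have hb : (0 : ℚ) ≤ (b : ℚ) := Nat.cast_nonneg _
  rw [OCB_h, OCB_g, OCB_inv_lt (by linarith) (by linarith)]
  have h1 : (2 * (n : ℚ) + 3 < 2 * (b : ℚ) + 2) ↔ 2 * n + 3 < 2 * b + 2 := by
    exact_mod_cast Iff.rfl
  rw [h1]
  omega

private theorem OCB_hg_ne (n b : ℕ) : OCB_h n ≠ OCB_g b := by
  intro h
  have hn : (0 : ℚ) ≤ (n : ℚ) := Nat.cast_nonneg _
  have hb : (0 : ℚ) ≤ (b : ℚ) := Nat.cast_nonneg _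
  have h1 := OCB_inv_eq (by linarith) (by linarith) h
  have h2 : 2 * n + 3 = 2 * b + 2 := by exact_mod_cast h1
  omega

private theorem OCB_h_inj {n m : ℕ} (h : OCB_h n = OCB_h m) : n = m := by
  have hn : (0 : ℚ) ≤ (n : ℚ) := Nat.cast_nonneg _
  have hm : (0 : ℚ) ≤ (m : ℚ) := Nat.cast_nonneg _
  have h1 := OCB_inv_eq (by linarith) (by linarith) h
  have h2 : 2 * n + 3 = 2 * m + 3 := by exact_mod_cast h1
  omega

private theorem OCB_g_inj {n m : ℕ} (h : OCB_g n = OCB_g m) : n = m := by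
  have hn : (0 : ℚ) ≤ (n : ℚ) := Nat.cast_nonneg _
  have hm : (0 : ℚ) ≤ (m : ℚ) := Nat.cast_nonneg _
  have h1 := OCB_inv_eq (by linarith) (by linarith) h
  have h2 : 2 * n + 2 = 2 * m + 2 := by exact_mod_cast h1
  omega

private theorem OCB_h_mem (n : ℕ) : OCB_h n ∈ Ioo (0 : ℚ) 1 := by
  have hn : (0 : ℚ) ≤ (n : ℚ) := Nat.cast_nonneg _
  have h1 : 0 < 1 / (2 * (n : ℚ) + 3) := by positivity
  have h2 : 1 / (2 * (n : ℚ) + 3) < 1 := by
    rw [div_lt_one (by linarith)]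
    linarith
  constructor
  · rw [OCB_h]; linarith
  · rw [OCB_h]; linarith

private theorem OCB_g_mem (n : ℕ) : OCB_g n ∈ Ioo (0 : ℚ) 1 := by
  have hn : (0 : ℚ) ≤ (n : ℚ) := Nat.cast_nonneg _
  have h1 : 0 < 1 / (2 * (n : ℚ) + 2) := by positivity
  have h2 : 1 / (2 * (n : ℚ) + 2) < 1 := by
    rw [div_lt_one (by linarith)]
    linarith
  constructor
  · rw [OCB_g]; linarith
  · rw [OCB_g]; linarith

/-! ### The sets -/

/-- the generators of the set of `f` -/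
private def OCB_G (f : ℕ → Bool) (i : ℚ) (x : R₁ ⊕ R₂) : Prop :=
  (∃ n r, i = OCB_h n ∧ x = Sum.inl r) ∨ ∃ b r, f b = true ∧ i = OCB_g b ∧ x = Sum.inr r

/-- the set of `f` -/
private def OCB_X (S : Sys G M) (q : κ → M) (z : ℚ → R₁ ⊕ R₂ → M) (f : ℕ → Bool) : Set M :=
  cl S (range q ∪ {y | ∃ i x, OCB_G f i x ∧ y = z i x})

/-- the maximal families of the type of the rows -/
private def OCB_D (S : Sys G M) (q : κ → M) (z : ℚ → R₁ ⊕ R₂ → M) (ρ : R → R₁ ⊕ R₂)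
    (X : Set M) : Set (R → M) :=
  {v | (∀ b, Mx S X q (v b)) ∧ Eqv S (Sum.elim q v) S (Sum.elim q (z (1 / 2) ∘ ρ))}

private theorem OCB_G_mem {f : ℕ → Bool} {i : ℚ} {x : R₁ ⊕ R₂} (h : OCB_G f i x) :
    i ∈ Ioo (0 : ℚ) 1 := by
  rcases h with ⟨n, r, rfl, -⟩ | ⟨b, r, -, rfl, -⟩
  · exact OCB_h_mem n
  · exact OCB_g_mem b

private theorem OCB_row (hIPO : St_IPO) {p : P → M} {z : ℚ → R₁ ⊕ R₂ → M} {d : ℕ}
    (hind : Ind S p z) (hant : Ant S p fun v : ℚ × (R₁ ⊕ R₂) => z v.1 v.2) {f : ℕ → Bool}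
    {ρ : R → R₁ ⊕ R₂} {i : ℚ} (hi : ∀ r, OCB_G f i (ρ r)) (hi' : i ∈ Ioo (0 : ℚ) 1) :
    z i ∘ ρ ∈ OCB_D S (QM d p z) z ρ (OCB_X S (QM d p z) z f) := by
  have hq : ∀ c b, ¬ Gn S (QM d p z c) (z i (ρ b)) := by
    rintro (c | c) b h
    · exact (hant (i, ρ b)).1 c h
    · refine (hant (i, ρ b)).2 (mk d c.1, c.2) ?_ h
      intro h1
      exact OCB_mk_ne c.1 hi' (congrArg Prod.fst h1)
  have he : Eqv S (Sum.elim (QM d p z) (z i ∘ ρ)) S
      (Sum.elim (QM d p z) (z (1 / 2) ∘ ρ)) :=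
    OCB_sh hIPO hind d (fun r : R => (([] : List G.Fn), ρ r)) hi'
      ⟨by norm_num, by norm_num⟩
  refine ⟨fun b => ⟨?_, fun c => hq c b, ?_⟩, he⟩
  · exact subset_cl _ (Or.inr ⟨i, ρ b, hi b, rfl⟩)
  · rintro v ⟨x, hx, hxv⟩ hv
    rcases hx with ⟨c, rfl⟩ | ⟨i', x', hx', rfl⟩
    · exact absurd (hxv.trans hv) (hq c b)
    · by_cases h1 : (i', x') = (i, ρ b)
      · have h2 : i' = i := congrArg Prod.fst h1
        have h3 : x' = ρ b := congrArg Prod.snd h1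
        rw [h2, h3] at hxv
        exact hxv
      · exact absurd (hxv.trans hv) ((hant (i, ρ b)).2 (i', x') h1)

private theorem OCB_live {p : P → M} {z : ℚ → R₁ ⊕ R₂ → M} {d : ℕ}
    (hant : Ant S p fun v : ℚ × (R₁ ⊕ R₂) => z v.1 v.2) {ρ : R → R₁ ⊕ R₂}
    (H : ∀ u : R → M, (∀ r, ∃ i ∈ Ioo (0 : ℚ) 1, ∃ r', Gn S (z i r') (u r)) →
      Eqv S (Sum.elim (QM d p z) u) S (Sum.elim (QM d p z) (z (1 / 2) ∘ ρ)) →
      ∃ s, ∃ i ∈ Ioo (0 : ℚ) 1, u = sh S z s i ∧ Shp S d p z ρ s) {f : ℕ → Bool} {v : R → M}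
    (hv : v ∈ OCB_D S (QM d p z) z ρ (OCB_X S (QM d p z) z f)) :
    ∃ s j, Shp S d p z ρ s ∧ v = sh S z s j ∧
      ∀ r, OCB_G f j (s r).2 ∧ Mg S (v r) (z j (s r).2) := by
  have h1 : ∀ b, ∃ i x, OCB_G f i x ∧ Mg S (v b) (z i x) := by
    intro b
    obtain ⟨⟨x, hx, hxv⟩, hq, hm⟩ := hv.1 b
    have hx' : x ∈ OCB_X S (QM d p z) z f := subset_cl _ hx
    rcases hx with ⟨c, rfl⟩ | ⟨i, x', hi, rfl⟩
    · exact absurd hxv (hq c)
    · exact ⟨i, x', hi, hm _ hx' hxv, hxv⟩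
  obtain ⟨s, j, hj, hvs, hsh⟩ := H v (fun b => by
    obtain ⟨i, x, hi, h⟩ := h1 b
    exact ⟨i, OCB_G_mem hi, x, h.2⟩) hv.2
  refine ⟨s, j, hsh, hvs, fun r => ?_⟩
  obtain ⟨i, x, hi, h⟩ := h1 r
  have h3 : Gn S (z j (s r).2) (v r) := by
    rw [hvs]
    exact ⟨(s r).1, rfl⟩
  have h4 : Gn S (z j (s r).2) (z i x) := h3.trans h.1
  have h5 : (j, (s r).2) = (i, x) := by
    by_contra h6
    exact (hant (i, x)).2 (j, (s r).2) h6 h4
  have h6 : j = i := congrArg Prod.fst h5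
  have h7 : (s r).2 = x := congrArg Prod.snd h5
  rw [h6, h7]
  exact ⟨hi, h⟩

/-! ### Visibility -/

variable {S' : Sys G N}

private theorem OCB_forth {X : Set M} {X' : Set N} {γ : Ordinal.{0}} [Finite R]
    {π : Set (M × N)} (h : BW S S' X X' (γ + (Nat.card R : ℕ)) π) (v : R → M)
    (hv : ∀ r, v r ∈ X) : ∃ w : R → N, (∀ r, w r ∈ X') ∧ BW S S' X X' γ (π ∪ prs v w) := by
  let E := Finite.equivFin R
  obtain ⟨y, hy, h1⟩ := BFR.forth_many _ h (fun i => v (E.symm i)) (fun i => hv _)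
  refine ⟨fun r => y (E r), fun r => hy _, BFR.anti ?_ h1⟩
  rintro b (hb | ⟨r, rfl⟩)
  · exact Or.inl hb
  · refine Or.inr ⟨E r, ?_⟩
    show (v (E.symm (E r)), y (E r)) = (v r, y (E r))
    rw [E.symm_apply_apply]

private theorem OCB_visD (hVMX : St_VMX) {q : κ → M} {z : ℚ → R₁ ⊕ R₂ → M} {ρ : R → R₁ ⊕ R₂}
    {X X' : Set M}
    {γ : Ordinal.{0}} {π : Set (M × M)} (hγ : 1 ≤ γ) (h : BW S S X X' γ π)
    (hq : prs q q ⊆ π) {v w : R → M} (hvw : prs v w ⊆ π) (hv : ∀ b, v b ∈ X)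
    (hw : ∀ b, w b ∈ X') (hD : v ∈ OCB_D S q z ρ X) : w ∈ OCB_D S q z ρ X' := by
  have h1 : ∀ b, Mx S X q (v b) ↔ Mx S X' q (w b) := fun b =>
    hVMX G M M κ S S X X' γ π q q (v b) (w b) hγ h hq (hvw (prs_mem v w b)) (hv b) (hw b)
  have h2 : Eqv S (Sum.elim q v) S (Sum.elim q w) := by
    refine BW.eqv h ?_
    rintro (c | b)
    · exact hq (prs_mem q q c)
    · exact hvw (prs_mem v w b)
  exact ⟨fun b => (h1 b).1 (hD.1 b), h2.symm.trans hD.2⟩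

/-! ### Counting -/

private theorem OCB_count (hIPO : St_IPO) (hVMX : St_VMX) {U : ∀ M : Type, Sys G M → Prop}
    {p : P → M} {z : ℚ → R₁ ⊕ R₂ → M} {a : At G (P ⊕ (R₁ ⊕ R₂))} {e : Prop} {d : ℕ}
    [Nonempty R₁] (hO : OG U S p z a e d)
    (hno : ¬ ∃ s : R₁ → List G.Fn × (R₁ ⊕ R₂), Shp S d p z Sum.inl s ∧
      ∀ r, ∃ b, (s r).2 = Sum.inr b)
    {f f' : ℕ → Bool} {π : Set (M × M)}
    (h : BW S S (OCB_X S (QM d p z) z f) (OCB_X S (QM d p z) z f') Ordinal.omega0 π)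
    (hq : prs (QM d p z) (QM d p z) ⊆ π) {t t' : R₂ → List G.Fn × (R₁ ⊕ R₂)} {b b' : ℕ}
    (ht : Shp S d p z Sum.inr t) (ht' : Shp S d p z Sum.inr t')
    (hvv : prs (sh S z t (OCB_g b)) (sh S z t' (OCB_g b')) ⊆ π) : b ≤ b' := by
  have hR₁ := hO.fin₁
  let u : Fin b × R₁ → M := fun c => z (OCB_h c.1) (Sum.inl c.2)
  have hG : ∀ (f : ℕ → Bool) (n : ℕ) (r : R₁),
      OCB_G f (OCB_h n) (Sum.inl r : R₁ ⊕ R₂) := fun f n r => Or.inl ⟨n, r, rfl, rfl⟩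
  have hu : ∀ c, u c ∈ OCB_X S (QM d p z) z f := fun c =>
    subset_cl _ (Or.inr ⟨_, _, hG f c.1 c.2, rfl⟩)
  have hlv : (1 : Ordinal.{0}) + (Nat.card (Fin b × R₁) : ℕ) ≤ Ordinal.omega0 := by
    have h2 : (1 : Ordinal.{0}) + (Nat.card (Fin b × R₁) : ℕ) =
        ((1 + Nat.card (Fin b × R₁) : ℕ) : Ordinal.{0}) := by
      push_cast; rfl
    rw [h2]
    exact (Ordinal.natCast_lt_omega0 _).le
  obtain ⟨w, hw, hB⟩ := OCB_forth (BFR.mono hlv h) u hu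
  have huD : ∀ n : Fin b, (fun r => u (n, r)) ∈
      OCB_D S (QM d p z) z Sum.inl (OCB_X S (QM d p z) z f) := fun n =>
    OCB_row hIPO hO.ind hO.ant (i := OCB_h n) (ρ := Sum.inl) (fun r => hG f n r) (OCB_h_mem n)
  have hwD : ∀ n : Fin b, (fun r => w (n, r)) ∈
      OCB_D S (QM d p z) z Sum.inl (OCB_X S (QM d p z) z f') := fun n =>
    OCB_visD hVMX le_rfl hB (hq.trans subset_union_left)
      (v := fun r => u (n, r)) (w := fun r => w (n, r))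
      (by rintro _ ⟨r, rfl⟩; exact Or.inr (prs_mem u w (n, r)))
      (fun r => hu _) (fun r => hw _) (huD n)
  have key : ∀ n : Fin b, ∃ (s : R₁ → List G.Fn × (R₁ ⊕ R₂)) (m : ℕ),
      Shp S d p z Sum.inl s ∧ (fun r => w (n, r)) = sh S z s (OCB_h m) ∧
      ∀ r, ∃ r', Mg S (w (n, r)) (z (OCB_h m) (Sum.inl r')) := by
    intro n
    obtain ⟨s, j, hs, hws, hr⟩ := OCB_live hO.ant hO.six (hwD n)
    obtain ⟨r₀⟩ := (inferInstance : Nonempty R₁)
    rcases (hr r₀).1 with ⟨m, r₁, hj, -⟩ | ⟨b₁, r₁, hf, hj, -⟩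
    · refine ⟨s, m, hs, by rw [hws, hj], fun r => ?_⟩
      rcases (hr r).1 with ⟨m', r₂, hj', hx⟩ | ⟨b₂, r₂, hf, hj', hx⟩
      · refine ⟨r₂, ?_⟩
        have h1 := (hr r).2
        rw [hx, hj] at h1
        exact h1
      · exact absurd (hj.symm.trans hj') (OCB_hg_ne _ _)
    · refine absurd ⟨s, hs, fun r => ?_⟩ hno
      rcases (hr r).1 with ⟨m', r₂, hj', hx⟩ | ⟨b₂, r₂, hf, hj', hx⟩
      · exact absurd (hj'.symm.trans hj) (OCB_hg_ne _ _)
      · exact ⟨r₂, hx⟩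
  choose s m hs hws r' hr' using key
  have hm : ∀ n : Fin b, m n < b' := by
    intro n
    have h1 : Eqv S (Sum.elim p (Sum.elim (fun r => u (n, r)) (sh S z t (OCB_g b)))) S
        (Sum.elim p (Sum.elim (fun r => w (n, r)) (sh S z t' (OCB_g b')))) := by
      refine BW.eqv hB ?_
      rintro (c | c | c)
      · exact Or.inl (hq (prs_mem (QM d p z) (QM d p z) (Sum.inl c)))
      · exact Or.inr (prs_mem u w (n, c))
      · exact Or.inl (hvv (prs_mem _ _ c))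
    have h2 := h1 a
    have h3 : (fun r => u (n, r)) = sh S z (fun r : R₁ => (([] : List G.Fn), Sum.inl r))
        (OCB_h n) := rfl
    rw [h3, hws n, hO.shp _ _ (OCB_triv Sum.inl) ht _ _ (OCB_hg_ne _ _),
      hO.shp _ _ (hs n) ht' _ _ (OCB_hg_ne _ _), OCB_hg, OCB_hg] at h2
    have h4 : (n : ℕ) < b := n.2
    tauto
  let F : Fin b × R₁ → Fin b' × R₁ := fun c => (⟨m c.1, hm c.1⟩, r' c.1 c.2)
  have hF : Function.Injective F := by
    rintro ⟨n₁, r₁⟩ ⟨n₂, r₂⟩ heq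
    have e1 : m n₁ = m n₂ := congrArg (fun c : Fin b' × R₁ => (c.1 : ℕ)) heq
    have e2 : r' n₁ r₁ = r' n₂ r₂ := congrArg Prod.snd heq
    have h1 := hr' n₁ r₁
    have h2 := hr' n₂ r₂
    rw [e1, e2] at h1
    have h3 : Mg S (w (n₁, r₁)) (w (n₂, r₂)) := h1.trans h2.symm
    have h4 : Eqv S u S w := BW.eqv hB fun c => Or.inr (prs_mem u w c)
    have h5 : Mg S (u (n₁, r₁)) (u (n₂, r₂)) := (h4.mg _ _).2 h3
    have h6 : (OCB_h n₁, (Sum.inl r₁ : R₁ ⊕ R₂)) = (OCB_h n₂, Sum.inl r₂) := by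
      by_contra h7
      exact (hO.ant (OCB_h n₂, Sum.inl r₂)).2 (OCB_h n₁, Sum.inl r₁) h7 h5.1
    have h7 : OCB_h n₁ = OCB_h n₂ := congrArg Prod.fst h6
    have h8 : (Sum.inl r₁ : R₁ ⊕ R₂) = Sum.inl r₂ := congrArg Prod.snd h6
    have h9 : n₁ = n₂ := Fin.ext (OCB_h_inj h7)
    have h10 : r₁ = r₂ := Sum.inl_injective h8
    rw [h9, h10]
  have hcard := Nat.card_le_card_of_injective F hF
  rw [Nat.card_prod, Nat.card_prod, Nat.card_fin, Nat.card_fin] at hcard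
  exact Nat.le_of_mul_le_mul_right hcard Nat.card_pos

end

/-- [OCB] the case that the rows `x` and `y` are needed -/
theorem thm_OCB (hIPO : St_IPO) (hVMX : St_VMX) : St_OCB := by
  intro G U M P R₁ R₂ S p z a e d hcF hPg hO hno
  by_contra hno2
  have := hcF
  have hP := hO.finP
  have hR₁ := hO.fin₁
  have hR₂ := hO.fin₂
  have hne₁ : Nonempty R₁ := by
    by_contra hne
    rw [not_nonempty_iff] at hne
    have h1 := hO.ord 0 1 (by norm_num)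
    have h2 := hO.ord 2 1 (by norm_num)
    have h3 : (z 0 ∘ Sum.inl : R₁ → M) = z 2 ∘ Sum.inl := funext fun b => hne.elim b
    rw [h3] at h1
    have h4 := h1.symm.trans h2
    have h5 : ((0 : ℚ) < 1) := by norm_num
    have h6 : ¬ ((2 : ℚ) < 1) := by norm_num
    tauto
  have hne₂ : Nonempty R₂ := by
    by_contra hne
    rw [not_nonempty_iff] at hne
    have h1 := hO.ord 0 1 (by norm_num)
    have h2 := hO.ord 0 (-1) (by norm_num)
    have h3 : (z 1 ∘ Sum.inr : R₂ → M) = z (-1) ∘ Sum.inr := funext fun b => hne.elim b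
    rw [h3] at h1
    have h4 := h1.symm.trans h2
    have h5 : ((0 : ℚ) < 1) := by norm_num
    have h6 : ¬ ((0 : ℚ) < -1) := by norm_num
    tauto
  let q := QM d p z
  let X : (ℕ → Bool) → Set M := fun f => OCB_X S q z f
  have hgen : ∀ f, range q ∪ {y | ∃ i x, OCB_G f i x ∧ y = z i x} ⊆ X f :=
    fun f => subset_cl _
  have hX : ∀ f, (X f).Countable ∧ (X f).Infinite ∧ range q ⊆ X f ∧ Cl S (X f) := by
    intro f
    refine ⟨cl_countable ?_, ?_, subset_union_left.trans (hgen f), cl_closed _⟩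
    · refine Countable.union (countable_range _) ?_
      refine (countable_range fun c : ℚ × (R₁ ⊕ R₂) => z c.1 c.2).mono ?_
      rintro _ ⟨i, x, -, rfl⟩
      exact ⟨(i, x), rfl⟩
    · obtain ⟨r₀⟩ := hne₁
      refine infinite_of_injective_forall_mem (f := fun n : ℕ => z (OCB_h n) (Sum.inl r₀))
        (fun n m hnm => ?_) (fun n => hgen f (Or.inr ⟨_, _, Or.inl ⟨n, r₀, rfl, rfl⟩, rfl⟩))
      have h1 : z (OCB_h n) (Sum.inl r₀) = z (OCB_h m) (Sum.inl r₀) := hnm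
      by_contra h2
      refine (hO.ant (OCB_h m, Sum.inl r₀)).2 (OCB_h n, Sum.inl r₀)
        (fun h3 => h2 (OCB_h_inj (congrArg Prod.fst h3))) ?_
      change Gn S (z (OCB_h n) (Sum.inl r₀)) (z (OCB_h m) (Sum.inl r₀))
      rw [h1]
      exact Gn.refl _
  have main : ∀ f f' : ℕ → Bool, BW S S (X f) (X f') (Ordinal.omega0 + Ordinal.omega0)
      (prs q q) → ∀ b, f b = true → f' b = true := by
    intro f f' hBW b hb
    let v : R₂ → M := z (OCB_g b) ∘ Sum.inr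
    have hvG : ∀ r : R₂, OCB_G f (OCB_g b) (Sum.inr r : R₁ ⊕ R₂) := fun r =>
      Or.inr ⟨b, r, hb, rfl, rfl⟩
    have hvX : ∀ r, v r ∈ X f := fun r => hgen f (Or.inr ⟨_, _, hvG r, rfl⟩)
    have hvD : v ∈ OCB_D S q z Sum.inr (X f) :=
      OCB_row hIPO hO.ind hO.ant (ρ := Sum.inr) hvG (OCB_g_mem b)
    have hlv : Ordinal.omega0.{0} + (Nat.card R₂ : ℕ) ≤ Ordinal.omega0 + Ordinal.omega0 :=
      add_le_add_right (Ordinal.natCast_lt_omega0 _).le _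
    obtain ⟨v', hv', hB⟩ := OCB_forth (BFR.mono hlv hBW) v hvX
    have hv'D : v' ∈ OCB_D S q z Sum.inr (X f') :=
      OCB_visD hVMX Ordinal.one_lt_omega0.le hB subset_union_left subset_union_right hvX hv' hvD
    obtain ⟨t', j, ht', hvt, hr⟩ := OCB_live hO.ant hO.siy hv'D
    obtain ⟨r₀⟩ := hne₂
    rcases (hr r₀).1 with ⟨n, r₁, hj, -⟩ | ⟨b', r₁, hf', hj, -⟩
    · refine absurd ⟨t', ht', fun r => ?_⟩ hno2
      rcases (hr r).1 with ⟨n', r₂, hj', hx⟩ | ⟨b₂, r₂, hf, hj', hx⟩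
      · exact ⟨r₂, hx⟩
      · exact absurd (hj.symm.trans hj') (OCB_hg_ne _ _)
    · have hvs : v = sh S z (fun r : R₂ => (([] : List G.Fn), Sum.inr r)) (OCB_g b) := rfl
      rw [hj] at hvt
      rw [hvs, hvt] at hB
      have h1 : b ≤ b' := OCB_count hIPO hVMX hO hno hB subset_union_left
        (OCB_triv Sum.inr) ht'
        subset_union_right
      have h2 : b' ≤ b := by
        refine OCB_count hIPO hVMX hO hno (BFR.swap hB) ?_ ht' (OCB_triv Sum.inr) ?_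
        · rintro _ ⟨c, rfl⟩
          exact Or.inl (prs_mem q q c)
        · rintro _ ⟨c, rfl⟩
          exact Or.inr (prs_mem _ _ c)
      rw [le_antisymm h1 h2]
      exact hf'
  obtain ⟨f, f', hff, hBW⟩ := hPg M S hO.mem X (P ⊕ (Fin d ⊕ Fin d) × (R₁ ⊕ R₂)) q
    (Ordinal.omega0 + Ordinal.omega0) inferInstance (add_lt_om1 omega_lt_om1 omega_lt_om1) hX
  refine hff (funext fun b => ?_)
  have h1 := main f f' hBW b
  have h2 := main f' f (BFR.symm hBW (by rintro _ ⟨c, rfl⟩; exact prs_mem q q c)) b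
  cases h3 : f b with
  | true => exact (h1 h3).symm
  | false =>
    cases h4 : f' b with
    | true => exact absurd (h2 h4) (by rw [h3]; decide)
    | false => rfl

end UN
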