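import Pool.Agent.UN.StB

/-!
# UN, module OGD: minimal configurations are good
-/

set_option autoImplicit false
set_option linter.unusedVariables false

namespace UN

open Set Filter Pool.Agent.Helper5.DU Pool.Agent.Helper6.Str Pool.Agent.Helper79.VC
  Pool.Agent.Helper97.LO Pool.Agent.Helper97.VC

section

variable {G : Sg} {M P ι κ κ' : Type} {S : Sys G M} {p : P → M} {z : ℚ → ι → M} {d : ℕ}

theorem OGD_mk (d : ℕ) (k : Fin d ⊕ Fin d) : mk d k ≤ -1 ∨ 2 ≤ mk d k := by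
  rcases k with k | k
  · left
    have h1 : (0 : ℚ) ≤ ((k : ℕ) : ℚ) := Nat.cast_nonneg _
    show -(((k : ℕ) : ℚ)) - 1 ≤ -1
    linarith
  · right
    have h1 : (0 : ℚ) ≤ ((k : ℕ) : ℚ) := Nat.cast_nonneg _
    show 2 ≤ ((k : ℕ) : ℚ) + 2
    linarith

/-- shapes at two indices of the middle part have the same type over the marks -/
theorem OGD_mv (hI : St_IPO) (h : Ind S p z) (s : κ → List G.Fn × ι) {x y : ℚ}
    (hx : x ∈ Ioo (0 : ℚ) 1) (hy : y ∈ Ioo (0 : ℚ) 1) :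
    Eqv S (Sum.elim (QM d p z) (sh S z s x)) S (Sum.elim (QM d p z) (sh S z s y)) := by
  have h1 := hI G M P ι ℚ (((Fin d ⊕ Fin d) × ι) ⊕ κ) S p z h
    (Sum.elim (fun c => mk d c.1) fun _ => x) (Sum.elim (fun c => mk d c.1) fun _ => y)
    (Sum.elim (fun c => c.2) fun k => (s k).2) (by
      rintro (c | k) (c' | k')
      · exact Iff.rfl
      · rcases OGD_mk d c.1 with h2 | h2
        · exact ⟨fun _ => by simp only [Sum.elim_inl, Sum.elim_inr]; linarith [hy.1],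
            fun _ => by simp only [Sum.elim_inl, Sum.elim_inr]; linarith [hx.1]⟩
        · exact ⟨fun h3 => by simp only [Sum.elim_inl, Sum.elim_inr] at h3; linarith [hx.2],
            fun h3 => by simp only [Sum.elim_inl, Sum.elim_inr] at h3; linarith [hy.2]⟩
      · rcases OGD_mk d c'.1 with h2 | h2
        · exact ⟨fun h3 => by simp only [Sum.elim_inl, Sum.elim_inr] at h3; linarith [hx.1],
            fun h3 => by simp only [Sum.elim_inl, Sum.elim_inr] at h3; linarith [hy.1]⟩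
        · exact ⟨fun _ => by simp only [Sum.elim_inl, Sum.elim_inr]; linarith [hy.2],
            fun _ => by simp only [Sum.elim_inl, Sum.elim_inr]; linarith [hx.2]⟩
      · simp only [Sum.elim_inr, lt_self_iff_false])
  refine h1.words' ?_
  rintro ((c | c) | k)
  · exact ⟨[], Sum.inl c, rfl, rfl⟩
  · exact ⟨[], Sum.inr (Sum.inl c), rfl, rfl⟩
  · exact ⟨(s k).1, Sum.inr (Sum.inr k), rfl, rfl⟩

/-- the type of two shapes at two indices depends only on the order of the indices -/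
theorem OGD_two (hI : St_IPO) (h : Ind S p z) (s : κ → List G.Fn × ι) (t : κ' → List G.Fn × ι)
    {i j i' j' : ℚ} (hij : i ≠ j) (hij' : i' ≠ j') (hl : i < j ↔ i' < j') :
    Eqv S (Sum.elim p (Sum.elim (sh S z s i) (sh S z t j)))
      S (Sum.elim p (Sum.elim (sh S z s i') (sh S z t j'))) := by
  have hr : j < i ↔ j' < i' := by
    constructor
    · intro h1
      rcases lt_or_gt_of_ne hij' with h2 | h2
      · exact absurd (hl.2 h2) (not_lt.2 h1.le)
      · exact h2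
    · intro h1
      rcases lt_or_gt_of_ne hij with h2 | h2
      · exact absurd (hl.1 h2) (not_lt.2 h1.le)
      · exact h2
  have h1 := hI G M P ι ℚ (κ ⊕ κ') S p z h
    (Sum.elim (fun _ => i) fun _ => j) (Sum.elim (fun _ => i') fun _ => j')
    (Sum.elim (fun k => (s k).2) fun k => (t k).2) (by
      rintro (k | k) (k' | k')
      · simp only [Sum.elim_inl, lt_self_iff_false]
      · exact hl
      · exact hr
      · simp only [Sum.elim_inr, lt_self_iff_false])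
  refine h1.words' ?_
  rintro (c | (k | k))
  · exact ⟨[], Sum.inl c, rfl, rfl⟩
  · exact ⟨(s k).1, Sum.inr (Sum.inl k), rfl, rfl⟩
  · exact ⟨(t k).1, Sum.inr (Sum.inr k), rfl, rfl⟩

theorem OGD_half : (1 / 2 : ℚ) ∈ Ioo (0 : ℚ) 1 := by
  constructor <;> norm_num

/-- the type of a shape over the elements outside of the middle part -/
theorem OGD_out (hM : St_OMK) (hd : Ard G d) (h : Ind S p z) (g : κ → ι)
    (s : κ → List G.Fn × ι) (hs : Shp S d p z g s) :
    Eqv S (Sum.elim p (Sum.elim (fun c : {i : ℚ // i ∉ Ioo (0 : ℚ) 1} × ι => z c.1 c.2)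
        (sh S z s (1 / 2))))
      S (Sum.elim p (Sum.elim (fun c : {i : ℚ // i ∉ Ioo (0 : ℚ) 1} × ι => z c.1 c.2)
        (z (1 / 2) ∘ g))) :=
  hM G M P ι κ S p z d _ _ hd h
    (fun v => Or.inr ⟨1 / 2, OGD_half, (s v).2, (s v).1, rfl⟩)
    (fun v => Or.inr ⟨1 / 2, OGD_half, g v, Gn.refl _⟩) hs

end

section

variable {G : Sg} {U : ∀ M : Type, Sys G M → Prop} {M P R₁ R₂ : Type} {S : Sys G M} {p : P → M}
  {z : ℚ → R₁ ⊕ R₂ → M} {a : At G (P ⊕ (R₁ ⊕ R₂))} {e : Prop} {d : ℕ}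

theorem OGD_six (hI : St_IPO) (hM : St_OMK) (hJ : St_OJP) (hd : Ard G d) (h : OCf U S p z a e)
    (hmin : ∀ n < Nat.card R₁ + Nat.card R₂, ¬ OC U n) (u : R₁ → M)
    (hu : ∀ r, ∃ i ∈ Ioo (0 : ℚ) 1, ∃ r', Gn S (z i r') (u r))
    (he : Eqv S (Sum.elim (QM d p z) u) S (Sum.elim (QM d p z) (z (1 / 2) ∘ Sum.inl))) :
    ∃ s, ∃ i ∈ Ioo (0 : ℚ) 1, u = sh S z s i ∧ Shp S d p z Sum.inl s := by
  have h1 := hM G M P (R₁ ⊕ R₂) R₁ S p z d u (z (1 / 2) ∘ Sum.inl) hd h.ind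
    (fun r => Or.inr (hu r)) (fun r => Or.inr ⟨1 / 2, OGD_half, Sum.inl r, Gn.refl _⟩) he
  have h2 : ∀ j ∉ Ioo (0 : ℚ) 1,
      (Tr S (Sum.elim p (Sum.elim u (z j ∘ Sum.inr))) a ↔ (e ↔ (0 : ℚ) < j)) := by
    intro j hj
    have h3 : Eqv S (Sum.elim p (Sum.elim u (z j ∘ Sum.inr)))
        S (Sum.elim p (Sum.elim (z (1 / 2) ∘ Sum.inl) (z j ∘ Sum.inr))) :=
      h1.comp' (Sum.elim Sum.inl (Sum.elim (fun r => Sum.inr (Sum.inr r))
        fun r => Sum.inr (Sum.inl (⟨j, hj⟩, Sum.inr r))))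
        (by rintro (c | (r | r)) <;> rfl) (by rintro (c | (r | r)) <;> rfl)
    have h4 : (1 / 2 : ℚ) ≠ j := by
      rintro rfl
      exact hj OGD_half
    rw [h3 a, h.ord _ _ h4]
    have h5 : (1 / 2 : ℚ) < j ↔ (0 : ℚ) < j := by
      constructor
      · intro h6; linarith
      · intro h6
        by_contra h7
        exact hj ⟨h6, by linarith⟩
    rw [h5]
  rcases hJ G U M P R₁ R₂ S p z a e u h hu h2 with ⟨i, hi, h3⟩ | ⟨n, hn, h3⟩
  · choose ρ l hl using h3
    have h4 : u = sh S z (fun r => (l r, ρ r)) i := funext hl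
    refine ⟨fun r => (l r, ρ r), i, hi, h4, ?_⟩
    rw [h4] at he
    exact (OGD_mv hI h.ind _ OGD_half hi).trans he
  · exact absurd h3 (hmin n hn)

theorem OGD_shp (hI : St_IPO) (hM : St_OMK) (hd : Ard G d) (h : OCf U S p z a e)
    {s : R₁ → List G.Fn × (R₁ ⊕ R₂)} {t : R₂ → List G.Fn × (R₁ ⊕ R₂)}
    (hs : Shp S d p z Sum.inl s) (ht : Shp S d p z Sum.inr t) {i₀ j₀ : ℚ}
    (hi : i₀ ∉ Ioo (0 : ℚ) 1) (hj : j₀ ∉ Ioo (0 : ℚ) 1) (hij : (1 / 2 < j₀) ↔ (i₀ < 1 / 2)) :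
    Tr S (Sum.elim p (Sum.elim (sh S z s (1 / 2)) (sh S z t j₀))) a ↔ (e ↔ 1 / 2 < j₀) := by
  have hj' : (1 / 2 : ℚ) ≠ j₀ := by
    rintro rfl
    exact hj OGD_half
  have hi' : i₀ ≠ 1 / 2 := by
    rintro rfl
    exact hi OGD_half
  -- replace the first shape
  have h1 : Eqv S (Sum.elim p (Sum.elim (sh S z s (1 / 2)) (sh S z t j₀)))
      S (Sum.elim p (Sum.elim (sh S z (fun r => ([], Sum.inl r)) (1 / 2)) (sh S z t j₀))) := by
    refine (OGD_out hM hd h.ind Sum.inl s hs).words' ?_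
    rintro (c | (r | r))
    · exact ⟨[], Sum.inl c, rfl, rfl⟩
    · exact ⟨[], Sum.inr (Sum.inr r), rfl, rfl⟩
    · exact ⟨(t r).1, Sum.inr (Sum.inl (⟨j₀, hj⟩, (t r).2)), rfl, rfl⟩
  -- move
  have h2 : Eqv S (Sum.elim p (Sum.elim (sh S z (fun r => ([], Sum.inl r)) (1 / 2)) (sh S z t j₀)))
      S (Sum.elim p (Sum.elim (sh S z (fun r => ([], Sum.inl r)) i₀) (sh S z t (1 / 2)))) :=
    OGD_two hI h.ind _ _ hj' hi' hij
  -- replace the second shape
  have h3 : Eqv S (Sum.elim p (Sum.elim (sh S z (fun r => ([], Sum.inl r)) i₀)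
      (sh S z t (1 / 2))))
      S (Sum.elim p (Sum.elim (z i₀ ∘ Sum.inl) (z (1 / 2) ∘ Sum.inr))) := by
    refine (OGD_out hM hd h.ind Sum.inr t ht).words' ?_
    rintro (c | (r | r))
    · exact ⟨[], Sum.inl c, rfl, rfl⟩
    · exact ⟨[], Sum.inr (Sum.inl (⟨i₀, hi⟩, Sum.inl r)), rfl, rfl⟩
    · exact ⟨[], Sum.inr (Sum.inr r), rfl, rfl⟩
  rw [h1 a, h2 a, h3 a, h.ord _ _ hi', hij]

end

theorem thm_OGD (hI : St_IPO) (hM : St_OMK) (hS : St_OSY) (hJ : St_OJP) : St_OGD := by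
  intro G U M P R₁ R₂ S p z a e d hd h hmin
  refine { toOCf := h, six := ?_, siy := ?_, shp := ?_ }
  · intro u hu he
    exact OGD_six hI hM hJ hd h hmin u hu he
  · intro u hu he
    have h' := hS G U M P R₁ R₂ S p z a e h
    have h1 : Eqv S (Sum.elim (QM d p fun i => z i ∘ Sum.swap) u)
        S (Sum.elim (QM d p fun i => z i ∘ Sum.swap) ((z (1 / 2) ∘ Sum.swap) ∘ Sum.inl)) :=
      he.comp' (Sum.elim (Sum.elim (fun c => Sum.inl (Sum.inl c))
        fun c => Sum.inl (Sum.inr (c.1, c.2.swap))) Sum.inr)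
        (by rintro ((c | c) | r) <;> rfl) (by rintro ((c | c) | r) <;> rfl)
    obtain ⟨s, i, hi, h2, h3⟩ := OGD_six hI hM hJ hd h'
      (fun n hn => hmin n (by rwa [add_comm])) u
      (fun r => by
        obtain ⟨i, hi, r', hr'⟩ := hu r
        refine ⟨i, hi, r'.swap, ?_⟩
        show Gn S (z i r'.swap.swap) (u r)
        rwa [Sum.swap_swap]) h1
    refine ⟨fun r => ((s r).1, (s r).2.swap), i, hi, h2, ?_⟩
    refine h3.comp' (Sum.elim (Sum.elim (fun c => Sum.inl (Sum.inl c))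
        fun c => Sum.inl (Sum.inr (c.1, c.2.swap))) Sum.inr) ?_ ?_
    · rintro ((c | ⟨c, r⟩) | r)
      · rfl
      · show z (mk d c) r = z (mk d c) r.swap.swap
        rw [Sum.swap_swap]
      · rfl
    · rintro ((c | ⟨c, r⟩) | r)
      · rfl
      · show z (mk d c) r = z (mk d c) r.swap.swap
        rw [Sum.swap_swap]
      · rfl
  · intro s t hs ht i j hij
    rcases lt_or_gt_of_ne hij with h1 | h1
    · have h2 := OGD_two hI h.ind s t hij (show (1 / 2 : ℚ) ≠ 3 / 2 by norm_num)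
        (iff_of_true h1 (by norm_num))
      rw [h2 a, OGD_shp hI hM hd h hs ht (i₀ := -1 / 2) (j₀ := 3 / 2)
        (fun h3 => by have := h3.1; norm_num at this)
        (fun h3 => by have := h3.2; norm_num at this) (iff_of_true (by norm_num) (by norm_num))]
      exact iff_congr Iff.rfl (iff_of_true (by norm_num) h1)
    · have h2 := OGD_two hI h.ind s t hij (show (1 / 2 : ℚ) ≠ -1 / 2 by norm_num)
        (iff_of_false (not_lt.2 h1.le) (by norm_num))
      rw [h2 a, OGD_shp hI hM hd h hs ht (i₀ := 3 / 2) (j₀ := -1 / 2)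
        (fun h3 => by have := h3.2; norm_num at this)
        (fun h3 => by have := h3.1; norm_num at this) (iff_of_false (by norm_num) (by norm_num))]
      exact iff_congr Iff.rfl (iff_of_false (by norm_num) (not_lt.2 h1.le))

end UN
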