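import Pool.Agent.UN.Bas
import Pool.Agent.UN.StB

/-!
# UN: exchange of the two kinds of rows for good configurations
-/

set_option autoImplicit false
set_option linter.unusedVariables false

namespace UN

open Set Filter Pool.Agent.Helper5.DU Pool.Agent.Helper6.Str Pool.Agent.Helper79.VC
  Pool.Agent.Helper97.LO Pool.Agent.Helper97.VC

private theorem OGS_QM {M P R₁ R₂ : Type} (d : ℕ) (p : P → M) (z : ℚ → R₁ ⊕ R₂ → M)
    (c : P ⊕ (Fin d ⊕ Fin d) × (R₂ ⊕ R₁)) :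
    QM d p (fun i => z i ∘ Sum.swap) c = QM d p z (Sum.map id (Prod.map id Sum.swap) c) := by
  rcases c with c | ⟨k, r⟩ <;> rfl

private theorem OGS_QM' {M P R₁ R₂ : Type} (d : ℕ) (p : P → M) (z : ℚ → R₁ ⊕ R₂ → M)
    (c : P ⊕ (Fin d ⊕ Fin d) × (R₁ ⊕ R₂)) :
    QM d p z c = QM d p (fun i => z i ∘ Sum.swap) (Sum.map id (Prod.map id Sum.swap) c) := by
  rcases c with c | ⟨k, r⟩
  · rfl
  · show z (mk d k) r = z (mk d k) (Sum.swap (Sum.swap r))
    rw [Sum.swap_swap]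

private theorem OGS_sh {G : Sg} {M R₁ R₂ κ : Type} (S : Sys G M) (z : ℚ → R₁ ⊕ R₂ → M)
    (s : κ → List G.Fn × (R₁ ⊕ R₂)) (i : ℚ) :
    sh S (fun i => z i ∘ Sum.swap) (fun r => ((s r).1, (s r).2.swap)) i = sh S z s i := by
  funext r
  show S.w (s r).1 (z i (Sum.swap (Sum.swap (s r).2))) = S.w (s r).1 (z i (s r).2)
  rw [Sum.swap_swap]

private theorem OGS_eqv {G : Sg} {M P R₁ R₂ κ : Type} (S : Sys G M) (d : ℕ) (p : P → M)
    (z : ℚ → R₁ ⊕ R₂ → M) (u u' : κ → M) :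
    Eqv S (Sum.elim (QM d p (fun i => z i ∘ Sum.swap)) u)
        S (Sum.elim (QM d p (fun i => z i ∘ Sum.swap)) u') ↔
      Eqv S (Sum.elim (QM d p z) u) S (Sum.elim (QM d p z) u') := by
  constructor
  · intro h
    refine h.comp' (Sum.map (Sum.map id (Prod.map id Sum.swap)) id) ?_ ?_
    · rintro (c | r)
      · exact OGS_QM' d p z c
      · rfl
    · rintro (c | r)
      · exact OGS_QM' d p z c
      · rfl
  · intro h
    refine h.comp' (Sum.map (Sum.map id (Prod.map id Sum.swap)) id) ?_ ?_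
    · rintro (c | r)
      · exact OGS_QM d p z c
      · rfl
    · rintro (c | r)
      · exact OGS_QM d p z c
      · rfl

private theorem OGS_shp {G : Sg} {M P R₁ R₂ κ : Type} (S : Sys G M) (d : ℕ) (p : P → M)
    (z : ℚ → R₁ ⊕ R₂ → M) (g : κ → R₂ ⊕ R₁) (s : κ → List G.Fn × (R₁ ⊕ R₂)) :
    Shp S d p (fun i => z i ∘ Sum.swap) g (fun r => ((s r).1, (s r).2.swap)) ↔
      Shp S d p z (Sum.swap ∘ g) s := by
  unfold Shp
  rw [OGS_sh, OGS_eqv]
  exact Iff.rfl

theorem thm_OGS (hOSY : St_OSY) : St_OGS := by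
  intro G U M P R₁ R₂ S p z a e d h
  refine ⟨hOSY G U M P R₁ R₂ S p z a e h.toOCf, ?_, ?_, ?_⟩
  · intro u hu he
    obtain ⟨s, i, hi, h1, h2⟩ := h.siy u
      (fun r => by
        obtain ⟨i, hi, r', hr⟩ := hu r
        exact ⟨i, hi, Sum.swap r', hr⟩)
      ((OGS_eqv S d p z _ _).1 he)
    exact ⟨fun r => ((s r).1, (s r).2.swap), i, hi, h1.trans (OGS_sh S z s i).symm,
      (OGS_shp S d p z Sum.inl s).2 h2⟩
  · intro u hu he
    obtain ⟨s, i, hi, h1, h2⟩ := h.six u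
      (fun r => by
        obtain ⟨i, hi, r', hr⟩ := hu r
        exact ⟨i, hi, Sum.swap r', hr⟩)
      ((OGS_eqv S d p z _ _).1 he)
    exact ⟨fun r => ((s r).1, (s r).2.swap), i, hi, h1.trans (OGS_sh S z s i).symm,
      (OGS_shp S d p z Sum.inr s).2 h2⟩
  · intro s t hs ht i j hij
    have key : ∀ (κ : Type) (s : κ → List G.Fn × (R₂ ⊕ R₁)) (g : κ → R₂ ⊕ R₁),
        Shp S d p (fun i => z i ∘ Sum.swap) g s →
        Shp S d p z (Sum.swap ∘ g) (fun r => ((s r).1, (s r).2.swap)) := by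
      intro κ s g hs
      refine (OGS_shp S d p z g fun r => ((s r).1, (s r).2.swap)).1 ?_
      have h1 : (fun r => (((s r).1, Sum.swap (Sum.swap (s r).2)) : List G.Fn × (R₂ ⊕ R₁))) =
          s := by
        funext r
        rw [Sum.swap_swap]
      show Shp S d p (fun i => z i ∘ Sum.swap) g
        (fun r => (((s r).1, Sum.swap (Sum.swap (s r).2)) : List G.Fn × (R₂ ⊕ R₁)))
      rw [h1]
      exact hs
    have h1 := h.shp _ _ (key _ t Sum.inr ht) (key _ s Sum.inl hs) j i (Ne.symm hij)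
    have h2 : (Sum.elim p (Sum.elim (sh S (fun i => z i ∘ Sum.swap) s i)
        (sh S (fun i => z i ∘ Sum.swap) t j))) ∘
        (Sum.map id Sum.swap : P ⊕ (R₁ ⊕ R₂) → P ⊕ (R₂ ⊕ R₁)) =
        Sum.elim p (Sum.elim (sh S z (fun r => ((t r).1, (t r).2.swap)) j)
          (sh S z (fun r => ((s r).1, (s r).2.swap)) i)) := by
      funext x
      rcases x with c | r | r <;> rfl
    rw [Tr_map, h2, h1]
    have h3 : j < i ↔ ¬ i < j :=
      ⟨fun hh => not_lt.2 hh.le, fun hh => lt_of_le_of_ne (not_lt.1 hh) (Ne.symm hij)⟩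
    rw [h3]
    tauto

end UN
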