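import Pool.Agent.UN.StB

/-!
# UN, OJP: smaller order configurations from families which live at several indices
-/

set_option autoImplicit false

namespace UN

open Set

private theorem OJP_below (F : Finset ℚ) (i₀ : ℚ) :
    ∃ j₀, j₀ < i₀ ∧ ∀ f ∈ F, f < i₀ → f < j₀ := by
  classical
  have hne : (insert (i₀ - 1) (F.filter (· < i₀))).Nonempty := Finset.insert_nonempty _ _
  have hm : (insert (i₀ - 1) (F.filter (· < i₀))).max' hne < i₀ := by
    rw [Finset.max'_lt_iff]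
    intro y hy
    rcases Finset.mem_insert.1 hy with rfl | hy
    · linarith
    · exact (Finset.mem_filter.1 hy).2
  obtain ⟨j₀, h1, h2⟩ := exists_between hm
  refine ⟨j₀, h2, fun f hf hfi => lt_of_le_of_lt ?_ h1⟩
  exact Finset.le_max' _ _ (Finset.mem_insert_of_mem (Finset.mem_filter.2 ⟨hf, hfi⟩))

/-- a function on the complement of a finite set which changes has a jump -/
private theorem OJP_jump (F : Finset ℚ) (v : ℚ → Prop)
    (hv : ∀ j j', j ∉ F → j' ∉ F → (∀ f ∈ F, f < j ↔ f < j') → (v j ↔ v j'))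
    (b c : ℚ) (hb : ∀ f ∈ F, b < f) (hc : c ∉ F) (hbc : ¬ (v b ↔ v c)) :
    ∃ i₀ ∈ F, ∃ j₀ j₁, j₀ < i₀ ∧ i₀ < j₁ ∧ (∀ f ∈ F, f ≠ i₀ → f < j₀ ∨ j₁ < f) ∧
      ¬ (v j₀ ↔ v j₁) := by
  classical
  by_contra hcon
  have hbF : b ∉ F := fun h => lt_irrefl _ (hb b h)
  have key : ∀ (n : ℕ) (j : ℚ), j ∉ F → (F.filter (· < j)).card = n → (v b ↔ v j) := by
    intro n
    induction n using Nat.strong_induction_on with
    | _ n ih =>
      intro j hj hn
      by_cases hne : (F.filter (· < j)).Nonempty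
      · have hi := Finset.max'_mem _ hne
        set i₀ := (F.filter (· < j)).max' hne with hi₀
        obtain ⟨hiF, hij⟩ := Finset.mem_filter.1 hi
        obtain ⟨j₀, hj₀, hlow⟩ := OJP_below F i₀
        have hj₀F : j₀ ∉ F := fun h => lt_irrefl _ (hlow j₀ h hj₀)
        have hlt : (F.filter (· < j₀)).card < n := by
          rw [← hn]
          refine Finset.card_lt_card ((Finset.ssubset_iff_of_subset ?_).2 ⟨i₀, hi, ?_⟩)
          · intro f hf
            rw [Finset.mem_filter] at hf ⊢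
            exact ⟨hf.1, hf.2.trans (hj₀.trans hij)⟩
          · intro hf
            exact lt_asymm (Finset.mem_filter.1 hf).2 hj₀
        refine (ih _ hlt j₀ hj₀F rfl).trans ?_
        by_contra hval
        refine hcon ⟨i₀, hiF, j₀, j, hj₀, hij, ?_, hval⟩
        intro f hf hfi
        rcases lt_or_gt_of_ne hfi with h | h
        · exact Or.inl (hlow f hf h)
        · refine Or.inr (lt_of_le_of_ne ?_ fun h' => hj (by rw [h']; exact hf))
          by_contra hfj
          have hle : f ≤ i₀ := by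
            rw [hi₀]
            exact Finset.le_max' (F.filter (· < j)) f (Finset.mem_filter.2 ⟨hf, not_le.1 hfj⟩)
          exact absurd h (not_lt.2 hle)
      · refine hv b j hbF hj fun f hf => ?_
        have h1 : ¬ f < b := lt_asymm (hb f hf)
        have h2 : ¬ f < j := fun h => hne ⟨f, Finset.mem_filter.2 ⟨hf, h⟩⟩
        exact ⟨fun h => absurd h h1, fun h => absurd h h2⟩
  exact hbc (key _ c hc rfl)

private theorem OJP_emb (j₀ j₁ : ℚ) (h : j₀ < j₁) :
    ∃ g : ℚ → Bool → ℚ, (∀ k b, j₀ < g k b ∧ g k b < j₁) ∧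
      ∀ k b k' b', g k b < g k' b' ↔ k < k' ∨ (k = k' ∧ b < b') := by
  have : Nontrivial (Ioo j₀ j₁) := by
    obtain ⟨x, hx1, hx2⟩ := exists_between h
    obtain ⟨y, hy1, hy2⟩ := exists_between hx2
    exact ⟨⟨⟨x, hx1, hx2⟩, ⟨y, hx1.trans hy1, hy2⟩, fun h => hy1.ne (congrArg Subtype.val h)⟩⟩
  have : Countable (ℚ ×ₗ Bool) := inferInstanceAs (Countable (ℚ × Bool))
  obtain ⟨f⟩ := Order.embedding_from_countable_to_dense (ℚ ×ₗ Bool) (Ioo j₀ j₁)
  refine ⟨fun k b => (f (toLex (k, b)) : ℚ), fun k b => (f (toLex (k, b))).2, fun k b k' b' => ?_⟩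
  rw [Subtype.coe_lt_coe, f.lt_iff_lt, Prod.Lex.toLex_lt_toLex]

theorem thm_OJP (hIPO : St_IPO) : St_OJP := by
  classical
  intro G U M P R₁ R₂ S p z a e u hC hu hval
  have hf₁ := hC.fin₁
  have hf₂ := hC.fin₂
  have hfP := hC.finP
  choose i hiI ρ l hl using hu
  by_cases hsame : ∃ i₀ ∈ Ioo (0 : ℚ) 1, ∀ r, i r = i₀
  · obtain ⟨i₀, hi₀, h⟩ := hsame
    refine Or.inl ⟨i₀, hi₀, fun r => ⟨ρ r, l r, ?_⟩⟩
    rw [← h r]
    exact hl r
  refine Or.inr ?_
  -- the value of the atom for the family with positions `k` and the row at `j`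
  let T : (R₁ → ℚ) → ℚ → Prop := fun k j =>
    Tr S (Sum.elim p (Sum.elim (fun r => S.w (l r) (z (k r) (ρ r))) (z j ∘ Sum.inr))) a
  have hTT : ∀ (k k' : R₁ → ℚ) (j j' : ℚ), (∀ r r', k r < k r' ↔ k' r < k' r') →
      (∀ r, k r < j ↔ k' r < j') → (∀ r, j < k r ↔ j' < k' r) → (T k j ↔ T k' j') := by
    intro k k' j j' h1 h2 h3
    have h4 := hIPO G M P (R₁ ⊕ R₂) ℚ (R₁ ⊕ R₂) S p z hC.ind (Sum.elim k fun _ => j)
      (Sum.elim k' fun _ => j') (Sum.elim ρ Sum.inr) (by
        rintro (r | b) (r' | b')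
        · exact h1 r r'
        · exact h2 r
        · exact h3 r'
        · exact ⟨fun h => absurd h (lt_irrefl _), fun h => absurd h (lt_irrefl _)⟩)
    have h5 : Eqv S (Sum.elim p (Sum.elim (fun r => S.w (l r) (z (k r) (ρ r))) (z j ∘ Sum.inr)))
        S (Sum.elim p (Sum.elim (fun r => S.w (l r) (z (k' r) (ρ r))) (z j' ∘ Sum.inr))) := by
      refine h4.words' ?_
      rintro (c | r | b)
      · exact ⟨[], Sum.inl c, rfl, rfl⟩
      · exact ⟨l r, Sum.inr (Sum.inl r), rfl, rfl⟩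
      · exact ⟨[], Sum.inr (Sum.inr b), rfl, rfl⟩
    exact h5 a
  have hu' : u = fun r => S.w (l r) (z (i r) (ρ r)) := funext hl
  have hTi : ∀ j ∉ Ioo (0 : ℚ) 1, (T i j ↔ (e ↔ (0 : ℚ) < j)) := by
    intro j hj
    have := hval j hj
    rw [hu'] at this
    exact this
  have : Fintype R₁ := Fintype.ofFinite R₁
  let F : Finset ℚ := Finset.univ.image i
  have hF : ∀ r, i r ∈ F := fun r => Finset.mem_image_of_mem i (Finset.mem_univ r)
  have hF01 : ∀ f ∈ F, 0 < f ∧ f < 1 := by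
    intro f hf
    obtain ⟨r, -, rfl⟩ := Finset.mem_image.1 hf
    exact hiI r
  obtain ⟨i₀, hi₀F, j₀, j₁, hj₀, hj₁, hgap, hjump⟩ := OJP_jump F (T i) (by
      intro j j' hj hj' hjj
      have h0 : ∀ r, i r ≠ j := fun r h => hj (h ▸ hF r)
      have h0' : ∀ r, i r ≠ j' := fun r h => hj' (h ▸ hF r)
      refine hTT i i j j' (fun _ _ => Iff.rfl) (fun r => hjj _ (hF r)) fun r => ?_
      have h1 := hjj _ (hF r)
      constructor
      · intro h
        exact lt_of_le_of_ne (not_lt.1 fun h' => lt_asymm h (h1.2 h')) (h0' r).symm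
      · intro h
        exact lt_of_le_of_ne (not_lt.1 fun h' => lt_asymm h (h1.1 h')) (h0 r).symm)
    (-1) 2 (fun f hf => by linarith [(hF01 f hf).1]) (fun h => by linarith [(hF01 2 h).2]) (by
      rw [hTi (-1) (fun h => by linarith [h.1]), hTi 2 (fun h => by linarith [h.2])]
      intro h
      have h1 : ¬ (0 : ℚ) < -1 := by norm_num
      have h2 : (0 : ℚ) < 2 := by norm_num
      tauto)
  obtain ⟨g, hg1, hg2⟩ := OJP_emb j₀ j₁ (hj₀.trans hj₁)
  have hgap' : ∀ r, i r ≠ i₀ → i r < j₀ ∨ j₁ < i r := fun r hr => hgap _ (hF r) hr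
  -- the positions outside of the gap
  have hout : ∀ (x t t' : ℚ), (x < j₀ ∨ j₁ < x) → (j₀ ≤ t ∧ t ≤ j₁) → (j₀ ≤ t' ∧ t' ≤ j₁) →
      ((x < t ↔ x < t') ∧ (t < x ↔ t' < x)) := by
    intro x t t' hx ht ht'
    rcases hx with hx | hx
    · exact ⟨⟨fun _ => hx.trans_le ht'.1, fun _ => hx.trans_le ht.1⟩,
        ⟨fun h => absurd (h.trans hx) (not_lt.2 ht.1), fun h => absurd (h.trans hx) (not_lt.2 ht'.1)⟩⟩
    · exact ⟨⟨fun h => absurd (hx.trans h) (not_lt.2 ht.2), fun h => absurd (hx.trans h)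
        (not_lt.2 ht'.2)⟩, ⟨fun _ => ht'.2.trans_lt hx, fun _ => ht.2.trans_lt hx⟩⟩
  have hgI : ∀ k b, j₀ ≤ g k b ∧ g k b ≤ j₁ := fun k b => ⟨(hg1 k b).1.le, (hg1 k b).2.le⟩
  have hgne : ∀ (r : R₁), i r ≠ i₀ → ∀ k b, i r ≠ g k b := by
    intro r hr k b h
    rcases hgap' r hr with h1 | h1
    · exact absurd (h ▸ (hg1 k b).1) (not_lt.2 h1.le)
    · exact absurd (h ▸ (hg1 k b).2) (not_lt.2 h1.le)
  have hginj : ∀ k b k' b', g k b = g k' b' → k = k' ∧ b = b' := by
    intro k b k' b' h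
    have h1 := (hg2 k b k' b').not.1 (by rw [h]; exact lt_irrefl _)
    have h2 := (hg2 k' b' k b).not.1 (by rw [h]; exact lt_irrefl _)
    have hk : k = k' := le_antisymm (not_lt.1 fun h => h2 (Or.inl h))
      (not_lt.1 fun h => h1 (Or.inl h))
    subst hk
    exact ⟨rfl, le_antisymm (not_lt.1 fun h => h2 (Or.inr ⟨rfl, h⟩))
      (not_lt.1 fun h => h1 (Or.inr ⟨rfl, h⟩))⟩
  let R' : Type := {x : R₁ ⊕ R₂ // ∃ r, i r = i₀ ∧ ρ r = x}
  let row : R' ⊕ R₂ → R₁ ⊕ R₂ := Sum.elim Subtype.val Sum.inr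
  let z' : ℚ → R' ⊕ R₂ → M := fun k y => z (g k y.isRight) (row y)
  let p' : P ⊕ {r : R₁ // i r ≠ i₀} → M := Sum.elim p fun r => z (i r) (ρ r)
  let s : P ⊕ (R₁ ⊕ R₂) → List G.Fn × ((P ⊕ {r : R₁ // i r ≠ i₀}) ⊕ (R' ⊕ R₂)) :=
    Sum.elim (fun c => ([], Sum.inl (Sum.inl c))) (Sum.elim
      (fun r => if hr : i r = i₀ then (l r, Sum.inr (Sum.inl ⟨ρ r, r, hr, rfl⟩))
        else (l r, Sum.inl (Sum.inr ⟨r, hr⟩)))
      (fun b => ([], Sum.inr (Sum.inr b))))
  have hcard : Nat.card R' + Nat.card R₂ < Nat.card R₁ + Nat.card R₂ := by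
    obtain ⟨r₀, -, hr₀⟩ := Finset.mem_image.1 hi₀F
    have hi₀ : i₀ ∈ Ioo (0 : ℚ) 1 := hr₀ ▸ hiI r₀
    have hex : ∃ r₁, i r₁ ≠ i₀ := by
      by_contra hcon
      exact hsame ⟨i₀, hi₀, fun r => not_not.1 fun h => hcon ⟨r, h⟩⟩
    obtain ⟨r₁, hr₁⟩ := hex
    have h1 : Nat.card R' ≤ Nat.card {r : R₁ // i r = i₀} :=
      Nat.card_le_card_of_surjective (fun r => (⟨ρ r.1, r.1, r.2, rfl⟩ : R')) (by
        rintro ⟨x, r, hr, hx⟩
        exact ⟨⟨r, hr⟩, Subtype.ext hx⟩)
    have h2 : Nat.card {r : R₁ // i r = i₀} < Nat.card R₁ := by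
      rw [Nat.card_eq_fintype_card, Nat.card_eq_fintype_card]
      exact Fintype.card_subtype_lt (x := r₁) hr₁
    omega
  refine ⟨_, hcard, M, S, P ⊕ {r : R₁ // i r ≠ i₀}, R', R₂, p', z', a.sub s, T i j₁, ?_, rfl⟩
  refine ⟨hC.mem, inferInstance, inferInstance, hf₂, ?_, ?_, ?_⟩
  · -- indiscernible
    intro n i' j' hi' hj'
    have h1 := hIPO G M P (R₁ ⊕ R₂) ℚ ({r : R₁ // i r ≠ i₀} ⊕ (Fin n × (R' ⊕ R₂))) S p z hC.ind
      (Sum.elim (fun r => i r) fun v => g (i' v.1) v.2.isRight)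
      (Sum.elim (fun r => i r) fun v => g (j' v.1) v.2.isRight)
      (Sum.elim (fun r => ρ r) fun v => row v.2) (by
        rintro (r | v) (r' | v')
        · exact Iff.rfl
        · exact (hout _ _ _ (hgap' r r.2) (hgI _ _) (hgI _ _)).1
        · exact (hout _ _ _ (hgap' r' r'.2) (hgI _ _) (hgI _ _)).2
        · simp only [Sum.elim_inr]
          rw [hg2, hg2, hi'.lt_iff_lt, hj'.lt_iff_lt, hi'.injective.eq_iff, hj'.injective.eq_iff])
    refine h1.comp' (fun y => match y with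
      | Sum.inl (Sum.inl c) => Sum.inl c
      | Sum.inl (Sum.inr r) => Sum.inr (Sum.inl r)
      | Sum.inr v => Sum.inr (Sum.inr v)) ?_ ?_
    · rintro ((c | r) | v) <;> rfl
    · rintro ((c | r) | v) <;> rfl
  · -- antichain
    rintro ⟨k, y⟩
    constructor
    · rintro (c | r)
      · exact (hC.ant (g k y.isRight, row y)).1 c
      · exact (hC.ant (g k y.isRight, row y)).2 (i r, ρ r) fun h =>
          hgne r r.2 k y.isRight (congrArg Prod.fst h)
    · rintro ⟨k', y'⟩ hne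
      refine (hC.ant (g k y.isRight, row y)).2 (g k' y'.isRight, row y') fun h => hne ?_
      obtain ⟨hk, hb⟩ := hginj _ _ _ _ (congrArg Prod.fst h)
      have hrow : row y' = row y := congrArg Prod.snd h
      subst hk
      congr 1
      rcases y' with x' | b' <;> rcases y with x | b
      · exact congrArg Sum.inl (Subtype.ext hrow)
      · cases hb
      · cases hb
      · exact congrArg Sum.inr (Sum.inr_injective hrow)
  · -- order
    intro k k' hkk
    rw [Tr_sub]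
    let kk : R₁ → ℚ := fun r => if i r = i₀ then g k false else i r
    have h1 : (fun y => S.w (s y).1 (Sum.elim p' (Sum.elim (z' k ∘ Sum.inl) (z' k' ∘ Sum.inr))
        (s y).2)) =
        Sum.elim p (Sum.elim (fun r => S.w (l r) (z (kk r) (ρ r))) (z (g k' true) ∘ Sum.inr)) := by
      funext y
      rcases y with c | r | b
      · rfl
      · by_cases hr : i r = i₀
        · simp only [s, kk, Sum.elim_inr, Sum.elim_inl, dif_pos hr, if_pos hr]
          rfl
        · simp only [s, kk, Sum.elim_inr, Sum.elim_inl, dif_neg hr, if_neg hr]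
          rfl
      · rfl
    rw [h1]
    change T kk (g k' true) ↔ _
    have hi₀I : j₀ ≤ i₀ ∧ i₀ ≤ j₁ := ⟨hj₀.le, hj₁.le⟩
    have hord : ∀ r r', kk r < kk r' ↔ i r < i r' := by
      intro r r'
      by_cases hr : i r = i₀ <;> by_cases hr' : i r' = i₀
      · simp only [kk, if_pos hr, if_pos hr', hr, hr', lt_irrefl]
      · simp only [kk, if_pos hr, if_neg hr', hr]
        exact (hout _ _ _ (hgap' r' hr') (hgI _ _) hi₀I).2
      · simp only [kk, if_neg hr, if_pos hr', hr']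
        exact (hout _ _ _ (hgap' r hr) (hgI _ _) hi₀I).1
      · simp only [kk, if_neg hr, if_neg hr']
    rcases lt_or_gt_of_ne hkk with hlt | hgt
    · have h2 : T kk (g k' true) ↔ T i j₁ := by
        have h3 : g k false < g k' true := (hg2 _ _ _ _).2 (Or.inl hlt)
        refine hTT _ _ _ _ hord (fun r => ?_) fun r => ?_
        · by_cases hr : i r = i₀
          · simp only [kk, if_pos hr, hr]
            exact ⟨fun _ => hj₁, fun _ => h3⟩
          · simp only [kk, if_neg hr]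
            exact (hout _ _ _ (hgap' r hr) (hgI _ _) ⟨(hj₀.trans hj₁).le, le_rfl⟩).1
        · by_cases hr : i r = i₀
          · simp only [kk, if_pos hr, hr]
            exact ⟨fun h => absurd h (lt_asymm h3), fun h => absurd h (lt_asymm hj₁)⟩
          · simp only [kk, if_neg hr]
            exact (hout _ _ _ (hgap' r hr) (hgI _ _) ⟨(hj₀.trans hj₁).le, le_rfl⟩).2
      rw [h2]
      exact ⟨fun h => ⟨fun _ => hlt, fun _ => h⟩, fun h => h.2 hlt⟩
    · have h2 : T kk (g k' true) ↔ T i j₀ := by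
        have h3 : g k' true < g k false := (hg2 _ _ _ _).2 (Or.inl hgt)
        refine hTT _ _ _ _ hord (fun r => ?_) fun r => ?_
        · by_cases hr : i r = i₀
          · simp only [kk, if_pos hr, hr]
            exact ⟨fun h => absurd h (lt_asymm h3), fun h => absurd h (lt_asymm hj₀)⟩
          · simp only [kk, if_neg hr]
            exact (hout _ _ _ (hgap' r hr) (hgI _ _) ⟨le_rfl, (hj₀.trans hj₁).le⟩).1
        · by_cases hr : i r = i₀
          · simp only [kk, if_pos hr, hr]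
            exact ⟨fun _ => hj₀, fun _ => h3⟩
          · simp only [kk, if_neg hr]
            exact (hout _ _ _ (hgap' r hr) (hgI _ _) ⟨le_rfl, (hj₀.trans hj₁).le⟩).2
      rw [h2]
      have h4 : ¬ k < k' := lt_asymm hgt
      tauto

end UN
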