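import Pool.Agent.UN.StB

/-!
# UN [OLL]: there are no order configurations
-/

set_option autoImplicit false
set_option linter.unusedVariables false

namespace UN

open Set Filter Pool.Agent.Helper5.DU Pool.Agent.Helper6.Str Pool.Agent.Helper79.VC
  Pool.Agent.Helper97.LO Pool.Agent.Helper97.VC

/-- There are no order configurations. -/
theorem thm_OLL (h1 : St_OGD) (h2 : St_OGS) (h3 : St_OCA) (h4 : St_OCB) : St_OLL := by
  classical
  intro G U d hc hd hU hP n hn
  have hex : ∃ n, OC U n := ⟨n, hn⟩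
  obtain ⟨m, hm, hmin⟩ : ∃ m, OC U m ∧ ∀ k < m, ¬ OC U k :=
    ⟨Nat.find hex, Nat.find_spec hex, fun k hk => Nat.find_min hex hk⟩
  obtain ⟨M, S, P, R₁, R₂, p, z, a, e, hO, rfl⟩ := hm
  have hG : OG U S p z a e d := h1 G U M P R₁ R₂ S p z a e d hd hO hmin
  have hA := h3 G U M P R₁ R₂ S p z a e d hc hP hG
  obtain ⟨s, hs, hr⟩ := h4 G U M P R₁ R₂ S p z a e d hc hP hG hA
  have hG' := h2 G U M P R₁ R₂ S p z a e d hG
  refine h3 G U M P R₂ R₁ S p _ _ _ d hc hP hG' ⟨fun r => ((s r).1, (s r).2.swap), ?_, ?_⟩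
  · refine Eqv.comp' hs (Sum.map (Sum.map id (Prod.map id Sum.swap)) id) ?_ ?_
    · rintro ((c | ⟨c, x⟩) | r)
      · rfl
      · rfl
      · simp [sh]
    · rintro ((c | ⟨c, x⟩) | r)
      · rfl
      · rfl
      · rfl
  · intro r
    obtain ⟨b, hb⟩ := hr r
    exact ⟨b, by simp [hb]⟩

end UN
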