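import Pool.Agent.UN.StB
import Mathlib.Order.CountableDenseLinearOrder
import Mathlib.Data.Prod.Lex

/-!
# UN: module OLR

An indiscernible sequence on which an atom defines the order gives an order configuration.
-/

set_option autoImplicit false
set_option linter.unusedVariables false

namespace UN

open Set Filter Pool.Agent.Helper5.DU Pool.Agent.Helper6.Str Pool.Agent.Helper79.VC
  Pool.Agent.Helper97.LO Pool.Agent.Helper97.VC

/-- the hypothesis on a sequence: indiscernible, finitely many rows, an atom defines the order -/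
private structure OLRc {G : Sg} {M P ι : Type} (U : ∀ M : Type, Sys G M → Prop) (S : Sys G M)
    (p : P → M) (z : ℚ → ι → M) (a : At G (P ⊕ (ι ⊕ ι))) (e : Prop) : Prop where
  mem : U M S
  finP : Finite P
  finι : Finite ι
  ind : Ind S p z
  ord : ∀ i j, i ≠ j → (Tr S (Sum.elim p (Sum.elim (z i) (z j))) a ↔ (e ↔ i < j))

open Classical in
/-- removal of a row which is a word of a parameter or of another row -/
private theorem OLR_red {G : Sg} {M P P' ι : Type} {U : ∀ M : Type, Sys G M → Prop} {S : Sys G M}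
    {p : P → M} {z : ℚ → ι → M} {a : At G (P ⊕ (ι ⊕ ι))} {e : Prop} (H : OLRc U S p z a e)
    (r : ι) (p' : P' → M) (h : P → P') (hp : ∀ c, p c = p' (h c)) (fP : Finite P')
    (l : List G.Fn) (v : P' ⊕ {x : ι // x ≠ r})
    (hv : ∀ i, z i r = S.w l (Sum.elim p' (fun x : {x : ι // x ≠ r} => z i x) v))
    (hI : Ind S p' (fun i (x : {x : ι // x ≠ r}) => z i x)) :
    ∃ a' : At G (P' ⊕ ({x : ι // x ≠ r} ⊕ {x : ι // x ≠ r})),
      OLRc U S p' (fun i (x : {x : ι // x ≠ r}) => z i x) a' e := by
  have := H.finι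
  let c1 : P' ⊕ {x : ι // x ≠ r} → P' ⊕ ({x : ι // x ≠ r} ⊕ {x : ι // x ≠ r}) :=
    Sum.elim Sum.inl (fun x => Sum.inr (Sum.inl x))
  let c2 : P' ⊕ {x : ι // x ≠ r} → P' ⊕ ({x : ι // x ≠ r} ⊕ {x : ι // x ≠ r}) :=
    Sum.elim Sum.inl (fun x => Sum.inr (Sum.inr x))
  let s1 : ι → List G.Fn × (P' ⊕ ({x : ι // x ≠ r} ⊕ {x : ι // x ≠ r})) := fun x =>
    if hx : x = r then (l, c1 v) else ([], Sum.inr (Sum.inl ⟨x, hx⟩))
  let s2 : ι → List G.Fn × (P' ⊕ ({x : ι // x ≠ r} ⊕ {x : ι // x ≠ r})) := fun x =>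
    if hx : x = r then (l, c2 v) else ([], Sum.inr (Sum.inr ⟨x, hx⟩))
  let σ : P ⊕ (ι ⊕ ι) → List G.Fn × (P' ⊕ ({x : ι // x ≠ r} ⊕ {x : ι // x ≠ r})) :=
    Sum.elim (fun c => ([], Sum.inl (h c))) (Sum.elim s1 s2)
  refine ⟨a.sub σ, H.mem, fP, inferInstance, hI, fun i j hij => ?_⟩
  rw [Tr_sub]
  have key : (fun k => S.w (σ k).1 ((Sum.elim p' (Sum.elim
      (fun x : {x : ι // x ≠ r} => z i x) (fun x : {x : ι // x ≠ r} => z j x)) : _ → M) (σ k).2)) =
      Sum.elim p (Sum.elim (z i) (z j)) := by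
    funext k
    rcases k with c | x | x
    · simp only [σ, Sum.elim_inl, hp, w_nil]
    · by_cases hx : x = r
      · subst hx
        simp only [σ, s1, Sum.elim_inr, Sum.elim_inl, dif_pos]
        rw [hv i]
        rcases v with c | y <;> rfl
      · simp only [σ, s1, Sum.elim_inr, Sum.elim_inl, dif_neg hx, w_nil]
    · by_cases hx : x = r
      · subst hx
        simp only [σ, s2, Sum.elim_inr, dif_pos]
        rw [hv j]
        rcases v with c | y <;> rfl
      · simp only [σ, s2, Sum.elim_inr, dif_neg hx, w_nil]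
  rw [key]
  exact H.ord i j hij

private theorem OLR_card {ι : Type} (hf : Finite ι) (r : ι) :
    Nat.card {x : ι // x ≠ r} < Nat.card ι := by
  classical
  have := Fintype.ofFinite ι
  rw [Nat.card_eq_fintype_card, Nat.card_eq_fintype_card]
  exact Fintype.card_subtype_lt (x := r) (by simp)

/-- the rows without `r` are indiscernible over the same parameters -/
private theorem OLR_indsub {G : Sg} {M P ι : Type} {S : Sys G M} {p : P → M} {z : ℚ → ι → M}
    (hI : Ind S p z) (r : ι) : Ind S p (fun i (x : {x : ι // x ≠ r}) => z i x) := by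
  intro n i j hi hj
  refine (hI n i j hi hj).comp' (Sum.map id (fun v : Fin n × {x : ι // x ≠ r} => (v.1, v.2.1)))
    ?_ ?_ <;>
  · rintro (c | v) <;> rfl

/-- a row which is constant may be added to the parameters -/
private theorem OLR_indconst {G : Sg} {M P ι : Type} {S : Sys G M} {p : P → M} {z : ℚ → ι → M}
    (h : St_IPO) (hI : Ind S p z) (r r' : ι) (c : M) (l : List G.Fn)
    (hc : ∀ m, c = S.w l (z m r')) :
    Ind S (fun o : Option P => o.elim c p) (fun i (x : {x : ι // x ≠ r}) => z i x) := by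
  intro n i j hi hj
  obtain ⟨m, hm⟩ : ∃ m : ℚ, ∀ k, i k < m := by
    obtain ⟨m, hm⟩ := (Set.finite_range i).bddAbove
    exact ⟨m + 1, fun k => lt_of_le_of_lt (hm ⟨k, rfl⟩) (lt_add_one m)⟩
  obtain ⟨m', hm'⟩ : ∃ m : ℚ, ∀ k, j k < m := by
    obtain ⟨m, hm⟩ := (Set.finite_range j).bddAbove
    exact ⟨m + 1, fun k => lt_of_le_of_lt (hm ⟨k, rfl⟩) (lt_add_one m)⟩
  have h1 := h G M P ι ℚ (Option (Fin n × ι)) S p z hI
    (fun o => o.elim m (fun v => i v.1)) (fun o => o.elim m' (fun v => j v.1))
    (fun o => o.elim r' (fun v => v.2)) (by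
      rintro (_ | v) (_ | v')
      · simp
      · simp only [Option.elim_none, Option.elim_some]
        exact ⟨fun hh => absurd (hm v'.1) (not_lt.2 hh.le),
          fun hh => absurd (hm' v'.1) (not_lt.2 hh.le)⟩
      · simp only [Option.elim_none, Option.elim_some]
        exact ⟨fun _ => hm' v.1, fun _ => hm v.1⟩
      · simp only [Option.elim_some]
        rw [hi.lt_iff_lt, hj.lt_iff_lt])
  refine h1.words' ?_
  rintro ((_ | c') | v)
  · exact ⟨l, Sum.inr none, hc m, hc m'⟩
  · exact ⟨[], Sum.inl c', rfl, rfl⟩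
  · exact ⟨[], Sum.inr (some (v.1, v.2.1)), rfl, rfl⟩

/-- doubling of an antichain -/
private theorem OLR_double {G : Sg} {M P ι : Type} {U : ∀ M : Type, Sys G M → Prop} {S : Sys G M}
    {p : P → M} {z : ℚ → ι → M} {a : At G (P ⊕ (ι ⊕ ι))} {e : Prop} (h : St_IPO)
    (H : OLRc U S p z a e) (hA : Ant S p fun v : ℚ × ι => z v.1 v.2) : ∃ n, OC U n := by
  have hcb : Countable (ℚ ×ₗ Bool) := (toLex (α := ℚ × Bool)).symm.countable_iff.2 inferInstance
  obtain ⟨g⟩ := Order.embedding_from_countable_to_dense (α := ℚ ×ₗ Bool) (β := ℚ)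
  have hlt : ∀ (i j : ℚ) (b b' : Bool),
      g (toLex (i, b)) < g (toLex (j, b')) ↔ i < j ∨ (i = j ∧ b < b') := by
    intro i j b b'
    rw [g.lt_iff_lt, Prod.Lex.toLex_lt_toLex]
  let z' : ℚ → ι ⊕ ι → M := fun i =>
    Sum.elim (z (g (toLex (i, false)))) (z (g (toLex (i, true))))
  let q : ℚ → ι ⊕ ι → ℚ × ι := fun i =>
    Sum.elim (fun x => (g (toLex (i, false)), x)) (fun x => (g (toLex (i, true)), x))
  have hq : ∀ v : ℚ × (ι ⊕ ι), z' v.1 v.2 = z (q v.1 v.2).1 (q v.1 v.2).2 := by
    rintro ⟨i, x | x⟩ <;> rfl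
  have hinj : ∀ v v' : ℚ × (ι ⊕ ι), v' ≠ v → q v'.1 v'.2 ≠ q v.1 v.2 := by
    rintro ⟨i, x | x⟩ ⟨j, y | y⟩ hne heq <;> apply hne <;>
      simp only [q, Sum.elim_inl, Sum.elim_inr, Prod.mk.injEq, EmbeddingLike.apply_eq_iff_eq,
        Prod.mk.injEq, toLex_inj, Bool.false_eq_true, reduceCtorEq, and_false, and_true,
        false_and] at heq
    · rw [heq.1, heq.2]
    · rw [heq.1, heq.2]
  refine ⟨_, M, S, P, ι, ι, p, z', a, e, ⟨H.mem, H.finP, H.finι, H.finι, ?_, ?_, ?_⟩, rfl⟩
  · intro n i j hi hj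
    have h1 := h G M P ι ℚ (Fin n × (ι ⊕ ι)) S p z H.ind
      (fun v => (q (i v.1) v.2).1) (fun v => (q (j v.1) v.2).1) (fun v => (q (i v.1) v.2).2) (by
        rintro ⟨k, x | x⟩ ⟨k', y | y⟩ <;>
          simp only [q, Sum.elim_inl, Sum.elim_inr, hlt, hi.lt_iff_lt, hj.lt_iff_lt,
            hi.injective.eq_iff, hj.injective.eq_iff])
    refine h1.words' ?_
    rintro (c | ⟨k, x | x⟩)
    · exact ⟨[], Sum.inl c, rfl, rfl⟩
    · exact ⟨[], Sum.inr (k, Sum.inl x), rfl, rfl⟩
    · exact ⟨[], Sum.inr (k, Sum.inr x), rfl, rfl⟩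
  · intro v
    refine ⟨fun c hc => ?_, fun v' hv' hg => ?_⟩
    · have hc' : Gn S (p c) (z' v.1 v.2) := hc
      rw [hq] at hc'
      exact (hA (q v.1 v.2)).1 c hc'
    · have hg' : Gn S (z' v'.1 v'.2) (z' v.1 v.2) := hg
      rw [hq, hq] at hg'
      exact (hA (q v.1 v.2)).2 (q v'.1 v'.2) (hinj v v' hv') hg'
  · intro i j hij
    have h1 := H.ord (g (toLex (i, false))) (g (toLex (j, true))) (by
      intro heq
      have := g.injective heq
      simp at this)
    have h2 : g (toLex (i, false)) < g (toLex (j, true)) ↔ i < j := by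
      rw [hlt]
      simp [hij]
    rw [h2] at h1
    exact h1

private theorem OLR_main (h : St_IPO) : ∀ (n : ℕ) {G : Sg} {M P ι : Type}
    {U : ∀ M : Type, Sys G M → Prop} {S : Sys G M} {p : P → M} {z : ℚ → ι → M}
    {a : At G (P ⊕ (ι ⊕ ι))} {e : Prop}, OLRc U S p z a e → Nat.card ι = n → ∃ n, OC U n := by
  intro n
  induction n using Nat.strong_induction_on with
  | _ n ih =>
    intro G M P ι U S p z a e H hn
    have fι := H.finι
    have fP := H.finP
    subst hn
    by_cases h1 : ∃ c i r, Gn S (p c) (z i r)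
    · -- a row generated by a parameter
      obtain ⟨c, i, r, l, hl⟩ := h1
      have hall : ∀ j, z j r = S.w l (p c) := by
        intro j
        have h2 := h G M P ι ℚ Unit S p z H.ind (fun _ => i) (fun _ => j) (fun _ => r) (by simp)
        exact (h2.w_eq [] l (Sum.inr ()) (Sum.inl c)).1 hl
      obtain ⟨a', ha'⟩ := OLR_red H r p id (fun _ => rfl) fP l (Sum.inl c) hall
        (OLR_indsub H.ind r)
      exact ih _ (OLR_card fι r) ha' rfl
    by_cases h2 : ∃ i j r' r, j ≠ i ∧ Gn S (z j r') (z i r)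
    · -- a row generated at another position: constant
      obtain ⟨i, j, r', r, hji, l, hl⟩ := h2
      have hex : ∃ c, (∀ i', z i' r = c) ∧ ∀ m, c = S.w l (z m r') := by
        have step : ∀ i' j' : ℚ, (i' < j' ↔ i < j) → i' ≠ j' → z i' r = S.w l (z j' r') := by
          intro i' j' hij hne
          have h3 := h G M P ι ℚ Bool S p z H.ind (fun b => if b then i else j)
            (fun b => if b then i' else j') (fun b => if b then r else r') (by
              intro b b'
              cases b <;> cases b' <;> simp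
              · rcases lt_trichotomy i' j' with hlt | heq | hgt
                · have := hij.1 hlt
                  exact ⟨fun hh => absurd hh (not_lt.2 this.le),
                    fun hh => absurd hh (not_lt.2 hlt.le)⟩
                · exact absurd heq hne
                · have h4 : ¬ i < j := fun hh => absurd (hij.2 hh) (not_lt.2 hgt.le)
                  have h5 : j < i := lt_of_le_of_ne (not_lt.1 h4) hji
                  exact ⟨fun _ => hgt, fun _ => h5⟩
              · exact hij.symm)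
          have h6 := (h3.w_eq [] l (Sum.inr true) (Sum.inr false)).1 (by simpa [w_nil] using hl)
          simpa [w_nil] using h6
        rcases lt_or_gt_of_ne hji with hlt | hlt
        · -- j < i
          have st : ∀ i' j' : ℚ, j' < i' → z i' r = S.w l (z j' r') := fun i' j' hh =>
            step i' j' ⟨fun h7 => absurd h7 (not_lt.2 hh.le), fun h7 => absurd h7 (not_lt.2 hlt.le)⟩
              hh.ne'
          have hcst : ∀ i', z i' r = z 0 r := by
            intro i'
            obtain ⟨m, hm⟩ := exists_lt (min i' 0)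
            rw [st i' m (lt_of_lt_of_le hm (min_le_left _ _)),
              st 0 m (lt_of_lt_of_le hm (min_le_right _ _))]
          refine ⟨z 0 r, hcst, fun m => ?_⟩
          obtain ⟨m', hm'⟩ := exists_gt m
          rw [← hcst m', st m' m hm']
        · -- i < j
          have st : ∀ i' j' : ℚ, i' < j' → z i' r = S.w l (z j' r') := fun i' j' hh =>
            step i' j' ⟨fun _ => hlt, fun _ => hh⟩ hh.ne
          have hcst : ∀ i', z i' r = z 0 r := by
            intro i'
            obtain ⟨m, hm⟩ := exists_gt (max i' 0)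
            rw [st i' m (lt_of_le_of_lt (le_max_left _ _) hm),
              st 0 m (lt_of_le_of_lt (le_max_right _ _) hm)]
          refine ⟨z 0 r, hcst, fun m => ?_⟩
          obtain ⟨m', hm'⟩ := exists_lt m
          rw [← hcst m', st m' m hm']
      obtain ⟨c, hc1, hc2⟩ := hex
      obtain ⟨a', ha'⟩ := OLR_red H r (fun o : Option P => o.elim c p) some (fun _ => rfl)
        inferInstance [] (Sum.inl none) (fun i' => hc1 i')
        (OLR_indconst h H.ind r r' c l hc2)
      exact ih _ (OLR_card fι r) ha' rfl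
    by_cases h3 : ∃ i r' r, r' ≠ r ∧ Gn S (z i r') (z i r)
    · -- a row generated by another row at the same position
      obtain ⟨i, r', r, hr, l, hl⟩ := h3
      have hall : ∀ j, z j r = S.w l (z j r') := by
        intro j
        have h4 := h G M P ι ℚ Bool S p z H.ind (fun _ => i) (fun _ => j)
          (fun b => if b then r else r') (by simp)
        have h5 := (h4.w_eq [] l (Sum.inr true) (Sum.inr false)).1 (by simpa [w_nil] using hl)
        simpa [w_nil] using h5
      obtain ⟨a', ha'⟩ := OLR_red H r p id (fun _ => rfl) fP l (Sum.inr ⟨r', hr⟩)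
        (fun j => hall j) (OLR_indsub H.ind r)
      exact ih _ (OLR_card fι r) ha' rfl
    -- the antichain case
    refine OLR_double h H ?_
    rintro ⟨i, r⟩
    refine ⟨fun c hc => h1 ⟨c, i, r, hc⟩, ?_⟩
    rintro ⟨j, r'⟩ hne hg
    by_cases hji : j = i
    · subst hji
      exact h3 ⟨j, r', r, fun hr => hne (by rw [hr]), hg⟩
    · exact h2 ⟨i, j, r', r, hji, hg⟩

theorem thm_OLR (h : St_IPO) : St_OLR := by
  intro G U M P ι S p z a e hU fP fι hI ho
  exact OLR_main h _ ⟨hU, fP, fι, hI, ho⟩ rfl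

end UN
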