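import Pool.Agent.UN.Bas
import Pool.Agent.UN.StB

/-!
# UN: exchange of the two kinds of rows
-/

set_option autoImplicit false
set_option linter.unusedVariables false

namespace UN

open Set Filter Pool.Agent.Helper5.DU Pool.Agent.Helper6.Str Pool.Agent.Helper79.VC
  Pool.Agent.Helper97.LO Pool.Agent.Helper97.VC

theorem thm_OSY : St_OSY := by
  intro G U M P R₁ R₂ S p z a e h
  refine ⟨h.mem, h.finP, h.fin₂, h.fin₁, ?_, ?_, ?_⟩
  · intro n i j hi hj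
    refine (h.ind n i j hi hj).comp' (Sum.map id (Prod.map id Sum.swap)) ?_ ?_
    · rintro (c | ⟨k, r⟩) <;> rfl
    · rintro (c | ⟨k, r⟩) <;> rfl
  · rintro ⟨i, r⟩
    refine ⟨fun c => (h.ant (i, r.swap)).1 c, ?_⟩
    rintro ⟨j, r'⟩ hne
    refine (h.ant (i, r.swap)).2 (j, r'.swap) fun hh => hne ?_
    have h1 := congrArg Prod.fst hh
    have h2 := congrArg Prod.snd hh
    simp only at h1 h2
    have h3 : r' = r := by
      have := congrArg Sum.swap h2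
      simpa using this
    rw [h1, h3]
  · intro i j hij
    have h1 : (Sum.elim p (Sum.elim ((z i ∘ Sum.swap) ∘ Sum.inl) ((z j ∘ Sum.swap) ∘ Sum.inr))) ∘
        (Sum.map id Sum.swap : P ⊕ (R₁ ⊕ R₂) → P ⊕ (R₂ ⊕ R₁)) =
        Sum.elim p (Sum.elim (z j ∘ Sum.inl) (z i ∘ Sum.inr)) := by
      funext x
      rcases x with c | r | r <;> rfl
    rw [Tr_map]
    show Tr S ((Sum.elim p (Sum.elim ((z i ∘ Sum.swap) ∘ Sum.inl) ((z j ∘ Sum.swap) ∘ Sum.inr))) ∘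
        (Sum.map id Sum.swap : P ⊕ (R₁ ⊕ R₂) → P ⊕ (R₂ ⊕ R₁))) a ↔ _
    rw [h1, h.ord j i (Ne.symm hij)]
    have h2 : j < i ↔ ¬ i < j :=
      ⟨fun hh => not_lt.2 hh.le, fun hh => lt_of_le_of_ne (not_lt.1 hh) (Ne.symm hij)⟩
    rw [h2]
    tauto

end UN
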