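import Pool.Agent.UN.StA
import Pool.Agent.Helper22.VCM.C2b

/-!
# UN [PGU]: pigeonhole for closed subsets
-/

set_option autoImplicit false
set_option linter.unusedVariables false

namespace UN

open Set Filter Pool.Agent.Helper5.DU Pool.Agent.Helper6.Str Pool.Agent.Helper79.VC
  Pool.Agent.Helper97.LO Pool.Agent.Helper97.VC

/-- a closed subset enumerated by `ℕ` is a member of the class -/
theorem PGU_mem {G : Sg} {U : ∀ M : Type, Sys G M → Prop} (hU : IsU U) {M : Type} {S : Sys G M}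
    (hS : U M S) {e : ℕ → M} (he : Function.Injective e) (hc : Cl S (range e)) :
    pl (WS S) e ∈ KU U := by
  have h1 : ∀ (g : G.Fn) (n : ℕ), ∃ m, e m = S.fn g (e n) := fun g n => hc g _ ⟨n, rfl⟩
  choose T hT using h1
  obtain ⟨S', hS'⟩ : ∃ S' : Sys G ℕ, S' = ⟨T, fun R v => S.rel R (e ∘ v)⟩ := ⟨_, rfl⟩
  have hfn : ∀ g n, e (S'.fn g n) = S.fn g (e n) := by
    intro g n
    rw [hS']
    exact hT g n
  have hrel : ∀ R v, S'.rel R v ↔ S.rel R (e ∘ v) := by
    intro R v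
    rw [hS']
  have hw : ∀ (l : List G.Fn) (n : ℕ), e (S'.w l n) = S.w l (e n) := by
    intro l n
    induction l with
    | nil => rfl
    | cons g l ih => rw [w_cons, w_cons, hfn, ih]
  have hTr : ∀ (ι : Type) (v : ι → ℕ) (a : At G ι), Tr S' v a ↔ Tr S (e ∘ v) a := by
    intro ι v a
    cases a with
    | eq s t =>
      simp only [Tr, Function.comp_apply]
      rw [← hw, ← hw]
      exact he.eq_iff.symm
    | rel R t =>
      simp only [Tr, hrel, Function.comp_apply]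
      have h2 : (e ∘ fun k => S'.w (t k).1 (v (t k).2)) =
          fun k => S.w (t k).1 (e (v (t k).2)) := by
        funext k
        exact hw _ _
      rw [h2]
  refine ⟨S', hU.loc ℕ S' ⟨0⟩ fun n v D _ => ⟨M, S, hS, e ∘ v, fun a _ => hTr _ v a⟩, ?_⟩
  refine FirstOrder.Language.Structure.ext ?_ ?_
  · funext n f
    exact isEmptyElim f
  · funext n a v
    exact propext (hTr _ v a).symm

theorem thm_PGU : St_PGU := by
  classical
  intro G U _ _ hU hK M S hS X Q q γ _ hγ hX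
  have he : ∀ f, ∃ e : ℕ → M, Function.Injective e ∧ range e = X f := by
    intro f
    obtain ⟨h1, h2, h3, h4⟩ := hX f
    have := h1.to_subtype
    have := h2.to_subtype
    obtain ⟨e⟩ := nonempty_equiv_of_countable (α := ℕ) (β := X f)
    refine ⟨fun n => (e n : M), fun a b hab => e.injective (Subtype.ext hab), ?_⟩
    ext x
    constructor
    · rintro ⟨n, rfl⟩
      exact (e n).2
    · intro hx
      exact ⟨e.symm ⟨x, hx⟩, by simp⟩
  choose e he1 he2 using he
  have hmem : ∀ f, pl (WS S) (e f) ∈ KU U := by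
    intro f
    refine PGU_mem hU hS (he1 f) ?_
    rw [he2]
    exact (hX f).2.2.2
  obtain ⟨E⟩ : Nonempty (Q ≃ Fin (Nat.card Q)) := ⟨Finite.equivFin Q⟩
  obtain ⟨c, hc⟩ : ∃ c : Fin (Nat.card Q) → M, c = fun i => q (E.symm i) := ⟨_, rfl⟩
  have hcs : ∀ x, ∃ i, c i = q x := fun x => ⟨E x, by rw [hc]; simp⟩
  have hv : ∀ f, ∀ i, ∃ n, e f n = c i := by
    intro f i
    have h1 : c i ∈ range (e f) := by
      rw [he2, hc]
      exact (hX f).2.2.1 ⟨_, rfl⟩
    exact h1
  choose v hv using hv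
  obtain ⟨ρ, hρ⟩ := hK γ hγ (Nat.card Q)
  have hm : ∀ f, ∃ m, BFR (pl (WS S) (e f)) (ρ m).1 univ univ γ (pr (v f) (ρ m).2) := by
    intro f
    obtain ⟨m, -, hm⟩ := hρ _ (hmem f) (v f)
    exact ⟨m, hm⟩
  choose m hm using hm
  have hni : ¬ Function.Injective m := fun h => not_injective_cantor m h
  unfold Function.Injective at hni
  push Not at hni
  obtain ⟨f, g, hfg, hne⟩ := hni
  refine ⟨f, g, hne, ?_⟩
  have h1 : ∀ f, BFR (WS S) (ρ (m f)).1 (X f) univ γ
      (range fun i => (c i, (ρ (m f)).2 i)) := by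
    intro f
    have h2 : BFR (pl (WS S) (e f)) (WS S) univ (X f) γ (range fun i => (v f i, c i)) := by
      have := BFR_pl (S := WS S) (he1 f) γ (p := range fun i => (v f i, c i)) (by
        rintro _ ⟨i, rfl⟩
        exact (hv f i).symm)
      rwa [he2] at this
    have h3 : BFR (WS S) (pl (WS S) (e f)) (X f) univ γ (range fun i => (c i, v f i)) := by
      refine h2.symm ?_
      rintro _ ⟨i, rfl⟩
      exact ⟨i, rfl⟩
    refine h3.trans (hm f) ?_
    rintro _ ⟨i, rfl⟩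
    exact ⟨v f i, ⟨i, rfl⟩, ⟨i, rfl⟩⟩
  have h4 : BFR (WS S) (ρ (m f)).1 (X g) univ γ (range fun i => (c i, (ρ (m f)).2 i)) := by
    rw [hfg]
    exact h1 g
  have h5 : BFR (ρ (m f)).1 (WS S) univ (X g) γ (range fun i => ((ρ (m f)).2 i, c i)) := by
    refine h4.symm ?_
    rintro _ ⟨i, rfl⟩
    exact ⟨i, rfl⟩
  refine (h1 f).trans h5 ?_
  rintro _ ⟨x, rfl⟩
  obtain ⟨i, hi⟩ := hcs x
  refine ⟨(ρ (m f)).2 i, ⟨i, ?_⟩, ⟨i, ?_⟩⟩
  · show (c i, (ρ (m f)).2 i) = (q x, (ρ (m f)).2 i)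
    rw [hi]
  · show ((ρ (m f)).2 i, c i) = ((ρ (m f)).2 i, q x)
    rw [hi]

end UN
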