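import Pool.Agent.UN.StC

/-!
# UN: families with the same types have the same type in the limit (PRE)
-/

set_option autoImplicit false
set_option linter.unusedVariables false

namespace UN

open Set Filter Pool.Agent.Helper5.DU Pool.Agent.Helper6.Str Pool.Agent.Helper79.VC
  Pool.Agent.Helper97.LO Pool.Agent.Helper97.VC

private theorem PRE_vs_map {G : Sg} {ι κ : Type} (a : At G ι) (h : ι → κ) :
    (a.map h).vs ⊆ h '' a.vs := by
  cases a with
  | eq s t =>
    rintro i (hi | hi)
    · exact ⟨s.2, Or.inl rfl, hi.symm⟩
    · exact ⟨t.2, Or.inr rfl, (mem_singleton_iff.1 hi).symm⟩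
  | rel R t =>
    rintro i ⟨k, rfl⟩
    exact ⟨(t k).2, ⟨k, rfl⟩, rfl⟩

open Classical in
/-- for almost all choices the values are different -/
private theorem PRE_inj {T Y : Type} (u : T → Ultrafilter Y)
    (hu : ∀ t y, ∀ᶠ z in (u t : Filter Y), z ≠ y) (l : List T) :
    ∀ (E : Set T) (y : T → Y), E.Finite → (∀ t ∈ E, t ∉ l) → l.Nodup → InjOn y E →
      QL u (fun y => InjOn y (E ∪ {t | t ∈ l})) l y := by
  induction l with
  | nil =>
    intro E y hE hd hl hy
    have : E ∪ {t | t ∈ ([] : List T)} = E := by simp
    simp only [QL, this]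
    exact hy
  | cons t l ih =>
    intro E y hE hd hl hy
    obtain ⟨htl, hl'⟩ := List.nodup_cons.1 hl
    have htE : t ∉ E := fun h => hd t h (List.mem_cons.2 (Or.inl rfl))
    simp only [QL]
    have h1 : ∀ᶠ z in (u t : Filter Y), ∀ s ∈ E, z ≠ y s :=
      (eventually_all_finite hE).2 fun s _ => hu t (y s)
    refine h1.mono fun z hz => ?_
    have h2 : InjOn (Function.update y t z) (insert t E) := by
      intro s hs s' hs' h
      rcases hs with rfl | hs
      · rcases hs' with rfl | hs'
        · rfl
        · have hne : s' ≠ s := fun h' => htE (h' ▸ hs')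
          rw [Function.update_self, Function.update_of_ne hne] at h
          exact absurd h (hz s' hs')
      · have hne : s ≠ t := fun h' => htE (h' ▸ hs)
        rcases hs' with rfl | hs'
        · rw [Function.update_self, Function.update_of_ne hne] at h
          exact absurd h.symm (hz s hs)
        · have hne' : s' ≠ t := fun h' => htE (h' ▸ hs')
          rw [Function.update_of_ne hne, Function.update_of_ne hne'] at h
          exact hy hs hs' h
    have h3 := ih (insert t E) (Function.update y t z) (hE.insert t) (by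
      rintro s (rfl | hs)
      · exact htl
      · exact fun h => hd s hs (List.mem_cons.2 (Or.inr h))) hl' h2
    have h4 : insert t E ∪ {s | s ∈ l} = E ∪ {s | s ∈ t :: l} := by
      ext s
      simp only [mem_union, mem_insert_iff, List.mem_cons, mem_ofPred_eq]
      tauto
    rwa [h4] at h3

open Classical in
/-- Families which have the same type over some parameters for all choices have the same type over
them in the limit. -/
theorem thm_PRE (hR : St_PRQ) (hB : St_QLB) : St_PRE := by
  intro G M N T Y ι V P S u f S' e x hPR hu c t r r' hE a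
  let y₀ : T → Y := fun t => Classical.choice (nonempty_of_neBot (u t : Filter Y))
  let F : Finset T := ((a.vs_finite.preimage (Sum.inr_injective.injOn)).image t).toFinset
  have hF : ∀ v, Sum.inr v ∈ a.vs → t v ∈ F.toList := fun v hv =>
    Finset.mem_toList.2 ((Finite.mem_toFinset _).2 ⟨v, hv, rfl⟩)
  -- both sides as iterated limits
  have hside : ∀ r : V → ι, Tr S' (Sum.elim (e ∘ c) fun v => x (t v) (r v)) a ↔
      QL u (QA S f (a.map (Sum.map c fun v => (t v, r v)))) F.toList y₀ := by
    intro r
    rw [← hR G M N T Y ι S u f S' e x hPR F.toList (a.map (Sum.map c fun v => (t v, r v))) y₀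
      (Finset.nodup_toList _) ?_, Tr_map]
    · have : (Sum.elim e fun w : T × ι => x w.1 w.2) ∘ (Sum.map c fun v => (t v, r v)) =
          Sum.elim (e ∘ c) fun v => x (t v) (r v) := by
        funext w
        rcases w with m | v <;> rfl
      rw [this]
    · intro s b hs
      obtain ⟨w, hw, hw'⟩ := PRE_vs_map _ _ hs
      rcases w with m | v
      · simp at hw'
      · simp only [Sum.map_inr, Sum.inr.injEq, Prod.mk.injEq] at hw'
        rw [← hw'.1]
        exact hF v hw
  -- the two properties agree for injective choices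
  have hagree : ∀ y : T → Y, InjOn y {s | s ∈ F.toList} →
      (QA S f (a.map (Sum.map c fun v => (t v, r v))) y ↔
        QA S f (a.map (Sum.map c fun v => (t v, r' v))) y) := by
    intro y hy
    obtain ⟨b, hb⟩ := a.exists_sub a.vs Subset.rfl
    let g : a.vs → P ⊕ {v // t v ∈ {s | s ∈ F.toList}} := fun w =>
      match w with
      | ⟨Sum.inl m, h⟩ => Sum.inl m
      | ⟨Sum.inr v, h⟩ => Sum.inr ⟨v, hF v h⟩
    have hfin : {s | s ∈ F.toList}.Finite := List.finite_toSet _
    have h1 := (hE {s | s ∈ F.toList} y hfin hy).comp g b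
    have hs : ∀ r : V → ι, QA S f (a.map (Sum.map c fun v => (t v, r v))) y ↔
        Tr S ((Sum.elim c fun v : {v // t v ∈ {s | s ∈ F.toList}} =>
          f (t v) (y (t v)) (r v)) ∘ g) b := by
      intro r
      simp only [QA]
      rw [Tr_map]
      conv_lhs => rw [← hb]
      rw [Tr_map]
      have : ((Sum.elim id fun w : T × ι => f w.1 (y w.1) w.2) ∘
          (Sum.map c fun v => (t v, r v))) ∘ (Subtype.val : a.vs → _) =
          (Sum.elim c fun v : {v // t v ∈ {s | s ∈ F.toList}} =>
          f (t v) (y (t v)) (r v)) ∘ g := by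
        funext w
        rcases w with ⟨m | v, hw⟩ <;> rfl
      rw [this]
    rw [hs r, hs r']
    exact h1
  have hinj : QL u (fun y => InjOn y {s | s ∈ F.toList}) F.toList y₀ := by
    have := PRE_inj u hu F.toList ∅ y₀ finite_empty (by simp) (Finset.nodup_toList _)
      (injOn_empty _)
    simpa only [empty_union] using this
  have hand := (hB T Y u F.toList y₀).2.1
  have h5 := (hB T Y u F.toList y₀).2.2.2.2.1
  rw [hside r, hside r']
  have key : ∀ Q : (T → Y) → Prop, QL u Q F.toList y₀ ↔
      QL u (fun y => Q y ∧ InjOn y {s | s ∈ F.toList}) F.toList y₀ := fun Q => by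
    rw [hand]
    exact ⟨fun h => ⟨h, hinj⟩, fun h => h.1⟩
  rw [key (QA S f (a.map (Sum.map c fun v => (t v, r v)))),
    key (QA S f (a.map (Sum.map c fun v => (t v, r' v))))]
  exact h5 _ _ fun y => ⟨fun h => ⟨(hagree y h.2).1 h.1, h.2⟩, fun h => ⟨(hagree y h.2).2 h.1, h.2⟩⟩

end UN
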