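import Pool.Agent.UN.StC

/-!
# UN [PRF]: one and two limits; freeness
-/

set_option autoImplicit false
set_option linter.unusedVariables false

namespace UN

open Set Filter Pool.Agent.Helper5.DU Pool.Agent.Helper6.Str Pool.Agent.Helper79.VC
  Pool.Agent.Helper97.LO Pool.Agent.Helper97.VC

/-- one limit -/
theorem PRF_one {G : Sg} {M N T Y ι : Type} {S : Sys G M} {u : T → Ultrafilter Y}
    {f : T → Y → ι → M} {S' : Sys G N} {e : M → N} {x : T → ι → N} (h : PR S u f S' e x)
    (t : T) (a : At G (M ⊕ ι)) : Tr S' (Sum.elim e (x t)) a ↔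
      ∀ᶠ y in (u t : Filter Y), Tr S (Sum.elim id (f t y)) a := by
  classical
  have h1 := h.lim (a.map (Sum.map id fun r => (t, r))) t
  rw [Tr_map] at h1
  have e1 : (Sum.elim e fun v : T × ι => x v.1 v.2) ∘ (Sum.map id fun r => (t, r)) =
      Sum.elim e (x t) := by
    funext c
    rcases c with c | c <;> rfl
  rw [e1] at h1
  rw [h1]
  refine Filter.eventually_congr (Filter.Eventually.of_forall fun y => ?_)
  rw [Tr_map]
  have h2 := h.emb.comp (Sum.elim id (f t y)) a
  have e2 : e ∘ (Sum.elim id (f t y)) = (Sum.elim e fun v : T × ι =>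
      Function.update x t (fun r => e (f t y r)) v.1 v.2) ∘ (Sum.map id fun r => (t, r)) := by
    funext c
    rcases c with c | c
    · rfl
    · simp
  have e3 : id ∘ (Sum.elim id (f t y)) = Sum.elim id (f t y) := rfl
  rw [e2, e3] at h2
  have h3 := h2.symm
  simpa using h3

/-- two limits -/
theorem PRF_two {G : Sg} {M N T Y ι : Type} {S : Sys G M} {u : T → Ultrafilter Y}
    {f : T → Y → ι → M} {S' : Sys G N} {e : M → N} {x : T → ι → N} (h : PR S u f S' e x)
    (s t : T) (a : At G (M ⊕ (ι ⊕ ι))) (hst : s ≠ t) :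
    Tr S' (Sum.elim e (Sum.elim (x s) (x t))) a ↔ ∀ᶠ y in (u s : Filter Y),
      ∀ᶠ z in (u t : Filter Y), Tr S (Sum.elim id (Sum.elim (f s y) (f t z))) a := by
  classical
  have h1 := h.lim (a.map (Sum.map id (Sum.elim (fun r => (s, r)) fun r => (t, r)))) s
  rw [Tr_map] at h1
  have e1 : (Sum.elim e fun v : T × ι => x v.1 v.2) ∘
      (Sum.map id (Sum.elim (fun r => (s, r)) fun r => (t, r))) =
      Sum.elim e (Sum.elim (x s) (x t)) := by
    funext c
    rcases c with c | c | c <;> rfl
  rw [e1] at h1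
  rw [h1]
  refine Filter.eventually_congr (Filter.Eventually.of_forall fun y => ?_)
  have h2 := PRF_one h t (a.map (Sum.elim Sum.inl
    (Sum.elim (fun r => Sum.inl (f s y r)) fun r => Sum.inr r)))
  simp only [Tr_map] at h2
  have e2 : Sum.elim e (x t) ∘ (Sum.elim Sum.inl
      (Sum.elim (fun r => Sum.inl (f s y r)) fun r => Sum.inr r)) =
      (Sum.elim e fun v : T × ι => Function.update x s (fun r => e (f s y r)) v.1 v.2) ∘
      (Sum.map id (Sum.elim (fun r => (s, r)) fun r => (t, r))) := by
    funext c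
    rcases c with c | c | c
    · rfl
    · simp
    · simp [Function.update_of_ne hst.symm]
  have e3 : ∀ z : Y, Sum.elim id (f t z) ∘ (Sum.elim Sum.inl
      (Sum.elim (fun r => Sum.inl (f s y r)) fun r => Sum.inr r)) =
      Sum.elim id (Sum.elim (f s y) (f t z)) := by
    intro z
    funext c
    rcases c with c | c | c <;> rfl
  rw [e2] at h2
  simp only [e3] at h2
  have h3 : Tr S' (Sum.elim e fun v : T × ι =>
        Function.update x s (fun r => e (f s y r)) v.1 v.2)
        (a.map (Sum.map id (Sum.elim (fun r => (s, r)) fun r => (t, r)))) ↔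
      ∀ᶠ z in (u t : Filter Y), Tr S (Sum.elim id (Sum.elim (f s y) (f t z))) a := by
    rw [Tr_map]
    exact h2
  simpa using h3

/-- One and two limits; freeness. -/
theorem thm_PRF : St_PRF := by
  classical
  intro G M N T Y ι S u f S' e x h
  refine ⟨fun t a => PRF_one h t a, fun s t a hst => PRF_two h s t a hst, ?_⟩
  intro t hNP r
  have h3 : ∀ m, x t r ≠ e m := by
    intro m hm
    have h4 := (PRF_one h t (.eq ([], Sum.inr r) ([], Sum.inl m))).1 hm
    have h5 := hNP r m
    obtain ⟨y, hy1, hy2⟩ := (h4.and h5).exists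
    exact hy2 hy1
  have h4 : ∀ m, ¬ Gn S' (e m) (x t r) := by
    rintro m ⟨l, hl⟩
    have h5 := (h.emb.w_eq l [] m (S.w l m)).1 rfl
    exact h3 (S.w l m) (hl.trans h5)
  refine ⟨h4, ?_⟩
  rintro s r' hst ⟨l, hl⟩
  have h5 := (h.lim (.eq ([], Sum.inr (t, r)) (l, Sum.inr (s, r'))) s).1 hl
  obtain ⟨y, hy⟩ := h5.exists
  refine h4 (f s y r') ⟨l, ?_⟩
  have hy' : Function.update x s (fun r => e (f s y r)) t r =
      S'.w l (Function.update x s (fun r => e (f s y r)) s r') := by
    simpa [Tr, w_nil] using hy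
  rw [Function.update_of_ne hst.symm, Function.update_self] at hy'
  exact hy'

end UN
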