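import Pool.Agent.UN.StC

/-!
# UN [PRI]: uniqueness and symmetry of independent limits
-/

set_option autoImplicit false
set_option linter.unusedVariables false

namespace UN

open Set Filter Pool.Agent.Helper5.DU Pool.Agent.Helper6.Str Pool.Agent.Helper79.VC
  Pool.Agent.Helper97.LO Pool.Agent.Helper97.VC

private theorem vs_map {G : Sg} {ι κ : Type} (h : ι → κ) (a : At G ι) :
    (a.map h).vs = h '' a.vs := by
  cases a with
  | eq s t => simp [At.map, At.sub, At.vs, Set.image_pair]
  | rel R t =>
    simp only [At.map, At.sub, At.vs]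
    ext x
    constructor
    · rintro ⟨k, rfl⟩; exact ⟨_, ⟨k, rfl⟩, rfl⟩
    · rintro ⟨_, ⟨k, rfl⟩, rfl⟩; exact ⟨k, rfl⟩

private theorem exists_k {G : Sg} {M V : Type} (a : At G (M ⊕ V))
    (ha : ∀ v, Sum.inr v ∉ a.vs) : ∃ b : At G M, b.map Sum.inl = a := by
  obtain ⟨b, hb⟩ := a.exists_sub (range Sum.inl) (by
    rintro (m | v) hi
    · exact ⟨m, rfl⟩
    · exact absurd hi (ha v))
  choose g hg using fun i : (range (Sum.inl : M → M ⊕ V)) => i.2
  refine ⟨b.map g, ?_⟩
  rw [← hb]
  have h1 : ∀ i : (range (Sum.inl : M → M ⊕ V)), (Sum.inl (g i) : M ⊕ V) = i := hg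
  cases b with
  | eq s t => simp [At.map, At.sub, h1]
  | rel R t => simp [At.map, At.sub, h1]

open Classical in
theorem thm_PRI : St_PRI := by
  intro G M N N' T T' Y ι V S u f u' f' S' e x S'' e' x' hx hx' t t' r htt hu hf
  -- the number of values
  have key : ∀ (n : ℕ) (a : At G (M ⊕ V)), {s | ∃ v, Sum.inr v ∈ a.vs ∧ t v = s}.ncard ≤ n →
      (Tr S' (Sum.elim e fun v => x (t v) (r v)) a ↔
        Tr S'' (Sum.elim e' fun v => x' (t' v) (r v)) a) := by
    have hfin : ∀ a : At G (M ⊕ V), {s | ∃ v, Sum.inr v ∈ a.vs ∧ t v = s}.Finite := by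
      intro a
      have h1 : (Sum.inr ⁻¹' a.vs : Set V).Finite :=
        a.vs_finite.preimage Sum.inr_injective.injOn
      refine (h1.image t).subset ?_
      rintro s ⟨v, hv, rfl⟩
      exact ⟨v, hv, rfl⟩
    have hzero : ∀ a : At G (M ⊕ V), (∀ v, Sum.inr v ∉ a.vs) →
        (Tr S' (Sum.elim e fun v => x (t v) (r v)) a ↔
        Tr S'' (Sum.elim e' fun v => x' (t' v) (r v)) a) := by
      intro a ha
      obtain ⟨b, rfl⟩ := exists_k a ha
      rw [Tr_map, Tr_map]
      have h1 : (Sum.elim e fun v => x (t v) (r v)) ∘ Sum.inl = e := by funext m; rfl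
      have h2 : (Sum.elim e' fun v => x' (t' v) (r v)) ∘ Sum.inl = e' := by funext m; rfl
      rw [h1, h2, ← hx.emb b, ← hx'.emb b]
    intro n
    induction n with
    | zero =>
      intro a ha
      apply hzero
      intro v hv
      have h1 : {s | ∃ v, Sum.inr v ∈ a.vs ∧ t v = s} = ∅ :=
        (Set.ncard_eq_zero (hfin a)).1 (Nat.le_zero.1 ha)
      have h2 : t v ∈ {s | ∃ v, Sum.inr v ∈ a.vs ∧ t v = s} := ⟨v, hv, rfl⟩
      rw [h1] at h2
      exact h2
    | succ n ih =>
      intro a ha
      by_cases hv : ∀ v, Sum.inr v ∉ a.vs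
      · exact hzero a hv
      push Not at hv
      obtain ⟨v₀, hv₀⟩ := hv
      have e1 : Tr S' (Sum.elim e fun v => x (t v) (r v)) a ↔
          Tr S' (Sum.elim e fun v : T × ι => x v.1 v.2)
            (a.map (Sum.map id fun v => (t v, r v))) := by
        rw [Tr_map]
        have h1 : (Sum.elim e fun v : T × ι => x v.1 v.2) ∘ (Sum.map id fun v => (t v, r v)) =
            Sum.elim e fun v => x (t v) (r v) := by
          funext i; rcases i with m | v <;> rfl
        rw [h1]
      have e2 : Tr S'' (Sum.elim e' fun v => x' (t' v) (r v)) a ↔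
          Tr S'' (Sum.elim e' fun v : T' × ι => x' v.1 v.2)
            (a.map (Sum.map id fun v => (t' v, r v))) := by
        rw [Tr_map]
        have h1 : (Sum.elim e' fun v : T' × ι => x' v.1 v.2) ∘
            (Sum.map id fun v => (t' v, r v)) =
            Sum.elim e' fun v => x' (t' v) (r v) := by
          funext i; rcases i with m | v <;> rfl
        rw [h1]
      rw [e1, e2, hx.lim _ (t v₀), hx'.lim _ (t' v₀), hu v₀]
      refine eventually_congr (Eventually.of_forall fun y => ?_)
      rw [Tr_map, Tr_map]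
      let g : M ⊕ V → M ⊕ V := Sum.elim Sum.inl fun v =>
        if t v = t v₀ then Sum.inl (f (t v₀) y (r v)) else Sum.inr v
      have e3 : (Sum.elim e fun v : T × ι =>
          Function.update x (t v₀) (fun r => e (f (t v₀) y r)) v.1 v.2) ∘
            (Sum.map id fun v => (t v, r v)) =
          (Sum.elim e fun v => x (t v) (r v)) ∘ g := by
        funext i
        rcases i with m | v
        · rfl
        · by_cases hv : t v = t v₀
          · simp only [Function.comp, Sum.map_inr, Sum.elim_inr, g, if_pos hv, Sum.elim_inl]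
            rw [hv, Function.update_self]
          · simp only [Function.comp, Sum.map_inr, Sum.elim_inr, g, if_neg hv]
            rw [Function.update_of_ne hv]
      have e4 : (Sum.elim e' fun v : T' × ι =>
          Function.update x' (t' v₀) (fun r => e' (f' (t' v₀) y r)) v.1 v.2) ∘
            (Sum.map id fun v => (t' v, r v)) =
          (Sum.elim e' fun v => x' (t' v) (r v)) ∘ g := by
        funext i
        rcases i with m | v
        · rfl
        · by_cases hv : t v = t v₀
          · have hv' : t' v = t' v₀ := (htt v v₀).1 hv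
            simp only [Function.comp, Sum.map_inr, Sum.elim_inr, g, if_pos hv, Sum.elim_inl]
            rw [hv', Function.update_self, hf v₀]
          · have hv' : t' v ≠ t' v₀ := fun h => hv ((htt v v₀).2 h)
            simp only [Function.comp, Sum.map_inr, Sum.elim_inr, g, if_neg hv]
            rw [Function.update_of_ne hv']
      rw [e3, e4, ← Tr_map, ← Tr_map]
      apply ih
      have hsub : {s | ∃ v, Sum.inr v ∈ (a.map g).vs ∧ t v = s} ⊆
          {s | ∃ v, Sum.inr v ∈ a.vs ∧ t v = s} \ {t v₀} := by
        rintro s ⟨v, hv, rfl⟩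
        rw [vs_map] at hv
        obtain ⟨i, hi, hiv⟩ := hv
        rcases i with m | w
        · simp [g] at hiv
        · by_cases hw : t w = t v₀
          · simp [g, hw] at hiv
          · have : w = v := by simpa [g, hw] using hiv
            subst this
            exact ⟨⟨w, hi, rfl⟩, hw⟩
      have hlt : ({s | ∃ v, Sum.inr v ∈ a.vs ∧ t v = s} \ {t v₀}).ncard <
          {s | ∃ v, Sum.inr v ∈ a.vs ∧ t v = s}.ncard :=
        Set.ncard_sdiff_singleton_lt_of_mem ⟨v₀, hv₀, rfl⟩ (hfin a)
      have hle := Set.ncard_le_ncard hsub ((hfin a).subset Set.sdiff_subset)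
      omega
  intro a
  exact key _ a le_rfl

end UN
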