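import Pool.Agent.UN.StC

/-!
# UN: independent limits and iterated limits (PRQ)
-/

set_option autoImplicit false
set_option linter.unusedVariables false

namespace UN

open Set Filter Pool.Agent.Helper5.DU Pool.Agent.Helper6.Str Pool.Agent.Helper79.VC
  Pool.Agent.Helper97.LO Pool.Agent.Helper97.VC

private theorem PRQ_vs_map {G : Sg} {ι κ : Type} (a : At G ι) (h : ι → κ) :
    (a.map h).vs ⊆ h '' a.vs := by
  cases a with
  | eq s t =>
    rintro i (hi | hi)
    · exact ⟨s.2, Or.inl rfl, hi.symm⟩
    · exact ⟨t.2, Or.inr rfl, (mem_singleton_iff.1 hi).symm⟩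
  | rel R t =>
    rintro i ⟨k, rfl⟩
    exact ⟨(t k).2, ⟨k, rfl⟩, rfl⟩

open Classical in
private theorem PRQ_upd {T Y : Type} (u : T → Ultrafilter Y) (Q : (T → Y) → Prop) (t : T) (z : Y)
    (l : List T) : ∀ y : T → Y, t ∉ l →
    (QL u Q l (Function.update y t z) ↔ QL u (fun y' => Q (Function.update y' t z)) l y) := by
  induction l with
  | nil => intro y _; exact Iff.rfl
  | cons s l ih =>
    intro y ht
    rw [List.mem_cons, not_or] at ht
    simp only [QL]
    refine eventually_congr (Eventually.of_forall fun z' => ?_)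
    rw [← ih _ ht.2, Function.update_comm ht.1]

open Classical in
/-- Independent limits are iterated limits. -/
theorem thm_PRQ : St_PRQ := by
  intro G M N T Y ι S u f S' e x hPR l
  induction l with
  | nil =>
    intro a y _ ha
    obtain ⟨b, hb⟩ := a.exists_sub a.vs Subset.rfl
    let g : a.vs → M := fun w =>
      match w with
      | ⟨Sum.inl m, h⟩ => m
      | ⟨Sum.inr v, h⟩ => absurd (ha v.1 v.2 h) (List.not_mem_nil)
    have h1 := hPR.emb.comp g b
    have h2 : (Sum.elim e fun v : T × ι => x v.1 v.2) ∘ (Subtype.val : a.vs → _) = e ∘ g := by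
      funext w
      rcases w with ⟨m | v, hw⟩
      · rfl
      · exact absurd (ha v.1 v.2 hw) (List.not_mem_nil)
    have h3 : (Sum.elim id fun v : T × ι => f v.1 (y v.1) v.2) ∘ (Subtype.val : a.vs → _) =
        id ∘ g := by
      funext w
      rcases w with ⟨m | v, hw⟩
      · rfl
      · exact absurd (ha v.1 v.2 hw) (List.not_mem_nil)
    simp only [QL, QA]
    conv_lhs => rw [← hb]
    conv_rhs => rw [← hb]
    rw [Tr_map, Tr_map, h2, h3]
    exact h1.symm
  | cons t l ih =>
    intro a y hl ha
    obtain ⟨htl, hl'⟩ := List.nodup_cons.1 hl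
    let c : Y → M ⊕ T × ι → M ⊕ T × ι := fun z w =>
      Sum.elim Sum.inl (fun s : T × ι => if s.1 = t then Sum.inl (f t z s.2) else Sum.inr s) w
    rw [hPR.lim a t]
    simp only [QL]
    refine eventually_congr (Eventually.of_forall fun z => ?_)
    have hc1 : Tr S' (Sum.elim e fun v : T × ι => x v.1 v.2) (a.map (c z)) ↔
        Tr S' (Sum.elim e fun w : T × ι =>
        Function.update x t (fun r => e (f t z r)) w.1 w.2) a := by
      rw [Tr_map]
      have : (Sum.elim e fun v : T × ι => x v.1 v.2) ∘ (c z) = (Sum.elim e fun w : T × ι =>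
        Function.update x t (fun r => e (f t z r)) w.1 w.2) := by
        funext w
        rcases w with m | ⟨s, r⟩
        · rfl
        · by_cases hs : s = t
          · subst hs; simp [c]
          · simp [c, hs]
      rw [this]
    have hc2 : QA S f (a.map (c z)) = fun y => QA S f a (Function.update y t z) := by
      funext y
      simp only [QA]
      rw [Tr_map]
      have : (Sum.elim id fun w : T × ι => f w.1 (y w.1) w.2) ∘ (c z) =
          (Sum.elim id fun w : T × ι => f w.1 (Function.update y t z w.1) w.2) := by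
        funext w
        rcases w with m | ⟨s, r⟩
        · rfl
        · by_cases hs : s = t
          · subst hs; simp [c]
          · simp [c, hs]
      rw [this]
    rw [← hc1, ih (a.map (c z)) y hl' ?_, PRQ_upd u (QA S f a) t z l y htl, hc2]
    intro s r hs
    obtain ⟨w, hw, hw'⟩ := PRQ_vs_map _ _ hs
    rcases w with m | ⟨s', r'⟩
    · simp [c] at hw'
    · by_cases hs' : s' = t
      · simp [c, hs'] at hw'
      · simp only [c, Sum.elim_inr, hs', if_false, Sum.inr.injEq, Prod.mk.injEq] at hw'
        obtain ⟨rfl, rfl⟩ := hw'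
        exact (List.mem_cons.1 (ha s' r' hw)).resolve_left hs'

end UN
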