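import Pool.Agent.UN.StA

/-!
# UN: quantifier-free formulas depend on finitely many atoms
-/

set_option autoImplicit false
set_option linter.unusedVariables false

namespace UN

open Set Filter Pool.Agent.Helper5.DU Pool.Agent.Helper6.Str Pool.Agent.Helper79.VC
  Pool.Agent.Helper97.LO Pool.Agent.Helper97.VC

/-- terms are words applied to variables; the last variable is a dummy -/
private theorem QFL_term (L : FirstOrder.Language.{0, 0})
    (hL : ∀ n, IsEmpty (L.Functions (n + 2))) (n : ℕ) (t : L.Term (Empty ⊕ Fin n)) :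
    ∃ s : List (sgL L).Fn × Fin (n + 1), ∀ (M : Type) (A : L.Structure M) (v : Fin (n + 1) → M),
      @FirstOrder.Language.Term.realize L M A _ (Sum.elim default (v ∘ Fin.castSucc)) t =
        (sy A).w s.1 (v s.2) := by
  induction t with
  | var a =>
    cases a with
    | inl e => exact e.elim
    | inr i => exact ⟨([], i.castSucc), fun M A v => rfl⟩
  | @func k f ts ih =>
    match k, f, ts, ih with
    | 0, c, ts, ih =>
      refine ⟨([Sum.inl c], Fin.last n), fun M A v => ?_⟩
      change A.funMap c _ = A.funMap c ![]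
      congr 1
      funext i
      exact i.elim0
    | 1, g, ts, ih =>
      obtain ⟨s, h⟩ := ih 0
      refine ⟨(Sum.inr g :: s.1, s.2), fun M A v => ?_⟩
      change A.funMap g _ = A.funMap g ![(sy A).w s.1 (v s.2)]
      congr 1
      funext i
      obtain rfl : i = 0 := Subsingleton.elim _ _
      exact h M A v
    | k + 2, f, ts, ih => exact ((hL k).false f).elim

theorem thm_QFL : St_QFL := by
  intro L hL n ψ hψ
  induction hψ with
  | falsum => exact ⟨∅, Set.finite_empty, fun M N A B v v' _ => Iff.rfl⟩
  | of_isAtomic h =>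
    cases h with
    | equal t₁ t₂ =>
      obtain ⟨s₁, h₁⟩ := QFL_term L hL n t₁
      obtain ⟨s₂, h₂⟩ := QFL_term L hL n t₂
      refine ⟨{.eq s₁ s₂}, Set.finite_singleton _, fun M N A B v v' h => ?_⟩
      have key : ∀ (M : Type) (A : L.Structure M) (v : Fin (n + 1) → M),
          @FirstOrder.Language.BoundedFormula.Realize L M A Empty n (t₁.bdEqual t₂) default
            (v ∘ Fin.castSucc) ↔ Tr (sy A) v (.eq s₁ s₂) := by
        intro M A v
        change @FirstOrder.Language.Term.realize L M A _ _ t₁ =
          @FirstOrder.Language.Term.realize L M A _ _ t₂ ↔ (sy A).w s₁.1 (v s₁.2) =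
            (sy A).w s₂.1 (v s₂.2)
        rw [h₁, h₂]
      rw [key, key]
      exact h _ rfl
    | @rel k R ts =>
      choose s hs using fun i => QFL_term L hL n (ts i)
      refine ⟨{.rel (G := sgL L) ⟨k, R⟩ s}, Set.finite_singleton _, fun M N A B v v' h => ?_⟩
      have key : ∀ (M : Type) (A : L.Structure M) (v : Fin (n + 1) → M),
          @FirstOrder.Language.BoundedFormula.Realize L M A Empty n (R.boundedFormula ts) default
            (v ∘ Fin.castSucc) ↔ Tr (sy A) v (.rel (G := sgL L) ⟨k, R⟩ s) := by
        intro M A v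
        change A.RelMap R (fun i => @FirstOrder.Language.Term.realize L M A _ _ (ts i)) ↔
          A.RelMap R (fun i => (sy A).w (s i).1 (v (s i).2))
        have e : (fun i => @FirstOrder.Language.Term.realize L M A _
            (Sum.elim default (v ∘ Fin.castSucc)) (ts i)) =
            fun i => (sy A).w (s i).1 (v (s i).2) := funext fun i => hs i M A v
        exact iff_of_eq (congrArg _ e)
      rw [key, key]
      exact h _ rfl
  | imp h₁ h₂ ih₁ ih₂ =>
    obtain ⟨D₁, f₁, H₁⟩ := ih₁
    obtain ⟨D₂, f₂, H₂⟩ := ih₂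
    refine ⟨D₁ ∪ D₂, f₁.union f₂, fun M N A B v v' h => ?_⟩
    have e₁ := H₁ M N A B v v' fun a ha => h a (Or.inl ha)
    have e₂ := H₂ M N A B v v' fun a ha => h a (Or.inr ha)
    exact imp_congr e₁ e₂

end UN
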