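import Pool.Agent.UN.StC

/-!
# UN: iterated limits of atoms do not depend on the order (QLP)
-/

set_option autoImplicit false
set_option linter.unusedVariables false

namespace UN

open Set Filter Pool.Agent.Helper5.DU Pool.Agent.Helper6.Str Pool.Agent.Helper79.VC
  Pool.Agent.Helper97.LO Pool.Agent.Helper97.VC

open Classical in
private theorem QLP_swap (hR : St_QLR) (G : Sg) (U : ∀ M : Type, Sys G M → Prop)
    (hU : IsU U) (hC : Cmt U) (M : Type) (S : Sys G M) (hS : U M S)
    (T Y ι : Type) (u : T → Ultrafilter Y) (f : T → Y → ι → M) (a : At G (M ⊕ T × ι))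
    (s t : T) (l : List T) (hl : (s :: t :: l).Nodup) (y : T → Y) :
    QL u (QA S f a) (s :: t :: l) y ↔ QL u (QA S f a) (t :: s :: l) y := by
  obtain ⟨hs, hl1⟩ := List.nodup_cons.1 hl
  obtain ⟨ht, hl2⟩ := List.nodup_cons.1 hl1
  rw [List.mem_cons, not_or] at hs
  obtain ⟨hst, hs⟩ := hs
  obtain ⟨N, S', e, x, hS', hq⟩ := hR G U M S hU hS T Y ι u f l hl2
  let c : M ⊕ T × ι → N ⊕ (ι ⊕ ι) := Sum.elim (fun m => Sum.inl (e m)) (fun w =>
    if w.1 = s then Sum.inr (Sum.inl w.2) else if w.1 = t then Sum.inr (Sum.inr w.2) else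
    if w.1 ∈ l then Sum.inl (x w.1 w.2) else Sum.inl (e (f w.1 (y w.1) w.2)))
  have hc : ∀ z z', QL u (QA S f a) l (Function.update (Function.update y s z) t z') ↔
      Tr S' (Sum.elim id (Sum.elim (fun b => e (f s z b)) (fun b => e (f t z' b)))) (a.map c) := by
    intro z z'
    rw [hq a, Tr_map]
    have : (Sum.elim id (Sum.elim (fun b => e (f s z b)) (fun b => e (f t z' b)))) ∘ c =
        (Sum.elim e fun v : T × ι => if v.1 ∈ l then x v.1 v.2 else
          e (f v.1 (Function.update (Function.update y s z) t z' v.1) v.2)) := by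
      funext w
      rcases w with m | ⟨s', b⟩
      · rfl
      · by_cases h1 : s' = s
        · subst h1
          simp [c, hs, Function.update_of_ne hst]
        · by_cases h2 : s' = t
          · subst h2
            simp [c, h1, ht]
          · by_cases h3 : s' ∈ l
            · simp [c, h1, h2, h3]
            · simp [c, h1, h2, h3]
    rw [this]
  have h1 := hC N S' hS' Y Y ι ι (u s) (u t) (fun z b => e (f s z b)) (fun z' b => e (f t z' b))
    (a.map c)
  simp only [QL]
  have h2 : ∀ z z', QL u (QA S f a) l (Function.update (Function.update y t z') s z) ↔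
      Tr S' (Sum.elim id (Sum.elim (fun b => e (f s z b)) (fun b => e (f t z' b)))) (a.map c) := by
    intro z z'
    rw [Function.update_comm (Ne.symm hst)]
    exact hc z z'
  simp only [hc, h2]
  exact h1

/-- Iterated limits of atoms do not depend on the order. -/
theorem thm_QLP (hR : St_QLR) : St_QLP := by
  intro G U hU hC M S hS T Y ι u f l l' hl hp
  induction hp with
  | nil => exact fun a y => Iff.rfl
  | cons t hp ih =>
    intro a y
    simp only [QL]
    exact eventually_congr (Eventually.of_forall fun z => ih (List.nodup_cons.1 hl).2 a _)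
  | swap s t l => exact fun a y => QLP_swap hR G U hU hC M S hS T Y ι u f a t s l hl y
  | trans hp1 hp2 ih1 ih2 => exact fun a y => (ih1 hl a y).trans (ih2 (hp1.nodup_iff.1 hl) a y)

end UN
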