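import Pool.Agent.UN.StC

/-!
# UN [QLR]: iterated limits are realised in an extension
-/

set_option autoImplicit false
set_option linter.unusedVariables false

namespace UN

open Set Filter Pool.Agent.Helper5.DU Pool.Agent.Helper6.Str Pool.Agent.Helper79.VC
  Pool.Agent.Helper97.LO Pool.Agent.Helper97.VC

open Classical in
theorem QLR_cons {T Y : Type} (u : T → Ultrafilter Y) (Q : (T → Y) → Prop) (t : T) (l : List T)
    (y : T → Y) :
    QL u Q (t :: l) y ↔ ∀ᶠ z in (u t : Filter Y), QL u Q l (Function.update y t z) := Iff.rfl

open Classical in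
theorem thm_QLR (h : St_UPR) : St_QLR := by
  intro G U M S hU hS T Y ι u f l
  induction l with
  | nil =>
    intro _
    obtain ⟨m0⟩ := hU.ne M S hS
    refine ⟨M, S, id, fun _ _ => m0, hS, fun a y => ?_⟩
    have h1 : (Sum.elim id fun v : T × ι =>
        if v.1 ∈ ([] : List T) then m0 else id (f v.1 (y v.1) v.2)) =
        Sum.elim id fun v : T × ι => f v.1 (y v.1) v.2 := by
      funext i
      rcases i with m | v
      · rfl
      · simp
    rw [h1]
    exact Iff.rfl
  | cons t l ih =>
    intro hl
    rw [List.nodup_cons] at hl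
    obtain ⟨N', S', e', x', hN', h'⟩ := ih hl.2
    obtain ⟨N, S'', q, hN, -, hq⟩ := h G U N' S' hU hN' Y (u t)
    refine ⟨N, S'', fun m => q fun _ => e' m,
      fun s b => q fun z => if s = t then e' (f t z b) else x' s b, hN, fun a y => ?_⟩
    rw [QLR_cons]
    let w : M ⊕ T × ι → Y → N' := Sum.elim (fun m _ => e' m) fun v z =>
      if v.1 ∈ l then x' v.1 v.2 else e' (f v.1 (Function.update y t z v.1) v.2)
    have h1 := hq (M ⊕ T × ι) w a
    have h2 : (fun i => q (w i)) = Sum.elim (fun m => q fun _ => e' m) fun v : T × ι =>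
        if v.1 ∈ t :: l then (q fun z => if v.1 = t then e' (f t z v.2) else x' v.1 v.2)
        else q fun _ => e' (f v.1 (y v.1) v.2) := by
      funext i
      rcases i with m | ⟨s, b⟩
      · rfl
      · by_cases hs : s = t
        · subst hs
          simp [w, hl.1]
        · by_cases hsl : s ∈ l
          · simp [w, hs, hsl]
          · simp [w, hs, hsl]
    rw [h2] at h1
    rw [h1]
    refine eventually_congr (Eventually.of_forall fun z => ?_)
    rw [h']
    have h3 : (fun i => w i z) = Sum.elim e' fun v : T × ι =>
        if v.1 ∈ l then x' v.1 v.2 else e' (f v.1 (Function.update y t z v.1) v.2) := by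
      funext i
      rcases i with m | v <;> rfl
    rw [h3]

end UN
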