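import Pool.Agent.UN.StE
import Pool.Agent.UN.Bas

/-!
# UN: reducts to sets of relation symbols

`G.res F`: the signature with all function symbols and the relation symbols in `F`; `S.res F` the
reduct; `URs U F` the class of the reducts. It is a universal class (compactness), with `Pg` if `U`
has `Pg`. So `Cmt U` and `Wre U` are true without bound for the arities.
-/

set_option autoImplicit false
set_option linter.unusedVariables false

namespace UN

open Set Filter Pool.Agent.Helper5.DU Pool.Agent.Helper6.Str Pool.Agent.Helper79.VC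
  Pool.Agent.Helper97.LO Pool.Agent.Helper97.VC

/-- the signature with the relation symbols in `F` -/
abbrev Sg.res (G : Sg) (F : Set G.Rl) : Sg := ⟨G.Fn, F, fun R => G.ar R⟩

variable {G : Sg} {M N P V ι κ : Type}

/-- the reduct -/
def Sys.res (S : Sys G M) (F : Set G.Rl) : Sys (G.res F) M := ⟨S.fn, fun R v => S.rel R.1 v⟩

/-- the class of the reducts of the members of `U` -/
def URs (U : ∀ M : Type, Sys G M → Prop) (F : Set G.Rl) : ∀ M : Type, Sys (G.res F) M → Prop :=
  fun M S' => ∃ S, U M S ∧ S' = S.res F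

/-- the atoms of the smaller signature are atoms -/
def At.up {F : Set G.Rl} : At (G.res F) ι → At G ι
  | .eq s t => .eq s t
  | .rel R t => .rel R.1 t

theorem res_fn (S : Sys G M) (F : Set G.Rl) (f : G.Fn) (x : M) :
    (S.res F).fn f x = S.fn f x := rfl

theorem res_w (S : Sys G M) (F : Set G.Rl) (l : List G.Fn) (x : M) :
    (S.res F).w l x = S.w l x := by
  induction l with
  | nil => rfl
  | cons f l ih =>
    show S.fn f ((S.res F).w l x) = S.fn f (S.w l x)
    rw [ih]

theorem res_Tr (S : Sys G M) {F : Set G.Rl} (v : ι → M) (a : At (G.res F) ι) :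
    Tr (S.res F) v a ↔ Tr S v a.up := by
  cases a with
  | eq s t =>
    show (S.res F).w s.1 (v s.2) = (S.res F).w t.1 (v t.2) ↔ S.w s.1 (v s.2) = S.w t.1 (v t.2)
    rw [res_w, res_w]
  | rel R t =>
    show (S.rel R.1 fun k => (S.res F).w (t k).1 (v (t k).2)) ↔
      (S.rel R.1 fun k => S.w (t k).1 (v (t k).2))
    simp only [res_w]

theorem Eqv.res {S : Sys G M} {S' : Sys G N} {v : ι → M} {v' : ι → N} (h : Eqv S v S' v')
    (F : Set G.Rl) : Eqv (S.res F) v (S'.res F) v' := fun a => by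
  rw [res_Tr, res_Tr]
  exact h _

theorem res_Gn (S : Sys G M) (F : Set G.Rl) (x y : M) : Gn (S.res F) x y ↔ Gn S x y := by
  constructor
  · rintro ⟨l, hl⟩
    exact ⟨l, by rw [hl]; exact res_w S F l x⟩
  · rintro ⟨l, hl⟩
    exact ⟨l, by rw [hl]; exact (res_w S F l x).symm⟩

theorem res_Cl {S : Sys G M} (F : Set G.Rl) {X : Set M} : Cl (S.res F) X ↔ Cl S X := Iff.rfl

theorem res_cl (S : Sys G M) (F : Set G.Rl) (X : Set M) : cl (S.res F) X = cl S X := by
  ext y
  simp only [cl, mem_ofPred_eq, res_Gn]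

theorem res_EC {S : Sys G M} {A : Set M} (h : EC S A) (F : Set G.Rl) : EC (S.res F) A := by
  refine ⟨h.1, fun n v D hD => ?_⟩
  obtain ⟨v', h1, h2⟩ := h.2 n v (At.up '' D) (hD.image _)
  refine ⟨v', h1, fun a ha => ?_⟩
  rw [res_Tr, res_Tr]
  exact h2 _ ⟨a, ha, rfl⟩

theorem res_trc (S : Sys G M) (F : Set G.Rl) (A : Set M) (x : M) :
    trc (S.res F) A x = trc S A x := by
  ext y
  simp only [trc, mem_ofPred_eq, res_Gn]

instance res_ctb [h : Countable G.Fn] (F : Set G.Rl) : Countable (G.res F).Fn := h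

instance res_ctbR [h : Countable G.Rl] (F : Set G.Rl) : Countable (G.res F).Rl :=
  inferInstanceAs (Countable F)

/-- the arities of finitely many relation symbols are bounded -/
theorem res_Ard {F : Set G.Rl} (hF : F.Finite) : ∃ d, Ard (G.res F) d := by
  obtain ⟨b, hb⟩ := (hF.image G.ar).bddAbove
  refine ⟨max 2 b, le_max_left _ _, fun R => ?_⟩
  exact le_trans (hb ⟨R.1, R.2, rfl⟩) (le_max_right _ _)

theorem res_fin {F : Set G.Rl} (hF : F.Finite) :
    {R : (G.res F).Rl | 2 ≤ (G.res F).ar R}.Finite := by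
  have : Finite F := hF
  have : Finite (G.res F).Rl := inferInstanceAs (Finite F)
  exact toFinite _

theorem BW.res {S : Sys G M} {S' : Sys G N} {X : Set M} {X' : Set N} {γ : Ordinal.{0}} (F : Set G.Rl) :
    ∀ {p : Set (M × N)}, BW S S' X X' γ p → BW (S.res F) (S'.res F) X X' γ p := by
  induction γ using WellFoundedLT.induction with
  | _ γ ih =>
    intro p h
    have h0 := BFR.def.1 h
    refine BFR.def.2 ⟨?_, fun β hβ => ⟨fun x hx => ?_, fun y hy => ?_⟩⟩
    · exact atEq_iff.2 fun V u hu => (atEq_iff.1 h0.1 V u hu).res F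
    · obtain ⟨y, hy, h1⟩ := (h0.2 β hβ).1 x hx
      exact ⟨y, hy, ih β hβ h1⟩
    · obtain ⟨x, hx, h1⟩ := (h0.2 β hβ).2 y hy
      exact ⟨x, hx, ih β hβ h1⟩

/-- compactness: the class of the reducts is universal -/
theorem URs_IsU {U : ∀ M : Type, Sys G M → Prop} (hU : IsU U) (F : Set G.Rl) :
    IsU (URs U F) := by
  classical
  refine ⟨fun M S' ⟨S, hS, _⟩ => hU.ne M S hS, fun M S' hM h => ?_⟩
  -- the patterns of the finite sets of atoms with variables in `M`
  have h1 : ∀ D : Finset (At (G.res F) M), ∃ (N : Type) (T : Sys G N), U N T ∧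
      ∃ v : M → N, ∀ a ∈ D, (Tr S' id a ↔ Tr (T.res F) v a) := by
    intro D
    have hE : (⋃ a ∈ D, a.vs).Finite := D.finite_toSet.biUnion fun a _ => a.vs_finite
    have := hE.fintype
    let e := Fintype.equivFin (⋃ a ∈ D, a.vs : Set M)
    have hb : ∀ a : D, ∃ b : At (G.res F) (Fin (Fintype.card (⋃ a ∈ D, a.vs : Set M))),
        b.map (fun i => (e.symm i : M)) = a.1 := by
      intro a
      obtain ⟨b, hb⟩ := a.1.exists_sub (⋃ a ∈ D, a.vs) (subset_biUnion_of_mem a.2)
      refine ⟨b.map e, ?_⟩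
      conv_rhs => rw [← hb]
      cases b with
      | eq s t => simp [At.map, At.sub]
      | rel R t => simp [At.map, At.sub]
    choose B hB using hb
    obtain ⟨N, T', ⟨T, hT, rfl⟩, v', hv'⟩ := h _ (fun i => (e.symm i : M)) (range B)
      (finite_range B)
    have := hU.ne N T hT
    refine ⟨N, T, hT, fun m => if hm : m ∈ (⋃ a ∈ D, a.vs : Set M) then v' (e ⟨m, hm⟩)
      else Classical.arbitrary N, fun a ha => ?_⟩
    have h2 := hv' (B ⟨a, ha⟩) ⟨_, rfl⟩
    have e1 : At.map (fun i => (e.symm i : M)) (B ⟨a, ha⟩) = a := hB ⟨a, ha⟩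
    rw [← e1, Tr_map, Tr_map]
    refine h2.trans (iff_of_eq ?_)
    congr 1
    funext i
    simp only [Function.comp]
    rw [dif_pos (e.symm i).2]
    simp
  choose N T hT v hv using h1
  let u : Ultrafilter (Finset (At (G.res F) M)) := Ultrafilter.of atTop
  have hu : ∀ a : At (G.res F) M, ∀ᶠ D in (u : Filter (Finset (At (G.res F) M))), a ∈ D :=
    fun a => Ultrafilter.of_le atTop
      ((eventually_ge_atTop ({a} : Finset (At (G.res F) M))).mono fun D hD => hD (by simp))
  let S : Sys G M := ⟨S'.fn, fun R x => if h : R ∈ F then S'.rel ⟨R, h⟩ x else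
    ∀ᶠ D in (u : Filter (Finset (At (G.res F) M))), (T D).rel R (v D ∘ x)⟩
  have hS : S.res F = S' := by
    refine Sys.ext rfl ?_
    funext R x
    show (if h : R.1 ∈ F then S'.rel ⟨R.1, h⟩ x else _) = S'.rel R x
    rw [dif_pos R.2]
  have hw : ∀ (l : List G.Fn) (m : M), ∀ᶠ D in (u : Filter (Finset (At (G.res F) M))),
      (T D).w l (v D m) = v D (S.w l m) := by
    intro l m
    refine (hu (.eq (l, m) ([], S.w l m))).mono fun D hD => ?_
    have h2 := (hv D _ hD).1 (by
      show S'.w l m = S.w l m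
      rw [← hS]
      exact res_w S F l m)
    have h3 : ((T D).res F).w l (v D m) = v D (S.w l m) := h2
    rwa [res_w] at h3
  refine ⟨S, hU.loc M S hM fun n w D₀ hD₀ => ?_, hS.symm⟩
  have h2 : ∀ a : At G (Fin n), ∀ᶠ D in (u : Filter (Finset (At (G.res F) M))),
      (Tr S w a ↔ Tr (T D) (v D ∘ w) a) := by
    intro a
    cases a with
    | eq s t =>
      refine (((hw s.1 (w s.2)).and (hw t.1 (w t.2))).and
        (hu (.eq ([], S.w s.1 (w s.2)) ([], S.w t.1 (w t.2))))).mono fun D hD => ?_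
      have h3 : S.w s.1 (w s.2) = S.w t.1 (w t.2) ↔
        v D (S.w s.1 (w s.2)) = v D (S.w t.1 (w t.2)) := hv D _ hD.2
      show S.w s.1 (w s.2) = S.w t.1 (w t.2) ↔
        (T D).w s.1 (v D (w s.2)) = (T D).w t.1 (v D (w t.2))
      rw [hD.1.1, hD.1.2]
      exact h3
    | rel R t =>
      have h4 : ∀ᶠ D in (u : Filter (Finset (At (G.res F) M))), ∀ k,
          (T D).w (t k).1 (v D (w (t k).2)) = v D (S.w (t k).1 (w (t k).2)) :=
        eventually_all.2 fun k => hw _ _
      have h5 : ∀ᶠ D in (u : Filter (Finset (At (G.res F) M))),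
          (S.rel R (fun k => S.w (t k).1 (w (t k).2)) ↔
            (T D).rel R (v D ∘ fun k => S.w (t k).1 (w (t k).2))) := by
        by_cases hR : R ∈ F
        · refine (hu (.rel ⟨R, hR⟩ fun k => ([], S.w (t k).1 (w (t k).2)))).mono fun D hD => ?_
          have h6 : S'.rel ⟨R, hR⟩ (fun k => S.w (t k).1 (w (t k).2)) ↔
            (T D).rel R (v D ∘ fun k => S.w (t k).1 (w (t k).2)) := hv D _ hD
          show (if h : R ∈ F then S'.rel ⟨R, h⟩ _ else _) ↔ _
          rw [dif_pos hR]
          exact h6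
        · have h7 : S.rel R (fun k => S.w (t k).1 (w (t k).2)) ↔
              ∀ᶠ D in (u : Filter (Finset (At (G.res F) M))),
                (T D).rel R (v D ∘ fun k => S.w (t k).1 (w (t k).2)) := by
            show (if h : R ∈ F then S'.rel ⟨R, h⟩ _ else _) ↔ _
            rw [dif_neg hR]
          by_cases h8 : S.rel R (fun k => S.w (t k).1 (w (t k).2))
          · exact (h7.1 h8).mono fun D hD => ⟨fun _ => hD, fun _ => h8⟩
          · have h9 := mt h7.2 h8
            rw [← Ultrafilter.eventually_not] at h9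
            exact h9.mono fun D hD => ⟨fun h => absurd h h8, fun h => absurd h hD⟩
      refine (h4.and h5).mono fun D hD => ?_
      show S.rel R (fun k => S.w (t k).1 (w (t k).2)) ↔
        (T D).rel R fun k => (T D).w (t k).1 (v D (w (t k).2))
      simp only [hD.1]
      exact hD.2
  obtain ⟨D, hD⟩ := ((Filter.eventually_all_finite hD₀).2 (fun a _ => h2 a)).exists
  exact ⟨N D, T D, hT D, v D ∘ w, hD⟩

theorem URs_Pg {U : ∀ M : Type, Sys G M → Prop} (h : Pg U) (F : Set G.Rl) : Pg (URs U F) := by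
  rintro M S' ⟨S, hS, rfl⟩ X Q q γ hQ hγ hX
  obtain ⟨f, f', h1, h2⟩ := h M S hS X Q q γ hQ hγ hX
  exact ⟨f, f', h1, BW.res F h2⟩

/-- every atom has only one relation symbol -/
theorem At.exists_up (a : At G ι) : ∃ (F : Set G.Rl) (b : At (G.res F) ι), F.Finite ∧ b.up = a := by
  cases a with
  | eq s t => exact ⟨∅, .eq s t, finite_empty, rfl⟩
  | rel R t => exact ⟨{R}, .rel ⟨R, rfl⟩ t, finite_singleton R, rfl⟩

/-- limits commute in the members of the class, for all arities -/
theorem Cmt_of (hC : St_COM) {U : ∀ M : Type, Sys G M → Prop} [Countable G.Fn] (hU : IsU U)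
    (hP : Pg U) : Cmt U := by
  intro M S hS X Y ι κ u v f g a
  obtain ⟨F, b, hF, rfl⟩ := a.exists_up
  obtain ⟨d, hd⟩ := res_Ard (G := G) hF
  have h := hC (G.res F) (URs U F) d (res_ctb F) hd (URs_IsU hU F) (URs_Pg hP F) M (S.res F)
    ⟨S, hS, rfl⟩ X Y ι κ u v f g b
  simpa only [res_Tr] using h

theorem Cmt_res (hC : St_COM) {U : ∀ M : Type, Sys G M → Prop} [Countable G.Fn] (hU : IsU U)
    (hP : Pg U) (F : Set G.Rl) : Cmt (URs U F) :=
  Cmt_of hC (URs_IsU hU F) (URs_Pg hP F)

/-- the wreath property, for all arities -/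
theorem Wre_of (hC : St_COM) (hW : St_WLU) {U : ∀ M : Type, Sys G M → Prop} [Countable G.Fn]
    (hU : IsU U) (hP : Pg U) : Wre U := by
  intro M S hS Y ι κ W b u f a h1 h2
  obtain ⟨F, c, hF, rfl⟩ := a.exists_up
  obtain ⟨d, hd⟩ := res_Ard (G := G) hF
  have h := hW (G.res F) (URs U F) d (res_ctb F) hd (URs_IsU hU F) (URs_Pg hP F)
    (Cmt_res hC hU hP F) M (S.res F) ⟨S, hS, rfl⟩ Y ι κ W b u f c h1 h2
  simpa only [res_Tr] using h

theorem Wre_res (hC : St_COM) (hW : St_WLU) {U : ∀ M : Type, Sys G M → Prop} [Countable G.Fn]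
    (hU : IsU U) (hP : Pg U) (F : Set G.Rl) : Wre (URs U F) :=
  Wre_of hC hW (URs_IsU hU F) (URs_Pg hP F)

end UN
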