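import Pool.Agent.UN.StE

/-!
# UN, module ROT: finitely many traces of generated sets
-/

set_option autoImplicit false
set_option linter.unusedVariables false

namespace UN

open Set Filter Pool.Agent.Helper5.DU Pool.Agent.Helper6.Str Pool.Agent.Helper79.VC
  Pool.Agent.Helper97.LO Pool.Agent.Helper97.VC

section

variable {G : Sg} {M P : Type} {S : Sys G M}

private theorem ROT_gn {X X' : Set M} {γ : Ordinal.{0}} {p : Set (M × M)}
    (h : BW S S X X' γ p) {x y x' y' : M} (hx : (x, x') ∈ p) (hy : (y, y') ∈ p) :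
    Gn S x y ↔ Gn S x' y' := by
  have h1 : Eqv S (fun c : Bool => if c then x else y) S (fun c : Bool => if c then x' else y') :=
    BW.eqv h (by intro c; cases c <;> simpa)
  have h2 := h1.gn true false
  simpa using h2

private theorem ROT_mg {X X' : Set M} {γ : Ordinal.{0}} {p : Set (M × M)}
    (h : BW S S X X' γ p) {x y x' y' : M} (hx : (x, x') ∈ p) (hy : (y, y') ∈ p) :
    Mg S x y ↔ Mg S x' y' := and_congr (ROT_gn h hx hy) (ROT_gn h hy hx)

/-- `y` is generated by `u` and by another maximal element -/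
private def ROT_rt (S : Sys G M) (q : P → M) (X : Set M) (u y : M) : Prop :=
  Gn S u y ∧ ∃ u', Mx S X q u' ∧ ¬ Mg S u u' ∧ Gn S u' y

/-- links -/
private def ROT_Lk (S : Sys G M) (q : P → M) (X : Set M) (u v : M) : Prop :=
  ∀ y, ROT_rt S q X u y ↔ ROT_rt S q X v y

private theorem ROT_rt_mg {q : P → M} {X : Set M} {u u' y : M} (h : Mg S u u')
    (hr : ROT_rt S q X u y) : ROT_rt S q X u' y := by
  obtain ⟨h1, v, h2, h3, h4⟩ := hr
  exact ⟨h.2.trans h1, v, h2, fun h5 => h3 (h.trans h5), h4⟩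

private theorem ROT_half (hV : St_VMX) {q : P → M} {X X' : Set M} {π : Set (M × M)}
    (hX' : Cl S X') (h : BW S S X X' Ordinal.omega0 π) (hq : prs q q ⊆ π) {a b : M × M}
    (ha : a ∈ π) (hb : b ∈ π) (ha2 : a.2 ∈ X')
    (hL : ∀ y, ROT_rt S q X a.1 y → ROT_rt S q X b.1 y) (y' : M)
    (hr : ROT_rt S q X' a.2 y') : ROT_rt S q X' b.2 y' := by
  obtain ⟨h1, u', h2, h3, h4⟩ := hr
  have l3 : ((3 : ℕ) : Ordinal.{0}) < Ordinal.omega0 := Ordinal.natCast_lt_omega0 3
  have l2 : ((2 : ℕ) : Ordinal.{0}) < ((3 : ℕ) : Ordinal.{0}) := by exact_mod_cast (by norm_num : 2 < 3)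
  have l1 : ((1 : ℕ) : Ordinal.{0}) < ((2 : ℕ) : Ordinal.{0}) := by exact_mod_cast (by norm_num : 1 < 2)
  obtain ⟨y, hy, b1⟩ := BFR.back h l3 (Gn.mem hX' ha2 h1)
  obtain ⟨u, hu, b2⟩ := BFR.back b1 l2 h2.1
  have c2 : BW S S X X' ((2 : ℕ) : Ordinal.{0}) (insert (u, u') (insert (y, y') π)) := b2
  have m1 : ∀ {x : M × M}, x ∈ π → x ∈ insert (u, u') (insert (y, y') π) :=
    fun hx => Or.inr (Or.inr hx)
  have m2 : (y, y') ∈ insert (u, u') (insert (y, y') π) := Or.inr (Or.inl rfl)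
  have m3 : (u, u') ∈ insert (u, u') (insert (y, y') π) := Or.inl rfl
  have hMu : Mx S X q u := (hV G M M _ S S X X' _ _ q q u u'
    (by exact_mod_cast (by norm_num : 1 ≤ 2)) c2 (fun x hx => m1 (hq hx)) m3 hu h2.1).2 h2
  have hrt : ROT_rt S q X a.1 y := ⟨(ROT_gn c2 (m1 ha) m2).2 h1, u, hMu,
    fun h5 => h3 ((ROT_mg c2 (m1 ha) m3).1 h5), (ROT_gn c2 m3 m2).2 h4⟩
  obtain ⟨g1, v, g2, g3, g4⟩ := hL y hrt
  obtain ⟨v', hv', b3⟩ := BFR.forth b2 l1 g2.1
  have c3 : BW S S X X' ((1 : ℕ) : Ordinal.{0})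
    (insert (v, v') (insert (u, u') (insert (y, y') π))) := b3
  have m4 : (v, v') ∈ insert (v, v') (insert (u, u') (insert (y, y') π)) := Or.inl rfl
  have hMv : Mx S X' q v' := (hV G M M _ S S X X' _ _ q q v v' (by simp) c3
    (fun x hx => Or.inr (m1 (hq hx))) m4 g2.1 hv').1 g2
  exact ⟨(ROT_gn c3 (Or.inr (m1 hb)) (Or.inr m2)).1 g1, v', hMv,
    fun h5 => g3 ((ROT_mg c3 (Or.inr (m1 hb)) m4).2 h5), (ROT_gn c3 m4 (Or.inr m2)).1 g4⟩

private theorem ROT_vis (hV : St_VMX) {q : P → M} {X X' : Set M} {π : Set (M × M)}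
    (hX' : Cl S X') (h : BW S S X X' Ordinal.omega0 π) (hq : prs q q ⊆ π) {a b : M × M}
    (ha : a ∈ π) (hb : b ∈ π) (ha2 : a.2 ∈ X') (hb2 : b.2 ∈ X') (hL : ROT_Lk S q X a.1 b.1) :
    ROT_Lk S q X' a.2 b.2 := fun y' =>
  ⟨ROT_half hV hX' h hq ha hb ha2 (fun y => (hL y).1) y',
    ROT_half hV hX' h hq hb ha hb2 (fun y => (hL y).2) y'⟩

private theorem ROT_VLk (hV : St_VMX) (S : Sys G M) (q : P → M) :
    VLk S q (ROT_Lk S q) Ordinal.omega0 where
  vis := by
    intro X X' π hX hX' h hq a ha b hb m1 m2 m3 m4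
    constructor
    · exact ROT_vis hV hX' h hq ha hb m2.1 m4.1
    · have h1 : BW S S X' X Ordinal.omega0 (Prod.swap ⁻¹' π) := BFR.swap h
      have h2 : prs q q ⊆ Prod.swap ⁻¹' π := by
        rintro _ ⟨c, rfl⟩
        exact hq ⟨c, rfl⟩
      exact ROT_vis (a := (a.2, a.1)) (b := (b.2, b.1)) hV hX h1 h2 ha hb m1.1 m3.1
  inv := by
    intro X u v u' v' _ _ _ _ hu hv hL y
    constructor
    · intro h1
      exact ROT_rt_mg hv ((hL y).1 (ROT_rt_mg hu.symm h1))
    · intro h1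
      exact ROT_rt_mg hu ((hL y).2 (ROT_rt_mg hv.symm h1))

private theorem ROT_le {q : P → M} {Lk : Set M → M → M → Prop}
    {X : Set M} {u : M} {n n' : ℕ} (h : Cz S X q Lk u n) (h' : Cz S X q Lk u n') : n ≤ n' := by
  obtain ⟨t, h1, h2, -⟩ := h
  obtain ⟨t', -, -, h3⟩ := h'
  choose f hf using fun i => h3 _ (h1 i)
  have hinj : Function.Injective f := by
    intro i j hij
    by_contra hne
    refine h2 i j hne ((hf i).trans ?_)
    rw [hij]
    exact (hf j).symm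
  have := Fintype.card_le_of_injective f hinj
  simpa using this

/-- the combinatorial part: the sizes of the components -/
private theorem ROT_core (hV : St_VMX) (hCSD : St_CSD) {U : ∀ M : Type, Sys G M → Prop}
    (hG : Countable G.Fn) (hPg : Pg U) (hU : U M S) (z : ℕ × ℕ → M) (T : ℕ → Set M)
    (hT : Function.Injective T) (hF : ∀ s t, s ≠ t → ¬ Gn S (z s) (z t))
    (ha : ∀ i n y, y ∈ T i → Gn S (z (i, n)) y)
    (hb : ∀ s t y, s ≠ t → Gn S (z s) y → Gn S (z t) y → y ∈ T s.1) : False := by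
  let q : Empty → M := fun c => c.elim
  let Y : Set ℕ → Set M := fun N => {x | ∃ i ∈ N, ∃ n < i + 2, x = z (i, n)}
  let X : Set ℕ → Set M := fun N => cl S (Y N)
  have hmem : ∀ (N : Set ℕ) (i n : ℕ), i ∈ N → n < i + 2 → z (i, n) ∈ X N :=
    fun N i n hi hn => subset_cl _ ⟨i, hi, n, hn, rfl⟩
  -- the maximal elements
  have h1 : ∀ (N : Set ℕ) (u : M), Mx S (X N) q u ↔
      ∃ i ∈ N, ∃ n < i + 2, Mg S u (z (i, n)) := by
    intro N u
    constructor
    · rintro ⟨⟨x, ⟨i, hi, n, hn, rfl⟩, hxu⟩, -, hu2⟩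
      exact ⟨i, hi, n, hn, hu2 _ (hmem N i n hi hn) hxu, hxu⟩
    · rintro ⟨i, hi, n, hn, hu⟩
      refine ⟨⟨_, ⟨i, hi, n, hn, rfl⟩, hu.2⟩, fun c => c.elim, ?_⟩
      rintro v ⟨x, ⟨i', hi', n', hn', rfl⟩, hxv⟩ hvu
      have hx' : Gn S (z (i', n')) (z (i, n)) := (hxv.trans hvu).trans hu.1
      have he : ((i', n') : ℕ × ℕ) = (i, n) := by
        by_contra hne
        exact hF _ _ hne hx'
      rw [he] at hxv
      exact hu.1.trans hxv
  -- the relation `rt`
  have h2 : ∀ (N : Set ℕ) (i n : ℕ) (u y : M), i ∈ N → n < i + 2 → Mg S u (z (i, n)) →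
      (ROT_rt S q (X N) u y ↔ y ∈ T i) := by
    intro N i n u y hi hn hu
    constructor
    · rintro ⟨g1, u', g2, g3, g4⟩
      obtain ⟨i', hi', n', hn', hu'⟩ := (h1 N u').1 g2
      have hne : ((i, n) : ℕ × ℕ) ≠ (i', n') := by
        intro he
        rw [← he] at hu'
        exact g3 (hu.trans hu'.symm)
      exact hb _ _ y hne (hu.2.trans g1) (hu'.2.trans g4)
    · intro hy
      obtain ⟨n', hn', hne⟩ : ∃ n' < i + 2, n' ≠ n := by
        by_cases h0 : n = 0
        · exact ⟨1, by omega, by omega⟩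
        · exact ⟨0, by omega, by omega⟩
      refine ⟨hu.1.trans (ha i n y hy), z (i, n'), (h1 N _).2 ⟨i, hi, n', hn', Mg.refl _⟩, ?_,
        ha i n' y hy⟩
      intro hg
      refine hF (i, n) (i, n') ?_ (hu.2.trans hg.1)
      intro he
      exact hne (congrArg Prod.snd he).symm
  have h3 : ∀ (N : Set ℕ) (i n j m : ℕ) (u v : M), i ∈ N → n < i + 2 → Mg S u (z (i, n)) →
      j ∈ N → m < j + 2 → Mg S v (z (j, m)) → (ROT_Lk S q (X N) u v ↔ i = j) := by
    intro N i n j m u v hi hn hu hj hm hv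
    constructor
    · intro hL
      apply hT
      ext y
      rw [← h2 N i n u y hi hn hu, ← h2 N j m v y hj hm hv]
      exact hL y
    · rintro rfl y
      rw [h2 N i n u y hi hn hu, h2 N i m v y hj hm hv]
  -- the reached elements
  have h4 : ∀ (N : Set ℕ) (i n : ℕ) (u v : M), i ∈ N → n < i + 2 →
      Mg S u (z (i, n)) → Cn S (X N) q (ROT_Lk S q) u v →
      ∃ n' < i + 2, Mg S v (z (i, n')) := by
    intro N i n u v hi hn hu hc
    induction hc with
    | refl => exact ⟨n, hn, hu⟩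
    | tail _ hs ih =>
      obtain ⟨n', hn', hv⟩ := ih
      obtain ⟨hmx, hl | hg⟩ := hs
      · obtain ⟨j, hj, m, hm, hz⟩ := (h1 N _).1 hmx
        have hij := (h3 N i n' j m _ _ hi hn' hv hj hm hz).1 hl
        subst hij
        exact ⟨m, hm, hz⟩
      · exact ⟨n', hn', hg.symm.trans hv⟩
  have h5 : ∀ (N : Set ℕ) (i n : ℕ) (u : M), i ∈ N → n < i + 2 →
      Mg S u (z (i, n)) → Cz S (X N) q (ROT_Lk S q) u (i + 2) := by
    intro N i n u hi hn hu
    have hmx : ∀ n' < i + 2, Mx S (X N) q (z (i, n')) :=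
      fun n' hn' => (h1 N _).2 ⟨i, hi, n', hn', Mg.refl _⟩
    refine ⟨fun k => z (i, (k : ℕ)), ?_, ?_, ?_⟩
    · intro k
      have s1 : Cn S (X N) q (ROT_Lk S q) u (z (i, n)) :=
        Relation.ReflTransGen.single ⟨hmx n hn, Or.inr hu⟩
      exact s1.tail ⟨hmx k k.2, Or.inl ((h3 N i n i k _ _ hi hn (Mg.refl _) hi k.2
        (Mg.refl _)).2 rfl)⟩
    · intro k l hkl hg
      refine hF (i, (k : ℕ)) (i, (l : ℕ)) ?_ hg.1
      intro he
      exact hkl (Fin.ext (congrArg Prod.snd he))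
    · intro v hv
      obtain ⟨n', hn', hg⟩ := h4 N i n u v hi hn hu hv
      exact ⟨⟨n', hn'⟩, hg⟩
  refine hCSD G U M Empty S q (ROT_Lk S q) Ordinal.omega0 X (fun k => {k + 2}) hPg hU
    inferInstance omega_lt_om1 Ordinal.one_lt_omega0.le (ROT_VLk hV S q) ?_ ?_ ?_
  · intro N hN
    refine ⟨cl_countable ?_, ?_, ?_, cl_closed _⟩
    · refine (countable_range z).mono ?_
      rintro x ⟨i, hi, n, hn, rfl⟩
      exact ⟨(i, n), rfl⟩
    · refine Set.infinite_of_injOn_mapsTo (s := N) (f := fun i => z (i, 0)) ?_ ?_ hN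
      · intro i hi j hj hij
        by_contra hne
        refine hF (i, 0) (j, 0) ?_ ?_
        · intro he
          exact hne (congrArg Prod.fst he)
        · have hij' : z (i, 0) = z (j, 0) := hij
          rw [hij']
          exact Gn.refl _
      · intro i hi
        exact hmem N i 0 hi (by omega)
    · rintro _ ⟨c, -⟩
      exact c.elim
  · intro N hN k hk
    exact ⟨z (k, 0), k + 2, (h1 N _).2 ⟨k, hk, 0, by omega, Mg.refl _⟩,
      h5 N k 0 _ hk (by omega) (Mg.refl _), rfl⟩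
  · intro N hN u n k hmx hcz hn
    obtain ⟨i, hi, m, hm, hg⟩ := (h1 N u).1 hmx
    have h6 := h5 N i m u hi hm hg
    have h7 : n = i + 2 := le_antisymm (ROT_le hcz h6) (ROT_le h6 hcz)
    have h8 : n = k + 2 := hn
    have h9 : k = i := by omega
    rw [h9]
    exact hi

end

theorem thm_ROT (hIPA : St_IPA) (hMPR : St_MPR) (hPRF : St_PRF) (hVMX : St_VMX)
    (hCSD : St_CSD) : St_ROT := by
  intro G U hG hIU hC hPg M S A hU hE hA
  by_contra hinf
  have hinf' : {T : Set M | ∃ x ∉ A, T = trc S A x}.Infinite := hinf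
  have hch : ∀ n, ∃ x ∉ A, ((hinf'.natEmbedding _ n : _) : Set M) = trc S A x :=
    fun n => (hinf'.natEmbedding _ n).2
  choose x hxA hx using hch
  have hinj : Function.Injective fun n => trc S A (x n) := by
    intro m n hmn
    have h : ((hinf'.natEmbedding _ m : _) : Set M) = (hinf'.natEmbedding _ n : _) := by
      rw [hx m, hx n]; exact hmn
    exact (hinf'.natEmbedding _).injective (Subtype.ext h)
  obtain ⟨a1, -⟩ := hIPA G U hC M S A hU hE
  have hlm : ∀ n, ∃ u, Lm S A (fun _ : Unit => x n) u := fun n => a1 Unit _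
  choose w hw using hlm
  have hNP : ∀ n, NP (w n) (id : (Unit → M) → Unit → M) := by
    intro n r m
    by_cases hm : m ∈ A
    · have h1 := (hw n).lim (.eq ([], Sum.inr r) ([], Sum.inl ⟨m, hm⟩))
      have h2 : ¬ Tr S (ov A (fun _ : Unit => x n))
          (.eq ([], Sum.inr r) ([], Sum.inl (⟨m, hm⟩ : A))) := by
        intro h3
        have h4 : x n = m := h3
        exact hxA n (h4 ▸ hm)
      rw [h1] at h2
      have h3 := Ultrafilter.eventually_not.2 h2
      exact h3.mono fun y hy he => hy he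
    · exact (hw n).mem.mono fun y hy he => hm (he ▸ hy r)
  obtain ⟨N, S', e, z', hUN, hPR⟩ := hMPR G U hIU hC M S hU (ℕ × ℕ) (Unit → M) Unit
    (fun t => w t.1) (fun _ => id)
  obtain ⟨p1, -, p3⟩ := hPRF G M N (ℕ × ℕ) (Unit → M) Unit S _ _ S' e z' hPR
  have hem : ∀ (l : List G.Fn) (m : M), e (S.w l m) = S'.w l (e m) := by
    intro l m
    exact (hPR.emb.w_eq [] l (S.w l m) m).1 rfl
  have hinj_e : ∀ m m', e m = e m' → m = m' := fun m m' h => (hPR.emb.eq m m').2 h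
  -- (a)
  have ha : ∀ (t : ℕ × ℕ) (m : M), Gn S' (z' t ()) (e m) ↔ m ∈ trc S A (x t.1) := by
    intro t m
    have key : ∀ (l : List G.Fn), e m = S'.w l (z' t ()) ↔
        ∀ᶠ y in (w t.1 : Filter (Unit → M)), m = S.w l (y ()) := fun l =>
      p1 t (.eq ([], Sum.inl m) (l, Sum.inr ()))
    constructor
    · rintro ⟨l, hl⟩
      have h1 := (key l).1 hl
      obtain ⟨y, hy1, hy2⟩ := (h1.and (hw t.1).mem).exists
      have hm : m ∈ A := by rw [hy1]; exact w_mem hA (hy2 ()) l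
      refine ⟨hm, l, ?_⟩
      exact ((hw t.1).lim (.eq ([], Sum.inl ⟨m, hm⟩) (l, Sum.inr ()))).2 h1
    · rintro ⟨hm, l, hl⟩
      refine ⟨l, (key l).2 ?_⟩
      exact ((hw t.1).lim (.eq ([], Sum.inl ⟨m, hm⟩) (l, Sum.inr ()))).1 hl
  -- (b)
  have hb : ∀ (s t : ℕ × ℕ) (y : N), s ≠ t → Gn S' (z' s ()) y → Gn S' (z' t ()) y →
      ∃ m, y = e m := by
    rintro s t y hst ⟨l, hl⟩ ⟨l', hl'⟩
    have h1 := (hPR.lim (.eq (l, Sum.inr (s, ())) (l', Sum.inr (t, ()))) s).1
      (hl.symm.trans hl')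
    obtain ⟨y₀, hy₀⟩ := h1.exists
    have h2 : S'.w l (e (y₀ ())) = S'.w l' (z' t ()) := by
      simpa [Tr, Function.update_apply, hst.symm] using hy₀
    exact ⟨S.w l (y₀ ()), by rw [hem, h2, hl']⟩
  refine ROT_core hVMX hCSD hG hPg hUN (fun t => z' t ()) (fun i => e '' trc S A (x i)) ?_ ?_ ?_ ?_
  · intro i j hij
    apply hinj
    have hij' : e '' trc S A (x i) = e '' trc S A (x j) := hij
    exact (Function.Injective.image_injective (fun m m' h => hinj_e m m' h)) hij'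
  · intro s t hst
    exact (p3 t (hNP t.1) ()).2 s () hst
  · rintro i n _ ⟨m, hm, rfl⟩
    exact (ha (i, n) m).2 hm
  · intro s t y hst h1 h2
    obtain ⟨m, rfl⟩ := hb s t y hst h1 h2
    exact ⟨m, (ha s m).1 h1, rfl⟩

end UN
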