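import Pool.Agent.UN.StE

/-!
# UN: splitting an infinite family of sets
-/

set_option autoImplicit false

namespace UN

open Set

theorem SPS_step {C : Type} (𝒯 : Set (Set C)) (h : 𝒯.Infinite) :
    ∃ (T : Set C) (c : C) (ε : Prop), T ∈ 𝒯 ∧ (c ∈ T ↔ ¬ ε) ∧
      {T' | T' ∈ 𝒯 ∧ (c ∈ T' ↔ ε)}.Infinite := by
  obtain ⟨T₁, h₁, T₂, h₂, hne⟩ := h.nontrivial
  have h3 : ∃ c, ¬ (c ∈ T₁ ↔ c ∈ T₂) := by
    by_contra hcon
    push Not at hcon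
    exact hne (Set.ext hcon)
  obtain ⟨c, hc⟩ := h3
  by_cases h4 : {T' | T' ∈ 𝒯 ∧ c ∈ T'}.Infinite
  · have h5 : ∃ T ∈ 𝒯, c ∉ T := by
      by_cases h6 : c ∈ T₁
      · exact ⟨T₂, h₂, fun h7 => hc ⟨fun _ => h7, fun _ => h6⟩⟩
      · exact ⟨T₁, h₁, h6⟩
    obtain ⟨T, hT, hcT⟩ := h5
    refine ⟨T, c, True, hT, ⟨fun h => absurd h hcT, fun h => absurd trivial h⟩, ?_⟩
    refine h4.mono ?_
    rintro T' ⟨hT', hcT'⟩
    exact ⟨hT', fun _ => trivial, fun _ => hcT'⟩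
  · have h5 : ∃ T ∈ 𝒯, c ∈ T := by
      by_cases h6 : c ∈ T₁
      · exact ⟨T₁, h₁, h6⟩
      · refine ⟨T₂, h₂, ?_⟩
        by_contra h7
        exact hc ⟨fun h => absurd h h6, fun h => absurd h h7⟩
    obtain ⟨T, hT, hcT⟩ := h5
    refine ⟨T, c, False, hT, ⟨fun _ h => h, fun _ => hcT⟩, ?_⟩
    intro hfin
    rw [Set.not_infinite] at h4
    refine h ((h4.union hfin).subset ?_)
    intro T' hT'
    by_cases h6 : c ∈ T'
    · exact Or.inl ⟨hT', h6⟩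
    · exact Or.inr ⟨hT', fun h => h6 h, fun h => h.elim⟩

theorem thm_SPS : St_SPS := by
  intro C 𝒯 h
  choose T c ε h1 h2 h3 using fun (p : {𝒯' : Set (Set C) // 𝒯' ⊆ 𝒯 ∧ 𝒯'.Infinite}) =>
    SPS_step p.1 p.2.2
  let s : ℕ → {𝒯' : Set (Set C) // 𝒯' ⊆ 𝒯 ∧ 𝒯'.Infinite} := fun n =>
    Nat.rec ⟨𝒯, Subset.rfl, h⟩ (fun _ p => ⟨{T' | T' ∈ p.1 ∧ (c p ∈ T' ↔ ε p)},
      fun T' hT' => p.2.1 hT'.1, h3 p⟩) n
  have hs : ∀ n, (s (n + 1)).1 = {T' | T' ∈ (s n).1 ∧ (c (s n) ∈ T' ↔ ε (s n))} :=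
    fun n => rfl
  have hmono : ∀ m n, m ≤ n → (s n).1 ⊆ (s m).1 := by
    intro m n hmn
    induction hmn with
    | refl => exact Subset.rfl
    | step _ ih =>
      refine Subset.trans ?_ ih
      rw [hs]
      exact fun T' hT' => hT'.1
  refine ⟨fun n => T (s n), fun n => c (s n), fun n => ε (s n), fun n => ?_, fun n => ?_, ?_⟩
  · exact (s n).2.1 (h1 _)
  · exact h2 _
  · intro m n hmn
    have h4 : T (s n) ∈ (s (m + 1)).1 := hmono (m + 1) n hmn (h1 _)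
    rw [hs] at h4
    exact h4.2

end UN
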