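import Pool.Agent.UN.StE
import Pool.Agent.UN.Bas

/-!
# UN/SWP: exchange of two parts which are isomorphic over `A`
-/

set_option autoImplicit false
set_option linter.unusedVariables false

namespace UN

open Set Filter Pool.Agent.Helper5.DU Pool.Agent.Helper6.Str Pool.Agent.Helper79.VC
  Pool.Agent.Helper97.LO Pool.Agent.Helper97.VC

private theorem SWP_sub {G : Sg} {M : Type} {S : Sys G M} {A : Set M} {u y : M}
    (h : y ∈ Dc S A u) : y ∉ A := by
  obtain ⟨Z, -, hZ, -, hy, -⟩ := h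
  exact hZ hy

theorem thm_SWP (h1 : St_IPA) (h2 : St_CMP) : St_SWP := by
  intro G U hU M S A hUS hEC hCl u u' τ hu hu' hnr hτ he
  classical
  obtain ⟨-, -, h13, h14, -, h16⟩ := h1 G U hU M S A hUS hEC
  obtain ⟨-, h22, h23, -, h25, -⟩ := h2 G U hU M S A hUS hEC hCl
  have hDD : ∀ y, y ∈ Dc S A u → y ∉ Dc S A u' := fun y hy hy' =>
    hnr (h23 u y u' hy (h22 u' y hy'))
  have hDc : ∀ w : M, ∀ x ∈ Dc S A w, ∀ y, Rc S A x y → y ∈ Dc S A w := fun w x hx y hy =>
    h23 w x y hx hy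
  have hne : Nonempty M := ⟨u⟩
  obtain ⟨τ', hτ'⟩ : ∃ τ' : M → M, InvOn τ' τ (Dc S A u) (Dc S A u') :=
    ⟨_, hτ.invOn_invFunOn⟩
  have hm' : MapsTo τ' (Dc S A u') (Dc S A u) := by
    intro y hy
    obtain ⟨x, hx, rfl⟩ := hτ.surjOn hy
    rw [hτ'.1 hx]
    exact hx
  -- the permutation
  let g : M → M := fun y => if y ∈ Dc S A u then τ y else if y ∈ Dc S A u' then τ' y else y
  have g1 : ∀ y ∈ Dc S A u, g y = τ y := fun y hy => if_pos hy
  have g2 : ∀ y ∈ Dc S A u', g y = τ' y := fun y hy => by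
    have h3 : y ∉ Dc S A u := fun h4 => hDD y h4 hy
    simp only [g, if_neg h3, if_pos hy]
  have g3 : ∀ y, y ∉ Dc S A u → y ∉ Dc S A u' → g y = y := fun y hy hy' => by
    simp only [g, if_neg hy, if_neg hy']
  have ginv : Function.Involutive g := by
    intro y
    by_cases hy : y ∈ Dc S A u
    · rw [g1 y hy, g2 _ (hτ.mapsTo hy), hτ'.1 hy]
    · by_cases hy' : y ∈ Dc S A u'
      · rw [g2 y hy', g1 _ (hm' hy'), hτ'.2 hy']
      · rw [g3 y hy hy', g3 y hy hy']
  -- independence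
  have hI1 : IpS S A (Dc S A u) (Dc S A u') := by
    have h3 := h25 (Dc S A u) (fun y hy => SWP_sub hy) (hDc u)
    exact h16 _ _ _ _ _ _ id (fun y : Dc S A u' =>
      (⟨(y : M), SWP_sub y.2, fun h4 => hDD _ h4 y.2⟩ : ((Aᶜ \ Dc S A u : Set M) : Type))) h3
  have hI2 : IpS S A (Dc S A u') (Dc S A u) := h13 _ _ _ _ hI1
  have hI3 : IpS S A (Dc S A u ∪ Dc S A u') (Aᶜ \ (Dc S A u ∪ Dc S A u')) := by
    apply h25
    · rintro y (hy | hy)
      · exact SWP_sub hy
      · exact SWP_sub hy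
    · rintro x (hx | hx) y hy
      · exact Or.inl (hDc u x hx y hy)
      · exact Or.inr (hDc u' x hx y hy)
  -- first step
  have hE1 : Eqv S (ov A (Sum.elim (fun y : Dc S A u => (y : M)) (fun y : Dc S A u' => (y : M))))
      S (ov A (Sum.elim (fun y : Dc S A u => τ y) (fun y : Dc S A u' => τ' y))) := by
    apply h14 _ _ _ _ _ _ hI1 _ he
    · have h3 := he.comp' (Sum.map id fun y : Dc S A u' => (⟨τ' y, hm' y.2⟩ : Dc S A u))
        (u := ov A fun y : Dc S A u' => τ' y) (u' := ov A fun y : Dc S A u' => (y : M))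
        (by rintro (a | y) <;> rfl)
        (by
          rintro (a | y)
          · rfl
          · exact (hτ'.2 y.2).symm)
      exact h3.symm
    · exact h16 _ _ _ _ _ _ (fun y : Dc S A u => (⟨τ y, hτ.mapsTo y.2⟩ : Dc S A u'))
        (fun y : Dc S A u' => (⟨τ' y, hm' y.2⟩ : Dc S A u)) hI2
  -- second step
  have hE2 := h14 (Dc S A u ⊕ Dc S A u') ((Aᶜ \ (Dc S A u ∪ Dc S A u') : Set M) : Type)
    (Sum.elim (fun y : Dc S A u => (y : M)) (fun y : Dc S A u' => (y : M)))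
    (Sum.elim (fun y : Dc S A u => τ y) (fun y : Dc S A u' => τ' y))
    (fun y => (y : M)) (fun y => (y : M))
    (by
      have h3 := h16 _ _ _ _ _ _ (Sum.elim
        (fun y : Dc S A u => (⟨(y : M), Or.inl y.2⟩ : ((Dc S A u ∪ Dc S A u' : Set M) : Type)))
        (fun y : Dc S A u' => (⟨(y : M), Or.inr y.2⟩ : ((Dc S A u ∪ Dc S A u' : Set M) : Type))))
        id hI3
      have h4 : (fun x : ((Dc S A u ∪ Dc S A u' : Set M) : Type) => (x : M)) ∘ (Sum.elim
        (fun y : Dc S A u => (⟨(y : M), Or.inl y.2⟩ : ((Dc S A u ∪ Dc S A u' : Set M) : Type)))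
        (fun y : Dc S A u' => (⟨(y : M), Or.inr y.2⟩ : ((Dc S A u ∪ Dc S A u' : Set M) : Type)))) =
        Sum.elim (fun y : Dc S A u => (y : M)) (fun y : Dc S A u' => (y : M)) := by
        funext y
        rcases y with y | y <;> rfl
      rw [h4] at h3
      exact h3)
    (by
      have h3 := h16 _ _ _ _ _ _ (Sum.elim
        (fun y : Dc S A u => (⟨τ y, Or.inr (hτ.mapsTo y.2)⟩ :
          ((Dc S A u ∪ Dc S A u' : Set M) : Type)))
        (fun y : Dc S A u' => (⟨τ' y, Or.inl (hm' y.2)⟩ :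
          ((Dc S A u ∪ Dc S A u' : Set M) : Type))))
        id hI3
      have h4 : (fun x : ((Dc S A u ∪ Dc S A u' : Set M) : Type) => (x : M)) ∘ (Sum.elim
        (fun y : Dc S A u => (⟨τ y, Or.inr (hτ.mapsTo y.2)⟩ :
          ((Dc S A u ∪ Dc S A u' : Set M) : Type)))
        (fun y : Dc S A u' => (⟨τ' y, Or.inl (hm' y.2)⟩ :
          ((Dc S A u ∪ Dc S A u' : Set M) : Type)))) =
        Sum.elim (fun y : Dc S A u => τ y) (fun y : Dc S A u' => τ' y) := by
        funext y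
        rcases y with y | y <;> rfl
      rw [h4] at h3
      exact h3)
    hE1 (Eqv.refl _)
  -- the whole system
  refine ⟨ginv.toPerm, ?_, g1, g3, fun y hy => by
    rw [Function.Involutive.coe_toPerm, ← g1 y hy, ginv y]⟩
  have hk : ∀ y : M, ∃ k, id y = ov A (Sum.elim (Sum.elim (fun y : Dc S A u => (y : M))
      (fun y : Dc S A u' => (y : M)))
      (fun y : ((Aᶜ \ (Dc S A u ∪ Dc S A u') : Set M) : Type) => (y : M))) k ∧
      g y = ov A (Sum.elim (Sum.elim (fun y : Dc S A u => τ y) (fun y : Dc S A u' => τ' y))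
      (fun y : ((Aᶜ \ (Dc S A u ∪ Dc S A u') : Set M) : Type) => (y : M))) k := by
    intro y
    by_cases hy : y ∈ Dc S A u
    · exact ⟨Sum.inr (Sum.inl (Sum.inl ⟨y, hy⟩)), rfl, g1 y hy⟩
    · by_cases hy' : y ∈ Dc S A u'
      · exact ⟨Sum.inr (Sum.inl (Sum.inr ⟨y, hy'⟩)), rfl, g2 y hy'⟩
      · by_cases hA : y ∈ A
        · exact ⟨Sum.inl ⟨y, hA⟩, rfl, g3 y hy hy'⟩
        · exact ⟨Sum.inr (Sum.inr ⟨y, hA, fun h5 => h5.elim hy hy'⟩), rfl, g3 y hy hy'⟩
  choose k hk1 hk2 using hk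
  exact hE2.comp' k hk1 hk2

end UN
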