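import Pool.Agent.UN.StD

/-!
# UN, module TC1: tree configurations, first case
-/

set_option autoImplicit false
set_option linter.unusedVariables false

namespace UN

open Set Filter Pool.Agent.Helper5.DU Pool.Agent.Helper6.Str Pool.Agent.Helper79.VC
  Pool.Agent.Helper97.LO Pool.Agent.Helper97.VC

section

variable {G : Sg} {M P κ ι : Type}

/-- the relation of two elements is visible -/
private theorem TC1_gn {S : Sys G M} {X X' : Set M} {γ : Ordinal.{0}} {p : Set (M × M)}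
    (h : BW S S X X' γ p) {x y x' y' : M} (hx : (x, x') ∈ p) (hy : (y, y') ∈ p) :
    Gn S x y ↔ Gn S x' y' := by
  have h1 : Eqv S (fun c : Bool => if c then x else y) S (fun c : Bool => if c then x' else y') :=
    BW.eqv h (by intro c; cases c <;> simpa)
  have h2 := h1.gn true false
  simpa using h2

/-- two positions -/
private def TC1_two (a b : ℕ × La κ ι) : Bool → ℕ × La κ ι := fun c => if c then a else b

private theorem TC1_sym {S : Sys G M} {p : P → M} {g : ℕ → La κ ι → M} (h : Sym S p g)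
    {a b a' b' : ℕ × La κ ι} (hTI : TI (TC1_two a b) (TC1_two a' b')) (w w' : List G.Fn) :
    S.w w (g a.1 a.2) = S.w w' (g b.1 b.2) ↔ S.w w (g a'.1 a'.2) = S.w w' (g b'.1 b'.2) :=
  (h Bool _ _ hTI).w_eq w w' (Sum.inr true) (Sum.inr false)

/-- links: common elements not generated by the parameters -/
private def TC1_Lk (S : Sys G M) {Q : Type} (q : Q → M) (X : Set M) (u v : M) : Prop :=
  ∃ y ∈ X, Gn S u y ∧ Gn S v y ∧ ∀ c, ¬ Gn S (q c) y

private theorem TC1_one {S : Sys G M} {Q : Type} {q : Q → M} {X X' : Set M} {π : Set (M × M)}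
    (h : BW S S X X' 1 π) (hq : prs q q ⊆ π) {a b : M × M} (ha : a ∈ π) (hb : b ∈ π)
    (hL : TC1_Lk S q X a.1 b.1) : TC1_Lk S q X' a.2 b.2 := by
  obtain ⟨y, hy, h1, h2, h3⟩ := hL
  obtain ⟨y', hy', h4⟩ := BFR.forth h zero_lt_one hy
  have h5 : BW S S X X' 0 (insert (y, y') π) := h4
  refine ⟨y', hy', (TC1_gn h5 (mem_insert_of_mem _ ha) (mem_insert _ _)).1 h1,
    (TC1_gn h5 (mem_insert_of_mem _ hb) (mem_insert _ _)).1 h2, fun c hc => h3 c ?_⟩
  exact (TC1_gn h5 (mem_insert_of_mem _ (hq (prs_mem q q c))) (mem_insert _ _)).2 hc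

private theorem TC1_VLk (S : Sys G M) {Q : Type} (q : Q → M) : VLk S q (TC1_Lk S q) 1 where
  vis := by
    intro X X' π hX hX' h hq a ha b hb _ _ _ _
    constructor
    · exact TC1_one h hq ha hb
    · intro hL
      have h1 : BW S S X' X 1 (Prod.swap ⁻¹' π) := BFR.swap h
      have h2 : prs q q ⊆ Prod.swap ⁻¹' π := by
        rintro _ ⟨c, rfl⟩
        exact hq ⟨c, rfl⟩
      exact TC1_one (a := (a.2, a.1)) (b := (b.2, b.1)) h1 h2 ha hb hL
  inv := by
    intro X u v u' v' _ _ _ _ hu hv ⟨y, hy, h1, h2, h3⟩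
    exact ⟨y, hy, hu.2.trans h1, hv.2.trans h2, h3⟩

private theorem TC1_le {S : Sys G M} {Q : Type} {q : Q → M} {Lk : Set M → M → M → Prop}
    {X : Set M} {u : M} {n n' : ℕ} (h : Cz S X q Lk u n) (h' : Cz S X q Lk u n') : n ≤ n' := by
  obtain ⟨t, h1, h2, -⟩ := h
  obtain ⟨t', -, -, h3⟩ := h'
  choose f hf using fun i => h3 _ (h1 i)
  have hinj : Function.Injective f := by
    intro i j hij
    by_contra hne
    refine h2 i j hne ((hf i).trans ?_)
    rw [hij]
    exact (hf j).symm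
  have := Fintype.card_le_of_injective f hinj
  simpa using this

end

theorem thm_TC1 (hVMX : St_VMX) (hCSD : St_CSD) : St_TC1 := by
  intro G U M P κ ι S p g hG hPg hU hP hSym hR
  rintro ⟨k0, n0, e, r, w, hw⟩
  -- the word works everywhere
  have hw' : ∀ k n, g k (Sum.inl e) = S.w w (g k (Sum.inr (n, r))) := by
    intro k n
    have hTI : TI (TC1_two (κ := κ) (ι := ι) (k0, Sum.inl e) (k0, Sum.inr (n0, r)))
        (TC1_two (k, Sum.inl e) (k, Sum.inr (n, r))) := by
      refine ⟨?_, ?_, ?_⟩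
      · rintro (_ | _) (_ | _) <;> simp [TC1_two]
      · rintro (_ | _) <;> simp [TC1_two, kd]
      · rintro (_ | _) (_ | _) <;> simp [TC1_two, kd]
    exact (TC1_sym hSym hTI [] w).1 hw
  let q : P ⊕ Unit → M := Sum.elim p fun _ => g 0 (Sum.inr (0, r))
  let Y : Set ℕ → Set M := fun N =>
    range q ∪ {x | ∃ k ∈ N, ∃ n < k + 2, x = g (k + 1) (Sum.inr (n, r))}
  let X : Set ℕ → Set M := fun N => cl S (Y N)
  have hmem : ∀ (N : Set ℕ) (k n : ℕ), k ∈ N → n < k + 2 → g (k + 1) (Sum.inr (n, r)) ∈ X N :=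
    fun N k n hk hn => subset_cl _ (Or.inr ⟨k, hk, n, hn, rfl⟩)
  have hq0 : ∀ (c : P ⊕ Unit) (k n : ℕ), ¬ Gn S (q c) (g (k + 1) (Sum.inr (n, r))) := by
    rintro (c | c) k n
    · exact hR.xp _ _ _ _
    · refine hR.xg _ _ _ _ _ ?_
      intro h
      have h1 := congrArg Prod.fst h
      exact absurd h1 (by simp)
  -- (1) the maximal elements
  have h1 : ∀ (N : Set ℕ) (u : M), Mx S (X N) q u ↔
      ∃ k ∈ N, ∃ n < k + 2, Mg S u (g (k + 1) (Sum.inr (n, r))) := by
    intro N u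
    constructor
    · rintro ⟨⟨x, hx, hxu⟩, hu1, hu2⟩
      rcases hx with ⟨c, rfl⟩ | ⟨k, hk, n, hn, rfl⟩
      · exact absurd hxu (hu1 c)
      · exact ⟨k, hk, n, hn, hu2 _ (hmem N k n hk hn) hxu, hxu⟩
    · rintro ⟨k, hk, n, hn, hu⟩
      refine ⟨⟨_, Or.inr ⟨k, hk, n, hn, rfl⟩, hu.2⟩, fun c hc => hq0 c k n (hc.trans hu.1), ?_⟩
      rintro v ⟨x, hx, hxv⟩ hvu
      have hx' : Gn S x (g (k + 1) (Sum.inr (n, r))) := (hxv.trans hvu).trans hu.1
      rcases hx with ⟨c, rfl⟩ | ⟨k', hk', n', hn', rfl⟩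
      · exact absurd hx' (hq0 c k n)
      · have he : ((k' + 1, Sum.inr (n', r)) : ℕ × La κ ι) = (k + 1, Sum.inr (n, r)) := by
          by_contra hne
          exact hR.xg _ _ _ _ _ hne hx'
        have h2 : g (k' + 1) (Sum.inr (n', r)) = g (k + 1) (Sum.inr (n, r)) := by
          have h3 := congrArg (fun z : ℕ × La κ ι => g z.1 z.2) he
          exact h3
        rw [h2] at hxv
        exact hu.1.trans hxv
  -- (3) no common elements for different indices
  have h3 : ∀ (k l n n' : ℕ) (y : M), k ≠ l → Gn S (g (k + 1) (Sum.inr (n, r))) y →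
      Gn S (g (l + 1) (Sum.inr (n', r))) y → Gn S (q (Sum.inr ())) y := by
    rintro k l n n' y hkl ⟨w1, hy1⟩ ⟨w2, hy2⟩
    have hTI : TI (TC1_two (κ := κ) (ι := ι) (k + 1, Sum.inr (n, r)) (l + 1, Sum.inr (n', r)))
        (TC1_two (0, Sum.inr (0, r)) (l + 1, Sum.inr (n', r))) := by
      refine ⟨?_, ?_, ?_⟩
      · rintro (_ | _) (_ | _)
        · simp [TC1_two]
        · simp [TC1_two, hkl.symm]
        · simp [TC1_two, hkl]
        · simp [TC1_two]
      · rintro (_ | _) <;> simp [TC1_two, kd]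
      · rintro (_ | _) (_ | _)
        · simp [TC1_two]
        · simp [TC1_two, hkl.symm]
        · simp [TC1_two, hkl]
        · simp [TC1_two]
    have h4 := (TC1_sym hSym hTI w1 w2).1 (hy1.symm.trans hy2)
    exact ⟨w1, hy2.trans h4.symm⟩
  -- (2) links
  have h2 : ∀ (N : Set ℕ) (k n n' : ℕ), k ∈ N → n < k + 2 →
      TC1_Lk S q (X N) (g (k + 1) (Sum.inr (n, r))) (g (k + 1) (Sum.inr (n', r))) := by
    intro N k n n' hk hn
    refine ⟨g (k + 1) (Sum.inl e), ?_, ⟨w, hw' _ _⟩, ⟨w, hw' _ _⟩, ?_⟩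
    · exact Gn.mem (cl_closed _) (hmem N k n hk hn) ⟨w, hw' _ _⟩
    · rintro (c | c)
      · exact hR.bp _ _ _
      · exact hR.bg _ _ _ _ (by simp)
  -- (4) the reached elements
  have h4 : ∀ (N : Set ℕ) (k n : ℕ) (u v : M), k ∈ N → n < k + 2 →
      Mg S u (g (k + 1) (Sum.inr (n, r))) → Cn S (X N) q (TC1_Lk S q) u v →
      ∃ n' < k + 2, Mg S v (g (k + 1) (Sum.inr (n', r))) := by
    intro N k n u v hk hn hu hc
    induction hc with
    | refl => exact ⟨n, hn, hu⟩
    | tail _ hs ih =>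
      obtain ⟨n', hn', hv⟩ := ih
      obtain ⟨hmx, hl | hg⟩ := hs
      · obtain ⟨k', hk', m, hm, hz⟩ := (h1 N _).1 hmx
        obtain ⟨y, hy, hy1, hy2, hy3⟩ := hl
        by_cases hkk : k = k'
        · subst hkk
          exact ⟨m, hm, hz⟩
        · exact absurd (h3 k k' n' m y hkk (hv.2.trans hy1) (hz.2.trans hy2)) (hy3 _)
      · exact ⟨n', hn', hg.symm.trans hv⟩
  have h5 : ∀ (N : Set ℕ) (k n : ℕ) (u : M), k ∈ N → n < k + 2 →
      Mg S u (g (k + 1) (Sum.inr (n, r))) → Cz S (X N) q (TC1_Lk S q) u (k + 2) := by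
    intro N k n u hk hn hu
    have hmx : ∀ n' < k + 2, Mx S (X N) q (g (k + 1) (Sum.inr (n', r))) :=
      fun n' hn' => (h1 N _).2 ⟨k, hk, n', hn', Mg.refl _⟩
    refine ⟨fun i => g (k + 1) (Sum.inr ((i : ℕ), r)), ?_, ?_, ?_⟩
    · intro i
      have s1 : Cn S (X N) q (TC1_Lk S q) u (g (k + 1) (Sum.inr (n, r))) :=
        Relation.ReflTransGen.single ⟨hmx n hn, Or.inr hu⟩
      exact s1.tail ⟨hmx i i.2, Or.inl (h2 N k n i hk hn)⟩
    · intro i j hij hg
      refine hR.xg (k + 1) (j : ℕ) r (k + 1) (Sum.inr ((i : ℕ), r)) ?_ hg.1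
      intro he
      apply hij
      have he2 := congrArg (fun z : ℕ × La κ ι => nm z.2) he
      exact Fin.ext he2
    · intro v hv
      obtain ⟨n', hn', hg⟩ := h4 N k n u v hk hn hu hv
      exact ⟨⟨n', hn'⟩, hg⟩
  refine hCSD G U M (P ⊕ Unit) S q (TC1_Lk S q) 1 X (fun k => {k + 2}) hPg hU inferInstance
    one_lt_om1 le_rfl (TC1_VLk S q) ?_ ?_ ?_
  · intro N hN
    refine ⟨cl_countable ?_, ?_, ?_, cl_closed _⟩
    · refine (countable_range q).union ?_
      refine (countable_range fun z : ℕ × ℕ => g (z.1 + 1) (Sum.inr (z.2, r))).mono ?_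
      rintro x ⟨k, hk, n, hn, rfl⟩
      exact ⟨(k, n), rfl⟩
    · refine Set.infinite_of_injOn_mapsTo (s := N) (f := fun k => g (k + 1) (Sum.inr (0, r)))
        ?_ ?_ hN
      · intro k hk l hl hkl
        by_contra hne
        refine hR.xg (l + 1) 0 r (k + 1) (Sum.inr (0, r)) ?_ ?_
        · intro he
          have he2 := congrArg Prod.fst he
          exact hne (by simpa using he2)
        · have hkl' : g (k + 1) (Sum.inr (0, r)) = g (l + 1) (Sum.inr (0, r)) := hkl
          rw [hkl']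
          exact Gn.refl _
      · intro k hk
        exact hmem N k 0 hk (by omega)
    · intro x hx
      exact subset_cl _ (Or.inl hx)
  · intro N hN k hk
    exact ⟨g (k + 1) (Sum.inr (0, r)), k + 2, (h1 N _).2 ⟨k, hk, 0, by omega, Mg.refl _⟩,
      h5 N k 0 _ hk (by omega) (Mg.refl _), rfl⟩
  · intro N hN u n k hmx hcz hn
    obtain ⟨k', hk', n', hn', hg⟩ := (h1 N u).1 hmx
    have h6 := h5 N k' n' u hk' hn' hg
    have h7 : n = k' + 2 := le_antisymm (TC1_le hcz h6) (TC1_le h6 hcz)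
    have h8 : n = k + 2 := hn
    have h9 : k = k' := by omega
    rw [h9]
    exact hk'

end UN
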