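import Pool.Agent.UN.StD

/-!
# UN: tree configurations, second case (TC2)
-/

set_option autoImplicit false
set_option linter.unusedVariables false

namespace UN

open Set Filter Pool.Agent.Helper5.DU Pool.Agent.Helper6.Str Pool.Agent.Helper79.VC
  Pool.Agent.Helper97.LO Pool.Agent.Helper97.VC

/-- the number of copies -/
private def TC2_c (m k : ℕ) : ℕ := (m + 2) ^ (k + 1)

private theorem TC2_c_lt (m k : ℕ) : m < TC2_c m k - 1 := by
  have h : m + 2 ≤ (m + 2) ^ (k + 1) := Nat.le_self_pow (by omega) _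
  unfold TC2_c
  omega

private theorem TC2_c_pos (m k : ℕ) : 0 < TC2_c m k := by
  have := TC2_c_lt m k
  omega

private theorem TC2_c_step (m k l : ℕ) (h : k < l) : m * TC2_c m k < TC2_c m l - 1 := by
  have h1 : TC2_c m (k + 1) ≤ TC2_c m l :=
    Nat.pow_le_pow_right (by omega) (by omega)
  have h2 : TC2_c m (k + 1) = (m + 2) * TC2_c m k := by
    unfold TC2_c; rw [pow_succ]; ring
  have h3 := TC2_c_lt m k
  have h4 : (m + 2) * TC2_c m k = m * TC2_c m k + 2 * TC2_c m k := by ring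
  omega

private theorem TC2_c_inj (m k l n : ℕ) (h1 : TC2_c m k - 1 ≤ n) (h2 : n ≤ m * TC2_c m k)
    (h3 : TC2_c m l - 1 ≤ n) (h4 : n ≤ m * TC2_c m l) : k = l := by
  rcases lt_trichotomy k l with h | h | h
  · have := TC2_c_step m k l h; omega
  · exact h
  · have := TC2_c_step m l k h; omega

/-- the closed sets -/
private def TC2_X {G : Sg} {M P κ ι : Type} (S : Sys G M) (p : P → M) (g : ℕ → La κ ι → M)
    (D m : ℕ) (N : Set ℕ) : Set M :=
  cl S (range (QT p g D) ∪ {x | ∃ k ∈ N, ∃ b, nm b < TC2_c m k ∧ x = g (k + D) b})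

/-- the links -/
private def TC2_L {G : Sg} {M P κ ι : Type} (S : Sys G M) (p : P → M) (g : ℕ → La κ ι → M)
    (d D m : ℕ) (X : Set M) (u v : M) : Prop :=
  ∃ j ≤ m, ∃ z : Fin j → M, (∀ i, Mx S X (QT p g D) (z i)) ∧
    Irr S p g d D z ∧ (∃ i, Mg S (z i) u) ∧ ∃ i, Mg S (z i) v

section

variable {G : Sg} {M P κ ι : Type} {S : Sys G M} {p : P → M} {g : ℕ → La κ ι → M}

private theorem TC2_q (ac1 : ∀ k b c, ¬ Gn S (p c) (g k b))
    (ac2 : ∀ k b l b', (l, b') ≠ (k, b) → ¬ Gn S (g l b') (g k b)) (D k : ℕ) (b : La κ ι)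
    (c : P ⊕ {v : ℕ × La κ ι // v.1 < D ∧ nm v.2 < D}) :
    ¬ Gn S (QT p g D c) (g (k + D) b) := by
  rcases c with c | ⟨v, hv⟩
  · exact ac1 _ _ _
  · refine ac2 _ _ _ _ fun h => ?_
    have := (Prod.ext_iff.1 h).1
    simp only at this
    omega

private theorem TC2_mg (ac2 : ∀ k b l b', (l, b') ≠ (k, b) → ¬ Gn S (g l b') (g k b))
    {k l : ℕ} {b b' : La κ ι} (h : Gn S (g k b) (g l b')) : k = l ∧ b = b' := by
  by_contra h'
  refine ac2 l b' k b (fun h1 => h' ?_) h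
  exact Prod.ext_iff.1 h1

private theorem TC2_mx (ac1 : ∀ k b c, ¬ Gn S (p c) (g k b))
    (ac2 : ∀ k b l b', (l, b') ≠ (k, b) → ¬ Gn S (g l b') (g k b)) (D m : ℕ) (N : Set ℕ) (u : M) :
    Mx S (TC2_X S p g D m N) (QT p g D) u ↔
      ∃ k ∈ N, ∃ b, nm b < TC2_c m k ∧ Mg S u (g (k + D) b) := by
  constructor
  · rintro ⟨⟨x, hx, hxu⟩, h1, h2⟩
    rcases hx with ⟨c, rfl⟩ | ⟨k, hk, b, hb, rfl⟩
    · exact absurd hxu (h1 c)
    · refine ⟨k, hk, b, hb, ?_, hxu⟩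
      exact h2 _ (subset_cl _ (Or.inr ⟨k, hk, b, hb, rfl⟩)) hxu
  · rintro ⟨k, hk, b, hb, h1, h2⟩
    refine ⟨⟨_, Or.inr ⟨k, hk, b, hb, rfl⟩, h2⟩, fun c hc => ?_, ?_⟩
    · exact TC2_q ac1 ac2 D k b c (hc.trans h1)
    · rintro v ⟨x, hx, hxv⟩ hvu
      rcases hx with ⟨c, rfl⟩ | ⟨k', hk', b', hb', rfl⟩
      · exact absurd ((hxv.trans hvu).trans h1) (TC2_q ac1 ac2 D k b c)
      · obtain ⟨h3, rfl⟩ := TC2_mg ac2 ((hxv.trans hvu).trans h1)
        rw [← h3] at h1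
        exact h1.trans hxv

/-- reindexing of irreducible families -/
private theorem TC2_irr {Z Z' : Type} (d D : ℕ) (z : Z → M) (σ : Z' ≃ Z)
    (h : Irr S p g d D z) : Irr S p g d D (z ∘ σ) := by
  rintro X ⟨y, h1, h2, h3⟩
  have h4 := h (σ.symm ⁻¹' X) ⟨y ∘ σ.symm, fun i hi => by simp [h1 _ hi], fun i hi => h2 _ hi,
    h3.comp' (Sum.map id σ.symm) (by rintro (c | i) <;> simp) (by rintro (c | i) <;> rfl)⟩
  rcases h4 with h4 | h4
  · left
    ext i
    have : σ i ∈ σ.symm ⁻¹' X ↔ σ i ∈ (∅ : Set Z) := by rw [h4]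
    simpa using this
  · right
    ext i
    have : σ i ∈ σ.symm ⁻¹' X ↔ σ i ∈ (univ : Set Z) := by rw [h4]
    simpa using this

private theorem TC2_pick (hIR1 : St_IR1) (hsym : Sym S p g)
    (ac1 : ∀ k b c, ¬ Gn S (p c) (g k b))
    (ac2 : ∀ k b l b', (l, b') ≠ (k, b) → ¬ Gn S (g l b') (g k b)) (d m : ℕ) (N : Set ℕ)
    {j : ℕ} (hj : j ≤ m) (z : Fin j → M)
    (hz : ∀ i, Mx S (TC2_X S p g (d + m) m N) (QT p g (d + m)) (z i))
    (hI : Irr S p g d (d + m) z) {i₀ : Fin j} {k₀ : ℕ} {b₀ : La κ ι}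
    (h₀ : Mg S (z i₀) (g (k₀ + (d + m)) b₀)) :
    k₀ ∈ N ∧ nm b₀ < TC2_c m k₀ ∧ ∀ i, ∃ b, nm b < TC2_c m k₀ ∧
      Mg S (z i) (g (k₀ + (d + m)) b) := by
  have h1 : ∀ i, ∃ k ∈ N, ∃ b, nm b < TC2_c m k ∧ Mg S (z i) (g (k + (d + m)) b) := fun i =>
    (TC2_mx ac1 ac2 _ _ _ _).1 (hz i)
  choose k hk b hb hm using h1
  have h2 : ∀ i, ∃ l, z i = S.w l (g (k i + (d + m)) (b i)) := fun i => (hm i).2
  choose l hl using h2
  have h3 := hIR1 G M P κ ι S p g d m j z l (fun i => k i + (d + m)) b hsym hj hl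
    (fun i => by omega) hI
  have h4 := TC2_mg ac2 ((hm i₀).symm.trans h₀).1
  have h5 : k i₀ = k₀ := by have := h4.1; omega
  have h6 : ∀ i, k i = k₀ := fun i => by
    have := h3 i i₀
    omega
  refine ⟨h5 ▸ hk i₀, ?_, fun i => ⟨b i, ?_, ?_⟩⟩
  · rw [← h4.2, ← h5]; exact hb i₀
  · rw [← h6 i]; exact hb i
  · rw [← h6 i]; exact hm i

/-- links are between elements with the same index -/
private theorem TC2_two (hIR1 : St_IR1) (hsym : Sym S p g)
    (ac1 : ∀ k b c, ¬ Gn S (p c) (g k b))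
    (ac2 : ∀ k b l b', (l, b') ≠ (k, b) → ¬ Gn S (g l b') (g k b)) (d m : ℕ) (N : Set ℕ)
    {u v : M} {k k' : ℕ} {b b' : La κ ι}
    (h : TC2_L S p g d (d + m) m (TC2_X S p g (d + m) m N) u v)
    (hu : Mg S u (g (k + (d + m)) b)) (hv : Mg S v (g (k' + (d + m)) b')) : k = k' := by
  obtain ⟨j, hj, z, hz, hI, ⟨i, hi⟩, ⟨i', hi'⟩⟩ := h
  obtain ⟨-, -, h1⟩ := TC2_pick hIR1 hsym ac1 ac2 d m N hj z hz hI (hi.trans hu)
  obtain ⟨b₂, -, h2⟩ := h1 i'
  have := (TC2_mg ac2 (h2.symm.trans (hi'.trans hv)).1).1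
  omega

/-- the labels with number below `c` -/
private def TC2_e {κ ι : Type} (c : ℕ) (x : κ ⊕ Fin c × ι) : La κ ι :=
  Sum.map id (Prod.map Fin.val id) x

private theorem TC2_e_inj {κ ι : Type} (c : ℕ) :
    Function.Injective (TC2_e c : κ ⊕ Fin c × ι → La κ ι) := by
  rintro (e | ⟨n, r⟩) (e' | ⟨n', r'⟩) h
  · simpa [TC2_e] using h
  · simp [TC2_e] at h
  · simp [TC2_e] at h
  · simp only [TC2_e, Sum.map_inr, Prod.map_apply, id_eq, Sum.inr.injEq, Prod.mk.injEq] at h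
    rw [Fin.val_injective h.1, h.2]

private theorem TC2_e_nm {κ ι : Type} {c : ℕ} (hc : 0 < c) (x : κ ⊕ Fin c × ι) :
    nm (TC2_e c x) < c := by
  rcases x with e | ⟨n, r⟩
  · exact hc
  · exact n.2

private theorem TC2_e_surj {κ ι : Type} {c : ℕ} (b : La κ ι) (hb : nm b < c) :
    ∃ x : κ ⊕ Fin c × ι, TC2_e c x = b := by
  rcases b with e | ⟨n, r⟩
  · exact ⟨Sum.inl e, rfl⟩
  · exact ⟨Sum.inr (⟨n, hb⟩, r), rfl⟩

/-- the extension of a permutation -/
private def TC2_t {c : ℕ} (τ : Equiv.Perm (Fin c)) (n : ℕ) : ℕ :=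
  if h : n < c then (τ ⟨n, h⟩).val else n

private theorem TC2_t_inj {c : ℕ} (τ : Equiv.Perm (Fin c)) (n n' : ℕ) :
    n = n' ↔ TC2_t τ n = TC2_t τ n' := by
  refine ⟨fun h => h ▸ rfl, fun h => ?_⟩
  unfold TC2_t at h
  by_cases h1 : n < c <;> by_cases h2 : n' < c
  · simp only [h1, h2, dite_true] at h
    have := τ.injective (Fin.val_injective h)
    simpa using this
  · simp only [h1, h2, dite_true, dite_false] at h
    have := (τ ⟨n, h1⟩).2
    omega
  · simp only [h1, h2, dite_true, dite_false] at h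
    have := (τ ⟨n', h2⟩).2
    omega
  · simpa [h1, h2] using h

private def TC2_s {κ ι : Type} {c : ℕ} (τ : Equiv.Perm (Fin c)) (b : La κ ι) : La κ ι :=
  Sum.map id (Prod.map (TC2_t τ) id) b

private theorem TC2_s_e {κ ι : Type} {c : ℕ} (τ : Equiv.Perm (Fin c)) (x : κ ⊕ Fin c × ι) :
    TC2_s τ (TC2_e c x) = TC2_e c (Sum.map id (Prod.map τ id) x) := by
  rcases x with e | ⟨n, r⟩
  · rfl
  · simp [TC2_s, TC2_e, TC2_t]

private theorem TC2_s_nm {κ ι : Type} {c : ℕ} (τ : Equiv.Perm (Fin c)) (b : La κ ι)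
    (hb : nm b < c) : nm (TC2_s τ b) < c := by
  obtain ⟨x, rfl⟩ := TC2_e_surj b hb
  rw [TC2_s_e]
  exact TC2_e_nm (by omega) _

/-- links are invariant under permutations -/
private theorem TC2_perm (hIR1 : St_IR1) (hIR3 : St_IR3) (hsym : Sym S p g)
    (ac1 : ∀ k b c, ¬ Gn S (p c) (g k b))
    (ac2 : ∀ k b l b', (l, b') ≠ (k, b) → ¬ Gn S (g l b') (g k b)) (d m : ℕ) (N : Set ℕ)
    {k : ℕ} (τ : Equiv.Perm (Fin (TC2_c m k))) {b b' : La κ ι}
    (h : TC2_L S p g d (d + m) m (TC2_X S p g (d + m) m N) (g (k + (d + m)) b)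
      (g (k + (d + m)) b')) :
    TC2_L S p g d (d + m) m (TC2_X S p g (d + m) m N) (g (k + (d + m)) (TC2_s τ b))
      (g (k + (d + m)) (TC2_s τ b')) := by
  obtain ⟨j, hj, z, hz, hI, ⟨i, hi⟩, ⟨i', hi'⟩⟩ := h
  obtain ⟨hk, -, h1⟩ := TC2_pick hIR1 hsym ac1 ac2 d m N hj z hz hI hi
  choose c hc hm using h1
  have h2 : ∀ i, ∃ l, z i = S.w l (g (k + (d + m)) (c i)) := fun i => (hm i).2
  choose l hl using h2
  -- the symmetry
  let V := {v : ℕ × La κ ι // v.1 < d + m ∧ nm v.2 < d + m} ⊕ La κ ι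
  let f : V → ℕ × La κ ι := Sum.elim (fun v => v.1) (fun b => (k + (d + m), b))
  let f' : V → ℕ × La κ ι := Sum.elim (fun v => v.1) (fun b => (k + (d + m), TC2_s τ b))
  have hTI : TI f f' := by
    refine ⟨?_, ?_, ?_⟩
    · rintro (v | b) (v' | b') <;> exact Iff.rfl
    · rintro (v | b)
      · rfl
      · rcases b with e | ⟨n, r⟩ <;> rfl
    · rintro (v | b) (v' | b') h3 ⟨r, hr⟩ ⟨r', hr'⟩
      · exact Iff.rfl
      · have := v.2.1
        simp only [f, Sum.elim_inl, Sum.elim_inr] at h3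
        omega
      · have := v'.2.1
        simp only [f, Sum.elim_inl, Sum.elim_inr] at h3
        omega
      · rcases b with e | ⟨n, r1⟩
        · simp [f, kd] at hr
        · rcases b' with e | ⟨n', r1'⟩
          · simp [f, kd] at hr'
          · exact TC2_t_inj τ n n'
  have hE := hsym V f f' hTI
  let z' : Fin j → M := fun i => S.w (l i) (g (k + (d + m)) (TC2_s τ (c i)))
  have hF : Eqv S (Sum.elim (Sum.elim (QT p g (d + m)) z) (fun b => g (k + (d + m)) b))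
      S (Sum.elim (Sum.elim (QT p g (d + m)) z') (fun b => g (k + (d + m)) (TC2_s τ b))) := by
    refine hE.words' ?_
    rintro (((c' | v) | i) | b)
    · exact ⟨[], Sum.inl c', rfl, rfl⟩
    · exact ⟨[], Sum.inr (Sum.inl v), rfl, rfl⟩
    · exact ⟨l i, Sum.inr (Sum.inr (c i)), hl i, rfl⟩
    · exact ⟨[], Sum.inr (Sum.inr b), rfl, rfl⟩
  have hmg : ∀ i b, Mg S (z i) (g (k + (d + m)) b) →
      Mg S (z' i) (g (k + (d + m)) (TC2_s τ b)) := fun i b h3 =>
    (hF.mg (Sum.inl (Sum.inr i)) (Sum.inr b)).1 h3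
  refine ⟨j, hj, z', fun i => ?_, ?_, ⟨i, hmg i _ hi⟩, ⟨i', hmg i' _ hi'⟩⟩
  · exact (TC2_mx ac1 ac2 _ _ _ _).2 ⟨k, hk, _, TC2_s_nm τ _ (hc i), hmg i _ (hm i)⟩
  · exact (hIR3 G M P κ ι (Fin j) S p g d (d + m) z z' (by omega)
      (hF.comp' Sum.inl (fun _ => rfl) (fun _ => rfl))).1 hI

/-- links between the labels with index `k` -/
private def TC2_r (S : Sys G M) (p : P → M) (g : ℕ → La κ ι → M) (d m : ℕ) (N : Set ℕ) (k : ℕ)
    (x y : κ ⊕ Fin (TC2_c m k) × ι) : Prop :=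
  TC2_L S p g d (d + m) m (TC2_X S p g (d + m) m N) (g (k + (d + m)) (TC2_e _ x))
    (g (k + (d + m)) (TC2_e _ y))

private theorem TC2_five (hIR1 : St_IR1) (hsym : Sym S p g)
    (ac1 : ∀ k b c, ¬ Gn S (p c) (g k b))
    (ac2 : ∀ k b l b', (l, b') ≠ (k, b) → ¬ Gn S (g l b') (g k b)) (d m : ℕ) (N : Set ℕ)
    (hinv : ∀ (X : Set M) (u v u' v' : M), Mx S X (QT p g (d + m)) u →
      Mx S X (QT p g (d + m)) v → Mx S X (QT p g (d + m)) u' → Mx S X (QT p g (d + m)) v' →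
      Mg S u u' → Mg S v v' → TC2_L S p g d (d + m) m X u v → TC2_L S p g d (d + m) m X u' v')
    (hfκ : Finite κ) (hfι : Finite ι) {k : ℕ} (hk : k ∈ N) {u : M}
    {x : κ ⊕ Fin (TC2_c m k) × ι} (hu : Mg S u (g (k + (d + m)) (TC2_e _ x))) (n : ℕ) :
    Cz S (TC2_X S p g (d + m) m N) (QT p g (d + m)) (TC2_L S p g d (d + m) m) u n ↔
      n = {y | Relation.ReflTransGen (TC2_r S p g d m N k) x y}.ncard := by
  have hmx : ∀ v (y : κ ⊕ Fin (TC2_c m k) × ι), Mg S v (g (k + (d + m)) (TC2_e _ y)) →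
      Mx S (TC2_X S p g (d + m) m N) (QT p g (d + m)) v := fun v y hv =>
    (TC2_mx ac1 ac2 _ _ _ _).2 ⟨k, hk, _, TC2_e_nm (TC2_c_pos m k) y, hv⟩
  have hA : ∀ v, Cn S (TC2_X S p g (d + m) m N) (QT p g (d + m)) (TC2_L S p g d (d + m) m) u v →
      ∃ y, Mg S v (g (k + (d + m)) (TC2_e _ y)) ∧
        Relation.ReflTransGen (TC2_r S p g d m N k) x y := by
    intro v hv
    induction hv with
    | refl => exact ⟨x, hu, Relation.ReflTransGen.refl⟩
    | tail h1 h2 ih =>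
      obtain ⟨y, hy1, hy2⟩ := ih
      rename_i v v'
      obtain ⟨h3, h4 | h4⟩ := h2
      · obtain ⟨k', hk', b', hb', hm'⟩ := (TC2_mx ac1 ac2 _ _ _ _).1 h3
        obtain rfl := TC2_two hIR1 hsym ac1 ac2 d m N h4 hy1 hm'
        obtain ⟨y', rfl⟩ := TC2_e_surj b' hb'
        refine ⟨y', hm', hy2.tail ?_⟩
        exact hinv _ _ _ _ _ (hmx _ y hy1) h3 (hmx _ y (Mg.refl _)) (hmx _ y' (Mg.refl _))
          hy1 hm' h4
      · exact ⟨y, h4.symm.trans hy1, hy2⟩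
  have hB : ∀ y, Relation.ReflTransGen (TC2_r S p g d m N k) x y →
      ∀ v, Mg S v (g (k + (d + m)) (TC2_e _ y)) →
      Cn S (TC2_X S p g (d + m) m N) (QT p g (d + m)) (TC2_L S p g d (d + m) m) u v := by
    intro y hy
    induction hy with
    | refl =>
      intro v hv
      exact Relation.ReflTransGen.single ⟨hmx v x hv, Or.inr (hu.trans hv.symm)⟩
    | tail h1 h2 ih =>
      rename_i y y'
      intro v hv
      refine (ih _ (Mg.refl _)).tail ⟨hmx v y' hv, Or.inl ?_⟩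
      exact hinv _ _ _ _ _ (hmx _ y (Mg.refl _)) (hmx _ y' (Mg.refl _)) (hmx _ y (Mg.refl _))
        (hmx _ y' hv) (Mg.refl _) hv.symm h2
  have hgi : ∀ y y' : κ ⊕ Fin (TC2_c m k) × ι, Mg S (g (k + (d + m)) (TC2_e _ y))
      (g (k + (d + m)) (TC2_e _ y')) → y = y' := fun y y' h =>
    TC2_e_inj _ (TC2_mg ac2 h.1).2
  have hfin : {y | Relation.ReflTransGen (TC2_r S p g d m N k) x y}.Finite := Set.toFinite _
  have := hfin.to_subtype
  constructor
  · rintro ⟨t, h1, h2, h3⟩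
    choose y hy1 hy2 using fun i => hA _ (h1 i)
    have h4 : Nat.card (Fin n) =
        Nat.card {y | Relation.ReflTransGen (TC2_r S p g d m N k) x y} := by
      refine Nat.card_eq_of_bijective (fun i => ⟨y i, hy2 i⟩) ⟨fun i i' h => ?_, ?_⟩
      · by_contra hne
        have h5 : y i = y i' := congrArg Subtype.val h
        exact h2 i i' hne ((hy1 i).trans (h5 ▸ (hy1 i').symm))
      · rintro ⟨y', hy'⟩
        obtain ⟨i, hi⟩ := h3 _ (hB y' hy' _ (Mg.refl _))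
        exact ⟨i, Subtype.ext (hgi _ _ (hi.trans (hy1 i))).symm⟩
    rw [Nat.card_eq_fintype_card, Fintype.card_fin] at h4
    rw [h4]
    rfl
  · rintro rfl
    let σ := (Finite.equivFin {y | Relation.ReflTransGen (TC2_r S p g d m N k) x y}).symm
    refine ⟨fun i => g (k + (d + m)) (TC2_e _ (σ i).1), fun i => ?_, fun i i' hne h => ?_,
      fun v hv => ?_⟩
    · exact hB _ (σ i).2 _ (Mg.refl _)
    · exact hne (σ.injective (Subtype.ext (hgi _ _ h)))
    · obtain ⟨y, hy1, hy2⟩ := hA v hv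
      refine ⟨σ.symm ⟨y, hy2⟩, ?_⟩
      show Mg S v (g (k + (d + m)) (TC2_e _ (σ (σ.symm ⟨y, hy2⟩)).1))
      rw [Equiv.apply_symm_apply]
      exact hy1

private theorem TC2_finV (κ ι : Type) (hfκ : Finite κ) (hfι : Finite ι) (D : ℕ) :
    Finite {v : ℕ × La κ ι // v.1 < D ∧ nm v.2 < D} := by
  have h : {v : ℕ × La κ ι | v.1 < D ∧ nm v.2 < D} ⊆
      (Iio D) ×ˢ ((range Sum.inl) ∪ Sum.inr '' ((Iio D) ×ˢ univ)) := by
    rintro ⟨k, b⟩ ⟨h1, h2⟩
    refine ⟨h1, ?_⟩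
    rcases b with e | ⟨n, r⟩
    · exact Or.inl ⟨e, rfl⟩
    · exact Or.inr ⟨(n, r), ⟨h2, trivial⟩, rfl⟩
  have h2 : ((Iio D) ×ˢ ((range (Sum.inl : κ → La κ ι)) ∪
      Sum.inr '' ((Iio D) ×ˢ (univ : Set ι)))).Finite :=
    (finite_Iio D).prod ((finite_range _).union (((finite_Iio D).prod finite_univ).image _))
  exact (h2.subset h).to_subtype

end

/-- Tree configurations, second case. -/
theorem thm_TC2 (hIR1 : St_IR1) (hIR2 : St_IR2) (hIR3 : St_IR3) (hGRS : St_GRS) (hTLK : St_TLK)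
    (hCSD : St_CSD) : St_TC2 := by
  intro G U M P κ ι S p g a d hG hd hP hT hR
  by_contra hno
  have hno : ∀ k n e r, ¬ Gn S (g k (Sum.inr (n, r))) (g k (Sum.inl e)) := fun k n e r h =>
    hno ⟨k, n, e, r, h⟩
  have hfP := hT.finP
  have hfκ := hT.fin₁
  have hfι := hT.fin₂
  have hsym := hT.sym
  have ac1 : ∀ k b c, ¬ Gn S (p c) (g k b) := by
    rintro k (e | ⟨n, r⟩) c
    · exact hR.bp k e c
    · exact hR.xp k n r c
  have ac2 : ∀ k b l b', (l, b') ≠ (k, b) → ¬ Gn S (g l b') (g k b) := by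
    rintro k (e | ⟨n, r⟩) l b' hne
    · by_cases hlk : l = k
      · subst hlk
        rcases b' with e' | ⟨n', r'⟩
        · exact hR.bb l e e' (fun h => hne (by rw [h]))
        · exact hno l n' e r'
      · exact hR.bg k e l b' hlk
    · exact hR.xg k n r l b' hne
  obtain ⟨m, hm⟩ : ∃ m, m = Nat.card κ + Nat.card ι := ⟨_, rfl⟩
  obtain ⟨Z, ⟨e, he⟩, ⟨r, hr⟩, hZ⟩ := hIR2 G M P κ ι S p g a d m hd hfκ hfι hsym hT.dif
  have hVL := hTLK G M P κ ι S p g d (d + m) m (by omega)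
  have hinv := hVL.inv
  have hfive := fun (N : Set ℕ) {k : ℕ} (hk : k ∈ N) {u : M} {x : κ ⊕ Fin (TC2_c m k) × ι}
    (hu : Mg S u (g (k + (d + m)) (TC2_e _ x))) =>
    TC2_five hIR1 hsym ac1 ac2 d m N hinv hfκ hfι hk hu
  have hfinV := TC2_finV κ ι hfκ hfι (d + m)
  -- upper bound
  have hup : ∀ (N : Set ℕ) (k : ℕ) (x : κ ⊕ Fin (TC2_c m k) × ι),
      {y | Relation.ReflTransGen (TC2_r S p g d m N k) x y}.ncard ≤ m * TC2_c m k := by
    intro N k x
    have h1 : {y | Relation.ReflTransGen (TC2_r S p g d m N k) x y}.ncard ≤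
        Nat.card (κ ⊕ Fin (TC2_c m k) × ι) := Set.ncard_le_card _
    have h2 : Nat.card (κ ⊕ Fin (TC2_c m k) × ι) = Nat.card κ + TC2_c m k * Nat.card ι := by
      rw [Nat.card_sum, Nat.card_prod, Nat.card_eq_fintype_card (α := Fin _), Fintype.card_fin]
    have h3 := TC2_c_pos m k
    have h4 : Nat.card κ ≤ Nat.card κ * TC2_c m k := Nat.le_mul_of_pos_right _ h3
    have h5 : m * TC2_c m k = Nat.card κ * TC2_c m k + TC2_c m k * Nat.card ι := by
      rw [hm]; ring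
    omega
  -- the link of the irreducible family
  have hlink : ∀ (N : Set ℕ) (k : ℕ), k ∈ N → ∀ n, n < TC2_c m k →
      TC2_L S p g d (d + m) m (TC2_X S p g (d + m) m N) (g (k + (d + m)) (Sum.inl e))
        (g (k + (d + m)) (Sum.inr (n, r))) := by
    intro N k hk n hn
    have hfZ : Finite Z := inferInstance
    let σ : Fin (Nat.card Z) ≃ Z := (Finite.equivFin Z).symm
    have hj : Nat.card Z ≤ m := by
      rw [hm, ← Nat.card_sum]
      exact Nat.card_le_card_of_injective (Subtype.val : Z → κ ⊕ ι) Subtype.val_injective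
    refine ⟨Nat.card Z, hj, (fun c : Z => g (k + (d + m)) (lbl n c)) ∘ σ, fun i => ?_,
      TC2_irr d (d + m) _ σ (hZ (k + (d + m)) n (by omega)),
      ⟨σ.symm ⟨Sum.inl e, he⟩, ?_⟩, ⟨σ.symm ⟨Sum.inr r, hr⟩, ?_⟩⟩
    · refine (TC2_mx ac1 ac2 _ _ _ _).2 ⟨k, hk, lbl n (σ i), ?_, Mg.refl _⟩
      have : nm (lbl n ((σ i : Z) : κ ⊕ ι)) ≤ n := by
        rcases ((σ i : Z) : κ ⊕ ι) with e | r
        · exact Nat.zero_le _
        · exact le_rfl
      omega
    · rw [Function.comp_apply, Equiv.apply_symm_apply]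
      exact Mg.refl _
    · rw [Function.comp_apply, Equiv.apply_symm_apply]
      exact Mg.refl _
  refine hCSD G U M _ S (QT p g (d + m)) (TC2_L S p g d (d + m) m) Ordinal.omega0
    (TC2_X S p g (d + m) m)
    (fun k => {n | TC2_c m k - 1 ≤ n ∧ n ≤ m * TC2_c m k}) hP hT.mem inferInstance omega_lt_om1
    Ordinal.one_lt_omega0.le hVL ?_ ?_ ?_
  · intro N hN
    refine ⟨?_, ?_, ?_, cl_closed _⟩
    · refine cl_countable ?_
      refine (countable_range _).union ?_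
      have : Countable κ := inferInstance
      refine (countable_range fun kb : ℕ × La κ ι => g kb.1 kb.2).mono ?_
      rintro x ⟨k, -, b, -, rfl⟩
      exact ⟨(k + (d + m), b), rfl⟩
    · have h1 : InjOn (fun k => g (k + (d + m)) (Sum.inl e)) N := by
        intro k _ l _ h
        have h' : g (k + (d + m)) (Sum.inl e) = g (l + (d + m)) (Sum.inl e) := h
        have h2 : Gn S (g (k + (d + m)) (Sum.inl e)) (g (l + (d + m)) (Sum.inl e)) := by
          rw [h']; exact Gn.refl _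
        have := (TC2_mg ac2 h2).1
        omega
      refine (hN.image h1).mono ?_
      rintro x ⟨k, hk, rfl⟩
      exact subset_cl _ (Or.inr ⟨k, hk, Sum.inl e, TC2_c_pos m k, rfl⟩)
    · exact subset_union_left.trans (subset_cl _)
  · intro N hN k hk
    have hu : Mg S (g (k + (d + m)) (Sum.inl e)) (g (k + (d + m))
      (TC2_e (TC2_c m k) (Sum.inl e))) := Mg.refl _
    refine ⟨g (k + (d + m)) (Sum.inl e), _, (TC2_mx ac1 ac2 _ _ _ _).2
      ⟨k, hk, Sum.inl e, TC2_c_pos m k, Mg.refl _⟩, (hfive N hk hu _).2 rfl, ?_, hup N k _⟩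
    have h1 : Nat.card (Fin (TC2_c m k)) ≤ Nat.card
        {y | Relation.ReflTransGen (TC2_r S p g d m N k) (Sum.inl e) y} := by
      refine Nat.card_le_card_of_injective (fun n => ⟨Sum.inr (n, r),
        Relation.ReflTransGen.single (hlink N k hk n.1 n.2)⟩) ?_
      intro n n' h
      have := congrArg Subtype.val h
      simpa using this
    rw [Nat.card_eq_fintype_card, Fintype.card_fin] at h1
    exact (Nat.sub_le _ _).trans h1
  · rintro N hN u n k' hu hCz ⟨h1, h2⟩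
    obtain ⟨k, hk, b, hb, hmg⟩ := (TC2_mx ac1 ac2 _ _ _ _).1 hu
    obtain ⟨x, rfl⟩ := TC2_e_surj b hb
    have h3 := (hfive N hk hmg n).1 hCz
    have h4 := hup N k x
    rcases hGRS κ ι (TC2_c m k) (TC2_r S p g d m N k) hfκ hfι
      (by
        rintro x y ⟨j, hj, z, hz, hI, h5, h6⟩
        exact ⟨j, hj, z, hz, hI, h6, h5⟩)
      (by
        intro τ x y h
        have h5 := TC2_perm hIR1 hIR3 hsym ac1 ac2 d m N τ h
        rwa [TC2_s_e, TC2_s_e] at h5) x with h5 | h5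
    · have h6 := TC2_c_lt m k'
      rw [← hm, ← h3] at h5
      omega
    · rw [← h3] at h4 h5
      rw [← TC2_c_inj m k k' n h5 h4 h1 h2]
      exact hk

end UN
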