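import Pool.Agent.UN.StD

/-!
# UN, TLK: the link relation is visible
-/

set_option autoImplicit false

namespace UN

open Set Pool.Agent.Helper5.DU Pool.Agent.Helper6.Str Pool.Agent.Helper79.VC
  Pool.Agent.Helper97.LO Pool.Agent.Helper97.VC

private theorem TLK_mg {G : Sg} {M : Type} {S : Sys G M} {X X' : Set M} {γ : Ordinal.{0}}
    {π : Set (M × M)} (h : BW S S X X' γ π) {a b : M × M} (ha : a ∈ π) (hb : b ∈ π) :
    Mg S a.1 b.1 ↔ Mg S a.2 b.2 := by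
  have h1 := BW.eqv h (v := Sum.elim (fun _ : Unit => a.1) fun _ : Unit => b.1)
    (v' := Sum.elim (fun _ : Unit => a.2) fun _ : Unit => b.2) (by
      rintro (_ | _)
      · exact ha
      · exact hb)
  exact h1.mg (Sum.inl ()) (Sum.inr ())

private theorem TLK_one (hV : St_VMX) (hI : St_IR3) {G : Sg} {M P κ ι : Type} (S : Sys G M)
    (p : P → M) (g : ℕ → La κ ι → M) (d D m : ℕ) (hdD : d ≤ D) {X X' : Set M}
    {π : Set (M × M)} (h : BW S S X X' Ordinal.omega0 π) (hq : prs (QT p g D) (QT p g D) ⊆ π)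
    {a b : M × M} (ha : a ∈ π) (hb : b ∈ π)
    (hl : ∃ j ≤ m, ∃ z : Fin j → M, (∀ i, Mx S X (QT p g D) (z i)) ∧
      Irr S p g d D z ∧ (∃ i, Mg S (z i) a.1) ∧ ∃ i, Mg S (z i) b.1) :
    ∃ j ≤ m, ∃ z : Fin j → M, (∀ i, Mx S X' (QT p g D) (z i)) ∧
      Irr S p g d D z ∧ (∃ i, Mg S (z i) a.2) ∧ ∃ i, Mg S (z i) b.2 := by
  obtain ⟨j, hj, z, hz, hirr, ⟨i₁, h₁⟩, i₂, h₂⟩ := hl
  have hle : (1 : Ordinal.{0}) + (j : Ordinal.{0}) ≤ Ordinal.omega0 := by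
    exact_mod_cast (Ordinal.natCast_lt_omega0 (1 + j)).le
  obtain ⟨z', hz', h3⟩ := BFR.forth_many j (BFR.mono hle h) z fun i => (hz i).1
  have h4 : BW S S X X' 1 (π ∪ range fun i => (z i, z' i)) := h3
  have hmem : ∀ i, (z i, z' i) ∈ π ∪ range fun i => (z i, z' i) := fun i => Or.inr ⟨i, rfl⟩
  refine ⟨j, hj, z', fun i => ?_, ?_, ⟨i₁, ?_⟩, i₂, ?_⟩
  · exact (hV G M M _ S S X X' 1 _ (QT p g D) (QT p g D) (z i) (z' i) le_rfl h4
      (hq.trans subset_union_left) (hmem i) (hz i).1 (hz' i)).1 (hz i)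
  · refine (hI G M P κ ι (Fin j) S p g d D z z' hdD (BW.eqv h4 ?_)).1 hirr
    rintro (c | i)
    · exact Or.inl (hq ⟨c, rfl⟩)
    · exact hmem i
  · exact (TLK_mg h4 (hmem i₁) (Or.inl ha)).1 h₁
  · exact (TLK_mg h4 (hmem i₂) (Or.inl hb)).1 h₂

theorem thm_TLK (hV : St_VMX) (hI : St_IR3) : St_TLK := by
  intro G M P κ ι S p g d D m hdD
  refine ⟨?_, ?_⟩
  · intro X X' π _ _ h hq a ha b hb _ _ _ _
    constructor
    · exact TLK_one hV hI S p g d D m hdD h hq ha hb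
    · have h' : BW S S X' X Ordinal.omega0 (Prod.swap ⁻¹' π) := BFR.swap h
      refine TLK_one hV hI S p g d D m hdD h' ?_ (a := a.swap) (b := b.swap) ?_ ?_
      · rintro _ ⟨c, rfl⟩
        exact hq ⟨c, rfl⟩
      · exact ha
      · exact hb
  · rintro X u v u' v' _ _ _ _ hu hv ⟨j, hj, z, hz, hirr, ⟨i₁, h₁⟩, i₂, h₂⟩
    exact ⟨j, hj, z, hz, hirr, ⟨i₁, h₁.trans hu⟩, i₂, h₂.trans hv⟩

end UN
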