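import Pool.Agent.UN.StD
import Pool.Agent.UN.Bas

/-!
# UN, module TMK: marks lemma for trees
-/

set_option autoImplicit false
set_option linter.unusedVariables false

namespace UN

open Set Filter Pool.Agent.Helper5.DU Pool.Agent.Helper6.Str Pool.Agent.Helper79.VC
  Pool.Agent.Helper97.LO Pool.Agent.Helper97.VC

private theorem TMK_inj {X : Type} (K : Set X) (hK : K.Finite) (d : ℕ) (hd : 0 < d)
    (hc : K.ncard ≤ d) : ∃ α : X → ℕ, Set.InjOn α K ∧ ∀ k, α k < d := by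
  classical
  have := hK.fintype
  let e := Fintype.equivFin K
  have hcard : Fintype.card K = K.ncard := by
    rw [← Nat.card_eq_fintype_card, Nat.card_coe_set_eq]
  refine ⟨fun x => if h : x ∈ K then (e ⟨x, h⟩ : ℕ) else 0, ?_, ?_⟩
  · intro x hx y hy hxy
    simp only [dif_pos hx, dif_pos hy] at hxy
    have h1 := e.injective (Fin.ext hxy)
    exact congrArg Subtype.val h1
  · intro x
    dsimp only
    split_ifs with h
    · have := (e ⟨x, h⟩).2
      omega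
    · exact hd

private theorem TMK_vs {G : Sg} {ι : Type} {d : ℕ} (hd : Ard G d) (a : At G ι) :
    a.vs.ncard ≤ d := by
  cases a with
  | eq s t =>
    have h1 : (At.eq s t).vs = ({s.2, t.2} : Set ι) := rfl
    rw [h1]
    exact (Set.ncard_insert_le _ _).trans (by rw [Set.ncard_singleton]; exact hd.1)
  | rel R t =>
    have h1 : (At.rel R t).vs = range fun k => (t k).2 := rfl
    rw [h1, ← Set.image_univ]
    refine (Set.ncard_image_le Set.finite_univ).trans ?_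
    rw [Set.ncard_univ, Nat.card_eq_fintype_card, Fintype.card_fin]
    exact hd.2 R

/-- the moved label -/
private def TMK_mb {κ ι : Type} (β : ℕ → ℕ) (b : La κ ι) : La κ ι :=
  Sum.map id (fun x => (β x.1, x.2)) b

private theorem TMK_kd {κ ι : Type} (β : ℕ → ℕ) (b : La κ ι) : kd (TMK_mb β b) = kd b := by
  rcases b with e | ⟨n, r⟩ <;> rfl

private theorem TMK_one {G : Sg} {M P κ ι V : Type} {S : Sys G M} {p : P → M}
    {g : ℕ → La κ ι → M} {d : ℕ} {E : Set ℕ} {u : V → M} (hs : Sym S p g)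
    (hE : ∀ k ∈ E, d ≤ k)
    (hu : ∀ v, (∃ c, Gn S (p c) (u v)) ∨ ∃ k ∈ E, ∃ b, Gn S (g k b) (u v))
    (A : Set ({k : ℕ // k ∉ E} × La κ ι)) (α : ℕ → ℕ) (β : ℕ → ℕ → ℕ)
    (hα : ∀ c ∈ A, ∀ c' ∈ A, α c.1 = α c'.1 → (c.1 : ℕ) = c'.1) (hαd : ∀ k, α k < d)
    (hβ : ∀ c ∈ A, ∀ c' ∈ A, (c.1 : ℕ) = c'.1 → β c.1 (nm c.2) = β c.1 (nm c'.2) →
      nm c.2 = nm c'.2) :
    Eqv S (Sum.elim p (Sum.elim (fun c : A => g c.1.1 c.1.2) u))
      S (Sum.elim p (Sum.elim (fun c : A => g (α c.1.1) (TMK_mb (β c.1.1) c.1.2)) u)) := by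
  classical
  let B := {v : V // ∃ k ∈ E, ∃ b, Gn S (g k b) (u v)}
  have hB : ∀ v : B, ∃ k ∈ E, ∃ b, Gn S (g k b) (u v.1) := fun v => v.2
  choose kv hkv bv hbv using hB
  let h : A ⊕ B → ℕ × La κ ι := Sum.elim (fun c => ((c.1.1 : ℕ), c.1.2)) fun v => (kv v, bv v)
  let h' : A ⊕ B → ℕ × La κ ι :=
    Sum.elim (fun c => (α c.1.1, TMK_mb (β c.1.1) c.1.2)) fun v => (kv v, bv v)
  have hne : ∀ (c : A) (v : B), (c.1.1 : ℕ) ≠ kv v := fun c v hcv =>
    c.1.1.2 (by rw [hcv]; exact hkv v)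
  have hne' : ∀ (c : A) (v : B), α c.1.1 ≠ kv v := fun c v hcv => by
    have h1 := hαd c.1.1
    have h2 := hE _ (hkv v)
    omega
  have hTI : TI h h' := by
    refine ⟨?_, ?_, ?_⟩
    · rintro (c | v) (c' | v')
      · constructor
        · intro h1
          have h1 : (c.1.1 : ℕ) = c'.1.1 := h1
          show α c.1.1 = α c'.1.1
          rw [h1]
        · intro h1
          exact hα _ c.2 _ c'.2 h1
      · exact ⟨fun h1 => absurd h1 (hne c v'), fun h1 => absurd h1 (hne' c v')⟩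
      · exact ⟨fun h1 => absurd h1.symm (hne c' v), fun h1 => absurd h1.symm (hne' c' v)⟩
      · exact Iff.rfl
    · rintro (c | v)
      · exact (TMK_kd _ _).symm
      · rfl
    · rintro (c | v) (c' | v') h1 h2 h3
      · have h1 : (c.1.1 : ℕ) = c'.1.1 := h1
        obtain ⟨r, hr⟩ := h2
        obtain ⟨r', hr'⟩ := h3
        have hr : kd c.1.2 = Sum.inr r := hr
        have hr' : kd c'.1.2 = Sum.inr r' := hr'
        show nm c.1.2 = nm c'.1.2 ↔
          nm (TMK_mb (β c.1.1) c.1.2) = nm (TMK_mb (β c'.1.1) c'.1.2)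
        have h4 : nm (TMK_mb (β c.1.1) c.1.2) = β c.1.1 (nm c.1.2) := by
          rcases hb : c.1.2 with e | ⟨n, r⟩
          · rw [hb] at hr; cases hr
          · rfl
        have h5 : nm (TMK_mb (β c'.1.1) c'.1.2) = β c'.1.1 (nm c'.1.2) := by
          rcases hb : c'.1.2 with e | ⟨n, r⟩
          · rw [hb] at hr'; cases hr'
          · rfl
        rw [h4, h5, ← h1]
        exact ⟨fun h6 => by rw [h6], fun h6 => hβ _ c.2 _ c'.2 h1 h6⟩
      · exact absurd h1 (hne c v')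
      · exact absurd h1.symm (hne c' v)
      · exact Iff.rfl
  refine (hs _ h h' hTI).words' ?_
  rintro (c | c | v)
  · exact ⟨[], Sum.inl c, rfl, rfl⟩
  · exact ⟨[], Sum.inr (Sum.inl c), rfl, rfl⟩
  · rcases hu v with ⟨c, l, hl⟩ | hv
    · exact ⟨l, Sum.inl c, hl, hl⟩
    · obtain ⟨l, hl⟩ := hbv ⟨v, hv⟩
      exact ⟨l, Sum.inr (Sum.inr ⟨v, hv⟩), hl, hl⟩

theorem thm_TMK : St_TMK := by
  classical
  intro G M P κ ι V S p g d E u u' hd hs hE hu hu' huu a
  have hd2 : 2 ≤ d := hd.1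
  -- the positions which occur in the atom
  let A : Set ({k : ℕ // k ∉ E} × La κ ι) := {c | Sum.inr (Sum.inl c) ∈ a.vs}
  have hAf : A.Finite := by
    refine a.vs_finite.preimage (f := fun c => Sum.inr (Sum.inl c)) ?_
    intro x _ y _ hxy
    exact Sum.inl_injective (Sum.inr_injective hxy)
  have hAc : A.ncard ≤ d := by
    refine le_trans ?_ (TMK_vs hd a)
    refine Set.ncard_le_ncard_of_injOn (fun c => Sum.inr (Sum.inl c)) (fun c hc => hc) ?_
      a.vs_finite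
    intro x _ y _ hxy
    exact Sum.inl_injective (Sum.inr_injective hxy)
  obtain ⟨α, hα, hαd⟩ := TMK_inj ((fun c : {k : ℕ // k ∉ E} × La κ ι => (c.1 : ℕ)) '' A)
    (hAf.image _) d (by omega) ((Set.ncard_image_le hAf).trans hAc)
  have hβ := fun k : ℕ => TMK_inj
    ((fun c : {k : ℕ // k ∉ E} × La κ ι => nm c.2) '' {c ∈ A | (c.1 : ℕ) = k})
    ((hAf.subset (Set.sep_subset _ _)).image _) d (by omega)
    ((Set.ncard_image_le (hAf.subset (Set.sep_subset _ _))).trans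
      ((Set.ncard_le_ncard (Set.sep_subset _ _) hAf).trans hAc))
  choose β hβ hβd using hβ
  have key : ∀ w : V → M,
      (∀ v, (∃ c, Gn S (p c) (w v)) ∨ ∃ k ∈ E, ∃ b, Gn S (g k b) (w v)) →
      (Tr S (Sum.elim p (Sum.elim (fun c : {k : ℕ // k ∉ E} × La κ ι => g c.1 c.2) w)) a ↔
        Tr S (Sum.elim p (Sum.elim (fun c : {k : ℕ // k ∉ E} × La κ ι =>
          g (α c.1) (TMK_mb (β c.1) c.2)) w)) a) := by
    intro w hw
    have h1 := TMK_one hs hE hw A α β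
      (fun c hc c' hc' h => hα ⟨c, hc, rfl⟩ ⟨c', hc', rfl⟩ h) hαd
      (fun c hc c' hc' h h' => by
        refine hβ c.1 ⟨c, ⟨hc, rfl⟩, rfl⟩ ⟨c', ⟨hc', h.symm⟩, rfl⟩ h')
    obtain ⟨b, hb⟩ := a.exists_sub a.vs Subset.rfl
    rw [← hb, Tr_map, Tr_map]
    have h2 : Eqv S (fun x : a.vs => Sum.elim p
          (Sum.elim (fun c : {k : ℕ // k ∉ E} × La κ ι => g c.1 c.2) w) x.1)
        S (fun x : a.vs => Sum.elim p (Sum.elim (fun c : {k : ℕ // k ∉ E} × La κ ι =>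
          g (α c.1) (TMK_mb (β c.1) c.2)) w) x.1) := by
      refine h1.words' ?_
      rintro ⟨c | c | v, hx⟩
      · exact ⟨[], Sum.inl c, rfl, rfl⟩
      · exact ⟨[], Sum.inr (Sum.inl ⟨c, hx⟩), rfl, rfl⟩
      · exact ⟨[], Sum.inr (Sum.inr v), rfl, rfl⟩
    exact h2 b
  rw [key u hu, key u' hu']
  have hpos : ∀ c : {k : ℕ // k ∉ E} × La κ ι,
      α c.1 < d ∧ nm (TMK_mb (β c.1) c.2) < d := by
    intro c
    refine ⟨hαd _, ?_⟩
    rcases hb : c.2 with e | ⟨n, r⟩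
    · show 0 < d
      omega
    · exact hβd _ _
  have h3 : Eqv S (Sum.elim p (Sum.elim (fun c : {k : ℕ // k ∉ E} × La κ ι =>
        g (α c.1) (TMK_mb (β c.1) c.2)) u))
      S (Sum.elim p (Sum.elim (fun c : {k : ℕ // k ∉ E} × La κ ι =>
        g (α c.1) (TMK_mb (β c.1) c.2)) u')) := by
    refine huu.words' ?_
    rintro (c | c | v)
    · exact ⟨[], Sum.inl (Sum.inl c), rfl, rfl⟩
    · exact ⟨[], Sum.inl (Sum.inr ⟨(α c.1, TMK_mb (β c.1) c.2), hpos c⟩), rfl, rfl⟩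
    · exact ⟨[], Sum.inr v, rfl, rfl⟩
  exact h3 a

end UN
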