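import Pool.Agent.UN.StD

/-!
# UN [TRD]: minimal tree configurations are reduced
-/

set_option autoImplicit false
set_option linter.unusedVariables false

namespace UN

open Set Filter Pool.Agent.Helper5.DU Pool.Agent.Helper6.Str Pool.Agent.Helper79.VC
  Pool.Agent.Helper97.LO Pool.Agent.Helper97.VC

section

variable {G : Sg} {M P P' κ ι κ' ι' V : Type}

/-- labels of a part of the rows -/
def TRD_li (j : κ' → κ) (i : ι' → ι) (b : La κ' ι') : La κ ι := Sum.map j (Prod.map id i) b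

theorem TRD_kd (j : κ' → κ) (i : ι' → ι) (b : La κ' ι') :
    kd (TRD_li j i b) = Sum.map j i (kd b) := by
  rcases b with e | ⟨n, r⟩ <;> rfl

theorem TRD_nm (j : κ' → κ) (i : ι' → ι) (b : La κ' ι') : nm (TRD_li j i b) = nm b := by
  rcases b with e | ⟨n, r⟩ <;> rfl

theorem TRD_inr (j : κ' → κ) (i : ι' → ι) (b : La κ' ι') :
    (∃ r, kd (TRD_li j i b) = Sum.inr r) → ∃ r, kd b = Sum.inr r := by
  rcases b with e | ⟨n, r⟩
  · rintro ⟨r, hr⟩
    exact absurd hr Sum.inl_ne_inr
  · intro _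
    exact ⟨r, rfl⟩

theorem TRD_TI (j : κ' → κ) (i : ι' → ι) {h h' : V → ℕ × La κ' ι'} (hT : TI h h') :
    TI (fun v => ((h v).1, TRD_li j i (h v).2)) (fun v => ((h' v).1, TRD_li j i (h' v).2)) := by
  obtain ⟨h1, h2, h3⟩ := hT
  refine ⟨h1, fun v => ?_, fun v v' e1 e2 e3 => ?_⟩
  · rw [TRD_kd, TRD_kd, h2]
  · rw [TRD_nm, TRD_nm, TRD_nm, TRD_nm]
    exact h3 v v' e1 (TRD_inr j i _ e2) (TRD_inr j i _ e3)

/-- A configuration with other rows and parameters. -/
theorem TRD_red {U : ∀ M : Type, Sys G M → Prop} {S : Sys G M} {p : P → M}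
    {g : ℕ → La κ ι → M} {a : At G (P ⊕ (κ ⊕ ι))} (h : TCf U S p g a) [Finite P'] [Finite κ']
    [Finite ι'] (p' : P' → M) (j : κ' → κ) (i : ι' → ι)
    (s : P ⊕ (κ ⊕ ι) → List G.Fn × (P' ⊕ (κ' ⊕ ι')))
    (hs : ∀ k l n x, S.w (s x).1 (Sum.elim p' (mx (fun k b => g k (TRD_li j i b)) k l n) (s x).2) =
      Sum.elim p (mx g k l n) x)
    (hsym : Sym S p' fun k b => g k (TRD_li j i b))
    (hf : ∀ k n r c, ¬ Gn S (p' c) (g k (Sum.inr (n, i r))))
    (hc : Nat.card κ' + Nat.card ι' < Nat.card κ + Nat.card ι) :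
    ∃ n < Nat.card κ + Nat.card ι, TC U n := by
  refine ⟨_, hc, M, S, P', κ', ι', p', fun k b => g k (TRD_li j i b), a.sub s, ?_, rfl⟩
  have hTr : ∀ k l n, Tr S (Sum.elim p' (mx (fun k b => g k (TRD_li j i b)) k l n)) (a.sub s) ↔
      Tr S (Sum.elim p (mx g k l n)) a := by
    intro k l n
    rw [Tr_sub]
    rw [show (fun x => S.w (s x).1 (Sum.elim p' (mx (fun k b => g k (TRD_li j i b)) k l n)
      (s x).2)) = Sum.elim p (mx g k l n) from funext fun x => hs k l n x]
  refine ⟨h.mem, inferInstance, inferInstance, inferInstance, hsym, fun k n r c => hf k n r c,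
    fun k n r l b hb => ?_, fun k l n hkl => ?_⟩
  · refine h.fre₂ k n (i r) l (TRD_li j i b) fun r' hr' => ?_
    rcases b with e | ⟨n', r''⟩
    · exact absurd (Prod.ext_iff.1 hr').2 Sum.inl_ne_inr
    · have h1 := (Prod.ext_iff.1 hr').1
      have h2 := Sum.inr_injective (Prod.ext_iff.1 hr').2
      have h3 : n' = n := (Prod.ext_iff.1 h2).1
      refine hb r'' ?_
      simp only at h1
      rw [h1, h3]
  · rw [hTr, hTr]
    exact h.dif k l n hkl

theorem TRD_sym (j : κ' → κ) (i : ι' → ι) {S : Sys G M} {p : P → M} {g : ℕ → La κ ι → M}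
    (h : Sym S p g) : Sym S p fun k b => g k (TRD_li j i b) :=
  fun V u u' hu => h V _ _ (TRD_TI j i hu)

/-- Two positions. -/
theorem TRD_two {S : Sys G M} {p : P → M} {g : ℕ → La κ ι → M} (h : Sym S p g)
    {x y x' y' : ℕ × La κ ι} (h1 : x.1 = y.1 ↔ x'.1 = y'.1) (h2 : kd x.2 = kd x'.2)
    (h3 : kd y.2 = kd y'.2) (h4 : x.1 = y.1 → (∃ r, kd x.2 = Sum.inr r) →
      (∃ r, kd y.2 = Sum.inr r) → (nm x.2 = nm y.2 ↔ nm x'.2 = nm y'.2)) (w : List G.Fn)
    (hw : g x.1 x.2 = S.w w (g y.1 y.2)) : g x'.1 x'.2 = S.w w (g y'.1 y'.2) := by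
  have hT : TI (fun c : Bool => if c then x else y) (fun c : Bool => if c then x' else y') := by
    refine ⟨?_, ?_, ?_⟩
    · intro v v'
      cases v <;> cases v' <;> simp only [if_true, Bool.false_eq_true, if_false]
      · rw [eq_comm, h1, eq_comm]
      · exact h1
    · intro v
      cases v
      · exact h3
      · exact h2
    · intro v v'
      rcases v with _ | _ <;> rcases v' with _ | _
      · exact fun _ _ _ => ⟨fun _ => rfl, fun _ => rfl⟩
      · intro e1 e2 e3
        have := h4 e1.symm e3 e2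
        exact ⟨fun h' => (this.1 h'.symm).symm, fun h' => (this.2 h'.symm).symm⟩
      · exact h4
      · exact fun _ _ _ => ⟨fun _ => rfl, fun _ => rfl⟩
  have h5 := (h Bool _ _ hT).w_eq [] w (Sum.inr true) (Sum.inr false)
  exact h5.1 hw

theorem TRD_card {α : Type} [Finite α] (x : α) : Nat.card {y // y ≠ x} < Nat.card α := by
  classical
  have := Fintype.ofFinite α
  rw [Nat.card_eq_fintype_card, Nat.card_eq_fintype_card]
  exact Fintype.card_subtype_lt (x := x) (fun h => h rfl)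

end

open Classical in
/-- replacing the row `e` -/
noncomputable def TRD_s1 {G : Sg} {P P' κ ι : Type} (e : κ) (f : P → P')
    (z : List G.Fn × (P' ⊕ ({x // x ≠ e} ⊕ ι))) :
    P ⊕ (κ ⊕ ι) → List G.Fn × (P' ⊕ ({x // x ≠ e} ⊕ ι))
  | Sum.inl c => ([], Sum.inl (f c))
  | Sum.inr (Sum.inl x) => if h : x = e then z else ([], Sum.inr (Sum.inl ⟨x, h⟩))
  | Sum.inr (Sum.inr r) => ([], Sum.inr (Sum.inr r))

open Classical in
/-- replacing the row `r` -/
noncomputable def TRD_s2 {G : Sg} {P κ ι : Type} (r : ι)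
    (z : List G.Fn × (P ⊕ (κ ⊕ {x // x ≠ r}))) :
    P ⊕ (κ ⊕ ι) → List G.Fn × (P ⊕ (κ ⊕ {x // x ≠ r}))
  | Sum.inl c => ([], Sum.inl c)
  | Sum.inr (Sum.inl x) => ([], Sum.inr (Sum.inl x))
  | Sum.inr (Sum.inr x) => if h : x = r then z else ([], Sum.inr (Sum.inr ⟨x, h⟩))

/-- Replacing the row `e`. -/
theorem TRD_red1 {G : Sg} {M P P' κ ι : Type} {U : ∀ M : Type, Sys G M → Prop} {S : Sys G M}
    {p : P → M} {g : ℕ → La κ ι → M} {a : At G (P ⊕ (κ ⊕ ι))} (h : TCf U S p g a) [Finite P']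
    (p' : P' → M) (f : P → P') (hf : ∀ c, p' (f c) = p c) (e : κ)
    (z : List G.Fn × (P' ⊕ ({x // x ≠ e} ⊕ ι)))
    (hz : ∀ k l n, S.w z.1 (Sum.elim p' (mx (fun k b => g k (TRD_li Subtype.val id b)) k l n) z.2) =
      g k (Sum.inl e))
    (hsym : Sym S p' fun k b => g k (TRD_li (Subtype.val : {x // x ≠ e} → κ) (id : ι → ι) b))
    (hf1 : ∀ k n r c, ¬ Gn S (p' c) (g k (Sum.inr (n, r)))) :
    ∃ n < Nat.card κ + Nat.card ι, TC U n := by
  have := h.fin₁
  have := h.fin₂
  refine TRD_red h p' (Subtype.val : {x // x ≠ e} → κ) (id : ι → ι) (TRD_s1 e f z) ?_ hsym hf1 ?_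
  · rintro k l n (c | x | r)
    · exact hf c
    · by_cases hx : x = e
      · subst hx
        simp only [TRD_s1, dif_pos]
        exact hz k l n
      · simp only [TRD_s1, dif_neg hx]
        rfl
    · rfl
  · exact Nat.add_lt_add_right (TRD_card e) _

theorem thm_TRD : St_TRD := by
  classical
  intro G U M P κ ι S p g a h hmin
  have hno : ¬ ∃ n < Nat.card κ + Nat.card ι, TC U n := fun ⟨n, hn, hT⟩ => hmin n hn hT
  have := h.finP
  have := h.fin₁
  have := h.fin₂
  refine ⟨h.fre₁, ?_, ?_, ?_, ?_⟩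
  · -- xg
    intro k n r l b hlb hG
    have h1 : ∃ r', (l, b) = (k, Sum.inr (n, r')) := by
      by_contra hc
      push Not at hc
      exact h.fre₂ k n r l b hc hG
    obtain ⟨r', hr'⟩ := h1
    have hl : l = k := congrArg Prod.fst hr'
    have hb : b = Sum.inr (n, r') := congrArg Prod.snd hr'
    subst hl
    subst hb
    have hrr : r' ≠ r := by
      rintro rfl
      exact hlb rfl
    obtain ⟨w, hw⟩ := hG
    have hall : ∀ k' n', g k' (Sum.inr (n', r)) = S.w w (g k' (Sum.inr (n', r'))) := by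
      intro k' n'
      exact TRD_two h.sym (x := (l, Sum.inr (n, r))) (y := (l, Sum.inr (n, r')))
        (x' := (k', Sum.inr (n', r))) (y' := (k', Sum.inr (n', r')))
        ⟨fun _ => rfl, fun _ => rfl⟩ rfl rfl (fun _ _ _ => ⟨fun _ => rfl, fun _ => rfl⟩) w hw
    refine hno (TRD_red h p (id : κ → κ) (Subtype.val : {x // x ≠ r} → ι)
      (TRD_s2 r (w, Sum.inr (Sum.inr ⟨r', hrr⟩))) ?_ (TRD_sym _ _ h.sym)
      (fun k n r c => h.fre₁ k n _ c) (Nat.add_lt_add_left (TRD_card r) _))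
    rintro k l n (c | x | x)
    · rfl
    · rfl
    · by_cases hx : x = r
      · subst hx
        simp only [TRD_s2, dif_pos]
        exact (hall l n).symm
      · simp only [TRD_s2, dif_neg hx]
        rfl
  · -- bp
    intro k e c hG
    obtain ⟨w, hw⟩ := hG
    have hall : ∀ k', g k' (Sum.inl e) = S.w w (p c) := by
      intro k'
      have hT : TI (fun _ : Unit => ((k, Sum.inl e) : ℕ × La κ ι)) (fun _ => (k', Sum.inl e)) :=
        ⟨fun _ _ => ⟨fun _ => rfl, fun _ => rfl⟩, fun _ => rfl,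
          fun _ _ _ _ _ => ⟨fun _ => rfl, fun _ => rfl⟩⟩
      exact ((h.sym Unit _ _ hT).w_eq [] w (Sum.inr ()) (Sum.inl c)).1 hw
    exact hno (TRD_red1 h p id (fun _ => rfl) e (w, Sum.inl c) (fun k l n => (hall k).symm)
      (TRD_sym _ _ h.sym) h.fre₁)
  · -- bg
    intro k e l b hlk hG
    obtain ⟨w, hw⟩ := hG
    have hall : ∀ k' l', l' ≠ k' → g k' (Sum.inl e) = S.w w (g l' b) := by
      intro k' l' hl'
      exact TRD_two h.sym (x := (k, Sum.inl e)) (y := (l, b))
        (x' := (k', Sum.inl e)) (y' := (l', b))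
        ⟨fun h' => absurd h' hlk.symm, fun h' => absurd h' hl'.symm⟩ rfl rfl
        (fun h' => absurd h' hlk.symm) w hw
    obtain ⟨c, hc⟩ : ∃ c, c = g 0 (Sum.inl e) := ⟨_, rfl⟩
    have hcw : ∀ l', c = S.w w (g l' b) := by
      intro l'
      have h1 : g (l' + 1) (Sum.inl e) = S.w w (g (l' + 2) b) := hall _ _ (by omega)
      have h2 : g 0 (Sum.inl e) = S.w w (g (l' + 2) b) := hall _ _ (by omega)
      have h3 : g (l' + 1) (Sum.inl e) = S.w w (g l' b) := hall _ _ (by omega)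
      rw [hc, h2, ← h1, h3]
    have hcg : ∀ k', g k' (Sum.inl e) = c := by
      intro k'
      rw [hcw (k' + 1)]
      exact hall _ _ (by omega)
    obtain ⟨p', hp'⟩ : ∃ p' : Option P → M, p' = fun o => o.elim c p := ⟨_, rfl⟩
    have hpn : p' none = c := by rw [hp']; rfl
    have hps : ∀ x, p' (some x) = p x := fun x => by rw [hp']; rfl
    refine hno (TRD_red1 h p' some hps e ([], Sum.inl none) (fun k l n => ?_) ?_ ?_)
    · show p' none = _
      rw [hpn, hcg]
    · intro V u u' hu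
      refine Eqv.of_finite fun E hE => ?_
      obtain ⟨F, hF⟩ : ∃ F : Set V, F = {v | Sum.inr v ∈ E} := ⟨_, rfl⟩
      have hFf : F.Finite := by
        rw [hF]
        exact hE.preimage (Sum.inr_injective.injOn)
      obtain ⟨l₀, hl₀⟩ : ∃ l₀ : ℕ, ∀ v ∈ F, (u v).1 ≠ l₀ ∧ (u' v).1 ≠ l₀ := by
        have h1 : ((fun v => (u v).1) '' F ∪ (fun v => (u' v).1) '' F).Finite :=
          (hFf.image _).union (hFf.image _)
        obtain ⟨l₀, hl₀⟩ := h1.exists_notMem
        refine ⟨l₀, fun v hv => ⟨fun h' => hl₀ (Or.inl ⟨v, hv, h'⟩),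
          fun h' => hl₀ (Or.inr ⟨v, hv, h'⟩)⟩⟩
      obtain ⟨q, hq⟩ : ∃ q : (V → ℕ × La {x // x ≠ e} ι) → Option F → ℕ × La κ ι,
        q = fun u o => o.elim (l₀, b)
          fun v => ((u v).1, TRD_li (Subtype.val : {x // x ≠ e} → κ) (id : ι → ι) (u v).2) :=
        ⟨_, rfl⟩
      have hqn : ∀ u, q u none = (l₀, b) := fun u => by rw [hq]; rfl
      have hqs : ∀ u (v : F), q u (some v) =
        ((u v).1, TRD_li (Subtype.val : {x // x ≠ e} → κ) (id : ι → ι) (u v).2) :=
        fun u v => by rw [hq]; rfl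
      have hT := TRD_TI (Subtype.val : {x // x ≠ e} → κ) (id : ι → ι) hu
      have hT' : TI (q u) (q u') := by
        refine ⟨?_, ?_, ?_⟩
        · rintro (_ | v) (_ | v')
          · rw [hqn, hqn]
          · rw [hqn, hqn, hqs, hqs]
            exact ⟨fun h' => absurd h'.symm (hl₀ v' v'.2).1,
              fun h' => absurd h'.symm (hl₀ v' v'.2).2⟩
          · rw [hqn, hqn, hqs, hqs]
            exact ⟨fun h' => absurd h' (hl₀ v v.2).1, fun h' => absurd h' (hl₀ v v.2).2⟩
          · rw [hqs, hqs, hqs, hqs]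
            exact hT.1 v v'
        · rintro (_ | v)
          · rw [hqn, hqn]
          · rw [hqs, hqs]
            exact hT.2.1 v
        · rintro (_ | v) (_ | v')
          · rw [hqn, hqn]
            exact fun _ _ _ => Iff.rfl
          · rw [hqn, hqn, hqs, hqs]
            exact fun h' => absurd h'.symm (hl₀ v' v'.2).1
          · rw [hqn, hqn, hqs, hqs]
            exact fun h' => absurd h' (hl₀ v v.2).1
          · rw [hqs, hqs, hqs, hqs]
            exact hT.2.2 v v'
      refine (h.sym (Option F) _ _ hT').words' ?_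
      rintro ⟨(_ | x) | v, hx⟩
      · refine ⟨w, Sum.inr none, ?_, ?_⟩
        · show p' none = S.w w (g (q u none).1 (q u none).2)
          rw [hpn, hqn]
          exact hcw l₀
        · show p' none = S.w w (g (q u' none).1 (q u' none).2)
          rw [hpn, hqn]
          exact hcw l₀
      · refine ⟨[], Sum.inl x, ?_, ?_⟩
        · exact hps x
        · exact hps x
      · have hv : v ∈ F := by
          rw [hF]
          exact hx
        refine ⟨[], Sum.inr (some ⟨v, hv⟩), ?_, ?_⟩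
        · show _ = g (q u (some ⟨v, hv⟩)).1 (q u (some ⟨v, hv⟩)).2
          rw [hqs]
          rfl
        · show _ = g (q u' (some ⟨v, hv⟩)).1 (q u' (some ⟨v, hv⟩)).2
          rw [hqs]
          rfl
    · rintro k' n' r' (_ | x) hG'
      · rw [hpn] at hG'
        refine h.fre₂ k' n' r' (k' + 1) b (fun r'' hr'' => ?_)
          (Gn.trans ⟨w, hcw (k' + 1)⟩ hG')
        have := (Prod.ext_iff.1 hr'').1
        simp only at this
        omega
      · rw [hps] at hG'
        exact h.fre₁ k' n' r' x hG'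
  · -- bb
    intro k e e' hee hG
    obtain ⟨w, hw⟩ := hG
    have hall : ∀ k', g k' (Sum.inl e) = S.w w (g k' (Sum.inl e')) := by
      intro k'
      refine TRD_two h.sym (x := (k, Sum.inl e)) (y := (k, Sum.inl e'))
        (x' := (k', Sum.inl e)) (y' := (k', Sum.inl e'))
        ⟨fun _ => rfl, fun _ => rfl⟩ rfl rfl (fun _ h' _ => ?_) w hw
      obtain ⟨r, hr⟩ := h'
      exact absurd hr Sum.inl_ne_inr
    exact hno (TRD_red1 h p id (fun _ => rfl) e (w, Sum.inr (Sum.inl ⟨e', hee⟩))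
      (fun k l n => (hall k).symm) (TRD_sym _ _ h.sym) h.fre₁)

end UN
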