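import Pool.Agent.UN.StA

/-!
# UN: the models of a universal theory form a universal class
-/

set_option autoImplicit false
set_option linter.unusedVariables false

namespace UN

open Set Filter Pool.Agent.Helper5.DU Pool.Agent.Helper6.Str Pool.Agent.Helper79.VC
  Pool.Agent.Helper97.LO Pool.Agent.Helper97.VC

/-- the failure of a universal formula is witnessed by finitely many atoms -/
private theorem UTU_key (h : St_QFL) (L : FirstOrder.Language.{0, 0})
    (hL : ∀ n, IsEmpty (L.Functions (n + 2))) {M : Type} (A : L.Structure M) (x₀ : M)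
    {n : ℕ} {φ : L.BoundedFormula Empty n} (hφ : φ.IsUniversal) :
    ∀ v : Fin n → M, ¬ @FirstOrder.Language.BoundedFormula.Realize L M A Empty n φ default v →
    ∃ (m : ℕ) (u : Fin m → M) (j : Fin n → Fin m) (D : Set (At (sgL L) (Fin m))),
      D.Finite ∧ v = u ∘ j ∧ ∀ (N : Type) (B : L.Structure N) (u' : Fin m → N),
        (∀ a ∈ D, Tr (sy A) u a ↔ Tr (sy B) u' a) →
        ¬ @FirstOrder.Language.BoundedFormula.Realize L N B Empty n φ default (u' ∘ j) := by
  induction hφ with
  | @of_isQF n φ hq =>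
    intro v hv
    obtain ⟨D, hD, hD'⟩ := h L hL n φ hq
    have e1 : (Fin.snoc v x₀ : Fin (n + 1) → M) ∘ Fin.castSucc = v := by
      funext i
      simp
    refine ⟨n + 1, Fin.snoc v x₀, Fin.castSucc, D, hD, e1.symm, ?_⟩
    intro N B u' hu hr
    have h1 := (hD' M N A B _ u' hu).2 hr
    rw [e1] at h1
    exact hv h1
  | @all n φ hq ih =>
    intro v hv
    have hv' : ¬ ∀ y : M, @FirstOrder.Language.BoundedFormula.Realize L M A Empty (n + 1) φ
      default (Fin.snoc v y) := hv
    obtain ⟨y, hy⟩ := not_forall.1 hv'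
    obtain ⟨m, u, j, D, hD, hvu, H⟩ := ih _ hy
    refine ⟨m, u, j ∘ Fin.castSucc, D, hD, ?_, ?_⟩
    · rw [← Function.comp_assoc, ← hvu]
      funext i
      simp
    · intro N B u' hu hr
      apply H N B u' hu
      have h1 : @FirstOrder.Language.BoundedFormula.Realize L N B Empty (n + 1) φ
        default (Fin.snoc (u' ∘ (j ∘ Fin.castSucc)) (u' (j (Fin.last n)))) := hr _
      have e1 : (Fin.snoc (u' ∘ (j ∘ Fin.castSucc)) (u' (j (Fin.last n))) : Fin (n + 1) → N)
          = u' ∘ j := by
        funext i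
        refine Fin.lastCases ?_ (fun i => ?_) i
        · simp
        · simp
      rw [e1] at h1
      exact h1

set_option warn.classDefReducibility false in
/-- the structure on `M` of a system with constant constants -/
private def UTU_str (L : FirstOrder.Language.{0, 0}) (hL : ∀ n, IsEmpty (L.Functions (n + 2)))
    {M : Type} (S : Sys (sgL L) M) (x₀ : M) : L.Structure M where
  funMap := fun {n} => match n with
    | 0 => fun c _ => S.fn (Sum.inl c) x₀
    | 1 => fun g v => S.fn (Sum.inr g) (v 0)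
    | (k + 2) => fun g _ => ((hL k).false g).elim
  RelMap := fun {n} R v => S.rel ⟨n, R⟩ v

private theorem UTU_sy (L : FirstOrder.Language.{0, 0}) (hL : ∀ n, IsEmpty (L.Functions (n + 2)))
    {M : Type} (S : Sys (sgL L) M) (x₀ : M)
    (hc : ∀ (c : L.Functions 0) (x y : M), S.fn (Sum.inl c) x = S.fn (Sum.inl c) y) :
    S = sy (UTU_str L hL S x₀) := by
  apply Sys.ext
  · funext f x
    cases f with
    | inl c => exact hc c x x₀
    | inr g => rfl
  · rfl

theorem thm_UTU (h : St_QFL) : St_UTU := by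
  intro L hL T hT
  refine ⟨fun M S hS => hS.1, ?_⟩
  intro M S hM hloc
  obtain ⟨x₀⟩ := hM
  have hc : ∀ (c : L.Functions 0) (x y : M), S.fn (Sum.inl c) x = S.fn (Sum.inl c) y := by
    intro c x y
    obtain ⟨N, S', ⟨hN, B, hB, hT'⟩, v', hv'⟩ := hloc 2 ![x, y]
      {At.eq ([Sum.inl c], 0) ([Sum.inl c], 1)} (Set.finite_singleton _)
    have h1 := hv' _ (Set.mem_singleton _)
    have h2 : Tr S' v' (At.eq ([Sum.inl c], 0) ([Sum.inl c], 1)) := by
      subst hB
      rfl
    exact h1.2 h2
  have hS := UTU_sy L hL S x₀ hc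
  refine ⟨⟨x₀⟩, UTU_str L hL S x₀, hS, ?_⟩
  refine @FirstOrder.Language.Theory.Model.mk L M (UTU_str L hL S x₀) T ?_
  intro φ hφ
  by_contra hneg
  obtain ⟨m, u, j, D, hD, hvu, H⟩ := UTU_key h L hL (UTU_str L hL S x₀) x₀ (hT φ hφ) default hneg
  obtain ⟨N, S', ⟨hN, B, hB, hT'⟩, u', hu'⟩ := hloc m u D hD
  rw [hS] at hu'
  subst hB
  have h3 := H N B u' hu'
  have h4 : u' ∘ j = default := Subsingleton.elim _ _
  rw [h4] at h3
  exact h3 (@FirstOrder.Language.Theory.Model.realize_of_mem L N B T hT' φ hφ)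

end UN
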