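import Pool.Agent.UN.StB
import Pool.Agent.UN.Bas

/-!
# UN [VMX]: maximality is visible
-/

set_option autoImplicit false
set_option linter.unusedVariables false

namespace UN

open Set Filter Pool.Agent.Helper5.DU Pool.Agent.Helper6.Str Pool.Agent.Helper79.VC
  Pool.Agent.Helper97.LO Pool.Agent.Helper97.VC

/-- Generation between elements of a partial isomorphism. -/
private theorem VMX_gn {G : Sg} {M N : Type} {S : Sys G M} {S' : Sys G N} {X : Set M} {X' : Set N}
    {γ : Ordinal.{0}} {p : Set (M × N)} (h : BW S S' X X' γ p) {x y : M} {x' y' : N}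
    (hx : (x, x') ∈ p) (hy : (y, y') ∈ p) : Gn S x y ↔ Gn S' x' y' := by
  have h1 : Eqv S (fun c : Bool => if c then x else y) S' (fun c : Bool => if c then x' else y') :=
    BW.eqv h (by intro c; cases c <;> simpa)
  have h2 := h1.gn true false
  simpa using h2

private theorem VMX_one {G : Sg} {M N P : Type} {S : Sys G M} {S' : Sys G N} {X : Set M}
    {X' : Set N} {γ : Ordinal.{0}} {p : Set (M × N)} {q : P → M} {q' : P → N} {u : M} {u' : N}
    (hγ : 1 ≤ γ) (h : BW S S' X X' γ p) (hq : prs q q' ⊆ p) (hu : (u, u') ∈ p) (hu' : u' ∈ X')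
    (hm : Mx S X q u) : Mx S' X' q' u' := by
  refine ⟨hu', fun c hc => hm.2.1 c ((VMX_gn h (hq (prs_mem q q' c)) hu).2 hc), ?_⟩
  intro v' hv' hg
  obtain ⟨v, hv, h1⟩ := BFR.back h (zero_lt_one.trans_le hγ) hv'
  have h2 : BW S S' X X' 0 (insert (v, v') p) := h1
  have h3 : Gn S v u := (VMX_gn h2 (mem_insert _ _) (mem_insert_of_mem _ hu)).2 hg
  exact (VMX_gn h2 (mem_insert_of_mem _ hu) (mem_insert _ _)).1 (hm.2.2 v hv h3)

theorem thm_VMX : St_VMX := by
  intro G M N P S S' X X' γ p q q' u u' hγ h hq hu huX huX'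
  constructor
  · exact VMX_one hγ h hq hu huX'
  · have h1 : BW S' S X' X γ (Prod.swap ⁻¹' p) := BFR.swap h
    refine VMX_one hγ h1 ?_ (show (u', u) ∈ Prod.swap ⁻¹' p from hu) huX
    rintro _ ⟨c, rfl⟩
    exact hq ⟨c, rfl⟩

end UN
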