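import Pool.Agent.UN.StD

/-!
# UN, [WLT]: there are no tree configurations

See `Pool/Agent/UN/StD.lean` for the statement and the proof in words.
-/

set_option autoImplicit false
set_option linter.unusedVariables false

namespace UN

/-- [WLT] there are no tree configurations -/
theorem thm_WLT (hTRD : St_TRD) (hTC1 : St_TC1) (hTC2 : St_TC2) : St_WLT := by
  intro G U d hc hd hP n hn
  classical
  have hex : ∃ n, TC U n := ⟨n, hn⟩
  obtain ⟨M, S, P, κ, ι, p, g, a, hT, hcard⟩ := Nat.find_spec hex
  have hR : Rdc S p g := hTRD G U M P κ ι S p g a hT fun m hm => by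
    rw [hcard] at hm
    exact Nat.find_min hex hm
  exact hTC1 G U M P κ ι S p g hc hP hT.mem hT.finP hT.sym hR
    (hTC2 G U M P κ ι S p g a d hc hd hP hT hR)

end UN
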