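import Pool.Agent.UN.StD
import Pool.Agent.UN.Bas

/-!
# UN: the wreath property (WLU)
-/

set_option autoImplicit false
set_option linter.unusedVariables false

namespace UN

open Set Filter Pool.Agent.Helper5.DU Pool.Agent.Helper6.Str Pool.Agent.Helper79.VC
  Pool.Agent.Helper97.LO Pool.Agent.Helper97.VC

/-- an atom comes from an atom over its own variables, sorted by the three kinds -/
private theorem WLU_atom {G : Sg} {P κ ι : Type} (a : At G (P ⊕ (κ ⊕ ι))) :
    ∃ a' : At G ({m // Sum.inl m ∈ a.vs} ⊕ ({c // Sum.inr (Sum.inl c) ∈ a.vs} ⊕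
      {r // Sum.inr (Sum.inr r) ∈ a.vs})), ∀ (N : Type) (S : Sys G N) (v : P ⊕ (κ ⊕ ι) → N),
      Tr S v a ↔ Tr S (Sum.elim (fun m => v (Sum.inl m.1))
        (Sum.elim (fun c => v (Sum.inr (Sum.inl c.1))) fun r => v (Sum.inr (Sum.inr r.1)))) a' := by
  obtain ⟨b, hb⟩ := a.exists_sub a.vs Subset.rfl
  have hk : ∀ i : a.vs, ∃ j : {m // Sum.inl m ∈ a.vs} ⊕ ({c // Sum.inr (Sum.inl c) ∈ a.vs} ⊕
      {r // Sum.inr (Sum.inr r) ∈ a.vs}),
      Sum.elim (fun m => Sum.inl m.1) (Sum.elim (fun c => Sum.inr (Sum.inl c.1))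
        fun r => Sum.inr (Sum.inr r.1)) j = i.1 := by
    rintro ⟨m | c | r, h⟩
    · exact ⟨Sum.inl ⟨m, h⟩, rfl⟩
    · exact ⟨Sum.inr (Sum.inl ⟨c, h⟩), rfl⟩
    · exact ⟨Sum.inr (Sum.inr ⟨r, h⟩), rfl⟩
  choose k hk using hk
  refine ⟨b.map k, fun N S v => ?_⟩
  conv_lhs => rw [← hb, Tr_map]
  rw [Tr_map]
  have : v ∘ Subtype.val = Sum.elim (fun m => v (Sum.inl m.1))
      (Sum.elim (fun c => v (Sum.inr (Sum.inl c.1))) fun r => v (Sum.inr (Sum.inr r.1))) ∘ k := by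
    funext i
    have h := hk i
    show v i.1 = _
    rw [← h]
    show _ = Sum.elim _ _ (k i)
    rcases k i with m | c | r <;> rfl
  rw [this]

private theorem WLU_main {G : Sg} {U : ∀ M : Type, Sys G M → Prop} (hMPR : St_MPR)
    (hPRI : St_PRI) (hPRE : St_PRE) (hPRF : St_PRF) (hU : IsU U) (hC : Cmt U) {M : Type}
    {S : Sys G M} (hS : U M S) {Y ι κ P : Type} [Finite P] [Finite κ] [Finite ι]
    {W : Ultrafilter ℕ} {b : ℕ → κ → M} {u : ℕ → Ultrafilter Y} {f : ℕ → Y → ι → M}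
    {p₀ : P → M} {a : At G (P ⊕ (κ ⊕ ι))} (hW : ∀ i, ∀ᶠ j in (W : Filter ℕ), j ≠ i)
    (hNP : ∀ i, NP (u i) (f i))
    (hd : ¬ ((∀ᶠ i in (W : Filter ℕ), ∀ᶠ y in (u i : Filter Y),
        Tr S (Sum.elim p₀ (Sum.elim (b i) (f i y))) a) ↔
      ∀ᶠ i in (W : Filter ℕ), ∀ᶠ j in (W : Filter ℕ), ∀ᶠ y in (u i : Filter Y),
        Tr S (Sum.elim p₀ (Sum.elim (b j) (f i y))) a)) : ∃ n, TC U n := by
  obtain ⟨N₁, S₁, e₁, x₁, hU₁, hP₁⟩ := hMPR G U hU hC M S hS (ℕ × ℕ) Y ι (fun t => u t.1)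
    (fun t => f t.1)
  let E : ℕ → La κ ι → N₁ := fun i => Sum.elim (fun c => e₁ (b i c))
    (fun v => x₁ (i, v.1) v.2)
  obtain ⟨N₂, S₂, e₂, g, hU₂, hP₂⟩ := hMPR G U hU hC N₁ S₁ hU₁ ℕ ℕ (La κ ι) (fun _ => W)
    (fun _ i => E i)
  obtain ⟨hF1a, hF1b, hF1c⟩ := hPRF G M N₁ (ℕ × ℕ) Y ι S _ _ S₁ e₁ x₁ hP₁
  obtain ⟨hF2a, hF2b, -⟩ := hPRF G N₁ N₂ ℕ ℕ (La κ ι) S₁ _ _ S₂ e₂ g hP₂
  have hfe : ∀ t r m, ¬ Gn S₁ (e₁ m) (x₁ t r) := fun t r => (hF1c t (hNP t.1) r).1
  have hfx : ∀ t r s r', s ≠ t → ¬ Gn S₁ (x₁ s r') (x₁ t r) :=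
    fun t r => (hF1c t (hNP t.1) r).2
  let p : P → N₂ := fun m => e₂ (e₁ (p₀ m))
  have hlim : ∀ i j n, Tr S₁ (Sum.elim (fun m => e₁ (p₀ m)) (Sum.elim (fun c => e₁ (b j c))
      (x₁ (i, n)))) a ↔ ∀ᶠ y in (u i : Filter Y), Tr S (Sum.elim p₀ (Sum.elim (b j) (f i y))) a := by
    intro i j n
    have h := hF1a (i, n) (a.map (Sum.elim (fun m => Sum.inl (p₀ m))
      (Sum.elim (fun c => Sum.inl (b j c)) Sum.inr)))
    rw [Tr_map] at h
    have e1 : Sum.elim e₁ (x₁ (i, n)) ∘ Sum.elim (fun m => Sum.inl (p₀ m))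
        (Sum.elim (fun c => Sum.inl (b j c)) Sum.inr) =
        Sum.elim (fun m => e₁ (p₀ m)) (Sum.elim (fun c => e₁ (b j c)) (x₁ (i, n))) := by
      funext k
      rcases k with m | c | r <;> rfl
    rw [e1] at h
    rw [h]
    refine eventually_congr (Eventually.of_forall fun y => ?_)
    rw [Tr_map]
    have e2 : Sum.elim id (f i y) ∘ Sum.elim (fun m => Sum.inl (p₀ m))
        (Sum.elim (fun c => Sum.inl (b j c)) Sum.inr) =
        Sum.elim p₀ (Sum.elim (b j) (f i y)) := by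
      funext k
      rcases k with m | c | r <;> rfl
    rw [e2]
  have hD1 : ∀ k n, Tr S₂ (Sum.elim p (mx g k k n)) a ↔ ∀ᶠ i in (W : Filter ℕ),
      ∀ᶠ y in (u i : Filter Y), Tr S (Sum.elim p₀ (Sum.elim (b i) (f i y))) a := by
    intro k n
    have h := hF2a k (a.map (Sum.elim (fun m => Sum.inl (e₁ (p₀ m)))
      (Sum.elim (fun c => Sum.inr (Sum.inl c)) fun r => Sum.inr (Sum.inr (n, r)))))
    rw [Tr_map] at h
    have e1 : Sum.elim e₂ (g k) ∘ Sum.elim (fun m => Sum.inl (e₁ (p₀ m)))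
        (Sum.elim (fun c => Sum.inr (Sum.inl c)) fun r => Sum.inr (Sum.inr (n, r))) =
        Sum.elim p (mx g k k n) := by
      funext i
      rcases i with m | c | r <;> rfl
    rw [e1] at h
    rw [h]
    refine eventually_congr (Eventually.of_forall fun i => ?_)
    rw [← hlim i i n, Tr_map]
    have e2 : Sum.elim id (E i) ∘ Sum.elim (fun m => Sum.inl (e₁ (p₀ m)))
        (Sum.elim (fun c => Sum.inr (Sum.inl c)) fun r => Sum.inr (Sum.inr (n, r))) =
        Sum.elim (fun m => e₁ (p₀ m)) (Sum.elim (fun c => e₁ (b i c)) (x₁ (i, n))) := by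
      funext i
      rcases i with m | c | r <;> rfl
    rw [e2]
  have hD2 : ∀ k l n, k ≠ l → (Tr S₂ (Sum.elim p (mx g k l n)) a ↔ ∀ᶠ i in (W : Filter ℕ),
      ∀ᶠ j in (W : Filter ℕ), ∀ᶠ y in (u i : Filter Y),
        Tr S (Sum.elim p₀ (Sum.elim (b j) (f i y))) a) := by
    intro k l n hkl
    have h := hF2b l k (a.map (Sum.elim (fun m => Sum.inl (e₁ (p₀ m)))
      (Sum.elim (fun c => Sum.inr (Sum.inr (Sum.inl c)))
        fun r => Sum.inr (Sum.inl (Sum.inr (n, r)))))) (Ne.symm hkl)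
    rw [Tr_map] at h
    have e1 : Sum.elim e₂ (Sum.elim (g l) (g k)) ∘ Sum.elim (fun m => Sum.inl (e₁ (p₀ m)))
        (Sum.elim (fun c => Sum.inr (Sum.inr (Sum.inl c)))
          fun r => Sum.inr (Sum.inl (Sum.inr (n, r)))) = Sum.elim p (mx g k l n) := by
      funext i
      rcases i with m | c | r <;> rfl
    rw [e1] at h
    rw [h]
    refine eventually_congr (Eventually.of_forall fun i => ?_)
    refine eventually_congr (Eventually.of_forall fun j => ?_)
    rw [← hlim i j n, Tr_map]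
    have e2 : Sum.elim id (Sum.elim (E i) (E j)) ∘ Sum.elim (fun m => Sum.inl (e₁ (p₀ m)))
        (Sum.elim (fun c => Sum.inr (Sum.inr (Sum.inl c)))
          fun r => Sum.inr (Sum.inl (Sum.inr (n, r)))) =
        Sum.elim (fun m => e₁ (p₀ m)) (Sum.elim (fun c => e₁ (b j c)) (x₁ (i, n))) := by
      funext i
      rcases i with m | c | r <;> rfl
    rw [e2]
  refine ⟨_, N₂, S₂, P, κ, ι, p, g, a, ⟨hU₂, inferInstance, inferInstance, inferInstance,
    ?_, ?_, ?_, ?_⟩, rfl⟩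
  · -- symmetry
    intro V h h' hT
    obtain ⟨hT1, hT2, hT3⟩ := hT
    have hA := hPRI G N₁ N₂ N₂ ℕ ℕ ℕ (La κ ι) V S₁ _ _ _ _ S₂ e₂ g S₂ e₂ g hP₂ hP₂
      (fun v => (h v).1) (fun v => (h' v).1) (fun v => (h v).2) hT1 (fun _ => rfl)
      (fun _ => rfl)
    have hB := hPRE G N₁ N₂ ℕ ℕ (La κ ι) V M S₁ _ _ S₂ e₂ g hP₂ (fun _ => hW) e₁
      (fun v => (h' v).1) (fun v => (h v).2) (fun v => (h' v).2) ?_
    · have hA' : Eqv S₂ (Sum.elim p fun v => g (h v).1 (h v).2)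
          S₂ (Sum.elim p fun v => g (h' v).1 (h v).2) := by
        refine hA.comp' (Sum.map (fun m => e₁ (p₀ m)) id) ?_ ?_
        · rintro (m | v) <;> rfl
        · rintro (m | v) <;> rfl
      have hB' : Eqv S₂ (Sum.elim p fun v => g (h' v).1 (h v).2)
          S₂ (Sum.elim p fun v => g (h' v).1 (h' v).2) := by
        refine hB.comp' (Sum.map p₀ id) ?_ ?_
        · rintro (m | v) <;> rfl
        · rintro (m | v) <;> rfl
      exact hA'.trans hB'
    · intro F y hF hy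
      have hC := hPRI G M N₁ N₁ (ℕ × ℕ) (ℕ × ℕ) Y ι
        {v : {v // (h' v).1 ∈ F} // ∃ r, kd (h v.1).2 = Sum.inr r} S _ _ _ _ S₁ e₁ x₁ S₁ e₁ x₁
        hP₁ hP₁ (fun v => (y (h' v.1.1).1, nm (h v.1.1).2))
        (fun v => (y (h' v.1.1).1, nm (h' v.1.1).2)) (fun v => v.2.choose) ?_ (fun _ => rfl)
        (fun _ => rfl)
      · refine hC.words' ?_
        rintro (m | v)
        · exact ⟨[], Sum.inl m, rfl, rfl⟩
        · rcases hv : (h v.1).2 with c | ⟨n, r⟩
          · rcases hv' : (h' v.1).2 with c' | ⟨n', r'⟩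
            · have h1 := hT2 v.1
              rw [hv, hv'] at h1
              obtain rfl : c = c' := Sum.inl_injective h1
              refine ⟨[], Sum.inl (b (y (h' v.1).1) c), ?_, ?_⟩
              · show E (y (h' v.1).1) (h v.1).2 = _
                rw [hv]; rfl
              · show E (y (h' v.1).1) (h' v.1).2 = _
                rw [hv']; rfl
            · have h1 := hT2 v.1
              rw [hv, hv'] at h1
              exact absurd h1 Sum.inl_ne_inr
          · rcases hv' : (h' v.1).2 with c' | ⟨n', r'⟩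
            · have h1 := hT2 v.1
              rw [hv, hv'] at h1
              exact absurd h1 Sum.inr_ne_inl
            · have h1 := hT2 v.1
              rw [hv, hv'] at h1
              obtain rfl : r = r' := Sum.inr_injective h1
              have hex : ∃ r, kd (h v.1).2 = Sum.inr r := ⟨r, by rw [hv]; rfl⟩
              have hr : hex.choose = r := by
                have h2 := hex.choose_spec
                have h3 : kd (h v.1).2 = Sum.inr r := by rw [hv]; rfl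
                exact Sum.inr_injective (h2.symm.trans h3)
              refine ⟨[], Sum.inr ⟨v, hex⟩, ?_, ?_⟩
              · show E (y (h' v.1).1) (h v.1).2 = x₁ (y (h' v.1).1, nm (h v.1).2) hex.choose
                rw [hr]
                rw [hv]; rfl
              · show E (y (h' v.1).1) (h' v.1).2 = x₁ (y (h' v.1).1, nm (h' v.1).2) hex.choose
                rw [hr]
                rw [hv']; rfl
      · rintro ⟨⟨v, hv⟩, hr⟩ ⟨⟨v', hv'⟩, hr'⟩
        simp only [Prod.mk.injEq]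
        constructor
        · rintro ⟨h1, h2⟩
          have h3 := (hT1 v v').2 (hy hv hv' h1)
          exact ⟨h1, (hT3 v v' h3 hr hr').1 h2⟩
        · rintro ⟨h1, h2⟩
          have h3 := (hT1 v v').2 (hy hv hv' h1)
          exact ⟨h1, (hT3 v v' h3 hr hr').2 h2⟩
  · -- freeness over the parameters
    rintro k n r c ⟨l, hl⟩
    have h := (hF2a k (.eq ([], Sum.inr (Sum.inr (n, r))) (l, Sum.inl (e₁ (p₀ c))))).1 hl
    obtain ⟨i, hi⟩ := h.exists
    exact hfe (i, n) r (p₀ c) ⟨l, hi⟩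
  · -- freeness
    rintro k n r l b' hne ⟨w, hw⟩
    by_cases hkl : l = k
    · subst hkl
      have h := (hF2a l (.eq ([], Sum.inr (Sum.inr (n, r))) (w, Sum.inr b'))).1 hw
      obtain ⟨i, hi⟩ := h.exists
      have hi' : x₁ (i, n) r = S₁.w w (E i b') := hi
      rcases b' with c | ⟨n', r'⟩
      · exact hfe (i, n) r (b i c) ⟨w, hi'⟩
      · refine hfx (i, n) r (i, n') r' ?_ ⟨w, hi'⟩
        intro h1
        have h2 : n' = n := (Prod.mk.inj h1).2
        exact hne r' (by rw [h2])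
    · have h := (hF2b k l (.eq ([], Sum.inr (Sum.inl (Sum.inr (n, r))))
        (w, Sum.inr (Sum.inr b'))) (Ne.symm hkl)).1 hw
      obtain ⟨i, hi⟩ := h.exists
      obtain ⟨j, hj, hji⟩ := (hi.and (hW i)).exists
      have hj' : x₁ (i, n) r = S₁.w w (E j b') := hj
      rcases b' with c | ⟨n', r'⟩
      · exact hfe (i, n) r (b j c) ⟨w, hj'⟩
      · refine hfx (i, n) r (j, n') r' ?_ ⟨w, hj'⟩
        intro h1
        exact hji (Prod.mk.inj h1).1
  · -- the atom separates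
    intro k l n hkl
    rw [hD1 k n, hD2 k l n hkl]
    exact hd

/-- the wreath property -/
theorem thm_WLU (hMPR : St_MPR) (hPRI : St_PRI) (hPRE : St_PRE) (hPRF : St_PRF)
    (hWLT : St_WLT) : St_WLU := by
  intro G U d hFn hd hU hPg hC M S hS Y ι κ W b u f a hW hNP
  by_contra hcon
  obtain ⟨a', ha'⟩ := WLU_atom a
  have hvs : Finite a.vs := a.vs_finite
  have f1 : Finite {m // Sum.inl m ∈ a.vs} :=
    Finite.of_injective (fun m : {m // Sum.inl m ∈ a.vs} => (⟨Sum.inl m.1, m.2⟩ : a.vs))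
      fun m m' h => Subtype.ext (Sum.inl_injective (congrArg Subtype.val h))
  have f2 : Finite {c // Sum.inr (Sum.inl c) ∈ a.vs} :=
    Finite.of_injective
      (fun m : {c // Sum.inr (Sum.inl c) ∈ a.vs} => (⟨Sum.inr (Sum.inl m.1), m.2⟩ : a.vs))
      fun m m' h => Subtype.ext (Sum.inl_injective (Sum.inr_injective (congrArg Subtype.val h)))
  have f3 : Finite {r // Sum.inr (Sum.inr r) ∈ a.vs} :=
    Finite.of_injective
      (fun m : {r // Sum.inr (Sum.inr r) ∈ a.vs} => (⟨Sum.inr (Sum.inr m.1), m.2⟩ : a.vs))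
      fun m m' h => Subtype.ext (Sum.inr_injective (Sum.inr_injective (congrArg Subtype.val h)))
  have hT : ∀ i j y, Tr S (Sum.elim id (Sum.elim (b j) (f i y))) a ↔
      Tr S (Sum.elim (fun m : {m // Sum.inl m ∈ a.vs} => m.1)
        (Sum.elim (fun c : {c // Sum.inr (Sum.inl c) ∈ a.vs} => b j c.1)
          fun r : {r // Sum.inr (Sum.inr r) ∈ a.vs} => f i y r.1)) a' :=
    fun i j y => ha' M S (Sum.elim id (Sum.elim (b j) (f i y)))
  simp only [hT] at hcon
  obtain ⟨n, hn⟩ := WLU_main hMPR hPRI hPRE hPRF hU hC hS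
    (b := fun i (c : {c // Sum.inr (Sum.inl c) ∈ a.vs}) => b i c.1) (u := u)
    (f := fun i y (r : {r // Sum.inr (Sum.inr r) ∈ a.vs}) => f i y r.1) hW
    (fun i r m => hNP i r.1 m) hcon
  exact hWLT G U d hFn hd hPg n hn

end UN
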