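import Pool.Agent.UN.CHR
import Pool.Agent.UN.CLQ
import Pool.Agent.UN.CMC
import Pool.Agent.UN.CMP
import Pool.Agent.UN.COM
import Pool.Agent.UN.CSD
import Pool.Agent.UN.CSZ
import Pool.Agent.UN.DCH
import Pool.Agent.UN.DEP
import Pool.Agent.UN.DTT
import Pool.Agent.UN.EMQ
import Pool.Agent.UN.END
import Pool.Agent.UN.FNU
import Pool.Agent.UN.FND
import Pool.Agent.UN.FST
import Pool.Agent.UN.FTR
import Pool.Agent.UN.GRS
import Pool.Agent.UN.HGS
import Pool.Agent.UN.IPA
import Pool.Agent.UN.IPB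
import Pool.Agent.UN.IPO
import Pool.Agent.UN.IR1
import Pool.Agent.UN.IR2
import Pool.Agent.UN.IR3
import Pool.Agent.UN.ISO
import Pool.Agent.UN.KWM
import Pool.Agent.UN.LEG
import Pool.Agent.UN.LEV
import Pool.Agent.UN.LIM
import Pool.Agent.UN.LSK
import Pool.Agent.UN.MNE
import Pool.Agent.UN.MPR
import Pool.Agent.UN.OCA
import Pool.Agent.UN.OCB
import Pool.Agent.UN.OGD
import Pool.Agent.UN.OGS
import Pool.Agent.UN.OJP
import Pool.Agent.UN.OLL
import Pool.Agent.UN.OLR
import Pool.Agent.UN.OMK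
import Pool.Agent.UN.OSY
import Pool.Agent.UN.PGU
import Pool.Agent.UN.PRE
import Pool.Agent.UN.PRF
import Pool.Agent.UN.PRI
import Pool.Agent.UN.PRQ
import Pool.Agent.UN.QFL
import Pool.Agent.UN.QLB
import Pool.Agent.UN.QLP
import Pool.Agent.UN.QLR
import Pool.Agent.UN.RED
import Pool.Agent.UN.ROT
import Pool.Agent.UN.SPS
import Pool.Agent.UN.SWP
import Pool.Agent.UN.TC1
import Pool.Agent.UN.TC2
import Pool.Agent.UN.TLK
import Pool.Agent.UN.TMK
import Pool.Agent.UN.TRD
import Pool.Agent.UN.ULM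
import Pool.Agent.UN.UPR
import Pool.Agent.UN.UTU
import Pool.Agent.UN.VMX
import Pool.Agent.UN.VPT
import Pool.Agent.UN.WLT
import Pool.Agent.UN.WLU

/-!
# UN: assembly

Vaught's conjecture for universal theories in countable languages with function symbols of arity at
most one and finitely many relation symbols of arity at least two.
-/

set_option autoImplicit false
set_option linter.unusedVariables false

namespace UN

theorem all_LIM : St_LIM := thm_LIM thm_UPR

theorem all_COM : St_COM :=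
  thm_COM (thm_EMQ all_LIM thm_QLB) thm_HGS (thm_OLR thm_IPO)
    (thm_OLL (thm_OGD thm_IPO (thm_OMK thm_IPO) thm_OSY (thm_OJP thm_IPO)) (thm_OGS thm_OSY)
      (thm_OCA thm_IPO thm_VMX thm_LEG) (thm_OCB thm_IPO thm_VMX))

theorem all_MPR : St_MPR := thm_MPR all_LIM thm_QLB (thm_QLP (thm_QLR thm_UPR))

theorem all_CSD : St_CSD := thm_CSD (thm_CSZ thm_VMX)

theorem all_WLU : St_WLU :=
  thm_WLU all_MPR thm_PRI (thm_PRE thm_PRQ thm_QLB) thm_PRF
    (thm_WLT thm_TRD (thm_TC1 thm_VMX all_CSD)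
      (thm_TC2 thm_IR1 (thm_IR2 thm_TMK) thm_IR3 thm_GRS (thm_TLK thm_VMX thm_IR3) all_CSD))

theorem all_IPA : St_IPA := thm_IPA thm_ULM

theorem all_CMP : St_CMP := thm_CMP all_IPA (thm_IPB all_IPA)

theorem all_DEP : St_DEP := thm_DEP thm_ULM all_IPA all_MPR thm_PRQ thm_PRF thm_QLB

theorem all_CMC : St_CMC := thm_CMC thm_LSK all_DEP all_IPA

theorem all_ROT : St_ROT := thm_ROT all_IPA all_MPR thm_PRF thm_VMX all_CSD

theorem all_DTT : St_DTT := thm_DTT (thm_FTR thm_SPS all_IPA) all_ROT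

theorem all_FST : St_FST := thm_FST all_CMP all_CMC thm_ISO (thm_VPT all_IPA all_CMP)

theorem all_SWP : St_SWP := thm_SWP all_IPA all_CMP

theorem all_END : St_END := thm_END thm_LSK all_DTT all_CMP all_CMC all_FST all_SWP thm_CLQ

theorem all_MNU : St_MNU := thm_MNE all_COM all_WLU all_END

theorem all_DCH : St_DCH := thm_DCH (thm_KWM thm_CHR) (thm_LEV thm_CHR) thm_PGU all_MNU

/-- Vaught's conjecture for universal theories with unary functions and finitely many relations
of arity at least two -/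
theorem all_FNU : St_FNU := thm_FNU (thm_UTU thm_QFL) all_DCH

end UN
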