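import Pool.Agent.UN.StF

/-!
# UN, module CLR: representatives of classes of classes
-/

set_option autoImplicit false

namespace UN

open Set

theorem thm_CLR : St_CLR := by
  classical
  intro Q r p hr h1 h2
  let s : Setoid Q := ⟨r, hr⟩
  have hfin : Finite (Quotient s) := by
    by_contra hcon
    rw [not_finite_iff_infinite] at hcon
    apply h1
    refine ⟨fun n => (Infinite.natEmbedding (Quotient s) n).out, fun m n hmn hrr => ?_⟩
    apply hmn
    apply (Infinite.natEmbedding (Quotient s)).injective
    have h3 : (⟦(Infinite.natEmbedding (Quotient s) m).out⟧ : Quotient s) =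
        ⟦(Infinite.natEmbedding (Quotient s) n).out⟧ := Quotient.sound hrr
    rwa [Quotient.out_eq, Quotient.out_eq] at h3
  have hB : {x | ¬ p x}.Finite := by
    by_contra hcon
    have hinf : {x | ¬ p x}.Infinite := hcon
    apply h2
    refine ⟨fun n => hinf.natEmbedding _ n, fun m n hmn heq => hmn ?_, fun n => ?_⟩
    · exact (hinf.natEmbedding _).injective (Subtype.ext heq)
    · exact (hinf.natEmbedding _ n).2
  have hC : {x | {y | r x y}.Finite}.Finite := by
    have h3 : {x | {y | r x y}.Finite} ⊆
        ⋃ c : Quotient s, {x | (⟦x⟧ : Quotient s) = c ∧ {y | r x y}.Finite} := by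
      intro x hx
      exact mem_iUnion.2 ⟨⟦x⟧, rfl, hx⟩
    refine (finite_iUnion fun c => ?_).subset h3
    by_cases hne : {x | (⟦x⟧ : Quotient s) = c ∧ {y | r x y}.Finite}.Nonempty
    · obtain ⟨x, hx, hxf⟩ := hne
      refine hxf.subset ?_
      rintro y ⟨hy, -⟩
      exact Quotient.exact (hx.trans hy.symm)
    · rw [not_nonempty_iff_eq_empty] at hne
      rw [hne]
      exact finite_empty
  refine ⟨range (Quotient.out : Quotient s → Q) ∪ {x | ¬ p x} ∪ {x | {y | r x y}.Finite},
    ((finite_range _).union hB).union hC, fun x hx => ?_⟩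
  rw [mem_union, mem_union, not_or, not_or] at hx
  obtain ⟨⟨-, hx2⟩, hx3⟩ := hx
  have hinf : {y | r x y}.Infinite := hx3
  refine ⟨not_not.1 hx2, ⟨Quotient.out (⟦x⟧ : Quotient s), Or.inl (Or.inl ⟨_, rfl⟩), ?_⟩,
    fun n => hinf.natEmbedding _ n, fun n => (hinf.natEmbedding _ n).2,
    fun m n hmn heq => hmn ((hinf.natEmbedding _).injective (Subtype.ext heq))⟩
  exact hr.symm (Quotient.mk_out (s := s) x)

end UN
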