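import Pool.Agent.UN.StF
import Pool.Agent.UN.CMP

/-!
# UN [CMX]: the finest independent partition of a set
-/

set_option autoImplicit false
set_option linter.unusedVariables false

namespace UN

open Set Filter Pool.Agent.Helper5.DU Pool.Agent.Helper6.Str Pool.Agent.Helper79.VC
  Pool.Agent.Helper97.LO Pool.Agent.Helper97.VC

/-- in a Boolean algebra of independent parts finite sets can be separated -/
theorem CMX_bool {G : Sg} {M : Type} {S : Sys G M} {A : Set M} (H : CMP_R S A) {Z X Y : Set M}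
    (fX : X.Finite) (fY : Y.Finite) (hXZ : X ⊆ Z)
    (hdis : ∀ x ∈ X, ∀ y ∈ Y, ∃ B, CMP_B S A Z B ∧ x ∈ B ∧ y ∉ B) :
    ∃ B, CMP_B S A Z B ∧ X ⊆ B ∧ ∀ y ∈ Y, y ∉ B := by
  have h1 : ∀ x ∈ X, ∃ B, CMP_B S A Z B ∧ x ∈ B ∧ ∀ y ∈ Y, y ∉ B := by
    intro x hx
    have key : ∀ Y' : Set M, Y'.Finite → Y' ⊆ Y →
        ∃ B, CMP_B S A Z B ∧ x ∈ B ∧ ∀ y ∈ Y', y ∉ B := by
      intro Y' hf
      induction Y', hf using Set.Finite.induction_on with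
      | empty => exact fun _ => ⟨Z, CMP_B.self H Z, hXZ hx, fun y hy => absurd hy (notMem_empty _)⟩
      | @insert a s ha hs ih =>
        intro hsub
        obtain ⟨B, hB, hxB, hyB⟩ := ih ((subset_insert _ _).trans hsub)
        obtain ⟨B', hB', hxB', hyB'⟩ := hdis x hx a (hsub (mem_insert _ _))
        refine ⟨B ∩ B', hB.inter H hB', ⟨hxB, hxB'⟩, ?_⟩
        rintro y (rfl | hy) ⟨h3, h4⟩
        · exact hyB' h4
        · exact hyB y hy h3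
    exact key Y fY Subset.rfl
  have key : ∀ X' : Set M, X'.Finite → X' ⊆ X →
      ∃ B, CMP_B S A Z B ∧ X' ⊆ B ∧ ∀ y ∈ Y, y ∉ B := by
    intro X' hf
    induction X', hf using Set.Finite.induction_on with
    | empty => exact fun _ => ⟨∅, CMP_B.empty Z, Subset.rfl, fun y _ => notMem_empty _⟩
    | @insert a s ha hs ih =>
      intro hsub
      obtain ⟨B, hB, hxB, hyB⟩ := ih ((subset_insert _ _).trans hsub)
      obtain ⟨B', hB', hxB', hyB'⟩ := h1 a (hsub (mem_insert _ _))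
      refine ⟨B ∪ B', hB.union H hB', insert_subset (Or.inr hxB') (hxB.trans subset_union_left), ?_⟩
      rintro y hy (h3 | h4)
      · exact hyB y hy h3
      · exact hyB' y hy h4
  exact key X fX Subset.rfl

/-- The finest independent partition of a set. -/
theorem thm_CMX (h₁ : St_IPA) (h₂ : St_IPB) (h₃ : St_CMP) : St_CMX := by
  intro G U hC M S A hU hE hA X
  have H : CMP_R S A := CMP_rules h₁ h₂ hC hU hE hA
  obtain ⟨-, -, -, -, -, c6⟩ := h₃ G U hC M S A hU hE hA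
  have hrefl : ∀ u ∈ X, u ∉ A → Rx S A X u u := by
    intro u hu hu'
    refine ⟨{u}, finite_singleton u, by rintro _ rfl; exact hu, by rintro _ rfl; exact hu', rfl,
      rfl, ?_⟩
    rintro ⟨X', -, -, hs⟩
    exact hs Iff.rfl
  have hsymm : ∀ u y, Rx S A X u y → Rx S A X y u := by
    rintro u y ⟨Z, hZ, hZX, hZA, hu, hu', hs⟩
    refine ⟨Z, hZ, hZX, hZA, hu', hu, ?_⟩
    rintro ⟨X', hX, hI, hx⟩
    exact hs ⟨X', hX, hI, fun h => hx h.symm⟩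
  have hsub : ∀ {Z Z' : Set M} {X' : Set M}, Z' ⊆ Z → CMP_B S A Z X' →
      CMP_B S A Z' (X' ∩ Z') := by
    intro Z Z' X' hZ h
    refine ⟨inter_subset_right, H.mono h.2 inter_subset_left ?_⟩
    rintro x ⟨hx, hx'⟩
    exact ⟨hZ hx, fun h3 => hx' ⟨h3, hx⟩⟩
  have htrans : ∀ u y z, Rx S A X u y → Rx S A X y z → Rx S A X u z := by
    rintro u u' u'' ⟨Z₁, f₁, hX₁, hA₁, hu₁, hu₁', s₁⟩ ⟨Z₂, f₂, hX₂, hA₂, hu₂, hu₂', s₂⟩
    refine ⟨Z₁ ∪ Z₂, f₁.union f₂, union_subset hX₁ hX₂, union_subset hA₁ hA₂, Or.inl hu₁,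
      Or.inr hu₂', ?_⟩
    rintro ⟨X', hX, hI, hs⟩
    have hB : CMP_B S A (Z₁ ∪ Z₂) X' := ⟨hX, hI⟩
    have i₁ : u ∈ X' ↔ u' ∈ X' := by
      by_contra h
      have e := hsub subset_union_left hB
      refine s₁ ⟨X' ∩ Z₁, e.1, e.2, fun h' => h ?_⟩
      exact ⟨fun h3 => (h'.1 ⟨h3, hu₁⟩).1, fun h3 => (h'.2 ⟨h3, hu₁'⟩).1⟩
    have i₂ : u' ∈ X' ↔ u'' ∈ X' := by
      by_contra h
      have e := hsub subset_union_right hB
      refine s₂ ⟨X' ∩ Z₂, e.1, e.2, fun h' => h ?_⟩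
      exact ⟨fun h3 => (h'.1 ⟨h3, hu₂⟩).1, fun h3 => (h'.2 ⟨h3, hu₂'⟩).1⟩
    exact hs (i₁.trans i₂)
  refine ⟨hrefl, hsymm, htrans, ?_, ?_, ?_, ?_, ?_⟩
  · intro f u huX hu hfX hfu
    refine ⟨{u, S.fn f u}, (finite_singleton _).insert _, ?_, ?_, Or.inl rfl, Or.inr rfl, ?_⟩
    · rintro x (rfl | rfl)
      · exact huX
      · exact hfX
    · rintro x (rfl | rfl)
      · exact hu
      · exact hfu
    · intro hs
      obtain ⟨X', hX, h3, h4⟩ := CMP_B.sep H (Or.inl rfl) (Or.inr rfl) hs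
      have e : IpS S A {u} {S.fn f u} := H.mono hX.2 (by rintro _ rfl; exact h3)
        (by rintro _ rfl; exact ⟨Or.inr rfl, h4⟩)
      exact H.gen e hfu ⟨[f], rfl⟩
  · rintro u y ⟨Z, hZ, hZX, hZA, hu, hy, hs⟩
    obtain ⟨Z₁, hZ₁⟩ : ∃ Z₁ : Set M, Z₁ = {z | z ∈ Z ∧ Rx S A X u z} := ⟨_, rfl⟩
    have hZ₁m : ∀ z, z ∈ Z₁ ↔ z ∈ Z ∧ Rx S A X u z := fun z => by rw [hZ₁]; rfl
    have hZ₁Z : Z₁ ⊆ Z := fun z hz => ((hZ₁m z).1 hz).1
    have huy : Rx S A X u y := ⟨Z, hZ, hZX, hZA, hu, hy, hs⟩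
    obtain ⟨B, hB, hB1, hB2⟩ := CMX_bool H (Z := Z) (X := Z₁) (Y := Z \ Z₁) (hZ.subset hZ₁Z)
      (hZ.subset sdiff_subset) hZ₁Z (by
        intro x hx y' hy'
        refine CMP_B.sep H (hZ₁Z hx) hy'.1 ?_
        by_contra hs'
        refine hy'.2 ((hZ₁m y').2 ⟨hy'.1, ?_⟩)
        exact htrans u x y' ((hZ₁m x).1 hx).2 ⟨Z, hZ, hZX, hZA, hZ₁Z hx, hy'.1, hs'⟩)
    have hBe : B = Z₁ := by
      refine Subset.antisymm (fun x hx => ?_) hB1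
      by_contra hx'
      exact hB2 x ⟨hB.1 hx, hx'⟩ hx
    rw [hBe] at hB
    refine ⟨Z₁, hZ.subset hZ₁Z, fun z hz => ((hZ₁m z).1 hz).2, hZ₁Z.trans hZA,
      (hZ₁m u).2 ⟨hu, hrefl u (hZX hu) (hZA hu)⟩, (hZ₁m y).2 ⟨hy, huy⟩, ?_⟩
    rintro ⟨X', hX, hXI, hx⟩
    have e1 : IpS S A (X' ∪ (Z₁ \ X')) (Z \ Z₁) := by
      rw [union_sdiff_cancel hX]
      exact hB.2
    have e2 := H.step e1 hXI
    refine hs ⟨X', hX.trans hZ₁Z, H.mono e2 Subset.rfl ?_, hx⟩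
    rintro x ⟨hx1, hx2⟩
    by_cases h : x ∈ Z₁
    · exact Or.inl ⟨h, hx2⟩
    · exact Or.inr ⟨hx1, h⟩
  · rintro Y u y hXY ⟨Z, hZ, hZX, hZA, hu, hy, hs⟩
    exact ⟨Z, hZ, hZX.trans hXY, hZA, hu, hy, hs⟩
  · rintro u y ⟨Z, hZ, hZX, hZA, hu, hy, hs⟩
    exact ⟨Z, hZ, hZA, hu, hy, hs⟩
  · intro u y huy
    obtain ⟨Z, hZ, hZD, hu, hy, hs⟩ := c6 u y huy
    have hD : Dc S A u ⊆ Aᶜ := by
      rintro z ⟨Z', -, h, -, hz, -⟩
      exact h hz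
    exact ⟨Z, hZ, hZD, Z, hZ, Subset.rfl, hZD.trans hD, hu, hy, hs⟩

end UN
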