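import Pool.Agent.UN.StF
import Pool.Agent.UN.Bas

/-!
# UN: components are contained in `A` or in parts

Theorem `thm_CPT (h : St_CMP) : St_CPT`.
-/

set_option autoImplicit false
set_option linter.unusedVariables false

namespace UN

open Set Filter Pool.Agent.Helper5.DU Pool.Agent.Helper6.Str Pool.Agent.Helper79.VC
  Pool.Agent.Helper97.LO Pool.Agent.Helper97.VC UNE

/-- [CPT] components are contained in `A` or in parts -/
theorem thm_CPT (h : St_CMP) : St_CPT := by
  intro G U hC M P I S A q lab hU hE hCl htr hlab hcon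
  obtain ⟨hrefl, hsymm, htrans, hfn, -, -⟩ := h G U hC M S A hU hE hCl
  have h1 : ∀ x y, x ∉ A → Relation.ReflTransGen (Adj S lab) x y → y ∉ A ∧ Rc S A x y := by
    intro x y hx hxy
    induction hxy with
    | refl => exact ⟨hx, hrefl x hx⟩
    | @tail b c _ hbc ih =>
      obtain ⟨hb, hRb⟩ := ih
      obtain ⟨-, hcn, f, hf | hf⟩ := hbc
      · have hc : c ∉ A := by
          intro hcA
          obtain ⟨i, hi⟩ := htr b hb c hcA ⟨[f], hf⟩
          exact hcn ((hlab c).2 (mem_cl_range.2 ⟨i, hi⟩))
        refine ⟨hc, htrans x b c hRb ?_⟩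
        rw [hf] at hc ⊢
        exact hfn f b hb hc
      · have hc : c ∉ A := by
          intro hcA
          apply hb
          rw [hf]
          exact hCl f c hcA
        refine ⟨hc, htrans x b c hRb (hsymm c b ?_)⟩
        rw [hf] at hb ⊢
        exact hfn f c hc hb
  refine ⟨fun x y hx hxn hxy => h1 x y hx (hcon x y hxn hxy), fun x y hx hxn hxy => ?_⟩
  by_contra hy
  exact (h1 y x hy (hcon y x (hxy ▸ hxn) hxy.symm)).1 hx

end UN
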