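import Pool.Agent.UN.StF

/-!
# UN: isomorphic parts can be exchanged (EXC)
-/

set_option autoImplicit false
set_option linter.unusedVariables false

namespace UN

open Set Filter Pool.Agent.Helper5.DU Pool.Agent.Helper6.Str Pool.Agent.Helper79.VC
  Pool.Agent.Helper97.LO Pool.Agent.Helper97.VC

/-- an involution of the elements which commutes with the functions and fixes the root induces an
involution of the components -/
private theorem EXC_perm {G : Sg} {M I : Type} {S : Sys G M} {lab : M → Option I}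
    (hC : UNE.Cp S lab) (σ : Equiv.Perm M) (h2 : ∀ x, σ (σ x) = x)
    (hfn : ∀ f x, σ (S.fn f x) = S.fn f (σ x)) (hr : ∀ x, lab x = none → σ x = x) :
    ∃ ρ : Equiv.Perm I, ρ * ρ = 1 ∧ ∀ x, lab (σ x) = (lab x).map ρ := by
  have hn : ∀ x, lab x ≠ none → lab (σ x) ≠ none := by
    intro x hx h
    have h1 := hr _ h
    rw [h2] at h1
    rw [← h1] at h
    exact hx h
  have hadj : ∀ x y, UNE.Adj S lab x y → UNE.Adj S lab (σ x) (σ y) := by
    rintro x y ⟨hx, hy, f, h | h⟩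
    · exact ⟨hn x hx, hn y hy, f, Or.inl (by rw [h, hfn])⟩
    · exact ⟨hn x hx, hn y hy, f, Or.inr (by rw [h, hfn])⟩
  have heq : ∀ x y, UNE.Adj S lab x y → lab x = lab y := by
    rintro x y ⟨hx, hy, f, h | h⟩
    · rcases hC.fn f x with h1 | h1
      · rw [← h] at h1; exact absurd h1 hy
      · rw [← h] at h1; exact h1.symm
    · rcases hC.fn f y with h1 | h1
      · rw [← h] at h1; exact absurd h1 hx
      · rw [← h] at h1; exact h1
  have hlab : ∀ x y, lab x ≠ none → lab x = lab y → lab (σ x) = lab (σ y) := by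
    intro x y hx hxy
    have h := hC.con x y hx hxy
    clear hxy
    induction h with
    | refl => rfl
    | tail _ h1 ih => exact ih.trans (heq _ _ (hadj _ _ h1))
  have hex : ∀ i, ∃ j, ∀ x, lab x = some i → lab (σ x) = some j := by
    intro i
    obtain ⟨x, hx⟩ := hC.ne i
    obtain ⟨j, hj⟩ := Option.ne_none_iff_exists'.1 (hn x (by rw [hx]; exact Option.some_ne_none i))
    refine ⟨j, fun y hy => ?_⟩
    rw [← hlab x y (by rw [hx]; exact Option.some_ne_none i) (by rw [hx, hy]), hj]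
  choose ρ hρ using hex
  have hinv : ∀ i, ρ (ρ i) = i := by
    intro i
    obtain ⟨x, hx⟩ := hC.ne i
    have h3 := hρ _ _ (hρ i x hx)
    rw [h2, hx] at h3
    exact (Option.some_injective _ h3).symm
  refine ⟨Function.Involutive.toPerm ρ hinv, ?_, ?_⟩
  · ext i
    exact hinv i
  · intro x
    rcases hx : lab x with _ | i
    · rw [hr x hx, hx]; rfl
    · rw [hρ i x hx]; rfl

/-- isomorphic parts can be exchanged -/
theorem thm_EXC (hSWP : St_SWP) (hCPT : St_CPT) (hCMP : St_CMP) : St_EXC := by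
  intro G U F hC M P₀ P I S A q₀ q lab hU hEC hCl htr hlab hCp hDt hq u u' hu hu' hnR hQI
  obtain ⟨τ, hτ, hE⟩ := hQI
  have hEC' := res_EC hEC F
  have hCl' : Cl (S.res F) A := (res_Cl F).2 hCl
  have hU' : URs U F M (S.res F) := ⟨S, hU, rfl⟩
  obtain ⟨-, hsym, htrans, -, -, -⟩ := hCMP (G.res F) (URs U F) hC M (S.res F) A hU' hEC' hCl'
  have hDA : ∀ w, ∀ y ∈ Dc (S.res F) A w, y ∉ A := by
    rintro w y ⟨Z, -, hZ, -, hy, -⟩
    exact hZ hy
  obtain ⟨σ, hσ, hσ1, hσ2, hσ3⟩ := hSWP (G.res F) (URs U F) hC M (S.res F) A hU' hEC' hCl' u u' τ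
    hu.1 hu'.1 hnR hτ (hDt.typ _ (fun y : Dc (S.res F) A u => (y : M))
      (fun y : Dc (S.res F) A u => τ y) (fun y => hDA u y y.2)
      (fun y => hDA u' _ (hτ.mapsTo y.2)) hE)
  have hmap : ∀ x ∈ Dc (S.res F) A u, σ x ∈ Dc (S.res F) A u' := by
    intro x hx
    rw [hσ1 x hx]
    exact hτ.mapsTo hx
  have hmap' : ∀ x ∈ Dc (S.res F) A u', σ x ∈ Dc (S.res F) A u := by
    intro x hx
    obtain ⟨y, hy, rfl⟩ := hτ.surjOn hx
    rw [hσ3 y hy]
    exact hy
  have h2 : ∀ x, σ (σ x) = x := by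
    intro x
    by_cases h1 : x ∈ Dc (S.res F) A u
    · rw [hσ1 x h1, hσ3 x h1]
    · by_cases h3 : x ∈ Dc (S.res F) A u'
      · obtain ⟨y, hy, rfl⟩ := hτ.surjOn h3
        rw [hσ3 y hy, hσ1 y hy]
      · rw [hσ2 x h1 h3, hσ2 x h1 h3]
  have hfn : ∀ f x, σ (S.fn f x) = S.fn f (σ x) := by
    intro f x
    have h := (hσ (.eq ([f], x) ([], S.fn f x))).1 rfl
    exact h.symm
  have hroot : ∀ x, lab x = none → σ x = x := by
    intro x hx
    obtain ⟨c, hc⟩ := mem_cl_range.1 (hq ((hlab x).1 hx))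
    have hc' : Gn (S.res F) (q c) x := (res_Gn S F _ _).2 hc
    exact hσ2 x (fun h => hu.2 x h c hc') fun h => hu'.2 x h c hc'
  obtain ⟨ρ, hρ, hlσ⟩ := EXC_perm hCp σ h2 hfn hroot
  refine ⟨(ρ, σ), ⟨hlσ, hroot, fun x i _ h => absurd (mem_univ i) h, hfn, ?_⟩, ⟨?_, ?_, ?_, ?_⟩⟩
  · intro R hR v _
    exact (hσ (.rel ⟨R, hR⟩ fun k => ([], v k))).symm
  · -- disjoint
    rw [Set.disjoint_left]
    rintro i ⟨x, hx, hxi⟩ ⟨y, hy, hyi⟩
    have hne : lab x ≠ none := by rw [hxi]; exact Option.some_ne_none i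
    have hco : ∀ x y, lab x ≠ none → lab x = lab y →
        Relation.ReflTransGen (UNE.Adj (S.res F) lab) x y := hCp.con
    obtain ⟨h3, -⟩ := hCPT (G.res F) (URs U F) hC M P₀ I (S.res F) A q₀ lab hU' hEC' hCl'
      (by
        intro x hx y hy h
        obtain ⟨c, hc⟩ := htr x hx y hy ((res_Gn S F _ _).1 h)
        exact ⟨c, (res_Gn S F _ _).2 hc⟩)
      (by
        intro x
        rw [res_cl]
        exact hlab x) hco
    obtain ⟨-, h4⟩ := h3 x y (hDA u x hx) hne (by rw [hxi, hyi])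
    exact hnR (htrans _ _ _ (htrans _ _ _ hx h4) (hsym _ _ hy))
  · exact Prod.ext hρ (Equiv.ext h2)
  · -- image
    ext j
    constructor
    · rintro ⟨i, ⟨x, hx, hxi⟩, rfl⟩
      refine ⟨σ x, hmap x hx, ?_⟩
      rw [hlσ, hxi]; rfl
    · rintro ⟨x, hx, hxj⟩
      have h5 : ρ (ρ j) = j := by
        have := congrArg (fun e : Equiv.Perm I => e j) hρ
        exact this
      refine ⟨ρ j, ⟨σ x, hmap' x hx, ?_⟩, h5⟩
      rw [hlσ, hxj]; rfl
  · -- outside
    intro x i hxi h3 h4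
    refine hσ2 x (fun h => h3 ⟨x, h, hxi⟩) fun h => h4 ⟨x, h, hxi⟩

end UN
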