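import Pool.Agent.UN.StF

/-!
# UN [FVS]: the number of function components of an indecomposable set is visible
-/

set_option autoImplicit false
set_option linter.unusedVariables false

namespace UN

open Set Filter Pool.Agent.Helper5.DU Pool.Agent.Helper6.Str Pool.Agent.Helper79.VC
  Pool.Agent.Helper97.LO Pool.Agent.Helper97.VC

/-- Connections are visible at levels above `ω`. -/
private theorem FVS_conn {G : Sg} {M N : Type} {S : Sys G M} {S' : Sys G N} {X Q : Set M}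
    {X' Q' : Set N} {π : Set (M × N)} (hQ : Q ⊆ X)
    (hvis : ∀ (π' : Set (M × N)) (γ : Ordinal.{0}), Ordinal.omega0 ≤ γ → BW S S' X X' γ π' →
      π ⊆ π' → ∀ x x', (x, x') ∈ π' → x ∈ Q → x' ∈ Q') {x y : M} (h : Fc S Q x y) :
    ∃ r : ℕ, ∀ (π' : Set (M × N)) (x' y' : N), BW S S' X X' (Ordinal.omega0 + r) π' → π ⊆ π' →
      (x, x') ∈ π' → (y, y') ∈ π' → Fc S' Q' x' y' := by
  induction h using Relation.ReflTransGen.head_induction_on with
  | refl =>
    refine ⟨0, fun π' x' y' hb hπ hx hy => ?_⟩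
    have h1 : x' = y' := ((BFR.atEq hb).1 _ hx _ hy).1 rfl
    rw [h1]
    exact Relation.ReflTransGen.refl
  | head hab hby ih =>
    rename_i a b
    obtain ⟨r, hr⟩ := ih
    refine ⟨r + 1, fun π' x' y' hb hπ hx hy => ?_⟩
    have hlt : Ordinal.omega0 + (r : Ordinal.{0}) < Ordinal.omega0 + ((r + 1 : ℕ) : Ordinal.{0}) := by
      rw [add_lt_add_iff_left]
      exact_mod_cast Nat.lt_succ_self r
    obtain ⟨b', hb'X, hb'⟩ := BFR.forth hb hlt (hQ hab.1)
    have hb'' : BW S S' X X' (Ordinal.omega0 + (r : Ordinal.{0})) (insert (b, b') π') := hb'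
    have h1 : b' ∈ Q' := hvis _ _ le_self_add hb'' (hπ.trans (subset_insert _ _)) b b'
      (mem_insert _ _) hab.1
    have h2 : Eqv S (fun c : Bool => if c then a else b) S'
        (fun c : Bool => if c then x' else b') := BW.eqv hb'' (by
      intro c
      cases c
      · exact mem_insert _ _
      · exact mem_insert_of_mem _ hx)
    have h3 : ∃ f, b' = S'.fn f x' ∨ x' = S'.fn f b' := by
      obtain ⟨f, hf | hf⟩ := hab.2
      · exact ⟨f, Or.inl ((h2.w_eq [] [f] false true).1 hf)⟩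
      · exact ⟨f, Or.inr ((h2.w_eq [] [f] true false).1 hf)⟩
    exact Relation.ReflTransGen.head ⟨h1, h3⟩
      (hr _ b' y' hb'' (hπ.trans (subset_insert _ _)) (mem_insert _ _) (mem_insert_of_mem _ hy))

private theorem FVS_le (m : ℕ) : Ordinal.omega0.{0} + Ordinal.omega0 + 1 + m ≤
    Ordinal.omega0 + Ordinal.omega0 + Ordinal.omega0 := by
  rw [add_assoc (Ordinal.omega0 + Ordinal.omega0) 1]
  have h1 : (1 : Ordinal.{0}) + (m : Ordinal.{0}) ≤ Ordinal.omega0 := by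
    have h2 := (Ordinal.natCast_lt_omega0.{0} (1 + m)).le
    push_cast at h2
    exact h2
  exact add_le_add le_rfl h1

theorem thm_FVS (h1 : St_VPX) (h2 : St_CMX) : St_FVS := by
  intro G U hC M P S A q hS hE hA hDt X X' π hX hX' hb hqπ u u' m huu hu hu' hOu hOu' hF
  have hv := h1 G U hC M P S A q hS hE hA hDt
  have hQX : ∀ (X : Set M) (u : M), {x | Rx S A X u x} ⊆ X := by
    rintro X u x ⟨Z, -, hZX, -, -, hx, -⟩
    exact hZX hx
  have vis : ∀ (π' : Set (M × M)) (γ : Ordinal.{0}), Ordinal.omega0 ≤ γ →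
      BW S S X X' γ π' → π ⊆ π' → ∀ x x', (x, x') ∈ π' → x ∈ {x | Rx S A X u x} →
      x' ∈ {x | Rx S A X' u' x} := by
    intro π' γ hγ hb' hπ x x' hx hxQ
    exact hv X X' π' γ hX hX' hγ hb' (hqπ.trans hπ) u u' x x' (hπ huu) hx hOu hxQ
  have vis' : ∀ (π' : Set (M × M)) (γ : Ordinal.{0}), Ordinal.omega0 ≤ γ →
      BW S S X' X γ π' → Prod.swap ⁻¹' π ⊆ π' → ∀ x x', (x, x') ∈ π' →
      x ∈ {x | Rx S A X' u' x} → x' ∈ {x | Rx S A X u x} := by
    intro π' γ hγ hb' hπ x x' hx hxQ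
    refine hv X' X π' γ hX' hX hγ hb' ?_ u' u x x' (hπ huu) hx hOu' hxQ
    rintro _ ⟨c, rfl⟩
    exact hπ (hqπ ⟨c, rfl⟩)
  obtain ⟨t, ht1, ht2, ht3⟩ := hF
  obtain ⟨t', ht'X, hb'⟩ := BFR.forth_many (γ := Ordinal.omega0 + Ordinal.omega0 + 1) m
    (BFR.mono (FVS_le m) hb) t (fun i => hQX X u (ht1 i))
  set π₁ : Set (M × M) := π ∪ range fun i => (t i, t' i) with hπ₁
  have hππ₁ : π ⊆ π₁ := subset_union_left
  have htt : ∀ i, (t i, t' i) ∈ π₁ := fun i => Or.inr ⟨i, rfl⟩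
  have hω : ∀ r : ℕ, Ordinal.omega0.{0} + r ≤ Ordinal.omega0 + Ordinal.omega0 := fun r =>
    add_le_add le_rfl (Ordinal.natCast_lt_omega0 r).le
  have hω1 : Ordinal.omega0.{0} + Ordinal.omega0 < Ordinal.omega0 + Ordinal.omega0 + 1 :=
    lt_add_one _
  refine ⟨t', fun i => ?_, fun i j hij hc => ?_, fun x' hx' => ?_⟩
  · exact vis π₁ _ (le_self_add.trans hω1.le) hb' hππ₁ _ _ (htt i) (ht1 i)
  · obtain ⟨r, hr⟩ := FVS_conn (π := Prod.swap ⁻¹' π) (hQX X' u') vis' hc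
    apply ht2 i j hij
    have hs : BW S S X' X (Ordinal.omega0 + r) (Prod.swap ⁻¹' π₁) :=
      BFR.mono ((hω r).trans hω1.le) (BFR.swap hb')
    exact hr _ (t i) (t j) hs (preimage_mono hππ₁) (htt i) (htt j)
  · obtain ⟨x, hx, hb''⟩ := BFR.back hb' hω1 (hQX X' u' hx')
    have hs : BW S S X' X (Ordinal.omega0 + Ordinal.omega0)
        (Prod.swap ⁻¹' (insert (x, x') π₁)) := BFR.swap hb''
    have hsub : π ⊆ insert (x, x') π₁ := hππ₁.trans (subset_insert _ _)
    have hxQ : x ∈ {x | Rx S A X u x} := vis' _ _ le_self_add hs (preimage_mono hsub) x' x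
      (show (x, x') ∈ insert (x, x') π₁ from mem_insert _ _) hx'
    obtain ⟨i, hi⟩ := ht3 x hxQ
    obtain ⟨r, hr⟩ := FVS_conn (π := π) (hQX X u) vis hi
    exact ⟨i, hr _ (t' i) x' (BFR.mono (hω r) hb'') hsub (mem_insert_of_mem _ (htt i))
      (mem_insert _ _)⟩

end UN
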