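import Pool.Agent.UN.StF

/-!
# UN: function components
-/

set_option autoImplicit false
set_option linter.unusedVariables false

namespace UN

open Set Filter Pool.Agent.Helper5.DU Pool.Agent.Helper6.Str Pool.Agent.Helper79.VC
  Pool.Agent.Helper97.LO Pool.Agent.Helper97.VC

variable {G : Sg} {M : Type}

theorem FZZ_one {S : Sys G M} {X : Set M} {x : M} (hx : x ∈ X) {y : M} (h : Fc S X x y) :
    y ∈ X ∧ Fc S X y x := by
  unfold Fc at h
  induction h with
  | refl => exact ⟨hx, Relation.ReflTransGen.refl⟩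
  | tail hab hbc ih =>
    obtain ⟨hb, hbx⟩ := ih
    obtain ⟨hc, f, hf⟩ := hbc
    exact ⟨hc, Relation.ReflTransGen.head ⟨hb, f, hf.symm⟩ hbx⟩

theorem FZZ_two {S : Sys G M} {X Y : Set M} (hY : Fcl S X Y) {x : M} (hx : x ∈ Y) {y : M}
    (h : Fc S X x y) : y ∈ Y := by
  unfold Fc at h
  induction h with
  | refl => exact hx
  | tail hab hbc ih =>
    obtain ⟨hc, f, hf⟩ := hbc
    exact hY.2 _ ih _ hc ⟨f, hf⟩

theorem FZZ_three {S : Sys G M} {X Y : Set M} (hY : Fcl S X Y) {x : M} (hx : x ∈ Y) (y : M) :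
    Fc S Y x y ↔ Fc S X x y := by
  constructor
  · intro h
    unfold Fc at h
    induction h with
    | refl => exact Relation.ReflTransGen.refl
    | tail hab hbc ih => exact Relation.ReflTransGen.tail ih ⟨hY.1 hbc.1, hbc.2⟩
  · intro h
    unfold Fc at h
    induction h with
    | refl => exact Relation.ReflTransGen.refl
    | tail hab hbc ih =>
      have hc := FZZ_two hY hx (Relation.ReflTransGen.tail hab hbc)
      exact Relation.ReflTransGen.tail ih ⟨hc, hbc.2⟩

theorem FZZ_four {S : Sys G M} {X Y : Set M} (hY : Fcl S X Y) {T : Set M} (hT : T.Finite)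
    (hTY : T ⊆ Y) (h : ∀ y ∈ Y, ∃ x ∈ T, Fc S X x y) : ∃ m, Fz S Y m := by
  classical
  have : Finite T := hT
  let st : Setoid T :=
    { r := fun a b => Fc S X a.1 b.1
      iseqv := {
        refl := fun a => Relation.ReflTransGen.refl
        symm := fun {a b} hab => (FZZ_one (hY.1 (hTY a.2)) hab).2
        trans := fun {a b c} hab hbc => Relation.ReflTransGen.trans hab hbc } }
  have hfin : Finite (Quotient st) := Quotient.finite st
  let e : Fin (Nat.card (Quotient st)) ≃ Quotient st := (Finite.equivFin (Quotient st)).symm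
  refine ⟨Nat.card (Quotient st), fun i => ((e i).out : T).1, fun i => hTY (e i).out.2, ?_, ?_⟩
  · intro i j hij hF
    apply hij
    apply e.injective
    rw [FZZ_three hY (hTY (e i).out.2)] at hF
    have h1 : (e i).out ≈ (e j).out := hF
    have h2 := Quotient.sound h1
    rwa [Quotient.out_eq, Quotient.out_eq] at h2
  · intro x hx
    obtain ⟨z, hz, hzx⟩ := h x hx
    refine ⟨e.symm (Quotient.mk st ⟨z, hz⟩), ?_⟩
    rw [FZZ_three hY (hTY (e _).out.2)]
    have h1 : (e (e.symm (Quotient.mk st ⟨z, hz⟩))).out ≈ (⟨z, hz⟩ : T) := by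
      rw [Equiv.apply_symm_apply]
      exact Quotient.mk_out (s := st) ⟨z, hz⟩
    have h2 : Fc S X ((e (e.symm (Quotient.mk st ⟨z, hz⟩))).out : T).1 z := h1
    exact Relation.ReflTransGen.trans h2 hzx

theorem FZZ_five {S : Sys G M} {X Y Y' : Set M} {m n : ℕ} (hY : Fcl S X Y) (hY' : Fcl S X Y')
    (hYY : Y ⊆ Y') (hm : Fz S Y m) (hn : Fz S Y' n) : m ≤ n ∧ (Y ≠ Y' → m < n) := by
  obtain ⟨t, ht, htd, -⟩ := hm
  obtain ⟨t', ht', -, htc⟩ := hn
  have h1 : ∀ i, ∃ j, Fc S Y' (t' j) (t i) := fun i => htc _ (hYY (ht i))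
  choose J hJ using h1
  have hJX : ∀ i, Fc S X (t' (J i)) (t i) := fun i => (FZZ_three hY' (ht' _) _).1 (hJ i)
  have hinj : Function.Injective J := by
    intro i i' hii
    by_contra hne
    apply htd i i' hne
    rw [FZZ_three hY (ht i)]
    have h2 := (FZZ_one (hY'.1 (ht' _)) (hJX i)).2
    rw [hii] at h2
    exact Relation.ReflTransGen.trans h2 (hJX i')
  have hle := Fintype.card_le_of_injective J hinj
  rw [Fintype.card_fin, Fintype.card_fin] at hle
  refine ⟨hle, fun hne => ?_⟩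
  have h2 : ∃ y ∈ Y', y ∉ Y := by
    by_contra hcon
    push Not at hcon
    exact hne (Subset.antisymm hYY hcon)
  obtain ⟨y, hy, hyn⟩ := h2
  obtain ⟨j0, hj0⟩ := htc y hy
  have hj0' : j0 ∉ range J := by
    rintro ⟨i, rfl⟩
    apply hyn
    have h3 := (FZZ_one (hY'.1 (ht' _)) (hJX i)).2
    have h4 : Fc S X (t' (J i)) y := (FZZ_three hY' (ht' _) _).1 hj0
    exact FZZ_two hY (ht i) (Relation.ReflTransGen.trans h3 h4)
  have h3 := Fintype.card_lt_of_injective_of_notMem J hinj hj0'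
  rwa [Fintype.card_fin, Fintype.card_fin] at h3

theorem thm_FZZ : St_FZZ := by
  intro G M S X
  refine ⟨fun x hx y h => FZZ_one hx h, fun Y hY x hx y h => FZZ_two hY hx h,
    fun Y hY x hx y _ => FZZ_three hY hx y, fun Y hY T hT hTY h => FZZ_four hY hT hTY h,
    fun Y Y' m n hY hY' hYY hm hn => FZZ_five hY hY' hYY hm hn⟩

end UN
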