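import Pool.Agent.UN.StF

/-!
# UN, module GDP: parts with finitely many function components which have infinitely many
isomorphic copies are good
-/

set_option autoImplicit false
set_option linter.unusedVariables false

namespace UN

open Set Filter Pool.Agent.Helper5.DU Pool.Agent.Helper6.Str Pool.Agent.Helper79.VC
  Pool.Agent.Helper97.LO Pool.Agent.Helper97.VC

theorem GDP_notMem {G : Sg} {M : Type} {S : Sys G M} {A : Set M} {u y : M} (h : Rc S A u y) :
    y ∉ A := by
  obtain ⟨Z, -, hZ, -, hy, -⟩ := h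
  exact hZ hy

open UNE in
theorem GDP_lab {G : Sg} {M I : Type} {S : Sys G M} {lab : M → Option I} (hCp : Cp S lab)
    {X : Set M} (hX : ∀ x ∈ X, lab x ≠ none) {x y : M} (hx : x ∈ X) (h : Fc S X x y) :
    y ∈ X ∧ lab y = lab x := by
  induction h with
  | refl => exact ⟨hx, rfl⟩
  | tail _ hbc ih =>
    rename_i b c _
    obtain ⟨hb, hbx⟩ := ih
    obtain ⟨hc, f, hf | hf⟩ := hbc
    · refine ⟨hc, ?_⟩
      rcases hCp.fn f b with h1 | h1
      · rw [← hf] at h1
        exact absurd h1 (hX c hc)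
      · rw [← hf] at h1
        exact h1.trans hbx
    · refine ⟨hc, ?_⟩
      rcases hCp.fn f c with h1 | h1
      · rw [← hf] at h1
        exact absurd h1 (hX b hb)
      · rw [← hf] at h1
        exact h1.symm.trans hbx

open UNE in
theorem thm_GDP (hE : St_EXC) (hC : St_CPT) (hM : St_CMP) : St_GDP := by
  intro G U F hCmt M P₀ P I S A q₀ q lab hU hEC hCl hq₀ hlab hCp hDt hsub u u' m hOff hFz hOff'
    hQI hne
  have hU' : URs U F M (S.res F) := ⟨S, hU, rfl⟩
  have hEC' := res_EC hEC F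
  have hCl' : Cl (S.res F) A := (res_Cl F).2 hCl
  obtain ⟨hrefl, hsymm, htrans, -, -, -⟩ := hM (G.res F) (URs U F) hCmt M (S.res F) A hU' hEC' hCl'
  obtain ⟨hcpt, -⟩ := hC (G.res F) (URs U F) hCmt M P₀ I (S.res F) A q₀ lab hU' hEC' hCl'
    (fun x hx y hy h => by
      obtain ⟨c, hc⟩ := hq₀ x hx y hy ((res_Gn S F x y).1 h)
      exact ⟨c, (res_Gn S F _ _).2 hc⟩)
    (fun x => by rw [res_cl]; exact hlab x) (fun x y h1 h2 => hCp.con x y h1 h2)
  have hlabD : ∀ v, Off (S.res F) A q v → ∀ x ∈ Dc (S.res F) A v, lab x ≠ none := by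
    intro v hv x hx h
    obtain ⟨y, ⟨c, rfl⟩, hc⟩ := hsub ((hlab x).1 h)
    exact hv.2 x hx c ((res_Gn S F _ _).2 hc)
  have huD : u ∈ Dc (S.res F) A u := hrefl u hOff.1
  refine ⟨?_, ?_, ?_⟩
  · obtain ⟨t, ht, -, ht2⟩ := hFz
    have h1 : {i | ∃ x ∈ Dc (S.res F) A u, lab x = some i} ⊆ some ⁻¹' range (lab ∘ t) := by
      rintro i ⟨x, hx, hi⟩
      obtain ⟨j, hj⟩ := ht2 x hx
      have h2 := (GDP_lab (S := S) hCp (hlabD u hOff) (ht j) hj).2
      exact ⟨j, h2.symm.trans hi⟩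
    exact ((finite_range (lab ∘ t)).preimage (Option.some_injective I).injOn).subset h1
  · obtain ⟨i, hi⟩ := Option.ne_none_iff_exists'.1 (hlabD u hOff u huD)
    exact ⟨i, u, huD, hi⟩
  · intro Z hZ
    let B : Set ℕ := {n | Rc (S.res F) A u (u' n)} ∪
      ⋃ i ∈ Z, {n | ∃ x ∈ Dc (S.res F) A (u' n), lab x = some i}
    have hB : B.Finite := by
      refine Set.Finite.union ?_ (hZ.biUnion fun i _ => ?_)
      · refine Set.Subsingleton.finite fun a ha b hb => ?_
        by_contra h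
        exact hne a b h (htrans _ _ _ (hsymm _ _ ha) hb)
      · refine Set.Subsingleton.finite fun a ha b hb => ?_
        by_contra h
        obtain ⟨x, hx, hxi⟩ := ha
        obtain ⟨y, hy, hyi⟩ := hb
        have h1 := (hcpt x y (GDP_notMem hx) (by rw [hxi]; exact Option.some_ne_none i)
          (hxi.trans hyi.symm)).2
        exact hne a b h (htrans _ _ _ (htrans _ _ _ hx h1) (hsymm _ _ hy))
    obtain ⟨n, hn⟩ := hB.infinite_compl.nonempty
    have hn1 : ¬ Rc (S.res F) A u (u' n) := fun h => hn (Or.inl h)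
    obtain ⟨a, ha⟩ := hE G U F hCmt M P₀ P I S A q₀ q lab hU hEC hCl hq₀ hlab hCp hDt hsub u
      (u' n) hOff (hOff' n) hn1 (hQI n)
    refine ⟨_, a, ?_, ha⟩
    rw [Set.disjoint_left]
    intro i hi hiZ
    exact hn (Or.inr (mem_iUnion₂.2 ⟨i, hiZ, hi⟩))

end UN
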