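import Pool.Agent.UN.StF

/-!
# UN: indecomposable unions of function components
-/

set_option autoImplicit false

namespace UN

open Set

theorem thm_IDC (h1 : St_FZZ) (h2 : St_CMX) : St_IDC := by
  classical
  intro G U hU M S A hM hEC hCl u hu hno n
  have hX := h2 G U hU M S A hM hEC hCl
  obtain ⟨hF1, hF2, hF3, hF4, hF5⟩ := h1 G M S (Dc S A u)
  have hDA : ∀ x ∈ Dc S A u, x ∉ A := by
    rintro x ⟨Z, -, hZ, -, hx, -⟩
    exact hZ hx
  have huD : u ∈ Dc S A u := by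
    obtain ⟨a1, a2, a3, a4, a5, a6, a7, a8⟩ := hX univ
    exact a7 u u (a1 u (mem_univ u) hu)
  -- neighbours in a set are related in the set
  have hnb : ∀ X : Set M, X ⊆ Dc S A u → ∀ x ∈ X, ∀ y ∈ X,
      (∃ f, y = S.fn f x ∨ x = S.fn f y) → Rx S A X x y := by
    intro X hXD x hx y hy hxy
    obtain ⟨a1, a2, a3, a4, a5, a6, a7, a8⟩ := hX X
    obtain ⟨f, rfl | rfl⟩ := hxy
    · exact a4 f x hx (hDA x (hXD hx)) hy (hDA _ (hXD hy))
    · exact a2 _ _ (a4 f y hy (hDA y (hXD hy)) hx (hDA _ (hXD hx)))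
  induction n with
  | zero =>
    have hYD : {y | Fc S (Dc S A u) u y} ⊆ Dc S A u := fun y hy => (hF1 u huD y hy).1
    have hcl : Fcl S (Dc S A u) {y | Fc S (Dc S A u) u y} :=
      ⟨hYD, fun x hx y hy hxy => Relation.ReflTransGen.tail hx ⟨hy, hxy⟩⟩
    obtain ⟨m, hm⟩ := hF4 _ hcl {u} (finite_singleton u)
      (singleton_subset_iff.2 Relation.ReflTransGen.refl) (fun y hy => ⟨u, rfl, hy⟩)
    refine ⟨{y | Fc S (Dc S A u) u y}, m, Nat.zero_le m, Relation.ReflTransGen.refl, hcl, ?_, hm⟩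
    obtain ⟨a1, a2, a3, a4, a5, a6, a7, a8⟩ := hX {y | Fc S (Dc S A u) u y}
    intro x hx
    have hx' : Fc S (Dc S A u) u x := hx
    clear hx
    unfold Fc at hx'
    induction hx' with
    | refl => exact a1 u Relation.ReflTransGen.refl hu
    | @tail b c hab hbc ih =>
      exact a3 _ _ _ ih (hnb _ hYD b hab c (Relation.ReflTransGen.tail hab hbc) hbc.2)
  | succ n ih =>
    obtain ⟨Y, m, hnm, huY, hYc, hYR, hYm⟩ := ih
    have hYne : Y ≠ Dc S A u := fun h => hno ⟨m, h ▸ hYm⟩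
    obtain ⟨y, hyD, hyY⟩ : ∃ y ∈ Dc S A u, y ∉ Y := by
      by_contra hcon
      push Not at hcon
      exact hYne (Subset.antisymm hYc.1 hcon)
    obtain ⟨Z, hZf, hZD, hZR⟩ : ∃ Z : Set M, Z.Finite ∧ Z ⊆ Dc S A u ∧ Rx S A Z u y := by
      obtain ⟨a1, a2, a3, a4, a5, a6, a7, a8⟩ := hX univ
      exact a8 u y hyD
    set X : Set M := Y ∪ {x | ∃ z ∈ Z, Fc S (Dc S A u) z x} with hXdef
    have hXc : Fcl S (Dc S A u) X := by
      refine ⟨?_, ?_⟩
      · rintro x (hx | ⟨z, hz, hzx⟩)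
        · exact hYc.1 hx
        · exact (hF1 z (hZD hz) x hzx).1
      · rintro x (hx | ⟨z, hz, hzx⟩) x' hx' hl
        · exact Or.inl (hYc.2 x hx x' hx' hl)
        · exact Or.inr ⟨z, hz, Relation.ReflTransGen.tail hzx ⟨hx', hl⟩⟩
    obtain ⟨a1, a2, a3, a4, a5, a6, a7, a8⟩ := hX X
    set Y' : Set M := {x | Rx S A X u x} with hY'
    have hYX : Y ⊆ X := subset_union_left
    have hZX : Z ⊆ X := fun z hz => Or.inr ⟨z, hz, Relation.ReflTransGen.refl⟩
    have hYY' : Y ⊆ Y' := fun x hx => (hX Y).2.2.2.2.2.1 X u x hYX (hYR x hx)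
    have hyY' : y ∈ Y' := (hX Z).2.2.2.2.2.1 X u y hZX hZR
    have hY'X : Y' ⊆ X := by
      rintro x ⟨Z', -, hZ'X, -, -, hx, -⟩
      exact hZ'X hx
    have hY'c : Fcl S (Dc S A u) Y' := by
      refine ⟨hY'X.trans hXc.1, ?_⟩
      intro x hx x' hx' hl
      have hx'X : x' ∈ X := hXc.2 x (hY'X hx) x' hx' hl
      exact a3 _ _ _ hx (hnb X hXc.1 x (hY'X hx) x' hx'X hl)
    have hY'R : ∀ x ∈ Y', Rx S A Y' u x := fun x hx => a5 u x hx
    obtain ⟨t, ht1, ht2, ht3⟩ := hYm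
    let Q : M → Prop := fun z => ∃ y' ∈ Y', Fc S (Dc S A u) z y'
    let w : M → M := fun z => if h : Q z then h.choose else z
    have hw : ∀ z, Q z → w z ∈ Y' ∧ Fc S (Dc S A u) z (w z) := by
      intro z hz
      have h3 : w z = hz.choose := dif_pos hz
      rw [h3]
      exact hz.choose_spec
    obtain ⟨m', hm'⟩ := hF4 Y' hY'c (range t ∪ w '' {z ∈ Z | Q z})
      ((finite_range t).union ((hZf.subset (sep_subset Z Q)).image w))
      (by
        rintro _ (⟨i, rfl⟩ | ⟨z, hz, rfl⟩)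
        · exact hYY' (ht1 i)
        · exact (hw z hz.2).1)
      (by
        intro x hx
        rcases hY'X hx with hx1 | ⟨z, hz, hzx⟩
        · obtain ⟨i, hi⟩ := ht3 x hx1
          exact ⟨t i, Or.inl ⟨i, rfl⟩, (hF3 Y hYc (t i) (ht1 i) x hx1).1 hi⟩
        · have hQ : Q z := ⟨x, hx, hzx⟩
          refine ⟨w z, Or.inr ⟨z, ⟨hz, hQ⟩, rfl⟩, ?_⟩
          exact Relation.ReflTransGen.trans (hF1 z (hZD hz) _ (hw z hQ).2).2 hzx)
    refine ⟨Y', m', ?_, hYY' huY, hY'c, hY'R, hm'⟩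
    have h3 := (hF5 Y Y' m m' hYc hY'c hYY' ⟨t, ht1, ht2, ht3⟩ hm').2 (fun h => hyY (h ▸ hyY'))
    omega

end UN
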