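import Pool.Agent.UN.StF

/-!
# UN, module LAB: the function components outside of a closed set
-/

set_option autoImplicit false
set_option linter.unusedVariables false

namespace UN

open Set

theorem thm_LAB : St_LAB := by
  intro G M S R hR
  classical
  let r : {x : M // x ∉ R} → {x : M // x ∉ R} → Prop := fun x y => ∃ f, (y : M) = S.fn f x
  let lab : M → Option (Quot r) := fun x => if h : x ∈ R then none else some (Quot.mk r ⟨x, h⟩)
  have lab1 : ∀ x, x ∈ R → lab x = none := fun x h => dif_pos h
  have lab2 : ∀ x (h : x ∉ R), lab x = some (Quot.mk r ⟨x, h⟩) := fun x h => dif_neg h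
  have lab3 : ∀ x, lab x = none ↔ x ∈ R := by
    intro x
    constructor
    · intro h
      by_contra hx
      rw [lab2 x hx] at h
      exact Option.some_ne_none _ h
    · exact lab1 x
  refine ⟨Quot r, lab, lab3, ?_, ?_, ?_⟩
  · intro f x
    by_cases hx : x ∈ R
    · exact Or.inl (lab1 _ (hR f x hx))
    by_cases hy : S.fn f x ∈ R
    · exact Or.inl (lab1 _ hy)
    right
    rw [lab2 x hx, lab2 _ hy]
    exact congrArg some (Quot.sound ⟨f, rfl⟩).symm
  · intro i
    induction i using Quot.ind with
    | mk x => exact ⟨x.1, lab2 x.1 x.2⟩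
  · have hsymm : ∀ x y, Relation.ReflTransGen (UNE.Adj S lab) x y →
        Relation.ReflTransGen (UNE.Adj S lab) y x := by
      intro x y h
      induction h with
      | refl => exact Relation.ReflTransGen.refl
      | tail _ h ih =>
        obtain ⟨h1, h2, f, h3⟩ := h
        exact Relation.ReflTransGen.head ⟨h2, h1, f, h3.symm⟩ ih
    have hgen : ∀ x y, Relation.EqvGen r x y →
        Relation.ReflTransGen (UNE.Adj S lab) (x : M) (y : M) := by
      intro x y h
      induction h with
      | rel x y h =>
        obtain ⟨f, hf⟩ := h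
        exact Relation.ReflTransGen.single
          ⟨fun h => x.2 ((lab3 _).1 h), fun h => y.2 ((lab3 _).1 h), f, Or.inl hf⟩
      | refl x => exact Relation.ReflTransGen.refl
      | symm x y _ ih => exact hsymm _ _ ih
      | trans x y z _ _ ih1 ih2 => exact ih1.trans ih2
    intro x y hx hxy
    have h1 : x ∉ R := fun h => hx (lab1 x h)
    have h2 : y ∉ R := fun h => hx (hxy.trans (lab1 y h))
    rw [lab2 x h1, lab2 y h2] at hxy
    exact hgen ⟨x, h1⟩ ⟨y, h2⟩ (Quot.eqvGen_exact (Option.some.inj hxy))

end UN
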