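import Pool.Agent.UN.StF

/-!
# UN [LVF]: the level of a finite set of relation symbols
-/

set_option autoImplicit false
set_option linter.unusedVariables false

namespace UN

open Set Filter Pool.Agent.Helper5.DU Pool.Agent.Helper6.Str Pool.Agent.Helper79.VC
  Pool.Agent.Helper97.LO Pool.Agent.Helper97.VC

/-- isomorphic sets over `q` -/
private def LVF_r {G : Sg} {M P : Type} (S : Sys G M) (q : P → M) (D D' : Set M) : Prop :=
  ∃ τ : M → M, BijOn τ D D' ∧
    Eqv S (Sum.elim q fun y : D => (y : M)) S (Sum.elim q fun y : D => τ y)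

private theorem LVF_refl {G : Sg} {M P : Type} (S : Sys G M) (q : P → M) (D : Set M) :
    LVF_r S q D D := ⟨id, bijOn_id D, Eqv.refl _⟩

private theorem LVF_symm {G : Sg} {M P : Type} {S : Sys G M} {q : P → M} {D D' : Set M}
    (h : LVF_r S q D D') : LVF_r S q D' D := by
  classical
  obtain ⟨τ, h1, h2⟩ := h
  by_cases hM : Nonempty M
  · have h3 : InvOn (Function.invFunOn τ D) τ D D' := h1.invOn_invFunOn
    have h4 : BijOn (Function.invFunOn τ D) D' D := h1.symm h3.symm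
    refine ⟨Function.invFunOn τ D, h4, ?_⟩
    refine h2.symm.comp' (Sum.map id fun y : D' => ⟨Function.invFunOn τ D y, h4.mapsTo y.2⟩) ?_ ?_
    · rintro (c | y)
      · rfl
      · exact (h3.2 y.2).symm
    · rintro (c | y) <;> rfl
  · have : IsEmpty M := not_nonempty_iff.1 hM
    have h3 : D = ∅ := Set.eq_empty_of_isEmpty D
    have h4 : D' = ∅ := Set.eq_empty_of_isEmpty D'
    subst h3; subst h4
    exact LVF_refl S q ∅

private theorem LVF_trans {G : Sg} {M P : Type} {S : Sys G M} {q : P → M} {D D' D'' : Set M}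
    (h : LVF_r S q D D') (h' : LVF_r S q D' D'') : LVF_r S q D D'' := by
  obtain ⟨τ, h1, h2⟩ := h
  obtain ⟨σ, h3, h4⟩ := h'
  refine ⟨σ ∘ τ, h3.comp h1, h2.trans ?_⟩
  refine h4.comp' (Sum.map id fun y : D => ⟨τ y, h1.mapsTo y.2⟩) ?_ ?_
  · rintro (c | y) <;> rfl
  · rintro (c | y) <;> rfl

open UNE in
private theorem LVF_one {G : Sg} {M I : Type} (S : Sys G M) (lab : M → Option I) (Λ : Set G.Rl)
    (X : Set I) : Ph S lab Λ X 1 := by
  refine ⟨⟨fun x => ?_, fun x _ => rfl, fun x i _ _ => rfl, fun f x => rfl,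
    fun R _ v _ => Iff.rfl⟩, ?_⟩
  · show lab x = (lab x).map (fun i => i)
    cases lab x <;> rfl
  · have h : Sp lab (1 : Gp I M) = ∅ := by
      ext i
      simp [Sp]
    rw [h]
    exact finite_empty

open UNE in
/-- The level of a finite set of relation symbols. -/
theorem thm_LVF (hDTT : St_DTT) (hCMP : St_CMP) (hCMC : St_CMC) (hFST : St_FST) (hSIZ : St_SIZ)
    (hCPT : St_CPT) (hEXC : St_EXC) (hGDP : St_GDP) (hCLR : St_CLR) : St_LVF := by
  classical
  intro G U cF cR hU hPg F hF hCmt hWre M P₀ I S A q₀ lab hP₀ hM hEC hCl hAc htr hlab hCp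
  have hUF := URs_IsU hU F
  have hPF := URs_Pg hPg F
  have hMF : URs U F M (S.res F) := ⟨S, hM, rfl⟩
  have hECF := res_EC hEC F
  have hClF : Cl (S.res F) A := hCl
  have cFF : Countable (G.res F).Fn := res_ctb F
  have cRF : Countable (G.res F).Rl := res_ctbR F
  obtain ⟨P₁, q₁, hq₁⟩ := hDTT (G.res F) (URs U F) cFF hUF hCmt hWre hPF (res_fin hF) M (S.res F) A
    hMF hECF hClF
  have hP₁ : Finite P₁ := hq₁.fin
  set q : P₁ ⊕ P₀ → M := Sum.elim q₁ q₀ with hq
  have hDt : Dt (S.res F) A q := by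
    refine ⟨inferInstance, fun V z z' hz hz' h => ?_, fun x hx y hy h => ?_⟩
    · refine hq₁.typ V z z' hz hz' ?_
      refine h.comp' (Sum.map Sum.inl id) ?_ ?_
      · rintro (c | v) <;> rfl
      · rintro (c | v) <;> rfl
    · obtain ⟨c, hc⟩ := hq₁.trc x hx y hy h
      exact ⟨Sum.inl c, hc⟩
  have hcl : cl S (range q₀) ⊆ cl S (range q) := by
    refine cl_mono ?_
    rintro _ ⟨c, rfl⟩
    exact ⟨Sum.inr c, rfl⟩
  obtain ⟨c1, c2, c3, -, -, -⟩ := hCMP (G.res F) (URs U F) hCmt M (S.res F) A hMF hECF hClF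
  have hctb := hCMC (G.res F) (URs U F) cFF cRF hUF hCmt hWre M (S.res F) A hMF hECF hAc
  have hRcA : ∀ u y, Rc (S.res F) A u y → y ∉ A := by
    rintro u y ⟨Z, -, hZ, -, hy, -⟩
    exact hZ hy
  have hDceq : ∀ u y, Rc (S.res F) A u y → Dc (S.res F) A u = Dc (S.res F) A y := by
    intro u y h
    ext z
    exact ⟨fun h1 => c3 _ _ _ (c2 _ _ h) h1, fun h1 => c3 _ _ _ h h1⟩
  -- the classes
  let Q : Type := {D : Set M // ∃ u, Off (S.res F) A q u ∧ D = Dc (S.res F) A u}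
  let r : Q → Q → Prop := fun D D' => LVF_r (S.res F) q D.1 D'.1
  let p : Q → Prop := fun D => ∃ m, Fz (S.res F) D.1 m
  have hr : Equivalence r :=
    ⟨fun D => LVF_refl _ _ _, fun h => LVF_symm h, fun h h' => LVF_trans h h'⟩
  have H1 : ¬ ∃ x : ℕ → Q, ∀ m n, m ≠ n → ¬ r (x m) (x n) := by
    rintro ⟨x, hx⟩
    choose u hu1 hu2 using fun n => (x n).2
    refine hFST (G.res F) (URs U F) cFF cRF hUF hCmt hWre hPF M _ (S.res F) A q hMF hECF hClF hAc
      hDt ⟨u, fun n => (hu1 n).1, fun n => (hu1 n).2, fun m n hmn hQI => hx m n hmn ?_⟩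
    show LVF_r (S.res F) q (x m).1 (x n).1
    rw [hu2 m, hu2 n]
    exact hQI
  have H2 : ¬ ∃ x : ℕ → Q, (∀ m n, m ≠ n → x m ≠ x n) ∧ ∀ n, ¬ p (x n) := by
    rintro ⟨x, hx, hxp⟩
    choose u hu1 hu2 using fun n => (x n).2
    refine hSIZ (G.res F) (URs U F) cFF hUF hCmt hPF M _ (S.res F) A q hMF hECF hClF
      hDt hctb ⟨u, hu1, fun m n hmn hRc => hx m n hmn ?_, fun n hn => hxp n ?_⟩
    · refine Subtype.ext ?_
      rw [hu2 m, hu2 n]
      exact hDceq _ _ hRc
    · show ∃ m, Fz (S.res F) (x n).1 m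
      rw [hu2 n]
      exact hn
  obtain ⟨Q', hQ'f, hQ'⟩ := hCLR Q r p hr H1 H2
  -- the countable set
  set B : Set M := cl S (range q) with hB
  have hBc : B.Countable := cl_countable (countable_range q)
  set T : Set M := A ∪ ((⋃ b ∈ B, Dc (S.res F) A b) ∪ ⋃ D ∈ Q', (D : Q).1) with hT
  have hTc : T.Countable := by
    refine hAc.union ((hBc.biUnion fun b _ => hctb b).union (hQ'f.countable.biUnion fun D _ => ?_))
    obtain ⟨u, -, hu⟩ := D.2
    rw [hu]
    exact hctb u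
  set J : Set I := {i | ∃ x ∈ T, lab x = some i} with hJ
  have hJc : J.Countable := by
    have h1 : J ⊆ some ⁻¹' (lab '' T) := by
      rintro i ⟨x, hx, hi⟩
      exact ⟨x, hx, hi⟩
    exact ((hTc.image lab).preimage (Option.some_injective I)).mono h1
  -- the main claim
  have key : ∀ i ∉ J, Gx S lab F univ i ∧ ∃ j ∈ J, Cj S lab F univ j i := by
    intro i hi
    obtain ⟨x, hx⟩ := hCp.ne i
    have hxT : x ∉ T := fun h => hi ⟨x, h, hx⟩
    have hxA : x ∉ A := fun h => hxT (Or.inl h)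
    have hoff : Off (S.res F) A q x := by
      refine ⟨hxA, fun y hy c hc => hxT (Or.inr (Or.inl ?_))⟩
      have hyB : y ∈ B := ⟨q c, ⟨c, rfl⟩, (res_Gn S F _ _).1 hc⟩
      exact mem_biUnion hyB (c2 _ _ hy)
    have hxx : x ∈ Dc (S.res F) A x := c1 x hxA
    let dQ : Q := ⟨Dc (S.res F) A x, x, hoff, rfl⟩
    have hdQ : dQ ∉ Q' := fun h => hxT (Or.inr (Or.inr (mem_biUnion h hxx)))
    obtain ⟨⟨m, hm⟩, ⟨dQ', hdQ', hrr⟩, y, hy1, hy2⟩ := hQ' dQ hdQ
    -- good
    choose u hu1 hu2 using fun n => (y n).2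
    have hGs := hGDP G U F hCmt M P₀ (P₁ ⊕ P₀) I S A q₀ q lab hM hEC hCl htr hlab hCp hDt hcl
      x u m hoff hm hu1 (fun n => by
        have h1 : LVF_r (S.res F) q (Dc (S.res F) A x) (y n).1 := hy1 n
        rw [hu2 n] at h1
        exact h1) (fun k n hkn hRc => hy2 k n hkn (Subtype.ext (by
        rw [hu2 k, hu2 n]
        exact hDceq _ _ hRc)))
    refine ⟨⟨_, hGs, x, hxx, hx⟩, ?_⟩
    -- the exchange
    obtain ⟨u', hu1', hu2'⟩ := dQ'.2
    have hQI : QI (S.res F) A q x u' := by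
      have h1 : LVF_r (S.res F) q (Dc (S.res F) A x) dQ'.1 := hrr
      rw [hu2'] at h1
      exact h1
    have hnRc : ¬ Rc (S.res F) A x u' := by
      intro h
      refine hdQ ?_
      have h1 : dQ = dQ' := Subtype.ext (by
        rw [hu2']
        exact hDceq _ _ h)
      rw [h1]
      exact hdQ'
    obtain ⟨a, ha⟩ := hEXC G U F hCmt M P₀ (P₁ ⊕ P₀) I S A q₀ q lab hM hEC hCl htr hlab hCp hDt
      hcl x u' hoff hu1' hnRc hQI
    have hiw : i ∈ {i | ∃ x_1 ∈ Dc (S.res F) A x, lab x_1 = some i} := ⟨x, hxx, hx⟩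
    have hj : a.1 i ∈ {i | ∃ x ∈ Dc (S.res F) A u', lab x = some i} := by
      rw [← ha.2.img]
      exact mem_image_of_mem _ hiw
    have hw' : {i | ∃ x ∈ Dc (S.res F) A u', lab x = some i}.Finite := by
      rw [← ha.2.img]
      exact hGs.1.image _
    refine ⟨a.1 i, ?_, a, ⟨ha.1, ?_⟩, ?_⟩
    · obtain ⟨z, hz1, hz2⟩ := hj
      refine ⟨z, Or.inr (Or.inr (mem_biUnion hdQ' ?_)), hz2⟩
      show z ∈ dQ'.1
      rw [hu2']
      exact hz1
    · refine (hGs.1.union hw').subset ?_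
      rintro k ⟨z, hz1, hz2⟩
      by_contra h
      rw [mem_union, not_or] at h
      exact hz2 (ha.2.out z k hz1 h.1 h.2)
    · have h1 := congrArg (fun b : Gp I M => b.1 i) ha.2.inv
      exact h1
  refine ⟨J, hJc, fun i hi => (key i hi).1, fun i => ?_⟩
  by_cases hi : i ∈ J
  · exact ⟨i, hi, 1, LVF_one S lab F univ, rfl⟩
  · exact (key i hi).2

end UN
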