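import Pool.Agent.UN.StF

/-!
# UN: all but finitely many parts have finitely many function components
-/

set_option autoImplicit false
set_option linter.unusedVariables false

namespace UN

open Set Filter Pool.Agent.Helper5.DU Pool.Agent.Helper6.Str Pool.Agent.Helper79.VC
  Pool.Agent.Helper97.LO Pool.Agent.Helper97.VC

theorem thm_SIZ (hCMP : St_CMP) (hCMX : St_CMX) (hIDC : St_IDC) (hFVS : St_FVS)
    (hFZZ : St_FZZ) : St_SIZ := by
  classical
  intro G U hFn hU hC hPg M P S A q hS hE hA hDt hDc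
  rintro ⟨u, huo, hne, hinf⟩
  have hP : Finite P := hDt.fin
  obtain ⟨cr, cs, ct, cf, -, -⟩ := hCMP G U hC M S A hS hE hA
  have hX := hCMX G U hC M S A hS hE hA
  set B : Set M := cl S (range q) with hBdef
  have hq : ∀ c, q c ∈ B := fun c => subset_cl _ ⟨c, rfl⟩
  have hDA : ∀ x y, Rc S A x y → y ∉ A := by
    rintro x y ⟨Z, -, hZ, -, hy, -⟩
    exact hZ hy
  have hDeq : ∀ x y, Rc S A x y → Dc S A x = Dc S A y := by
    intro x y h
    ext z
    exact ⟨fun hz => ct _ _ _ (cs _ _ h) hz, fun hz => ct _ _ _ h hz⟩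
  have hinj : Function.Injective u := by
    intro m n hmn
    by_contra hmn'
    apply hne m n hmn'
    rw [hmn]
    exact cr _ (huo n).1
  have hBc : B.Countable := cl_countable (countable_range q)
  -- step 1
  have h1 : ∀ k n, ∃ (Y : Set M) (m : ℕ), n ≤ m ∧ u k ∈ Y ∧ Fcl S (Dc S A (u k)) Y ∧
      (∀ x ∈ Y, Rx S A Y (u k) x) ∧ Fz S Y m := fun k n =>
    hIDC G U hC M S A hS hE hA (u k) (huo k).1 (hinf k) n
  choose Y' m' ha1 ha2 ha3 ha4 ha5 using h1
  let nn : ℕ → ℕ := fun j => Nat.rec 0 (fun j n => m' (j / 2) n + 1) j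
  let s : ℕ → ℕ := fun j => m' (j / 2) (nn j)
  let Y : ℕ → Set M := fun j => Y' (j / 2) (nn j)
  have hs : StrictMono s := by
    refine strictMono_nat_of_lt_succ fun j => ?_
    have h2 : nn (j + 1) = s j + 1 := rfl
    have h3 : nn (j + 1) ≤ s (j + 1) := ha1 _ _
    omega
  have y1 : ∀ j, u (j / 2) ∈ Y j := fun j => ha2 _ _
  have y2 : ∀ j, Fcl S (Dc S A (u (j / 2))) (Y j) := fun j => ha3 _ _
  have y3 : ∀ j, ∀ x ∈ Y j, Rx S A (Y j) (u (j / 2)) x := fun j => ha4 _ _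
  have y4 : ∀ j, Fz S (Y j) (s j) := fun j => ha5 _ _
  -- step 2
  let e : (ℕ → Bool) → ℕ → ℕ := fun f k => 2 * k + (if f k then 1 else 0)
  have he2 : ∀ f k, e f k / 2 = k := by
    intro f k
    simp only [e]
    split_ifs <;> omega
  have he : ∀ f f' k k', e f k = e f' k' → k = k' ∧ f k = f' k' := by
    intro f f' k k' h
    simp only [e] at h
    cases h1 : f k <;> cases h2 : f' k' <;> simp only [h1, h2] at h <;> simp at h ⊢ <;> omega
  have hYD : ∀ f k, Y (e f k) ⊆ Dc S A (u k) := by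
    intro f k
    have h2 := (y2 (e f k)).1
    rw [he2] at h2
    exact h2
  have huY : ∀ f k, u k ∈ Y (e f k) := by
    intro f k
    have h2 := y1 (e f k)
    rw [he2] at h2
    exact h2
  let X : (ℕ → Bool) → Set M := fun f => B ∪ ⋃ k, Y (e f k)
  have hYX : ∀ f k, Y (e f k) ⊆ X f := fun f k x hx => Or.inr (mem_iUnion.2 ⟨k, hx⟩)
  have hXcl : ∀ f, Cl S (X f) := by
    rintro f g x (hx | hx)
    · exact Or.inl (cl_closed _ g x hx)
    · obtain ⟨k, hk⟩ := mem_iUnion.1 hx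
      have hxD := hYD f k hk
      by_cases h : S.fn g x ∈ A
      · obtain ⟨c, hc⟩ := hDt.trc x (hDA _ _ hxD) _ h ⟨[g], rfl⟩
        exact Or.inl (mem_cl_range.2 ⟨c, hc⟩)
      · refine hYX f k ((y2 (e f k)).2 x hk _ ?_ ⟨g, Or.inl rfl⟩)
        rw [he2]
        exact ct _ _ _ hxD (cf g x (hDA _ _ hxD) h)
  have hXm : ∀ f, ∀ x ∈ X f, x ∉ A ∨ ∃ c, Gn S (q c) x := by
    rintro f x (hx | hx)
    · exact Or.inr (mem_cl_range.1 hx)
    · obtain ⟨k, hk⟩ := mem_iUnion.1 hx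
      exact Or.inl (hDA _ _ (hYD f k hk))
  have hDB : ∀ n, ∀ x ∈ Dc S A (u n), x ∉ B := fun n x hx h => by
    obtain ⟨c, hc⟩ := mem_cl_range.1 h
    exact (huo n).2 x hx c hc
  -- step 3
  have s3 : ∀ f k, ∀ x ∈ Y (e f k), {z | Rx S A (X f) x z} = Y (e f k) := by
    intro f k x hx
    obtain ⟨-, r2, r3, -, -, -, r7, -⟩ := hX (X f)
    obtain ⟨-, -, -, -, -, r6, -, -⟩ := hX (Y (e f k))
    ext z
    constructor
    · intro hz
      have hz' : Rx S A (X f) x z := hz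
      have h2 : z ∈ Dc S A (u k) := ct _ _ _ (hYD f k hx) (r7 _ _ hz')
      obtain ⟨Z, -, hZ, -, -, hzZ, -⟩ := hz'
      rcases hZ hzZ with h3 | h3
      · exact absurd h3 (hDB k z h2)
      · obtain ⟨l, hl⟩ := mem_iUnion.1 h3
        by_cases hkl : k = l
        · rw [hkl]
          exact hl
        · exact absurd (ct _ _ _ h2 (cs _ _ (hYD f l hl))) (hne k l hkl)
    · intro hz
      have h2 := y3 (e f k)
      exact r3 _ _ _ (r2 _ _ (r6 _ _ _ (hYX f k) (h2 x hx))) (r6 _ _ _ (hYX f k) (h2 z hz))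
  -- step 4
  have h3w : Ordinal.omega0 + Ordinal.omega0 + Ordinal.omega0 < om1 :=
    add_lt_om1 (add_lt_om1 omega_lt_om1 omega_lt_om1) omega_lt_om1
  obtain ⟨f, f', hff, hb⟩ := hPg M S hS X P q _ hP (add_one_lt_om1 h3w) (by
    intro f
    refine ⟨hBc.union (countable_iUnion fun k => (hDc (u k)).mono (hYD f k)), ?_, ?_, hXcl f⟩
    · refine (Set.infinite_range_of_injective hinj).mono ?_
      rintro _ ⟨k, rfl⟩
      exact hYX f k (huY f k)
    · rintro _ ⟨c, rfl⟩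
      exact Or.inl (hq c))
  apply hff
  funext k
  obtain ⟨u', hu'X, hb'⟩ := BFR.forth hb (Order.lt_add_one_iff.mpr le_rfl)
    (hYX f k (huY f k))
  have hu'B : u' ∉ B := by
    intro h
    obtain ⟨c, hc⟩ := mem_cl_range.1 h
    have h5 : Eqv S (fun b : Bool => if b then u k else q c) S
        (fun b : Bool => if b then u' else q c) := by
      refine BW.eqv hb' ?_
      intro b
      cases b
      · exact mem_insert_of_mem _ (prs_mem q q c)
      · exact mem_insert _ _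
    exact (huo k).2 (u k) (cr _ (huo k).1) c ((h5.gn false true).2 hc)
  obtain ⟨l, hl⟩ : ∃ l, u' ∈ Y (e f' l) := by
    rcases hu'X with h | h
    · exact absurd h hu'B
    · exact mem_iUnion.1 h
  have hu'D : u' ∈ Dc S A (u l) := hYD f' l hl
  have hoff : Off S A q u' := by
    refine ⟨hDA _ _ hu'D, ?_⟩
    rw [← hDeq _ _ hu'D]
    exact (huo l).2
  have h6 := hFVS G U hC M P S A q hS hE hA hDt (X f) (X f') _ (hXm f) (hXm f') hb'
    (subset_insert _ _) (u k) u' (s (e f k)) (mem_insert _ _) (hYX f k (huY f k))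
    (hYX f' l hl) (huo k) hoff (by rw [s3 f k _ (huY f k)]; exact y4 _)
  rw [s3 f' l u' hl] at h6
  obtain ⟨-, -, -, -, z5⟩ := hFZZ G M S (Dc S A (u (e f' l / 2)))
  have h7 := (z5 _ _ _ _ (y2 (e f' l)) (y2 (e f' l)) Subset.rfl h6 (y4 (e f' l))).1
  have h8 := (z5 _ _ _ _ (y2 (e f' l)) (y2 (e f' l)) Subset.rfl (y4 (e f' l)) h6).1
  obtain ⟨h9, h10⟩ := he _ _ _ _ (hs.injective (le_antisymm h7 h8))
  rw [h10, ← h9]

end UN
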