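import Pool.Agent.UN.StF

/-!
# UN: the parts of the finest independent partition of a set are visible
-/

set_option autoImplicit false
set_option linter.unusedVariables false

namespace UN

open Set Filter Pool.Agent.Helper5.DU Pool.Agent.Helper6.Str Pool.Agent.Helper79.VC
  Pool.Agent.Helper97.LO Pool.Agent.Helper97.VC

theorem thm_VPX (h1 : St_IPA) (h2 : St_CMP) (h3 : St_CMX) : St_VPX := by
  intro G U hC M P S A q hS hE hA hDt X X' π γ hX hX' hγ hb hqπ u u' y y' hu hy hOff hR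
  obtain ⟨-, -, -, -, i5, i6⟩ := h1 G U hC M S A hS hE
  obtain ⟨-, -, -, -, c5, -, c7, -⟩ := h3 G U hC M S A hS hE hA X
  obtain ⟨Z, hZf, hZR, hZA, huZ, hyZ, hsep⟩ := c5 u y hR
  have hZX : Z ⊆ X := fun z hz => by
    obtain ⟨Z', -, h4, -, -, h5, -⟩ := hZR hz
    exact h4 h5
  have hDq : ∀ x ∈ Z, ∀ c, ¬ Gn S (q c) x := fun x hx => hOff.2 x (c7 u x (hZR hx))
  have hne : Nonempty M := ⟨u⟩
  obtain ⟨n, z, -, hz⟩ := hZf.fin_param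
  have hle : (0 : Ordinal.{0}) + n ≤ γ := by
    rw [zero_add]
    exact (Ordinal.natCast_lt_omega0 n).le.trans hγ
  obtain ⟨z', hz'X, hb'⟩ := BFR.forth_many (γ := 0) n (BFR.mono hle hb) z (fun i => by
    apply hZX
    rw [← hz]
    exact ⟨i, rfl⟩)
  have hex : ∀ x ∈ Z, ∃ x' ∈ X', (x, x') ∈ π ∪ range fun i => (z i, z' i) := by
    intro x hx
    rw [← hz] at hx
    obtain ⟨i, rfl⟩ := hx
    exact ⟨z' i, hz'X i, Or.inr ⟨i, rfl⟩⟩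
  choose! ζ hζ1 hζ2 using hex
  have hat := (BFR.atEq hb').1
  have hζu : ζ u = u' := (hat _ (hζ2 u huZ) _ (Or.inl hu)).1 rfl
  have hζy : ζ y = y' := (hat _ (hζ2 y hyZ) _ (Or.inl hy)).1 rfl
  have hT : Eqv S (Sum.elim q fun x : Z => (x : M)) S (Sum.elim q fun x : Z => ζ x) := by
    refine BW.eqv hb' ?_
    rintro (c | x)
    · exact Or.inl (hqπ (prs_mem q q c))
    · exact hζ2 x x.2
  have hZq : ∀ x ∈ Z, ∀ c, ¬ Gn S (q c) (ζ x) := fun x hx c h =>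
    hDq x hx c ((hT.gn (Sum.inl c) (Sum.inr ⟨x, hx⟩)).2 h)
  have hZA' : ∀ x ∈ Z, ζ x ∉ A := fun x hx => by
    rcases hX' (ζ x) (hζ1 x hx) with h | ⟨c, h⟩
    · exact h
    · exact absurd h (hZq x hx c)
  have hty : Eqv S (ov A fun x : Z => (x : M)) S (ov A fun x : Z => ζ x) :=
    hDt.typ Z _ _ (fun x => hZA x.2) (fun x => hZA' x x.2) hT
  refine ⟨ζ '' Z, hZf.image ζ, ?_, ?_, ⟨u, huZ, hζu⟩, ⟨y, hyZ, hζy⟩, ?_⟩
  · rintro _ ⟨x, hx, rfl⟩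
    exact hζ1 x hx
  · rintro _ ⟨x, hx, rfl⟩
    exact hZA' x hx
  · rintro ⟨X₁', hX₁', hip, hns⟩
    apply hsep
    refine ⟨{x | x ∈ Z ∧ ζ x ∈ X₁'}, fun x hx => hx.1, ?_, ?_⟩
    · let f₁ : {x | x ∈ Z ∧ ζ x ∈ X₁'} → X₁' := fun x => ⟨ζ x, x.2.2⟩
      let f₂ : ↥(Z \ {x | x ∈ Z ∧ ζ x ∈ X₁'}) → ↥(ζ '' Z \ X₁') :=
        fun x => ⟨ζ x, ⟨x, x.2.1, rfl⟩, fun h => x.2.2 ⟨x.2.1, h⟩⟩
      have h3 : Ip S A (fun x : {x | x ∈ Z ∧ ζ x ∈ X₁'} => ζ x)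
          (fun x : ↥(Z \ {x | x ∈ Z ∧ ζ x ∈ X₁'}) => ζ x) := i6 _ _ _ _ _ _ f₁ f₂ hip
      refine i5 _ _ _ _ _ _ h3 (hty.symm.words' ?_)
      rintro (m | (x | x))
      · exact ⟨[], Sum.inl m, rfl, rfl⟩
      · exact ⟨[], Sum.inr ⟨x, x.2.1⟩, rfl, rfl⟩
      · exact ⟨[], Sum.inr ⟨x, x.2.1⟩, rfl, rfl⟩
    · intro h
      apply hns
      rw [← hζu, ← hζy]
      exact ⟨fun h3 => (h.1 ⟨huZ, h3⟩).2, fun h3 => (h.2 ⟨hyZ, h3⟩).2⟩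

end UN
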