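import Pool.Agent.UN.RED
import Pool.Agent.UNE.Defs

/-!
# UN, statements F: from the finest independent partition to levels

`A` is a countable closed existentially closed subset of `S`, `D = Dc S A u` are the parts of the finest
independent partition (see `StE.lean`). The function components of a part: classes under the
connection by functions. Here we show: all but finitely many parts which do not meet the closure
of `q` have finitely many function components, finitely many types; so for every finite set `F` of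
relation symbols all but countably many function components are good (`UNE.Gx`) at the level `F`.
Conventions as in `StE.lean`; reducts `S.res F`, `URs U F` in `RED.lean`.
-/

set_option autoImplicit false
set_option linter.unusedVariables false

namespace UN

open Set Filter Pool.Agent.Helper5.DU Pool.Agent.Helper6.Str Pool.Agent.Helper79.VC
  Pool.Agent.Helper97.LO Pool.Agent.Helper97.VC

section

variable {G : Sg} {M N P V ι κ : Type}

/-- `u` and `y` are in the same part of the finest independent partition of `X` outside of `A` -/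
def Rx (S : Sys G M) (A X : Set M) (u y : M) : Prop :=
  ∃ Z : Set M, Z.Finite ∧ Z ⊆ X ∧ Z ⊆ Aᶜ ∧ u ∈ Z ∧ y ∈ Z ∧ ¬ Sep S A Z u y

/-- `x` and `y` are connected by functions inside `X` (`x ∈ X`) -/
def Fc (S : Sys G M) (X : Set M) (x y : M) : Prop :=
  Relation.ReflTransGen (fun a b => b ∈ X ∧ ∃ f, b = S.fn f a ∨ a = S.fn f b) x y

/-- `Y` is a union of function components of `X` -/
def Fcl (S : Sys G M) (X Y : Set M) : Prop :=
  Y ⊆ X ∧ ∀ x ∈ Y, ∀ y ∈ X, (∃ f, y = S.fn f x ∨ x = S.fn f y) → y ∈ Y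

/-- `X` has exactly `m` function components -/
def Fz (S : Sys G M) (X : Set M) (m : ℕ) : Prop :=
  ∃ t : Fin m → M, (∀ i, t i ∈ X) ∧ (∀ i j, i ≠ j → ¬ Fc S X (t i) (t j)) ∧
    ∀ x ∈ X, ∃ i, Fc S X (t i) x

/-- the part of `u` does not meet the closure of `q` -/
def Off (S : Sys G M) (A : Set M) (q : P → M) (u : M) : Prop :=
  u ∉ A ∧ ∀ x ∈ Dc S A u, ∀ c, ¬ Gn S (q c) x

end

/-- [FZZ] (1 h; no other module) Function components.

Proof. (1) The steps of `Fc S X` between elements of `X` are symmetric. (2) Induction on the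
connection. (3) `←`: the connection of `x` and `y` in `X` stays in `Y` (`Fcl`). (4) Choose from
the finite set `T` a subset `T'` with pairwise not connected elements such that every element of `T` is
connected with an element of `T'` (e.g. a maximal subset with pairwise not connected elements, or
induction on `T`), and enumerate it; use (3). (5) If `n < m` (or `n = m` in the second part): map
`i : Fin m` to a `j : Fin n` with `Fc S Y' (t' j) (t i)`. This map is injective (if `i, i'` have the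
same image then `t i`, `t i'` are connected in `Y'`, so in `Y` by (3) for `Y'` and `X`, `Y` and
`X`). So `m ≤ n`. If `y ∈ Y' \ Y` is connected in `Y'` with `t' j₀`, then `j₀` is not in the image
(otherwise `y` would be connected with some `t i ∈ Y`, so in `Y`), so `m < n`. -/
def St_FZZ : Prop := ∀ (G : Sg) (M : Type) (S : Sys G M) (X : Set M),
  (∀ x ∈ X, ∀ y, Fc S X x y → y ∈ X ∧ Fc S X y x) ∧
  (∀ Y, Fcl S X Y → ∀ x ∈ Y, ∀ y, Fc S X x y → y ∈ Y) ∧
  (∀ Y, Fcl S X Y → ∀ x ∈ Y, ∀ y ∈ Y, (Fc S Y x y ↔ Fc S X x y)) ∧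
  (∀ Y, Fcl S X Y → ∀ T : Set M, T.Finite → T ⊆ Y → (∀ y ∈ Y, ∃ x ∈ T, Fc S X x y) →
    ∃ m, Fz S Y m) ∧
  ∀ Y Y' m n, Fcl S X Y → Fcl S X Y' → Y ⊆ Y' → Fz S Y m → Fz S Y' n →
    m ≤ n ∧ (Y ≠ Y' → m < n)

/-- [CMX] (0.7 h; uses `St_IPA`, `St_IPB`, `St_CMP`; the lemmas of `UN/CMP.lean` may be imported)
The finest independent partition of a set.

Proof. (1)-(4) as for `St_CMP` (1), (2): the witness `Z₁ ∪ Z₂` is a subset of `X`. (5) as `St_CMP`
(6): let `Z ⊆ X` be a witness for `u, y`, `Z₁ := {z ∈ Z | Rx S A X u z}`. For `x ∈ Z₁`,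
`y' ∈ Z \ Z₁` the set `Z` does not witness `Rx S A X x y'`, so some `X' ⊆ Z` with
`IpS S A X' (Z \ X')` separates them; by the Boolean algebra of `Z` (see `St_CMP` (3))
`IpS S A Z₁ (Z \ Z₁)`. If `X' ⊆ Z₁`, `IpS S A X' (Z₁ \ X')` separates `u, y`, then (S3)
`IpS S A X' (Z \ X')`, contradiction. So `¬ Sep S A Z₁ u y`. (6), (7) clear. (8) `St_CMP` (6). -/
def St_CMX : Prop := ∀ (G : Sg) (U : ∀ M : Type, Sys G M → Prop), Cmt U → ∀ (M : Type)
  (S : Sys G M) (A : Set M), U M S → EC S A → Cl S A → ∀ X : Set M,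
  (∀ u ∈ X, u ∉ A → Rx S A X u u) ∧ (∀ u y, Rx S A X u y → Rx S A X y u) ∧
  (∀ u y z, Rx S A X u y → Rx S A X y z → Rx S A X u z) ∧
  (∀ f, ∀ u ∈ X, u ∉ A → S.fn f u ∈ X → S.fn f u ∉ A → Rx S A X u (S.fn f u)) ∧
  (∀ u y, Rx S A X u y → Rx S A {z | Rx S A X u z} u y) ∧
  (∀ Y u y, X ⊆ Y → Rx S A X u y → Rx S A Y u y) ∧
  (∀ u y, Rx S A X u y → Rc S A u y) ∧
  ∀ u y, Rc S A u y → ∃ Z : Set M, Z.Finite ∧ Z ⊆ Dc S A u ∧ Rx S A Z u y

/-- [VPX] (0.8 h; uses `St_IPA`, `St_CMP`, `St_CMX`; compare `UN/VPT.lean`) The parts of the finest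
independent partition of a set are visible.

Proof. By `St_CMX` (5), (7) there is a finite `Z ⊆ X ∩ Dc S A u` with `u, y ∈ Z`, `¬ Sep S A Z u y`.
Continue as in the proof of `St_VPT` (from the sentence where the elements of `Z` are played): the elements of `Z` are
not generated by `q` (`Off`). The set `Z'` is a subset of `X'`. -/
def St_VPX : Prop := ∀ (G : Sg) (U : ∀ M : Type, Sys G M → Prop), Cmt U → ∀ (M P : Type)
  (S : Sys G M) (A : Set M) (q : P → M), U M S → EC S A → Cl S A → Dt S A q →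
  ∀ (X X' : Set M) (π : Set (M × M)) (γ : Ordinal.{0}),
  (∀ x ∈ X, x ∉ A ∨ ∃ c, Gn S (q c) x) → (∀ x ∈ X', x ∉ A ∨ ∃ c, Gn S (q c) x) →
  Ordinal.omega0 ≤ γ → BW S S X X' γ π → prs q q ⊆ π →
  ∀ u u' y y', (u, u') ∈ π → (y, y') ∈ π → Off S A q u → Rx S A X u y → Rx S A X' u' y'

/-- [IDC] (1.5 h; uses `St_FZZ`, `St_CMX`) Indecomposable unions of function components.

Proof. Write `D := Dc S A u` (`D ⊆ Aᶜ`, `u ∈ D`; `Rc` is an equivalence by `St_CMP` or `St_CMX` for
`X = univ`, where `Rx S A univ` is `Rc S A`). Induction on `n`. `n = 0`: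
`Y := {y | Fc S D u y}`, `m := 1`: `Rx S A Y u x` for `x ∈ Y` by `St_CMX` (1)-(4) (every step stays in
`Y`). Step: let `Y`, `m ≥ n` be given. `Y ≠ D` (otherwise `Fz S D m`). Let `y ∈ D \ Y`; `Rc S A u y`,
so by `St_CMX` (8) there is a finite `Z ⊆ D` with `Rx S A Z u y`. Let
`X := Y ∪ {x | ∃ z ∈ Z, Fc S D z x}`, `Y' := {x | Rx S A X u x}`. `X ⊆ D` and `Fcl S D X`.
`Y ⊆ Y'` (`St_CMX` (6)), `y ∈ Y'` (`St_CMX` (6): `Z ⊆ X`, as `Fc S D z z`), `Y' ⊆ X` (witnesses are
subsets of `X`), `Fcl S D Y'`: if `x ∈ Y'`, `x' ∈ D` and `x' = S.fn f x` or `x = S.fn f x'`, then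
`x' ∈ X` (`Fcl S D X`) and `Rx S A X x x'` (`St_CMX` (4), (2)). `Rx S A Y' u x` for `x ∈ Y'`:
`St_CMX` (5). Number: let `t` be the transversal of `Y`; every `x ∈ Y'` is connected in `D` with some
`t i` or some `z ∈ Z`; choose for those `z` which are connected with an element of `Y'` such an
element; together with the `t i` this is a finite set `T ⊆ Y'` as in `St_FZZ` (4). So
`Fz S Y' m'`, and `m < m'` by `St_FZZ` (5). -/
def St_IDC : Prop := ∀ (G : Sg) (U : ∀ M : Type, Sys G M → Prop), Cmt U → ∀ (M : Type)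
  (S : Sys G M) (A : Set M), U M S → EC S A → Cl S A → ∀ u ∉ A,
  (¬ ∃ m, Fz S (Dc S A u) m) → ∀ n, ∃ (Y : Set M) (m : ℕ), n ≤ m ∧ u ∈ Y ∧
    Fcl S (Dc S A u) Y ∧ (∀ x ∈ Y, Rx S A Y u x) ∧ Fz S Y m

/-- [FVS] (1.2 h; uses `St_VPX`, `St_CMX`) The number of function components of an indecomposable
set is visible.

Proof. Write `Q := {x | Rx S A X u x}`, `Q' := {x | Rx S A X' u' x}` (subsets of `X`, `X'`). By
`Off S A q u'` and `St_VPX` for the inverse (`BFR.symm`) the relation is visible in both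
directions: if `(x, x') ∈ π'`, `π ⊆ π'`, `BW S S X X' γ π'` with `ω ≤ γ`, then `x ∈ Q ↔ x' ∈ Q'`.
(1) Let `r : ℕ`, `BW S S X X' (ω + r) π'`, `π ⊆ π'`, `(x, x'), (y, y') ∈ π'`, `x ∈ Q`, and let `x`
and `y` be connected by `r` steps in `Q`. Then `x'` and `y'` are connected in `Q'`: induction on `r`
(use `Relation.ReflTransGen` with a count, or prove: for all `y`, if `Fc S Q x y` then there is `r`
such that for all `π'`, ..): play the first inner element `x₁` of the connection: `x₁'`, level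
`ω + (r - 1)`; `x₁' ∈ Q'`, and the equation `x₁ = S.fn f x` or `x = S.fn f x₁` is true for
`x₁', x'` (`BW.eqv`). The same for `Q'`, `Q` (inverse).
(2) Let `t : Fin m → M` be a transversal of `Q`. Play it (`BFR.forth_many`; the level `ω + ω + ω` is
`≥ ω + ω + m`): `t' : Fin m → M`, level `ω + ω`. `t' i ∈ Q'`. If `Fc S Q' (t' i) (t' j)` then
`Fc S Q (t i) (t j)` by (1) (level `ω + ω ≥ ω + r`), so `i = j`. If `x' ∈ Q'`, play it back: `x ∈ X`,
level `≥ ω + r` for any given `r` (`ω + ω > ω + r`: first the answer `x` may depend on `r`; so take the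
level `ω + ω` itself: play `x'` before: use the level `ω + ω + 1` after `t'`, as
`ω + ω + (m + 1) ≤ ω + ω + ω`). `x ∈ Q`, `Fc S Q (t i) x` for some `i`, so `Fc S Q' (t' i) x'`. -/
def St_FVS : Prop := ∀ (G : Sg) (U : ∀ M : Type, Sys G M → Prop), Cmt U → ∀ (M P : Type)
  (S : Sys G M) (A : Set M) (q : P → M), U M S → EC S A → Cl S A → Dt S A q →
  ∀ (X X' : Set M) (π : Set (M × M)),
  (∀ x ∈ X, x ∉ A ∨ ∃ c, Gn S (q c) x) → (∀ x ∈ X', x ∉ A ∨ ∃ c, Gn S (q c) x) →
  BW S S X X' (Ordinal.omega0 + Ordinal.omega0 + Ordinal.omega0) π → prs q q ⊆ π →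
  ∀ u u' m, (u, u') ∈ π → u ∈ X → u' ∈ X' → Off S A q u → Off S A q u' →
  Fz S {x | Rx S A X u x} m → Fz S {x | Rx S A X' u' x} m

/-- [SIZ] (2 h; uses `St_CMP`, `St_CMX`, `St_IDC`, `St_FVS`, `St_FZZ`) All but finitely many parts
outside of the closure of `q` have finitely many function components.

Proof. Suppose there is such a sequence; write `D k := Dc S A (u k)` (pairwise disjoint),
`B := cl S (range q)`.
(1) By `St_IDC` and recursion on `j` there are `Y j ⊆ D (j / 2)` and a strictly increasing `s : ℕ → ℕ`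
with `u (j / 2) ∈ Y j`, `Fcl S (D (j / 2)) (Y j)`, `Rx S A (Y j) (u (j / 2)) x` for `x ∈ Y j`,
`Fz S (Y j) (s j)` (choose `Y (j + 1)` for `n := s j + 1`).
(2) For `f : ℕ → Bool` let `j f k := 2 * k + (if f k then 1 else 0)`, `X f := B ∪ ⋃ k, Y (j f k)`. It
is closed: let `x ∈ Y (j f k)`; if `S.fn g x ∈ A` then `S.fn g x ∈ B` (`Dt.trc`), otherwise
`S.fn g x ∈ D k` by `St_CMP` (4) and (3), and `∈ Y (j f k)` by `Fcl`. Countable, infinite (it contains
the different elements `u k`). Every `x ∈ X f` is in `B` or not in `A`.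
(3) For `x ∈ Y (j f k)`: `{z | Rx S A (X f) x z} = Y (j f k)`: `⊇` by (1), `St_CMX` (6), (2), (3); `⊆`:
`z ∈ X f`, `Rc S A x z` (`St_CMX` (7)), so `z ∈ D k`, `z ∉ B`, so `z ∈ Y (j f k)` (the `D l` are
disjoint).
(4) `Pg U` for `X`, `q`, the level `ω + ω + ω + 1 < om1`: `f ≠ f'` with `BW`. Let `k : ℕ`. Answer
`u k` by `u' ∈ X f'`, level `ω + ω + ω`. `u'` is not generated by `q` (`BW.eqv`, `Off`), so
`u' ∈ Y (j f' l)` for some `l`; `Off S A q u'` (`Dc S A u' = D l`). By `St_FVS` and (3)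
`Fz S (Y (j f' l)) (s (j f k))`, so `s (j f k) = s (j f' l)` (`St_FZZ` (5) with `Y = Y'`, both
directions), `j f k = j f' l`, so `k = l` and `f k = f' k`. So `f = f'`, contradiction. -/
def St_SIZ : Prop := ∀ (G : Sg) (U : ∀ M : Type, Sys G M → Prop), Countable G.Fn → IsU U →
  Cmt U → Pg U → ∀ (M P : Type) (S : Sys G M) (A : Set M) (q : P → M), U M S → EC S A →
  Cl S A → Dt S A q → (∀ u, (Dc S A u).Countable) →
  ¬ ∃ u : ℕ → M, (∀ n, Off S A q (u n)) ∧ (∀ m n, m ≠ n → ¬ Rc S A (u m) (u n)) ∧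
    ∀ n, ¬ ∃ m, Fz S (Dc S A (u n)) m

open UNE in
/-- [LAB] (0.7 h; no other module) The function components outside of a closed set.

Proof. `I` is the quotient of `{x // x ∉ R}` by `Relation.EqvGen` of the relation
`∃ f, y = S.fn f x`; `lab x := none` for `x ∈ R` and `some` (the class of `x`) otherwise. `fn`: if
`x ∈ R` then `S.fn f x ∈ R`. `con`: `Quotient.exact`, and `EqvGen` is `ReflTransGen` of the
symmetric relation (`Relation.EqvGen` induction). -/
def St_LAB : Prop := ∀ (G : Sg) (M : Type) (S : Sys G M) (R : Set M), Cl S R →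
  ∃ (I : Type) (lab : M → Option I), (∀ x, lab x = none ↔ x ∈ R) ∧
    (∀ f x, lab (S.fn f x) = none ∨ lab (S.fn f x) = lab x) ∧ (∀ i, ∃ x, lab x = some i) ∧
    ∀ x y, lab x ≠ none → lab x = lab y → Relation.ReflTransGen (Adj S lab) x y

open UNE in
/-- [CPT] (0.7 h; uses `St_CMP`) Components are contained in `A` or in parts.

Proof. (1) `Adj S lab x y`: `y = S.fn f x` or `x = S.fn f y`, both outside of the closure of `q`. If
`x ∉ A`, then `y ∉ A`: in the first case `y ∈ A` would be generated by `q` (`htr`), so `lab y = none`;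
in the second case `y ∈ A` implies `x ∈ A`. And `Rc S A x y` by `St_CMP` (4), (2). Induction on the
connection. (2) from (1) with `x`, `y` exchanged. -/
def St_CPT : Prop := ∀ (G : Sg) (U : ∀ M : Type, Sys G M → Prop), Cmt U → ∀ (M P I : Type)
  (S : Sys G M) (A : Set M) (q : P → M) (lab : M → Option I), U M S → EC S A → Cl S A →
  (∀ x ∉ A, ∀ y ∈ A, Gn S x y → ∃ c, Gn S (q c) y) →
  (∀ x, lab x = none ↔ x ∈ cl S (range q)) →
  (∀ x y, lab x ≠ none → lab x = lab y → Relation.ReflTransGen (Adj S lab) x y) →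
  (∀ x y, x ∉ A → lab x ≠ none → lab x = lab y → y ∉ A ∧ Rc S A x y) ∧
  ∀ x y, x ∈ A → lab x ≠ none → lab x = lab y → y ∈ A

open UNE in
/-- [EXC] (1.5 h; uses `St_SWP`, `St_CPT`) Isomorphic parts can be exchanged.

Proof. Let `D := Dc (S.res F) A u`, `D' := Dc (S.res F) A u'`, `τ` from `QI`. `D, D' ⊆ Aᶜ`. By
`Dt.typ` the families `D` and `τ` have the same type over `A` (in `S.res F`), so `St_SWP` for the
class `URs U F` gives `σ`. `σ ∘ σ = id`: on `D` and on `D' = τ '' D` by the last clause, elsewhere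
`σ` is the identity. `σ` commutes with the functions and preserves the relations in `F`
(`Eqv (S.res F) id (S.res F) σ`: atoms `S.fn f x = y` and `.rel R (fun k => ([], v k))`). It fixes the
elements of the closure of `q₀` (they are in the closure of `q`, so not in `D`, and not in `D'`). So
`lab x = none ↔ lab (σ x) = none`, `σ` preserves `Adj S lab`, and by `Cp.con` `lab x = lab y` implies
`lab (σ x) = lab (σ y)`. `a.2 := σ`, `a.1` the permutation of the involution which maps `i` to the label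
of `σ x`, `x` with `lab x = some i` (`Cp.ne`). `Ex.dis`: if `lab x = lab y`, `x ∈ D`, `y ∈ D'`, then
`y ∈ D` by `St_CPT` (for `S.res F`, `q₀`), so `u` and `u'` are in the same part. `Ex.img`: `σ` maps
`D` onto `D'`. -/
def St_EXC : Prop := ∀ (G : Sg) (U : ∀ M : Type, Sys G M → Prop) (F : Set G.Rl),
  Cmt (URs U F) → ∀ (M P₀ P I : Type) (S : Sys G M) (A : Set M) (q₀ : P₀ → M) (q : P → M)
  (lab : M → Option I), U M S → EC S A → Cl S A →
  (∀ x ∉ A, ∀ y ∈ A, Gn S x y → ∃ c, Gn S (q₀ c) y) →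
  (∀ x, lab x = none ↔ x ∈ cl S (range q₀)) → Cp S lab → Dt (S.res F) A q →
  cl S (range q₀) ⊆ cl S (range q) →
  ∀ u u', Off (S.res F) A q u → Off (S.res F) A q u' → ¬ Rc (S.res F) A u u' →
  QI (S.res F) A q u u' →
  ∃ a, Sw S lab F univ {i | ∃ x ∈ Dc (S.res F) A u, lab x = some i}
    {i | ∃ x ∈ Dc (S.res F) A u', lab x = some i} a

open UNE in
/-- [GDP] (1.2 h; uses `St_EXC`, `St_CPT`, `St_CMP`) Parts with finitely many function components which
have infinitely many isomorphic copies are good.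

Proof. Let `W u := {i | ∃ x ∈ Dc (S.res F) A u, lab x = some i}`. It is not empty (`u` is in its part,
`lab u ≠ none` because `u` is not generated by `q`), and finite: if `t : Fin m → M` is as in `Fz`, then
every `x` in the part is connected by functions inside of the part with some `t i`, so
`lab x = lab (t i)` (`Cp.fn`: neighbours which both have a label have the same label). Let `Z` be a
finite set of labels. For every `i ∈ Z` there is at most one `n` such that `i ∈ W (u n)` (if `lab x =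
lab y = some i`, `x` in the part of `u m`, `y` in the part of `u n`, then `Rc u m, u n` by `St_CPT` for
`S.res F`); and there is at most one `n` with `Rc u, u n`. Choose another `n`, and `St_EXC`. -/
def St_GDP : Prop := ∀ (G : Sg) (U : ∀ M : Type, Sys G M → Prop) (F : Set G.Rl),
  Cmt (URs U F) → ∀ (M P₀ P I : Type) (S : Sys G M) (A : Set M) (q₀ : P₀ → M) (q : P → M)
  (lab : M → Option I), U M S → EC S A → Cl S A →
  (∀ x ∉ A, ∀ y ∈ A, Gn S x y → ∃ c, Gn S (q₀ c) y) →
  (∀ x, lab x = none ↔ x ∈ cl S (range q₀)) → Cp S lab → Dt (S.res F) A q →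
  cl S (range q₀) ⊆ cl S (range q) →
  ∀ (u : M) (u' : ℕ → M) (m : ℕ), Off (S.res F) A q u → Fz (S.res F) (Dc (S.res F) A u) m →
  (∀ n, Off (S.res F) A q (u' n)) → (∀ n, QI (S.res F) A q u (u' n)) →
  (∀ m n, m ≠ n → ¬ Rc (S.res F) A (u' m) (u' n)) →
  Gs S lab F univ {i | ∃ x ∈ Dc (S.res F) A u, lab x = some i}

/-- [CLR] (0.6 h; no other module) Representatives of classes of classes.

Proof. `r` has finitely many classes on `Q` (otherwise choose representatives). Let `Q'` be the union of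
the finite set of representatives (one for every class of `r`) and of the set of the `x` such that
`{y | r x y}` is finite or `¬ p x`: the first is a finite union of finite sets, the second is finite
because of the third hypothesis (an infinite set contains a sequence of different elements). For
`x ∉ Q'`: `{y | r x y}` is infinite: choose a sequence of different elements in it. -/
def St_CLR : Prop := ∀ (Q : Type) (r : Q → Q → Prop) (p : Q → Prop), Equivalence r →
  (¬ ∃ x : ℕ → Q, ∀ m n, m ≠ n → ¬ r (x m) (x n)) →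
  (¬ ∃ x : ℕ → Q, (∀ m n, m ≠ n → x m ≠ x n) ∧ ∀ n, ¬ p (x n)) →
  ∃ Q' : Set Q, Q'.Finite ∧ ∀ x ∉ Q', p x ∧ (∃ y ∈ Q', r x y) ∧
    ∃ y : ℕ → Q, (∀ n, r x (y n)) ∧ ∀ m n, m ≠ n → y m ≠ y n

open UNE in
/-- [LVF] (2 h; uses `St_DTT`, `St_CMP`, `St_CMC`, `St_FST`, `St_SIZ`, `St_CPT`, `St_EXC`, `St_GDP`,
`St_CLR`) The level of a finite set `F` of relation symbols.

Proof. Write `S_F := S.res F`; the class `URs U F` has `IsU`, `Pg` (`URs_IsU`, `URs_Pg`), by hypothesis
`Cmt`, `Wre`; `EC S_F A` (`res_EC`), `Gn`, `Cl`, `trc`, `cl` are the same for `S_F`. `St_DTT` (with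
`res_fin`) gives `q₁ : P₁ → M` with `Dt S_F A q₁`; let `q := Sum.elim q₁ q₀`: `Dt S_F A q` (`Eqv.comp`
for `typ`), and the closure of `q₀` is contained in that of `q`. The parts `Dc S_F A u` are countable
(`St_CMC`); `Rc S_F A` is an equivalence on `Aᶜ`, `u ∈ Dc S_F A u` (`St_CMP`).
Let `Q := {D : Set M // ∃ u, Off S_F A q u ∧ D = Dc S_F A u}`, `r D D' := ∃ τ, BijOn τ D D' ∧
Eqv S_F (Sum.elim q fun y : D => y) S_F (Sum.elim q fun y : D => τ y)` (for the parts of `u`, `u'`
this is `QI S_F A q u u'`; an equivalence relation), `p D := ∃ m, Fz S_F D m`. `St_FST` and `St_SIZ`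
give the hypotheses of `St_CLR`: `Q'` finite.
Let `T := A ∪ ⋃ {D part, D ∩ cl S (range q) ≠ ∅} ∪ ⋃ D ∈ Q', D`: a countable set (every element of
the countable set `cl S (range q)` outside of `A` is in one part). `J := {i | ∃ x ∈ T, lab x = some i}` is
countable (image of `T`). Let `i ∉ J`, `lab x = some i` (`Cp.ne`). Then `x ∉ A`,
`D := Dc S_F A x ∈ Q \ Q'`. By `St_CLR` `p D`, infinitely many different parts `D n` with
`r D (D n)`, so the set `{j | ∃ y ∈ D, lab y = some j}`, which contains `i`, is good (`St_GDP`): so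
`Gx S lab F univ i`. And there is `D' ∈ Q'` with `r D D'`, `D' ≠ D`, so `St_EXC` gives an exchange `a`
of the labels of `D` and `D'`; `j := a.1 i` is a label of an element of `D' ⊆ T`, so `j ∈ J`, and
`a` is in `Ph S lab F univ` (`Sp lab a` is contained in the union of the two sets of labels by `Ex.out`,
which are finite: the first is good, the second is its image), `a.1 j = i` (`a * a = 1`). For `i ∈ J`
take `j := i` and `a := 1`. -/
def St_LVF : Prop := ∀ (G : Sg) (U : ∀ M : Type, Sys G M → Prop), Countable G.Fn →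
  Countable G.Rl → IsU U → Pg U → ∀ F : Set G.Rl, F.Finite → Cmt (URs U F) →
  Wre (URs U F) → ∀ (M P₀ I : Type) (S : Sys G M) (A : Set M) (q₀ : P₀ → M)
  (lab : M → Option I), Finite P₀ → U M S → EC S A → Cl S A → A.Countable →
  (∀ x ∉ A, ∀ y ∈ A, Gn S x y → ∃ c, Gn S (q₀ c) y) →
  (∀ x, lab x = none ↔ x ∈ cl S (range q₀)) → Cp S lab →
  ∃ J : Set I, J.Countable ∧ (∀ i ∉ J, Gx S lab F univ i) ∧
    ∀ i, ∃ j ∈ J, Cj S lab F univ j i

open UNE in
/-- [LVE] (1 h; uses `St_COM`, `St_WLU`, `St_LSK`, `St_ROT`, `St_CMP`, `St_CMC`, `St_LAB`, `St_CPT`,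
`St_LVF`) Levels.

Proof. `Cmt U`, `Wre U`, and `Cmt`, `Wre` of the classes `URs U F` by `Cmt_of`, `Wre_of`, `Cmt_res`,
`Wre_res` (`RED.lean`). `A` from `St_LSK` for `C := ∅`. `St_ROT`: the set of the traces `trc S A x`,
`x ∉ A`, is finite; choose finitely many `x ∉ A` with all traces: `q₀ : P₀ → M`; if `y ∈ A`, `x ∉ A`,
`Gn S x y`, then `y ∈ trc S A x = trc S A (q₀ c)`. `St_LAB` for `R := cl S (range q₀)`. `Cp.ctb`: let
`lab x = some i`. If `x ∈ A`, then `{y | lab y = some i} ⊆ A` by `St_CPT` (2) (for `U`, `S`);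
otherwise it is a subset of `Dc S A x` by `St_CPT` (1), countable by `St_CMC`. `St_LVF` for every finite
`F`. -/
def St_LVE : Prop := ∀ (G : Sg) (U : ∀ M : Type, Sys G M → Prop), Countable G.Fn →
  Countable G.Rl → IsU U → Pg U → ∀ (M : Type) (S : Sys G M), U M S →
  ∃ (P I : Type) (q : P → M) (lab : M → Option I), Finite P ∧
    (∀ x, lab x = none ↔ x ∈ cl S (range q)) ∧ Cp S lab ∧
    ∀ F : Set G.Rl, F.Finite → ∃ J : Set I, J.Countable ∧ (∀ i ∉ J, Gx S lab F univ i) ∧
      ∀ i, ∃ j ∈ J, Cj S lab F univ j i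

end UN
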