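import Pool.Agent.UN.StF

/-!
# UN, LVE: levels

`St_LVE` from `St_COM`, `St_WLU`, `St_LSK`, `St_ROT`, `St_CMP`, `St_CMC`, `St_LAB`, `St_CPT`,
`St_LVF`.
-/

set_option autoImplicit false
set_option linter.unusedVariables false

namespace UN

open Set

/-- finitely many elements outside of `A` have all traces -/
private theorem LVE_traces {G : Sg} {M : Type} (S : Sys G M) (A : Set M)
    (h : {T : Set M | ∃ x ∉ A, T = trc S A x}.Finite) :
    ∃ (P : Type) (q : P → M), Finite P ∧ ∀ x ∉ A, ∀ y ∈ A, Gn S x y → ∃ c, Gn S (q c) y := by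
  have hf : Finite {T : Set M | ∃ x ∉ A, T = trc S A x} := h
  refine ⟨{T : Set M | ∃ x ∉ A, T = trc S A x}, fun T => T.2.choose, hf, ?_⟩
  intro x hx y hy hxy
  refine ⟨⟨trc S A x, x, hx, rfl⟩, ?_⟩
  have h1 : trc S A x = trc S A (Exists.choose (⟨x, hx, rfl⟩ :
      ∃ x' ∉ A, trc S A x = trc S A x')) :=
    (Exists.choose_spec (⟨x, hx, rfl⟩ : ∃ x' ∉ A, trc S A x = trc S A x')).2
  have h2 : y ∈ trc S A x := ⟨hy, hxy⟩
  rw [h1] at h2
  exact h2.2

theorem thm_LVE (hCOM : St_COM) (hWLU : St_WLU) (hLSK : St_LSK) (hROT : St_ROT)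
    (hCMP : St_CMP) (hCMC : St_CMC) (hLAB : St_LAB) (hCPT : St_CPT) (hLVF : St_LVF) :
    St_LVE := by
  intro G U hFn hRl hU hP M S hS
  have hne : Nonempty M := hU.ne M S hS
  have hC : Cmt U := Cmt_of hCOM hU hP
  have hW : Wre U := Wre_of hCOM hWLU hU hP
  obtain ⟨A, -, hAc, hAcl, hEC⟩ := hLSK G M S ∅ hFn hRl hne countable_empty
  obtain ⟨P, q, hPf, hq⟩ := LVE_traces S A (hROT G U hFn hU hC hP M S A hS hEC hAcl)
  obtain ⟨I, lab, hl0, hlf, hli, hlc⟩ := hLAB G M S (cl S (range q)) (cl_closed _)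
  obtain ⟨hc1, hc2⟩ := hCPT G U hC M P I S A q lab hS hEC hAcl hq hl0 hlc
  have hCp : UNE.Cp S lab := by
    refine ⟨hlf, hli, fun i => ?_, hlc⟩
    obtain ⟨x, hx⟩ := hli i
    have hxn : lab x ≠ none := by rw [hx]; exact Option.some_ne_none i
    by_cases hxA : x ∈ A
    · refine hAc.mono fun y hy => ?_
      have hy' : lab y = some i := hy
      exact hc2 x y hxA hxn (hx.trans hy'.symm)
    · refine (hCMC G U hFn hRl hU hC hW M S A hS hEC hAc x).mono fun y hy => ?_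
      have hy' : lab y = some i := hy
      exact (hc1 x y hxA hxn (hx.trans hy'.symm)).2
  refine ⟨P, I, q, lab, hPf, hl0, hCp, fun F hF => ?_⟩
  exact hLVF G U hFn hRl hU hP F hF (Cmt_res hCOM hU hP F) (Wre_res hCOM hWLU hU hP F) M P I S A
    q lab hPf hS hEC hAcl hAc hq hl0 hCp

end UN
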