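import Pool.Agent.UN.ALL
import Pool.Agent.UN.CLR
import Pool.Agent.UN.CMX
import Pool.Agent.UN.CPT
import Pool.Agent.UN.EXC
import Pool.Agent.UN.FVS
import Pool.Agent.UN.FZZ
import Pool.Agent.UN.GDP
import Pool.Agent.UN.IDC
import Pool.Agent.UN.LAB
import Pool.Agent.UN.LVE
import Pool.Agent.UN.LVF
import Pool.Agent.UN.SIZ
import Pool.Agent.UN.VPX

/-!
# UN: assembly of the levels
-/

set_option autoImplicit false
set_option linter.unusedVariables false

namespace UN

theorem all_CMX : St_CMX := thm_CMX all_IPA (thm_IPB all_IPA) all_CMP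

theorem all_SIZ : St_SIZ :=
  thm_SIZ all_CMP all_CMX (thm_IDC thm_FZZ all_CMX)
    (thm_FVS (thm_VPX all_IPA all_CMP all_CMX) all_CMX) thm_FZZ

theorem all_CPT : St_CPT := thm_CPT all_CMP

theorem all_EXC : St_EXC := thm_EXC all_SWP all_CPT all_CMP

theorem all_LVF : St_LVF :=
  thm_LVF all_DTT all_CMP all_CMC all_FST all_SIZ all_CPT all_EXC
    (thm_GDP all_EXC all_CPT all_CMP) thm_CLR

theorem all_LVE : St_LVE :=
  thm_LVE all_COM all_WLU thm_LSK all_ROT all_CMP all_CMC thm_LAB all_CPT all_LVF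

end UN
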