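import Pool.Agent.UN.StA

/-!
# UN.CHR: the relational structures of the members of a universal class
-/

set_option autoImplicit false
set_option linter.unusedVariables false

namespace UN

open Set Filter Pool.Agent.Helper5.DU Pool.Agent.Helper6.Str Pool.Agent.Helper79.VC
  Pool.Agent.Helper97.LO Pool.Agent.Helper97.VC

variable {G : Sg} {M : Type}

/-- the atom `l x = y` -/
private def ea (l : List G.Fn) : At G (Fin 2) := At.eq (l, 0) ([], 1)

/-- the pattern hypothesis -/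
private def Pat (U : ∀ M : Type, Sys G M → Prop) (A : (LW G).Structure M) : Prop :=
  ∀ (n : ℕ) (v : Fin n → M) (D : Set ((m : ℕ) × At G (Fin m) × (Fin m → Fin n))), D.Finite →
      ∃ (N : Type) (S' : Sys G N), U N S' ∧ ∃ v' : Fin n → N,
        (∀ i j, v i = v j ↔ v' i = v' j) ∧
        ∀ a ∈ D, (A.RelMap (a.2.1 : At G (Fin a.1)) (v ∘ a.2.2) ↔ Tr S' (v' ∘ a.2.2) a.2.1)

private theorem ea_iff {U : ∀ M : Type, Sys G M → Prop} {A : (LW G).Structure M}
    (hP : Pat U A) (fn : G.Fn → M → M)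
    (hf : ∀ f x, A.RelMap (ea [f]) ![x, fn f x])
    (S : Sys G M) (hS : S.fn = fn) :
    ∀ (l : List G.Fn) (x y : M), A.RelMap (ea l) ![x, y] ↔ S.w l x = y := by
  intro l
  induction l with
  | nil =>
    intro x y
    obtain ⟨N, S', -, v', he, hD⟩ := hP 2 ![x, y] {⟨2, ea [], id⟩} (Set.finite_singleton _)
    have h1 := hD ⟨2, ea [], id⟩ rfl
    have h2 := he 0 1
    have h3 : (![x, y] ∘ (id : Fin 2 → Fin 2)) = ![x, y] := rfl
    rw [h3] at h1
    rw [h1, w_nil]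
    exact h2.symm
  | cons f l ih =>
    intro x y
    let z := S.w l x
    let t := S.fn f z
    let v : Fin 4 → M := ![x, z, t, y]
    let a1 : (m : ℕ) × At G (Fin m) × (Fin m → Fin 4) := ⟨2, ea l, ![0, 1]⟩
    let a2 : (m : ℕ) × At G (Fin m) × (Fin m → Fin 4) := ⟨2, ea [f], ![1, 2]⟩
    let a3 : (m : ℕ) × At G (Fin m) × (Fin m → Fin 4) := ⟨2, ea (f :: l), ![0, 3]⟩
    obtain ⟨N, S', -, v', he, hD⟩ := hP 4 v {a1, a2, a3} (by simp)
    have e1 : v ∘ ![0, 1] = ![x, z] := by funext i; fin_cases i <;> rfl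
    have e2 : v ∘ ![1, 2] = ![z, t] := by funext i; fin_cases i <;> rfl
    have e3 : v ∘ ![0, 3] = ![x, y] := by funext i; fin_cases i <;> rfl
    have h1 : A.RelMap (ea l) (v ∘ ![0, 1]) ↔ Tr S' (v' ∘ ![0, 1]) (ea l) :=
      hD a1 (by simp)
    have h2 : A.RelMap (ea [f]) (v ∘ ![1, 2]) ↔ Tr S' (v' ∘ ![1, 2]) (ea [f]) :=
      hD a2 (by simp)
    have h3 : A.RelMap (ea (f :: l)) (v ∘ ![0, 3]) ↔ Tr S' (v' ∘ ![0, 3]) (ea (f :: l)) :=
      hD a3 (by simp)
    rw [e1] at h1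
    rw [e2] at h2
    rw [e3] at h3
    have k1 : S'.w l (v' 0) = v' 1 := h1.1 ((ih x z).2 rfl)
    have k2 : S'.w [f] (v' 1) = v' 2 := h2.1 (by
      have := hf f z
      rw [← hS] at this
      exact this)
    rw [h3]
    have k3 : S'.w (f :: l) (v' 0) = v' 2 := by
      rw [w_cons, k1, ← k2]; rfl
    have k4 : t = y ↔ v' 2 = v' 3 := he 2 3
    have k5 : S.w (f :: l) x = t := rfl
    rw [k5, k4]
    change S'.w (f :: l) (v' 0) = v' 3 ↔ _
    rw [k3]

private theorem append_comp {n m : ℕ} (v : Fin n → M) (u : Fin m → M) :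
    (Fin.append v u) ∘ (Fin.castAdd m) = v := by
  funext i; simp

private theorem append_comp' {n m : ℕ} (v : Fin n → M) (u : Fin m → M) :
    (Fin.append v u) ∘ (Fin.natAdd n) = u := by
  funext i; simp

private theorem append_pair {n m : ℕ} (v : Fin n → M) (u : Fin m → M) (i : Fin n) (k : Fin m) :
    (Fin.append v u) ∘ ![Fin.castAdd m i, Fin.natAdd n k] = ![v i, u k] := by
  funext j
  fin_cases j
  · simp
  · simp

private theorem pair_mem {ι : Type} (v : ι → M) (i j : ι) : v ∘ ![i, j] = ![v i, v j] := by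
  funext k
  fin_cases k <;> rfl

private theorem relMap_iff {U : ∀ M : Type, Sys G M → Prop} {A : (LW G).Structure M}
    (hP : Pat U A) (fn : G.Fn → M → M)
    (hf : ∀ f x, A.RelMap (ea [f]) ![x, fn f x])
    (S : Sys G M) (hS : S.fn = fn)
    (hR : ∀ (R : G.Rl) (u : Fin (G.ar R) → M),
      S.rel R u ↔ A.RelMap (At.rel R (fun k => ([], k)) : At G (Fin (G.ar R))) u)
    {n : ℕ} (a : At G (Fin n)) (v : Fin n → M) :
    A.RelMap (a : (LW G).Relations n) v ↔ Tr S v a := by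
  have hE := ea_iff hP fn hf S hS
  cases a with
  | rel R t =>
    let u : Fin (G.ar R) → M := fun k => S.w (t k).1 (v (t k).2)
    let w := Fin.append v u
    let b0 : (m : ℕ) × At G (Fin m) × (Fin m → Fin (n + G.ar R)) :=
      ⟨n, At.rel R t, Fin.castAdd _⟩
    let b1 : (m : ℕ) × At G (Fin m) × (Fin m → Fin (n + G.ar R)) :=
      ⟨G.ar R, At.rel R (fun k => ([], k)), Fin.natAdd _⟩
    let b2 : Fin (G.ar R) → (m : ℕ) × At G (Fin m) × (Fin m → Fin (n + G.ar R)) := fun k =>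
      ⟨2, ea (t k).1, ![Fin.castAdd _ (t k).2, Fin.natAdd _ k]⟩
    obtain ⟨N, S', -, v', he, hD⟩ := hP (n + G.ar R) w (insert b0 (insert b1 (range b2)))
      (((Set.finite_range b2).insert b1).insert b0)
    have h0 : A.RelMap (At.rel R t : At G (Fin n)) (w ∘ Fin.castAdd _) ↔
        Tr S' (v' ∘ Fin.castAdd _) (At.rel R t) := hD b0 (mem_insert _ _)
    have h1 : A.RelMap (At.rel R (fun k => ([], k)) : At G (Fin (G.ar R))) (w ∘ Fin.natAdd _) ↔
        Tr S' (v' ∘ Fin.natAdd _) (At.rel R (fun k => ([], k))) :=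
      hD b1 (mem_insert_of_mem _ (mem_insert _ _))
    have h2 : ∀ k, A.RelMap (ea (t k).1) (w ∘ ![Fin.castAdd _ (t k).2, Fin.natAdd _ k]) ↔
        Tr S' (v' ∘ ![Fin.castAdd _ (t k).2, Fin.natAdd _ k]) (ea (t k).1) := fun k =>
      hD (b2 k) (mem_insert_of_mem _ (mem_insert_of_mem _ ⟨k, rfl⟩))
    rw [append_comp] at h0
    rw [append_comp'] at h1
    have h3 : ∀ k, S'.w (t k).1 (v' (Fin.castAdd _ (t k).2)) = v' (Fin.natAdd _ k) := by
      intro k
      have h4 := h2 k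
      rw [append_pair, hE, pair_mem] at h4
      exact h4.1 rfl
    rw [h0]
    change S'.rel R (fun k => S'.w (t k).1 ((v' ∘ Fin.castAdd _) (t k).2)) ↔
      S.rel R (fun k => S.w (t k).1 (v (t k).2))
    rw [hR, h1]
    change _ ↔ S'.rel R (fun k => (v' ∘ Fin.natAdd _) k)
    have h5 : (fun k => S'.w (t k).1 ((v' ∘ Fin.castAdd _) (t k).2)) =
        fun k => (v' ∘ Fin.natAdd _) k := by
      funext k
      exact h3 k
    rw [h5]
  | eq s t =>
    let u : Fin 2 → M := ![S.w s.1 (v s.2), S.w t.1 (v t.2)]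
    let w := Fin.append v u
    let b0 : (m : ℕ) × At G (Fin m) × (Fin m → Fin (n + 2)) :=
      ⟨n, At.eq s t, Fin.castAdd _⟩
    let b1 : (m : ℕ) × At G (Fin m) × (Fin m → Fin (n + 2)) :=
      ⟨2, ea s.1, ![Fin.castAdd _ s.2, Fin.natAdd _ 0]⟩
    let b2 : (m : ℕ) × At G (Fin m) × (Fin m → Fin (n + 2)) :=
      ⟨2, ea t.1, ![Fin.castAdd _ t.2, Fin.natAdd _ 1]⟩
    obtain ⟨N, S', -, v', he, hD⟩ := hP (n + 2) w {b0, b1, b2} (by simp)
    have h0 : A.RelMap (At.eq s t : At G (Fin n)) (w ∘ Fin.castAdd _) ↔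
        Tr S' (v' ∘ Fin.castAdd _) (At.eq s t) := hD b0 (by simp)
    have h1 : A.RelMap (ea s.1) (w ∘ ![Fin.castAdd _ s.2, Fin.natAdd _ 0]) ↔
        Tr S' (v' ∘ ![Fin.castAdd _ s.2, Fin.natAdd _ 0]) (ea s.1) := hD b1 (by simp)
    have h2 : A.RelMap (ea t.1) (w ∘ ![Fin.castAdd _ t.2, Fin.natAdd _ 1]) ↔
        Tr S' (v' ∘ ![Fin.castAdd _ t.2, Fin.natAdd _ 1]) (ea t.1) := hD b2 (by simp)
    rw [append_comp] at h0
    rw [append_pair, hE, pair_mem] at h1
    rw [append_pair, hE, pair_mem] at h2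
    have k1 : S'.w s.1 (v' (Fin.castAdd _ s.2)) = v' (Fin.natAdd _ 0) := h1.1 rfl
    have k2 : S'.w t.1 (v' (Fin.castAdd _ t.2)) = v' (Fin.natAdd _ 1) := h2.1 rfl
    rw [h0]
    change S'.w s.1 (v' (Fin.castAdd _ s.2)) = S'.w t.1 (v' (Fin.castAdd _ t.2)) ↔
      S.w s.1 (v s.2) = S.w t.1 (v t.2)
    rw [k1, k2]
    have h6 := he (Fin.natAdd n 0) (Fin.natAdd n 1)
    have h7 : w (Fin.natAdd n 0) = S.w s.1 (v s.2) := by
      change Fin.append v u (Fin.natAdd n 0) = _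
      rw [Fin.append_right]; rfl
    have h8 : w (Fin.natAdd n 1) = S.w t.1 (v t.2) := by
      change Fin.append v u (Fin.natAdd n 1) = _
      rw [Fin.append_right]; rfl
    rw [h7, h8] at h6
    exact h6.symm

theorem thm_CHR : St_CHR := by
  intro G U hU M A hM
  constructor
  · rintro ⟨hf, hP⟩
    choose fn hfn using hf
    let S : Sys G M := ⟨fn, fun R u =>
      A.RelMap (At.rel R (fun k => ([], k)) : At G (Fin (G.ar R))) u⟩
    have key : ∀ {n : ℕ} (a : At G (Fin n)) (v : Fin n → M),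
        A.RelMap (a : (LW G).Relations n) v ↔ Tr S v a := fun a v =>
      relMap_iff (U := U) hP fn hfn S rfl (fun R u => Iff.rfl) a v
    refine ⟨S, ?_, ?_⟩
    · refine hU.loc M S hM fun n v D hD => ?_
      obtain ⟨N, S', hS', v', he, h⟩ := hP n v ((fun a => ⟨n, a, id⟩) '' D) (hD.image _)
      refine ⟨N, S', hS', v', fun a ha => ?_⟩
      have h1 := h ⟨n, a, id⟩ ⟨a, ha, rfl⟩
      rw [← key a v]
      exact h1
    · refine FirstOrder.Language.Structure.ext ?_ ?_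
      · funext n f
        exact isEmptyElim f
      · funext n a v
        exact propext (key a v)
  · rintro ⟨S, hS, rfl⟩
    refine ⟨fun f x => ⟨S.fn f x, rfl⟩, fun n v D hD => ⟨M, S, hS, v, fun i j => Iff.rfl,
      fun a ha => Iff.rfl⟩⟩

end UN
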