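import Pool.Agent.HER.St

/-!
# UN: universal theories with unary functions, definitions

A signature `G` has unary function symbols and relation symbols; a system `S : Sys G M` is a
structure with universe `M`. Words are lists of function symbols; an atom is an equality of two
words applied to variables, or a relation symbol applied to words of variables. `Eqv S v S' v'`: the
families `v` and `v'` have the same quantifier-free type.
-/

set_option autoImplicit false
set_option linter.unusedVariables false

namespace UN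

open Set Filter Pool.Agent.Helper5.DU Pool.Agent.Helper6.Str Pool.Agent.Helper79.VC
  Pool.Agent.Helper97.LO Pool.Agent.Helper97.VC

/-- signatures: unary function symbols `Fn`, relation symbols `Rl` with arities `ar` -/
structure Sg where
  Fn : Type
  Rl : Type
  ar : Rl → ℕ

/-- systems: the structures for the signature `G` -/
@[ext] structure Sys (G : Sg) (M : Type) where
  fn : G.Fn → M → M
  rel : (R : G.Rl) → (Fin (G.ar R) → M) → Prop

variable {G : Sg} {M N P ι κ V : Type}

/-- the value of a word -/
def Sys.w (S : Sys G M) : List G.Fn → M → M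
  | [], x => x
  | f :: l, x => S.fn f (S.w l x)

/-- atoms with variables in `ι`; every argument is a word applied to a variable -/
inductive At (G : Sg) (ι : Type) : Type
  | eq (s t : List G.Fn × ι) : At G ι
  | rel (R : G.Rl) (t : Fin (G.ar R) → List G.Fn × ι) : At G ι

/-- truth of an atom -/
def Tr (S : Sys G M) (v : ι → M) : At G ι → Prop
  | .eq s t => S.w s.1 (v s.2) = S.w t.1 (v t.2)
  | .rel R t => S.rel R fun k => S.w (t k).1 (v (t k).2)

/-- `v` and `v'` have the same quantifier-free type -/
def Eqv (S : Sys G M) (v : ι → M) (S' : Sys G N) (v' : ι → N) : Prop :=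
  ∀ a : At G ι, Tr S v a ↔ Tr S' v' a

/-- substitution of words for the variables -/
def At.sub (s : ι → List G.Fn × κ) : At G ι → At G κ
  | .eq u t => .eq (u.1 ++ (s u.2).1, (s u.2).2) (t.1 ++ (s t.2).1, (s t.2).2)
  | .rel R t => .rel R fun k => ((t k).1 ++ (s (t k).2).1, (s (t k).2).2)

/-- renaming of variables -/
def At.map (h : ι → κ) (a : At G ι) : At G κ := a.sub fun i => ([], h i)

/-- the variables of an atom -/
def At.vs : At G ι → Set ι
  | .eq s t => {s.2, t.2}
  | .rel R t => range fun k => (t k).2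

/-- `y` is generated by `x` -/
def Gn (S : Sys G M) (x y : M) : Prop := ∃ l : List G.Fn, y = S.w l x

/-- `x` and `y` generate each other -/
def Mg (S : Sys G M) (x y : M) : Prop := Gn S x y ∧ Gn S y x

/-- closed sets -/
def Cl (S : Sys G M) (X : Set M) : Prop := ∀ f, ∀ x ∈ X, S.fn f x ∈ X

/-- the closed set generated by `X` -/
def cl (S : Sys G M) (X : Set M) : Set M := {y | ∃ x ∈ X, Gn S x y}

/-- the relational language whose symbols are the atoms -/
def LW (G : Sg) : FirstOrder.Language.{0, 0} := ⟨fun _ => Empty, fun n => At G (Fin n)⟩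

instance (G : Sg) (n : ℕ) : IsEmpty ((LW G).Functions n) := inferInstanceAs (IsEmpty Empty)

set_option warn.classDefReducibility false in
/-- the relational structure of a system -/
def WS (S : Sys G M) : (LW G).Structure M where
  funMap := fun {n} f => (isEmptyElim f : (Fin n → M) → M)
  RelMap := fun {n} (a : At G (Fin n)) (v : Fin n → M) => Tr S v a

/-- back-and-forth equivalence of systems; the atomic types are compared with words -/
abbrev BW (S : Sys G M) (S' : Sys G N) (X : Set M) (X' : Set N) (γ : Ordinal.{0})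
    (p : Set (M × N)) : Prop := BFR (WS S) (WS S') X X' γ p

/-- the pairs of corresponding elements of two families -/
def prs (v : ι → M) (v' : ι → N) : Set (M × N) := range fun i => (v i, v' i)

/-- Universal classes of nonempty systems: a system on a nonempty set is in the class if all its
finite patterns of atoms occur in members of the class. -/
structure IsU (U : ∀ M : Type, Sys G M → Prop) : Prop where
  ne : ∀ (M : Type) (S : Sys G M), U M S → Nonempty M
  loc : ∀ (M : Type) (S : Sys G M), Nonempty M →
    (∀ (n : ℕ) (v : Fin n → M) (D : Set (At G (Fin n))), D.Finite →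
      ∃ (N : Type) (S' : Sys G N), U N S' ∧ ∃ v' : Fin n → N, ∀ a ∈ D, Tr S v a ↔ Tr S' v' a) →
    U M S

/-- the structures on `ℕ` of the class `U`, in the language of the atoms -/
def KU (U : ∀ M : Type, Sys G M → Prop) : Set ((LW G).Structure ℕ) :=
  {A | ∃ S : Sys G ℕ, U ℕ S ∧ A = WS S}

/-- There is no family of countable closed subsets of a member of the class, indexed by the
subsets of `ℕ`, which is decoded at a countable level over finitely many constants. -/
def Pg (U : ∀ M : Type, Sys G M → Prop) : Prop :=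
  ∀ (M : Type) (S : Sys G M), U M S → ∀ (X : (ℕ → Bool) → Set M) (Q : Type) (q : Q → M)
    (γ : Ordinal.{0}), Finite Q → γ < om1 →
    (∀ f, (X f).Countable ∧ (X f).Infinite ∧ range q ⊆ X f ∧ Cl S (X f)) →
    ∃ f f', f ≠ f' ∧ BW S S (X f) (X f') γ (prs q q)

/-! ## Indiscernible sequences and antichains -/

/-- the sequence `z` (of families indexed by `ι`) is order-indiscernible over the parameters `p` -/
def Ind {I : Type} [LinearOrder I] (S : Sys G M) (p : P → M) (z : I → ι → M) : Prop :=
  ∀ (n : ℕ) (i j : Fin n → I), StrictMono i → StrictMono j →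
    Eqv S (Sum.elim p fun v : Fin n × ι => z (i v.1) v.2)
      S (Sum.elim p fun v : Fin n × ι => z (j v.1) v.2)

/-- no element of the family `z` is generated by a parameter or by another element -/
def Ant (S : Sys G M) (p : P → M) (z : V → M) : Prop :=
  ∀ v, (∀ c, ¬ Gn S (p c) (z v)) ∧ ∀ v', v' ≠ v → ¬ Gn S (z v') (z v)

/-- Order configurations: the rows `x` (indices `R₁`) and `y` (indices `R₂`) are jointly
indiscernible along `ℚ`, all elements form an antichain over `p`, and the atom `a` is true for `x i`,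
`y j` (`i ≠ j`) if and only if `i < j` (`e` true), or if and only if `j < i` (`e` false). -/
structure OCf {R₁ R₂ : Type} (U : ∀ M : Type, Sys G M → Prop) (S : Sys G M) (p : P → M)
    (z : ℚ → R₁ ⊕ R₂ → M) (a : At G (P ⊕ (R₁ ⊕ R₂))) (e : Prop) : Prop where
  mem : U M S
  finP : Finite P
  fin₁ : Finite R₁
  fin₂ : Finite R₂
  ind : Ind S p z
  ant : Ant S p fun v : ℚ × (R₁ ⊕ R₂) => z v.1 v.2
  ord : ∀ i j, i ≠ j →
    (Tr S (Sum.elim p (Sum.elim (z i ∘ Sum.inl) (z j ∘ Sum.inr))) a ↔ (e ↔ i < j))

/-- there is an order configuration with `n` rows -/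
def OC (U : ∀ M : Type, Sys G M → Prop) (n : ℕ) : Prop :=
  ∃ (M : Type) (S : Sys G M) (P R₁ R₂ : Type) (p : P → M) (z : ℚ → R₁ ⊕ R₂ → M)
    (a : At G (P ⊕ (R₁ ⊕ R₂))) (e : Prop), OCf U S p z a e ∧ Nat.card R₁ + Nat.card R₂ = n

/-- `u` is maximal in `X` over the parameters `q`: not generated by parameters, and generated only
by elements of `X` which it generates -/
def Mx (S : Sys G M) (X : Set M) (q : P → M) (u : M) : Prop :=
  u ∈ X ∧ (∀ c, ¬ Gn S (q c) u) ∧ ∀ v ∈ X, Gn S v u → Gn S u v

/-- `d` bounds the arities of all atoms -/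
def Ard (G : Sg) (d : ℕ) : Prop := 2 ≤ d ∧ ∀ R, G.ar R ≤ d

/-- the positions of the marks: `-1, -2, ..` and `2, 3, ..`, `d` of each kind -/
def mk (d : ℕ) : Fin d ⊕ Fin d → ℚ := Sum.elim (fun k => -(k : ℚ) - 1) (fun k => (k : ℚ) + 2)

/-- the parameters and the marks -/
def QM (d : ℕ) (p : P → M) (z : ℚ → ι → M) : P ⊕ (Fin d ⊕ Fin d) × ι → M :=
  Sum.elim p fun c => z (mk d c.1) c.2

/-- the family of shape `s` (words and rows) at the index `i` -/
def sh (S : Sys G M) (z : ℚ → ι → M) (s : κ → List G.Fn × ι) (i : ℚ) : κ → M :=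
  fun r => S.w (s r).1 (z i (s r).2)

/-- the shape `s` at the index `1 / 2` has the same type over the parameters and the marks as the
rows `g` -/
def Shp (S : Sys G M) (d : ℕ) (p : P → M) (z : ℚ → ι → M) (g : κ → ι)
    (s : κ → List G.Fn × ι) : Prop :=
  Eqv S (Sum.elim (QM d p z) (sh S z s (1 / 2))) S (Sum.elim (QM d p z) (z (1 / 2) ∘ g))

/-- Good order configurations: families of elements of the middle part which have the type of a row
over the parameters and the marks live at a single index, and the order is visible for them. -/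
structure OG {R₁ R₂ : Type} (U : ∀ M : Type, Sys G M → Prop) (S : Sys G M) (p : P → M)
    (z : ℚ → R₁ ⊕ R₂ → M) (a : At G (P ⊕ (R₁ ⊕ R₂))) (e : Prop) (d : ℕ) : Prop
    extends OCf U S p z a e where
  six : ∀ u : R₁ → M, (∀ r, ∃ i ∈ Ioo (0 : ℚ) 1, ∃ r', Gn S (z i r') (u r)) →
    Eqv S (Sum.elim (QM d p z) u) S (Sum.elim (QM d p z) (z (1 / 2) ∘ Sum.inl)) →
    ∃ s, ∃ i ∈ Ioo (0 : ℚ) 1, u = sh S z s i ∧ Shp S d p z Sum.inl s
  siy : ∀ u : R₂ → M, (∀ r, ∃ i ∈ Ioo (0 : ℚ) 1, ∃ r', Gn S (z i r') (u r)) →
    Eqv S (Sum.elim (QM d p z) u) S (Sum.elim (QM d p z) (z (1 / 2) ∘ Sum.inr)) →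
    ∃ s, ∃ i ∈ Ioo (0 : ℚ) 1, u = sh S z s i ∧ Shp S d p z Sum.inr s
  shp : ∀ s t, Shp S d p z Sum.inl s → Shp S d p z Sum.inr t → ∀ i j, i ≠ j →
    (Tr S (Sum.elim p (Sum.elim (sh S z s i) (sh S z t j))) a ↔ (e ↔ i < j))

/-! ## Iterated limits -/

open Classical in
/-- iterated limits: `QL u P l y` says that for `u t₁`-almost all `z₁`, for `u t₂`-almost all `z₂`,
..., `P` is true for `y` with the values `z₁, z₂, ..` at `l = [t₁, t₂, ..]` -/
noncomputable def QL {T Y : Type} (u : T → Ultrafilter Y) (Q : (T → Y) → Prop) :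
    List T → (T → Y) → Prop
  | [], y => Q y
  | t :: l, y => ∀ᶠ z in (u t : Filter Y), QL u Q l (Function.update y t z)

end UN
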