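import Pool.Agent.UN.StE

/-!
# UN [IPB]: rules for independence, second part
-/

set_option autoImplicit false
set_option linter.unusedVariables false

namespace UN

open Set Filter Pool.Agent.Helper5.DU Pool.Agent.Helper6.Str Pool.Agent.Helper79.VC
  Pool.Agent.Helper97.LO Pool.Agent.Helper97.VC

/-- an atom whose variables are in the range of `j` comes from an atom over the source of `j` -/
private theorem IPB_pull {G : Sg} {M ι κ : Type} (S : Sys G M) (a : At G ι) (j : κ → ι)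
    (h : a.vs ⊆ range j) : ∃ b : At G κ, ∀ w : ι → M, Tr S w a ↔ Tr S (w ∘ j) b := by
  classical
  obtain ⟨b, hb⟩ := a.exists_sub (range j) h
  have hσ : ∀ y : range j, ∃ x, j x = y := fun y => y.2
  choose σ hσ using hσ
  refine ⟨b.map σ, fun w => ?_⟩
  rw [← hb, Tr_map, Tr_map]
  have e1 : w ∘ Subtype.val = (w ∘ j) ∘ σ := by
    funext y
    show w y = w (j (σ y))
    rw [hσ y]
  rw [e1]

/-- limits of subfamilies -/
private theorem IPB_Lm {G : Sg} {M ι ι' : Type} {S : Sys G M} {A : Set M} {v : ι → M}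
    {u : Ultrafilter (ι → M)} (h : Lm S A v u) (f : ι' → ι) :
    Lm S A (v ∘ f) (u.map fun y => y ∘ f) := by
  refine ⟨?_, fun a => ?_⟩
  · rw [Ultrafilter.coe_map, Filter.eventually_map]
    exact h.mem.mono fun y hy i => hy _
  · rw [Ultrafilter.coe_map, Filter.eventually_map]
    have h1 := h.lim (a.map (Sum.map id f))
    simp only [Tr_map] at h1
    have e : ∀ y : ι → M, ov A y ∘ Sum.map id f = ov A (y ∘ f) := by
      intro y
      funext c
      rcases c with c | c <;> rfl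
    simp only [e] at h1
    exact h1

/-- transitivity of independence -/
private theorem IPB_one {G : Sg} {U : ∀ M : Type, Sys G M → Prop} (hCmt : Cmt U) {M : Type}
    {S : Sys G M} {A : Set M} (hU : U M S)
    (hex : ∀ (ι : Type) (v : ι → M), ∃ u, Lm S A v u)
    (hsym : ∀ (ι κ : Type) (v : ι → M) (v' : κ → M), Ip S A v v' → Ip S A v' v)
    (hcomp : ∀ (ι κ ι' κ' : Type) (v : ι → M) (v' : κ → M) (f : ι' → ι) (g : κ' → κ),
      Ip S A v v' → Ip S A (v ∘ f) (v' ∘ g))
    (ι₁ ι₂ κ : Type) (v₁ : ι₁ → M) (v₂ : ι₂ → M) (v' : κ → M)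
    (h1 : Ip S A (Sum.elim v₁ v₂) v') (h2 : Ip S A v₁ v₂) :
    Ip S A v₁ (Sum.elim v₂ v') := by
  intro u hu a
  obtain ⟨w, hw⟩ := hex κ v'
  have hs := hsym _ _ _ _ h1
  have hs2 : Ip S A v' v₂ := by
    have h3 := hsym _ _ _ _ (hcomp _ _ _ _ _ _ Sum.inr id h1)
    exact h3
  -- step A
  have hA : Tr S (ov A (Sum.elim v₁ (Sum.elim v₂ v'))) a ↔
      ∀ᶠ z in (w : Filter (κ → M)), Tr S (ov A (Sum.elim v₁ (Sum.elim v₂ z))) a := by
    have h3 := hs w hw (a.map (Sum.map id (Sum.elim (fun i => Sum.inr (Sum.inl i))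
      (Sum.elim (fun i => Sum.inr (Sum.inr i)) fun k => Sum.inl k))))
    simp only [Tr_map] at h3
    have e : ∀ z : κ → M, ov A (Sum.elim z (Sum.elim v₁ v₂)) ∘
        (Sum.map id (Sum.elim (fun i => Sum.inr (Sum.inl i))
          (Sum.elim (fun i => Sum.inr (Sum.inr i)) fun k => Sum.inl k))) =
        ov A (Sum.elim v₁ (Sum.elim v₂ z)) := by
      intro z
      funext c
      rcases c with c | c | c | c <;> rfl
    simp only [e] at h3
    exact h3
  -- step B
  have hB : ∀ z : κ → M, (∀ k, z k ∈ A) →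
      (Tr S (ov A (Sum.elim v₁ (Sum.elim v₂ z))) a ↔
        ∀ᶠ x in (u : Filter (ι₁ → M)), Tr S (ov A (Sum.elim x (Sum.elim v₂ z))) a) := by
    intro z hz
    have h3 := h2 u hu (a.map (Sum.elim Sum.inl (Sum.elim (fun i => Sum.inr (Sum.inl i))
      (Sum.elim (fun i => Sum.inr (Sum.inr i)) fun k => Sum.inl ⟨z k, hz k⟩))))
    simp only [Tr_map] at h3
    have e : ∀ x : ι₁ → M, ov A (Sum.elim x v₂) ∘
        (Sum.elim Sum.inl (Sum.elim (fun i => Sum.inr (Sum.inl i))
          (Sum.elim (fun i => Sum.inr (Sum.inr i)) fun k => Sum.inl ⟨z k, hz k⟩))) =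
        ov A (Sum.elim x (Sum.elim v₂ z)) := by
      intro x
      funext c
      rcases c with c | c | c | c <;> rfl
    simp only [e] at h3
    exact h3
  -- step C
  have hC : (∀ᶠ z in (w : Filter (κ → M)), ∀ᶠ x in (u : Filter (ι₁ → M)),
        Tr S (ov A (Sum.elim x (Sum.elim v₂ z))) a) ↔
      ∀ᶠ x in (u : Filter (ι₁ → M)), ∀ᶠ z in (w : Filter (κ → M)),
        Tr S (ov A (Sum.elim x (Sum.elim v₂ z))) a := by
    have h3 := hCmt M S hU (κ → M) (ι₁ → M) κ ι₁ w u id id
      (a.map (Sum.elim (fun x => Sum.inl x.1) (Sum.elim (fun i => Sum.inr (Sum.inr i))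
        (Sum.elim (fun i => Sum.inl (v₂ i)) fun k => Sum.inr (Sum.inl k)))))
    simp only [Tr_map] at h3
    have e : ∀ (x : ι₁ → M) (z : κ → M), Sum.elim id (Sum.elim (id z) (id x)) ∘
        (Sum.elim (fun x => Sum.inl x.1) (Sum.elim (fun i => Sum.inr (Sum.inr i))
        (Sum.elim (fun i => Sum.inl (v₂ i)) fun k => Sum.inr (Sum.inl k)))) =
        ov A (Sum.elim x (Sum.elim v₂ z)) := by
      intro x z
      funext c
      rcases c with c | c | c | c <;> rfl
    simp only [e] at h3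
    exact h3
  -- step D
  have hD : ∀ x : ι₁ → M, (∀ k, x k ∈ A) →
      (Tr S (ov A (Sum.elim x (Sum.elim v₂ v'))) a ↔
        ∀ᶠ z in (w : Filter (κ → M)), Tr S (ov A (Sum.elim x (Sum.elim v₂ z))) a) := by
    intro x hx
    have h3 := hs2 w hw (a.map (Sum.elim Sum.inl (Sum.elim (fun i => Sum.inl ⟨x i, hx i⟩)
      (Sum.elim (fun i => Sum.inr (Sum.inr i)) fun k => Sum.inr (Sum.inl k)))))
    simp only [Tr_map] at h3
    have e : ∀ z : κ → M, ov A (Sum.elim z v₂) ∘
        (Sum.elim Sum.inl (Sum.elim (fun i => Sum.inl ⟨x i, hx i⟩)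
          (Sum.elim (fun i => Sum.inr (Sum.inr i)) fun k => Sum.inr (Sum.inl k)))) =
        ov A (Sum.elim x (Sum.elim v₂ z)) := by
      intro z
      funext c
      rcases c with c | c | c | c <;> rfl
    simp only [e] at h3
    exact h3
  rw [hA, Filter.eventually_congr (hw.mem.mono fun z hz => hB z hz), hC]
  exact (Filter.eventually_congr (hu.mem.mono fun x hx => hD x hx)).symm

/-- Rules for independence, second part. -/
theorem thm_IPB (h1 : St_IPA) : St_IPB := by
  classical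
  intro G U hCmt M S A hU hEC hCl
  obtain ⟨hex, -, hsym, -, -, hcomp⟩ := h1 G U hCmt M S A hU hEC
  refine ⟨fun ι₁ ι₂ κ v₁ v₂ v' h3 h4 => IPB_one hCmt hU hex hsym hcomp ι₁ ι₂ κ v₁ v₂ v' h3 h4,
    ?_, ?_⟩
  · intro ι κ v v' h u hu a
    let E : Set ι := {i | Sum.inr (Sum.inl i) ∈ a.vs}
    let F : Set κ := {k | Sum.inr (Sum.inr k) ∈ a.vs}
    have hE : E.Finite := a.vs_finite.preimage fun x _ y _ hxy => Sum.inl_injective
      (Sum.inr_injective hxy)
    have hF : F.Finite := a.vs_finite.preimage fun x _ y _ hxy => Sum.inr_injective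
      (Sum.inr_injective hxy)
    let j : A ⊕ (E ⊕ F) → A ⊕ (ι ⊕ κ) := Sum.map id (Sum.map Subtype.val Subtype.val)
    obtain ⟨b, hb⟩ := IPB_pull S a j (by
      rintro (x | i | k) hx
      · exact ⟨Sum.inl x, rfl⟩
      · exact ⟨Sum.inr (Sum.inl ⟨i, hx⟩), rfl⟩
      · exact ⟨Sum.inr (Sum.inr ⟨k, hx⟩), rfl⟩)
    have h3 := h E F hE hF (u.map fun y => y ∘ (Subtype.val : E → ι))
      (IPB_Lm hu (Subtype.val : E → ι)) b
    rw [Ultrafilter.coe_map, Filter.eventually_map] at h3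
    have e : ∀ y : ι → M, ov A (Sum.elim y v') ∘ j =
        ov A (Sum.elim (y ∘ (Subtype.val : E → ι)) (fun j : F => v' j)) := by
      intro y
      funext c
      rcases c with c | c | c <;> rfl
    have h4 : ∀ y : ι → M, Tr S (ov A (Sum.elim y v')) a ↔
        Tr S (ov A (Sum.elim (y ∘ (Subtype.val : E → ι)) (fun j : F => v' j))) b := by
      intro y
      rw [hb, e]
    rw [h4 v]
    refine Iff.trans h3 ?_
    exact Filter.eventually_congr (Filter.Eventually.of_forall fun y => (h4 y).symm)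
  · rintro ι κ v v' h i j hj ⟨l, hl⟩
    obtain ⟨u, hu⟩ := hex ι v
    have h3 := (h u hu (.eq ([], Sum.inr (Sum.inr j)) (l, Sum.inr (Sum.inl i)))).1 hl
    obtain ⟨y, hy1, hy2⟩ := (h3.and hu.mem).exists
    refine hj ?_
    have h4 : v' j = S.w l (y i) := hy1
    rw [h4]
    exact w_mem hCl (hy2 i) l

end UN
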