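import Pool.Agent.UN.StB

/-!
# UN, module OMK: the marks lemma
-/

set_option autoImplicit false
set_option linter.unusedVariables false

namespace UN

open Set Filter Pool.Agent.Helper5.DU Pool.Agent.Helper6.Str Pool.Agent.Helper79.VC
  Pool.Agent.Helper97.LO Pool.Agent.Helper97.VC

/-- an atom has at most `d` variables -/
private theorem OMK_card {G : Sg} {κ : Type} {d : ℕ} (hd : Ard G d) (a : At G κ) :
    a.vs.ncard ≤ d := by
  cases a with
  | eq s t =>
    refine le_trans (Set.ncard_insert_le _ _) ?_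
    rw [Set.ncard_singleton]
    exact hd.1
  | rel R t =>
    have h : (range fun k => (t k).2).ncard ≤ G.ar R := by
      rw [← Set.image_univ]
      refine le_trans (Set.ncard_image_le Set.finite_univ) ?_
      rw [Set.ncard_univ, Nat.card_fin]
    exact h.trans (hd.2 R)

/-- the shift of the positions to the marks -/
private def OMK_sg (F : Finset ℚ) (x : ℚ) : ℚ :=
  if 0 < x ∧ x < 1 then x
  else if x ≤ 0 then -((F.filter fun f => f ≤ 0 ∧ x < f).card : ℚ) - 1
  else ((F.filter fun f => 1 ≤ f ∧ f < x).card : ℚ) + 2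

private theorem OMK_mid (F : Finset ℚ) {x : ℚ} (h : 0 < x ∧ x < 1) : OMK_sg F x = x := by
  rw [OMK_sg, if_pos h]

private theorem OMK_low (F : Finset ℚ) {x : ℚ} (h : x ≤ 0) :
    OMK_sg F x = -((F.filter fun f => f ≤ 0 ∧ x < f).card : ℚ) - 1 := by
  rw [OMK_sg, if_neg (fun h' => absurd h'.1 (not_lt.2 h)), if_pos h]

private theorem OMK_high (F : Finset ℚ) {x : ℚ} (h : 1 ≤ x) :
    OMK_sg F x = ((F.filter fun f => 1 ≤ f ∧ f < x).card : ℚ) + 2 := by
  rw [OMK_sg, if_neg (fun h' => absurd h'.2 (not_lt.2 h)), if_neg (by linarith)]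

private theorem OMK_lt (F : Finset ℚ) {x y : ℚ} (hx : x ∈ F ∨ (0 < x ∧ x < 1))
    (hy : y ∈ F ∨ (0 < y ∧ y < 1)) (h : x < y) : OMK_sg F x < OMK_sg F y := by
  have hc : ∀ t : Finset ℚ, (0 : ℚ) ≤ (t.card : ℚ) := fun t => Nat.cast_nonneg _
  rcases le_or_gt x 0 with hx0 | hx0
  · rcases le_or_gt y 0 with hy0 | hy0
    · have hyF : y ∈ F := hy.resolve_right fun h' => absurd h'.1 (not_lt.2 hy0)
      rw [OMK_low F hx0, OMK_low F hy0]
      have h1 : (F.filter fun f => f ≤ 0 ∧ y < f).card < (F.filter fun f => f ≤ 0 ∧ x < f).card := by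
        refine Finset.card_lt_card ?_
        rw [Finset.ssubset_iff_of_subset]
        · refine ⟨y, Finset.mem_filter.2 ⟨hyF, hy0, h⟩, fun h' => ?_⟩
          exact lt_irrefl _ (Finset.mem_filter.1 h').2.2
        · intro f hf
          rw [Finset.mem_filter] at hf ⊢
          exact ⟨hf.1, hf.2.1, h.trans hf.2.2⟩
      have h2 : ((F.filter fun f => f ≤ 0 ∧ y < f).card : ℚ) <
          ((F.filter fun f => f ≤ 0 ∧ x < f).card : ℚ) := by exact_mod_cast h1
      linarith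
    · rw [OMK_low F hx0]
      have h0 := hc (F.filter fun f => f ≤ 0 ∧ x < f)
      rcases lt_or_ge y 1 with hy1 | hy1
      · rw [OMK_mid F ⟨hy0, hy1⟩]
        linarith
      · rw [OMK_high F hy1]
        have h0' := hc (F.filter fun f => 1 ≤ f ∧ f < y)
        linarith
  · rcases lt_or_ge x 1 with hx1 | hx1
    · rw [OMK_mid F ⟨hx0, hx1⟩]
      rcases lt_or_ge y 1 with hy1 | hy1
      · rw [OMK_mid F ⟨hx0.trans h, hy1⟩]
        exact h
      · rw [OMK_high F hy1]
        have h0' := hc (F.filter fun f => 1 ≤ f ∧ f < y)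
        linarith
    · have hxF : x ∈ F := hx.resolve_right fun h' => absurd h'.2 (not_lt.2 hx1)
      rw [OMK_high F hx1, OMK_high F (hx1.trans h.le)]
      have h1 : (F.filter fun f => 1 ≤ f ∧ f < x).card < (F.filter fun f => 1 ≤ f ∧ f < y).card := by
        refine Finset.card_lt_card ?_
        rw [Finset.ssubset_iff_of_subset]
        · refine ⟨x, Finset.mem_filter.2 ⟨hxF, hx1, h⟩, fun h' => ?_⟩
          exact lt_irrefl _ (Finset.mem_filter.1 h').2.2
        · intro f hf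
          rw [Finset.mem_filter] at hf ⊢
          exact ⟨hf.1, hf.2.1, hf.2.2.trans h⟩
      have h2 : ((F.filter fun f => 1 ≤ f ∧ f < x).card : ℚ) <
          ((F.filter fun f => 1 ≤ f ∧ f < y).card : ℚ) := by exact_mod_cast h1
      linarith

private theorem OMK_lt_iff (F : Finset ℚ) {x y : ℚ} (hx : x ∈ F ∨ (0 < x ∧ x < 1))
    (hy : y ∈ F ∨ (0 < y ∧ y < 1)) : x < y ↔ OMK_sg F x < OMK_sg F y := by
  refine ⟨OMK_lt F hx hy, fun h => ?_⟩
  rcases lt_trichotomy x y with h' | h' | h'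
  · exact h'
  · rw [h'] at h; exact absurd h (lt_irrefl _)
  · exact absurd h (not_lt.2 (OMK_lt F hy hx h').le)

private theorem OMK_mark (F : Finset ℚ) {d : ℕ} (hF : F.card ≤ d) {x : ℚ} (hx : x ∈ F)
    (h : x ∉ Ioo (0 : ℚ) 1) : ∃ m : Fin d ⊕ Fin d, OMK_sg F x = mk d m := by
  rcases le_or_gt x 0 with hx0 | hx0
  · have h1 : (F.filter fun f => f ≤ 0 ∧ x < f).card < F.card := by
      refine Finset.card_lt_card ?_
      rw [Finset.ssubset_iff_of_subset (Finset.filter_subset _ _)]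
      exact ⟨x, hx, fun h' => lt_irrefl _ (Finset.mem_filter.1 h').2.2⟩
    refine ⟨Sum.inl ⟨_, h1.trans_le hF⟩, ?_⟩
    rw [OMK_low F hx0]
    rfl
  · have hx1 : 1 ≤ x := by
      by_contra h'
      exact h ⟨hx0, not_le.1 h'⟩
    have h1 : (F.filter fun f => 1 ≤ f ∧ f < x).card < F.card := by
      refine Finset.card_lt_card ?_
      rw [Finset.ssubset_iff_of_subset (Finset.filter_subset _ _)]
      exact ⟨x, hx, fun h' => lt_irrefl _ (Finset.mem_filter.1 h').2.2⟩
    refine ⟨Sum.inr ⟨_, h1.trans_le hF⟩, ?_⟩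
    rw [OMK_high F hx1]
    rfl

private theorem OMK_mk_notMem (d : ℕ) (m : Fin d ⊕ Fin d) : mk d m ∉ Ioo (0 : ℚ) 1 := by
  rintro ⟨h1, h2⟩
  rcases m with k | k
  · have h3 : mk d (Sum.inl k) = -(k : ℚ) - 1 := rfl
    have h4 : (0 : ℚ) ≤ (k : ℕ) := Nat.cast_nonneg _
    rw [h3] at h1
    linarith
  · have h3 : mk d (Sum.inr k) = (k : ℚ) + 2 := rfl
    have h4 : (0 : ℚ) ≤ (k : ℕ) := Nat.cast_nonneg _
    rw [h3] at h2
    linarith

section

variable {G : Sg} {M P ι V : Type}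

/-- the elements outside of the middle part -/
private abbrev OO (ι : Type) : Type := {i : ℚ // i ∉ Ioo (0 : ℚ) 1} × ι

/-- the family of the parameters, the outer elements (moved by `σ`) and `u` -/
private def FU (p : P → M) (z : ℚ → ι → M) (σ : ℚ → ℚ) (u : V → M) :
    P ⊕ (OO ι ⊕ V) → M :=
  Sum.elim p (Sum.elim (fun c : OO ι => z (σ c.1) c.2) u)

/-- the shift of the outer elements -/
private theorem OMK_shift (h : St_IPO) (S : Sys G M) (p : P → M) (z : ℚ → ι → M)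
    (hI : Ind S p z) (u : V → M) (E : Set (P ⊕ (OO ι ⊕ V))) (F : Finset ℚ)
    (hO : ∀ o : OO ι, Sum.inr (Sum.inl o) ∈ E → (o.1 : ℚ) ∈ F)
    (hV : ∀ v : V, Sum.inr (Sum.inr v) ∈ E → ∃ i ∈ Ioo (0 : ℚ) 1, ∃ r, Gn S (z i r) (u v)) :
    Eqv S (fun e : E => FU p z id u e) S (fun e : E => FU p z (OMK_sg F) u e) := by
  choose i hi r hr using hV
  choose l hl using hr
  let V' : Type := {o : OO ι // Sum.inr (Sum.inl o) ∈ E} ⊕ {v : V // Sum.inr (Sum.inr v) ∈ E}
  let pos : V' → ℚ := Sum.elim (fun o => (o.1.1 : ℚ)) (fun v => i v.1 v.2)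
  let row : V' → ι := Sum.elim (fun o => o.1.2) (fun v => r v.1 v.2)
  have hp : ∀ v : V', pos v ∈ F ∨ (0 < pos v ∧ pos v < 1) := by
    rintro (o | v)
    · exact Or.inl (hO o.1 o.2)
    · exact Or.inr ⟨(hi v.1 v.2).1, (hi v.1 v.2).2⟩
  have h1 := h G M P ι ℚ V' S p z hI pos (fun v => OMK_sg F (pos v)) row
    fun v v' => OMK_lt_iff F (hp v) (hp v')
  refine h1.words' ?_
  rintro ⟨c | o | v, hk⟩
  · exact ⟨[], Sum.inl c, rfl, rfl⟩
  · exact ⟨[], Sum.inr (Sum.inl ⟨o, hk⟩), rfl, rfl⟩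
  · refine ⟨l v hk, Sum.inr (Sum.inr ⟨v, hk⟩), hl v hk, ?_⟩
    have h2 : OMK_sg F (i v hk) = i v hk := OMK_mid F ⟨(hi v hk).1, (hi v hk).2⟩
    have h3 : u v = S.w (l v hk) (z (OMK_sg F (i v hk)) (r v hk)) := by
      rw [h2]; exact hl v hk
    exact h3

end

theorem thm_OMK (h : St_IPO) : St_OMK := by
  classical
  intro G M P ι V S p z d u u' hd hI hu hu' hq
  -- the outer elements
  let inQ : P ⊕ (Fin d ⊕ Fin d) × ι → P ⊕ (OO ι ⊕ V) :=
    Sum.elim Sum.inl fun m => Sum.inr (Sum.inl (⟨mk d m.1, OMK_mk_notMem d m.1⟩, m.2))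
  have hinQ : ∀ (u : V → M) c, FU p z id u (inQ c) = QM d p z c := by
    rintro u (c | m)
    · rfl
    · rfl
  let bad : V → Prop := fun v => ∃ (c : P ⊕ (Fin d ⊕ Fin d) × ι) (l : List G.Fn),
    u v = S.w l (QM d p z c)
  -- the substitution
  have hs : ∀ k : P ⊕ (OO ι ⊕ V), ∃ s : List G.Fn × (P ⊕ (OO ι ⊕ V)),
      FU p z id u k = S.w s.1 (FU p z id u s.2) ∧ FU p z id u' k = S.w s.1 (FU p z id u' s.2) ∧
      ∀ v, s.2 = Sum.inr (Sum.inr v) → ¬ bad v := by
    rintro (c | o | v)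
    · exact ⟨([], Sum.inl c), rfl, rfl, fun v hv => by cases hv⟩
    · exact ⟨([], Sum.inr (Sum.inl o)), rfl, rfl, fun v hv => by cases hv⟩
    · by_cases hb : bad v
      · obtain ⟨c, l, hl⟩ := id hb
        have h1 : u' v = S.w l (QM d p z c) :=
          (hq.w_eq [] l (Sum.inr v) (Sum.inl c)).1 hl
        refine ⟨(l, inQ c), ?_, ?_, ?_⟩
        · rw [hinQ]; exact hl
        · rw [hinQ]; exact h1
        · intro v' hv'
          rcases c with c | m
          · cases hv'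
          · cases hv'
      · refine ⟨([], Sum.inr (Sum.inr v)), rfl, rfl, ?_⟩
        intro v' hv'
        cases hv'
        exact hb
  choose s hs1 hs2 hs3 using hs
  have key : ∀ a : At G (P ⊕ (OO ι ⊕ V)), Tr S (FU p z id u) a ↔ Tr S (FU p z id u') a := by
    intro a
    have e1 : Tr S (FU p z id u) a ↔ Tr S (FU p z id u) (a.sub s) := by
      rw [Tr_sub]
      have : (FU p z id u) = fun i => S.w (s i).1 (FU p z id u (s i).2) := funext hs1
      rw [← this]
    have e2 : Tr S (FU p z id u') a ↔ Tr S (FU p z id u') (a.sub s) := by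
      rw [Tr_sub]
      have : (FU p z id u') = fun i => S.w (s i).1 (FU p z id u' (s i).2) := funext hs2
      rw [← this]
    rw [e1, e2]
    have hvs : ∀ v, Sum.inr (Sum.inr v) ∈ (a.sub s).vs → ¬ bad v := by
      intro v hv
      cases a with
      | eq x y =>
        rcases hv with hv | hv
        · exact hs3 x.2 v hv.symm
        · exact hs3 y.2 v hv.symm
      | rel R t =>
        obtain ⟨k, hk⟩ := hv
        exact hs3 (t k).2 v hk
    set a' := a.sub s with ha'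
    have hv1 : ∀ v, Sum.inr (Sum.inr v) ∈ a'.vs →
        ∃ i ∈ Ioo (0 : ℚ) 1, ∃ r, Gn S (z i r) (u v) := by
      intro v hv
      rcases hu v with ⟨c, l, hl⟩ | hi
      · exact absurd ⟨c, l, hl⟩ (hvs v hv)
      · exact hi
    have hv2 : ∀ v, Sum.inr (Sum.inr v) ∈ a'.vs →
        ∃ i ∈ Ioo (0 : ℚ) 1, ∃ r, Gn S (z i r) (u' v) := by
      intro v hv
      rcases hu' v with ⟨c, l, hl⟩ | hi
      · exact absurd ⟨c, l, (hq.w_eq [] l (Sum.inr v) (Sum.inl c)).2 hl⟩ (hvs v hv)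
      · exact hi
    let pos : P ⊕ (OO ι ⊕ V) → ℚ := Sum.elim (fun _ => 0) (Sum.elim (fun o => (o.1 : ℚ)) fun _ => 0)
    let F : Finset ℚ := a'.vs_finite.toFinset.image pos
    have hF : F.card ≤ d := by
      refine Finset.card_image_le.trans ?_
      rw [← Set.ncard_eq_toFinset_card _ a'.vs_finite]
      exact OMK_card hd a'
    have hO : ∀ o : OO ι, Sum.inr (Sum.inl o) ∈ a'.vs → (o.1 : ℚ) ∈ F := by
      intro o ho
      exact Finset.mem_image.2 ⟨Sum.inr (Sum.inl o), a'.vs_finite.mem_toFinset.2 ho, rfl⟩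
    obtain ⟨b, hb⟩ := a'.exists_sub a'.vs Subset.rfl
    have f1 := OMK_shift h S p z hI u a'.vs F hO hv1 b
    have f2 := OMK_shift h S p z hI u' a'.vs F hO hv2 b
    have f3 : Eqv S (fun e : a'.vs => FU p z (OMK_sg F) u e) S
        (fun e : a'.vs => FU p z (OMK_sg F) u' e) := by
      have hm : ∀ o : OO ι, Sum.inr (Sum.inl o) ∈ a'.vs →
          ∃ m : Fin d ⊕ Fin d, OMK_sg F o.1 = mk d m :=
        fun o ho => OMK_mark F hF (hO o ho) o.1.2
      have hg : ∀ e : a'.vs, ∃ k : (P ⊕ (Fin d ⊕ Fin d) × ι) ⊕ V,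
          FU p z (OMK_sg F) u e = Sum.elim (QM d p z) u k ∧
          FU p z (OMK_sg F) u' e = Sum.elim (QM d p z) u' k := by
        rintro ⟨c | o | v, hk⟩
        · exact ⟨Sum.inl (Sum.inl c), rfl, rfl⟩
        · obtain ⟨m, hm'⟩ := hm o hk
          have h3 : z (OMK_sg F o.1) o.2 = z (mk d m) o.2 := by rw [hm']
          exact ⟨Sum.inl (Sum.inr (m, o.2)), h3, h3⟩
        · exact ⟨Sum.inr v, rfl, rfl⟩
      choose g hg1 hg2 using hg
      exact hq.comp' g hg1 hg2
    have g1 : ∀ w : P ⊕ (OO ι ⊕ V) → M, Tr S w a' ↔ Tr S (fun e : a'.vs => w e) b := by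
      intro w
      conv_lhs => rw [← hb]
      rw [Tr_map]
      rfl
    rw [g1 (FU p z id u), g1 (FU p z id u')]
    exact f1.trans ((f3 b).trans f2.symm)
  exact key

end UN
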