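import Pool.Agent.UN.Bas

/-!
# UN, statements A: limits, the class on `ℕ`, the final theorem

Every module proves `thm_XXX : St_XXX` in `Pool/Agent/UN/XXX.lean` (imports: this file, Mathlib
files and the files named in the docstring); statements used are taken as hypotheses, e.g.
`theorem thm_LIM (h : St_UPR) : St_LIM`. The basic lemmas are in `Bas.lean`.
-/

set_option autoImplicit false
set_option linter.unusedVariables false

namespace UN

open Set Filter Pool.Agent.Helper5.DU Pool.Agent.Helper6.Str Pool.Agent.Helper79.VC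
  Pool.Agent.Helper97.LO Pool.Agent.Helper97.VC

/-- [UPR] (0.5 h; no other module) Ultrapowers. `q v` is the class of the function `v`.

Proof. `N := Quotient r`, `r v v' := ∀ᶠ x in u, v x = v' x` (a setoid on `X → M`), `q := Quotient.mk
_` (surjective). `S'.fn f := Quotient.map (fun v x => S.fn f (v x)) ..`,
`S'.rel R b := ∀ᶠ x in u, S.rel R fun k => (b k).out x`. By induction on `l`:
`S'.w l (q v) = q fun x => S.w l (v x)`. The last claim by cases on `a`: for `eq` it is
`Quotient.eq`; for `rel` use `(q v).out ~ v` (`Quotient.mk_out`) for the finitely many `k`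
(`Filter.eventually_all`). `U N S'` by `IsU.loc`: `N` is nonempty (`IsU.ne`); for `n`,
`v' : Fin n → N`, `D` finite write `v' i = q (v i)` (`q` surjective); for every `a ∈ D` we have
`∀ᶠ x in u, (Tr S' v' a ↔ Tr S (fun i => v i x) a)` (if `Tr S' v' a` it holds eventually, otherwise
`Ultrafilter.eventually_not`); take an `x` which is good for all `a ∈ D`
(`Set.Finite` version: `(Filter.eventually_all_finite hD).2`, `Filter.Eventually.exists`) and the
member `M`, `S` of the class. -/
def St_UPR : Prop := ∀ (G : Sg) (U : ∀ M : Type, Sys G M → Prop) (M : Type) (S : Sys G M),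
  IsU U → U M S → ∀ (X : Type) (u : Ultrafilter X),
  ∃ (N : Type) (S' : Sys G N) (q : (X → M) → N), U N S' ∧ Function.Surjective q ∧
    ∀ (ι : Type) (v : ι → X → M) (a : At G ι),
      Tr S' (fun i => q (v i)) a ↔ ∀ᶠ x in (u : Filter X), Tr S (fun i => v i x) a

/-- [LIM] (0.4 h; uses `St_UPR`) Finitely satisfiable complete types over a member of the class are
realised in an extension.

Proof. Let `X := Finset (At G (M ⊕ V))` (classical), `u := Ultrafilter.of Filter.atTop` (`atTop` on
`X` is `NeBot`, `Ultrafilter.of_le`). For `D : X` choose `v D : V → M` by the hypothesis. Take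
`N, S', q` of `St_UPR`, `e m := q fun _ => m`, `v' x := q fun D => v D x`. Then
`Sum.elim e v' = fun i => q (w i)` with `w := Sum.elim (fun m _ => m) (fun x D => v D x)`, and
`(fun i => w i D) = Sum.elim id (v D)`. So `Tr S' (Sum.elim e v') a ↔ ∀ᶠ D in u, Tr S (Sum.elim id
(v D)) a ↔ ∀ᶠ D in u, Θ a ↔ Θ a`: eventually `a ∈ D` (`Filter.eventually_ge_atTop {a}`), and then
`Θ a ↔ Tr S (Sum.elim id (v D)) a`. -/
def St_LIM : Prop := ∀ (G : Sg) (U : ∀ M : Type, Sys G M → Prop) (M : Type) (S : Sys G M),
  IsU U → U M S → ∀ (V : Type) (Θ : At G (M ⊕ V) → Prop),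
  (∀ D : Set (At G (M ⊕ V)), D.Finite →
    ∃ v : V → M, ∀ a ∈ D, Θ a ↔ Tr S (Sum.elim id v) a) →
  ∃ (N : Type) (S' : Sys G N) (e : M → N) (v : V → N), U N S' ∧
    ∀ a, Tr S' (Sum.elim e v) a ↔ Θ a

/-- [CHR] (0.8 h; no other module) The relational structures of the members of the class: the
function symbols have values, and every finite pattern occurs in a member of the class (with the
same equalities).

Proof. From right to left: `A = WS S`; take `y := S.fn f x`, and `N := M`, `v' := v`.
From left to right: choose `fn f x` with `A.RelMap (.eq ([f], 0) ([], 1)) ![x, fn f x]`, let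
`rel R u := A.RelMap (.rel R fun k => ([], k)) u` and `S := ⟨fn, rel⟩`.
(1) For all `l x y`: `A.RelMap (.eq (l, 0) ([], 1)) ![x, y] ↔ S.w l x = y`. Induction on `l`.
`l = []`: the family `![x, y]` and `D := {(2, .eq ([], 0) ([], 1), id)}`: in `N` the atom is true
iff `v' 0 = v' 1` iff `x = y`. `l = f :: l'`: let `z := S.w l' x`, `t := S.fn f z`; the family
`![x, z, t, y]` with the three atoms `.eq (l', 0) ([], 1)` at `![0, 1]`, `.eq ([f], 0) ([], 1)` at
`![1, 2]` (both true in `A`), `.eq (f :: l', 0) ([], 1)` at `![0, 3]`. In `N`: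
`S'.w l' (v' 0) = v' 1`, `S'.fn f (v' 1) = v' 2`, so the third atom is true iff `v' 2 = v' 3` iff
`t = y`.
(2) For `a = .rel R t : At G (Fin n)` and `v : Fin n → M` let `u k := S.w (t k).1 (v (t k).2)`.
Apply the hypothesis to the family `Fin.append v u : Fin (n + G.ar R) → M` and the atoms `a` at
`Fin.castAdd _`, `.rel R (fun k => ([], k))` at `Fin.natAdd _`, and for every `k`
`.eq ((t k).1, 0) ([], 1)` at `![Fin.castAdd _ (t k).2, Fin.natAdd _ k]` (true in `A` by (1)).
In `N` the atom `a` is true iff the atom `.rel R ..` is true for `u'`. So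
`A.RelMap a v ↔ A.RelMap (.rel R ..) u = S.rel R u ↔ Tr S v a`.
(3) For `a = .eq s t` and `v` use in the same way `Fin.append v ![S.w s.1 (v s.2), S.w t.1 (v
t.2)]`. So `A = WS S` (`FirstOrder.Language.Structure.ext` or by hand; `funMap` is empty).
(4) `U M S` by `IsU.loc`: for `n v D` apply the hypothesis with the atoms `(n, a, id)`, `a ∈ D`. -/
def St_CHR : Prop := ∀ (G : Sg) (U : ∀ M : Type, Sys G M → Prop), IsU U → ∀ (M : Type)
  (A : (LW G).Structure M), Nonempty M →
  (((∀ f x, ∃ y, A.RelMap (At.eq ([f], 0) ([], 1) : At G (Fin 2)) ![x, y]) ∧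
    (∀ (n : ℕ) (v : Fin n → M) (D : Set ((m : ℕ) × At G (Fin m) × (Fin m → Fin n))), D.Finite →
      ∃ (N : Type) (S' : Sys G N), U N S' ∧ ∃ v' : Fin n → N,
        (∀ i j, v i = v j ↔ v' i = v' j) ∧
        ∀ a ∈ D, (A.RelMap (a.2.1 : At G (Fin a.1)) (v ∘ a.2.2) ↔ Tr S' (v' ∘ a.2.2) a.2.1))) ↔
    ∃ S : Sys G M, U M S ∧ A = WS S)

/-- [KWM] (0.8 h; uses `St_CHR`) The class `KU U` is Borel and closed under the equivalence of level
`ω`.

Proof. The types `At G (Fin n)` are countable (`At.eq` and `At.rel` are images of countable types: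
`(List × Fin n) ^ 2` and `(R : G.Rl) × (Fin (G.ar R) → List × Fin n)`; write an injection or a
surjection from a sum type). By `St_CHR` (for `M := ℕ`) the set is
`{c | ∀ f x, ∃ y, (toStr c).RelMap .. ![x, y]} ∩ {c | ∀ n v, ∀ D : Finset _, Q c n v D}`
(replace the finite sets `D` by `Finset`s, which are countably many), where `Q c n v D` says that
some member of the class has the same pattern. The first set is measurable by
`MeasurableSet.iInter`, `MeasurableSet.iUnion` and `measurableSet_relMap` (`VB/B.lean`, see its use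
in `scat_of_not_perf`). For `n v D` fixed: `Q c n v D` depends only on the truth values of the
finitely many facts `(toStr c).RelMap a.2.1 (v ∘ a.2.2)`, `a ∈ D`: `{c | Q c n v D}` is the union
over the (finitely many, at least countably many) subsets `E ⊆ D` such that `E` is the set of the
`a ∈ D` which are true for some member with a suitable `v'`, of
`⋂ a ∈ D, {c | RelMap a .. ↔ a ∈ E}`; all measurable.
`ClosedLev (KU U) ω`: let `A ∈ KU U`, `BFR A A' univ univ ω ∅`. By `St_CHR` for `A`, check the left
side for `A'`: for `f`, `x'` by `BFR.back` (level 2, then 1) an `x` with `(x, x')`, then `y` in `A`,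
then `y'` by `BFR.forth`, and `AtEq` for the symbol `.eq ([f], 0) ([], 1)` and the tuple of pairs
`![(x, x'), (y, y')]`. For `n v' D` by `BFR.back_many` a tuple `v` in `A` with `AtEq` for the pairs
`(v i, v' i)`; then `v i = v j ↔ v' i = v' j` and the same facts, so the member for `v` is good for
`v'`. -/
def St_KWM : Prop := ∀ (G : Sg) (U : ∀ M : Type, Sys G M → Prop), Countable G.Fn →
  Countable G.Rl → IsU U → MeasurableSet {c : Code (LW G) | toStr c ∈ KU U} ∧
    ClosedLev (KU U) Ordinal.omega0

/-- [LEV] (0.3 h; uses `St_CHR`) Large structures of the class `KU U` come from members of `U`.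

Proof. `M` is nonempty: take `A' ∈ KU U` with `BFR A A' univ univ 1 ∅` and use `BFR.back` for
`0 : ℕ`. Then the left side of `St_CHR` for `A`: for `f x` take `A' ∈ KU U` with
`BFR A A' univ univ 2 ∅`, `A' = WS S'`; answer `x` by `x'`, let `y' := S'.fn f x'`, answer `y'` by
`y`. For `n v D` take `A' ∈ KU U`, `BFR A A' univ univ n ∅` (as `0 + n`), and `BFR.forth_many`:
`v'` in `ℕ`, with `N := ℕ`, `A' = WS S'`. -/
def St_LEV : Prop := ∀ (G : Sg) (U : ∀ M : Type, Sys G M → Prop), IsU U → ∀ (M : Type)
  (A : (LW G).Structure M), Lev (KU U) A → ∃ S : Sys G M, U M S ∧ A = WS S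

/-- [PGU] (0.5 h; no other module) Pigeonhole.

Proof. Copy `HEC/PGC.lean` (`HEC.thm_PGC`) with these changes: `hmem f : pl (WS S) (e f) ∈ KU U`:
the system `T` on `ℕ` with `T.fn g n :=` the number `m` with `e f m = S.fn g (e f n)` (it exists
because `X f = range (e f)` is closed), `T.rel R v := S.rel R (e f ∘ v)`; by induction on words
`e f (T.w l n) = S.w l (e f n)`, so `Tr T v a ↔ Tr S (e f ∘ v) a` and `pl (WS S) (e f) = WS T`
(look at the definition of `pl` in `VB/B.lean`); `U ℕ T` by `IsU.loc` (the pattern of `v` in `T` is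
the pattern of `e f ∘ v` in `S`). Constants: instead of the finite set `G` we have a family
`q : Q → M`, `Q` finite; take `c := q ∘ (Finite.equivFin Q).symm`. -/
def St_PGU : Prop := ∀ (G : Sg) (U : ∀ M : Type, Sys G M → Prop), Countable G.Fn →
  Countable G.Rl → IsU U → Scat (KU U) → Pg U

/-- the main statement: the members of the class are not large -/
def St_MNU : Prop := ∀ (G : Sg) (U : ∀ M : Type, Sys G M → Prop), Countable G.Fn →
  Countable G.Rl → {R : G.Rl | 2 ≤ G.ar R}.Finite → IsU U → Pg U → ∀ (M : Type) (S : Sys G M),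
  U M S → ¬ NoCtblType (WS S)

/-- [DCH] (0.2 h; uses `St_KWM`, `St_LEV`, `St_PGU`, `St_MNU`) The dichotomy for universal classes.

Proof. The language `LW G` is countable (see `St_KWM`; state the instance
`∀ n, Countable ((LW G).Relations n)`). If `KU U` is not perfect, then `Scat (KU U)`
(`scat_of_not_perf`), so `Pg U`. If `KU U` is not countable, `exists_model` (with `St_KWM`,
`omega_lt_om1`) gives `M`, `A` with `Lev (KU U) A`, `NoCtblType A`; `St_LEV` and `St_MNU` give a
contradiction. -/
def St_DCH : Prop := ∀ (G : Sg) (U : ∀ M : Type, Sys G M → Prop), Countable G.Fn →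
  Countable G.Rl → {R : G.Rl | 2 ≤ G.ar R}.Finite → IsU U → CtblK (KU U) ∨ PerfK (KU U)

/-! ## First-order theories -/

/-- the signature of a language whose function symbols have arity at most one -/
def sgL (L : FirstOrder.Language.{0, 0}) : Sg where
  Fn := L.Functions 0 ⊕ L.Functions 1
  Rl := (n : ℕ) × L.Relations n
  ar := fun R => R.1

/-- the system of a structure; constants are constant functions -/
def sy {L : FirstOrder.Language.{0, 0}} {M : Type} (A : L.Structure M) : Sys (sgL L) M where
  fn := fun f x => f.elim (fun c => A.funMap c ![]) (fun g => A.funMap g ![x])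
  rel := fun R v => A.RelMap R.2 v

/-- the models of a theory as systems -/
def UT {L : FirstOrder.Language.{0, 0}} (T : L.Theory) (M : Type) (S : Sys (sgL L) M) : Prop :=
  Nonempty M ∧ ∃ A : L.Structure M, S = sy A ∧ @FirstOrder.Language.Theory.Model L M A T

/-- [QFL] (0.8 h; no other module) Quantifier-free formulas depend on finitely many atoms.

Proof. Terms: for every `t : L.Term (Empty ⊕ Fin n)` there are a word `l : List (sgL L).Fn` and
`i : Fin (n + 1)` with `t.realize (Sum.elim default w) = (sy A).w l (Fin.snoc w x i)` for all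
`A`, `M`, `w : Fin n → M`, `x : M` (`Fin.snoc w x`: the last variable is a dummy). Induction: a
variable; a constant `c` is the word `[inl c]` at the last variable; `f t` with `f` of arity 1 is
the word `inr f :: l`; there are no other function symbols.
Formulas: induction on `IsQF` (falsum: `D = ∅`; `equal`: the atom `.eq (l, i) (l', j)`; `rel R ts`:
the atom `.rel ⟨_, R⟩ ..`; implication: the union; note that `IsQF` has the constructors falsum,
of_isAtomic, imp). -/
def St_QFL : Prop := ∀ (L : FirstOrder.Language.{0, 0}), (∀ n, IsEmpty (L.Functions (n + 2))) →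
  ∀ (n : ℕ) (ψ : L.BoundedFormula Empty n), ψ.IsQF →
  ∃ D : Set (At (sgL L) (Fin (n + 1))), D.Finite ∧ ∀ (M N : Type) (A : L.Structure M)
    (B : L.Structure N) (v : Fin (n + 1) → M) (v' : Fin (n + 1) → N),
    (∀ a ∈ D, Tr (sy A) v a ↔ Tr (sy B) v' a) →
    (@FirstOrder.Language.BoundedFormula.Realize L M A Empty n ψ default (v ∘ Fin.castSucc) ↔
      @FirstOrder.Language.BoundedFormula.Realize L N B Empty n ψ default (v' ∘ Fin.castSucc))

/-- [UTU] (0.6 h; uses `St_QFL`) The models of a universal theory form a universal class.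

Proof. `ne` is clear. `loc`: let `S` have the patterns. (1) The constant symbols are constant
functions: for `c` and `x y : M` the pattern of `![x, y]` with the atom
`.eq ([inl c], 0) ([inl c], 1)` is true in all `sy B`, so `S.fn (inl c) x = S.fn (inl c) y`. Let `A`
be the structure with `funMap c _ := S.fn (inl c) x₀` (arity 0), `S.fn (inr g) (v 0)` (arity 1; by
`match n`), `RelMap R v := S.rel ⟨n, R⟩ v`. Then `S = sy A` (`![x]` and `v` with `v 0 = x` are
equal). (2) `A ⊨ φ` for every `φ ∈ T`: show by induction on `IsUniversal` for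
`φ : L.BoundedFormula Empty n`: if for some `v : Fin n → M` (`x₀ : M`) `φ` is false in `A` at `v`,
then there is a finite set `D` of atoms in `Fin (m + 1)`, for some `m ≥ n`, and a tuple
`u : Fin (m + 1) → M` extending `v` such that in every `B`, `u'` with the same pattern on `D` the
formula `φ` is false at the restriction of `u'`. Simpler: prove for universal `φ` in `n` variables:
`∀ v, ¬ φ.Realize v in A → ∃ (m : ℕ) (u : Fin m → M) (j : Fin n → Fin m) (D finite), v = u ∘ j ∧
∀ N B u', (∀ a ∈ D, Tr (sy A) u a ↔ Tr (sy B) u' a) → ¬ φ.Realize (u' ∘ j) in B`. For quantifier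
free `φ` take `u := Fin.snoc v x₀` and `St_QFL`; for `φ.all` take `y` with `¬ φ.Realize (Fin.snoc v
y)` and restrict `j`. For the sentence `φ ∈ T` (`n = 0`) the pattern of `u` occurs in a member
`sy B`, `B ⊨ T`, contradiction. -/
def St_UTU : Prop := ∀ (L : FirstOrder.Language.{0, 0}), (∀ n, IsEmpty (L.Functions (n + 2))) →
  ∀ T : L.Theory, (∀ φ ∈ T, FirstOrder.Language.BoundedFormula.IsUniversal φ) → IsU (UT T)

/-- [FNU] (0.7 h; uses `St_UTU`, `St_DCH`) The theorem for universal theories, in the form of
`S14759`.

Proof. Apply `St_DCH` to `G := sgL L`, `U := UT T` (`UT T` is universal by `St_UTU`; `G.Fn`, `G.Rl`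
are countable because `L.Symbols` is: the maps to `L.Symbols` are injective; the finiteness
hypothesis is the same set up to the map `R ↦ ⟨R.1, R.2⟩`).
Isomorphisms: for `A B : L.Structure ℕ`: `Iso (WS (sy A)) (WS (sy B)) ↔ Nonempty (L.Equiv ..)`:
a bijection `e` which preserves all atoms preserves relations (`.rel R fun k => ([], k)`) and the
functions (`.eq ([f], 0) ([], 1)`), and conversely an isomorphism preserves words and atoms.
Countable case: `g : ℕ → (LW G).Structure ℕ`; for every `n` let `g' n := A` for some model `A` of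
`T` with `Iso (WS (sy A)) (g n)` if there is one, and arbitrary otherwise (`L.Structure ℕ` may be
empty if .. it is not: all functions `0`, all relations false). Perfect case: `f x = WS (sy (A x))`
by choice; `RelMap` in `A x` is the fact `.rel ⟨n, R⟩ ..` of `f x`, clopen; for functions of arity
0, 1: `{x | funMap F a = b}` is the fact `.eq ([F], 0) ([], 1)` at `![b, b]` or `![a 0, b]`, clopen
so open; there are no others. -/
def St_FNU : Prop := ∀ (L : FirstOrder.Language.{0, 0}), Countable L.Symbols →
  (∀ n, IsEmpty (L.Functions (n + 2))) →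
  {R : (n : ℕ) × L.Relations n | 2 ≤ R.1}.Finite → ∀ T : L.Theory,
  (∀ φ ∈ T, FirstOrder.Language.BoundedFormula.IsUniversal φ) →
      (∃ g : ℕ → L.Structure ℕ, ∀ S : L.Structure ℕ,
          @FirstOrder.Language.Theory.Model L ℕ S T →
            ∃ n : ℕ, Nonempty (@FirstOrder.Language.Equiv L ℕ ℕ S (g n))) ∨
      (∃ f : (ℕ → Bool) → L.Structure ℕ,
          (∀ x : ℕ → Bool, @FirstOrder.Language.Theory.Model L ℕ (f x) T) ∧
          (∀ x y : ℕ → Bool,
              Nonempty (@FirstOrder.Language.Equiv L ℕ ℕ (f x) (f y)) → x = y) ∧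
          (∀ (n : ℕ) (R : L.Relations n) (a : Fin n → ℕ),
              IsClopen {x : ℕ → Bool | @FirstOrder.Language.Structure.RelMap L ℕ (f x) n R a}) ∧
          (∀ (n : ℕ) (F : L.Functions n) (a : Fin n → ℕ) (b : ℕ),
              IsOpen {x : ℕ → Bool | @FirstOrder.Language.Structure.funMap L ℕ (f x) n F a = b}))

end UN
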