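import Pool.Agent.UN.StB

/-!
# UN, statements C: independent families of limits

Conventions as in `StA.lean`, `StB.lean`. `PR S u f S' e x`: over the system `S` the family `x` of an
extension `S'` consists of independent limits: the type of `x t` over `S` and all the other `x s` is
the limit of `f t` along `u t`.
-/

set_option autoImplicit false
set_option linter.unusedVariables false

namespace UN

open Set Filter Pool.Agent.Helper5.DU Pool.Agent.Helper6.Str Pool.Agent.Helper79.VC
  Pool.Agent.Helper97.LO Pool.Agent.Helper97.VC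

section

variable {G : Sg} {M N T Y ι : Type}

/-- the property of choices `y` given by an atom over `S` and the limits -/
def QA (S : Sys G M) (f : T → Y → ι → M) (a : At G (M ⊕ T × ι)) (y : T → Y) : Prop :=
  Tr S (Sum.elim id fun v : T × ι => f v.1 (y v.1) v.2) a

open Classical in
/-- independent limits -/
structure PR (S : Sys G M) (u : T → Ultrafilter Y) (f : T → Y → ι → M) (S' : Sys G N)
    (e : M → N) (x : T → ι → N) : Prop where
  emb : Eqv S id S' e
  lim : ∀ (a : At G (M ⊕ T × ι)) (t : T),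
    Tr S' (Sum.elim e fun v : T × ι => x v.1 v.2) a ↔ ∀ᶠ y in (u t : Filter Y),
      Tr S' (Sum.elim e fun v : T × ι => Function.update x t (fun r => e (f t y r)) v.1 v.2) a

/-- a nonprincipal limit: every coordinate avoids every element -/
def NP (u : Ultrafilter Y) (f : Y → ι → M) : Prop := ∀ r m, ∀ᶠ y in (u : Filter Y), f y r ≠ m

end

/-- limits of atoms commute in the members of the class (the conclusion of `St_COM`) -/
def Cmt {G : Sg} (U : ∀ M : Type, Sys G M → Prop) : Prop :=
  ∀ (M : Type) (S : Sys G M), U M S →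
  ∀ (X Y ι κ : Type) (u : Ultrafilter X) (v : Ultrafilter Y) (f : X → ι → M) (g : Y → κ → M)
    (a : At G (M ⊕ (ι ⊕ κ))),
  ((∀ᶠ x in (u : Filter X), ∀ᶠ y in (v : Filter Y),
      Tr S (Sum.elim id (Sum.elim (f x) (g y))) a) ↔
    ∀ᶠ y in (v : Filter Y), ∀ᶠ x in (u : Filter X),
      Tr S (Sum.elim id (Sum.elim (f x) (g y))) a)

open Classical in
/-- [QLR] (0.8 h; uses `St_UPR`) Iterated limits are realised in an extension.

Proof. Induction on `l`. `l = []`: `N := M`, `e := id`, `x` arbitrary (e.g. `f t y` for a fixed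
`y`; if `Y` is empty then there is no `y`, and `T → Y` is empty or `T` is empty; take
`x t r := Classical.arbitrary M`, `IsU.ne`). `t :: l`: the induction hypothesis gives
`N', S', e', x'`. `St_UPR` for `N'`, `S'`, `X := Y`, `u t` gives `N, S'', q`. Let
`e m := q fun _ => e' m`, `x s b := q fun z => if s = t then e' (f t z b) else x' s b`. For `a`, `y`:
`QL u (QA S f a) (t :: l) y` is `∀ᶠ z in u t, QL u (QA S f a) l (update y t z)`, by the induction
hypothesis `∀ᶠ z in u t, Tr S' (Sum.elim e' fun v => if v.1 ∈ l then x' v.1 v.2 else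
e' (f v.1 (update y t z v.1) v.2)) a`, which is `Tr S'' (fun i => q (w i)) a` with
`w (Sum.inl m) z := e' m`, `w (Sum.inr v) z := ` the expression in the last formula. Now
`q (w (Sum.inr v))` is `x v.1 v.2` if `v.1 ∈ t :: l` (note `t ∉ l`), and `e (f v.1 (y v.1) v.2)`
otherwise. -/
def St_QLR : Prop := ∀ (G : Sg) (U : ∀ M : Type, Sys G M → Prop) (M : Type) (S : Sys G M),
  IsU U → U M S → ∀ (T Y ι : Type) (u : T → Ultrafilter Y) (f : T → Y → ι → M) (l : List T),
  l.Nodup → ∃ (N : Type) (S' : Sys G N) (e : M → N) (x : T → ι → N), U N S' ∧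
    ∀ (a : At G (M ⊕ T × ι)) (y : T → Y), QL u (QA S f a) l y ↔
      Tr S' (Sum.elim e fun v : T × ι =>
        if v.1 ∈ l then x v.1 v.2 else e (f v.1 (y v.1) v.2)) a

/-- [QLP] (0.7 h; uses `St_QLR`) Iterated limits of atoms do not depend on the order.

Proof. Induction on `List.Perm` (with `l.Nodup` generalized; for `trans` use `List.Perm.nodup_iff`).
`nil`: trivial. `cons t`: `Filter.eventually_congr` and the induction hypothesis for `update y t z`.
`swap`: the lists are `s :: t :: l` and `t :: s :: l` with `s ≠ t`, `s, t ∉ l`. `St_QLR` for `l`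
(`l.Nodup`) gives `N, S', e, x`. Let `a'` be the atom over `N ⊕ (ι ⊕ ι)` obtained from `a` by
replacing the variable `Sum.inl m` by `Sum.inl (e m)`, `Sum.inr (s, b)` by `Sum.inr (Sum.inl b)`,
`Sum.inr (t, b)` by `Sum.inr (Sum.inr b)`, `Sum.inr (t', b)` by `Sum.inl (x t' b)` for `t' ∈ l` and
by `Sum.inl (e (f t' (y t') b))` for all other `t'` (`At.map`). Then
`QL u (QA S f a) l (update (update y s z) t z') ↔ Tr S' (Sum.elim id (Sum.elim (e ∘ f s z)
(e ∘ f t z'))) a'`, and the same for the other order of the updates. `Cmt U` for `S'`, `u s`,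
`u t`. -/
def St_QLP : Prop := ∀ (G : Sg) (U : ∀ M : Type, Sys G M → Prop),
  IsU U → Cmt U → ∀ (M : Type) (S : Sys G M), U M S →
  ∀ (T Y ι : Type) (u : T → Ultrafilter Y) (f : T → Y → ι → M) (l l' : List T),
  l.Nodup → l.Perm l' → ∀ (a : At G (M ⊕ T × ι)) (y : T → Y),
  (QL u (QA S f a) l y ↔ QL u (QA S f a) l' y)

/-- [MPR] (1.2 h; uses `St_LIM`, `St_QLB`, `St_QLP`) Existence of independent limits.

Proof. If `T` is empty: `N := M`, `e := id`. Otherwise `Y` is nonempty (`Ultrafilter` on an empty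
type does not exist: `Ultrafilter.neBot`, `Filter.nonempty_of_neBot`), fix `y₀ : T → Y`. For
`a : At G (M ⊕ T × ι)` let `F a : Finset T` be the set of the `t` with `Sum.inr (t, r) ∈ a.vs` for
some `r`; `QA S f a y` depends only on `y` on `F a` (`Tr_congr`). Let
`Θ a := QL u (QA S f a) (F a).toList y₀`.
(1) `Θ a ↔ QL u (QA S f a) l y` for every list `l` without duplicates containing `F a`, and every
`y`: by `St_QLB` (6) `l` may be replaced by `l.filter (· ∈ F a)`, which is a permutation of
`(F a).toList` (`List.perm_ext_iff_of_nodup`), `St_QLP`; it does not depend on `y` because all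
coordinates of `F a` are updated (if `y = y'` outside of `l` then `QL u Q l y ↔ QL u Q l y'`, by
induction on `l`; and if `Q` depends only on the elements of `l`, `QL u Q l y ↔ QL u Q l y'` for all
`y y'`).
(2) Finite satisfiability: for `D` finite let `l` be the list of the elements of the union of the
`F a`, `a ∈ D`. By `St_QLB` (1), (2), (3), (5) `QL u (fun y => ∀ a ∈ D, (Θ a ↔ QA S f a y)) l y₀`, so
there is `y` with `Θ a ↔ QA S f a y` for all `a ∈ D`; `v (t, r) := f t (y t) r`. `St_LIM` gives `N`,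
`S'`, `e`, `v`; `x t r := v (t, r)`.
(3) `emb`: `Tr S' e b ↔ Tr S' (Sum.elim e v) (b.map Sum.inl) ↔ Θ (b.map Sum.inl) ↔ Tr S id b`,
because `F (b.map Sum.inl) = ∅`.
(4) `lim`: for `y : Y` let `a_y` be `a` with the variables `Sum.inr (t, r)` replaced by
`Sum.inl (f t y r)`. Then `Tr S' (Sum.elim e (update ..)) a ↔ Tr S' (Sum.elim e x) a_y ↔ Θ a_y`, and
`QA S f a_y y' ↔ QA S f a (update y' t y)`. Let `l` be the list of `(F a).erase t`. By (1)
`Θ a ↔ QL u (QA S f a) (t :: l) y₀ ↔ ∀ᶠ y in u t, QL u (QA S f a) l (update y₀ t y)`, and by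
`St_QLB` (8), (5) `QL u (QA S f a) l (update y₀ t y) ↔ QL u (QA S f a_y) l y₀ ↔ Θ a_y` (by (1), as
`F a_y ⊆ (F a).erase t`). -/
def St_MPR : Prop := ∀ (G : Sg) (U : ∀ M : Type, Sys G M → Prop),
  IsU U → Cmt U → ∀ (M : Type) (S : Sys G M), U M S →
  ∀ (T Y ι : Type) (u : T → Ultrafilter Y) (f : T → Y → ι → M),
  ∃ (N : Type) (S' : Sys G N) (e : M → N) (x : T → ι → N), U N S' ∧ PR S u f S' e x

/-- [PRQ] (0.6 h; no other module) Independent limits and iterated limits.

Proof. By induction on the list `l` show, for all `a` and `y`, with `E := {t | t ∈ l}`: if all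
variables `Sum.inr (t, r)` of `a` satisfy `t ∈ l`, then the claim. `l = []`: `a` has no variables
in `Sum.inr`, so both sides are `Tr S id b`, `a = b.map Sum.inl` (`Tr_congr`; `PR.emb`).
`t :: l`: `PR.lim a t` and for every `z : Y` the atom `a_z` (replace `Sum.inr (t, r)` by
`Sum.inl (f t z r)`): `Tr S' (Sum.elim e (update ..)) a ↔ Tr S' (Sum.elim e x) a_z ↔
QL u (QA S f a_z) l y`, and this is `QL u (QA S f a) l (update y t z)`, since
`QA S f a_z y' ↔ QA S f a (update y' t z)` and `t ∉ l` (as `St_QLB` (8), (5): prove it directly by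
induction on `l`). -/
def St_PRQ : Prop := ∀ (G : Sg) (M N T Y ι : Type) (S : Sys G M) (u : T → Ultrafilter Y)
  (f : T → Y → ι → M) (S' : Sys G N) (e : M → N) (x : T → ι → N), PR S u f S' e x →
  ∀ (l : List T) (a : At G (M ⊕ T × ι)) (y : T → Y), l.Nodup →
  (∀ t r, Sum.inr (t, r) ∈ a.vs → t ∈ l) →
  (Tr S' (Sum.elim e fun v : T × ι => x v.1 v.2) a ↔ QL u (QA S f a) l y)

/-- [PRI] (0.8 h; no other module) Uniqueness and symmetry of independent limits.

Proof. Let `a` be an atom over `M ⊕ V`. Induction on the number `n` of elements of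
`{t v | Sum.inr v ∈ a.vs}` (for all `a`). `n = 0`: `a` has no variables in `Sum.inr`; both sides are
`Tr S id b` by `PR.emb`. Otherwise let `t₀ = t v₀`, `t₀' = t' v₀` with `Sum.inr v₀ ∈ a.vs`, so
`t v = t₀ ↔ t' v = t₀'`. `PR.lim` at `t₀` for `S'` (for the atom `a.map (Sum.map id fun v => (t v,
r v))`): `Tr S' (Sum.elim e fun v => x (t v) (r v)) a ↔ ∀ᶠ y in u t₀, Tr S' (..) a_y`, where `a_y` is
`a` with the variables `Sum.inr v`, `t v = t₀`, replaced by `Sum.inl (f t₀ y (r v))`. The same for
`S''` at `t₀'`, with `u' t₀' = u t₀`, `f' t₀' = f t₀`, so the same atoms `a_y`; and `a_y` has fewer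
values `t v` (classical `if`). Use the induction hypothesis for `a_y`. -/
def St_PRI : Prop := ∀ (G : Sg) (M N N' T T' Y ι V : Type) (S : Sys G M)
  (u : T → Ultrafilter Y) (f : T → Y → ι → M) (u' : T' → Ultrafilter Y) (f' : T' → Y → ι → M)
  (S' : Sys G N) (e : M → N) (x : T → ι → N) (S'' : Sys G N') (e' : M → N') (x' : T' → ι → N'),
  PR S u f S' e x → PR S u' f' S'' e' x' → ∀ (t : V → T) (t' : V → T') (r : V → ι),
  (∀ v v', t v = t v' ↔ t' v = t' v') → (∀ v, u' (t' v) = u (t v)) →
  (∀ v, f' (t' v) = f (t v)) →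
  Eqv S' (Sum.elim e fun v => x (t v) (r v)) S'' (Sum.elim e' fun v => x' (t' v) (r v))

/-- [PRE] (0.8 h; uses `St_PRQ`, `St_QLB`) Families which have the same type over some parameters for
all choices have the same type over them in the limit.

Proof. Let `a` be an atom over `P ⊕ V`, `b := a.map (Sum.elim (fun i => Sum.inl (c i)) fun v =>
Sum.inr (t v, r v))` over `M ⊕ T × ι`, `b'` the same with `r'`, `l` the list of the finite set
`{t v | Sum.inr v ∈ a.vs}` without duplicates. If there is no `y : T → Y` then `T` is nonempty and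
`Y` empty, impossible as in `St_MPR` (if `T` is empty there is one). By `St_PRQ` it is enough that
`QL u (QA S f b) l y ↔ QL u (QA S f b') l y`.
(1) `QL u (fun y => InjOn y {t | t ∈ l}) l y`: more generally for a finite set `E` with `E ∩ l = ∅`,
`y` injective on `E`: `QL u (fun y => InjOn y (E ∪ l)) l y`, by induction on `l`: for `t :: l`,
`∀ᶠ z in u t, z ∉ y '' E` (finitely many conditions), and for such `z` `update y t z` is injective
on `insert t E`.
(2) For `y` injective on `l`: `QA S f b y ↔ QA S f b' y` by the hypothesis with `E := {t | t ∈ l}`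
(all `v` with `Sum.inr v ∈ a.vs` satisfy `t v ∈ E`; use `At.exists_sub` for the set of the
`Sum.inl i` and the `Sum.inr v`, `t v ∈ E`). By `St_QLB` (2), (5): `QL Q ↔ QL (Q ∧ InjOn)` for
`Q = QA S f b` and `QA S f b'`. -/
def St_PRE : Prop := ∀ (G : Sg) (M N T Y ι V P : Type) (S : Sys G M) (u : T → Ultrafilter Y)
  (f : T → Y → ι → M) (S' : Sys G N) (e : M → N) (x : T → ι → N), PR S u f S' e x →
  (∀ t y, ∀ᶠ z in (u t : Filter Y), z ≠ y) → ∀ (c : P → M) (t : V → T) (r r' : V → ι),
  (∀ (E : Set T) (y : T → Y), E.Finite → InjOn y E →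
    Eqv S (Sum.elim c fun v : {v // t v ∈ E} => f (t v) (y (t v)) (r v))
      S (Sum.elim c fun v : {v // t v ∈ E} => f (t v) (y (t v)) (r' v))) →
  Eqv S' (Sum.elim (e ∘ c) fun v => x (t v) (r v)) S' (Sum.elim (e ∘ c) fun v => x (t v) (r' v))

/-- [PRF] (0.7 h; no other module) One and two limits; freeness.

Proof. (1) `PR.lim` at `t` for `a.map (Sum.map id fun r => (t, r))`, then `PR.emb` for the atom over
`M` (`Sum.inl m ↦ m`, `Sum.inr r ↦ f t y r`): `Tr S' (Sum.elim e fun r => e (f t y r)) a ↔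
Tr S (Sum.elim id (f t y)) a` (both are the image of `e` resp. `id` under the map
`Sum.elim id (f t y)` of variables, `Eqv.comp'`). (2) the same at `s` and then at `t`.
(3) Let `x t r = e m`: by (1) for the atom `x t r = m`: `∀ᶠ y in u t, f t y r = m`, against `NP`.
(4) `Gn S' (e m) (x t r)`: `x t r = S'.w l (e m) = e (S.w l m)` by `PR.emb` (`Eqv.w_eq` for the
family `e` and the elements `m`, `S.w l m`), against (3). (5) `Gn S' (x s r') (x t r)`, `s ≠ t`,
`x t r = S'.w l (x s r')`: `PR.lim` at `s` for this atom gives some `y : Y` with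
`x t r = S'.w l (e (f s y r'))`, against (4). -/
def St_PRF : Prop := ∀ (G : Sg) (M N T Y ι : Type) (S : Sys G M) (u : T → Ultrafilter Y)
  (f : T → Y → ι → M) (S' : Sys G N) (e : M → N) (x : T → ι → N), PR S u f S' e x →
  (∀ (t : T) (a : At G (M ⊕ ι)), Tr S' (Sum.elim e (x t)) a ↔
    ∀ᶠ y in (u t : Filter Y), Tr S (Sum.elim id (f t y)) a) ∧
  (∀ (s t : T) (a : At G (M ⊕ (ι ⊕ ι))), s ≠ t →
    (Tr S' (Sum.elim e (Sum.elim (x s) (x t))) a ↔ ∀ᶠ y in (u s : Filter Y),
      ∀ᶠ z in (u t : Filter Y), Tr S (Sum.elim id (Sum.elim (f s y) (f t z))) a)) ∧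
  (∀ t, NP (u t) (f t) → ∀ r, (∀ m, ¬ Gn S' (e m) (x t r)) ∧
    ∀ s r', s ≠ t → ¬ Gn S' (x s r') (x t r))

end UN
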