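import Pool.Agent.UN.StC

/-!
# UN, statements D: the wreath lemma

Tree configurations: elements `g k b`, `k : ℕ`, `b` a label: `Sum.inl e` (`e : κ`) or
`Sum.inr (n, r)` (`n : ℕ`, `r : ι`). The numbers `k` can be permuted, and for every `k` the numbers
`n`. `Mg S x y`: mutual generation. Conventions as in the other files.
-/

set_option autoImplicit false
set_option linter.unusedVariables false

namespace UN

open Set Filter Pool.Agent.Helper5.DU Pool.Agent.Helper6.Str Pool.Agent.Helper79.VC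
  Pool.Agent.Helper97.LO Pool.Agent.Helper97.VC

section

variable {G : Sg} {M N P V Z κ ι : Type}

/-- labels -/
abbrev La (κ ι : Type) := κ ⊕ ℕ × ι

/-- the kind of a label -/
def kd (b : La κ ι) : κ ⊕ ι := Sum.map id Prod.snd b

/-- the number of a label (`0` for `Sum.inl e`) -/
def nm (b : La κ ι) : ℕ := Sum.elim (fun _ => 0) Prod.fst b

/-- the label of kind `c` with the number `n` -/
def lbl (n : ℕ) (c : κ ⊕ ι) : La κ ι := Sum.map id (fun r => (n, r)) c

/-- tree isomorphic families of positions -/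
def TI (h h' : V → ℕ × La κ ι) : Prop :=
  (∀ v v', (h v).1 = (h v').1 ↔ (h' v).1 = (h' v').1) ∧ (∀ v, kd (h v).2 = kd (h' v).2) ∧
  ∀ v v', (h v).1 = (h v').1 → (∃ r, kd (h v).2 = Sum.inr r) → (∃ r, kd (h v').2 = Sum.inr r) →
    (nm (h v).2 = nm (h v').2 ↔ nm (h' v).2 = nm (h' v').2)

/-- tree isomorphic families of positions have the same type over the parameters -/
def Sym (S : Sys G M) (p : P → M) (g : ℕ → La κ ι → M) : Prop :=
  ∀ (V : Type) (h h' : V → ℕ × La κ ι), TI h h' →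
    Eqv S (Sum.elim p fun v => g (h v).1 (h v).2) S (Sum.elim p fun v => g (h' v).1 (h' v).2)

/-- the family with the part `κ` at `k` and the part `ι` at `l` with number `n` -/
def mx (g : ℕ → La κ ι → M) (k l n : ℕ) : κ ⊕ ι → M :=
  Sum.elim (fun e => g k (Sum.inl e)) (fun r => g l (Sum.inr (n, r)))

/-- Tree configurations: the elements `g k (Sum.inr (n, r))` are generated only by elements with the
same `k`, `n`, and the atom `a` separates `mx g k k n` and `mx g k l n`. -/
structure TCf (U : ∀ M : Type, Sys G M → Prop) (S : Sys G M) (p : P → M)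
    (g : ℕ → La κ ι → M) (a : At G (P ⊕ (κ ⊕ ι))) : Prop where
  mem : U M S
  finP : Finite P
  fin₁ : Finite κ
  fin₂ : Finite ι
  sym : Sym S p g
  fre₁ : ∀ k n r c, ¬ Gn S (p c) (g k (Sum.inr (n, r)))
  fre₂ : ∀ k n r l b, (∀ r', (l, b) ≠ (k, Sum.inr (n, r'))) → ¬ Gn S (g l b) (g k (Sum.inr (n, r)))
  dif : ∀ k l n, k ≠ l →
    ¬ (Tr S (Sum.elim p (mx g k k n)) a ↔ Tr S (Sum.elim p (mx g k l n)) a)

/-- there is a tree configuration with `n` rows -/
def TC (U : ∀ M : Type, Sys G M → Prop) (n : ℕ) : Prop :=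
  ∃ (M : Type) (S : Sys G M) (P κ ι : Type) (p : P → M) (g : ℕ → La κ ι → M)
    (a : At G (P ⊕ (κ ⊕ ι))), TCf U S p g a ∧ Nat.card κ + Nat.card ι = n

/-- reduced: no superfluous rows -/
structure Rdc (S : Sys G M) (p : P → M) (g : ℕ → La κ ι → M) : Prop where
  xp : ∀ k n r c, ¬ Gn S (p c) (g k (Sum.inr (n, r)))
  xg : ∀ k n r l b, (l, b) ≠ (k, Sum.inr (n, r)) → ¬ Gn S (g l b) (g k (Sum.inr (n, r)))
  bp : ∀ k e c, ¬ Gn S (p c) (g k (Sum.inl e))
  bg : ∀ k e l b, l ≠ k → ¬ Gn S (g l b) (g k (Sum.inl e))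
  bb : ∀ k e e', e' ≠ e → ¬ Gn S (g k (Sum.inl e')) (g k (Sum.inl e))

/-! ## Components -/

/-- `v` is reached from `u` by links and mutual generation, through maximal elements -/
def Cn (S : Sys G M) (X : Set M) (q : P → M) (Lk : Set M → M → M → Prop) (u v : M) : Prop :=
  Relation.ReflTransGen (fun x y => Mx S X q y ∧ (Lk X x y ∨ Mg S x y)) u v

/-- the component of `u` has `n` elements up to mutual generation -/
def Cz (S : Sys G M) (X : Set M) (q : P → M) (Lk : Set M → M → M → Prop) (u : M) (n : ℕ) : Prop :=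
  ∃ t : Fin n → M, (∀ i, Cn S X q Lk u (t i)) ∧ (∀ i j, i ≠ j → ¬ Mg S (t i) (t j)) ∧
    ∀ v, Cn S X q Lk u v → ∃ i, Mg S v (t i)

/-- the relation `Lk` between maximal elements is visible and respects mutual generation -/
structure VLk (S : Sys G M) (q : P → M) (Lk : Set M → M → M → Prop) (κ : Ordinal.{0}) :
    Prop where
  vis : ∀ (X X' : Set M) (π : Set (M × M)), Cl S X → Cl S X' → BW S S X X' κ π →
    prs q q ⊆ π → ∀ a ∈ π, ∀ b ∈ π, Mx S X q a.1 → Mx S X' q a.2 → Mx S X q b.1 →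
    Mx S X' q b.2 → (Lk X a.1 b.1 ↔ Lk X' a.2 b.2)
  inv : ∀ (X : Set M) (u v u' v' : M), Mx S X q u → Mx S X q v → Mx S X q u' → Mx S X q v' →
    Mg S u u' → Mg S v v' → Lk X u v → Lk X u' v'

/-! ## Marks and irreducible families -/

/-- the parameters and the elements at the positions with index and number below `D` -/
def QT (p : P → M) (g : ℕ → La κ ι → M) (D : ℕ) :
    P ⊕ {v : ℕ × La κ ι // v.1 < D ∧ nm v.2 < D} → M :=
  Sum.elim p fun v => g v.1.1 v.1.2

/-- visible independence of the parts `X` and `Z \ X` of the family `z`: the part outside of `X` can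
be replaced by elements generated by the marks with index in `[d, D)`, without changing the type
over the marks with index below `d` -/
def VI (S : Sys G M) (p : P → M) (g : ℕ → La κ ι → M) (d D : ℕ) (z : Z → M) (X : Set Z) : Prop :=
  ∃ y : Z → M, (∀ i ∈ X, y i = z i) ∧
    (∀ i ∉ X, ∃ k b, d ≤ k ∧ k < D ∧ nm b < D ∧ Gn S (g k b) (y i)) ∧
    Eqv S (Sum.elim (QT p g d) z) S (Sum.elim (QT p g d) y)

/-- irreducible families -/
def Irr (S : Sys G M) (p : P → M) (g : ℕ → La κ ι → M) (d D : ℕ) (z : Z → M) : Prop :=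
  ∀ X : Set Z, VI S p g d D z X → X = ∅ ∨ X = univ

/-- the class has the wreath property: if all `f i` are nonprincipal along `u i`, then an atom does
not distinguish the pairs `b i`, limit of `f i` and the pairs `b j`, limit of `f i` -/
def Wre (U : ∀ M : Type, Sys G M → Prop) : Prop :=
  ∀ (M : Type) (S : Sys G M), U M S → ∀ (Y ι κ : Type) (W : Ultrafilter ℕ) (b : ℕ → κ → M)
    (u : ℕ → Ultrafilter Y) (f : ℕ → Y → ι → M) (a : At G (M ⊕ (κ ⊕ ι))),
  (∀ i, ∀ᶠ j in (W : Filter ℕ), j ≠ i) → (∀ i, NP (u i) (f i)) →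
  ((∀ᶠ i in (W : Filter ℕ), ∀ᶠ y in (u i : Filter Y),
      Tr S (Sum.elim id (Sum.elim (b i) (f i y))) a) ↔
    ∀ᶠ i in (W : Filter ℕ), ∀ᶠ j in (W : Filter ℕ), ∀ᶠ y in (u i : Filter Y),
      Tr S (Sum.elim id (Sum.elim (b j) (f i y))) a)

end

/-- [TRD] (1.5 h; no other module) Minimal tree configurations are reduced.

Proof. In each of the following cases we find a configuration with fewer rows.
(1) `xg` fails: `Gn S (g l b) (g k (inr (n, r)))`, `(l, b) ≠ (k, inr (n, r))`. By `fre₂`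
`(l, b) = (k, inr (n, r'))`, `r' ≠ r`; let `w` be the word. By `Sym` (two positions) for all `k n`:
`g k (inr (n, r)) = S.w w (g k (inr (n, r')))`. New `ι' := {x // x ≠ r}`, `g'` the restriction, in
the atom the variable `r` is replaced by the word `w` of `r'` (`At.sub`). `sym`: labels are included,
`TI` is preserved.
(2) `bg` fails: `g k (inl e) = S.w w (g l b)`, `l ≠ k`. By `Sym` for all `k' ≠ l'` and all `b'` of the
same kind as `b`: `g k' (inl e) = S.w w (g l' b')`. So `g k' (inl e) =: c` does not depend on `k'`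
(for `k', k''` take `l'` different from both). New parameters `Option P`, `none ↦ c`, new
`κ' := {x // x ≠ e}`; in the atom the variable `e` becomes the parameter `none`. `sym`: by
`Eqv.of_finite` it is enough to consider finite families of positions `h, h'`; choose `l₀` outside
of the indices of `h` and `l₀'` outside of those of `h'`; `c = S.w w (g l₀ b) = S.w w (g l₀' b)`; the
families `h`, `(l₀, b)` and `h'`, `(l₀', b)` are tree isomorphic; `Eqv.words'`. `fre₁` for `c`:
`Gn S c (g k' (inr (n, r)))` would give `Gn S (g l₀ b) (g k' (inr (n, r)))` with `l₀ ≠ k'`, against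
`fre₂`. `dif`: the families `mx` are the same up to the renaming.
(3) `bp` fails: `g k (inl e) = S.w w (p c)`, for all `k` by `Sym`. New `κ' := {x // x ≠ e}`, the
variable `e` is replaced by the word `w` of the parameter `c`.
(4) `bb` fails: `g k (inl e) = S.w w (g k (inl e'))`, for all `k`; `κ'` as before, replace `e` by the
word `w` of `e'`.
`xp` is `fre₁`. (The new type `κ'` or `ι'` has one element less, `Nat.card`.) -/
def St_TRD : Prop := ∀ (G : Sg) (U : ∀ M : Type, Sys G M → Prop) (M P κ ι : Type) (S : Sys G M)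
  (p : P → M) (g : ℕ → La κ ι → M) (a : At G (P ⊕ (κ ⊕ ι))), TCf U S p g a →
  (∀ n < Nat.card κ + Nat.card ι, ¬ TC U n) → Rdc S p g

/-- [CSZ] (0.8 h; uses `St_VMX`) The sizes of the components are visible.

Proof. Let `t : Fin n → M` be as in `Cz`. `u` itself is reached, so `Mg S u (t i₀)` for some `i₀`.
All `t i` are in `X` and maximal: `Mx S X q (t i)` (if `t i = u` by hypothesis, otherwise it is the
end of a step). Play them: `BFR.forth_many` from `κ + ω` (`≥ κ + 1 + n`, use `BFR.mono`) gives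
`t' : Fin n → M` in `X'` with `BW S S X X' (κ + 1) (prs q q ∪ prs t t')`. `Mx S X' q (t' i)` by
`St_VMX`, `¬ Mg S (t' i) (t' j)` by `BW.eqv`, `Eqv.mg`. Let `u' := t' i₀`.
(1) `Cn S X' q Lk u' (t' i)` for all `i`: by induction on a path from `u` to `v` in `X`: if
`Mg S v (t j)` then `Cn S X' q Lk u' (t' j)`. Start: `v = u`: `Mg S u (t j)`, `Mg S u (t i₀)` give
`j = i₀`. Step `v → v'`, `Mg S v' (t j')`: `v` is reached, so `Mg S v (t j)` for some `j`; if
`Mg S v v'`, then `j = j'`; if `Lk X v v'`, then `Lk X (t j) (t j')` (`inv`; `Mx S X q v` holds, as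
above), so `Lk X' (t' j) (t' j')` (`vis`).
(2) If `Cn S X' q Lk u' v'` then `Mg S v' (t' i)` for some `i`: induction on the path. Step
`v' → v''`, `Mg S v' (t' i)`: if `Mg S v' v''` clear. If `Lk X' v' v''`: `Lk X' (t' i) v''` (`inv`);
answer `v''` by `v ∈ X` (`BFR.back`, level `κ`); `Mx S X q v` by `St_VMX` (if `κ = 0` replace `κ`
by a larger level at the beginning: the hypothesis says `1 ≤ κ`), `Lk X (t i) v` by `vis`; so `v` is
reached from `u`, `Mg S v (t j)` for some `j`, so `Mg S v'' (t' j)` (`BW.eqv`, `Eqv.mg`).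
So `t'` shows `Cz S X' q Lk u' n`. -/
def St_CSZ : Prop := ∀ (G : Sg) (M P : Type) (S : Sys G M) (q : P → M)
  (Lk : Set M → M → M → Prop) (κ : Ordinal.{0}) (X X' : Set M), 1 ≤ κ → VLk S q Lk κ →
  Cl S X → Cl S X' → BW S S X X' (κ + Ordinal.omega0) (prs q q) →
  ∀ u n, Mx S X q u → Cz S X q Lk u n → ∃ u', Mx S X' q u' ∧ Cz S X' q Lk u' n

/-- [CSD] (0.4 h; uses `St_CSZ`) The sizes of the components are decoded.

Proof. For `f : ℕ → Bool` let `N f := {2 * k + (if f k then 1 else 0) | k : ℕ}`, infinite. `Pg U`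
for `f ↦ X (N f)`, the constants `q` and the level `κ + ω` (countable: `add_lt_om1`,
`omega_lt_om1`) gives `f ≠ f'`, say `f k ≠ f' k`. Let `m := 2 * k + (if f k then 1 else 0) ∈ N f`;
take `u n` with `Mx`, `Cz`, `n ∈ J m` for `N f`; `St_CSZ` gives `u'` in `X (N f')` with the same `n`;
so `m ∈ N f'`, hence `f' k = f k`. -/
def St_CSD : Prop := ∀ (G : Sg) (U : ∀ M : Type, Sys G M → Prop) (M P : Type) (S : Sys G M)
  (q : P → M) (Lk : Set M → M → M → Prop) (κ : Ordinal.{0}) (X : Set ℕ → Set M)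
  (J : ℕ → Set ℕ), Pg U → U M S → Finite P → κ < om1 → 1 ≤ κ → VLk S q Lk κ →
  (∀ N : Set ℕ, N.Infinite → (X N).Countable ∧ (X N).Infinite ∧ range q ⊆ X N ∧ Cl S (X N)) →
  (∀ N : Set ℕ, N.Infinite → ∀ k ∈ N, ∃ u n, Mx S (X N) q u ∧ Cz S (X N) q Lk u n ∧ n ∈ J k) →
  (∀ N : Set ℕ, N.Infinite → ∀ u n k, Mx S (X N) q u → Cz S (X N) q Lk u n → n ∈ J k → k ∈ N) →
  False

/-- [TC1] (1.2 h; uses `St_VMX`, `St_CSD`) Tree configurations, first case.

Proof. Let `g k (inl e) = S.w w (g k (inr (n, r)))` for one `k`, `n`; by `Sym` for all `k`, `n`. Let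
`q := Sum.elim p (fun _ : Unit => g 0 (inr (0, r)))`,
`X N := cl S (range q ∪ {g (k + 1) (inr (n, r)) | k ∈ N, n < k + 2})`, `J k := {k + 2}`,
`Lk X u v := ∃ y ∈ X, Gn S u y ∧ Gn S v y ∧ ∀ c, ¬ Gn S (q c) y`, level `1`.
`VLk S q Lk 1`: `vis` by playing `y` (`BFR.forth`, `BFR.back`, `BW.eqv`, `Eqv.gn`), `inv` by
`Gn.trans`.
(1) `Mx S (X N) q u ↔ ∃ k ∈ N, ∃ n < k + 2, Mg S u (g (k + 1) (inr (n, r)))`: `→`: `u` is generated by
a generator of `X N`, not by `q`; by maximality they generate each other. `←`: `xp`, `xg`.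
(2) For `k ∈ N`: `Lk (X N)` holds between `g (k + 1) (inr (n, r))` and `g (k + 1) (inr (n', r))`
(`y := g (k + 1) (inl e)`, not generated by `q` by `bp` and `bg`).
(3) If `Gn S (g (k + 1) (inr (n, r))) y` and `Gn S (g (l + 1) (inr (n', r))) y` with `k ≠ l`, by words
`w₁`, `w₂`, then by `Sym` for the positions `(k + 1, inr (n, r)), (l + 1, inr (n', r))` and
`(0, inr (0, r)), (l + 1, inr (n', r))` also `S.w w₁ (g 0 (inr (0, r))) = S.w w₂ (g (l + 1) ..) = y`,
so `y` is generated by `q`. So there are no links between different `k`.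
(4) So for `k ∈ N` and `u` with `Mg S u (g (k + 1) (inr (n, r)))` the elements reached from `u` are the
`v` with `Mg S v (g (k + 1) (inr (n', r)))`, `n' < k + 2`; the family `t i := g (k + 1) (inr (i, r))`,
`i : Fin (k + 2)`, shows `Cz .. u (k + 2)`, and `Cz .. u n'` holds only for `n' = k + 2` (two
families as in `Cz` for the same `u` have the same length: `Mg` gives a bijection). `St_CSD`
(`X N` is countable by `cl_countable` and infinite by `xg`) gives a contradiction. -/
def St_TC1 : Prop := ∀ (G : Sg) (U : ∀ M : Type, Sys G M → Prop) (M P κ ι : Type) (S : Sys G M)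
  (p : P → M) (g : ℕ → La κ ι → M), Countable G.Fn → Pg U → U M S → Finite P → Sym S p g →
  Rdc S p g → ¬ ∃ k n e r, Gn S (g k (Sum.inr (n, r))) (g k (Sum.inl e))

/-- [TMK] (1.5 h; no other module) Marks lemma for trees.

Proof. Let `O` be the family of the elements `g c.1 c.2`, `c.1 ∉ E`, and let `a` be an atom over
`P ⊕ (O ⊕ V)`. The variables of `a` in `O` have at most `d` positions (`a.vs` has at most
`max 2 (ar R) ≤ d` elements), so at most `d` different indices `k ∉ E`, and for each of them at most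
`d` numbers. Choose an injective map `α` of these indices to `{0, .., d - 1}` and for every such
index `k` an injective map `β k` of the numbers of its labels (of kind `inr`) to `{0, .., d - 1}`
(classical; e.g. by `Finset` cardinalities, `Finset.exists_subset..` or an equivalence with
`Fin (card)`). The moved position of `(k, inl e')` is `(α k, inl e')`, of `(k, inr (n, r))` it is
`(α k, inr (β k n, r))`; these are positions of `QT p g d` (`nm (inl _) = 0 < d`).
For `v : V` let `u v = S.w (l v) (p (c v))` or `u v = S.w (l v) (g (k v) (b v))` with `k v ∈ E`,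
`d ≤ k v`. The family of the positions of the `O`-variables and the `(k v, b v)` is tree isomorphic
to the family with the moved positions and the same `(k v, b v)` (`α k < d ≤ k v`, and `k ∉ E`). By
`Sym` and `Eqv.words'`: `Tr (u) a ↔ Tr (u) a'`, where in `a'` the `O`-variables are replaced by
marks (over `P ⊕ marks ⊕ V`); similarly for `u'`, with the same `α`, `β`. By the hypothesis
`Tr (u) a' ↔ Tr (u') a'`. -/
def St_TMK : Prop := ∀ (G : Sg) (M P κ ι V : Type) (S : Sys G M) (p : P → M)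
  (g : ℕ → La κ ι → M) (d : ℕ) (E : Set ℕ) (u u' : V → M), Ard G d → Sym S p g →
  (∀ k ∈ E, d ≤ k) → (∀ v, (∃ c, Gn S (p c) (u v)) ∨ ∃ k ∈ E, ∃ b, Gn S (g k b) (u v)) →
  (∀ v, (∃ c, Gn S (p c) (u' v)) ∨ ∃ k ∈ E, ∃ b, Gn S (g k b) (u' v)) →
  Eqv S (Sum.elim (QT p g d) u) S (Sum.elim (QT p g d) u') →
  Eqv S (Sum.elim p (Sum.elim (fun c : {k : ℕ // k ∉ E} × La κ ι => g c.1 c.2) u))
    S (Sum.elim p (Sum.elim (fun c : {k : ℕ // k ∉ E} × La κ ι => g c.1 c.2) u'))

/-- [IR1] (1.2 h; no other module) Irreducible families live at one index.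

Proof. Suppose `k i₀ ≠ k i₁`. Let `X := {i | k i = k i₀}`, not `∅` and not `univ`; we show
`VI S p g d (d + m) z X`. The indices `k i`, `i ∉ X`, are at most `j - 1 < m` many: choose an
injective map `α` of these indices to `{d, .., d + m - 1}`. For every index `k` choose an injective
map `β k` of the numbers of the labels `b i`, `i ∉ X`, `k i = k`, to `{0, .., m - 1}`. Let `b' i` be
the label of the kind of `b i` with the number `β (k i) (nm (b i))` (if it is of kind `inr`; `b i`
otherwise), `y i := S.w (l i) (g (α (k i)) (b' i))` for `i ∉ X`, `y i := z i` for `i ∈ X`. `Eqv`: the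
families of positions of `QT p g d` (indices `< d`), `(k i, b i)`, `i ∈ X` (index `k i₀ ≥ d + m`)
and `(k i, b i)`, `i ∉ X` (indices `≥ d + m`, different from `k i₀`), resp. `(α (k i), b' i)`
(indices in `[d, d + m)`) are tree isomorphic. `Sym`, `Eqv.words'`. -/
def St_IR1 : Prop := ∀ (G : Sg) (M P κ ι : Type) (S : Sys G M) (p : P → M)
  (g : ℕ → La κ ι → M) (d m j : ℕ) (z : Fin j → M) (l : Fin j → List G.Fn) (k : Fin j → ℕ)
  (b : Fin j → La κ ι), Sym S p g → j ≤ m → (∀ i, z i = S.w (l i) (g (k i) (b i))) →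
  (∀ i, d + m ≤ k i) → Irr S p g d (d + m) z → ∀ i i', k i = k i'

/-- [IR2] (2.5 h; uses `St_TMK`) There is an irreducible family which contains elements of both
kinds.

Proof. For a finite set `Z` of kinds (`Z : Finset (κ ⊕ ι)`), `C ⊆ Z` and `K : κ ⊕ ι → ℕ` let
`z_C^K : C → M`, `c ↦ g (K c) (lbl n c)`, where the number `n` is fixed (by `Sym` nothing depends on
it). All indices are `≥ d`. Write `T_C(K) = T_C(K')` for
`Eqv S (Sum.elim (QT p g d) z_C^K) S (Sum.elim (QT p g d) z_C^K')`. By `Sym`: if `K`, `K'` have values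
`≥ d` and `K c = K c' ↔ K' c = K' c'` on `C`, then `T_C(K) = T_C(K')`. So for partitions of `C` we
may write `T_C(C₁ | C₂ | ..)` for the type with different indices for the parts. (In Lean: `K`
given by numbers `d, d + 1, d + 2, ..` or any distinct ones.)
(SPL) If `C = C₁ ⊔ C₂` and `T_C(C) = T_C(C₁ | C₂)`, then in every partition of `Z` which has `C` as
a part, `C` may be replaced by `C₁ | C₂` without changing `T_Z`: `St_TMK` with `E := {k₁, k₂}`, `u`
the family `C` at `k₁`, `u'` the family `C₁` at `k₁`, `C₂` at `k₂`: they have the same type over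
`p` and all elements with indices outside of `E`; the rest of `Z` and `QT p g d` are among these.
Call `Z` dependent if `T_Z(Z) ≠ T_Z(B | A)`, `B := {c ∈ Z of kind inl}`, `A := {c ∈ Z of kind inr}`.
`univ` is dependent by `dif` (for `k = d`, `l = d + 1`: the atom `a` over `P ⊕ (κ ⊕ ι)`). Let `Z` be
a dependent set with the least number of elements. `B ≠ ∅` and `A ≠ ∅`: otherwise the partition
`B | A` has one part only.
Let `k ≥ D := d + m`, and suppose `VI S p g d D z X` for `z := z_Z^k`, `X ≠ ∅`, `X ≠ univ`, with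
`y`; let `Y` be the complement of `X` in `Z`. Let `E := {k} ∪ [d, D)`, `l := k + 1 ∉ E`. `St_TMK`
for `z`, `y` (for `i ∈ X`: `y i = z i`; for `i ∉ X` `y i` is generated by an element with index in
`[d, D)`): the same type over `p` and all elements with index outside of `E`. In particular, with
`z_X^l` := the part `X` at the index `l`:
 `(QT, z_X^l, z_Y) ~ (QT, z_X^l, y_Y)` (subfamilies), `(QT, z_X^l, y_Y) ~ (QT, z_X, y_Y)` (`Sym`:
exchange `k` and `l`; `y_Y` consists of words of elements with index in `[d, D)`), and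
`(QT, z_X, y_Y) ~ (QT, z_X, z_Y)` (`VI`). So (*) `T_Z(Z) = T_Z(X | Y)`.
Let `X_B := X ∩ B`, `X_A`, `Y_B`, `Y_A`. By minimality `X` and `Y` are not dependent:
`T_X(X) = T_X(X_B | X_A)`, `T_Y(Y) = T_Y(Y_B | Y_A)`. With (SPL):
`T_Z(Z) = T_Z(X | Y) = T_Z(X_B | X_A | Y) = T_Z(X_B | X_A | Y_B | Y_A)`. Restricting (*) to `B` and to
`A` (`Eqv.comp'`): `T_B(B) = T_B(X_B | Y_B)`, `T_A(A) = T_A(X_A | Y_A)`, and with (SPL)
`T_Z(B | A) = T_Z(X_B | Y_B | A) = T_Z(X_B | Y_B | X_A | Y_A)`. So `T_Z(Z) = T_Z(B | A)`,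
contradiction. (Empty parts do no harm.) -/
def St_IR2 : Prop := ∀ (G : Sg) (M P κ ι : Type) (S : Sys G M) (p : P → M)
  (g : ℕ → La κ ι → M) (a : At G (P ⊕ (κ ⊕ ι))) (d m : ℕ), Ard G d → Finite κ → Finite ι →
  Sym S p g → (∀ k l n, k ≠ l →
    ¬ (Tr S (Sum.elim p (mx g k k n)) a ↔ Tr S (Sum.elim p (mx g k l n)) a)) →
  ∃ Z : Set (κ ⊕ ι), (∃ e, Sum.inl e ∈ Z) ∧ (∃ r, Sum.inr r ∈ Z) ∧
    ∀ k n, d + m ≤ k → Irr S p g d (d + m) (fun c : Z => g k (lbl n c))

/-- [IR3] (0.5 h; no other module) Irreducibility depends only on the type over the marks.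

Proof. Show `VI z X → VI z' X` (and exchange `z`, `z'`). Let `y` be given; for `i ∉ X`
`y i = S.w l (g k b)` with `(k, b)` a position of `QT p g D`. Let `y' i := z' i` for `i ∈ X`,
`y' i := y i` for `i ∉ X`. The families `(QT p g d, y)` and `(QT p g d, y')` consist of the same
words of the families `(QT p g D, z)` and `(QT p g D, z')` (as `d ≤ D` the positions of `QT p g d` are
positions of `QT p g D`), so they have the same type (`Eqv.words'`). Hence
`(QT p g d, z') ~ (QT p g d, z) ~ (QT p g d, y) ~ (QT p g d, y')`. -/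
def St_IR3 : Prop := ∀ (G : Sg) (M P κ ι Z : Type) (S : Sys G M) (p : P → M)
  (g : ℕ → La κ ι → M) (d D : ℕ) (z z' : Z → M), d ≤ D →
  Eqv S (Sum.elim (QT p g D) z) S (Sum.elim (QT p g D) z') →
  (Irr S p g d D z ↔ Irr S p g d D z')

/-- [GRS] (0.6 h; no other module) Components of a symmetric graph.

Proof. Let `C` be the component of `x`, i.e. the set of the `y` with `ReflTransGen r x y`; as `r` is
symmetric, `y ∈ C → (z ∈ C ↔ ReflTransGen r y z)`. If two elements `inr (i, c)`, `inr (i', c')` of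
`C` have `i ≠ i'`: for `i'' ≠ i` let `τ := Equiv.swap i' i''`, it fixes `i`, and it maps a path from
`inr (i, c)` to `inr (i', c')` to a path from `inr (i, c)` to `inr (i'', c')`. So `inr (i'', c') ∈ C`
for all `i'' ≠ i`, at least `n - 1` elements. Otherwise all elements `inr (i, c)` of `C` have the same
`i`, and `C.ncard ≤ Nat.card κ + Nat.card ι`. -/
def St_GRS : Prop := ∀ (κ ι : Type) (n : ℕ) (r : κ ⊕ Fin n × ι → κ ⊕ Fin n × ι → Prop),
  Finite κ → Finite ι → (∀ x y, r x y → r y x) →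
  (∀ (τ : Equiv.Perm (Fin n)) (x y : κ ⊕ Fin n × ι), r x y →
    r (Sum.map id (Prod.map τ id) x) (Sum.map id (Prod.map τ id) y)) →
  ∀ x, {y | Relation.ReflTransGen r x y}.ncard ≤ Nat.card κ + Nat.card ι ∨
    n - 1 ≤ {y | Relation.ReflTransGen r x y}.ncard

/-- [TLK] (0.8 h; uses `St_VMX`, `St_IR3`) The link relation is visible.

Proof. `vis`: by symmetry only `→` (`BFR.symm`). Let `j ≤ m`, `z : Fin j → M` be as in the
definition, for `X`. Play `z` by `BFR.forth_many` from the level `ω`: `z' : Fin j → M` in `X'` with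
level `1` left. `Mx S X' q (z' i)` by `St_VMX`. By `BW.eqv` the families `(q, z, a.1, b.1)` and
`(q, z', a.2, b.2)` have the same type: `Irr` for `z'` by `St_IR3` (with `q = QT p g D`), `Mg` by
`Eqv.mg`. `inv`: `Mg.trans`. -/
def St_TLK : Prop := ∀ (G : Sg) (M P κ ι : Type) (S : Sys G M) (p : P → M)
  (g : ℕ → La κ ι → M) (d D m : ℕ), d ≤ D →
  VLk S (QT p g D) (fun X u v => ∃ j ≤ m, ∃ z : Fin j → M, (∀ i, Mx S X (QT p g D) (z i)) ∧
    Irr S p g d D z ∧ (∃ i, Mg S (z i) u) ∧ ∃ i, Mg S (z i) v) Ordinal.omega0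

/-- [TC2] (2.5 h; uses `St_IR1`, `St_IR2`, `St_IR3`, `St_GRS`, `St_TLK`, `St_CSD`) Tree
configurations, second case.

Proof. By `Rdc` and the hypothesis all elements `g k b` form an antichain over `p`: (AC) no `g k b` is
generated by a parameter or by an element at another position. Let `m := Nat.card κ + Nat.card ι`,
`D := d + m`, `q := QT p g D` (finitely many parameters), `c k := (m + 2) ^ (k + 1)`,
`X N := cl S (range q ∪ {g (k + D) b | k ∈ N, nm b < c k})`,
`J k := {n | c k - 1 ≤ n ∧ n ≤ m * c k}`; `m < c k - 1`, and `n ∈ J k`, `n ∈ J k'` imply `k = k'`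
(`m * c k < c (k + 1) - 1`). `Lk` as in `St_TLK`.
(1) `Mx S (X N) q u ↔ ∃ k ∈ N, ∃ b, nm b < c k ∧ Mg S u (g (k + D) b)` (AC).
(2) If `Lk (X N) u v`, `Mg S u (g (k + D) b)`, `Mg S v (g (k' + D) b')`, then `k = k'`: the `z i` of the
link are words of elements `g (k_i + D) b_i` with `Mg S (z i) (g (k_i + D) b_i)`, by `St_IR1` all
`k_i` are equal, and `Mg` between `z i`, `u` and `g (k + D) b` gives `k_i = k` by (AC).
(3) For `k ∈ N`, `n < c k`: `Lk (X N) (g (k + D) (inl e)) (g (k + D) (inr (n, r)))` with `e`, `r` from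
`St_IR2`: `z` is the family `fun c : Z => g (k + D) (lbl n c)` of `St_IR2`, reindexed by `Fin j`,
`j = Nat.card Z ≤ m` (`Irr` is invariant under bijections of the index set).
(4) Let `k ∈ N` and `r_k x y :↔ Lk (X N) (g (k + D) x) (g (k + D) y)` on `κ ⊕ Fin (c k) × ι` (labels
with number `< c k`). It is symmetric. It is invariant under `τ : Perm (Fin (c k))`: if `z i =
S.w (l i) (g (k + D) (b i))` is the family of a link (all indices are `k` by (2), all labels have
numbers `< c k`), let `z' i := S.w (l i) (g (k + D) (τ (b i)))`; by `Sym` (the positions of `QT p g D`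
have indices `< D`) `(q, z, g (k + D) x, g (k + D) y)` and `(q, z', g (k + D) (τ x), g (k + D) (τ y))`
have the same type; `Irr` by `St_IR3`; `Mg S (z' i) (g (k + D) (τ (b i)))`, so `z' i` is maximal by
(1).
(5) For `k ∈ N`, `nm x < c k` the elements reached from `u`, `Mg S u (g (k + D) x)`, are the `v` with
`Mg S v (g (k + D) y)`, `ReflTransGen r_k x y` (`VLk.inv`, (1), (2)). So `Cz S (X N) q Lk u n` iff `n`
is the number of the `y` with `ReflTransGen r_k x y`.
(6) For `k ∈ N` and `u := g (k + D) (inl e)` this number is `≥ c k` by (3) and at most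
`Nat.card κ + c k * Nat.card ι ≤ m * c k`, so it is in `J k`. Conversely if `Cz .. u n`, `n ∈ J k'`,
`Mg S u (g (k + D) x)`, `k ∈ N`: `n ≤ m * c k`, and by `St_GRS` `n ≤ m` (impossible, as
`m < c k' - 1 ≤ n`) or `c k - 1 ≤ n`; so `n ∈ J k`, `k' = k ∈ N`. `St_CSD` gives a contradiction
(`X N` is countable by `cl_countable`, infinite by (AC); `κ` is nonempty by `St_IR2`). -/
def St_TC2 : Prop := ∀ (G : Sg) (U : ∀ M : Type, Sys G M → Prop) (M P κ ι : Type) (S : Sys G M)
  (p : P → M) (g : ℕ → La κ ι → M) (a : At G (P ⊕ (κ ⊕ ι))) (d : ℕ), Countable G.Fn → Ard G d →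
  Pg U → TCf U S p g a → Rdc S p g →
  ∃ k n e r, Gn S (g k (Sum.inr (n, r))) (g k (Sum.inl e))

/-- [WLT] (0.2 h; uses `St_TRD`, `St_TC1`, `St_TC2`) There are no tree configurations.

Proof. Otherwise take the least `n` with `TC U n` (`Nat.find`) and its configuration; it is reduced
by `St_TRD`; `St_TC2` and `St_TC1` contradict each other. -/
def St_WLT : Prop := ∀ (G : Sg) (U : ∀ M : Type, Sys G M → Prop) (d : ℕ),
  Countable G.Fn → Ard G d → Pg U → ∀ n, ¬ TC U n

/-- [WLU] (2 h; uses `St_MPR`, `St_PRI`, `St_PRE`, `St_PRF`, `St_WLT`) The wreath property.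

Proof. Suppose the two sides are different for some data. Let `P' := {m // Sum.inl m ∈ a.vs}`,
`κ' := {c // Sum.inr (Sum.inl c) ∈ a.vs}`, `ι' := {r // Sum.inr (Sum.inr r) ∈ a.vs}`, finite, `a'`
the atom over `P' ⊕ (κ' ⊕ ι')` which gives `a` (`At.exists_sub` and renaming).
Step 1: `St_MPR` for `S`, `T := ℕ × ℕ`, `(i, n) ↦ u i`, `(i, n) ↦ f i` restricted to `ι'`:
`N₁, S₁, e₁, x₁ : ℕ × ℕ → ι' → N₁`. Step 2: let `E i : La κ' ι' → N₁`, `E i (inl c) := e₁ (b i c)`,
`E i (inr (n, r)) := x₁ (i, n) r`. `St_MPR` for `S₁`, `T := ℕ`, `Y := ℕ`, the constant `W`, and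
`fun _ i => E i`: `N₂, S₂, e₂, g : ℕ → La κ' ι' → N₂`. Parameters `p : P' → N₂`, `m ↦ e₂ (e₁ m)`.
We show `TCf U S₂ p g a'`, against `St_WLT`.
`sym`: let `TI h h'`. By `St_PRI` (both extensions `S₂`; `t v := (h v).1`, `t' v := (h' v).1`,
rows `(h v).2`) `(e₂, g (h v).1 (h v).2) ~ (e₂, g (h' v).1 (h v).2)`; by `St_PRE` (`c := e₁`,
`t v := (h' v).1`, rows `(h v).2` and `(h' v).2`) `(e₂ ∘ e₁, g (h' v).1 (h v).2) ~ (e₂ ∘ e₁,
g (h' v).1 (h' v).2)`. The hypothesis of `St_PRE`: `W` is nonprincipal; for `F` finite, `y : ℕ → ℕ`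
injective on `F`: `(e₁, E (y (t v)) (h v).2)_v ~ (e₁, E (y (t v)) (h' v).2)_v` for the `v` with
`t v ∈ F`: if `(h v).2 = inl c = (h' v).2` the elements are `e₁ (b .. c)`, parameters; if
`(h v).2 = inr (n, r)`, `(h' v).2 = inr (n', r)` the elements are `x₁ (y (t v), n) r` and
`x₁ (y (t v), n') r`; use `St_PRI` for `S₁` with the maps `v ↦ (y (t v), n)` and `v ↦ (y (t v), n')`
(they have the same kernel by `TI` and the injectivity of `y`; the limits `u i`, `f i` do not depend
on `n`).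
`fre`: by `St_PRF` (3) for `S₁` and `NP`: (F) `x₁ t r` is not generated by `e₁ m` nor by `x₁ s r'`,
`s ≠ t`. `Gn S₂ (e₂ m) (g k (inr (n, r)))` by the word `l`: `St_PRF` (1) for `S₂`:
`∀ᶠ i in W, x₁ (i, n) r = S₁.w l m`; take two such `i ≠ i'`: `x₁ (i, n) r = x₁ (i', n) r`, against
(F). `Gn S₂ (g l' b') (g k (inr (n, r)))`, `l' ≠ k`: `St_PRF` (2): for `W`-almost all `i`, `j`
(`j ≠ i`): `x₁ (i, n) r = S₁.w l (E j b')`, against (F). `l' = k`, `b'` not of the form
`inr (n, r')`: `St_PRF` (1): `x₁ (i, n) r = S₁.w l (E i b')`, against (F).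
`dif`: `Tr S₂ (Sum.elim p (mx g k k n)) a' ↔ ∀ᶠ i in W, Tr S₁ (e₁, b i, x₁ (i, n)) a' ↔ ∀ᶠ i in W,
∀ᶠ y in u i, Tr S (Sum.elim id (Sum.elim (b i) (f i y))) a` (`St_PRF` (1) twice), and for `k ≠ l`
`Tr S₂ (Sum.elim p (mx g k l n)) a'` (the part `κ` at `k`, the part `ι` at `l`) `↔ ∀ᶠ i in W,
∀ᶠ j in W, Tr S₁ (e₁, b j, x₁ (i, n)) a' ↔ ∀ᶠ i, ∀ᶠ j, ∀ᶠ y in u i, Tr S (.. (b j) (f i y)) a`
(`St_PRF` (2) for `S₂` with first limit at `l`, second at `k`; `St_PRF` (1) for `S₁`). -/
def St_WLU : Prop := ∀ (G : Sg) (U : ∀ M : Type, Sys G M → Prop) (d : ℕ),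
  Countable G.Fn → Ard G d → IsU U → Pg U → Cmt U → Wre U

end UN
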