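import Pool.Agent.UN.StD

/-!
# UN, statements E: the end game

`A` is a countable closed existentially closed subset of a member `S` of the class. Elements outside
of `A`: limits of elements of `A`. Conventions as in the other files; the class has `Cmt U` (limits
commute), `Wre U` (wreath property) and `Pg U` (pigeonhole).
-/

set_option autoImplicit false
set_option linter.unusedVariables false

namespace UN

open Set Filter Pool.Agent.Helper5.DU Pool.Agent.Helper6.Str Pool.Agent.Helper79.VC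
  Pool.Agent.Helper97.LO Pool.Agent.Helper97.VC

section

variable {G : Sg} {M N P V ι κ : Type}

/-- the family of the elements of `A` together with the family `v` -/
abbrev ov (A : Set M) (v : ι → M) : A ⊕ ι → M := Sum.elim (fun x : A => (x : M)) v

/-- existentially closed subsets: finite patterns over `A` which occur in `S` occur in `A` -/
def EC (S : Sys G M) (A : Set M) : Prop :=
  A.Nonempty ∧ ∀ (n : ℕ) (v : Fin n → M) (D : Set (At G (A ⊕ Fin n))), D.Finite →
    ∃ v' : Fin n → M, (∀ i, v' i ∈ A) ∧ ∀ a ∈ D, Tr S (ov A v) a ↔ Tr S (ov A v') a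

/-- `u` is an ultrafilter on families in `A` which converges to the type of `v` over `A` -/
structure Lm (S : Sys G M) (A : Set M) (v : ι → M) (u : Ultrafilter (ι → M)) : Prop where
  mem : ∀ᶠ y in (u : Filter (ι → M)), ∀ i, y i ∈ A
  lim : ∀ a : At G (A ⊕ ι), Tr S (ov A v) a ↔ ∀ᶠ y in (u : Filter (ι → M)), Tr S (ov A y) a

/-- the families `v` and `v'` are independent over `A`: the type of `v` over `A` and `v'` is the limit
of the ultrafilters which converge to the type of `v` over `A` -/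
def Ip (S : Sys G M) (A : Set M) (v : ι → M) (v' : κ → M) : Prop :=
  ∀ u : Ultrafilter (ι → M), Lm S A v u → ∀ a : At G (A ⊕ (ι ⊕ κ)),
    (Tr S (ov A (Sum.elim v v')) a ↔
      ∀ᶠ y in (u : Filter (ι → M)), Tr S (ov A (Sum.elim y v')) a)

/-- independence of sets -/
def IpS (S : Sys G M) (A X Y : Set M) : Prop :=
  Ip S A (fun x : X => (x : M)) (fun y : Y => (y : M))

/-- `u` and `u'` are separated by an independent partition of `Z` -/
def Sep (S : Sys G M) (A Z : Set M) (u u' : M) : Prop :=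
  ∃ X ⊆ Z, IpS S A X (Z \ X) ∧ ¬ (u ∈ X ↔ u' ∈ X)

/-- `u` and `u'` are in the same part of the finest independent partition -/
def Rc (S : Sys G M) (A : Set M) (u u' : M) : Prop :=
  ∃ Z : Set M, Z.Finite ∧ Z ⊆ Aᶜ ∧ u ∈ Z ∧ u' ∈ Z ∧ ¬ Sep S A Z u u'

/-- the part of `u` -/
def Dc (S : Sys G M) (A : Set M) (u : M) : Set M := {y | Rc S A u y}

/-- the elements of `A` generated by `x` -/
def trc (S : Sys G M) (A : Set M) (x : M) : Set M := {y | y ∈ A ∧ Gn S x y}

/-- the finite family `q` determines the types over `A` of the families outside of `A` -/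
structure Dt (S : Sys G M) (A : Set M) (q : P → M) : Prop where
  fin : Finite P
  typ : ∀ (V : Type) (z z' : V → M), (∀ v, z v ∉ A) → (∀ v, z' v ∉ A) →
    Eqv S (Sum.elim q z) S (Sum.elim q z') → Eqv S (ov A z) S (ov A z')
  trc : ∀ x ∉ A, ∀ y ∈ A, Gn S x y → ∃ c, Gn S (q c) y

/-- the parts of `u` and `u'` are isomorphic over `q` -/
def QI (S : Sys G M) (A : Set M) (q : P → M) (u u' : M) : Prop :=
  ∃ τ : M → M, BijOn τ (Dc S A u) (Dc S A u') ∧
    Eqv S (Sum.elim q fun y : Dc S A u => (y : M)) S (Sum.elim q fun y : Dc S A u => τ y)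

end

/-- [LSK] (0.6 h; no other module; `exists_closed` in `VB/C.lean`) Countable closed existentially
closed sets.

Proof. `exists_closed` (its proof shows the form) for the function which maps a finite set `F` to the
union of: `C ∪ {m₀}`; the closure `cl S F` (`cl_countable`); and for every `n`, every finite set (a
`Finset`, countably many) `D` of atoms over `F ⊕ Fin n` and every `D' ⊆ D`, the range of one chosen
tuple `v : Fin n → M` such that exactly the atoms of `D'` are true among those of `D`, if there is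
one. The types `At G (F ⊕ Fin n)` are countable (`At G ι` is countable for countable `ι`: see the
module KWM). `EC`: given `n`, `v`, `D` over `A ⊕ Fin n`, the atoms of `D` have finitely many
variables, so they come from atoms over `F ⊕ Fin n` for a finite `F ⊆ A` (`At.exists_sub`);
`D' := ` those which are true for `v`. `Cl S A`: `S.fn f x ∈ cl S {x}`. -/
def St_LSK : Prop := ∀ (G : Sg) (M : Type) (S : Sys G M) (C : Set M), Countable G.Fn →
  Countable G.Rl → Nonempty M → C.Countable →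
  ∃ A : Set M, C ⊆ A ∧ A.Countable ∧ Cl S A ∧ EC S A

/-- [ULM] (0.5 h; no other module) Existence of limits.

Proof. Let `X := Finset (At G (A ⊕ ι))`. For `D : X` choose by the hypothesis `v : ι → M` with the same
truth values on `D`, and then by `EC` a family `y_D : ι → M` in `A` with the same truth values on
`D`: the atoms of `D` have finitely many variables in `ι`; choose `n` and `g : Fin n → ι` injective
with these variables in its range, apply `EC` to `v ∘ g` and the atoms of `D` pulled back to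
`A ⊕ Fin n`; put `y_D (g i) := v' i` and an arbitrary element of `A` for the other coordinates.
`u := (Ultrafilter.of atTop).map (fun D => y_D)`. For every atom `a`: eventually `a ∈ D`. -/
def St_ULM : Prop := ∀ (G : Sg) (M N ι : Type) (S : Sys G M) (A : Set M) (S' : Sys G N)
  (e : A → N) (E : ι → N), EC S A →
  (∀ D : Set (At G (A ⊕ ι)), D.Finite → ∃ v : ι → M, ∀ a ∈ D,
    Tr S' (Sum.elim e E) a ↔ Tr S (ov A v) a) →
  ∃ u : Ultrafilter (ι → M), (∀ᶠ y in (u : Filter (ι → M)), ∀ i, y i ∈ A) ∧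
    ∀ a : At G (A ⊕ ι), Tr S' (Sum.elim e E) a ↔ ∀ᶠ y in (u : Filter (ι → M)), Tr S (ov A y) a

/-- [IPA] (1.2 h; uses `St_ULM`) Rules for independence, first part.

Proof. By `St_ULM` (with `S' := S`, `E := v`) every family has a limit `u` with `Lm S A v u`.
(0) If `Lm S A v u`, `y : κ → M` is in `A`, `a : At G (A ⊕ (ι ⊕ κ))`: `Tr S (ov A (Sum.elim v y)) a ↔
∀ᶠ x in u, Tr S (ov A (Sum.elim x y)) a` (replace the variables of `κ` by elements of `A`).
(1) Let `Lm S A v' w`. For `x` in `A`: `Tr (x, v') ↔ ∀ᶠ y in w, Tr (x, y)` by (0). So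
`∀ᶠ x in u, Tr (x, v') ↔ ∀ᶠ x in u, ∀ᶠ y in w, Tr (x, y) ↔ ∀ᶠ y in w, ∀ᶠ x in u, Tr (x, y)`
(`Cmt U`, with the atom `a` renamed from `A` to `M`) `↔ ∀ᶠ y in w, Tr (v, y)` by (0), and the last
expression does not depend on `u`.
(2) from the computation in (1): `Tr (v, v') ↔ ∀ᶠ y in w, Tr (v, y)` for one `w`, by (1) for all.
(3) `Tr (v, v') ↔ ∀ᶠ x in u, Tr (x, v')` and for `x` in `A` `Tr (x, v') ↔ Tr (x, v₁')`; `Lm S A v u`
implies `Lm S A v₁ u`. (4) similarly. (5) `Lm S A (v ∘ f) (u.map (· ∘ f))`; by (1) it is enough to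
use this limit in the definition of `Ip S A (v ∘ f) (v' ∘ g)`. -/
def St_IPA : Prop := ∀ (G : Sg) (U : ∀ M : Type, Sys G M → Prop), Cmt U → ∀ (M : Type)
  (S : Sys G M) (A : Set M), U M S → EC S A →
  (∀ (ι : Type) (v : ι → M), ∃ u, Lm S A v u) ∧
  (∀ (ι κ : Type) (v : ι → M) (v' : κ → M) (u u' : Ultrafilter (ι → M))
    (a : At G (A ⊕ (ι ⊕ κ))), Lm S A v u → Lm S A v u' →
    ((∀ᶠ y in (u : Filter (ι → M)), Tr S (ov A (Sum.elim y v')) a) ↔
      ∀ᶠ y in (u' : Filter (ι → M)), Tr S (ov A (Sum.elim y v')) a)) ∧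
  (∀ (ι κ : Type) (v : ι → M) (v' : κ → M), Ip S A v v' → Ip S A v' v) ∧
  (∀ (ι κ : Type) (v v₁ : ι → M) (v' v₁' : κ → M), Ip S A v v' → Ip S A v₁ v₁' →
    Eqv S (ov A v) S (ov A v₁) → Eqv S (ov A v') S (ov A v₁') →
    Eqv S (ov A (Sum.elim v v')) S (ov A (Sum.elim v₁ v₁'))) ∧
  (∀ (ι κ : Type) (v v₁ : ι → M) (v' v₁' : κ → M), Ip S A v v' →
    Eqv S (ov A (Sum.elim v v')) S (ov A (Sum.elim v₁ v₁')) → Ip S A v₁ v₁') ∧
  (∀ (ι κ ι' κ' : Type) (v : ι → M) (v' : κ → M) (f : ι' → ι) (g : κ' → κ), Ip S A v v' →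
    Ip S A (v ∘ f) (v' ∘ g))

/-- [IPB] (0.8 h; uses `St_IPA`) Rules for independence, second part.

Proof. (1) Let `Lm S A v₁ u`, `Lm S A v' w`. `Tr (v₁, v₂, v') ↔ ∀ᶠ z in w, Tr (v₁, v₂, z)` (`Ip` of
`v'` and `(v₁, v₂)`, symmetry) `↔ ∀ᶠ z in w, ∀ᶠ x in u, Tr (x, v₂, z)` (`z` in `A`, `Ip S A v₁ v₂`)
`↔ ∀ᶠ x in u, ∀ᶠ z in w, Tr (x, v₂, z)` (`Cmt U`, the elements `v₂` as parameters)
`↔ ∀ᶠ x in u, Tr (x, v₂, v')` (`x` in `A`, `Ip S A v' v₂` from rule (6) of `St_IPA` and symmetry).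
(2) An atom has finitely many variables. With `E`, `F` the finite sets of its variables the
hypothesis gives the claim for the restrictions; `Lm S A (v on E) (u.map restriction)` as in
`St_IPA`. (3) `Gn S (v i) (v' j)`, `v' j = S.w l (v i)`: this atom gives for `u`-almost all `y`
(in `A`): `v' j = S.w l (y i) ∈ A` (`Cl S A`), contradiction. -/
def St_IPB : Prop := ∀ (G : Sg) (U : ∀ M : Type, Sys G M → Prop), Cmt U → ∀ (M : Type)
  (S : Sys G M) (A : Set M), U M S → EC S A → Cl S A →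
  (∀ (ι₁ ι₂ κ : Type) (v₁ : ι₁ → M) (v₂ : ι₂ → M) (v' : κ → M),
    Ip S A (Sum.elim v₁ v₂) v' → Ip S A v₁ v₂ → Ip S A v₁ (Sum.elim v₂ v')) ∧
  (∀ (ι κ : Type) (v : ι → M) (v' : κ → M),
    (∀ (E : Set ι) (F : Set κ), E.Finite → F.Finite →
      Ip S A (fun i : E => v i) (fun j : F => v' j)) → Ip S A v v') ∧
  (∀ (ι κ : Type) (v : ι → M) (v' : κ → M), Ip S A v v' → ∀ i j, v' j ∉ A →
    ¬ Gn S (v i) (v' j))

/-- [DEP] (2.5 h; uses `St_ULM`, `St_IPA`, `St_MPR`, `St_PRQ`, `St_PRF`, `St_QLB`) Families outside of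
`A₁` are independent over `A` from families in `A₁`.

Proof. Suppose not: `Lm S A b u` and an atom `a` with different truth values of (D) `Tr (ov A (b, v))
a` and (O) `∀ᶠ y in u, Tr (ov A (y, v)) a`.
Step 1. `Lm S A₁ v w₁` (`St_ULM`). It is nonprincipal: `NP w₁ id`: for `r`, `m`: if `m ∉ A₁` clear
(`y r ∈ A₁`); if `m ∈ A₁` use the atom `y r = m` and `v r ≠ m`. `St_MPR` for `S`, `T := ℕ`,
`Y := ι → M`, constant `w₁`, `f := fun _ => id`: `N₁, S₁, e₁, x : ℕ → ι → N₁`. By `St_PRF` (1) and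
`Lm`: (F) `Tr S₁ (Sum.elim (fun m : A₁ => e₁ m) (x n)) a' ↔ Tr S (ov A₁ v) a'` for all `n`, `a'`. By
`St_PRF` (3): `x n r ≠ x n' r` for `n ≠ n'`.
Step 2. Let `E : La κ ι → N₁`, `E (inl c) := e₁ (b c)`, `E (inr (n, r)) := x n r`. `St_ULM` for `A`,
`S' := S₁`, `e₁` on `A`, and `E` gives an ultrafilter `w₂` on `La κ ι → M`, concentrated on the
families in `A`, with (L) `Tr S₁ (e₁ on A, E) a' ↔ ∀ᶠ y in w₂, Tr S (ov A y) a'`. Hypothesis of
`St_ULM`: for `D` finite let `l` be a list of the numbers `n` which occur; by `St_PRQ` (atoms over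
`M ⊕ ℕ × ι`: `inl c` becomes the parameter `b c`) and `St_QLB` there is `y : ℕ → (ι → M)` such that
the family `inl c ↦ b c`, `inr (n, r) ↦ y n r` of `M` has the same truth values on `D` as `E`.
Step 3. `St_MPR` for `S`, `T := ℕ`, `Y := La κ ι → M`, constant `w₂`, `fun _ => id`:
`N₂, S₂, e₂, g : ℕ → La κ ι → N₂`.
Step 4. `Wre U` for `S₂`, `W := hyperfilter ℕ`, `k ↦ g k ∘ inl`, `Y := ℕ`, `u k := hyperfilter ℕ`,
`f k n r := g k (inr (n, r))`, and the atom `a` with `A` renamed by `e₂`. `NP`: `g k (inr (n, r)) ≠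
g k (inr (n', r))` for `n ≠ n'` by `St_PRF` (1), (L) and Step 1, so every `m` is avoided eventually.
Left side: for all `k`, `n`: `Tr S₂ (e₂, g k ∘ inl, g k (inr (n, ·))) a ↔ ∀ᶠ y in w₂, Tr S (ov A
(y ∘ inl, y (inr (n, ·)))) a ↔ Tr S₁ (e₁, e₁ ∘ b, x n) a ↔ Tr S (ov A (b, v)) a`, which is (D) (by
`St_PRF` (1), (L), (F): `b` and `A` are in `A₁`).
Right side: for `i ≠ j`, all `n`: `Tr S₂ (e₂, g j ∘ inl, g i (inr (n, ·))) a ↔ ∀ᶠ y in w₂,
∀ᶠ y' in w₂, Tr S (ov A (y ∘ inl, y' (inr (n, ·)))) a` (`St_PRF` (2), first limit at `j`), and for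
`y` in `A` the inner part is `Tr S₁ (e₁, e₁ ∘ y ∘ inl, x n) a ↔ Tr S (ov A (y ∘ inl, v)) a` (by (L)
and (F)). So the right side is `∀ᶠ y in w₂.map (· ∘ inl), Tr S (ov A (y, v)) a`; and
`Lm S A b (w₂.map (· ∘ inl))` by (L). By `St_IPA` (2) this is (O). Contradiction. -/
def St_DEP : Prop := ∀ (G : Sg) (U : ∀ M : Type, Sys G M → Prop), IsU U → Cmt U → Wre U →
  ∀ (M : Type) (S : Sys G M) (A A₁ : Set M), U M S → EC S A → EC S A₁ → A ⊆ A₁ →
  ∀ (ι κ : Type) (v : ι → M) (b : κ → M), (∀ i, v i ∉ A₁) → (∀ c, b c ∈ A₁) → Ip S A b v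

/-- [SPS] (0.6 h; no other module) Splitting an infinite family of sets.

Proof. Invariant: an infinite family `𝒯' ⊆ 𝒯`. Two different members of `𝒯'` differ at a point `c`;
one of the sets `{T ∈ 𝒯' | c ∈ T}`, `{T ∈ 𝒯' | c ∉ T}` is infinite; let it be the next family,
`ε := (c ∈ T for its members)`, and take `T` in the other one (not empty). Recursion
(`Nat.rec` on `{𝒯' // 𝒯' ⊆ 𝒯 ∧ 𝒯'.Infinite}`); later members are in the later families. -/
def St_SPS : Prop := ∀ (C : Type) (𝒯 : Set (Set C)), 𝒯.Infinite →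
  ∃ (T : ℕ → Set C) (c : ℕ → C) (ε : ℕ → Prop), (∀ n, T n ∈ 𝒯) ∧ (∀ n, c n ∈ T n ↔ ¬ ε n) ∧
    ∀ m n, m < n → (c m ∈ T n ↔ ε m)

/-- [FTR] (0.8 h; uses `St_SPS`, `St_IPA`) Finitely many traces.

Proof. Otherwise let `C := {c : κ → M // ∀ i, c i ∈ A}`; the sets `{c : C | Tr S (Sum.elim c x) a}`
form an infinite family; `St_SPS` gives `x n : ι → M` outside of `A`, `c n : C`, `ε n` with
`Tr (c n, x n) ↔ ¬ ε n` and `Tr (c m, x n) ↔ ε m` for `m < n`. Let `W := hyperfilter ℕ`.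
(1) `Cmt U` (`x` along `W`, `c` along `W`; the atom has no parameters):
`∀ᶠ i, ∀ᶠ j, Tr (c j, x i) ↔ ∀ᶠ j, ∀ᶠ i, Tr (c j, x i) ↔ ∀ᶠ j, ε j` (eventually `i > j`).
(2) `Lm S A (x i) (u i)` (`St_IPA` (1)). `Wre U` with `b := c`, `f i := id`: `NP (u i) id` as in
`St_DEP` (an element `m ∉ A` is avoided because `y r ∈ A`, an element `m ∈ A` because `x i r ≠ m`).
The left side is `∀ᶠ i, Tr (c i, x i) ↔ ∀ᶠ i, ¬ ε i` (`c i` is in `A`), the right side
`∀ᶠ i, ∀ᶠ j, Tr (c j, x i) ↔ ∀ᶠ j, ε j` by (1). Contradiction (`Ultrafilter.eventually_not`). -/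
def St_FTR : Prop := ∀ (G : Sg) (U : ∀ M : Type, Sys G M → Prop), Cmt U → Wre U →
  ∀ (M : Type) (S : Sys G M) (A : Set M), U M S → EC S A →
  ∀ (ι κ : Type) (a : At G (κ ⊕ ι)),
  {T : Set (κ → M) | ∃ x : ι → M, (∀ i, x i ∉ A) ∧
    T = {c | (∀ i, c i ∈ A) ∧ Tr S (Sum.elim c x) a}}.Finite

/-- [ROT] (2 h; uses `St_IPA`, `St_MPR`, `St_PRF`, `St_VMX`, `St_CSD`) Finitely many traces of
generated sets.

Proof. Otherwise there are `x : ℕ → M` outside of `A` with pairwise different traces. Let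
`Lm S A (fun _ : Unit => x i) (w i)`; `St_MPR` for `S`, `T := ℕ × ℕ`, `Y := Unit → M`,
`(i, n) ↦ w i`, `f := fun _ => id`: `N, S', e, z'`; write `z (i, n) := z' (i, n) ()`. `NP (w i) id`
as in `St_FTR`. So (F) `z t` is not generated by `e m` nor by `z s`, `s ≠ t` (`St_PRF` (3)).
(a) `Gn S' (z (i, n)) (e m) ↔ m ∈ trc S A (x i)`: for a word `l`: `e m = S'.w l (z (i, n)) ↔
∀ᶠ y in w i, m = S.w l (y ())` (`St_PRF` (1)); as `y () ∈ A` and `A` is closed this implies `m ∈ A`,
and for `m ∈ A` it is `m = S.w l (x i)` by `Lm`.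
(b) If `s ≠ t`, `Gn S' (z s) y`, `Gn S' (z t) y`, then `y = e m` for some `m`, `m ∈ A`: `y =
S'.w l (z s) = S'.w l' (z t)`; `PR.lim` at `s` gives `y₀` (in `A`) with `S'.w l (e y₀) = S'.w l' (z t)
= y`, so `y = e (S.w l y₀)`. By (a) `m` is in both traces.
Let `q : Empty → N`, `X N' := cl S' {z (i, n) | i ∈ N', n < i + 2}`, `J k := {k + 2}`,
`rt X u y :↔ Gn S' u y ∧ ∃ u', Mx S' X q u' ∧ ¬ Mg S' u u' ∧ Gn S' u' y`,
`Lk X u v := ∀ y, rt X u y ↔ rt X v y`. `VLk S' q Lk ω`: `vis`: if `Lk X a.1 b.1` and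
`rt X' a.2 y'` with `u'`: answer `y'` by `y ∈ X` and `u'` by `u ∈ X` (`BFR.back`; `y' ∈ X'` because
`X'` is closed); `St_VMX`, `BW.eqv` give `rt X a.1 y`, so `rt X b.1 y`, and playing its witness
`rt X' b.2 y'`. `inv`: `rt X u = rt X u'` if `Mg S' u u'`.
(c) `Mx S' (X N') q u ↔ ∃ i ∈ N', ∃ n < i + 2, Mg S' u (z (i, n))` by (F). For such `u`:
`rt (X N') u y ↔ ∃ m ∈ trc S A (x i), y = e m`: `→` by (b), (a); `←` by (a), with
`u' := z (i, n')`, `n' ≠ n`, `n' < i + 2`. So for such `u`, `v` (with `i`, `j`):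
`Lk (X N') u v ↔ trc S A (x i) = trc S A (x j) ↔ i = j` (`e` is injective). Hence the component of
`u` consists of the `v` with `Mg S' v (z (i, n'))`, `n' < i + 2`, and `Cz .. u n ↔ n = i + 2` (as in
`St_TC1`). `St_CSD` gives a contradiction. -/
def St_ROT : Prop := ∀ (G : Sg) (U : ∀ M : Type, Sys G M → Prop), Countable G.Fn → IsU U →
  Cmt U → Pg U → ∀ (M : Type) (S : Sys G M) (A : Set M), U M S → EC S A → Cl S A →
  {T : Set M | ∃ x ∉ A, T = trc S A x}.Finite

/-- [DTT] (1.5 h; uses `St_FTR`, `St_ROT`) A finite family determines the types over `A`.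

Proof. (1) A finite family `𝒯` of subsets of a type `C` has a finite set `E ⊆ C` which separates its
members: for two different members choose a point in exactly one of them.
(2) By `St_ROT` choose finitely many `x₁, .., x_m ∉ A` which have all traces `trc S A x`, `x ∉ A`.
For every `R` with `2 ≤ G.ar R` and every nonempty `I ⊆ Fin (G.ar R)` consider the atom
`.rel R (fun k => ([], if k ∈ I then inr k else inl k))` over `{k // k ∉ I} ⊕ {k // k ∈ I}`. By
`St_FTR` and (1) (the traces are subsets of `{c | ∀ i, c i ∈ A}`) there is a finite set `E_(R,I)` of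
tuples in `A` which separates its traces. Let `q` be the family of `x₁, .., x_m` and all the
coordinates of the elements of all `E_(R,I)`.
(3) `trc`: clear from the choice of the `x_i`. `typ`: let `z, z'` be as there.
 Equalities: both variables in `A`, or both in `V`: clear (the second is part of the hypothesis).
 `S.w l (z v) = S.w l' c`, `c ∈ A`: this element is in `A` (`Cl S A`), so it is `S.w l'' (q i)` by
`trc`; then `S.w l (z' v) = S.w l'' (q i)` by the hypothesis. The converse is the same.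
 Relations: `.rel R t` over `A ⊕ V`. If `G.ar R = 0`: clear; if `G.ar R = 1`: clear. Let `2 ≤ G.ar R`
and let `I` be the set of the `k` such that `(t k).2 = inr v` and `S.w (t k).1 (z v) ∉ A`. For the
`k ∉ I` with `(t k).2 = inr v` the element `S.w (t k).1 (z v) ∈ A` is `S.w l'' (q i)` (`trc`), and so
`S.w (t k).1 (z' v)` is the same element of `A`. By symmetry `I` is also the set for `z'`. So the
atom says `R(x, c)` for `z` and `R(x', c)` for `z'`, with the same tuple `c` in `A` on the complement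
of `I`, and `x k = S.w (t k).1 (z v)`, `x' k = S.w (t k).1 (z' v)` for `k ∈ I`. If `I = ∅` they are
equal. Otherwise, for the tuples `c'` of `E_(R,I)`: `R(x, c') ↔ R(x', c')` by the hypothesis (the
coordinates of `c'` are in `q`), so the traces of `x` and `x'` are equal, `R(x, c) ↔ R(x', c)`. -/
def St_DTT : Prop := ∀ (G : Sg) (U : ∀ M : Type, Sys G M → Prop), Countable G.Fn → IsU U →
  Cmt U → Wre U → Pg U → {R : G.Rl | 2 ≤ G.ar R}.Finite →
  ∀ (M : Type) (S : Sys G M) (A : Set M), U M S → EC S A → Cl S A →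
  ∃ (P : Type) (q : P → M), Dt S A q

/-- [CMP] (2 h; uses `St_IPA`, `St_IPB`) The finest independent partition.

Proof. Rules for sets: (S1) `IpS` is symmetric; (S2) if `IpS S A X Y`, `X' ⊆ X`, `Y' ⊆ Y` then
`IpS S A X' Y'` (`St_IPA` (6)); (S3) if `IpS S A (X₁ ∪ X₂) Y` and `IpS S A X₁ X₂`, `X₁ ∩ X₂ = ∅`, then
`IpS S A X₁ (X₂ ∪ Y)` (`St_IPB` (1) and `St_IPA` (6): the families indexed by `X₁ ∪ X₂` and
`X₁ ⊕ X₂` are reindexings of each other, similarly `X₂ ∪ Y` is covered by `X₂ ⊕ Y`). (S4) if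
`IpS S A X (Z \ X)` and `IpS S A X' (Z \ X')` for `X, X' ⊆ Z` then `IpS S A (X ∩ X') (Z \ (X ∩ X'))`:
(S3) with `X₁ := X ∩ X'`, `X₂ := X \ X'`, `Y := Z \ X` (`IpS S A X₁ X₂` by (S2) from `X'`), as
`X₂ ∪ Y ⊇ Z \ (X ∩ X')`. So the `X ⊆ Z` with `IpS S A X (Z \ X)` form a Boolean algebra (`∅` and `Z`
belong to it: `IpS S A ∅ Z` because a limit of the empty family is trivial).
(1) Reflexivity: `Z := {u}`. Symmetry: clear. Transitivity: if `Z₁`, `Z₂` are witnesses for `u, u'`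
and `u', u''`, let `Z := Z₁ ∪ Z₂`. If `X ⊆ Z` separates `u` and `u''`, it separates `u, u'` or
`u', u''`; then `X ∩ Z₁` or `X ∩ Z₂` is an independent part of `Z₁` or `Z₂` by (S2), contradiction.
(2) `Z := {u, S.fn f u}`: if it is separated, `IpS S A {u} {S.fn f u}` (S1), against `St_IPB` (3).
(3) Let `C` be a union of classes. By `St_IPB` (2) (and (S2)) it is enough that `IpS S A X Y` for
finite `X ⊆ C`, `Y ⊆ Aᶜ \ C`. Let `Z := X ∪ Y`. For `x ∈ X`, `y ∈ Y` not `Rc S A x y`, so some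
`X_xy ⊆ Z` with `IpS S A X_xy (Z \ X_xy)` separates `x` and `y`; by (S1) (complement)
`x ∈ X_xy`, `y ∉ X_xy`. `X = ⋃ x ∈ X, ⋂ y ∈ Y, X_xy` is in the Boolean algebra of `Z` (finite unions
and intersections; if `Y = ∅` clear), `Z \ X = Y`.
(4) Let `Z` be a witness for `u, u'`, `Z₁ := Z ∩ Dc S A u`. If `X ⊆ Z₁`, `IpS S A X (Z₁ \ X)`
separates `u, u'`: by (3) `IpS S A Z₁ (Z \ Z₁)`, so (S3) gives `IpS S A X (Z \ X)`, which separates
`u, u'` in `Z`, contradiction. -/
def St_CMP : Prop := ∀ (G : Sg) (U : ∀ M : Type, Sys G M → Prop), Cmt U → ∀ (M : Type)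
  (S : Sys G M) (A : Set M), U M S → EC S A → Cl S A →
  (∀ u ∉ A, Rc S A u u) ∧ (∀ u u', Rc S A u u' → Rc S A u' u) ∧
  (∀ u u' u'', Rc S A u u' → Rc S A u' u'' → Rc S A u u'') ∧
  (∀ f, ∀ u ∉ A, S.fn f u ∉ A → Rc S A u (S.fn f u)) ∧
  (∀ C : Set M, C ⊆ Aᶜ → (∀ x ∈ C, ∀ y, Rc S A x y → y ∈ C) → IpS S A C (Aᶜ \ C)) ∧
  (∀ u u', Rc S A u u' → ∃ Z : Set M, Z.Finite ∧ Z ⊆ Dc S A u ∧ u ∈ Z ∧ u' ∈ Z ∧
    ¬ Sep S A Z u u')

/-- [CMC] (0.4 h; uses `St_LSK`, `St_DEP`, `St_IPA`) The parts are countable.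

Proof. `St_LSK` for `A ∪ {u}`: `A₁`. We show `Dc S A u ⊆ A₁`. Let `Rc S A u u'` with witness `Z`, and
suppose `u' ∉ A₁`. `X := Z ∩ A₁` contains `u`, not `u'`. `IpS S A X (Z \ X)` by `St_DEP` (for the
families indexed by `X` and `Z \ X`), contradiction. -/
def St_CMC : Prop := ∀ (G : Sg) (U : ∀ M : Type, Sys G M → Prop), Countable G.Fn →
  Countable G.Rl → IsU U → Cmt U → Wre U → ∀ (M : Type) (S : Sys G M) (A : Set M), U M S →
  EC S A → A.Countable → ∀ u, (Dc S A u).Countable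

/-- [ISO] (0.7 h; no other module; compare `thm_AUT` in `HEC/AUT.lean`) Countable sets which are
equivalent at all countable levels are isomorphic.

Proof. Say that a finite `q ⊆ X ×ˢ X'` is good if `∀ γ < om1, BFR S S' X X' γ q`. If `q` is good and
`x ∈ X` then some `insert (x, y) q`, `y ∈ X'`, is good: otherwise for every `y ∈ X'` there is
`γ y < om1` with `¬ BFR .. (γ y) (insert (x, y) q)`; `X'` is countable, so there is `γ < om1` above
all `γ y` (see the lemmas on suprema of countable families below `om1` used in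
`exists_SL_of_countable`, `VB/C.lean`), and `BFR .. (γ + 1) q` gives a contradiction. Symmetrically
for `y ∈ X'`. Build an increasing sequence of good finite sets starting with `p` as in `HEC/AUT.lean`
(enumerate `X` and `X'`); its union is the graph of a bijection. `τ x := x₀` for `x ∉ X`. -/
def St_ISO : Prop := ∀ (L : FirstOrder.Language.{0, 0}) (M : Type) (S S' : L.Structure M)
  (X X' : Set M) (p : Set (M × M)), X.Countable → X'.Countable → p.Finite →
  (∀ a ∈ p, a.1 ∈ X ∧ a.2 ∈ X') → (∀ γ < om1, BFR S S' X X' γ p) →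
  ∃ τ : M → M, BijOn τ X X' ∧ AtEq S S' ((fun x => (x, τ x)) '' X) ∧ ∀ a ∈ p, τ a.1 = a.2

/-- [VPT] (1 h; uses `St_IPA`, `St_CMP`) The parts are visible.

Proof. Let `Z` be the finite set of `St_CMP` (6) for `u, y` (`Z ⊆ Dc S A u`, `u, y ∈ Z`,
`¬ Sep S A Z u y`). `Z ⊆ X`. Play the elements of `Z` (`BFR.forth_many`, from the level `ω`): a map
`ζ : Z → M` with values in `X'` and `AtEq` for `π ∪ {(x, ζ x)}`; by the first part of `AtEq`
`ζ u = u'`, `ζ y = y'`, and `ζ` is injective. By `BW.eqv` (T) `Eqv S (Sum.elim q (fun x : Z => x))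
S (Sum.elim q ζ)`. The elements of `Z` are not generated by `q` (hypothesis on `X`), so those of
`Z' := range ζ` are not; as `Z' ⊆ X'`, they are not in `A`. By `Dt.typ` (`Z ⊆ Aᶜ`) the families
`Z` and `ζ` have the same type over `A`. `¬ Sep S A Z' u' y'`: if `X₁' ⊆ Z'` with
`IpS S A X₁' (Z' \ X₁')` separates `u', y'`, let `X₁ := {x ∈ Z | ζ x ∈ X₁'}`; by `St_IPA` (5), (6)
(the type over `A` of the family `Z` is that of `ζ`) `IpS S A X₁ (Z \ X₁)`, and `X₁` separates
`u, y`. So `Rc S A u' y'`. -/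
def St_VPT : Prop := ∀ (G : Sg) (U : ∀ M : Type, Sys G M → Prop), Cmt U → ∀ (M P : Type)
  (S : Sys G M) (A : Set M) (q : P → M), U M S → EC S A → Cl S A → Dt S A q →
  ∀ (X X' : Set M) (π : Set (M × M)) (γ : Ordinal.{0}),
  (∀ x ∈ X, x ∉ A ∨ ∃ c, Gn S (q c) x) → (∀ x ∈ X', x ∉ A ∨ ∃ c, Gn S (q c) x) →
  Ordinal.omega0 ≤ γ → BW S S X X' γ π → prs q q ⊆ π →
  ∀ u u' y y', (u, u') ∈ π → (y, y') ∈ π → Dc S A u ⊆ X → (∀ x ∈ Dc S A u, ∀ c, ¬ Gn S (q c) x) →
  Rc S A u y → Rc S A u' y'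

/-- [FST] (2 h; uses `St_CMP`, `St_CMC`, `St_ISO`, `St_VPT`) Finitely many isomorphism types of parts
over `q`.

Proof. Suppose there is such a sequence `u n`; write `D n := Dc S A (u n)`, `B := cl S (range q)`.
The `D n` are pairwise disjoint (if `D m` meets `D n` they are equal, and `QI` by the identity).
(1) For `m ≠ n` there is `γ < om1` with `¬ BW S S (B ∪ D m) (B ∪ D n) γ (prs q q)`: otherwise
`St_ISO` (the sets are countable by `St_CMC`, `cl_countable`) gives `τ` with `τ (q c) = q c`, so `τ`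
is the identity on `B` (words), maps `D m` onto `D n` (they do not meet `B`), and `QI S A q (u m)
(u n)` by `AtEq` (`atEq_iff`). Let `γ₀ < om1` be above all these `γ`.
(2) For `N ⊆ ℕ` let `X N := B ∪ ⋃ k ∈ N, D k`; it is closed: for `y ∈ D k`, `S.fn f y ∈ A` implies
`S.fn f y ∈ B` by `Dt.trc`, otherwise `S.fn f y ∈ D k` by `St_CMP` (4), (3). Let
`N f := {2 * k + (if f k then 1 else 0)}`; `Pg U` for `f ↦ X (N f)`, the constants `q`, the level
`ω + γ₀ + 1` (`X (N f)` is countable and infinite: it contains all `u k`, `k ∈ N f`, which are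
different) gives `f ≠ f'` with `BW S S (X (N f)) (X (N f')) (ω + γ₀ + 1) (prs q q)`. We show
`N f ⊆ N f'`, so `f = f'`.
(3) Let `k ∈ N f`; answer `u k` by `u' ∈ X (N f')`, level `ω + γ₀`. `u'` is not generated by `q`, so
`u' ∈ D l` for some `l ∈ N f'`. Claim: for all `β`, `π`: if `BW S S (X (N f)) (X (N f')) (ω + β) π`,
`prs q q ⊆ π`, `(u k, u') ∈ π`, then `BW S S (B ∪ D k) (B ∪ D l) β π`. Induction on `β`: for
`β' < β` and `x ∈ B ∪ D k` take the answer `y ∈ X (N f')` at the level `ω + β'`. If `x ∈ B`, then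
`y = x` (words of `q`, `BW.eqv`); if `x ∈ D k`, then `Rc S A u' y` by `St_VPT` (hypotheses: elements of
`X (N f)` are in `B` or outside of `A`), so `y ∈ D l` (`St_CMP` (3)). The other direction: the same
for the inverse (`BFR.symm`; `Dc S A u' = D l`, `St_VPT` for `X (N f')`, `X (N f)`).
(4) So `BW S S (B ∪ D k) (B ∪ D l) γ₀ (prs q q)` (`BFR.anti`), hence `k = l ∈ N f'` by (1). -/
def St_FST : Prop := ∀ (G : Sg) (U : ∀ M : Type, Sys G M → Prop), Countable G.Fn →
  Countable G.Rl → IsU U → Cmt U → Wre U → Pg U → ∀ (M P : Type) (S : Sys G M) (A : Set M)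
  (q : P → M), U M S → EC S A → Cl S A → A.Countable → Dt S A q →
  ¬ ∃ u : ℕ → M, (∀ n, u n ∉ A) ∧ (∀ n, ∀ x ∈ Dc S A (u n), ∀ c, ¬ Gn S (q c) x) ∧
    ∀ m n, m ≠ n → ¬ QI S A q (u m) (u n)

/-- [SWP] (1.5 h; uses `St_IPA`, `St_CMP`) Exchange of two parts which are isomorphic over `A`.

Proof. Write `D := Dc S A u`, `D' := Dc S A u'`, `τ' : D' → D` the inverse of `τ`, `σ` the permutation
of `M` which is `τ` on `D`, `τ'` on `D'` and the identity elsewhere (`D ∩ D' = ∅` by `St_CMP`). Let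
`Y := Aᶜ \ (D ∪ D')`. By `St_CMP` (5) and `St_IPA` (3), (6): `IpS S A D D'`, `IpS S A D' D`,
`IpS S A (D ∪ D') Y`.
(1) The families (indexed by `D ⊕ D'`) `(id_D, id_D')` and `(τ, τ')` have the same type over `A`:
`St_IPA` (4) with `v = id_D`, `v' = id_D'`, `v₁ = τ` (values in `D'`), `v₁' = τ'` (values in `D`):
`Ip S A v₁ v₁'` from `IpS S A D' D` by reindexing (`St_IPA` (6)); `Eqv (ov A id_D) (ov A τ)` is the
hypothesis, and its reindexing by `τ'` is `Eqv (ov A τ') (ov A id_D')`.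
(2) The families (indexed by `(D ⊕ D') ⊕ Y`) `((id_D, id_D'), id_Y)` and `((τ, τ'), id_Y)` have the
same type over `A`, by `St_IPA` (4) again (`Ip` of `(id_D, id_D')` and `id_Y`, and of `(τ, τ')` and
`id_Y`, from `IpS S A (D ∪ D') Y`).
(3) `M` is the disjoint union of `A`, `D`, `D'`, `Y` (`D, D' ⊆ Aᶜ`, see the definition of `Rc`), so
by `Eqv.comp'` `Eqv S id S σ`. -/
def St_SWP : Prop := ∀ (G : Sg) (U : ∀ M : Type, Sys G M → Prop), Cmt U → ∀ (M : Type)
  (S : Sys G M) (A : Set M), U M S → EC S A → Cl S A → ∀ (u u' : M) (τ : M → M), u ∉ A →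
  u' ∉ A → ¬ Rc S A u u' → BijOn τ (Dc S A u) (Dc S A u') →
  Eqv S (ov A fun y : Dc S A u => (y : M)) S (ov A fun y : Dc S A u => τ y) →
  ∃ σ : Equiv.Perm M, Eqv S id S σ ∧ (∀ y ∈ Dc S A u, σ y = τ y) ∧
    (∀ y, y ∉ Dc S A u → y ∉ Dc S A u' → σ y = y) ∧ ∀ y ∈ Dc S A u, σ (τ y) = y

/-- [CLQ] (0.5 h; no other module) A countable set of classes which is large in every class of
classes.

Proof. Let `r` be the equivalence relation on `Q`; there is no infinite sequence of pairwise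
inequivalent elements, so there are finitely many `r`-classes (otherwise choose representatives by
`Set.Infinite.natEmbedding` in the set of the classes `{y | r x y}`). For every class `K` choose a
countable subset `K' ⊆ K`: `K' := K` if `K` is countable, otherwise an infinite countable subset
(`Set.Infinite.natEmbedding`). `Q' := ⋃ K'`. -/
def St_CLQ : Prop := ∀ (Q : Type) (r : Q → Q → Prop), Equivalence r →
  (¬ ∃ x : ℕ → Q, ∀ m n, m ≠ n → ¬ r (x m) (x n)) →
  ∃ Q' : Set Q, Q'.Countable ∧ ∀ x ∉ Q', {y ∈ Q' | r x y}.Infinite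

/-- [END] (1.5 h; uses `St_LSK`, `St_DTT`, `St_CMP`, `St_CMC`, `St_FST`, `St_SWP`, `St_CLQ`) The members
of the class are not large.

Proof. Let `A` be as in `St_LSK` for `C := ∅` (`M` is nonempty by `IsU.ne`), `q` as in `St_DTT`,
`B := cl S (range q)`. Let `Q := {D : Set M // ∃ u ∉ A, D = Dc S A u ∧ D ∩ B = ∅}` (the parts which
do not meet `B`) and `r D D' := ∃ τ : M → M, BijOn τ D D' ∧ Eqv S (Sum.elim q (fun y : D => y)) S
(Sum.elim q (fun y : D => τ y))`. It is an equivalence relation, and `r` for `Dc S A u`,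
`Dc S A u'` is `QI S A q u u'`. By `St_FST` the hypothesis of `St_CLQ` holds: `Q'`.
Let `A₂ := A ∪ ⋃ {D | D a part, D ∩ B ≠ ∅} ∪ ⋃ D ∈ Q', D`. It is countable (`St_CMC`; `B` is
countable, so countably many parts meet it: every element of `B` outside of `A` lies in one part).
Suppose `NoCtblType (WS S)`; we show that `A₂` contradicts it. Let `F ⊆ A₂` be finite and `c : M`.
If `c ∈ A₂` take `d := c` (`BFR.refl`). Otherwise `D := Dc S A c` (`c ∉ A`) is in `Q`, not in `Q'`
(`c ∈ D` by `St_CMP` (1)), and `D ∩ A₂ = ∅` (parts are equal or disjoint). By `St_CLQ` there are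
infinitely many `D' ∈ Q'` with `r D D'`; they are pairwise disjoint, so one of them does not meet
`F`; `D' = Dc S A u'`, `D' ≠ D`. `τ` from `r D D'`; by `Dt.typ` (`D, D' ⊆ Aᶜ`) the families `D` and
`τ` have the same type over `A`. `St_SWP`: `σ`. `d := σ c = τ c ∈ D' ⊆ A₂`. `σ` fixes the elements
of `F` (not in `D`, not in `D'`). `BFR (WS S) (WS S) univ univ γ (insert (c, d) (id on F))` for all
`γ` by `BFR.of_relIso` (`RelIso (WS S) (WS S) σ` is `Eqv S id S σ`, `Eqv.comp`). -/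
def St_END : Prop := ∀ (G : Sg) (U : ∀ M : Type, Sys G M → Prop), Countable G.Fn →
  Countable G.Rl → IsU U → Cmt U → Wre U → Pg U → {R : G.Rl | 2 ≤ G.ar R}.Finite →
  ∀ (M : Type) (S : Sys G M), U M S → ¬ NoCtblType (WS S)

/-- [MNE] (0.2 h; uses `St_COM`, `St_WLU`, `St_END`) The main statement.

Proof. The arities are bounded: `d := max 2 (sup of G.ar R over the finite set {R | 2 ≤ G.ar R})`
gives `Ard G d`. `Cmt U` by `St_COM`, `Wre U` by `St_WLU`, and `St_END`. -/
def St_MNE : Prop := St_COM → St_WLU → St_END → St_MNU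

end UN
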