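import Pool.Agent.UN.StE
import Pool.Agent.UN.Bas

/-!
# UN, module ULM: existence of limits
-/

set_option autoImplicit false
set_option linter.unusedVariables false

namespace UN

open Set Filter

theorem thm_ULM : St_ULM := by
  classical
  intro G M N ι S A S' e E hE h
  obtain ⟨a₀, ha₀⟩ := hE.1
  have h1 : ∀ D : Finset (At G (A ⊕ ι)), ∃ y : ι → M, (∀ i, y i ∈ A) ∧
      ∀ a ∈ D, (Tr S' (Sum.elim e E) a ↔ Tr S (ov A y) a) := by
    intro D
    obtain ⟨v, hv⟩ := h D D.finite_toSet
    have hI : {i : ι | ∃ a ∈ D, Sum.inr i ∈ a.vs}.Finite := by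
      have : {i : ι | ∃ a ∈ D, Sum.inr i ∈ a.vs} = Sum.inr ⁻¹' (⋃ a ∈ D, a.vs) := by
        ext i; simp
      rw [this]
      exact (D.finite_toSet.biUnion fun a _ => a.vs_finite).preimage Sum.inr_injective.injOn
    have := hI.fintype
    let e' := Fintype.equivFin {i : ι | ∃ a ∈ D, Sum.inr i ∈ a.vs}
    have hb : ∀ a : D, ∃ b : At G (A ⊕ Fin (Fintype.card {i : ι | ∃ a ∈ D, Sum.inr i ∈ a.vs})),
        b.map (Sum.map id fun i => (e'.symm i : ι)) = a.1 := by
      intro a
      obtain ⟨b, hb⟩ := a.1.exists_sub a.1.vs Subset.rfl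
      refine ⟨b.map fun x => match x with
        | ⟨.inl c, _⟩ => .inl c
        | ⟨.inr i, hx⟩ => .inr (e' ⟨i, a.1, a.2, hx⟩), ?_⟩
      conv_rhs => rw [← hb]
      have key : ∀ x : a.1.vs, Sum.map id (fun i => (e'.symm i : ι)) (match x with
        | ⟨.inl c, _⟩ => .inl c
        | ⟨.inr i, hx⟩ => .inr (e' ⟨i, a.1, a.2, hx⟩)) = x.1 := by
        rintro ⟨c | i, hx⟩ <;> simp
      cases b with
      | eq s t => simp [At.map, At.sub, key]
      | rel R t => simp [At.map, At.sub, key]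
    choose B hB using hb
    obtain ⟨v', hv', hv''⟩ := hE.2 _ (fun i => v (e'.symm i : ι)) (range B) (finite_range B)
    refine ⟨fun i => if hi : i ∈ {i : ι | ∃ a ∈ D, Sum.inr i ∈ a.vs} then v' (e' ⟨i, hi⟩) else a₀,
      fun i => ?_, fun a ha => ?_⟩
    · by_cases hi : i ∈ {i : ι | ∃ a ∈ D, Sum.inr i ∈ a.vs}
      · simp only [dif_pos hi]; exact hv' _
      · simp only [dif_neg hi]; exact ha₀
    · rw [hv a ha]
      have h2 := hv'' (B ⟨a, ha⟩) ⟨_, rfl⟩
      have e1 : At.map (Sum.map id fun i => (e'.symm i : ι)) (B ⟨a, ha⟩) = a := hB ⟨a, ha⟩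
      rw [← e1, Tr_map, Tr_map]
      have e2 : (ov A v ∘ Sum.map id fun i => (e'.symm i : ι)) =
          ov A fun i => v (e'.symm i : ι) := by
        funext x; rcases x with x | x <;> rfl
      have e3 : ((ov A fun i => if hi : i ∈ {i : ι | ∃ a ∈ D, Sum.inr i ∈ a.vs} then
          v' (e' ⟨i, hi⟩) else a₀) ∘ Sum.map id fun i => (e'.symm i : ι)) = ov A v' := by
        funext x
        rcases x with x | x
        · rfl
        · simp only [Function.comp, Sum.map_inr, Sum.elim_inr]
          rw [dif_pos (e'.symm x).2]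
          simp
      rw [e2, e3]
      exact h2
  choose y hy hy' using h1
  have hle : ((Ultrafilter.of (atTop : Filter (Finset (At G (A ⊕ ι)))) :
      Ultrafilter (Finset (At G (A ⊕ ι)))) : Filter (Finset (At G (A ⊕ ι)))) ≤ atTop :=
    Ultrafilter.of_le atTop
  refine ⟨(Ultrafilter.of (atTop : Filter (Finset (At G (A ⊕ ι))))).map y, ?_, fun a => ?_⟩
  · rw [Ultrafilter.coe_map, eventually_map]
    exact Eventually.of_forall hy
  · have h2 : ∀ᶠ D in ((Ultrafilter.of (atTop : Filter (Finset (At G (A ⊕ ι)))) :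
        Ultrafilter (Finset (At G (A ⊕ ι)))) : Filter (Finset (At G (A ⊕ ι)))),
        (Tr S' (Sum.elim e E) a ↔ Tr S (ov A (y D)) a) :=
      hle ((eventually_ge_atTop ({a} : Finset _)).mono fun D hD => hy' D a (hD (by simp)))
    rw [Ultrafilter.coe_map, eventually_map]
    constructor
    · intro h
      exact h2.mono fun D hD => hD.1 h
    · intro h
      obtain ⟨D, hD1, hD2⟩ := (h2.and h).exists
      exact hD1.2 hD2

end UN
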